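import Mathlib

set_option autoImplicit false

namespace Pool.Agent.Helper88.OortTwist

open Polynomial

theorem zpow_pow_comm {Ω : Type} [Field Ω] (x : Ω) (α : ℤ) (a : ℕ) : (x ^ α) ^ a = (x ^ a) ^ α := by
  rw [← zpow_natCast, ← zpow_natCast, ← zpow_mul, ← zpow_mul, mul_comm]

/-- unique common root of two coprime powers -/
theorem unique_root {Ω : Type} [Field Ω] {a b : ℕ} (hab : Nat.Coprime a b) {u w : Ω} (hu : u ≠ 0)
    (hw : w ≠ 0) (huw : u ^ b = w ^ a) :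
    ∃ y₀ : Ω, y₀ ≠ 0 ∧ y₀ ^ a = u ∧ y₀ ^ b = w ∧ ∀ y : Ω, y ≠ 0 → y ^ a = u → y ^ b = w → y = y₀ := by
  obtain ⟨α, β, h⟩ := Nat.isCoprime_iff_coprime.2 hab
  refine ⟨u ^ α * w ^ β, mul_ne_zero (zpow_ne_zero _ hu) (zpow_ne_zero _ hw), ?_, ?_, ?_⟩
  · rw [mul_pow, zpow_pow_comm w, ← huw, ← zpow_natCast, ← zpow_mul, ← zpow_natCast u b, ← zpow_mul,
      ← zpow_add₀ hu, mul_comm (b : ℤ), h, zpow_one]
  · rw [mul_pow, zpow_pow_comm u, huw, ← zpow_natCast w a, ← zpow_mul, ← zpow_natCast, ← zpow_mul,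
      ← zpow_add₀ hw, mul_comm (a : ℤ), h, zpow_one]
  · intro y hy h1 h2
    have h3 : y ^ (α * (a : ℤ) + β * (b : ℤ)) = y := by rw [h, zpow_one]
    rw [zpow_add₀ hy, mul_comm α, mul_comm β, zpow_mul, zpow_mul, zpow_natCast, zpow_natCast, h1, h2] at h3
    exact h3.symm

/-- counting points above the roots of a separable polynomial -/
theorem card_points {Ω : Type} [Field Ω] [IsAlgClosed Ω] (f : Polynomial Ω) (hf : f.Separable)
    (S : Ω → Ω → Prop) (hS : ∀ t, f.IsRoot t → ∃ y₀, S t y₀ ∧ ∀ y, S t y → y = y₀)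
    (hroot : ∀ t y, S t y → f.IsRoot t) :
    Nat.card {P : Ω × Ω // S P.1 P.2} = f.natDegree := by
  classical
  have hf0 : f ≠ 0 := hf.ne_zero
  have h1 : f.roots.toFinset.card = f.natDegree := by
    rw [Multiset.toFinset_card_of_nodup (nodup_roots hf)]
    exact (splits_iff_card_roots.1 (IsAlgClosed.splits f))
  have h2 : Nat.card (f.roots.toFinset) = f.roots.toFinset.card := by
    rw [Nat.card_eq_fintype_card, Fintype.card_coe]
  rw [← h1, ← h2]
  have hmem : ∀ t, t ∈ f.roots.toFinset ↔ f.IsRoot t := by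
    intro t
    rw [Multiset.mem_toFinset, mem_roots hf0]
  let φ : {P : Ω × Ω // S P.1 P.2} → f.roots.toFinset :=
    fun P => ⟨P.1.1, (hmem _).2 (hroot _ _ P.2)⟩
  refine Nat.card_congr (Equiv.ofBijective φ ⟨?_, ?_⟩)
  · rintro ⟨⟨t, y⟩, hP⟩ ⟨⟨t', y'⟩, hP'⟩ h
    have h3 : t = t' := congrArg Subtype.val h
    subst h3
    obtain ⟨y₀, _, h5⟩ := hS t (hroot _ _ hP)
    have h6 := h5 y hP
    have h7 := h5 y' hP'
    simp only [h6, h7]
  · rintro ⟨t, ht⟩
    obtain ⟨y₀, h4, _⟩ := hS t ((hmem t).1 ht)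
    exact ⟨⟨(t, y₀), h4⟩, rfl⟩

theorem Q_ge {p n : ℕ} (hp : p.Prime) (hn : 0 < n) (hQ : p ^ n % 67 = 1) : 68 ≤ p ^ n := by
  have h1 : 1 < p ^ n := Nat.one_lt_pow hn.ne' hp.one_lt
  omega

theorem card_twist1 {Ω : Type} [Field Ω] [IsAlgClosed Ω] {p n : ℕ} (hp : p.Prime) [CharP Ω p]
    (hn : 0 < n) (hQ : p ^ n % 67 = 1) :
    Nat.card {P : Ω × Ω // P.1 ≠ 0 ∧ 1 - P.1 ≠ 0 ∧ P.2 ^ 67 = P.1 * (1 - P.1) ^ 29 ∧
      P.1 ^ (p ^ n) = (1 - P.1)⁻¹ ∧ P.2 ^ (p ^ n) = -P.2 ^ 29 * ((1 - P.1)⁻¹) ^ 13} = p ^ n + 1 := by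
  have : Fact p.Prime := ⟨hp⟩
  have hQ68 := Q_ge hp hn hQ
  have hQ0 : ((p ^ n : ℕ) : Ω) = 0 := by
    rw [CharP.cast_eq_zero_iff Ω p]
    exact dvd_pow_self p hn.ne'
  set f : Polynomial Ω := X ^ (p ^ n + 1) - X ^ (p ^ n) + 1 with hfdef
  have hfac : f = X ^ (p ^ n) * (X - 1) + 1 := by rw [hfdef]; ring
  have hder : derivative f = X ^ (p ^ n) := by
    rw [hfdef]
    simp only [derivative_add, derivative_sub, derivative_X_pow, derivative_one, add_zero,
      Nat.add_sub_cancel]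
    rw [Nat.cast_add, hQ0]
    simp
  have hsep : f.Separable := by
    rw [separable_def, hder]
    refine ⟨1, -(X - 1), ?_⟩
    rw [hfac]; ring
  have hdeg : f.natDegree = p ^ n + 1 := by
    rw [hfdef]
    compute_degree!
  have hroot : ∀ t, f.IsRoot t ↔ t ^ (p ^ n) * (1 - t) = 1 := by
    intro t
    rw [IsRoot.def, hfac]
    simp only [eval_add, eval_mul, eval_pow, eval_X, eval_sub, eval_one]
    constructor
    · intro h; linear_combination -h
    · intro h; linear_combination -h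
  rw [← hdeg]
  apply card_points f hsep (fun t y => t ≠ 0 ∧ 1 - t ≠ 0 ∧ y ^ 67 = t * (1 - t) ^ 29 ∧
      t ^ (p ^ n) = (1 - t)⁻¹ ∧ y ^ (p ^ n) = -y ^ 29 * ((1 - t)⁻¹) ^ 13)
  · intro t ht
    have h1 := (hroot t).1 ht
    have hb : 1 - t ≠ 0 := by
      intro h; rw [h, mul_zero] at h1; exact zero_ne_one h1
    have ht0 : t ≠ 0 := by
      rintro rfl
      rw [zero_pow (by omega), zero_mul] at h1; exact zero_ne_one h1
    have htQ : t ^ (p ^ n) = (1 - t)⁻¹ := by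
      field_simp; exact h1
    have hbQ : (1 - t) ^ (p ^ n) = 1 - t ^ (p ^ n) := by
      have := sub_pow_char_pow (R := Ω) (p := p) (n := n) 1 t
      rw [one_pow] at this
      exact this
    obtain ⟨c, hc⟩ : ∃ c, c = (1 - t)⁻¹ := ⟨_, rfl⟩
    obtain ⟨b, hbd⟩ : ∃ b, b = 1 - t := ⟨_, rfl⟩
    have hbc : b * c = 1 := by rw [hc, hbd]; exact mul_inv_cancel₀ hb
    have htb : t = 1 - b := by rw [hbd]; ring
    rw [← hc] at htQ
    rw [← hbd] at hbQ hb
    have hbQ2 : b ^ (p ^ n) = -(t * c) := by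
      rw [hbQ, htQ]
      linear_combination (-1 : Ω) * hbc + c * htb
    have hc0 : c ≠ 0 := right_ne_zero_of_mul_eq_one hbc
    -- the two coprime powers
    have hcop : Nat.Coprime 67 (p ^ n - 29) := by
      rw [Nat.Prime.coprime_iff_not_dvd (by norm_num)]
      omega
    have hu : t * b ^ 29 ≠ 0 := mul_ne_zero ht0 (pow_ne_zero _ hb)
    have hw : -(c ^ 13) ≠ 0 := neg_ne_zero.2 (pow_ne_zero _ hc0)
    have huw : (t * b ^ 29) ^ (p ^ n - 29) = (-(c ^ 13)) ^ 67 := by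
      have h2 : (t * b ^ 29) ^ 29 ≠ 0 := pow_ne_zero _ hu
      apply mul_right_cancel₀ h2
      rw [← pow_add, Nat.sub_add_cancel (by omega), mul_pow, ← pow_mul, mul_comm 29, pow_mul, hbQ2, htQ]
      have h3 : (-(c ^ 13)) ^ 67 = -(c ^ 871) := by
        rw [Odd.neg_pow (by decide), ← pow_mul]
      have h4 : (-(t * c)) ^ 29 = -(t ^ 29 * c ^ 29) := by
        rw [Odd.neg_pow (by decide), mul_pow]
      have h5 : (t * b ^ 29) ^ 29 = t ^ 29 * b ^ 841 := by
        rw [mul_pow, ← pow_mul]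
      have h6 : c ^ 871 * b ^ 841 = c ^ 30 := by
        rw [show c ^ 871 = c ^ 841 * c ^ 30 by rw [← pow_add]]
        have h7 : (b * c) ^ 841 = b ^ 841 * c ^ 841 := mul_pow _ _ _
        rw [hbc, one_pow] at h7
        generalize b ^ 841 = z1 at h7 ⊢
        generalize c ^ 841 = z2 at h7 ⊢
        generalize c ^ 30 = z3
        linear_combination -z3 * h7
      rw [h3, h4, h5]
      calc c * -(t ^ 29 * c ^ 29) = -(t ^ 29 * c ^ 30) := by rw [pow_succ c 29]; ring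
        _ = -(t ^ 29 * (c ^ 871 * b ^ 841)) := by rw [h6]
        _ = _ := by generalize c ^ 871 = z1; generalize b ^ 841 = z2; ring
    obtain ⟨y₀, hy0, hy1, hy2, hy3⟩ := unique_root hcop hu hw huw
    rw [← hc, ← hbd]
    have hiff : ∀ y : Ω, y ≠ 0 → (y ^ (p ^ n) = -y ^ 29 * c ^ 13 ↔ y ^ (p ^ n - 29) = -(c ^ 13)) := by
      intro y hy
      have h7 : y ^ (p ^ n) = y ^ (p ^ n - 29) * y ^ 29 := by
        rw [← pow_add, Nat.sub_add_cancel (by omega)]
      have h8 : y ^ 29 ≠ 0 := pow_ne_zero _ hy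
      rw [h7]
      constructor
      · intro h
        apply mul_right_cancel₀ h8
        rw [h]; ring
      · intro h
        rw [h]; ring
    refine ⟨y₀, ⟨ht0, hb, hy1, htQ, (hiff y₀ hy0).2 hy2⟩, ?_⟩
    rintro y ⟨_, _, h9, _, h10⟩
    have hy : y ≠ 0 := by
      rintro rfl
      rw [zero_pow (by norm_num)] at h9
      exact hu h9.symm
    exact hy3 y hy h9 ((hiff y hy).1 h10)
  · rintro t y ⟨_, hb, _, h, _⟩
    rw [hroot, h]
    exact inv_mul_cancel₀ hb

theorem card_twist2 {Ω : Type} [Field Ω] [IsAlgClosed Ω] {p n : ℕ} (hp : p.Prime) [CharP Ω p]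
    (hn : 0 < n) (hQ : p ^ n % 67 = 1) :
    Nat.card {P : Ω × Ω // P.1 ≠ 0 ∧ 1 - P.1 ≠ 0 ∧ P.2 ^ 67 = P.1 * (1 - P.1) ^ 29 ∧
      P.1 ^ (p ^ n) = 1 - P.1⁻¹ ∧
      P.2 ^ (p ^ n) = -P.2 ^ 37 * P.1⁻¹ * ((1 - P.1)⁻¹) ^ 16} = p ^ n + 1 := by
  have : Fact p.Prime := ⟨hp⟩
  have hQ68 := Q_ge hp hn hQ
  have hQ0 : ((p ^ n : ℕ) : Ω) = 0 := by
    rw [CharP.cast_eq_zero_iff Ω p]
    exact dvd_pow_self p hn.ne'
  set f : Polynomial Ω := X ^ (p ^ n + 1) - X + 1 with hfdef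
  have hfac : f = X * (X ^ (p ^ n) - 1) + 1 := by rw [hfdef]; ring
  have hder : derivative f = X ^ (p ^ n) - 1 := by
    rw [hfdef]
    simp only [derivative_add, derivative_sub, derivative_X_pow, derivative_one, add_zero,
      Nat.add_sub_cancel, derivative_X]
    rw [Nat.cast_add, hQ0]
    simp
  have hsep : f.Separable := by
    rw [separable_def, hder]
    refine ⟨1, -X, ?_⟩
    rw [hfac]; ring
  have hdeg : f.natDegree = p ^ n + 1 := by
    rw [hfdef]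
    have h1 : (X ^ (p ^ n + 1) - X + 1 : Polynomial Ω) = X ^ (p ^ n + 1) + (-X + 1) := by ring
    rw [h1, natDegree_add_eq_left_of_natDegree_lt, natDegree_X_pow]
    rw [natDegree_X_pow]
    have h2 : (-X + 1 : Polynomial Ω).natDegree ≤ 1 := by
      refine (natDegree_add_le _ _).trans ?_
      simp
    omega
  have hroot : ∀ t, f.IsRoot t ↔ t * (1 - t ^ (p ^ n)) = 1 := by
    intro t
    rw [IsRoot.def, hfac]
    simp only [eval_add, eval_mul, eval_pow, eval_X, eval_sub, eval_one]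
    constructor
    · intro h; linear_combination -h
    · intro h; linear_combination -h
  rw [← hdeg]
  apply card_points f hsep (fun t y => t ≠ 0 ∧ 1 - t ≠ 0 ∧ y ^ 67 = t * (1 - t) ^ 29 ∧
      t ^ (p ^ n) = 1 - t⁻¹ ∧ y ^ (p ^ n) = -y ^ 37 * t⁻¹ * ((1 - t)⁻¹) ^ 16)
  · intro t ht
    have h1 := (hroot t).1 ht
    have ht0 : t ≠ 0 := by
      rintro rfl
      rw [zero_mul] at h1; exact zero_ne_one h1
    have hb : 1 - t ≠ 0 := by
      intro h
      have h2 : t = 1 := by linear_combination -h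
      rw [h2, one_pow, sub_self, mul_zero] at h1
      exact zero_ne_one h1
    have htQ : t ^ (p ^ n) = 1 - t⁻¹ := by
      apply mul_left_cancel₀ ht0
      rw [mul_sub, mul_inv_cancel₀ ht0]
      linear_combination -h1
    have hbQ : (1 - t) ^ (p ^ n) = 1 - t ^ (p ^ n) := by
      have := sub_pow_char_pow (R := Ω) (p := p) (n := n) 1 t
      rw [one_pow] at this
      exact this
    obtain ⟨c, hc⟩ : ∃ c, c = (1 - t)⁻¹ := ⟨_, rfl⟩
    obtain ⟨s, hs⟩ : ∃ s, s = t⁻¹ := ⟨_, rfl⟩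
    obtain ⟨b, hbd⟩ : ∃ b, b = 1 - t := ⟨_, rfl⟩
    have hbc : b * c = 1 := by rw [hc, hbd]; exact mul_inv_cancel₀ hb
    have hts : t * s = 1 := by rw [hs]; exact mul_inv_cancel₀ ht0
    have htb : t = 1 - b := by rw [hbd]; ring
    rw [← hs] at htQ
    rw [← hbd] at hbQ hb
    have hbQ2 : b ^ (p ^ n) = s := by
      rw [hbQ, htQ]; ring
    have htQ2 : t ^ (p ^ n) = -(b * s) := by
      rw [htQ]
      linear_combination (-1 : Ω) * hts + s * htb
    have hc0 : c ≠ 0 := right_ne_zero_of_mul_eq_one hbc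
    have hs0 : s ≠ 0 := right_ne_zero_of_mul_eq_one hts
    -- the two coprime powers
    have hcop : Nat.Coprime 67 (p ^ n - 37) := by
      rw [Nat.Prime.coprime_iff_not_dvd (by norm_num)]
      omega
    have hu : t * b ^ 29 ≠ 0 := mul_ne_zero ht0 (pow_ne_zero _ hb)
    have hw : -(s * c ^ 16) ≠ 0 := neg_ne_zero.2 (mul_ne_zero hs0 (pow_ne_zero _ hc0))
    have huw : (t * b ^ 29) ^ (p ^ n - 37) = (-(s * c ^ 16)) ^ 67 := by
      have h2 : (t * b ^ 29) ^ 37 ≠ 0 := pow_ne_zero _ hu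
      apply mul_right_cancel₀ h2
      rw [← pow_add, Nat.sub_add_cancel (by omega), mul_pow, ← pow_mul, mul_comm 29, pow_mul, hbQ2, htQ2]
      have h3 : (-(s * c ^ 16)) ^ 67 = -(s ^ 67 * c ^ 1072) := by
        rw [Odd.neg_pow (by decide), mul_pow, ← pow_mul]
      have h5 : (t * b ^ 29) ^ 37 = t ^ 37 * b ^ 1073 := by
        rw [mul_pow, ← pow_mul]
      have h6 : c ^ 1072 * b ^ 1073 = b := by
        have h7 : (b * c) ^ 1072 = b ^ 1072 * c ^ 1072 := mul_pow _ _ _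
        rw [hbc, one_pow] at h7
        rw [pow_succ b 1072]
        generalize b ^ 1072 = z1 at h7 ⊢
        generalize c ^ 1072 = z2 at h7 ⊢
        linear_combination -b * h7
      have h8 : s ^ 67 * t ^ 37 = s ^ 30 := by
        have h7 : (t * s) ^ 37 = t ^ 37 * s ^ 37 := mul_pow _ _ _
        rw [hts, one_pow] at h7
        rw [show s ^ 67 = s ^ 37 * s ^ 30 by rw [← pow_add]]
        generalize t ^ 37 = z1 at h7 ⊢
        generalize s ^ 37 = z2 at h7 ⊢
        generalize s ^ 30 = z3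
        linear_combination -z3 * h7
      rw [h3, h5]
      have h9 : -(s ^ 67 * c ^ 1072) * (t ^ 37 * b ^ 1073) = -((s ^ 67 * t ^ 37) * (c ^ 1072 * b ^ 1073)) := by
        generalize s ^ 67 = z1
        generalize c ^ 1072 = z2
        generalize t ^ 37 = z3
        generalize b ^ 1073 = z4
        ring
      rw [h9, h8, h6, pow_succ s 29]
      ring
    obtain ⟨y₀, hy0, hy1, hy2, hy3⟩ := unique_root hcop hu hw huw
    rw [← hc, ← hbd, ← hs]
    have hiff : ∀ y : Ω, y ≠ 0 → (y ^ (p ^ n) = -y ^ 37 * s * c ^ 16 ↔ y ^ (p ^ n - 37) = -(s * c ^ 16)) := by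
      intro y hy
      have h7 : y ^ (p ^ n) = y ^ (p ^ n - 37) * y ^ 37 := by
        rw [← pow_add, Nat.sub_add_cancel (by omega)]
      have h8 : y ^ 37 ≠ 0 := pow_ne_zero _ hy
      rw [h7]
      constructor
      · intro h
        apply mul_right_cancel₀ h8
        rw [h]; ring
      · intro h
        rw [h]; ring
    refine ⟨y₀, ⟨ht0, hb, hy1, htQ, (hiff y₀ hy0).2 hy2⟩, ?_⟩
    rintro y ⟨_, _, h9, _, h10⟩
    have hy : y ≠ 0 := by
      rintro rfl
      rw [zero_pow (by norm_num)] at h9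
      exact hu h9.symm
    exact hy3 y hy h9 ((hiff y hy).1 h10)
  · rintro t y ⟨ht0, _, _, h, _⟩
    rw [hroot, h, sub_sub_cancel]
    exact mul_inv_cancel₀ ht0

end Pool.Agent.Helper88.OortTwist
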