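import Pool.Agent.Helper14.OortDefs

set_option autoImplicit false

open Polynomial
open Pool.Agent.Helper14

namespace Pool.Agent.Helper88.OortNewton

/-- divisibility pattern of the coefficients of powers -/
theorem coeff_pattern {P a : ℤ} (ha : P ^ 15 ∣ a) (n : ℕ) : ∀ i : ℕ,
    P ^ (15 * i) ∣ ((1 - C a * X + C (P ^ 33) * X ^ 2 : ℤ[X]) ^ n).coeff i ∧
    P ^ (18 * i) ∣ P ^ (3 * n) * ((1 - C a * X + C (P ^ 33) * X ^ 2 : ℤ[X]) ^ n).coeff i := by
  obtain ⟨b, rfl⟩ := ha
  induction n with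
  | zero =>
    intro i
    rw [pow_zero, coeff_one]
    split_ifs with h
    · subst h; simp
    · simp
  | succ n ih =>
    intro i
    set R : ℤ[X] := (1 - C (P ^ 15 * b) * X + C (P ^ 33) * X ^ 2) ^ n with hR
    have hexp : (1 - C (P ^ 15 * b) * X + C (P ^ 33) * X ^ 2 : ℤ[X]) ^ (n + 1)
        = R - C (P ^ 15 * b) * (R * X) + C (P ^ 33) * (R * X ^ 2) := by
      rw [pow_succ, ← hR]; ring
    rw [hexp, coeff_add, coeff_sub, coeff_C_mul, coeff_C_mul]
    have h1 : ∀ j, i = j + 1 → (R * X).coeff i = R.coeff j := by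
      rintro j rfl; exact coeff_mul_X R j
    have h2 : ∀ j, i = j + 2 → (R * X ^ 2).coeff i = R.coeff j := by
      rintro j rfl; exact coeff_mul_X_pow R 2 j
    have e1 : P ^ (3 * (n + 1)) = P ^ (3 * n) * P ^ 3 := by rw [← pow_add]; ring_nf
    constructor
    · refine dvd_add (dvd_sub (ih i).1 ?_) ?_
      · rcases i with _ | j
        · simp
        · rw [h1 j rfl]
          have : P ^ (15 * (j + 1)) = P ^ 15 * P ^ (15 * j) := by rw [← pow_add]; ring_nf
          rw [this, mul_assoc]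
          exact mul_dvd_mul_left _ (((ih j).1).mul_left _)
      · rcases i with _ | _ | j
        · simp
        · rw [coeff_mul_X_pow']; simp
        · rw [h2 j rfl]
          have : P ^ (15 * (j + 1 + 1)) = P ^ 30 * P ^ (15 * j) := by rw [← pow_add]; ring_nf
          rw [this]
          exact mul_dvd_mul (pow_dvd_pow P (by norm_num)) (ih j).1
    · rw [mul_add, mul_sub]
      refine dvd_add (dvd_sub ?_ ?_) ?_
      · rw [e1, mul_right_comm]
        exact ((ih i).2).mul_right _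
      · rcases i with _ | j
        · simp
        · rw [h1 j rfl, e1]
          have : P ^ (18 * (j + 1)) = P ^ 18 * P ^ (18 * j) := by rw [← pow_add]; ring_nf
          rw [this]
          have e2 : P ^ (3 * n) * P ^ 3 * (P ^ 15 * b * R.coeff j)
              = P ^ 18 * (P ^ (3 * n) * R.coeff j) * b := by
            rw [show (18 : ℕ) = 3 + 15 by norm_num, pow_add]; ring
          rw [e2]
          exact (mul_dvd_mul_left _ (ih j).2).mul_right _
      · rcases i with _ | _ | j
        · simp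
        · rw [coeff_mul_X_pow']; simp
        · rw [h2 j rfl, e1]
          have : P ^ (18 * (j + 1 + 1)) = P ^ 36 * P ^ (18 * j) := by rw [← pow_add]; ring_nf
          rw [this]
          have e2 : P ^ (3 * n) * P ^ 3 * (P ^ 33 * R.coeff j)
              = P ^ 36 * (P ^ (3 * n) * R.coeff j) := by
            rw [show (36 : ℕ) = 3 + 33 by norm_num, pow_add]; ring
          rw [e2]
          exact mul_dvd_mul_left _ (ih j).2

/-- the middle coefficient modulo `P ^ 166` -/
theorem coeff_mid {P b : ℤ} (n : ℕ) : ∀ i : ℕ,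
    P ^ (15 * i + 1) ∣ ((1 - C (P ^ 15 * b) * X + C (P ^ 33) * X ^ 2 : ℤ[X]) ^ n).coeff i
      - ((1 - C (P ^ 15 * b) * X : ℤ[X]) ^ n).coeff i := by
  induction n with
  | zero => intro i; simp
  | succ n ih =>
    intro i
    set R : ℤ[X] := (1 - C (P ^ 15 * b) * X + C (P ^ 33) * X ^ 2) ^ n with hR
    set S : ℤ[X] := (1 - C (P ^ 15 * b) * X) ^ n with hS
    have hexp : (1 - C (P ^ 15 * b) * X + C (P ^ 33) * X ^ 2 : ℤ[X]) ^ (n + 1)
        = R - C (P ^ 15 * b) * (R * X) + C (P ^ 33) * (R * X ^ 2) := by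
      rw [pow_succ, ← hR]; ring
    have hexp2 : (1 - C (P ^ 15 * b) * X : ℤ[X]) ^ (n + 1)
        = S - C (P ^ 15 * b) * (S * X) := by
      rw [pow_succ, ← hS]; ring
    rw [hexp, hexp2, coeff_add, coeff_sub, coeff_C_mul, coeff_C_mul, coeff_sub, coeff_C_mul]
    have e : R.coeff i - P ^ 15 * b * (R * X).coeff i + P ^ 33 * (R * X ^ 2).coeff i
        - (S.coeff i - P ^ 15 * b * (S * X).coeff i)
        = (R.coeff i - S.coeff i) - P ^ 15 * b * ((R * X).coeff i - (S * X).coeff i)
          + P ^ 33 * (R * X ^ 2).coeff i := by ring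
    rw [e]
    refine dvd_add (dvd_sub (ih i) ?_) ?_
    · rcases i with _ | j
      · simp
      · rw [coeff_mul_X, coeff_mul_X]
        have : P ^ (15 * (j + 1) + 1) = P ^ 15 * P ^ (15 * j + 1) := by rw [← pow_add]; ring_nf
        rw [this, mul_assoc]
        exact mul_dvd_mul_left _ ((ih j).mul_left _)
    · rcases i with _ | _ | j
      · simp
      · rw [coeff_mul_X_pow']; simp
      · rw [coeff_mul_X_pow]
        have h3 := (coeff_pattern (P := P) (a := P ^ 15 * b) (Dvd.intro _ rfl) n j).1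
        rw [← hR] at h3
        have : P ^ (15 * (j + 1 + 1) + 1) = P ^ 31 * P ^ (15 * j) := by rw [← pow_add]; ring_nf
        rw [this]
        exact mul_dvd_mul (pow_dvd_pow P (by norm_num)) h3

theorem natDegree_LL {P a : ℤ} (hP : P ≠ 0) :
    ((1 - C a * X + C (P ^ 33) * X ^ 2 : ℤ[X]) ^ 11).natDegree = 22 := by
  have h1 : (1 - C a * X + C (P ^ 33) * X ^ 2 : ℤ[X]).natDegree = 2 := by
    have h2 : P ^ 33 ≠ 0 := pow_ne_zero _ hP
    compute_degree!
  rw [natDegree_pow, h1]

theorem xi_convex : ConvexOn ℝ (Set.Icc (0 : ℝ) 22) xi := by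
  have h1 : ConvexOn ℝ (Set.Icc (0 : ℝ) 22) (fun x : ℝ => 5 / 11 * x) := by
    refine ⟨convex_Icc _ _, ?_⟩
    intro x _ y _ s t _ _ _
    simp only [smul_eq_mul]
    apply le_of_eq; ring
  have h2 : ConvexOn ℝ (Set.Icc (0 : ℝ) 22) (fun x : ℝ => 6 / 11 * x - 1) := by
    refine ⟨convex_Icc _ _, ?_⟩
    intro x _ y _ s t _ _ hst
    simp only [smul_eq_mul]
    apply le_of_eq
    linear_combination hst
  exact h1.sup h2

theorem newton_polygon_LL {p : ℕ} (hp : p.Prime) {a : ℤ} (ha : padicValInt p a = 15) :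
    ((1 - C a * X + C ((p : ℤ) ^ 33) * X ^ 2 : ℤ[X]) ^ 11).natDegree = 22 ∧
    IsNewtonPolygon p 33 ((1 - C a * X + C ((p : ℤ) ^ 33) * X ^ 2) ^ 11) xi := by
  have hfact : Fact p.Prime := ⟨hp⟩
  have hp0 : (p : ℤ) ≠ 0 := by exact_mod_cast hp.ne_zero
  have hdeg := natDegree_LL (P := (p : ℤ)) (a := a) hp0
  refine ⟨hdeg, ?_⟩
  have ha0 : a ≠ 0 := by
    rintro rfl
    simp at ha
  have hpa : (p : ℤ) ^ 15 ∣ a := by
    rw [padicValInt_dvd_iff]; right; exact ha.ge
  set L : ℤ[X] := (1 - C a * X + C ((p : ℤ) ^ 33) * X ^ 2) ^ 11 with hL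
  -- lower bounds for the valuations
  have hv1 : ∀ i, L.coeff i ≠ 0 → 15 * i ≤ padicValInt p (L.coeff i) := by
    intro i hi
    have := (coeff_pattern hpa 11 i).1
    rw [← hL, padicValInt_dvd_iff] at this
    exact this.resolve_left hi
  have hv2 : ∀ i, L.coeff i ≠ 0 → 18 * i ≤ 33 + padicValInt p (L.coeff i) := by
    intro i hi
    have h1 := (coeff_pattern hpa 11 i).2
    rw [← hL, padicValInt_dvd_iff] at h1
    have h2 : (p : ℤ) ^ (3 * 11) ≠ 0 := pow_ne_zero _ hp0
    have h3 := h1.resolve_left (mul_ne_zero h2 hi)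
    rw [padicValInt.mul h2 hi] at h3
    have h4 : padicValInt p ((p : ℤ) ^ (3 * 11)) = 33 := by
      rw [← Nat.cast_pow, padicValInt.of_nat, padicValNat.prime_pow]
    omega
  -- exact values
  have hc0 : L.coeff 0 = 1 := by
    rw [hL, coeff_zero_eq_eval_zero]; simp
  have hc22 : padicValInt p (L.coeff 22) = 363 := by
    have h1 : (1 - C a * X + C ((p : ℤ) ^ 33) * X ^ 2 : ℤ[X]).natDegree ≤ 2 := by compute_degree
    have h2 := coeff_pow_of_natDegree_le (m := 11) h1
    rw [← hL] at h2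
    have h3 : (1 - C a * X + C ((p : ℤ) ^ 33) * X ^ 2 : ℤ[X]).coeff 2 = (p : ℤ) ^ 33 := by
      rw [coeff_add, coeff_sub, coeff_C_mul, coeff_C_mul, coeff_one, coeff_X, coeff_X_pow]
      norm_num
    rw [h3] at h2
    norm_num at h2
    rw [h2, ← pow_mul, ← Nat.cast_pow, padicValInt.of_nat, padicValNat.prime_pow]
  have hc11 : L.coeff 11 ≠ 0 ∧ padicValInt p (L.coeff 11) = 165 := by
    obtain ⟨b, hb⟩ := hpa
    have hpb : ¬ (p : ℤ) ∣ b := by
      rintro ⟨c, rfl⟩
      have h1 : (p : ℤ) ^ 16 ∣ a := ⟨c, by rw [hb]; ring⟩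
      rw [padicValInt_dvd_iff] at h1
      rcases h1 with h1 | h1
      · exact ha0 h1
      · omega
    have h1 := coeff_mid (P := (p : ℤ)) (b := b) 11 11
    rw [← hb, ← hL] at h1
    have h2 : ((1 - C a * X : ℤ[X]) ^ 11).coeff 11 = (-a) ^ 11 := by
      have h3 : (1 - C a * X : ℤ[X]).natDegree ≤ 1 := by compute_degree
      have h4 := coeff_pow_of_natDegree_le (m := 11) h3
      have h5 : (1 - C a * X : ℤ[X]).coeff 1 = -a := by
        rw [coeff_sub, coeff_C_mul, coeff_one, coeff_X]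
        norm_num
      rw [h5] at h4
      exact h4
    rw [h2] at h1
    have h3 : ¬ (p : ℤ) ^ 166 ∣ L.coeff 11 := by
      intro h4
      have h5 : (p : ℤ) ^ 166 ∣ (-a) ^ 11 := by
        have := dvd_sub h4 h1
        rwa [sub_sub_cancel] at this
      have h6 : (-a) ^ 11 = (p : ℤ) ^ 165 * (-b) ^ 11 := by rw [hb]; ring
      rw [h6, pow_succ] at h5
      have h7 := (mul_dvd_mul_iff_left (pow_ne_zero 165 hp0)).1 h5
      have h8 := (Nat.prime_iff_prime_int.1 hp).dvd_of_dvd_pow h7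
      exact hpb ((dvd_neg).1 h8)
    have h0 : L.coeff 11 ≠ 0 := by
      intro h; rw [h] at h3; exact h3 (dvd_zero _)
    refine ⟨h0, ?_⟩
    have h4 := hv1 11 h0
    rw [padicValInt_dvd_iff] at h3
    push Not at h3
    have := h3.2
    omega
  constructor
  · -- the polygon lies below the points
    refine ⟨?_, ?_⟩
    · rw [hdeg]
      exact_mod_cast xi_convex
    · intro i _ hi
      have h1 := hv1 i hi
      have h2 := hv2 i hi
      have h1' : (15 : ℝ) * i ≤ padicValInt p (L.coeff i) := by exact_mod_cast h1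
      have h2' : (18 : ℝ) * i ≤ 33 + padicValInt p (L.coeff i) := by exact_mod_cast h2
      unfold xi
      push_cast
      rw [max_le_iff]
      constructor <;> linarith
  · -- it is the largest
    intro g hg x hx
    obtain ⟨hconv, hbel⟩ := hg
    rw [hdeg] at hconv hx hbel
    have g0 : g 0 ≤ 0 := by
      have := hbel 0 (by norm_num) (by rw [hc0]; exact one_ne_zero)
      rw [hc0] at this
      simpa using this
    have g11 : g 11 ≤ 5 := by
      have := hbel 11 (by norm_num) hc11.1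
      rw [hc11.2] at this
      norm_num at this
      exact this
    have g22 : g 22 ≤ 11 := by
      have h0 : L.coeff 22 ≠ 0 := by
        intro h; rw [h] at hc22; simp at hc22
      have := hbel 22 (by norm_num) h0
      rw [hc22] at this
      norm_num at this
      exact this
    have hx' : 0 ≤ x ∧ x ≤ 22 := by
      have := hx
      rw [Set.mem_Icc] at this
      exact_mod_cast this
    have m0 : (0 : ℝ) ∈ Set.Icc (0 : ℝ) ((22 : ℕ) : ℝ) := by norm_num
    have m11 : (11 : ℝ) ∈ Set.Icc (0 : ℝ) ((22 : ℕ) : ℝ) := by norm_num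
    have m22 : (22 : ℝ) ∈ Set.Icc (0 : ℝ) ((22 : ℕ) : ℝ) := by norm_num
    unfold xi
    rcases le_total x 11 with h | h
    · have h1 := hconv.2 m0 m11 (by linarith : (0 : ℝ) ≤ 1 - x / 11) (by linarith : (0 : ℝ) ≤ x / 11)
        (by ring : 1 - x / 11 + x / 11 = 1)
      simp only [smul_eq_mul] at h1
      have h2 : (1 - x / 11) * 0 + x / 11 * 11 = x := by ring
      rw [h2] at h1
      have h3 : (1 - x / 11) * g 0 ≤ 0 := mul_nonpos_of_nonneg_of_nonpos (by linarith) g0
      have h4 : x / 11 * g 11 ≤ x / 11 * 5 := mul_le_mul_of_nonneg_left g11 (by linarith)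
      exact le_max_of_le_left (by linarith)
    · have h1 := hconv.2 m11 m22 (by linarith : (0 : ℝ) ≤ 2 - x / 11) (by linarith : (0 : ℝ) ≤ x / 11 - 1)
        (by ring : 2 - x / 11 + (x / 11 - 1) = 1)
      simp only [smul_eq_mul] at h1
      have h2 : (2 - x / 11) * 11 + (x / 11 - 1) * 22 = x := by ring
      rw [h2] at h1
      have h3 : (2 - x / 11) * g 11 ≤ (2 - x / 11) * 5 := mul_le_mul_of_nonneg_left g11 (by linarith)
      have h4 : (x / 11 - 1) * g 22 ≤ (x / 11 - 1) * 11 := mul_le_mul_of_nonneg_left g22 (by linarith)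
      exact le_max_of_le_right (by linarith)

theorem roots_sum_LL {q a : ℤ} (hq : q ≠ 0) {α β : ℂ} (hs : α + β = a) (hm : α * β = q) (m : ℕ) :
    (((((1 - C a * X + C q * X ^ 2 : ℤ[X]) ^ 11).map (Int.castRingHom ℂ)).roots).map
      (fun z => (z⁻¹) ^ m)).sum = 11 * (α ^ m + β ^ m) := by
  have hq' : (q : ℂ) ≠ 0 := by exact_mod_cast hq
  have hα : α ≠ 0 := by rintro rfl; rw [zero_mul] at hm; exact hq' hm.symm
  have hβ : β ≠ 0 := by rintro rfl; rw [mul_zero] at hm; exact hq' hm.symm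
  have h1 : ((1 - C a * X + C q * X ^ 2 : ℤ[X]) ^ 11).map (Int.castRingHom ℂ)
      = (C (q : ℂ) * ((X - C α⁻¹) * (X - C β⁻¹))) ^ 11 := by
    rw [Polynomial.map_pow]
    congr 1
    simp only [Polynomial.map_add, Polynomial.map_sub, Polynomial.map_mul, Polynomial.map_one,
      Polynomial.map_pow, map_X, map_C, Int.coe_castRingHom]
    rw [← hs, ← hm]
    have e1 : (C α * C α⁻¹ : ℂ[X]) = 1 := by rw [← C_mul, mul_inv_cancel₀ hα, C_1]
    have e2 : (C β * C β⁻¹ : ℂ[X]) = 1 := by rw [← C_mul, mul_inv_cancel₀ hβ, C_1]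
    rw [C_mul, C_add]
    linear_combination (C β * X - C β * C β⁻¹) * e1 + (C α * X - 1) * e2
  rw [h1, roots_pow, roots_C_mul _ hq', roots_mul, roots_X_sub_C, roots_X_sub_C, Multiset.map_nsmul,
    Multiset.sum_nsmul, Multiset.map_add, Multiset.sum_add]
  · simp [mul_add]
  · exact mul_ne_zero (X_sub_C_ne_zero _) (X_sub_C_ne_zero _)

end Pool.Agent.Helper88.OortNewton
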