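import Pool.Agent.Helper88.OortTrace
import Pool.Agent.Helper63.CardAffine

set_option autoImplicit false

namespace Pool.Agent.Helper88.OortTrace

theorem exists_trace {p : ℕ} (hp : p.Prime) (h33 : (p : ZMod 67) ^ 33 = 1)
    (h3 : (p : ZMod 67) ^ 3 ≠ 1) {k : Type} [Field k] [Fintype k]
    (hk : Fintype.card k = p ^ 33) (χ : MulChar k ℂ) (hχ : orderOf χ = 67) :
    ∃ a : ℤ, -jacobiSum χ (χ ^ 29) + -jacobiSum χ⁻¹ (χ⁻¹ ^ 29) = a ∧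
      -jacobiSum χ (χ ^ 29) * -jacobiSum χ⁻¹ (χ⁻¹ ^ 29) = (p : ℂ) ^ 33 ∧
      padicValInt p a = 15 := by
  refine exists_trace_of hp h33 h3 hk χ hχ ?_
  have h := card_affine hp h33 h3 (E := k) hk χ hχ
  rw [Module.finrank_self, pow_one, pow_one] at h
  refine ⟨(Fintype.card k : ℤ) - 2 -
    (Nat.card {P : k × k // P.1 ≠ 0 ∧ 1 - P.1 ≠ 0 ∧ P.2 ^ 67 = P.1 * (1 - P.1) ^ 29} : ℤ), ?_⟩
  push_cast
  rw [h]
  ring

end Pool.Agent.Helper88.OortTrace
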