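import Pool.Agent.Helper7.Comm.Defs2

set_option autoImplicit false

/-! # Reduction of Proposition E to the base field (handoff H7-T) -/

namespace Pool.Agent.Helper88.PropE

open Pool.Agent.Helper7.Comm Pool.Agent.Helper7.Comm.NC Pool.Agent.Helper57.Reduce

section cm

variable {X R S : Type}

theorem cmap_D (φ : R → S) (a : X) (f : NC X R) : D a (cmap φ f) = cmap φ (D a f) := rfl

theorem sh_cmap [CommRing R] [CommRing S] (φ : R → S) (h : ∀ a b, φ (a + b) = φ a + φ b) :
    ∀ (a b : List X) (f : NC X R), sh a b (cmap φ f) = φ (sh a b f) := by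
  intro a b f
  induction hn : a.length + b.length generalizing a b f with
  | zero =>
    obtain rfl : a = [] := by
      cases a
      · rfl
      · simp at hn
    rw [sh_nil_left, sh_nil_left]; rfl
  | succ N ih =>
    cases a with
    | nil => rw [sh_nil_left, sh_nil_left]; rfl
    | cons x a =>
      cases b with
      | nil => rw [sh_nil_right, sh_nil_right]; rfl
      | cons y b =>
        rw [sh_cons_cons, sh_cons_cons, h, cmap_D, cmap_D,
          ih _ _ (D x f) (by simp at hn ⊢; omega), ih _ _ (D y f) (by simp at hn ⊢; omega)]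

end cm

section alg

variable {X : Type} {K F : Type} [Field K] [Field F] [Algebra K F]

theorem cmap_alg_mul (f g : NC X K) :
    cmap (algebraMap K F) (f * g) = cmap (algebraMap K F) f * cmap (algebraMap K F) g := by
  ext w
  rw [cmap_apply, mul_apply, mul_apply, map_sum]
  exact Finset.sum_congr rfl fun i _ => by rw [map_mul]; rfl

theorem cmap_alg_add (f g : NC X K) :
    cmap (algebraMap K F) (f + g) = cmap (algebraMap K F) f + cmap (algebraMap K F) g := by
  ext w; simp

theorem cmap_alg_sub (f g : NC X K) :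
    cmap (algebraMap K F) (f - g) = cmap (algebraMap K F) f - cmap (algebraMap K F) g := by
  ext w; simp

theorem cmap_alg_one : cmap (algebraMap K F) (1 : NC X K) = 1 := by
  ext w; cases w <;> simp

theorem ord_cmap_alg {n : ℕ} {f : NC X K} : Ord n (cmap (algebraMap K F) f) ↔ Ord n f := by
  constructor
  · intro h w hw
    have := h w hw
    rw [cmap_apply] at this
    exact (map_eq_zero (algebraMap K F)).mp this
  · intro h w hw
    rw [cmap_apply, h w hw, map_zero]

variable (ρ : F →ₗ[K] K)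

theorem ord_cmap {n : ℕ} {f : NC X F} (h : Ord n f) : Ord n (cmap ρ f) := by
  intro w hw
  rw [cmap_apply, h w hw, map_zero]

theorem cmap_lin_add (f g : NC X F) : cmap ρ (f + g) = cmap ρ f + cmap ρ g := by
  ext w; simp

theorem cmap_lin_sub (f g : NC X F) : cmap ρ (f - g) = cmap ρ f - cmap ρ g := by
  ext w; simp

theorem cmap_lin_mul_left (h : NC X K) (f : NC X F) :
    cmap ρ (cmap (algebraMap K F) h * f) = h * cmap ρ f := by
  ext w
  rw [cmap_apply, mul_apply, mul_apply, map_sum]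
  refine Finset.sum_congr rfl fun i _ => ?_
  rw [cmap_apply, cmap_apply, ← Algebra.smul_def, map_smul, smul_eq_mul]

theorem cmap_lin_mul_right (h : NC X K) (f : NC X F) :
    cmap ρ (f * cmap (algebraMap K F) h) = cmap ρ f * h := by
  ext w
  rw [cmap_apply, mul_apply, mul_apply, map_sum]
  refine Finset.sum_congr rfl fun i _ => ?_
  rw [cmap_apply, cmap_apply, mul_comm, ← Algebra.smul_def, map_smul, smul_eq_mul, mul_comm]

theorem rho_alg (h1 : ρ 1 = 0) (c : K) : ρ (algebraMap K F c) = 0 := by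
  rw [Algebra.algebraMap_eq_smul_one, map_smul, h1, smul_zero]

theorem cmap_lin_alg (h1 : ρ 1 = 0) (h : NC X K) : cmap ρ (cmap (algebraMap K F) h) = 0 := by
  ext w
  rw [cmap_apply, cmap_apply, rho_alg ρ h1]; rfl

end alg

section bi

variable {X : Type} {K : Type} [Field K]

/-- vanishing in total degree `< n` -/
def BO (n : ℕ) (Φ : NC X (NC X K)) : Prop := ∀ a b : List X, a.length + b.length < n → Φ a b = 0

theorem BO.mul {n : ℕ} (H : NC X (NC X K)) {Φ : NC X (NC X K)} (h : BO n Φ) : BO n (H * Φ) := by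
  intro a b hab
  rw [mul_apply, NC.sum_apply]
  refine Finset.sum_eq_zero fun i _ => ?_
  rw [mul_apply]
  refine Finset.sum_eq_zero fun j _ => ?_
  rw [h _ _ (by simp only [List.length_drop]; omega), mul_zero]

end bi

/-- truncation to degrees `≤ n` -/
def tr {X K : Type} [Field K] (n : ℕ) (f : NC X K) : NC X K :=
  ⟨fun w => if w.length ≤ n then f w else 0⟩

section tr
variable {X K : Type} [Field K]

theorem tr_of_le {n : ℕ} {f : NC X K} {w : List X} (h : w.length ≤ n) : tr n f w = f w := by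
  show (if w.length ≤ n then f w else 0) = f w
  rw [if_pos h]

theorem tr_of_gt {n : ℕ} {f : NC X K} {w : List X} (h : n < w.length) : tr n f w = 0 := by
  show (if w.length ≤ n then f w else 0) = 0
  rw [if_neg (by omega)]

theorem tr_sub_ord {n : ℕ} (f : NC X K) : Ord (n + 1) (f - tr n f) := by
  intro w hw
  rw [NC.sub_apply, tr_of_le (by omega), sub_self]

theorem tr_ord {n m : ℕ} {f : NC X K} (hf : Ord m f) : Ord m (tr n f) := by
  intro w hw
  by_cases h : w.length ≤ n
  · rw [tr_of_le h, hf w hw]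
  · rw [tr_of_gt (by omega)]

theorem tr_comp {n m : ℕ} {f : NC X K} (h : m ≤ n) : comp m (tr n f) = comp m f := by
  ext w
  rw [comp_apply, comp_apply]
  split_ifs with hw
  · exact tr_of_le (by omega)
  · rfl

theorem tr_lie {n : ℕ} {f : NC X K} (h0 : f [] = 0)
    (h : ∀ a b : List X, a ≠ [] → b ≠ [] → a.length + b.length ≤ n → sh a b f = 0) :
    IsLie (tr n f) := by
  rw [isLie_iff]
  refine ⟨by rw [tr_of_le (by simp), h0], fun a b ha hb => ?_⟩
  by_cases hab : a.length + b.length ≤ n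
  · rw [← h a b ha hb hab]
    exact sh_congr a b _ _ fun w hw => tr_of_le (by omega)
  · rw [← sh_zero a b]
    exact sh_congr a b _ _ fun w hw => by rw [tr_of_gt (by omega)]; rfl

end tr

section ordl
variable {X K : Type} [Field K]

theorem ord_add {n : ℕ} {f g : NC X K} (hf : Ord n f) (hg : Ord n g) : Ord n (f + g) :=
  fun w hw => by rw [NC.add_apply, hf w hw, hg w hw, add_zero]

theorem ord_neg {n : ℕ} {f : NC X K} (hf : Ord n f) : Ord n (-f) :=
  fun w hw => by rw [NC.neg_apply, hf w hw, neg_zero]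

theorem ord_mono {m n : ℕ} (h : m ≤ n) {f : NC X K} (hf : Ord n f) : Ord m f :=
  fun w hw => hf w (by omega)

theorem ord_zero' (f : NC X K) : Ord 0 f := fun _ hw => absurd hw (Nat.not_lt_zero _)

theorem ord_mul_left {n : ℕ} (g : NC X K) {f : NC X K} (hf : Ord n f) : Ord n (g * f) := by
  have := (ord_zero' g).mul hf
  rwa [zero_add] at this

theorem ord_mul_right {n : ℕ} (g : NC X K) {f : NC X K} (hf : Ord n f) : Ord n (f * g) := by
  have := hf.mul (ord_zero' g)
  rwa [add_zero] at this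

/-- a conjugate differs from the series in higher degrees only -/
theorem ord_sub_cj {i n : ℕ} (P : (NC X K)ˣ) (hP : Ord i ((P : NC X K) - 1)) {f : NC X K}
    (hf : Ord n f) : Ord (i + n) (f - cj P f) := by
  have h1 : f - cj P f = ((P⁻¹ : (NC X K)ˣ) : NC X K) *
      (((P : NC X K) - 1) * f - f * ((P : NC X K) - 1)) := by
    unfold cj
    have := P.inv_mul
    have e : ((P⁻¹ : (NC X K)ˣ) : NC X K) * (((P : NC X K) - 1) * f - f * ((P : NC X K) - 1)) =
      (((P⁻¹ : (NC X K)ˣ) : NC X K) * P) * f - ((P⁻¹ : (NC X K)ˣ) : NC X K) * f * P := by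
      noncomm_ring
    rw [e, this, one_mul]
  rw [h1]
  refine ord_mul_left _ ((hP.mul hf).sub ?_)
  rw [add_comm]
  exact hf.mul hP

end ordl

section core

variable {X : Type} {K F : Type} [Field K] [Field F] [Algebra K F]

/-- low degrees: the base field part of the equation -/
theorem low {i j l : ℕ} (hij : i + l < j) {P Q G : NC X K} {x y g : NC X F}
    (hP : Ord i (P - 1)) (hQ : Ord j Q) (hG : Ord (i + j) (G - 1))
    (hx : Ord (i + l) (x - cmap (algebraMap K F) P))
    (hy : Ord (j + l) (y - cmap (algebraMap K F) (1 + Q)))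
    (hg : Ord (i + j + 2 * l + 1) (g - cmap (algebraMap K F) G))
    (heq : Ord (i + j + 2 * l + 1) (x * y - g * y * x)) :
    Ord (i + j + l) (P * (1 + Q) - G * (1 + Q) * P) := by
  rw [← ord_cmap_alg (F := F), cmap_alg_sub, cmap_alg_mul, cmap_alg_mul, cmap_alg_mul]
  set cA := cmap (algebraMap K F) P with hcA
  set cB := cmap (algebraMap K F) (1 + Q) with hcB
  set cG := cmap (algebraMap K F) G with hcG
  have hA : Ord i (cA - 1) := by
    have := (ord_cmap_alg (F := F)).mpr hP
    rwa [cmap_alg_sub, cmap_alg_one] at this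
  have hB : Ord j (cB - 1) := by
    have := (ord_cmap_alg (F := F)).mpr hQ
    rw [hcB, cmap_alg_add, cmap_alg_one, add_sub_cancel_left]
    exact this
  have hG' : Ord (i + j) (cG - 1) := by
    have := (ord_cmap_alg (F := F)).mpr hG
    rwa [cmap_alg_sub, cmap_alg_one] at this
  obtain ⟨X', hX'⟩ : ∃ X', X' = x - cA := ⟨_, rfl⟩
  obtain ⟨Y', hY'⟩ : ∃ Y', Y' = y - cB := ⟨_, rfl⟩
  obtain ⟨G', hG''⟩ : ∃ G', G' = g - cG := ⟨_, rfl⟩
  rw [← hX'] at hx
  rw [← hY'] at hy
  rw [← hG''] at hg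
  have ex : x = cA + X' := by rw [hX']; abel
  have ey : y = cB + Y' := by rw [hY']; abel
  have eg : g = cG + G' := by rw [hG'']; abel
  have e : cA * cB - cG * cB * cA = (x * y - g * y * x)
      - (((cA - 1) * Y' - Y' * (cA - 1) - (cG - 1) * (Y' * cA))
        + (X' * (cB - 1) - (cB - 1) * X' - (cG - 1) * (cB * X'))
        + (X' * Y' - cG * (Y' * X')) - G' * (y * x)) := by
    rw [ex, ey, eg]; noncomm_ring
  rw [e]
  have o1 : Ord (i + j + l) ((cA - 1) * Y') := ord_mono (by omega) (hA.mul hy)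
  have o2 : Ord (i + j + l) (Y' * (cA - 1)) := ord_mono (by omega) (hy.mul hA)
  have o3 : Ord (i + j + l) ((cG - 1) * (Y' * cA)) :=
    ord_mono (by omega) (hG'.mul (ord_mul_right cA hy))
  have o4 : Ord (i + j + l) (X' * (cB - 1)) := ord_mono (by omega) (hx.mul hB)
  have o5 : Ord (i + j + l) ((cB - 1) * X') := ord_mono (by omega) (hB.mul hx)
  have o6 : Ord (i + j + l) ((cG - 1) * (cB * X')) :=
    ord_mono (by omega) (hG'.mul (ord_mul_left cB hx))
  have o7 : Ord (i + j + l) (X' * Y') := ord_mono (by omega) (hx.mul hy)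
  have o8 : Ord (i + j + l) (cG * (Y' * X')) :=
    ord_mono (by omega) (ord_mul_left cG (hy.mul hx))
  have o9 : Ord (i + j + l) (G' * (y * x)) := ord_mono (by omega) (ord_mul_right (y * x) hg)
  exact (ord_mono (by omega) heq).sub
    ((ord_add (ord_add ((o1.sub o2).sub o3) ((o4.sub o5).sub o6)) (o7.sub o8)).sub o9)

/-- the equation after applying a linear functional -/
theorem high {i j l : ℕ} (hi : 0 < i) (hij : i + l < j) {P : (NC X K)ˣ} {Q G : NC X K}
    {x y g : NC X F}
    (hP : Ord i ((P : NC X K) - 1)) (hQ : Ord j Q) (hG : Ord (i + j) (G - 1))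
    (hx : Ord (i + l) (x - cmap (algebraMap K F) (P : NC X K)))
    (hy : Ord (j + l) (y - cmap (algebraMap K F) (1 + Q)))
    (hg : Ord (i + j + 2 * l + 1) (g - cmap (algebraMap K F) G))
    (heq : Ord (i + j + 2 * l + 1) (x * y - g * y * x))
    (ρ : F →ₗ[K] K) (h1 : ρ 1 = 0) :
    Ord (i + j + 2 * l + 1) (cmap ρ y - cj P (cmap ρ y) +
      ⁅((P⁻¹ : (NC X K)ˣ) : NC X K) * cmap ρ x, Q⁆ +
      (cmap ρ ((x - cmap (algebraMap K F) (P : NC X K)) *
          (y - cmap (algebraMap K F) (1 + Q))) -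
        cmap ρ ((y - cmap (algebraMap K F) (1 + Q)) *
          (x - cmap (algebraMap K F) (P : NC X K))))) := by
  have hlow := low hij hP hQ hG hx hy hg heq
  set cA := cmap (algebraMap K F) (P : NC X K) with hcA
  set cB := cmap (algebraMap K F) (1 + Q) with hcB
  set cG := cmap (algebraMap K F) G with hcG
  obtain ⟨X', hX'⟩ : ∃ X', X' = x - cA := ⟨_, rfl⟩
  obtain ⟨Y', hY'⟩ : ∃ Y', Y' = y - cB := ⟨_, rfl⟩
  obtain ⟨G', hG''⟩ : ∃ G', G' = g - cG := ⟨_, rfl⟩
  rw [← hX'] at hx
  rw [← hY'] at hy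
  rw [← hG''] at hg
  rw [← hX', ← hY']
  have ex : x = cA + X' := by rw [hX']; abel
  have ey : y = cB + Y' := by rw [hY']; abel
  have eg : g = cG + G' := by rw [hG'']; abel
  have rx : cmap ρ x = cmap ρ X' := by
    rw [ex, cmap_lin_add, hcA, cmap_lin_alg ρ h1, zero_add]
  have ry : cmap ρ y = cmap ρ Y' := by
    rw [ey, cmap_lin_add, hcB, cmap_lin_alg ρ h1, zero_add]
  -- apply ρ to the equation
  have e1 : x * y - g * y * x = (cA * cB - cG * cB * cA) + (cA * Y' - cG * (Y' * cA))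
      + (X' * cB - cG * (cB * X')) + (X' * Y' - cG * (Y' * X')) - G' * (y * x) := by
    rw [ex, ey, eg]; noncomm_ring
  have e2 := congrArg (cmap ρ) e1
  have k1 : cmap ρ (cA * cB - cG * cB * cA) = 0 := by
    rw [hcA, hcB, hcG, ← cmap_alg_mul, ← cmap_alg_mul, ← cmap_alg_mul, ← cmap_alg_sub,
      cmap_lin_alg ρ h1]
  have k2 : cmap ρ (cA * Y' - cG * (Y' * cA)) =
      (P : NC X K) * cmap ρ Y' - G * (cmap ρ Y' * (P : NC X K)) := by
    rw [cmap_lin_sub, hcA, hcG, cmap_lin_mul_left, cmap_lin_mul_left, cmap_lin_mul_right]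
  have k3 : cmap ρ (X' * cB - cG * (cB * X')) =
      cmap ρ X' * (1 + Q) - G * ((1 + Q) * cmap ρ X') := by
    rw [cmap_lin_sub, hcB, hcG, cmap_lin_mul_left, cmap_lin_mul_left, cmap_lin_mul_right]
  have k4 : cmap ρ (X' * Y' - cG * (Y' * X')) =
      cmap ρ (X' * Y') - G * cmap ρ (Y' * X') := by
    rw [cmap_lin_sub, hcG, cmap_lin_mul_left]
  rw [cmap_lin_sub _ (_ + _) _, cmap_lin_add, cmap_lin_add, cmap_lin_add, k1, k2, k3, k4,
    zero_add] at e2
  have oE : Ord (i + j + 2 * l + 1) (cmap ρ (x * y - g * y * x)) := ord_cmap ρ heq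
  have oG : Ord (i + j + 2 * l + 1) (cmap ρ (G' * (y * x))) :=
    ord_cmap ρ (ord_mul_right _ hg)
  rw [rx, ry]
  obtain ⟨a, ha⟩ : ∃ a, a = cmap ρ X' := ⟨_, rfl⟩
  obtain ⟨b, hb⟩ : ∃ b, b = cmap ρ Y' := ⟨_, rfl⟩
  obtain ⟨c, hc⟩ : ∃ c, c = cmap ρ (X' * Y') := ⟨_, rfl⟩
  obtain ⟨d, hd⟩ : ∃ d, d = cmap ρ (Y' * X') := ⟨_, rfl⟩
  have oa : Ord (i + l) a := ha ▸ ord_cmap ρ hx
  have ob : Ord (j + l) b := hb ▸ ord_cmap ρ hy
  have oc : Ord (i + j + 2 * l) c := hc ▸ ord_cmap ρ (ord_mono (by omega) (hx.mul hy))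
  have od : Ord (i + j + 2 * l) d := hd ▸ ord_cmap ρ (ord_mono (by omega) (hy.mul hx))
  rw [← ha, ← hb, ← hc, ← hd] at e2 ⊢
  obtain ⟨R, hR⟩ : ∃ R, R = ((P⁻¹ : (NC X K)ˣ) : NC X K) := ⟨_, rfl⟩
  have RP : R * (P : NC X K) = 1 := by rw [hR]; exact P.inv_mul
  have PR : (P : NC X K) * R = 1 := by rw [hR]; exact P.mul_inv
  unfold cj
  rw [← hR]
  obtain ⟨p, hp⟩ : ∃ p, p = (P : NC X K) := ⟨_, rfl⟩
  rw [← hp] at hP hlow e2 RP PR ⊢
  -- target, multiplied by `P`
  have main : Ord (i + j + 2 * l + 1) (p * (b - R * b * p + ⁅R * a, Q⁆ + (c - d)) -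
      (p - 1) * (c - d)) := by
    have e3 : p * (b - R * b * p + ⁅R * a, Q⁆ + (c - d)) - (p - 1) * (c - d) =
        cmap ρ (x * y - g * y * x) + cmap ρ (G' * (y * x)) + (G - 1) * (b * p) + (G - 1) * d
          - (p * (1 + Q) - G * (1 + Q) * p) * (R * a) := by
      rw [e2, Ring.lie_def]
      have t1 : p * (b - R * b * p + (R * a * Q - Q * (R * a)) + (c - d)) - (p - 1) * (c - d) =
        p * b - (p * R) * b * p + ((p * R) * a * Q - p * Q * R * a) + (c - d) := by
        noncomm_ring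
      have t2 : (p * (1 + Q) - G * (1 + Q) * p) * (R * a) =
        (p * R) * a + p * Q * R * a - G * (1 + Q) * ((p * R) * a) := by
        noncomm_ring
      rw [t1, t2, PR]
      noncomm_ring
    rw [e3]
    have o1 : Ord (i + j + 2 * l + 1) ((G - 1) * (b * p)) :=
      ord_mono (by omega) (hG.mul (ord_mul_right p ob))
    have o2 : Ord (i + j + 2 * l + 1) ((G - 1) * d) := ord_mono (by omega) (hG.mul od)
    have o3 : Ord (i + j + 2 * l + 1) ((p * (1 + Q) - G * (1 + Q) * p) * (R * a)) :=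
      ord_mono (by omega) (hlow.mul (ord_mul_left R oa))
    exact (ord_add (ord_add (ord_add oE oG) o1) o2).sub o3
  have o4 : Ord (i + j + 2 * l + 1) ((p - 1) * (c - d)) :=
    ord_mono (by omega) (hP.mul (oc.sub od))
  have o5 := ord_add main o4
  rw [sub_add_cancel] at o5
  have o6 := ord_mul_left R o5
  rwa [← mul_assoc, RP, one_mul] at o6

end core

section lie

variable {X : Type} [Fintype X] [DecidableEq X] {K F : Type} [Field K] [Field F] [Algebra K F]

omit [Fintype X] [DecidableEq X] in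
/-- `y` group-like, `K`-valued in degrees `< j + l`: the image under `ρ` is Lie in low degrees -/
theorem lieY {j l : ℕ} (hl : l < j) (y : NC X F) (hy0 : y [] = 1)
    (hyg : Δ y = T1 y * T2 y) (hyj : Ord j (y - 1))
    (hyK : ∀ w : List X, w.length < j + l → y w ∈ Set.range (algebraMap K F))
    (ρ : F →ₗ[K] K) (h1 : ρ 1 = 0) : IsLie (tr (j + 2 * l) (cmap ρ y)) := by
  refine tr_lie ?_ ?_
  · rw [cmap_apply, hy0, h1]
  · intro a b ha hb hab
    rw [sh_cmap ρ (fun u v => map_add ρ u v)]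
    have e := congrArg (fun Φ : NC X (NC X F) => Φ a b) hyg
    simp only [Δ_apply, T1_mul_T2_apply] at e
    rw [e]
    have hy' : ∀ w : List X, w ≠ [] → w.length < j → y w = 0 := by
      intro w hw hw2
      have := hyj w hw2
      obtain ⟨c, w, rfl⟩ := List.exists_cons_of_ne_nil hw
      simpa using this
    by_cases h2 : a.length < j
    · rw [hy' a ha h2, zero_mul, map_zero]
    by_cases h3 : b.length < j
    · rw [hy' b hb h3, mul_zero, map_zero]
    obtain ⟨c, hc⟩ := hyK a (by omega)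
    obtain ⟨d, hd⟩ := hyK b (by omega)
    rw [← hc, ← hd, ← map_mul, rho_alg ρ h1]

/-- `x` group-like, equal to `P` in degrees `< i + l` -/
theorem lieX {i l : ℕ} (hi : 0 < i) (P : (NC X K)ˣ)
    (hPg : Δ (P : NC X K) = T1 (P : NC X K) * T2 (P : NC X K))
    (x : NC X F) (hx0 : x [] = 1) (hxg : Δ x = T1 x * T2 x)
    (hxP : Ord (i + l) (x - cmap (algebraMap K F) (P : NC X K)))
    (ρ : F →ₗ[K] K) (h1 : ρ 1 = 0) :
    IsLie (tr (i + 2 * l) (((P⁻¹ : (NC X K)ˣ) : NC X K) * cmap ρ x)) := by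
  obtain ⟨R, hR⟩ : ∃ R, R = ((P⁻¹ : (NC X K)ˣ) : NC X K) := ⟨_, rfl⟩
  obtain ⟨p, hp⟩ : ∃ p, p = (P : NC X K) := ⟨_, rfl⟩
  have RP : R * p = 1 := by rw [hR, hp]; exact P.inv_mul
  have PR : p * R = 1 := by rw [hR, hp]; exact P.mul_inv
  rw [← hR]
  rw [← hp] at hPg hxP
  -- inverse is group-like
  have hRg : Δ R = T1 R * T2 R := by
    have e1 : Δ p * Δ R = 1 := by rw [← Δ_mul, PR, Δ_one]
    have e2 : (T1 R * T2 R) * Δ p = 1 := by
      rw [hPg]
      have : T1 R * T2 R * (T1 p * T2 p) = (T1 R * T1 p) * (T2 R * T2 p) := by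
        have c1 := T1_comm_T2 p R
        calc T1 R * T2 R * (T1 p * T2 p) = T1 R * (T2 R * T1 p) * T2 p := by noncomm_ring
          _ = T1 R * (T1 p * T2 R) * T2 p := by rw [c1]
          _ = _ := by noncomm_ring
      rw [this, ← T1_mul, ← T2_mul, RP, T1_one, T2_one, mul_one]
    calc Δ R = ((T1 R * T2 R) * Δ p) * Δ R := by rw [e2, one_mul]
      _ = (T1 R * T2 R) * (Δ p * Δ R) := by rw [mul_assoc]
      _ = _ := by rw [e1, mul_one]
  obtain ⟨f, hf⟩ : ∃ f, f = cmap ρ x := ⟨_, rfl⟩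
  rw [← hf]
  have hbo : BO (i + 2 * l + 1) (Δ f - (T1 f * T2 p + T1 p * T2 f)) := by
    intro a b hab
    rw [NC.sub_apply, NC.sub_apply, NC.add_apply, NC.add_apply, Δ_apply, T1_mul_T2_apply,
      T1_mul_T2_apply, hf, sh_cmap ρ (fun u v => map_add ρ u v), cmap_apply, cmap_apply]
    have e := congrArg (fun Φ : NC X (NC X F) => Φ a b) hxg
    simp only [Δ_apply, T1_mul_T2_apply] at e
    rw [e]
    have hx' : ∀ w : List X, w.length < i + l → x w = algebraMap K F (p w) := by
      intro w hw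
      have := hxP w hw
      rwa [NC.sub_apply, cmap_apply, sub_eq_zero] at this
    by_cases h2 : a.length < i + l
    · rw [hx' a h2, ← Algebra.smul_def, map_smul, rho_alg ρ h1, smul_eq_mul]; ring
    · rw [hx' b (by omega), mul_comm (x a), ← Algebra.smul_def, map_smul, rho_alg ρ h1,
        smul_eq_mul]; ring
  have hbo2 := hbo.mul (T1 R * T2 R)
  have e3 : (T1 R * T2 R) * (Δ f - (T1 f * T2 p + T1 p * T2 f)) =
      Δ (R * f) - (T1 (R * f) + T2 (R * f)) := by
    rw [Δ_mul, hRg, T1_mul, T2_mul]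
    have c1 := T1_comm_T2 f R
    have c2 := T1_comm_T2 p R
    have t1 : T1 R * T2 R * (T1 f * T2 p) = T1 R * T1 f := by
      calc T1 R * T2 R * (T1 f * T2 p) = T1 R * (T2 R * T1 f) * T2 p := by noncomm_ring
        _ = T1 R * (T1 f * T2 R) * T2 p := by rw [c1]
        _ = (T1 R * T1 f) * (T2 R * T2 p) := by noncomm_ring
        _ = _ := by rw [← T2_mul, RP, T2_one, mul_one]
    have t2 : T1 R * T2 R * (T1 p * T2 f) = T2 R * T2 f := by
      calc T1 R * T2 R * (T1 p * T2 f) = T1 R * (T2 R * T1 p) * T2 f := by noncomm_ring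
        _ = T1 R * (T1 p * T2 R) * T2 f := by rw [c2]
        _ = (T1 R * T1 p) * (T2 R * T2 f) := by noncomm_ring
        _ = _ := by rw [← T1_mul, RP, T1_one, one_mul]
    rw [mul_sub, mul_add, t1, t2]
  rw [e3] at hbo2
  refine tr_lie ?_ ?_
  · rw [mul_nil, hf, cmap_apply, hx0, h1, mul_zero]
  · intro a b ha hb hab
    have := hbo2 a b (by omega)
    rw [NC.sub_apply, NC.sub_apply, NC.add_apply, NC.add_apply, Δ_apply] at this
    obtain ⟨c, a, rfl⟩ := List.exists_cons_of_ne_nil ha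
    obtain ⟨d, b, rfl⟩ := List.exists_cons_of_ne_nil hb
    rw [T1_apply, C_cons, T2_apply_cons, NC.zero_apply, add_zero, sub_zero] at this
    exact this

end lie

end Pool.Agent.Helper88.PropE

namespace Pool.Agent.Helper88

open Pool.Agent.Helper7.Comm Pool.Agent.Helper7.Comm.NC Pool.Agent.Helper57.Reduce
open Pool.Agent.Helper88.PropE

theorem propE_reduce {X : Type} [Fintype X] [DecidableEq X] {K F : Type} [Field K] [Field F] [Algebra K F] [CharZero K]
    (i j l : ℕ) (hi : 0 < i) (hl : 0 < l) (hij : i + l < j)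
    (P : (NC X K)ˣ) (hP0 : (P : NC X K) [] = 1) (hP : Ord i ((P : NC X K) - 1))
    (hPg : Δ (P : NC X K) = T1 (P : NC X K) * T2 (P : NC X K))
    (x y g : NC X F) (hx0 : x [] = 1) (hxg : Δ x = T1 x * T2 x) (hy0 : y [] = 1) (hyg : Δ y = T1 y * T2 y)
    (hyj : Ord j (y - 1)) (heq : Ord (i + j + 2 * l + 1) (x * y - g * y * x)) (hg : Ord (i + j) (g - 1))
    (hgK : ∀ w : List X, w.length ≤ i + j + 2 * l → g w ∈ Set.range (algebraMap K F))
    (hxP : Ord (i + l) (x - cmap (algebraMap K F) (P : NC X K)))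
    (hyK : ∀ w : List X, w.length < j + l → y w ∈ Set.range (algebraMap K F))
    (t : F) (p q u v : NC X K)
    (hxt : ∀ w : List X, w.length = i + l → x w = algebraMap K F (p w) + t * algebraMap K F (u w))
    (hyt : ∀ w : List X, w.length = j + l → y w = algebraMap K F (q w) + t * algebraMap K F (v w))
    (ρ ρ₁ : F →ₗ[K] K) (h1 : ρ 1 = 0) (h2 : ρ t = 0) (h3 : ρ (t ^ 2) = 1) (h4 : ρ₁ 1 = 0) (h5 : ρ₁ t = 1) :
    ∃ Q U₁ V₁ U V : NC X K, IsLie Q ∧ IsLie U₁ ∧ IsLie V₁ ∧ IsLie U ∧ IsLie V ∧ Ord j Q ∧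
      (∀ w : List X, w.length = j → algebraMap K F (Q w) = y w) ∧
      Ord (i + l) U₁ ∧ Ord (j + l) V₁ ∧ Ord (i + l + 1) U ∧ Ord (j + l + 1) V ∧
      comp (i + l) U₁ = comp (i + l) u ∧ comp (j + l) V₁ = comp (j + l) v ∧
      Ord (i + j + 2 * l) (V₁ - cj P V₁ + ⁅U₁, Q⁆) ∧
      Ord (i + j + 2 * l + 1) (V - cj P V + ⁅U, Q⁆ + ⁅comp (i + l) u, comp (j + l) v⁆) := by
  classical
  set al := algebraMap K F with hal
  have hinj : Function.Injective al := (algebraMap K F).injective
  -- the K-valued parts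
  obtain ⟨Q, hQ⟩ : ∃ Q : NC X K, ∀ w, Q w =
      if j ≤ w.length ∧ w.length < j + l then Function.invFun al (y w) else 0 := ⟨⟨_⟩, fun _ => rfl⟩
  obtain ⟨G, hG⟩ : ∃ G : NC X K, ∀ w, G w =
      if w.length ≤ i + j + 2 * l then Function.invFun al (g w) else 0 := ⟨⟨_⟩, fun _ => rfl⟩
  have hQv : ∀ w : List X, j ≤ w.length → w.length < j + l → al (Q w) = y w := by
    intro w h6 h7
    rw [hQ, if_pos ⟨h6, h7⟩]
    exact Function.invFun_eq (hyK w h7)
  have hQord : Ord j Q := by
    intro w hw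
    rw [hQ, if_neg (by omega)]
  have hQtop : ∀ w : List X, j + l ≤ w.length → Q w = 0 := by
    intro w hw
    rw [hQ, if_neg (by omega)]
  have hyB : Ord (j + l) (y - cmap al (1 + Q)) := by
    intro w hw
    rw [NC.sub_apply, cmap_apply, NC.add_apply, map_add]
    by_cases h6 : j ≤ w.length
    · rw [hQv w h6 hw]
      cases w with
      | nil => simp at h6; omega
      | cons a w => simp
    · have h7 := hyj w (by omega)
      rw [hQord w (by omega), map_zero, add_zero]
      rw [NC.sub_apply] at h7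
      cases w with
      | nil => simp [hy0]
      | cons a w => simpa using h7
  have hgG : Ord (i + j + 2 * l + 1) (g - cmap al G) := by
    intro w hw
    rw [NC.sub_apply, cmap_apply, hG, if_pos (by omega)]
    rw [show al (Function.invFun al (g w)) = g w from Function.invFun_eq (hgK w (by omega)),
      sub_self]
  have hGord : Ord (i + j) (G - 1) := by
    rw [← ord_cmap_alg (F := F), cmap_alg_sub, cmap_alg_one]
    have e : cmap al G - 1 = (g - 1) - (g - cmap al G) := by abel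
    rw [← hal, e]
    exact hg.sub (ord_mono (by omega) hgG)
  -- components of the non K-valued parts
  have hXc : ∀ w : List X, w.length = i + l →
      (x - cmap al (P : NC X K) : NC X F) w = al (p w - (P : NC X K) w) + t * al (u w) := by
    intro w hw
    rw [NC.sub_apply, cmap_apply, hxt w hw, map_sub]; ring
  have hYc : ∀ w : List X, w.length = j + l →
      (y - cmap al (1 + Q) : NC X F) w = al (q w) + t * al (v w) := by
    intro w hw
    rw [NC.sub_apply, cmap_apply, hyt w hw, NC.add_apply, hQtop w (by omega)]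
    cases w with
    | nil => simp at hw; omega
    | cons a w => simp
  have key : ∀ σ : F →ₗ[K] K, σ 1 = 0 → Ord (i + j + 2 * l + 1) (cmap σ y - cj P (cmap σ y) +
      ⁅((P⁻¹ : (NC X K)ˣ) : NC X K) * cmap σ x, Q⁆ +
      (cmap σ ((x - cmap al (P : NC X K)) * (y - cmap al (1 + Q))) -
        cmap σ ((y - cmap al (1 + Q)) * (x - cmap al (P : NC X K))))) :=
    fun σ hσ => high hi hij hP hQord hGord hxP hyB hgG heq σ hσ
  obtain ⟨X', hX'⟩ : ∃ X', X' = x - cmap al (P : NC X K) := ⟨_, rfl⟩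
  obtain ⟨Y', hY'⟩ : ∃ Y', Y' = y - cmap al (1 + Q) := ⟨_, rfl⟩
  rw [← hX'] at hXc hxP
  rw [← hY'] at hYc hyB
  rw [← hX', ← hY'] at key
  have rx : ∀ σ : F →ₗ[K] K, σ 1 = 0 → cmap σ x = cmap σ X' := by
    intro σ hσ
    rw [hX', cmap_lin_sub, hal, cmap_lin_alg σ hσ, sub_zero]
  have ry : ∀ σ : F →ₗ[K] K, σ 1 = 0 → cmap σ y = cmap σ Y' := by
    intro σ hσ
    rw [hY', cmap_lin_sub, hal, cmap_lin_alg σ hσ, sub_zero]
  obtain ⟨R, hR⟩ : ∃ R, R = ((P⁻¹ : (NC X K)ˣ) : NC X K) := ⟨_, rfl⟩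
  have R0 : R [] = 1 := hR ▸ inv_nil P hP0
  rw [← hR] at key
  -- orders and leading terms
  have oU₁ : Ord (i + l) (R * cmap ρ₁ x) := by
    rw [rx ρ₁ h4]; exact ord_mul_left R (ord_cmap ρ₁ hxP)
  have oV₁ : Ord (j + l) (cmap ρ₁ y) := by
    rw [ry ρ₁ h4]; exact ord_cmap ρ₁ hyB
  have oX : Ord (i + l + 1) (cmap ρ X') := by
    intro w hw
    rcases Nat.lt_or_ge w.length (i + l) with h | h
    · exact ord_cmap ρ hxP w h
    · rw [cmap_apply, hXc w (by omega), map_add, hal, rho_alg ρ h1, zero_add, mul_comm,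
        ← Algebra.smul_def, map_smul, h2, smul_zero]
  have oY : Ord (j + l + 1) (cmap ρ Y') := by
    intro w hw
    rcases Nat.lt_or_ge w.length (j + l) with h | h
    · exact ord_cmap ρ hyB w h
    · rw [cmap_apply, hYc w (by omega), map_add, hal, rho_alg ρ h1, zero_add, mul_comm,
        ← Algebra.smul_def, map_smul, h2, smul_zero]
  have oU : Ord (i + l + 1) (R * cmap ρ x) := by
    rw [rx ρ h1]; exact ord_mul_left R oX
  have oV : Ord (j + l + 1) (cmap ρ y) := by rw [ry ρ h1]; exact oY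
  have cU₁ : comp (i + l) (R * cmap ρ₁ x) = comp (i + l) u := by
    rw [rx ρ₁ h4, comp_one_mul (ord_cmap ρ₁ hxP) R0]
    ext w
    rw [comp_apply, comp_apply]
    split_ifs with hw
    · rw [cmap_apply, hXc w hw, map_add, hal, rho_alg ρ₁ h4, zero_add, mul_comm,
        ← Algebra.smul_def, map_smul, h5, smul_eq_mul, mul_one]
    · rfl
  have cV₁ : comp (j + l) (cmap ρ₁ y) = comp (j + l) v := by
    rw [ry ρ₁ h4]
    ext w
    rw [comp_apply, comp_apply]
    split_ifs with hw
    · rw [cmap_apply, hYc w hw, map_add, hal, rho_alg ρ₁ h4, zero_add, mul_comm,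
        ← Algebra.smul_def, map_smul, h5, smul_eq_mul, mul_one]
    · rfl
  -- the product term
  have prod : ∀ (A B : NC X F) (m n : ℕ) (a a' b b' : NC X K), Ord m A → Ord n B →
      (∀ w : List X, w.length = m → A w = al (a w) + t * al (a' w)) →
      (∀ w : List X, w.length = n → B w = al (b w) + t * al (b' w)) →
      Ord (m + n + 1) (cmap ρ (A * B) - comp m a' * comp n b') := by
    intro A B m n a a' b b' hA hB hAc hBc w hw
    rw [NC.sub_apply]
    rcases Nat.lt_or_ge w.length (m + n) with h | h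
    · rw [cmap_apply, hA.mul hB w h, map_zero,
        (comp_isHom m a').mul (comp_isHom n b') w (by omega), sub_zero]
    · have hw' : w.length = m + n := by omega
      have e1 : (A * B) w = comp (m + n) (A * B) w := by rw [comp_apply, if_pos hw']
      rw [cmap_apply, e1, comp_mul_ord hA hB, ← List.take_append_drop m w,
        mul_append_left (comp_isHom m A) (by simp; omega),
        mul_append_left (comp_isHom m a') (by simp; omega), comp_apply, comp_apply, comp_apply,
        comp_apply, if_pos (by simp; omega), if_pos (by simp; omega), if_pos (by simp; omega),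
        if_pos (by simp; omega), hAc _ (by simp; omega), hBc _ (by simp; omega)]
      generalize a (List.take m w) = a1
      generalize a' (List.take m w) = a2
      generalize b (List.drop m w) = b1
      generalize b' (List.drop m w) = b2
      have e2 : (al a1 + t * al a2) * (al b1 + t * al b2) =
          al (a1 * b1) * 1 + al (a1 * b2 + a2 * b1) * t + al (a2 * b2) * t ^ 2 := by
        simp only [map_add, map_mul]; ring
      rw [e2, map_add, map_add, hal, ← Algebra.smul_def, ← Algebra.smul_def, ← Algebra.smul_def,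
        map_smul, map_smul, map_smul, h1, h2, h3, smul_zero, smul_zero, zero_add, zero_add,
        smul_eq_mul, mul_one, sub_self]
  have pXY := prod X' Y' (i + l) (j + l) (p - (P : NC X K)) u q v hxP hyB
    (fun w hw => hXc w hw) hYc
  have pYX := prod Y' X' (j + l) (i + l) q v (p - (P : NC X K)) u hyB hxP hYc
    (fun w hw => hXc w hw)
  refine ⟨Q, tr (i + 2 * l) (R * cmap ρ₁ x), tr (j + 2 * l) (cmap ρ₁ y),
    tr (i + 2 * l) (R * cmap ρ x), tr (j + 2 * l) (cmap ρ y), ?_, ?_, ?_, ?_, ?_, hQord, ?_,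
    tr_ord oU₁, tr_ord oV₁, tr_ord oU, tr_ord oV, ?_, ?_, ?_, ?_⟩
  · rw [isLie_iff]
    refine ⟨hQord [] (by simp; omega), fun a b ha hb => ?_⟩
    have hla := List.length_pos_iff.mpr ha
    have hlb := List.length_pos_iff.mpr hb
    by_cases hlt : a.length + b.length < j
    · rw [← sh_zero a b]
      exact sh_congr a b _ _ fun w hw => by rw [hQord w (by omega)]; rfl
    by_cases hge : j + l ≤ a.length + b.length
    · rw [← sh_zero a b]
      exact sh_congr a b _ _ fun w hw => by rw [hQtop w (by omega)]; rfl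
    · apply hinj
      rw [← sh_cmap al (fun u v => map_add al u v), map_zero,
        sh_congr a b _ y (fun w hw => by rw [cmap_apply, hQv w (by omega) (by omega)])]
      have e := congrArg (fun Φ : NC X (NC X F) => Φ a b) hyg
      simp only [Δ_apply, T1_mul_T2_apply] at e
      rw [e]
      have hy' : ∀ w : List X, w ≠ [] → w.length < j → y w = 0 := by
        intro w hw hw2
        have := hyj w hw2
        obtain ⟨c, w, rfl⟩ := List.exists_cons_of_ne_nil hw
        simpa using this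
      rcases Nat.lt_or_ge a.length j with h | h
      · rw [hy' a ha h, zero_mul]
      · rw [hy' b hb (by omega), mul_zero]
  · rw [hR]; exact lieX hi P hPg x hx0 hxg (hX' ▸ hxP) ρ₁ h4
  · exact lieY (by omega) y hy0 hyg hyj hyK ρ₁ h4
  · rw [hR]; exact lieX hi P hPg x hx0 hxg (hX' ▸ hxP) ρ h1
  · exact lieY (by omega) y hy0 hyg hyj hyK ρ h1
  · intro w hw
    exact hQv w (by omega) (by omega)
  · rw [tr_comp (by omega), cU₁]
  · rw [tr_comp (by omega), cV₁]
  · have k := key ρ₁ h4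
    obtain ⟨U', hU'⟩ : ∃ U', U' = R * cmap ρ₁ x := ⟨_, rfl⟩
    obtain ⟨V', hV'⟩ : ∃ V', V' = cmap ρ₁ y := ⟨_, rfl⟩
    rw [← hU', ← hV'] at k
    rw [← hU', ← hV']
    have oU' : Ord (i + 2 * l + 1) (U' - tr (i + 2 * l) U') := tr_sub_ord U'
    have oV' : Ord (j + 2 * l + 1) (V' - tr (j + 2 * l) V') := tr_sub_ord V'
    have o1 := ord_sub_cj P hP oV'
    have o2 : Ord (i + j + 2 * l + 1) ⁅U' - tr (i + 2 * l) U', Q⁆ := by
      rw [Ring.lie_def]
      exact (ord_mono (by omega) (oU'.mul hQord)).sub (ord_mono (by omega) (hQord.mul oU'))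
    have oc : Ord (i + j + 2 * l) (cmap ρ₁ (X' * Y') - cmap ρ₁ (Y' * X')) :=
      (ord_cmap ρ₁ (ord_mono (by omega) (hxP.mul hyB))).sub
        (ord_cmap ρ₁ (ord_mono (by omega) (hyB.mul hxP)))
    have e : tr (j + 2 * l) V' - cj P (tr (j + 2 * l) V') + ⁅tr (i + 2 * l) U', Q⁆ =
        (V' - cj P V' + ⁅U', Q⁆ + (cmap ρ₁ (X' * Y') - cmap ρ₁ (Y' * X')))
        - ((V' - tr (j + 2 * l) V') - cj P (V' - tr (j + 2 * l) V'))
        - ⁅U' - tr (i + 2 * l) U', Q⁆ - (cmap ρ₁ (X' * Y') - cmap ρ₁ (Y' * X')) := by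
      unfold cj
      simp only [Ring.lie_def]
      noncomm_ring
    rw [e]
    exact (((ord_mono (by omega) k).sub (ord_mono (by omega) o1)).sub
      (ord_mono (by omega) o2)).sub oc
  · have k := key ρ h1
    obtain ⟨U', hU'⟩ : ∃ U', U' = R * cmap ρ x := ⟨_, rfl⟩
    obtain ⟨V', hV'⟩ : ∃ V', V' = cmap ρ y := ⟨_, rfl⟩
    rw [← hU', ← hV'] at k
    rw [← hU', ← hV']
    have oU' : Ord (i + 2 * l + 1) (U' - tr (i + 2 * l) U') := tr_sub_ord U'
    have oV' : Ord (j + 2 * l + 1) (V' - tr (j + 2 * l) V') := tr_sub_ord V'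
    have o1 := ord_sub_cj P hP oV'
    have o2 : Ord (i + j + 2 * l + 1) ⁅U' - tr (i + 2 * l) U', Q⁆ := by
      rw [Ring.lie_def]
      exact (ord_mono (by omega) (oU'.mul hQord)).sub (ord_mono (by omega) (hQord.mul oU'))
    have e : tr (j + 2 * l) V' - cj P (tr (j + 2 * l) V') + ⁅tr (i + 2 * l) U', Q⁆ +
        ⁅comp (i + l) u, comp (j + l) v⁆ =
        (V' - cj P V' + ⁅U', Q⁆ + (cmap ρ (X' * Y') - cmap ρ (Y' * X')))
        - ((V' - tr (j + 2 * l) V') - cj P (V' - tr (j + 2 * l) V'))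
        - ⁅U' - tr (i + 2 * l) U', Q⁆
        - (cmap ρ (X' * Y') - comp (i + l) u * comp (j + l) v)
        + (cmap ρ (Y' * X') - comp (j + l) v * comp (i + l) u) := by
      unfold cj
      simp only [Ring.lie_def]
      noncomm_ring
    rw [e]
    exact ord_add ((((ord_mono (by omega) k).sub (ord_mono (by omega) o1)).sub
      (ord_mono (by omega) o2)).sub (ord_mono (by omega) pXY)) (ord_mono (by omega) pYX)

end Pool.Agent.Helper88
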