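import Mathlib

/-!
# Small lemmas for MP_5e144c

`trig`, `approx`, `approx'`: estimates for roots of unity; `lip`: integer polynomials are
Lipschitz on balls; `small`: an algebraic integer with small conjugates at all places but one.
-/

set_option autoImplicit false

namespace Pool.Agent.Helper88.ZL

theorem expForm (M : ℕ) (k : ℤ) :
    Complex.exp (2 * Real.pi * Complex.I / M) ^ k
      = Complex.exp (Complex.I * ((2 * Real.pi * k / M : ℝ) : ℂ)) := by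
  rw [← Complex.exp_int_mul]
  congr 1
  push_cast
  ring

theorem normSub (M : ℕ) (k : ℤ) :
    ‖Complex.exp (2 * Real.pi * Complex.I / M) ^ k - 1‖ = 2 * |Real.sin (Real.pi * k / M)| := by
  rw [expForm, Complex.norm_exp_I_mul_ofReal_sub_one, Real.norm_eq_abs, abs_mul, abs_two]
  congr 3
  ring

theorem trig (M k : ℕ) (hk : 1 ≤ k) (hkM : k < M)
    (h : 3 * ‖Complex.exp (2 * Real.pi * Complex.I / M) ^ k - 1‖ ^ 2
      ≤ 4 * ‖Complex.exp (2 * Real.pi * Complex.I / M) - 1‖ ^ 2) : k = 1 ∨ k = M - 1 := by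
  by_contra hcon
  rw [not_or] at hcon
  obtain ⟨h1, h2⟩ := hcon
  have hk2 : 2 ≤ k := by omega
  have hkM2 : k + 2 ≤ M := by omega
  have hM4 : 4 ≤ M := by omega
  have hMr : (4 : ℝ) ≤ M := by exact_mod_cast hM4
  have hM0 : (0 : ℝ) < M := by linarith
  have e1 := normSub M (k : ℤ)
  have e2 := normSub M 1
  rw [zpow_natCast] at e1
  rw [zpow_one] at e2
  rw [e1, e2] at h
  simp only [mul_pow, sq_abs, Int.cast_natCast, Int.cast_one, mul_one] at h
  set t : ℝ := Real.pi / M with ht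
  have ht0 : 0 < t := div_pos Real.pi_pos hM0
  have ht4 : t ≤ Real.pi / 4 := by
    rw [ht]
    exact div_le_div_of_nonneg_left Real.pi_pos.le (by norm_num) hMr
  have hs0 : 0 < Real.sin t := Real.sin_pos_of_pos_of_lt_pi ht0 (by linarith [Real.pi_pos])
  have hc : (Real.sqrt 2 / 2) ≤ Real.cos t := by
    rw [← Real.cos_pi_div_four]
    exact Real.cos_le_cos_of_nonneg_of_le_pi ht0.le (by linarith [Real.pi_pos]) ht4
  have hc2 : 1 / 2 ≤ Real.cos t ^ 2 := by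
    have h3 : 0 ≤ Real.sqrt 2 / 2 := by positivity
    have h4 : (Real.sqrt 2 / 2) ^ 2 = 1 / 2 := by
      rw [div_pow, Real.sq_sqrt (by norm_num)]; norm_num
    calc (1 : ℝ) / 2 = (Real.sqrt 2 / 2) ^ 2 := h4.symm
      _ ≤ Real.cos t ^ 2 := by gcongr
  have hkt : Real.pi * k / M = k * t := by rw [ht]; ring
  rw [hkt] at h
  have hs2 : Real.sin (2 * t) ≤ Real.sin (k * t) := by
    have hMt : M * t = Real.pi := by rw [ht]; field_simp
    have hkr : (2 : ℝ) ≤ k := by exact_mod_cast hk2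
    have hkMr : (k : ℝ) + 2 ≤ M := by exact_mod_cast hkM2
    rcases le_or_gt (k * t) (Real.pi / 2) with h5 | h5
    · apply Real.sin_le_sin_of_le_of_le_pi_div_two
      · nlinarith [Real.pi_pos]
      · exact h5
      · nlinarith
    · rw [← Real.sin_pi_sub (k * t)]
      apply Real.sin_le_sin_of_le_of_le_pi_div_two
      · nlinarith [Real.pi_pos]
      · linarith
      · nlinarith
  rw [Real.sin_two_mul] at hs2
  have hct : 0 < Real.cos t := by
    have : 0 < Real.sqrt 2 / 2 := by positivity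
    linarith
  have h6 : (2 * Real.sin t * Real.cos t) ^ 2 ≤ Real.sin (k * t) ^ 2 := by
    gcongr
  have h7 : 3 * (2 * Real.sin t * Real.cos t) ^ 2 ≤ 4 * Real.sin t ^ 2 := by nlinarith
  have h8 : 0 < Real.sin t ^ 2 := by positivity
  nlinarith

theorem approx' (M : ℕ) (hM : 2 ≤ M) (z : ℂ)
    (hz : z = Complex.exp (2 * Real.pi * Complex.I / M)) :
    4 / (M : ℝ) ≤ ‖z - 1‖ ∧ ‖z - 1‖ ≤ 7 / (M : ℝ) := by
  have hMr : (2 : ℝ) ≤ M := by exact_mod_cast hM
  have hM0 : (0 : ℝ) < M := by linarith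
  have e2 := normSub M 1
  rw [zpow_one, ← hz] at e2
  simp only [Int.cast_one, mul_one] at e2
  set t : ℝ := Real.pi / M with ht
  have ht0 : 0 < t := div_pos Real.pi_pos hM0
  have ht4 : t ≤ Real.pi / 2 := by
    rw [ht]
    exact div_le_div_of_nonneg_left Real.pi_pos.le (by norm_num) hMr
  have hs0 : 0 < Real.sin t := Real.sin_pos_of_pos_of_lt_pi ht0 (by linarith [Real.pi_pos])
  rw [abs_of_pos hs0] at e2
  rw [e2]
  constructor
  · have h1 := Real.mul_le_sin ht0.le ht4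
    have h2 : 2 / Real.pi * t = 2 / M := by
      rw [ht]; field_simp
    have h3 : (4 : ℝ) / M = 2 * (2 / M) := by ring
    rw [h3, ← h2]
    linarith
  · have h1 : Real.sin t ≤ t := Real.sin_le ht0.le
    have h2 : 2 * t ≤ 7 / M := by
      rw [ht, ← mul_div_assoc]
      apply div_le_div_of_nonneg_right _ hM0.le
      linarith [Real.pi_lt_d2]
    linarith

theorem pow_sub_one_le (w : ℂ) (hw : ‖w‖ = 1) (n : ℕ) : ‖w ^ n - 1‖ ≤ n * ‖w - 1‖ := by
  induction n with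
  | zero => simp
  | succ n ih =>
    have h1 : w ^ (n + 1) - 1 = w * (w ^ n - 1) + (w - 1) := by ring
    rw [h1]
    calc ‖w * (w ^ n - 1) + (w - 1)‖ ≤ ‖w * (w ^ n - 1)‖ + ‖w - 1‖ := norm_add_le _ _
      _ = ‖w ^ n - 1‖ + ‖w - 1‖ := by rw [norm_mul, hw, one_mul]
      _ ≤ n * ‖w - 1‖ + ‖w - 1‖ := by linarith
      _ = ((n + 1 : ℕ) : ℝ) * ‖w - 1‖ := by push_cast; ring

theorem sum_sub_le (w : ℂ) (hw : ‖w‖ = 1) (n : ℕ) :
    ‖∑ j ∈ Finset.range n, w ^ j - n‖ ≤ (n : ℝ) ^ 2 * ‖w - 1‖ := by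
  induction n with
  | zero => simp
  | succ n ih =>
    rw [Finset.sum_range_succ]
    have h1 : ∑ j ∈ Finset.range n, w ^ j + w ^ n - ((n + 1 : ℕ) : ℂ)
        = (∑ j ∈ Finset.range n, w ^ j - n) + (w ^ n - 1) := by push_cast; ring
    rw [h1]
    have h2 := pow_sub_one_le w hw n
    calc _ ≤ ‖∑ j ∈ Finset.range n, w ^ j - n‖ + ‖w ^ n - 1‖ := norm_add_le _ _
      _ ≤ (n : ℝ) ^ 2 * ‖w - 1‖ + n * ‖w - 1‖ := by linarith
      _ ≤ ((n + 1 : ℕ) : ℝ) ^ 2 * ‖w - 1‖ := by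
        push_cast
        nlinarith [norm_nonneg (w - 1), mul_nonneg (Nat.cast_nonneg (α := ℝ) n) (norm_nonneg (w - 1))]

theorem sum_sub_le' (w : ℂ) (hw : ‖w‖ = 1) (n : ℕ) :
    ‖∑ j ∈ Finset.range n, w ^ (j + 1) - n‖ ≤ (n : ℝ) ^ 2 * ‖w - 1‖ := by
  induction n with
  | zero => simp
  | succ n ih =>
    rw [Finset.sum_range_succ]
    have h1 : ∑ j ∈ Finset.range n, w ^ (j + 1) + w ^ (n + 1) - ((n + 1 : ℕ) : ℂ)
        = (∑ j ∈ Finset.range n, w ^ (j + 1) - n) + (w ^ (n + 1) - 1) := by push_cast; ring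
    rw [h1]
    have h2 := pow_sub_one_le w hw (n + 1)
    calc _ ≤ ‖∑ j ∈ Finset.range n, w ^ (j + 1) - n‖ + ‖w ^ (n + 1) - 1‖ := norm_add_le _ _
      _ ≤ (n : ℝ) ^ 2 * ‖w - 1‖ + ((n + 1 : ℕ) : ℝ) * ‖w - 1‖ := by linarith
      _ ≤ ((n + 1 : ℕ) : ℝ) ^ 2 * ‖w - 1‖ := by
        push_cast
        nlinarith [norm_nonneg (w - 1), mul_nonneg (Nat.cast_nonneg (α := ℝ) n) (norm_nonneg (w - 1))]

theorem approx (M : ℕ) (hM : 2 ≤ M) (a : ℤ) (ha : 2 * |a| ≤ M) (z x : ℂ)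
    (hz : z = Complex.exp (2 * Real.pi * Complex.I / M)) (hx : x * (z - 1) = z ^ a - 1) :
    2 * |(a : ℝ)| ≤ Real.pi * ‖x‖ ∧ ‖x‖ ≤ |(a : ℝ)| ∧ ‖x - a‖ ≤ 7 * (a : ℝ) ^ 2 / M := by
  have hMr : (2 : ℝ) ≤ M := by exact_mod_cast hM
  have hM0 : (0 : ℝ) < M := by linarith
  have har : 2 * |(a : ℝ)| ≤ M := by exact_mod_cast ha
  obtain ⟨g1, g2⟩ := approx' M hM z hz
  have hz1 : z ≠ 1 := by
    intro h
    rw [h, sub_self, norm_zero] at g1
    have : 0 < 4 / (M : ℝ) := by positivity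
    linarith
  have hz1' : z - 1 ≠ 0 := sub_ne_zero.2 hz1
  have hzn : ‖z‖ = 1 := by
    have h1 := expForm M 1
    rw [zpow_one] at h1
    rw [hz, h1, mul_comm, Complex.norm_exp_ofReal_mul_I]
  have hz0 : z ≠ 0 := by
    intro h
    rw [h, norm_zero] at hzn
    exact zero_ne_one hzn
  have hwn : ‖z⁻¹‖ = 1 := by rw [norm_inv, hzn, inv_one]
  have hwz : ‖z⁻¹ - 1‖ = ‖z - 1‖ := by
    have h1 : z⁻¹ - 1 = - (z⁻¹ * (z - 1)) := by field_simp; ring
    rw [h1, norm_neg, norm_mul, hwn, one_mul]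
  have hx2 : x = (z ^ a - 1) / (z - 1) := by
    rw [eq_div_iff hz1']; exact hx
  have hxn : ‖x‖ * ‖z - 1‖ = ‖z ^ a - 1‖ := by rw [← hx, norm_mul]
  refine ⟨?_, ?_, ?_⟩
  · have e1 := normSub M a
    have e2 := normSub M 1
    rw [zpow_one, ← hz] at e2
    rw [← hz] at e1
    simp only [Int.cast_one, mul_one] at e2
    set t : ℝ := Real.pi / M with ht
    have ht0 : 0 < t := div_pos Real.pi_pos hM0
    have ht4 : t ≤ Real.pi / 2 := by
      rw [ht]
      exact div_le_div_of_nonneg_left Real.pi_pos.le (by norm_num) hMr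
    have hs0 : 0 < Real.sin t := Real.sin_pos_of_pos_of_lt_pi ht0 (by linarith [Real.pi_pos])
    have hst : Real.sin t ≤ t := Real.sin_le ht0.le
    rw [abs_of_pos hs0] at e2
    have h3 : 2 * |(a : ℝ)| / M ≤ |Real.sin (Real.pi * a / M)| := by
      have h4 : 0 ≤ Real.pi * |(a : ℝ)| / M := by positivity
      have h5 : Real.pi * |(a : ℝ)| / M ≤ Real.pi / 2 := by
        rw [div_le_div_iff₀ hM0 (by norm_num)]
        nlinarith [Real.pi_pos]
      have h6 := Real.mul_le_sin h4 h5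
      have h7 : 2 / Real.pi * (Real.pi * |(a : ℝ)| / M) = 2 * |(a : ℝ)| / M := by
        have := Real.pi_ne_zero
        field_simp
      rw [h7] at h6
      refine h6.trans ?_
      rcases abs_cases (a : ℝ) with h8 | h8
      · rw [h8.1]; exact le_abs_self _
      · rw [h8.1]
        have h9 : Real.pi * -(a : ℝ) / M = -(Real.pi * a / M) := by ring
        rw [h9, Real.sin_neg]
        exact neg_le_abs _
    rw [e1, e2] at hxn
    have h10 : 2 * |(a : ℝ)| / M ≤ ‖x‖ * t := by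
      have h11 : ‖x‖ * Real.sin t ≤ ‖x‖ * t := by gcongr
      nlinarith
    rw [ht, div_le_iff₀ hM0] at h10
    have h12 : ‖x‖ * (Real.pi / M) * M = Real.pi * ‖x‖ := by field_simp
    linarith
  · have h1 : ‖z ^ a - 1‖ ≤ |(a : ℝ)| * ‖z - 1‖ := by
      rcases le_total 0 a with h0 | h0
      · obtain ⟨n, rfl⟩ := Int.eq_ofNat_of_zero_le h0
        have := pow_sub_one_le z hzn n
        rw [zpow_natCast]
        simpa using this
      · obtain ⟨n, hn⟩ := Int.eq_ofNat_of_zero_le (neg_nonneg.2 h0)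
        have hn' : a = -(n : ℤ) := by omega
        have := pow_sub_one_le z⁻¹ hwn n
        rw [hwz] at this
        rw [hn', zpow_neg, zpow_natCast, ← inv_pow]
        simpa using this
    rw [← hxn] at h1
    exact le_of_mul_le_mul_right h1 (norm_pos_iff.2 hz1')
  · have hbound : ‖x - a‖ ≤ (a : ℝ) ^ 2 * ‖z - 1‖ := by
      rcases le_total 0 a with h0 | h0
      · obtain ⟨n, rfl⟩ := Int.eq_ofNat_of_zero_le h0
        have h1 := sum_sub_le z hzn n
        have h2 : x = ∑ j ∈ Finset.range n, z ^ j := by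
          rw [hx2, zpow_natCast, geom_sum_eq hz1]
        rw [h2]
        simpa using h1
      · obtain ⟨n, hn⟩ := Int.eq_ofNat_of_zero_le (neg_nonneg.2 h0)
        have hn' : a = -(n : ℤ) := by omega
        have h1 := sum_sub_le' z⁻¹ hwn n
        have hw1 : z⁻¹ ≠ 1 := by
          intro h
          apply hz1
          rw [← inv_inv z, h, inv_one]
        have h2 : x = - ∑ j ∈ Finset.range n, z⁻¹ ^ (j + 1) := by
          have h3 : ∑ j ∈ Finset.range n, z⁻¹ ^ (j + 1) = z⁻¹ * ∑ j ∈ Finset.range n, z⁻¹ ^ j := by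
            rw [Finset.mul_sum]
            exact Finset.sum_congr rfl (fun j _ => by ring)
          have hw1' : z⁻¹ - 1 ≠ 0 := sub_ne_zero.2 hw1
          rw [h3, geom_sum_eq hw1, hx2, hn', zpow_neg, zpow_natCast, ← inv_pow]
          have h4 : z - 1 = - (z * (z⁻¹ - 1)) := by field_simp; ring
          rw [h4]
          generalize z⁻¹ ^ n - 1 = q
          field_simp
        rw [hwz] at h1
        rw [h2, hn']
        push_cast
        have h5 : -∑ j ∈ Finset.range n, z⁻¹ ^ (j + 1) - -(n : ℂ)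
            = - (∑ j ∈ Finset.range n, z⁻¹ ^ (j + 1) - n) := by ring
        rw [h5, norm_neg, neg_sq]
        exact h1
    calc ‖x - a‖ ≤ (a : ℝ) ^ 2 * ‖z - 1‖ := hbound
      _ ≤ (a : ℝ) ^ 2 * (7 / M) := by gcongr
      _ = 7 * (a : ℝ) ^ 2 / M := by ring

theorem lip_aux {σ : Type} (F : MvPolynomial σ ℤ) : ∃ C d : ℕ, ∀ (x y : σ → ℂ) (S δ : ℝ),
    1 ≤ S → 0 ≤ δ → (∀ i, ‖x i‖ ^ 2 ≤ S) → (∀ i, ‖y i‖ ^ 2 ≤ S) → (∀ i, ‖x i - y i‖ ≤ δ) →
    ‖MvPolynomial.aeval x F‖ ≤ C * S ^ d ∧ ‖MvPolynomial.aeval y F‖ ≤ C * S ^ d ∧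
    ‖MvPolynomial.aeval x F - MvPolynomial.aeval y F‖ ≤ C * S ^ d * δ := by
  induction F using MvPolynomial.induction_on with
  | C a =>
    refine ⟨a.natAbs, 0, fun x y S δ hS hδ hx hy hxy => ?_⟩
    have h1 : ‖((a : ℤ) : ℂ)‖ = (a.natAbs : ℝ) := by
      rw [Complex.norm_intCast, Nat.cast_natAbs, Int.cast_abs]
    have hv : ∀ v : σ → ℂ, MvPolynomial.aeval v (MvPolynomial.C a) = ((a : ℤ) : ℂ) := by
      intro v
      rw [MvPolynomial.algHom_C, algebraMap_int_eq, eq_intCast]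
    rw [hv, hv, pow_zero, mul_one, sub_self, norm_zero]
    exact ⟨h1.le, h1.le, by positivity⟩
  | add F G hF hG =>
    obtain ⟨C1, d1, h1⟩ := hF
    obtain ⟨C2, d2, h2⟩ := hG
    refine ⟨C1 + C2, d1 + d2, fun x y S δ hS hδ hx hy hxy => ?_⟩
    obtain ⟨a1, a2, a3⟩ := h1 x y S δ hS hδ hx hy hxy
    obtain ⟨b1, b2, b3⟩ := h2 x y S δ hS hδ hx hy hxy
    have hS1 : S ^ d1 ≤ S ^ (d1 + d2) := pow_le_pow_right₀ hS (by omega)
    have hS2 : S ^ d2 ≤ S ^ (d1 + d2) := pow_le_pow_right₀ hS (by omega)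
    have e1 : (C1 : ℝ) * S ^ d1 ≤ C1 * S ^ (d1 + d2) := by gcongr
    have e2 : (C2 : ℝ) * S ^ d2 ≤ C2 * S ^ (d1 + d2) := by gcongr
    have e1' : (C1 : ℝ) * S ^ d1 * δ ≤ C1 * S ^ (d1 + d2) * δ := by gcongr
    have e2' : (C2 : ℝ) * S ^ d2 * δ ≤ C2 * S ^ (d1 + d2) * δ := by gcongr
    simp only [map_add]
    push_cast
    refine ⟨?_, ?_, ?_⟩
    · refine (norm_add_le _ _).trans ?_
      rw [add_mul]
      linarith
    · refine (norm_add_le _ _).trans ?_
      rw [add_mul]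
      linarith
    · rw [add_sub_add_comm]
      refine (norm_add_le _ _).trans ?_
      rw [add_mul, add_mul]
      linarith
  | mul_X F i hF =>
    obtain ⟨C1, d1, h1⟩ := hF
    refine ⟨2 * C1, d1 + 1, fun x y S δ hS hδ hx hy hxy => ?_⟩
    obtain ⟨a1, a2, a3⟩ := h1 x y S δ hS hδ hx hy hxy
    have hxi : ‖x i‖ ≤ S := by
      have := hx i
      by_contra hcon
      push Not at hcon
      nlinarith
    have hyi : ‖y i‖ ≤ S := by
      have := hy i
      by_contra hcon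
      push Not at hcon
      nlinarith
    have hS0 : 0 < S := by linarith
    have hC : (0 : ℝ) ≤ C1 * S ^ d1 := by positivity
    simp only [map_mul, MvPolynomial.aeval_X]
    push_cast
    refine ⟨?_, ?_, ?_⟩
    · rw [norm_mul]
      calc ‖MvPolynomial.aeval x F‖ * ‖x i‖ ≤ (C1 * S ^ d1) * S := by gcongr
        _ ≤ 2 * C1 * S ^ (d1 + 1) := by
          rw [pow_succ]
          nlinarith [mul_nonneg hC hS0.le]
    · rw [norm_mul]
      calc ‖MvPolynomial.aeval y F‖ * ‖y i‖ ≤ (C1 * S ^ d1) * S := by gcongr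
        _ ≤ 2 * C1 * S ^ (d1 + 1) := by
          rw [pow_succ]
          nlinarith [mul_nonneg hC hS0.le]
    · have e : MvPolynomial.aeval x F * x i - MvPolynomial.aeval y F * y i
          = (MvPolynomial.aeval x F - MvPolynomial.aeval y F) * x i
            + MvPolynomial.aeval y F * (x i - y i) := by ring
      rw [e]
      refine (norm_add_le _ _).trans ?_
      rw [norm_mul, norm_mul]
      have hCd : 0 ≤ C1 * S ^ d1 * δ := mul_nonneg hC hδ
      calc ‖MvPolynomial.aeval x F - MvPolynomial.aeval y F‖ * ‖x i‖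
            + ‖MvPolynomial.aeval y F‖ * ‖x i - y i‖
          ≤ (C1 * S ^ d1 * δ) * S + (C1 * S ^ d1) * δ := by
            gcongr
            exact hxy i
        _ ≤ 2 * C1 * S ^ (d1 + 1) * δ := by
          rw [pow_succ]
          nlinarith [mul_nonneg hCd (by linarith : 0 ≤ S - 1)]

theorem lip {σ : Type} (F : MvPolynomial σ ℤ) : ∃ C d : ℕ, ∀ (x y : σ → ℂ) (S δ : ℝ),
    1 ≤ S → 0 ≤ δ → (∀ i, ‖x i‖ ^ 2 ≤ S) → (∀ i, ‖y i‖ ^ 2 ≤ S) → (∀ i, ‖x i - y i‖ ≤ δ) →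
    ‖MvPolynomial.aeval x F - MvPolynomial.aeval y F‖ ≤ C * S ^ d * δ := by
  obtain ⟨C, d, h⟩ := lip_aux F
  exact ⟨C, d, fun x y S δ hS hδ hx hy hxy => (h x y S δ hS hδ hx hy hxy).2.2⟩

open NumberField in
theorem small {K : Type} [Field K] [NumberField K] (φ₁ : K →+* ℂ) (ε : ℝ) (hε : 0 < ε) :
    ∃ u : K, IsIntegral ℤ u ∧ u ≠ 0 ∧
      ∀ φ : K →+* ℂ, φ ≠ φ₁ → φ ≠ (starRingEnd ℂ).comp φ₁ → ‖φ u‖ < ε := by
  classical
  obtain ⟨u, hu⟩ := NumberField.Units.dirichletUnitTheorem.exists_unit K (InfinitePlace.mk φ₁)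
  have hu1 : ∀ φ : K →+* ℂ, φ ≠ φ₁ → φ ≠ (starRingEnd ℂ).comp φ₁ →
      ‖φ ((u : 𝓞 K) : K)‖ < 1 := by
    intro φ h1 h2
    have h3 : InfinitePlace.mk φ ≠ InfinitePlace.mk φ₁ := by
      intro h
      rw [InfinitePlace.mk_eq_iff] at h
      rcases h with h | h
      · exact h1 h
      · apply h2
        rw [← h]
        ext x
        simp [ComplexEmbedding.conjugate_coe_eq]
    have h4 := hu _ h3
    rw [InfinitePlace.apply] at h4
    have h5 : 0 < ‖φ ((u : 𝓞 K) : K)‖ := by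
      rw [norm_pos_iff]
      intro h
      rw [map_eq_zero_iff φ φ.injective] at h
      exact u.ne_zero (by exact_mod_cast h)
    by_contra hcon
    push Not at hcon
    have := Real.log_nonneg hcon
    linarith
  have hfin : ∃ N : ℕ, ∀ φ : K →+* ℂ, φ ≠ φ₁ → φ ≠ (starRingEnd ℂ).comp φ₁ →
      ‖φ ((u : 𝓞 K) : K)‖ ^ N < ε := by
    have h1 : ∀ φ : K →+* ℂ, ∃ n : ℕ, ∀ m, n ≤ m → φ ≠ φ₁ → φ ≠ (starRingEnd ℂ).comp φ₁ →
        ‖φ ((u : 𝓞 K) : K)‖ ^ m < ε := by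
      intro φ
      by_cases h2 : φ ≠ φ₁ ∧ φ ≠ (starRingEnd ℂ).comp φ₁
      · obtain ⟨n, hn⟩ := exists_pow_lt_of_lt_one hε (hu1 φ h2.1 h2.2)
        refine ⟨n, fun m hm _ _ => lt_of_le_of_lt ?_ hn⟩
        exact pow_le_pow_of_le_one (norm_nonneg _) (hu1 φ h2.1 h2.2).le hm
      · exact ⟨0, fun m _ h3 h4 => absurd ⟨h3, h4⟩ h2⟩
    choose n hn using h1
    exact ⟨Finset.univ.sup n, fun φ h2 h3 =>
      hn φ _ (Finset.le_sup (Finset.mem_univ φ)) h2 h3⟩
  obtain ⟨N, hN⟩ := hfin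
  refine ⟨((u : 𝓞 K) : K) ^ N, ?_, ?_, ?_⟩
  · exact ((u : 𝓞 K).2).pow N
  · apply pow_ne_zero
    intro h
    exact u.ne_zero (by exact_mod_cast h)
  · intro φ h1 h2
    rw [map_pow, norm_pow]
    exact hN φ h1 h2

end Pool.Agent.Helper88.ZL
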