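import Mathlib

/-!
# Pell equations over number fields

`f` is an algebraic integer of the number field `K`, not a square, positive at a real place. Then
`a ^ 2 - f * b ^ 2 = 1` has a solution with `b ≠ 0` and `3 ∣ a - 1`.
-/

set_option autoImplicit false

namespace Pool.Agent.Helper88.Pell

open NumberField Polynomial

/-- The main argument, for an abstract quadratic extension `L = K(s)`. -/
theorem core {K L : Type} [Field K] [NumberField K] [Field L] [NumberField L] [Algebra K L]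
    (f : 𝓞 K) (hf : (f : K) ≠ 0) (s : L) (hs : s ^ 2 = algebraMap K L f)
    (hrep : ∀ x : L, ∃ p q : K, x = algebraMap K L p + algebraMap K L q * s)
    (σ : L →+* L) (hσ : ∀ p : K, σ (algebraMap K L p) = algebraMap K L p) (hσs : σ s = -s)
    (ψ₁ ψ₂ : L →+* ℝ) (hψ : ∀ x, ψ₁ (σ x) = ψ₂ x) (h1 : 0 < ψ₁ s) :
    ∃ a b : 𝓞 K, a ^ 2 - f * b ^ 2 = 1 ∧ (3 : 𝓞 K) ∣ a - 1 ∧ b ≠ 0 := by
  classical
  have hinj : Function.Injective (algebraMap K L) := (algebraMap K L).injective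
  have hσσ : ∀ x, σ (σ x) = x := by
    intro x
    obtain ⟨p, q, rfl⟩ := hrep x
    simp only [map_add, map_mul, hσ, hσs, map_neg, neg_neg]
  -- the two places
  set w₁ : InfinitePlace L := InfinitePlace.mk (Complex.ofRealHom.comp ψ₁) with hw₁
  set w₂ : InfinitePlace L := InfinitePlace.mk (Complex.ofRealHom.comp ψ₂) with hw₂
  have hw1 : ∀ x : L, w₁ x = |ψ₁ x| := by
    intro x
    rw [hw₁, InfinitePlace.apply, RingHom.comp_apply, Complex.ofRealHom_eq_coe,
      Complex.norm_real, Real.norm_eq_abs]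
  have hw2 : ∀ x : L, w₂ x = |ψ₂ x| := by
    intro x
    rw [hw₂, InfinitePlace.apply, RingHom.comp_apply, Complex.ofRealHom_eq_coe,
      Complex.norm_real, Real.norm_eq_abs]
  have h2 : ψ₂ s = - ψ₁ s := by
    rw [← hψ, hσs, map_neg]
  have hne : w₂ ≠ w₁ := by
    intro h
    have h3 : ψ₂ s = ψ₁ s := by
      rcases InfinitePlace.mk_eq_iff.1 h with h4 | h4
      · have h5 := congrArg (fun φ : L →+* ℂ => φ s) h4
        simp only [RingHom.comp_apply, Complex.ofRealHom_eq_coe] at h5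
        exact_mod_cast h5
      · have h5 := congrArg (fun φ : L →+* ℂ => φ s) h4
        simp only [ComplexEmbedding.conjugate_coe_eq, RingHom.comp_apply,
          Complex.ofRealHom_eq_coe, Complex.conj_ofReal] at h5
        exact_mod_cast h5
    rw [h2] at h3
    linarith
  -- the unit
  obtain ⟨u, hu⟩ := Units.dirichletUnitTheorem.exists_unit L w₁
  have hu2 : w₂ (u : L) < 1 := by
    have h3 := hu w₂ hne
    by_contra hcon
    exact absurd (Real.log_nonneg (not_lt.1 hcon)) (not_le.2 h3)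
  have hu1 : 1 < w₁ (u : L) := by
    by_contra hcon
    have h3 : Real.log (w₁ (u : L)) ≤ 0 := Real.log_nonpos (Units.pos_at_place u w₁).le
      (not_lt.1 hcon)
    have h4 := Units.sum_mult_mul_log u
    have h5 : ∑ w : InfinitePlace L, w.mult * Real.log (w (u : L)) < 0 := by
      refine Finset.sum_neg' (fun w _ => ?_) ⟨w₂, Finset.mem_univ _, ?_⟩
      · by_cases hw : w = w₁
        · rw [hw]
          exact mul_nonpos_of_nonneg_of_nonpos (Nat.cast_nonneg _) h3
        · exact mul_nonpos_of_nonneg_of_nonpos (Nat.cast_nonneg _) (hu w hw).le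
      · exact mul_neg_of_pos_of_neg (Nat.cast_pos.2 InfinitePlace.mult_pos) (hu w₂ hne)
    rw [h4] at h5
    exact lt_irrefl _ h5
  have hw20 : 0 < w₂ (u : L) := Units.pos_at_place u w₂
  let σO : 𝓞 L →+* 𝓞 L := RingOfIntegers.mapRingHom σ
  have hσO : ∀ x : 𝓞 L, ((σO x : 𝓞 L) : L) = σ (x : L) := fun x => rfl
  let v : (𝓞 L)ˣ := _root_.Units.map σO.toMonoidHom u
  have hv : ((v : 𝓞 L) : L) = σ (u : L) := rfl
  have hu0 : (u : L) ≠ 0 := Units.coe_ne_zero u
  have hv0 : σ (u : L) ≠ 0 := by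
    rw [Ne, map_eq_zero]
    exact hu0
  let E : (𝓞 L)ˣ := u * v⁻¹
  have hE : ((E : 𝓞 L) : L) = (u : L) / σ (u : L) := by
    have h3 : (E : 𝓞 L) * (v : 𝓞 L) = (u : 𝓞 L) := by
      show ((u * v⁻¹ : (𝓞 L)ˣ) : 𝓞 L) * (v : 𝓞 L) = u
      rw [← _root_.Units.val_mul, inv_mul_cancel_right]
    have h4 := congrArg (fun x : 𝓞 L => (x : L)) h3
    simp only [map_mul] at h4
    rw [eq_div_iff hv0, ← hv]
    exact h4
  have hEσ : σ ((E : 𝓞 L) : L) * ((E : 𝓞 L) : L) = 1 := by
    rw [hE, map_div₀, hσσ]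
    field_simp
  have hE1 : 1 < |ψ₁ ((E : 𝓞 L) : L)| := by
    rw [hE, map_div₀, abs_div, hψ, ← hw1, ← hw2, one_lt_div hw20]
    linarith
  -- a power of `E` is congruent to one modulo `6 f`
  let F : 𝓞 L := algebraMap (𝓞 K) (𝓞 L) f
  have hF : (F : L) = algebraMap K L f := rfl
  have hF0 : (6 : 𝓞 L) * F ≠ 0 := by
    intro h3
    have h4 := congrArg (fun x : 𝓞 L => (x : L)) h3
    simp only [map_mul, map_zero] at h4
    rcases mul_eq_zero.1 h4 with h5 | h5
    · simp at h5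
    · have h6 : algebraMap K L (f : K) = 0 := h5
      rw [map_eq_zero] at h6
      exact hf h6
  have hfin : Finite (𝓞 L ⧸ Ideal.span {(6 : 𝓞 L) * F}) := by
    apply Ideal.finiteQuotientOfFreeOfNeBot
    rw [Ne, Ideal.span_singleton_eq_bot]
    exact hF0
  let π : 𝓞 L →+* 𝓞 L ⧸ Ideal.span {(6 : 𝓞 L) * F} := Ideal.Quotient.mk _
  let Ē : (𝓞 L ⧸ Ideal.span {(6 : 𝓞 L) * F})ˣ := _root_.Units.map π.toMonoidHom E
  obtain ⟨k, hk0, hk⟩ : ∃ k : ℕ, 0 < k ∧ Ē ^ k = 1 :=
    ⟨orderOf Ē, orderOf_pos Ē, pow_orderOf_eq_one Ē⟩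
  have hdiv : (6 : 𝓞 L) * F ∣ (E : 𝓞 L) ^ k - 1 := by
    have h3 : π ((E : 𝓞 L) ^ k) = 1 := by
      have h4 := congrArg (fun x : (𝓞 L ⧸ Ideal.span {(6 : 𝓞 L) * F})ˣ =>
        (x : 𝓞 L ⧸ Ideal.span {(6 : 𝓞 L) * F})) hk
      simp only [_root_.Units.val_pow_eq_pow_val, _root_.Units.val_one] at h4
      rw [map_pow]
      exact h4
    rw [← Ideal.mem_span_singleton]
    rw [← Ideal.Quotient.eq_zero_iff_mem, map_sub, map_one]
    rw [sub_eq_zero]
    exact h3
  obtain ⟨γ, hγ⟩ := hdiv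
  obtain ⟨p, q, hpq⟩ := hrep (γ : L)
  set e : L := ((E : 𝓞 L) : L) ^ k with he
  have heγ : e = 1 + 6 * algebraMap K L f * (γ : L) := by
    have h4 := congrArg (fun x : 𝓞 L => (x : L)) hγ
    simp only [map_sub, map_pow, map_mul, map_one, map_ofNat] at h4
    have h6 : e - 1 = 6 * algebraMap K L f * (γ : L) := h4
    linear_combination h6
  -- integrality
  have hsint : IsIntegral ℤ s := by
    have h3 : IsIntegral ℤ (s ^ 2) := by
      rw [hs, ← hF]
      exact RingOfIntegers.isIntegral_coe F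
    exact IsIntegral.of_pow two_pos h3
  have hγint : IsIntegral ℤ (γ : L) := RingOfIntegers.isIntegral_coe γ
  have hσγint : IsIntegral ℤ (σ (γ : L)) := by
    rw [← hσO]
    exact RingOfIntegers.isIntegral_coe _
  have hPint : IsIntegral ℤ (2 * p) := by
    have h3 : IsIntegral ℤ (algebraMap K L (2 * p)) := by
      have h4 : algebraMap K L (2 * p) = (γ : L) + σ (γ : L) := by
        rw [hpq]
        simp only [map_add, map_mul, hσ, hσs, map_ofNat]
        ring
      rw [h4]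
      exact hγint.add hσγint
    have h4 := (isIntegral_algHom_iff (algebraMap K L).toIntAlgHom hinj (x := 2 * p)).1 h3
    exact h4
  have hQint : IsIntegral ℤ (2 * (f : K) * q) := by
    have h3 : IsIntegral ℤ (algebraMap K L (2 * (f : K) * q)) := by
      have h4 : algebraMap K L (2 * (f : K) * q) = s * ((γ : L) - σ (γ : L)) := by
        rw [hpq]
        simp only [map_add, map_mul, hσ, hσs, map_ofNat]
        linear_combination (-2 * algebraMap K L q) * hs
      rw [h4]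
      exact hsint.mul (hγint.sub hσγint)
    have h4 := (isIntegral_algHom_iff (algebraMap K L).toIntAlgHom hinj
      (x := 2 * (f : K) * q)).1 h3
    exact h4
  let P2 : 𝓞 K := ⟨2 * p, hPint⟩
  let Q2 : 𝓞 K := ⟨2 * (f : K) * q, hQint⟩
  have hab : e = algebraMap K L (1 + 3 * f * (2 * p)) +
      algebraMap K L (3 * (2 * (f : K) * q)) * s := by
    rw [heγ, hpq]
    simp only [map_add, map_mul, map_one, map_ofNat]
    ring
  have hσe : σ e = algebraMap K L (1 + 3 * f * (2 * p)) -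
      algebraMap K L (3 * (2 * (f : K) * q)) * s := by
    rw [hab, map_add, map_mul, hσ, hσ, hσs]
    ring
  have hnorm : σ e * e = 1 := by
    rw [he, map_pow, ← mul_pow, hEσ, one_pow]
  have hK : (1 + 3 * (f : K) * (2 * p)) ^ 2 - f * (3 * (2 * (f : K) * q)) ^ 2 = 1 := by
    apply hinj
    rw [hσe, hab] at hnorm
    rw [map_sub, map_pow, map_mul, map_pow, map_one]
    linear_combination hnorm + (algebraMap K L (3 * (2 * (f : K) * q))) ^ 2 * hs
  have hpell : (1 + 3 * f * P2) ^ 2 - f * (3 * Q2) ^ 2 = 1 := by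
    apply RingOfIntegers.ext
    exact hK
  refine ⟨1 + 3 * f * P2, 3 * Q2, hpell, ⟨f * P2, by ring⟩, ?_⟩
  intro hb
  have hbK : 3 * (2 * (f : K) * q) = 0 := congrArg (fun x : 𝓞 K => (x : K)) hb
  rw [hbK, zero_pow two_ne_zero, mul_zero, sub_zero] at hK
  rw [hbK, map_zero, zero_mul, add_zero] at hab
  have he1 : |ψ₁ e| = 1 := by
    rw [hab]
    rcases sq_eq_one_iff.1 hK with h3 | h3
    · rw [h3]
      simp
    · rw [h3]
      simp
  rw [he, map_pow, abs_pow] at he1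
  have h3 := one_lt_pow₀ hE1 hk0.ne'
  rw [he1] at h3
  exact lt_irrefl _ h3

theorem pell {K : Type} [Field K] [NumberField K] (f : 𝓞 K) (hns : ¬ IsSquare (f : K))
    (φ : K →+* ℝ) (h : 0 < φ f) :
    ∃ a b : 𝓞 K, a ^ 2 - f * b ^ 2 = 1 ∧ (3 : 𝓞 K) ∣ a - 1 ∧ b ≠ 0 := by
  classical
  have hirr : Irreducible (X ^ 2 - C (f : K)) := by
    apply X_pow_sub_C_irreducible_of_prime Nat.prime_two
    intro b hb
    exact hns ⟨b, by rw [← hb, sq]⟩
  have hmon : (X ^ 2 - C (f : K)).Monic := monic_X_pow_sub_C _ two_ne_zero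
  have : Fact (Irreducible (X ^ 2 - C (f : K))) := ⟨hirr⟩
  let L := AdjoinRoot (X ^ 2 - C (f : K))
  have : Module.Finite K L := hmon.finite_adjoinRoot
  have : NumberField L := NumberField.of_module_finite K L
  let s : L := AdjoinRoot.root (X ^ 2 - C (f : K))
  have hs : s ^ 2 = algebraMap K L f := by
    have h1 := AdjoinRoot.eval₂_root (X ^ 2 - C (f : K))
    rw [eval₂_sub, eval₂_pow, eval₂_X, eval₂_C, sub_eq_zero] at h1
    exact h1
  have hr : ∀ (A : Type) [CommRing A] (i : K →+* A) (x : A), x ^ 2 = i f →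
      (X ^ 2 - C (f : K)).eval₂ i x = 0 := by
    intro A _ i x hx
    rw [eval₂_sub, eval₂_pow, eval₂_X, eval₂_C, sub_eq_zero]
    exact hx
  have hφ : (Real.sqrt (φ f)) ^ 2 = φ f := Real.sq_sqrt h.le
  let ψ₁ : L →+* ℝ := AdjoinRoot.lift φ (Real.sqrt (φ f)) (hr ℝ φ _ hφ)
  let ψ₂ : L →+* ℝ := AdjoinRoot.lift φ (-Real.sqrt (φ f)) (hr ℝ φ _ (by rw [neg_sq, hφ]))
  let σ : L →+* L := AdjoinRoot.lift (algebraMap K L) (-s) (hr L _ _ (by rw [neg_sq, hs]))
  have hσ : ∀ p : K, σ (algebraMap K L p) = algebraMap K L p := fun p =>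
    AdjoinRoot.lift_of _
  have hσs : σ s = -s := AdjoinRoot.lift_root _
  have hrep : ∀ x : L, ∃ p q : K, x = algebraMap K L p + algebraMap K L q * s := by
    intro x
    obtain ⟨g, rfl⟩ := AdjoinRoot.mk_surjective x
    have h1 : AdjoinRoot.mk (X ^ 2 - C (f : K)) g =
        AdjoinRoot.mk (X ^ 2 - C (f : K)) (g %ₘ (X ^ 2 - C (f : K))) := by
      rw [AdjoinRoot.mk_eq_mk]
      rw [modByMonic_eq_sub_mul_div _ (X ^ 2 - C (f : K))]
      rw [sub_sub_cancel]
      exact dvd_mul_right _ _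
    have hdeg : (g %ₘ (X ^ 2 - C (f : K))).degree < 2 := by
      have h2 := degree_modByMonic_lt g hmon
      rwa [degree_X_pow_sub_C two_pos] at h2
    have hle : (g %ₘ (X ^ 2 - C (f : K))).degree ≤ 1 := by
      rw [degree_le_iff_coeff_zero]
      intro m hm
      have hm1 : 1 < m := by exact_mod_cast hm
      exact (degree_lt_iff_coeff_zero _ 2).1 hdeg m hm1
    have h3 := eq_X_add_C_of_degree_le_one hle
    refine ⟨(g %ₘ (X ^ 2 - C (f : K))).coeff 0, (g %ₘ (X ^ 2 - C (f : K))).coeff 1, ?_⟩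
    rw [h1]
    conv_lhs => rw [h3]
    rw [map_add, map_mul, AdjoinRoot.mk_C, AdjoinRoot.mk_C, AdjoinRoot.mk_X]
    rw [add_comm]
    rfl
  have hψ₁s : ψ₁ s = Real.sqrt (φ f) := AdjoinRoot.lift_root _
  have hψ₂s : ψ₂ s = -Real.sqrt (φ f) := AdjoinRoot.lift_root _
  have hψ₁ : ∀ p : K, ψ₁ (algebraMap K L p) = φ p := fun p => AdjoinRoot.lift_of _
  have hψ₂ : ∀ p : K, ψ₂ (algebraMap K L p) = φ p := fun p => AdjoinRoot.lift_of _
  have hf0 : (f : K) ≠ 0 := by
    intro h0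
    rw [h0, map_zero] at h
    exact lt_irrefl _ h
  refine core f hf0 s hs hrep σ hσ hσs ψ₁ ψ₂ ?_ ?_
  · intro x
    obtain ⟨p, q, rfl⟩ := hrep x
    simp only [map_add, map_mul, hσ, hσs, map_neg, hψ₁, hψ₂, hψ₁s, hψ₂s]
  · rw [hψ₁s]
    exact Real.sqrt_pos.2 h

end Pool.Agent.Helper88.Pell
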