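import Mathlib
import Pool.Agent.Helper7.Comm.Brackets

set_option autoImplicit false
set_option linter.unusedSectionVars false

namespace Pool.Agent.Helper88.ExpMag

open Pool.Agent.Helper7.Comm Pool.Agent.Helper7.Comm.NC

variable {X : Type} [Fintype X] [DecidableEq X]

/-- power series in one letter -/
def geo (x : X) (c : ℕ → ℚ) : NC X ℚ :=
  ⟨fun w => if w = List.replicate w.length x then c w.length else 0⟩

theorem geo_apply (x : X) (c : ℕ → ℚ) (w : List X) :
    geo x c w = if w = List.replicate w.length x then c w.length else 0 := rfl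

theorem geo_rep (x : X) (c : ℕ → ℚ) (n : ℕ) : geo x c (List.replicate n x) = c n := by
  rw [geo_apply]; simp

theorem geo_ne (x : X) (c : ℕ → ℚ) {w : List X} (h : w ≠ List.replicate w.length x) :
    geo x c w = 0 := by
  rw [geo_apply, if_neg h]

theorem D_geo (a x : X) (c : ℕ → ℚ) :
    D a (geo x c) = if a = x then geo x (fun n => c (n + 1)) else 0 := by
  ext w
  rw [D_apply, geo_apply]
  by_cases h : a = x
  · rw [if_pos h, geo_apply]
    simp only [List.length_cons, List.replicate_succ, List.cons.injEq, h, true_and]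
  · rw [if_neg h]
    simp [List.replicate_succ, h]

theorem geo_mul (x : X) (c d : ℕ → ℚ) :
    geo x c * geo x d = geo x (fun n => ∑ i ∈ Finset.range (n + 1), c i * d (n - i)) := by
  ext w
  rw [mul_apply]
  by_cases hw : w = List.replicate w.length x
  · obtain ⟨n, hn⟩ : ∃ n, w = List.replicate n x := ⟨_, hw⟩
    subst hn
    rw [geo_rep]
    simp only [List.length_replicate]
    refine Finset.sum_congr rfl fun i hi => ?_
    rw [Finset.mem_range] at hi
    rw [List.take_replicate, List.drop_replicate, geo_rep, geo_rep, min_eq_left (by omega)]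
  · rw [geo_ne x _ hw]
    refine Finset.sum_eq_zero fun i hi => ?_
    rw [Finset.mem_range] at hi
    by_cases h1 : w.take i = List.replicate (w.take i).length x
    · by_cases h2 : w.drop i = List.replicate (w.drop i).length x
      · exfalso
        apply hw
        conv_lhs => rw [← List.take_append_drop i w, h1, h2, List.replicate_append_replicate]
        congr 1
        simp
        omega
      · rw [geo_ne x d h2, mul_zero]
    · rw [geo_ne x c h1, zero_mul]

theorem geo_one (x : X) : geo x (fun n => if n = 0 then 1 else 0) = 1 := by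
  ext w
  cases w with
  | nil => simp [geo_apply]
  | cons a w => rw [geo_apply, one_cons]; simp

theorem expS_eq (x : X) : expS x = geo x (fun n => ((n.factorial : ℕ) : ℚ)⁻¹) := rfl

/-- the inverse -/
def expI (x : X) : NC X ℚ := geo x (fun n => (-1) ^ n * ((n.factorial : ℕ) : ℚ)⁻¹)

theorem conv (n : ℕ) : ∑ i ∈ Finset.range (n + 1), ((i.factorial : ℕ) : ℚ)⁻¹ *
    ((-1) ^ (n - i) * (((n - i).factorial : ℕ) : ℚ)⁻¹) = if n = 0 then 1 else 0 := by
  have h : ∑ i ∈ Finset.range (n + 1), ((i.factorial : ℕ) : ℚ)⁻¹ *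
      ((-1) ^ (n - i) * (((n - i).factorial : ℕ) : ℚ)⁻¹) =
      ((n.factorial : ℕ) : ℚ)⁻¹ * (1 + (-1)) ^ n := by
    rw [add_pow, Finset.mul_sum]
    refine Finset.sum_congr rfl fun i hi => ?_
    rw [Finset.mem_range] at hi
    rw [one_pow, one_mul, Nat.cast_choose ℚ (by omega : i ≤ n)]
    have h1 : ((n.factorial : ℕ) : ℚ) ≠ 0 := by exact_mod_cast n.factorial_ne_zero
    have h2 : ((i.factorial : ℕ) : ℚ) ≠ 0 := by exact_mod_cast i.factorial_ne_zero
    have h3 : (((n - i).factorial : ℕ) : ℚ) ≠ 0 := by exact_mod_cast (n - i).factorial_ne_zero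
    field_simp
  rw [h]
  rcases Nat.eq_zero_or_pos n with h0 | h0
  · subst h0; simp
  · rw [if_neg h0.ne', show (1 : ℚ) + -1 = 0 by norm_num, zero_pow h0.ne', mul_zero]

theorem expS_mul_expI (x : X) : expS x * expI x = 1 := by
  rw [expS_eq, expI, geo_mul, ← geo_one x]
  congr 1
  ext n
  exact conv n

theorem expI_mul_expS (x : X) : expI x * expS x = 1 := by
  rw [expS_eq, expI, geo_mul, ← geo_one x]
  congr 1
  ext n
  rw [← conv n, ← Finset.sum_range_reflect]
  refine Finset.sum_congr rfl fun i hi => ?_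
  rw [Finset.mem_range] at hi
  have h1 : n + 1 - 1 - i = n - i := by omega
  have h2 : n - (n - i) = i := by omega
  rw [h1, h2]
  ring

/-- the unit -/
def expU (x : X) : (NC X ℚ)ˣ := ⟨expS x, expI x, expS_mul_expI x, expI_mul_expS x⟩

theorem sh_geo (x : X) : ∀ (a b : List X) (c : ℕ → ℚ), sh a b (geo x c) =
    if a = List.replicate a.length x ∧ b = List.replicate b.length x then
      ((a.length + b.length).choose a.length : ℚ) * c (a.length + b.length) else 0 := by
  intro a b c
  induction hn : a.length + b.length generalizing a b c with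
  | zero =>
    obtain rfl : a = [] := by
      cases a
      · rfl
      · simp at hn
    obtain rfl : b = [] := by
      cases b
      · rfl
      · simp at hn
    simp [geo_apply]
  | succ n ih =>
    cases a with
    | nil =>
      rw [sh_nil_left, geo_apply]
      simp only [List.length_nil, List.replicate_zero, true_and, Nat.choose_zero_right,
        Nat.cast_one, one_mul]
      simp only [List.length_nil, zero_add] at hn
      rw [hn]
    | cons y a =>
      cases b with
      | nil =>
        rw [sh_nil_right, geo_apply]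
        simp only [List.length_nil, List.replicate_zero, and_true]
        simp only [List.length_nil, add_zero] at hn
        rw [hn, Nat.choose_self]
        simp
      | cons z b =>
        rw [sh_cons_cons, D_geo, D_geo]
        have hl : a.length + b.length + 1 = n := by simp at hn; omega
        have key : ∀ (u v : List X) (d : ℕ → ℚ), u.length + v.length = n →
            sh u v (geo x d) = if u = List.replicate u.length x ∧ v = List.replicate v.length x then
              ((u.length + v.length).choose u.length : ℚ) * d (u.length + v.length) else 0 := by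
          intro u v d huv
          have := ih u v d huv
          rw [this, huv]
        by_cases hy : y = x
        · by_cases hz : z = x
          · rw [if_pos hy, if_pos hz, key a (z :: b) _ (by simp; omega),
              key (y :: a) b _ (by simp; omega)]
            simp only [List.length_cons, List.replicate_succ, List.cons.injEq, hy, hz, true_and]
            by_cases h : a = List.replicate a.length x ∧ b = List.replicate b.length x
            · rw [if_pos h, if_pos h, if_pos h]
              have e1 : a.length + (b.length + 1) = n := by omega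
              have e2 : a.length + 1 + b.length = n := by omega
              rw [e1, e2]
              have h3 : ((n + 1).choose (a.length + 1) : ℚ) =
                  (n.choose a.length : ℚ) + (n.choose (a.length + 1) : ℚ) := by
                rw [Nat.choose_succ_succ]; push_cast; ring
              rw [h3]; ring
            · rw [if_neg h, if_neg h, if_neg h]; ring
          · rw [if_pos hy, if_neg hz, key a (z :: b) _ (by simp; omega), sh_zero]
            simp [List.replicate_succ, hz]
        · by_cases hz : z = x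
          · rw [if_neg hy, if_pos hz, key (y :: a) b _ (by simp; omega), sh_zero]
            simp [List.replicate_succ, hy]
          · rw [if_neg hy, if_neg hz, sh_zero, sh_zero]
            simp [List.replicate_succ, hy]

/-- group-like -/
def GLk (f : NC X ℚ) : Prop := Δ f = T1 f * T2 f

theorem GLk_expS (x : X) : GLk (expS x) := by
  unfold GLk
  ext a b
  rw [Δ_apply, T1_mul_T2_apply, expS_eq, sh_geo]
  by_cases ha : a = List.replicate a.length x
  · by_cases hb : b = List.replicate b.length x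
    · rw [if_pos ⟨ha, hb⟩, geo_apply, geo_apply, if_pos ha, if_pos hb,
        Nat.cast_choose ℚ (by omega : a.length ≤ a.length + b.length)]
      have h1 : (((a.length + b.length).factorial : ℕ) : ℚ) ≠ 0 := by
        exact_mod_cast Nat.factorial_ne_zero _
      have h2 : ((a.length.factorial : ℕ) : ℚ) ≠ 0 := by exact_mod_cast Nat.factorial_ne_zero _
      have h3 : ((b.length.factorial : ℕ) : ℚ) ≠ 0 := by exact_mod_cast Nat.factorial_ne_zero _
      rw [show a.length + b.length - a.length = b.length by omega]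
      field_simp
    · rw [if_neg (fun h => hb h.2), geo_ne x _ hb, mul_zero]
  · rw [if_neg (fun h => ha h.1), geo_ne x _ ha, zero_mul]

theorem GLk_mul {f g : NC X ℚ} (hf : GLk f) (hg : GLk g) : GLk (f * g) := by
  unfold GLk at *
  rw [Δ_mul, hf, hg, T1_mul, T2_mul]
  calc T1 f * T2 f * (T1 g * T2 g) = T1 f * (T2 f * T1 g) * T2 g := by simp only [mul_assoc]
    _ = T1 f * (T1 g * T2 f) * T2 g := by rw [T1_comm_T2]
    _ = _ := by simp only [mul_assoc]

theorem GLk_one : GLk (1 : NC X ℚ) := by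
  unfold GLk
  rw [Δ_one, T1_one, T2_one, one_mul]

theorem GLk_inv {u : (NC X ℚ)ˣ} (hu : GLk (u : NC X ℚ)) : GLk ((u⁻¹ : (NC X ℚ)ˣ) : NC X ℚ) := by
  unfold GLk at *
  have h1 : Δ (u : NC X ℚ) * Δ ((u⁻¹ : (NC X ℚ)ˣ) : NC X ℚ) = 1 := by
    rw [← Δ_mul, Units.mul_inv, Δ_one]
  have h2 : (T1 ((u⁻¹ : (NC X ℚ)ˣ) : NC X ℚ) * T2 ((u⁻¹ : (NC X ℚ)ˣ) : NC X ℚ)) *
      Δ (u : NC X ℚ) = 1 := by
    rw [hu]
    calc T1 ((u⁻¹ : (NC X ℚ)ˣ) : NC X ℚ) * T2 ((u⁻¹ : (NC X ℚ)ˣ) : NC X ℚ) *
        (T1 (u : NC X ℚ) * T2 (u : NC X ℚ))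
        = T1 ((u⁻¹ : (NC X ℚ)ˣ) : NC X ℚ) * (T2 ((u⁻¹ : (NC X ℚ)ˣ) : NC X ℚ) *
        T1 (u : NC X ℚ)) * T2 (u : NC X ℚ) := by simp only [mul_assoc]
      _ = T1 ((u⁻¹ : (NC X ℚ)ˣ) : NC X ℚ) * (T1 (u : NC X ℚ) *
        T2 ((u⁻¹ : (NC X ℚ)ˣ) : NC X ℚ)) * T2 (u : NC X ℚ) := by rw [T1_comm_T2]
      _ = (T1 ((u⁻¹ : (NC X ℚ)ˣ) : NC X ℚ) * T1 (u : NC X ℚ)) *
        (T2 ((u⁻¹ : (NC X ℚ)ˣ) : NC X ℚ) * T2 (u : NC X ℚ)) := by simp only [mul_assoc]
      _ = 1 := by
        rw [← T1_mul, ← T2_mul, Units.inv_mul, T1_one, T2_one, one_mul]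
  calc Δ ((u⁻¹ : (NC X ℚ)ˣ) : NC X ℚ) =
      (T1 ((u⁻¹ : (NC X ℚ)ˣ) : NC X ℚ) * T2 ((u⁻¹ : (NC X ℚ)ˣ) : NC X ℚ)) *
      Δ (u : NC X ℚ) * Δ ((u⁻¹ : (NC X ℚ)ˣ) : NC X ℚ) := by rw [h2, one_mul]
    _ = _ := by rw [mul_assoc, h1, mul_one]

/-- integrality -/
def Intg (f : NC X ℚ) : Prop := ∀ w : List X, ∃ z : ℤ, ((w.length.factorial : ℕ) : ℚ) * f w = z

theorem Intg_mul {f g : NC X ℚ} (hf : Intg f) (hg : Intg g) : Intg (f * g) := by
  intro w
  choose zf hzf using hf
  choose zg hzg using hg
  refine ⟨∑ i ∈ Finset.range (w.length + 1), (w.length.choose i : ℤ) *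
    (zf (w.take i) * zg (w.drop i)), ?_⟩
  rw [mul_apply, Finset.mul_sum]
  push_cast
  refine Finset.sum_congr rfl fun i hi => ?_
  rw [Finset.mem_range] at hi
  rw [← hzf, ← hzg, Nat.cast_choose ℚ (by omega : i ≤ w.length), List.length_take,
    List.length_drop, min_eq_left (by omega)]
  have h2 : ((i.factorial : ℕ) : ℚ) ≠ 0 := by exact_mod_cast i.factorial_ne_zero
  have h3 : (((w.length - i).factorial : ℕ) : ℚ) ≠ 0 := by
    exact_mod_cast (w.length - i).factorial_ne_zero
  field_simp

theorem Intg_one : Intg (1 : NC X ℚ) := by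
  intro w
  cases w with
  | nil => exact ⟨1, by simp⟩
  | cons a w => exact ⟨0, by simp⟩

theorem Intg_geo (x : X) (s : ℤ) :
    Intg (geo x (fun n => (s : ℚ) ^ n * ((n.factorial : ℕ) : ℚ)⁻¹)) := by
  intro w
  by_cases hw : w = List.replicate w.length x
  · refine ⟨s ^ w.length, ?_⟩
    rw [geo_apply, if_pos hw]
    have h1 : ((w.length.factorial : ℕ) : ℚ) ≠ 0 := by exact_mod_cast Nat.factorial_ne_zero _
    push_cast
    field_simp
  · exact ⟨0, by rw [geo_ne x _ hw]; simp⟩

/-- the homomorphism -/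
noncomputable def EM : FreeGroup X →* (NC X ℚ)ˣ := FreeGroup.lift expU

theorem EM_of (x : X) : ((EM (FreeGroup.of x) : (NC X ℚ)ˣ) : NC X ℚ) = expS x := by
  unfold EM; rw [FreeGroup.lift_apply_of]; rfl

theorem EM_of_inv (x : X) : ((EM (FreeGroup.of x)⁻¹ : (NC X ℚ)ˣ) : NC X ℚ) = expI x := by
  unfold EM; rw [map_inv, FreeGroup.lift_apply_of]; rfl

theorem EM_nil (g : FreeGroup X) : ((EM g : (NC X ℚ)ˣ) : NC X ℚ) [] = 1 := by
  induction g using FreeGroup.induction_on with
  | C1 => simp
  | of x => rw [EM_of, expS_eq, geo_apply]; simp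
  | inv_of x _ => rw [EM_of_inv, expI, geo_apply]; simp
  | mul a b ha hb => rw [map_mul, Units.val_mul, mul_nil, ha, hb, mul_one]

theorem EM_GLk (g : FreeGroup X) : GLk ((EM g : (NC X ℚ)ˣ) : NC X ℚ) := by
  induction g using FreeGroup.induction_on with
  | C1 => simpa using GLk_one
  | of x => rw [EM_of]; exact GLk_expS x
  | inv_of x h => rw [map_inv]; exact GLk_inv h
  | mul a b ha hb => rw [map_mul, Units.val_mul]; exact GLk_mul ha hb

theorem EM_Intg (g : FreeGroup X) : Intg ((EM g : (NC X ℚ)ˣ) : NC X ℚ) := by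
  induction g using FreeGroup.induction_on with
  | C1 => simpa using Intg_one
  | of x =>
    rw [EM_of, expS_eq]
    have := Intg_geo x 1
    simpa using this
  | inv_of x _ =>
    rw [EM_of_inv, expI]
    have := Intg_geo x (-1)
    simpa using this
  | mul a b ha hb => rw [map_mul, Units.val_mul]; exact Intg_mul ha hb

theorem geo_abs_le (x : X) (s : ℚ) (hs : |s| = 1) (w : List X) :
    |geo x (fun n => s ^ n * ((n.factorial : ℕ) : ℚ)⁻¹) w| ≤ 1 := by
  rw [geo_apply]
  split_ifs
  · rw [abs_mul, abs_pow, hs, one_pow, one_mul, abs_inv, Nat.abs_cast]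
    apply inv_le_one_of_one_le₀
    exact_mod_cast Nat.one_le_iff_ne_zero.mpr (Nat.factorial_ne_zero _)
  · simp

theorem geom_le (n c : ℕ) : ∑ j ∈ Finset.range (c + 1), (n : ℚ) ^ j ≤ ((n : ℚ) + 1) ^ c := by
  induction c with
  | zero => simp
  | succ c ih =>
    rw [Finset.sum_range_succ]
    have h1 : (n : ℚ) ^ (c + 1) ≤ n * ((n : ℚ) + 1) ^ c := by
      rw [pow_succ, mul_comm]
      have h2 : (n : ℚ) ^ c ≤ ((n : ℚ) + 1) ^ c := by
        gcongr; linarith
      have h3 : (0 : ℚ) ≤ n := Nat.cast_nonneg n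
      exact mul_le_mul_of_nonneg_left h2 h3
    calc _ ≤ ((n : ℚ) + 1) ^ c + n * ((n : ℚ) + 1) ^ c := add_le_add ih h1
      _ = ((n : ℚ) + 1) ^ (c + 1) := by ring

theorem EM_growth (W : List (X × Bool)) : ∀ w : List X,
    |((EM (FreeGroup.mk W) : (NC X ℚ)ˣ) : NC X ℚ) w| ≤ ((W.length : ℚ) + 1) ^ w.length := by
  induction W with
  | nil =>
    intro w
    have : (FreeGroup.mk ([] : List (X × Bool))) = 1 := rfl
    rw [this, map_one, Units.val_one]
    cases w with
    | nil => simp
    | cons a w => simp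
  | cons p W ih =>
    intro w
    obtain ⟨x, b⟩ := p
    have hmk : (FreeGroup.mk ((x, b) :: W)) = (if b then FreeGroup.of x else (FreeGroup.of x)⁻¹) *
        FreeGroup.mk W := by
      cases b
      · simp only [Bool.false_eq_true, if_false]
        rw [FreeGroup.of, FreeGroup.inv_mk, FreeGroup.mul_mk]
        rfl
      · simp only [if_true]
        rw [FreeGroup.of, FreeGroup.mul_mk]
        rfl
    rw [hmk, map_mul, Units.val_mul, mul_apply]
    have hf : ∀ v : List X,
        |((EM (if b then FreeGroup.of x else (FreeGroup.of x)⁻¹) : (NC X ℚ)ˣ) : NC X ℚ) v| ≤ 1 := by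
      intro v
      cases b
      · simp only [Bool.false_eq_true, if_false]
        rw [EM_of_inv]
        exact geo_abs_le x (-1) (by simp) v
      · simp only [if_true]
        rw [EM_of, expS_eq]
        have := geo_abs_le x 1 (by simp) v
        simpa using this
    have hW0 : (0 : ℚ) ≤ (W.length : ℚ) := Nat.cast_nonneg _
    calc _ ≤ ∑ i ∈ Finset.range (w.length + 1), |_ * _| := Finset.abs_sum_le_sum_abs _ _
      _ ≤ ∑ i ∈ Finset.range (w.length + 1), ((W.length + 1 : ℕ) : ℚ) ^ (w.length - i) := by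
          refine Finset.sum_le_sum fun i hi => ?_
          rw [abs_mul]
          have h1 := ih (w.drop i)
          rw [List.length_drop] at h1
          calc _ ≤ 1 * ((W.length : ℚ) + 1) ^ (w.length - i) :=
                mul_le_mul (hf _) h1 (abs_nonneg _) (by norm_num)
            _ = _ := by push_cast; ring
      _ = ∑ j ∈ Finset.range (w.length + 1), ((W.length + 1 : ℕ) : ℚ) ^ j := by
          rw [← Finset.sum_range_reflect]
          refine Finset.sum_congr rfl fun i hi => ?_
          rw [Finset.mem_range] at hi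
          congr 1
          omega
      _ ≤ _ := by
          refine (geom_le _ _).trans (le_of_eq ?_)
          simp

theorem exists_expMag (X : Type) [Fintype X] [DecidableEq X] :
    ∃ E : FreeGroup X →* (NC X ℚ)ˣ,
      (∀ x, ((E (FreeGroup.of x) : (NC X ℚ)ˣ) : NC X ℚ) = expS x) ∧
      (∀ g, ((E g : (NC X ℚ)ˣ) : NC X ℚ) [] = 1) ∧
      (∀ g, Δ ((E g : (NC X ℚ)ˣ) : NC X ℚ) = T1 ((E g : (NC X ℚ)ˣ) : NC X ℚ) * T2 ((E g : (NC X ℚ)ˣ) : NC X ℚ)) ∧
      (∀ g (w : List X), ∃ z : ℤ, ((w.length.factorial : ℕ) : ℚ) * ((E g : (NC X ℚ)ˣ) : NC X ℚ) w = z) ∧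
      (∀ c : ℕ, ∃ C : ℕ, ∀ (W : List (X × Bool)) (w : List X), w.length ≤ c →
        |((E (FreeGroup.mk W) : (NC X ℚ)ˣ) : NC X ℚ) w| ≤ C * ((W.length : ℚ) + 1) ^ C) := by
  refine ⟨EM, EM_of, EM_nil, EM_GLk, EM_Intg, fun c => ⟨c + 1, fun W w hw => ?_⟩⟩
  refine (EM_growth W w).trans ?_
  have h1 : (1 : ℚ) ≤ (W.length : ℚ) + 1 := by
    have : (0 : ℚ) ≤ (W.length : ℚ) := Nat.cast_nonneg _
    linarith
  calc ((W.length : ℚ) + 1) ^ w.length ≤ ((W.length : ℚ) + 1) ^ (c + 1) :=
        pow_le_pow_right₀ h1 (by omega)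
    _ ≤ ((c + 1 : ℕ) : ℚ) * ((W.length : ℚ) + 1) ^ (c + 1) := by
        have h2 : (1 : ℚ) ≤ ((c + 1 : ℕ) : ℚ) := by push_cast; linarith [(Nat.cast_nonneg c : (0 : ℚ) ≤ c)]
        have h3 : (0 : ℚ) ≤ ((W.length : ℚ) + 1) ^ (c + 1) := by positivity
        nlinarith

/-! ### Powers -/

theorem antidiff (r : Polynomial ℚ) : ∃ s : Polynomial ℚ, ∀ z : ℚ, s.eval (z + 1) - s.eval z =
    r.eval z := by
  induction r using Polynomial.induction_on' with
  | add p q hp hq =>
    obtain ⟨s, hs⟩ := hp
    obtain ⟨t, ht⟩ := hq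
    refine ⟨s + t, fun z => ?_⟩
    rw [Polynomial.eval_add, Polynomial.eval_add, Polynomial.eval_add, ← hs, ← ht]
    ring
  | monomial n a =>
    refine ⟨Polynomial.C (a / (n + 1)) * Polynomial.bernoulli (n + 1), fun z => ?_⟩
    have h := Polynomial.bernoulli_eval_one_add (n + 1) z
    rw [Polynomial.eval_mul, Polynomial.eval_mul, Polynomial.eval_C, Polynomial.eval_C,
      add_comm z 1, h, Polynomial.eval_monomial]
    have : (n : ℚ) + 1 ≠ 0 := by positivity
    simp only [Nat.add_sub_cancel]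
    push_cast
    field_simp
    ring

theorem zpow_poly {X : Type} [Fintype X] [DecidableEq X] (u : (NC X ℚ)ˣ) (hu : (u : NC X ℚ) [] = 1)
    (w : List X) : ∃ p : Polynomial ℚ, ∀ z : ℤ, ((u ^ z : (NC X ℚ)ˣ) : NC X ℚ) w = p.eval (z : ℚ) := by
  induction hn : w.length using Nat.strong_induction_on generalizing w with
  | _ n ih =>
    -- the difference function
    have hstep : ∀ z : ℤ, ((u ^ (z + 1) : (NC X ℚ)ˣ) : NC X ℚ) w =
        ((u ^ z : (NC X ℚ)ˣ) : NC X ℚ) w +
        ∑ i ∈ Finset.range w.length, (u : NC X ℚ) (w.take (i + 1)) *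
          ((u ^ z : (NC X ℚ)ˣ) : NC X ℚ) (w.drop (i + 1)) := by
      intro z
      rw [add_comm z 1, zpow_add, zpow_one, Units.val_mul, mul_apply, Finset.sum_range_succ',
        List.take_zero, List.drop_zero, hu, one_mul, add_comm]
    have hex : ∀ i : ℕ, ∃ p : Polynomial ℚ, i < w.length →
        ∀ z : ℤ, ((u ^ z : (NC X ℚ)ˣ) : NC X ℚ) (w.drop (i + 1)) = p.eval (z : ℚ) := by
      intro i
      by_cases hi : i < w.length
      · obtain ⟨p, hp⟩ := ih (w.drop (i + 1)).length (by rw [List.length_drop]; omega) _ rfl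
        exact ⟨p, fun _ => hp⟩
      · exact ⟨0, fun h => absurd h hi⟩
    choose p hp using hex
    obtain ⟨s, hs⟩ := antidiff (∑ i ∈ Finset.range w.length,
      Polynomial.C ((u : NC X ℚ) (w.take (i + 1))) * p i)
    have hstep2 : ∀ z : ℤ, ((u ^ (z + 1) : (NC X ℚ)ˣ) : NC X ℚ) w - s.eval ((z : ℚ) + 1) =
        ((u ^ z : (NC X ℚ)ˣ) : NC X ℚ) w - s.eval (z : ℚ) := by
      intro z
      rw [hstep z]
      have h1 := hs (z : ℚ)
      rw [Polynomial.eval_finsetSum] at h1
      have h2 : ∑ i ∈ Finset.range w.length, (u : NC X ℚ) (w.take (i + 1)) *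
          ((u ^ z : (NC X ℚ)ˣ) : NC X ℚ) (w.drop (i + 1)) =
          ∑ i ∈ Finset.range w.length, (Polynomial.C ((u : NC X ℚ) (w.take (i + 1))) * p i).eval (z : ℚ) := by
        refine Finset.sum_congr rfl fun i hi => ?_
        rw [Finset.mem_range] at hi
        rw [Polynomial.eval_mul, Polynomial.eval_C, hp i hi z]
      rw [h2]
      linarith
    refine ⟨s + Polynomial.C (((u ^ (0 : ℤ) : (NC X ℚ)ˣ) : NC X ℚ) w - s.eval 0), fun z => ?_⟩
    rw [Polynomial.eval_add, Polynomial.eval_C]
    have hconst : ((u ^ z : (NC X ℚ)ˣ) : NC X ℚ) w - s.eval (z : ℚ) =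
        ((u ^ (0 : ℤ) : (NC X ℚ)ˣ) : NC X ℚ) w - s.eval 0 := by
      induction z using Int.induction_on with
      | zero => simp
      | succ i hi =>
        rw [← hi]
        have := hstep2 (i : ℤ)
        rw [← this]
        push_cast
        rfl
      | pred i hi =>
        rw [← hi]
        have := hstep2 (-(i : ℤ) - 1)
        rw [sub_add_cancel] at this
        rw [← this]
        push_cast
        ring_nf
    linarith

end Pool.Agent.Helper88.ExpMag
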