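import Mathlib

open Filter Finset Asymptotics
open scoped Topology

namespace Pool.Agent.Helper88.Bias

/-- the weight `1 / log^2 (n+3)` -/
noncomputable def el (n : ℕ) : ℝ := 1 / (Real.log ((n : ℝ) + 3)) ^ 2

lemma log_gt (n : ℕ) : 1 < Real.log ((n : ℝ) + 3) := by
  rw [Real.lt_log_iff_exp_lt (by positivity)]
  have := Real.exp_one_lt_d9
  have h : (0 : ℝ) ≤ n := Nat.cast_nonneg n
  linarith

lemma el_pos (n : ℕ) : 0 < el n := by
  unfold el
  have := log_gt n
  positivity

lemma el_le_one (n : ℕ) : el n ≤ 1 := by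
  unfold el
  have := log_gt n
  rw [div_le_one (by positivity)]
  nlinarith

lemma el_succ_le (n : ℕ) : el (n + 1) ≤ el n := by
  unfold el
  have h1 := log_gt n
  have h2 : Real.log ((n : ℝ) + 3) ≤ Real.log (((n + 1 : ℕ) : ℝ) + 3) := by
    apply Real.log_le_log (by positivity)
    push_cast; linarith
  apply one_div_le_one_div_of_le (by positivity)
  exact pow_le_pow_left₀ (by linarith) h2 2

lemma el_anti : Antitone el := antitone_nat_of_succ_le el_succ_le

lemma el_diff (n : ℕ) : ((n : ℝ) + 1) * (el n - el (n + 1)) ≤ 2 * el n / Real.log ((n : ℝ) + 3) := by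
  have h1 := log_gt n
  have h1' := log_gt (n + 1)
  set a := Real.log ((n : ℝ) + 3) with ha
  set b := Real.log (((n + 1 : ℕ) : ℝ) + 3) with hb
  have hab : a ≤ b := by
    apply Real.log_le_log (by positivity)
    push_cast; linarith
  have hn : (0 : ℝ) < (n : ℝ) + 3 := by positivity
  have hd : b - a ≤ 1 / ((n : ℝ) + 3) := by
    rw [ha, hb, ← Real.log_div (by positivity) (by positivity)]
    have h2 := Real.log_le_sub_one_of_pos (x := (((n + 1 : ℕ) : ℝ) + 3) / ((n : ℝ) + 3)) (by positivity)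
    refine h2.trans (le_of_eq ?_)
    push_cast
    field_simp
    ring
  have e1 : el n = 1 / a ^ 2 := rfl
  have e2 : el (n + 1) = 1 / b ^ 2 := rfl
  rw [e1, e2]
  have ha0 : 0 < a := by linarith
  have hb0 : 0 < b := by linarith
  have h3 : 1 / a ^ 2 - 1 / b ^ 2 = (b - a) * (b + a) / (a ^ 2 * b ^ 2) := by
    field_simp
    ring
  have h4 : (b - a) * (b + a) / (a ^ 2 * b ^ 2) ≤ (1 / ((n : ℝ) + 3)) * (2 / (a ^ 3)) := by
    have h5 : (b + a) / (a ^ 2 * b ^ 2) ≤ 2 / a ^ 3 := by
      rw [div_le_div_iff₀ (by positivity) (by positivity)]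
      have h6 : (b + a) * a ^ 3 ≤ (2 * b) * a ^ 3 := by
        apply mul_le_mul_of_nonneg_right _ (by positivity)
        linarith
      have h7 : 2 * b * a ^ 3 ≤ 2 * (a ^ 2 * b ^ 2) := by
        have : 0 ≤ a ^ 2 * b * (b - a) := by
          apply mul_nonneg (by positivity); linarith
        nlinarith
      linarith
    rw [mul_div_assoc]
    exact mul_le_mul hd h5 (by positivity) (by positivity)
  rw [h3]
  calc ((n : ℝ) + 1) * ((b - a) * (b + a) / (a ^ 2 * b ^ 2))
      ≤ ((n : ℝ) + 3) * ((1 / ((n : ℝ) + 3)) * (2 / (a ^ 3))) := by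
        apply mul_le_mul (by linarith) h4 _ (by positivity)
        apply div_nonneg _ (by positivity)
        apply mul_nonneg (by linarith) (by positivity)
    _ = 2 * (1 / a ^ 2) / a := by field_simp

lemma el_diff_nonneg (n : ℕ) : 0 ≤ el n - el (n + 1) := sub_nonneg.mpr (el_succ_le n)

lemma log_tendsto : Tendsto (fun n : ℕ => Real.log ((n : ℝ) + 3)) atTop atTop :=
  Real.tendsto_log_atTop.comp (tendsto_atTop_add_const_right _ _ tendsto_natCast_atTop_atTop)

lemma el_tendsto : Tendsto el atTop (𝓝 0) := by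
  unfold el
  have h := ((tendsto_pow_atTop (α := ℝ) (n := 2) (by norm_num)).comp log_tendsto).inv_tendsto_atTop
  refine h.congr fun n => ?_
  simp only [Pi.inv_apply, Function.comp, one_div]

/-- `∑_{n<N} c n ∼ N c N` for slowly varying `c` -/
lemma cesaro {c : ℕ → ℝ} (hpos : ∀ n, 0 < c n) (hanti : Antitone c)
    (hdiff : (fun n : ℕ => ((n : ℝ) + 1) * (c n - c (n + 1))) =o[atTop] c)
    (hinf : Tendsto (fun N : ℕ => (N : ℝ) * c N) atTop atTop) :
    Tendsto (fun N => (∑ n ∈ range N, c n) / ((N : ℝ) * c N)) atTop (𝓝 1) := by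
  have hge : ∀ N : ℕ, (N : ℝ) * c N ≤ ∑ n ∈ range N, c n := by
    intro N
    calc (N : ℝ) * c N = ∑ n ∈ range N, c N := by simp
      _ ≤ _ := sum_le_sum fun n hn => hanti (by simp at hn; omega)
  have hS : Tendsto (fun N => ∑ n ∈ range N, c n) atTop atTop :=
    tendsto_atTop_mono hge hinf
  have h1 := hdiff.sum_range (fun n => (hpos n).le) hS
  have h2 : ∀ N : ℕ, (N : ℝ) * c N = ∑ n ∈ range N, c n -
      ∑ n ∈ range N, ((n : ℝ) + 1) * (c n - c (n + 1)) := by
    intro N
    induction N with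
    | zero => simp
    | succ N ih =>
      rw [sum_range_succ, sum_range_succ]
      push_cast
      linear_combination ih
  have h3 : Tendsto (fun N : ℕ => ((N : ℝ) * c N) / ∑ n ∈ range N, c n) atTop (𝓝 1) := by
    have h4 := h1.tendsto_div_nhds_zero
    have h5 := h4.const_sub 1
    rw [sub_zero] at h5
    refine h5.congr' ?_
    filter_upwards [hS.eventually_gt_atTop 0] with N hN
    rw [h2 N, sub_div, div_self hN.ne']
  have h6 := h3.inv₀ one_ne_zero
  rw [inv_one] at h6
  refine h6.congr fun N => ?_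
  rw [inv_div]

noncomputable def S1 (N : ℕ) : ℝ := ∑ n ∈ range N, el n
noncomputable def S2 (N : ℕ) : ℝ := ∑ n ∈ range N, el n ^ 2

lemma invlog_tendsto : Tendsto (fun n : ℕ => 1 / Real.log ((n : ℝ) + 3)) atTop (𝓝 0) := by
  refine log_tendsto.inv_tendsto_atTop.congr fun n => ?_
  simp only [Pi.inv_apply, one_div]

lemma diff1 : (fun n : ℕ => ((n : ℝ) + 1) * (el n - el (n + 1))) =o[atTop] el := by
  rw [isLittleO_iff_tendsto (fun n h => absurd h (el_pos n).ne')]
  have h := invlog_tendsto.const_mul 2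
  rw [mul_zero] at h
  refine squeeze_zero_norm (fun n => ?_) h
  have h0 := el_pos n
  have h1 := el_diff_nonneg n
  have h2 := log_gt n
  rw [Real.norm_eq_abs, abs_of_nonneg (by positivity), div_le_iff₀ h0]
  refine (el_diff n).trans (le_of_eq ?_)
  field_simp

lemma diff2 : (fun n : ℕ => ((n : ℝ) + 1) * (el n ^ 2 - el (n + 1) ^ 2)) =o[atTop]
    (fun n => el n ^ 2) := by
  have h := diff1.mul_isBigO (g₁ := el) (g₂ := el) (f₂ := fun n => el n + el (n + 1)) (by
    refine IsBigO.of_bound 2 (Eventually.of_forall fun n => ?_)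
    have h0 := el_pos n
    have h1 := el_pos (n + 1)
    have h2 := el_succ_le n
    rw [Real.norm_eq_abs, Real.norm_eq_abs, abs_of_pos (by positivity), abs_of_pos h0]
    linarith)
  refine (h.congr (fun n => ?_) (fun n => ?_))
  · ring
  · ring

/-- `log^4 (N+3) = o(N^{1/4})` in the form needed. -/
lemma pow_little : (fun N : ℕ => ((N : ℝ) + 1) ^ (3 / 4 : ℝ)) =o[atTop]
    (fun N : ℕ => (N : ℝ) * el N ^ 2) := by
  have h1 : (fun x : ℝ => Real.log x ^ (4 : ℝ)) =o[atTop] fun x => x ^ (1 / 4 : ℝ) :=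
    isLittleO_log_rpow_rpow_atTop 4 (by norm_num)
  have h2 : Tendsto (fun n : ℕ => (n : ℝ) + 3) atTop atTop :=
    tendsto_atTop_add_const_right _ _ tendsto_natCast_atTop_atTop
  have h3 := h1.comp_tendsto h2
  have h4 : (fun N : ℕ => ((N : ℝ) + 1) ^ (3 / 4 : ℝ)) =O[atTop]
      (fun N : ℕ => ((N : ℝ) + 3) ^ (3 / 4 : ℝ)) := by
    refine IsBigO.of_bound 1 (Eventually.of_forall fun n => ?_)
    rw [one_mul, Real.norm_eq_abs, Real.norm_eq_abs, abs_of_nonneg (by positivity),
      abs_of_nonneg (by positivity)]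
    exact Real.rpow_le_rpow (by positivity) (by linarith) (by norm_num)
  have h5 : (fun N : ℕ => ((N : ℝ) + 3) ^ (3 / 4 : ℝ) * Real.log ((N : ℝ) + 3) ^ 4) =o[atTop]
      (fun N : ℕ => ((N : ℝ) + 3)) := by
    have h6 := (isBigO_refl (fun N : ℕ => ((N : ℝ) + 3) ^ (3 / 4 : ℝ)) atTop).mul_isLittleO h3
    refine h6.congr (fun N => ?_) (fun N => ?_)
    · simp only [Function.comp]
      congr 1
      rw [← Real.rpow_natCast]; norm_num
    · simp only [Function.comp]
      rw [← Real.rpow_add (by positivity)]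
      norm_num
  have h7 : (fun N : ℕ => ((N : ℝ) + 3)) =O[atTop] (fun N : ℕ => (N : ℝ)) := by
    refine IsBigO.of_bound 4 ?_
    filter_upwards [eventually_ge_atTop 1] with N hN
    have : (1 : ℝ) ≤ N := by exact_mod_cast hN
    rw [Real.norm_eq_abs, Real.norm_eq_abs, abs_of_nonneg (by positivity),
      abs_of_nonneg (by positivity)]
    linarith
  have h8 := (h4.mul (isBigO_refl (fun N : ℕ => Real.log ((N : ℝ) + 3) ^ 4) atTop)).trans_isLittleO
    (h5.trans_isBigO h7)
  have h9 := h8.mul_isBigO (isBigO_refl (fun N : ℕ => el N ^ 2) atTop)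
  refine h9.congr (fun N => ?_) (fun N => rfl)
  have := log_gt N
  unfold el
  field_simp

lemma one_little_pow : (fun _ : ℕ => (1 : ℝ)) =o[atTop]
    (fun N : ℕ => ((N : ℝ) + 1) ^ (3 / 4 : ℝ)) := by
  rw [isLittleO_const_left]
  right
  have h : Tendsto (fun N : ℕ => ((N : ℝ) + 1) ^ (3 / 4 : ℝ)) atTop atTop :=
    (tendsto_rpow_atTop (by norm_num)).comp
      (tendsto_atTop_add_const_right _ _ tendsto_natCast_atTop_atTop)
  exact tendsto_norm_atTop_atTop.comp h

lemma inf2 : Tendsto (fun N : ℕ => (N : ℝ) * el N ^ 2) atTop atTop := by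
  have h := one_little_pow.trans pow_little
  rw [isLittleO_const_left] at h
  rcases h with h | h
  · exact absurd h one_ne_zero
  · refine h.congr fun N => ?_
    simp only [Function.comp]
    have := el_pos N
    rw [Real.norm_eq_abs, abs_of_nonneg (by positivity)]

lemma inf1 : Tendsto (fun N : ℕ => (N : ℝ) * el N) atTop atTop := by
  refine tendsto_atTop_mono (fun N => ?_) inf2
  have h0 := el_pos N
  have h1 := el_le_one N
  have : el N ^ 2 ≤ el N := by nlinarith
  exact mul_le_mul_of_nonneg_left this (Nat.cast_nonneg N)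

lemma S1_asymp : Tendsto (fun N => S1 N / ((N : ℝ) * el N)) atTop (𝓝 1) :=
  cesaro el_pos el_anti diff1 inf1

lemma S2_asymp : Tendsto (fun N => S2 N / ((N : ℝ) * el N ^ 2)) atTop (𝓝 1) :=
  cesaro (fun n => pow_pos (el_pos n) 2)
    (fun _ _ h => pow_le_pow_left₀ (el_pos _).le (el_anti h) 2) diff2 inf2

lemma S2_pos {N : ℕ} (hN : 0 < N) : 0 < S2 N :=
  sum_pos (fun n _ => pow_pos (el_pos n) 2) ⟨0, by simpa using hN⟩

lemma S1_pos {N : ℕ} (hN : 0 < N) : 0 < S1 N :=
  sum_pos (fun n _ => el_pos n) ⟨0, by simpa using hN⟩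

lemma S2_nonneg (N : ℕ) : 0 ≤ S2 N := sum_nonneg fun n _ => (pow_pos (el_pos n) 2).le

lemma S1_nonneg (N : ℕ) : 0 ≤ S1 N := sum_nonneg fun n _ => (el_pos n).le

/-- `S2 ∼ N el(N)^2` -/
lemma S2_bigO : (fun N : ℕ => (N : ℝ) * el N ^ 2) =O[atTop] S2 := by
  refine IsBigO.of_bound 1 (Eventually.of_forall fun N => ?_)
  have := el_pos N
  rw [one_mul, Real.norm_eq_abs, Real.norm_eq_abs, abs_of_nonneg (by positivity),
    abs_of_nonneg (S2_nonneg N)]
  calc (N : ℝ) * el N ^ 2 = ∑ n ∈ range N, el N ^ 2 := by simp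
    _ ≤ _ := sum_le_sum fun n hn => pow_le_pow_left₀ this.le (el_anti (by simp at hn; omega)) 2

lemma S2_bigO' : S2 =O[atTop] (fun N : ℕ => (N : ℝ) * el N ^ 2) := by
  refine isBigO_of_div_tendsto_nhds ?_ 1 S2_asymp
  filter_upwards [eventually_gt_atTop 0] with N hN h
  have := el_pos N
  have h2 : (0 : ℝ) < N := by exact_mod_cast hN
  have : 0 < (N : ℝ) * el N ^ 2 := by positivity
  exact absurd h this.ne'

lemma pow_little_S2 : (fun N : ℕ => ((N : ℝ) + 1) ^ (3 / 4 : ℝ)) =o[atTop] S2 :=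
  pow_little.trans_isBigO S2_bigO

lemma one_little_S2 : (fun _ : ℕ => (1 : ℝ)) =o[atTop] S2 := one_little_pow.trans pow_little_S2

lemma S2_tendsto : Tendsto S2 atTop atTop := by
  have h := one_little_S2
  rw [isLittleO_const_left] at h
  rcases h with h | h
  · exact absurd h one_ne_zero
  · refine h.congr fun N => ?_
    simp only [Function.comp]
    rw [Real.norm_eq_abs, abs_of_nonneg (S2_nonneg N)]

lemma S2_le_S1 (N : ℕ) : S2 N ≤ S1 N := sum_le_sum fun n _ => by
  have h0 := el_pos n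
  have h1 := el_le_one n
  nlinarith

lemma S1_tendsto : Tendsto S1 atTop atTop := tendsto_atTop_mono S2_le_S1 S2_tendsto

lemma bdd_little {f : ℕ → ℝ} {C : ℝ} (h : ∀ N, |f N| ≤ C) : f =o[atTop] S2 := by
  have h1 : f =O[atTop] (fun _ : ℕ => (1 : ℝ)) := by
    refine IsBigO.of_bound C (Eventually.of_forall fun N => ?_)
    simpa using h N
  exact h1.trans_isLittleO one_little_S2

/-- sums of `o(el^2)` -/
lemma sum_little {f : ℕ → ℝ} (h : f =o[atTop] fun n => el n ^ 2) :
    (fun N => ∑ n ∈ range N, f n) =o[atTop] S2 :=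
  h.sum_range (fun n => (pow_pos (el_pos n) 2).le) S2_tendsto

/-- sums of `O(el^2)` -/
lemma sum_big {f : ℕ → ℝ} {C : ℝ} (h : ∀ n, |f n| ≤ C * el n ^ 2) :
    (fun N => ∑ n ∈ range N, f n) =O[atTop] S2 := by
  refine IsBigO.of_bound C (Eventually.of_forall fun N => ?_)
  rw [Real.norm_eq_abs, Real.norm_eq_abs, abs_of_nonneg (S2_nonneg N), S2, mul_sum]
  exact (abs_sum_le_sum_abs _ _).trans (sum_le_sum fun n _ => h n)

lemma el3_little : (fun n => el n ^ 3) =o[atTop] fun n => el n ^ 2 := by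
  rw [isLittleO_iff_tendsto (fun n h => absurd h (pow_pos (el_pos n) 2).ne')]
  refine el_tendsto.congr fun n => ?_
  have := el_pos n
  field_simp

/-- `S2 / S1 / el → 1` -/
lemma ratio : Tendsto (fun N => S2 N / S1 N / el N) atTop (𝓝 1) := by
  have h := S2_asymp.div S1_asymp one_ne_zero
  rw [div_one] at h
  refine h.congr' ?_
  filter_upwards [eventually_gt_atTop 0] with N hN
  have h1 := el_pos N
  have h2 : (0 : ℝ) < N := by exact_mod_cast hN
  have h3 := S1_pos hN
  simp only [Pi.div_apply]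
  field_simp

end Pool.Agent.Helper88.Bias
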