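import Mathlib

open Filter Finset
open scoped Topology

set_option linter.unusedSectionVars false

namespace Pool.Agent.Helper88.Twin

open Classical

/-- the nontrivial character mod 4 -/
noncomputable def chi (n : ℕ) : ℝ := if n % 4 = 1 then 1 else if n % 4 = 3 then -1 else 0

/-- class of the last chosen integer up to `n` (`0` if there is none) -/
noncomputable def st (S : ℕ → Prop) : ℕ → ℕ
  | 0 => 0
  | n + 1 => if S (n + 1) then (n + 1) % 4 else st S n

/-- the next chosen integer is in class `b` -/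
def NC (S : ℕ → Prop) (n b : ℕ) : Prop :=
  ∃ m, n < m ∧ S m ∧ (∀ k, n < k → k < m → ¬ S k) ∧ m % 4 = b

/-- increments -/
noncomputable def rS (S : ℕ → Prop) (n : ℕ) : ℝ := if S (n + 1) then 1 else 0

noncomputable def Hab (S : ℕ → Prop) (a b n : ℕ) : ℝ := if st S n = a ∧ (n + 1) % 4 = b then 1 else 0

noncomputable def Hb (b n : ℕ) : ℝ := if (n + 1) % 4 = b then 1 else 0

noncomputable def PP (S : ℕ → Prop) (a b N : ℕ) : ℝ :=
  ∑ n ∈ range N, if S (n + 1) ∧ (n + 1) % 4 = a ∧ NC S (n + 1) b then 1 else 0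

noncomputable def TT (S : ℕ → Prop) (a b N : ℕ) : ℝ := ∑ n ∈ range N, Hab S a b n * rS S n

noncomputable def pi (S : ℕ → Prop) (a N : ℕ) : ℝ := ∑ n ∈ range N, Hb a n * rS S n

noncomputable def ee (S : ℕ → Prop) (a b N : ℕ) : ℝ := if st S N = a ∧ NC S N b then 1 else 0

lemma NC_of {S : ℕ → Prop} {n b : ℕ} (h : S (n + 1)) : NC S n b ↔ (n + 1) % 4 = b := by
  constructor
  · rintro ⟨m, h1, h2, h3, h4⟩
    by_cases hm : m = n + 1
    · subst hm; exact h4
    · exact absurd h (h3 (n + 1) (by omega) (by omega))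
  · intro hb
    exact ⟨n + 1, by omega, h, fun k h1 h2 => by omega, hb⟩

lemma NC_of_not {S : ℕ → Prop} {n b : ℕ} (h : ¬ S (n + 1)) : NC S n b ↔ NC S (n + 1) b := by
  constructor
  · rintro ⟨m, h1, h2, h3, h4⟩
    have hm : m ≠ n + 1 := fun hm => h (hm ▸ h2)
    exact ⟨m, by omega, h2, fun k h5 h6 => h3 k (by omega) h6, h4⟩
  · rintro ⟨m, h1, h2, h3, h4⟩
    refine ⟨m, by omega, h2, fun k h5 h6 => ?_, h4⟩
    by_cases hk : k = n + 1
    · subst hk; exact h
    · exact h3 k (by omega) h6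

lemma PP_eq (S : ℕ → Prop) {a : ℕ} (b : ℕ) (ha : a ≠ 0) (N : ℕ) :
    PP S a b N = TT S a b N + ee S a b N := by
  induction N with
  | zero =>
    have : ee S a b 0 = 0 := by
      unfold ee
      rw [if_neg]
      rintro ⟨h, _⟩
      exact ha h.symm
    simp [PP, TT, this]
  | succ N ih =>
    have h1 : PP S a b (N + 1) = PP S a b N +
        if S (N + 1) ∧ (N + 1) % 4 = a ∧ NC S (N + 1) b then 1 else 0 := by
      unfold PP; rw [sum_range_succ]
    have h2 : TT S a b (N + 1) = TT S a b N + Hab S a b N * rS S N := by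
      unfold TT; rw [sum_range_succ]
    rw [h1, h2, ih]
    by_cases hS : S (N + 1)
    · have hst : st S (N + 1) = (N + 1) % 4 := by simp [st, hS]
      have h3 : ee S a b (N + 1) = if S (N + 1) ∧ (N + 1) % 4 = a ∧ NC S (N + 1) b then 1 else 0 := by
        unfold ee
        rw [hst]
        simp [hS]
      have h4 : ee S a b N = Hab S a b N * rS S N := by
        unfold ee Hab rS
        rw [if_pos hS, mul_one]
        simp only [NC_of hS]
      rw [h3, h4]
    · have hst : st S (N + 1) = st S N := by simp [st, hS]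
      have h3 : ee S a b (N + 1) = ee S a b N := by
        unfold ee
        rw [hst, NC_of_not hS]
      have h4 : rS S N = 0 := by unfold rS; rw [if_neg hS]
      rw [h3, h4, if_neg (fun h => hS h.1)]
      ring

lemma NC_exists {S : ℕ → Prop} (hS4 : ∀ n, S n → n % 4 = 1 ∨ n % 4 = 3)
    (hinf : ∀ n, ∃ m, n < m ∧ S m) (n : ℕ) :
    (NC S n 1 ∧ ¬ NC S n 3) ∨ (¬ NC S n 1 ∧ NC S n 3) := by
  have huniq : ∀ b b', NC S n b → NC S n b' → b = b' := by
    rintro b b' ⟨m, h1, h2, h3, h4⟩ ⟨m', h1', h2', h3', h4'⟩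
    rcases lt_trichotomy m m' with h | h | h
    · exact absurd h2 (h3' m h1 h)
    · subst h; rw [← h4, ← h4']
    · exact absurd h2' (h3 m' h1' h)
  obtain ⟨hm1, hm2⟩ := Nat.find_spec (hinf n)
  set m := Nat.find (hinf n) with hm
  have hmin : ∀ k, n < k → k < m → ¬ S k := by
    intro k h1 h2 h3
    exact Nat.find_min (hinf n) h2 ⟨h1, h3⟩
  rcases hS4 m hm2 with h | h
  · have hN : NC S n 1 := ⟨m, hm1, hm2, hmin, h⟩
    exact Or.inl ⟨hN, fun hcon => by have := huniq 1 3 hN hcon; omega⟩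
  · have hN : NC S n 3 := ⟨m, hm1, hm2, hmin, h⟩
    exact Or.inr ⟨fun hcon => by have := huniq 1 3 hcon hN; omega, hN⟩

lemma PP_sum {S : ℕ → Prop} (hS4 : ∀ n, S n → n % 4 = 1 ∨ n % 4 = 3)
    (hinf : ∀ n, ∃ m, n < m ∧ S m) (a N : ℕ) : PP S a 1 N + PP S a 3 N = pi S a N := by
  unfold PP pi
  rw [← sum_add_distrib]
  refine sum_congr rfl fun n _ => ?_
  unfold Hb rS
  by_cases h1 : S (n + 1)
  · by_cases h2 : (n + 1) % 4 = a
    · rcases NC_exists hS4 hinf (n + 1) with ⟨h3, h4⟩ | ⟨h3, h4⟩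
      · simp [h1, h2, h3, h4]
      · simp [h1, h2, h3, h4]
    · simp [h2]
  · simp [h1]

variable {S : ℕ → Prop} {lam : ℕ → ℝ}

/-- summation by parts -/
lemma parts (s x : ℕ → ℝ) (j : ℕ) : ∑ i ∈ range j, s i * x i =
    s j * (∑ i ∈ range j, x i) - ∑ i ∈ range j, (s (i + 1) - s i) * ∑ k ∈ range (i + 1), x k := by
  induction j with
  | zero => simp
  | succ j ih =>
    rw [sum_range_succ, sum_range_succ _ j, sum_range_succ _ j, ih, sum_range_succ _ j]
    ring

lemma st_change (a M i : ℕ) :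
    |((if st S (M + (i + 1)) = a then 1 else 0) - (if st S (M + i) = a then 1 else 0) : ℝ)| ≤
      rS S (M + i) := by
  unfold rS
  by_cases h : S (M + i + 1)
  · rw [if_pos h]
    split_ifs <;> norm_num
  · rw [if_neg h]
    have : st S (M + (i + 1)) = st S (M + i) := by
      change st S (M + i + 1) = _
      simp [st, h]
    rw [this]; simp

lemma rS_nonneg (n : ℕ) : 0 ≤ rS S n := by unfold rS; split_ifs <;> norm_num

/-- The alternating sum restricted to a state. -/
lemma E_bound (a : ℕ) {ε : ℝ} {M : ℕ}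
    (hM : ∀ k, |∑ i ∈ range k, chi (M + i + 1) * lam (M + i)| ≤ ε) (j : ℕ) :
    |∑ i ∈ range j, (if st S (M + i) = a then 1 else 0) * (chi (M + i + 1) * lam (M + i))| ≤
      ε * (1 + ∑ i ∈ range j, rS S (M + i)) := by
  have hε : 0 ≤ ε := (abs_nonneg _).trans (hM 0)
  rw [parts (fun i => if st S (M + i) = a then (1 : ℝ) else 0)
    (fun i => chi (M + i + 1) * lam (M + i)) j]
  refine (abs_sub _ _).trans ?_
  have h1 : |(if st S (M + j) = a then (1 : ℝ) else 0) *
      ∑ i ∈ range j, chi (M + i + 1) * lam (M + i)| ≤ ε := by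
    rw [abs_mul]
    have h2 : |(if st S (M + j) = a then (1 : ℝ) else 0)| ≤ 1 := by split_ifs <;> simp
    calc _ ≤ 1 * ε := mul_le_mul h2 (hM j) (abs_nonneg _) (by norm_num)
      _ = ε := one_mul _
  have h3 : |∑ i ∈ range j, ((if st S (M + (i + 1)) = a then (1 : ℝ) else 0) -
      (if st S (M + i) = a then 1 else 0)) * ∑ k ∈ range (i + 1), chi (M + k + 1) * lam (M + k)| ≤
      ∑ i ∈ range j, rS S (M + i) * ε := by
    refine (abs_sum_le_sum_abs _ _).trans (sum_le_sum fun i _ => ?_)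
    rw [abs_mul]
    exact mul_le_mul (st_change a M i) (hM (i + 1)) (abs_nonneg _) (rS_nonneg _)
  rw [← sum_mul] at h3
  calc _ ≤ ε + (∑ i ∈ range j, rS S (M + i)) * ε := add_le_add h1 h3
    _ = _ := by ring

/-- Deterministic core. -/
theorem det (hS4 : ∀ n, S n → n % 4 = 1 ∨ n % 4 = 3)
    (hl0 : ∀ n, 0 ≤ lam n) (hl1 : ∀ n, lam n ≤ 1)
    (hodd : ∀ n, ¬ ((n + 1) % 4 = 1 ∨ (n + 1) % 4 = 3) → lam n = 0)
    (hdiv : Tendsto (fun N => ∑ n ∈ range N, lam n) atTop atTop)
    (hdisc : ∀ ε : ℝ, 0 < ε → ∃ M, ∀ m, M ≤ m → ∀ k,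
      |∑ i ∈ range k, chi (m + i + 1) * lam (m + i)| ≤ ε)
    (hT : ∀ a b, Tendsto (fun N => (∑ n ∈ range N, Hab S a b n * (rS S n - lam n)) /
      (1 + ∑ n ∈ range (N + 1), lam n)) atTop (𝓝 0))
    (hP : ∀ b, Tendsto (fun N => (∑ n ∈ range N, Hb b n * (rS S n - lam n)) /
      (1 + ∑ n ∈ range (N + 1), lam n)) atTop (𝓝 0))
    {a b : ℕ} (ha : a = 1 ∨ a = 3) (hb : b = 1 ∨ b = 3) :
    Tendsto (fun N => PP S a b N / pi S a N) atTop (𝓝 (1 / 2)) := by
  set B : ℕ → ℝ := fun N => 1 + ∑ n ∈ range (N + 1), lam n with hB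
  have hBdiv : Tendsto B atTop atTop :=
    tendsto_atTop_add_const_left _ _ (hdiv.comp (tendsto_add_atTop_nat 1))
  have hBpos : ∀ N, 0 < B N := by
    intro N
    have : 0 ≤ ∑ n ∈ range (N + 1), lam n := sum_nonneg fun i _ => hl0 i
    simp only [hB]; linarith
  have hbdd : ∀ {f : ℕ → ℝ} {C : ℝ}, (∀ N, |f N| ≤ C) → Tendsto (fun N => f N / B N) atTop (𝓝 0) := by
    intro f C hf
    have h1 : Tendsto (fun N => C / B N) atTop (𝓝 0) := hBdiv.const_div_atTop _
    refine squeeze_zero_norm (fun N => ?_) h1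
    rw [Real.norm_eq_abs, abs_div, abs_of_pos (hBpos N)]
    have := hBpos N
    gcongr
    exact hf N
  -- Λ / B → 1
  have hΛ : Tendsto (fun N => (∑ n ∈ range N, lam n) / B N) atTop (𝓝 1) := by
    have h1 : ∀ N, (∑ n ∈ range N, lam n) / B N = 1 - (1 + lam N) / B N := by
      intro N
      have := (hBpos N).ne'
      have h2 : ∑ n ∈ range N, lam n = B N - (1 + lam N) := by
        simp only [hB]; rw [sum_range_succ]; ring
      rw [h2]; field_simp
    simp_rw [h1]
    have h2 : Tendsto (fun N => (1 + lam N) / B N) atTop (𝓝 0) := by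
      refine hbdd (C := 2) fun N => ?_
      rw [abs_of_nonneg (by linarith [hl0 N])]
      linarith [hl1 N]
    simpa using h2.const_sub 1
  -- the alternating sum is bounded
  obtain ⟨M1, hM1⟩ := hdisc 1 one_pos
  have hchi1 : ∀ n, |chi n| ≤ 1 := by
    intro n; unfold chi; split_ifs <;> simp
  have hterm : ∀ n, |chi (n + 1) * lam n| ≤ 1 := by
    intro n
    rw [abs_mul, abs_of_nonneg (hl0 n)]
    have := hchi1 (n + 1)
    have := hl0 n
    have := hl1 n
    nlinarith [abs_nonneg (chi (n + 1))]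
  have haltb : ∀ N, |∑ n ∈ range N, chi (n + 1) * lam n| ≤ M1 + 1 := by
    intro N
    rcases le_total N M1 with h | h
    · calc _ ≤ ∑ n ∈ range N, |chi (n + 1) * lam n| := abs_sum_le_sum_abs _ _
        _ ≤ ∑ n ∈ range N, (1 : ℝ) := sum_le_sum fun n _ => hterm n
        _ = N := by simp
        _ ≤ M1 + 1 := by
          have : (N : ℝ) ≤ M1 := by exact_mod_cast h
          linarith
    · obtain ⟨k, rfl⟩ : ∃ k, N = M1 + k := ⟨N - M1, by omega⟩
      rw [sum_range_add]
      calc _ ≤ |∑ n ∈ range M1, chi (n + 1) * lam n| +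
            |∑ i ∈ range k, chi (M1 + i + 1) * lam (M1 + i)| := abs_add_le _ _
        _ ≤ M1 + 1 := by
          refine add_le_add ?_ (hM1 M1 le_rfl k)
          calc _ ≤ ∑ n ∈ range M1, |chi (n + 1) * lam n| := abs_sum_le_sum_abs _ _
            _ ≤ ∑ n ∈ range M1, (1 : ℝ) := sum_le_sum fun n _ => hterm n
            _ = M1 := by simp
  have halt : Tendsto (fun N => (∑ n ∈ range N, chi (n + 1) * lam n) / B N) atTop (𝓝 0) :=
    hbdd haltb
  -- L_a / B → 1/2
  have hL13 : ∀ N, ∑ n ∈ range N, Hb 1 n * lam n + ∑ n ∈ range N, Hb 3 n * lam n =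
      ∑ n ∈ range N, lam n := by
    intro N
    rw [← sum_add_distrib]
    refine sum_congr rfl fun n _ => ?_
    unfold Hb
    by_cases h1 : (n + 1) % 4 = 1
    · simp [h1]
    · by_cases h3 : (n + 1) % 4 = 3
      · simp [h3]
      · rw [hodd n (by tauto)]; simp
  have hL13' : ∀ N, ∑ n ∈ range N, Hb 1 n * lam n - ∑ n ∈ range N, Hb 3 n * lam n =
      ∑ n ∈ range N, chi (n + 1) * lam n := by
    intro N
    rw [← sum_sub_distrib]
    refine sum_congr rfl fun n _ => ?_
    unfold Hb chi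
    by_cases h1 : (n + 1) % 4 = 1
    · simp [h1]
    · by_cases h3 : (n + 1) % 4 = 3
      · simp [h3]
      · simp [h1, h3]
  have hL : ∀ c, c = 1 ∨ c = 3 → Tendsto (fun N => (∑ n ∈ range N, Hb c n * lam n) / B N) atTop
      (𝓝 (1 / 2)) := by
    intro c hc
    rcases hc with rfl | rfl
    · have h1 := (hΛ.add halt).div_const 2
      simp only [add_zero] at h1
      refine h1.congr fun N => ?_
      have e1 := hL13 N
      have e2 := hL13' N
      rw [← add_div, div_div, mul_comm, ← div_div]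
      congr 1
      linarith
    · have h1 := (hΛ.sub halt).div_const 2
      simp only [sub_zero] at h1
      refine h1.congr fun N => ?_
      have e1 := hL13 N
      have e2 := hL13' N
      rw [← sub_div, div_div, mul_comm, ← div_div]
      congr 1
      linarith
  have hpi : ∀ c, c = 1 ∨ c = 3 → Tendsto (fun N => pi S c N / B N) atTop (𝓝 (1 / 2)) := by
    intro c hc
    have h1 := (hP c).add (hL c hc)
    rw [zero_add] at h1
    refine h1.congr fun N => ?_
    rw [← add_div]
    congr 1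
    unfold pi
    rw [← sum_add_distrib]
    refine sum_congr rfl fun n _ => ?_
    ring
  -- number of elements
  have hrS : ∀ N, ∑ n ∈ range N, rS S n = pi S 1 N + pi S 3 N := by
    intro N
    unfold pi
    rw [← sum_add_distrib]
    refine sum_congr rfl fun n _ => ?_
    unfold Hb rS
    by_cases h : S (n + 1)
    · rcases hS4 _ h with h1 | h3
      · simp [h, h1]
      · simp [h, h3]
    · simp [h]
  have hK : Tendsto (fun N => (∑ n ∈ range N, rS S n) / B N) atTop (𝓝 1) := by
    have h1 := (hpi 1 (Or.inl rfl)).add (hpi 3 (Or.inr rfl))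
    rw [show (1 / 2 + 1 / 2 : ℝ) = 1 by norm_num] at h1
    refine h1.congr fun N => ?_
    rw [hrS, add_div]
  have hKinf : Tendsto (fun N => ∑ n ∈ range N, rS S n) atTop atTop := by
    have h1 := hK.pos_mul_atTop one_pos hBdiv
    refine h1.congr fun N => ?_
    have := (hBpos N).ne'
    field_simp
  have hinf : ∀ n, ∃ m, n < m ∧ S m := by
    intro n
    by_contra hcon
    push Not at hcon
    obtain ⟨N, hN1, hN2⟩ := (hKinf.eventually_gt_atTop (n : ℝ)).and (eventually_ge_atTop n) |>.exists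
    obtain ⟨k, rfl⟩ : ∃ k, N = n + k := ⟨N - n, by omega⟩
    rw [sum_range_add] at hN1
    have h1 : ∑ i ∈ range k, rS S (n + i) = 0 := by
      refine sum_eq_zero fun i _ => ?_
      unfold rS
      rw [if_neg (hcon _ (by omega))]
    have h2 : ∑ i ∈ range n, rS S i ≤ n := by
      calc _ ≤ ∑ i ∈ range n, (1 : ℝ) := sum_le_sum fun i _ => by unfold rS; split_ifs <;> norm_num
        _ = n := by simp
    linarith
  -- E_a / B → 0
  have hE : ∀ a, Tendsto (fun N => (∑ n ∈ range N, (if st S n = a then (1 : ℝ) else 0) *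
      (chi (n + 1) * lam n)) / B N) atTop (𝓝 0) := by
    intro a
    rw [Metric.tendsto_atTop]
    intro ε hε
    obtain ⟨M, hM⟩ := hdisc (ε / 8) (by positivity)
    have h1 : ∀ᶠ N in atTop, (∑ n ∈ range N, rS S n) / B N < 2 :=
      hK.eventually_lt_const (by norm_num)
    have h2 : ∀ᶠ N in atTop, ((M : ℝ) + ε) / B N < ε / 2 :=
      (hBdiv.const_div_atTop _).eventually_lt_const (by positivity)
    obtain ⟨N0, hN0⟩ := eventually_atTop.mp (h1.and h2)
    refine ⟨max N0 M, fun N hN => ?_⟩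
    obtain ⟨h3, h4⟩ := hN0 N ((le_max_left _ _).trans hN)
    have hNM : M ≤ N := (le_max_right _ _).trans hN
    obtain ⟨k, rfl⟩ : ∃ k, N = M + k := ⟨N - M, by omega⟩
    have hb := E_bound (S := S) (lam := lam) a (hM M le_rfl) k
    have hfirst : |∑ n ∈ range M, (if st S n = a then (1 : ℝ) else 0) * (chi (n + 1) * lam n)| ≤ M := by
      calc _ ≤ ∑ n ∈ range M, |(if st S n = a then (1 : ℝ) else 0) * (chi (n + 1) * lam n)| :=
            abs_sum_le_sum_abs _ _
        _ ≤ ∑ n ∈ range M, (1 : ℝ) := by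
            refine sum_le_sum fun n _ => ?_
            rw [abs_mul]
            have h5 : |(if st S n = a then (1 : ℝ) else 0)| ≤ 1 := by split_ifs <;> simp
            calc _ ≤ 1 * 1 := mul_le_mul h5 (hterm n) (abs_nonneg _) (by norm_num)
              _ = 1 := one_mul _
        _ = M := by simp
    have hsumk : ∑ i ∈ range k, rS S (M + i) ≤ ∑ n ∈ range (M + k), rS S n := by
      rw [sum_range_add]
      have : 0 ≤ ∑ n ∈ range M, rS S n := sum_nonneg fun i _ => rS_nonneg i
      linarith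
    rw [dist_zero_right, Real.norm_eq_abs, abs_div, abs_of_pos (hBpos _), sum_range_add,
      div_lt_iff₀ (hBpos _)]
    rw [div_lt_iff₀ (hBpos _)] at h3 h4
    have h5 := hBpos (M + k)
    calc _ ≤ |∑ n ∈ range M, (if st S n = a then (1 : ℝ) else 0) * (chi (n + 1) * lam n)| +
          |∑ i ∈ range k, (if st S (M + i) = a then 1 else 0) *
            (chi (M + i + 1) * lam (M + i))| := abs_add_le _ _
      _ ≤ M + ε / 8 * (1 + ∑ i ∈ range k, rS S (M + i)) := add_le_add hfirst hb
      _ ≤ M + ε / 8 * (1 + ∑ n ∈ range (M + k), rS S n) := by gcongr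
      _ < ε * B (M + k) := by nlinarith
  -- T_{a1} - T_{a3} = o(B)
  have hTdiff : Tendsto (fun N => (TT S a 1 N - TT S a 3 N) / B N) atTop (𝓝 0) := by
    have h1 := ((hT a 1).sub (hT a 3)).add (hE a)
    rw [sub_zero, add_zero] at h1
    refine h1.congr fun N => ?_
    rw [← sub_div, ← add_div]
    congr 1
    unfold TT
    rw [← sum_sub_distrib, ← sum_add_distrib, ← sum_sub_distrib]
    refine sum_congr rfl fun n _ => ?_
    have h2 : Hab S a 1 n - Hab S a 3 n = (if st S n = a then (1 : ℝ) else 0) * chi (n + 1) := by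
      unfold Hab chi
      by_cases h3 : st S n = a
      · by_cases h4 : (n + 1) % 4 = 1
        · simp [h3, h4]
        · by_cases h5 : (n + 1) % 4 = 3
          · simp [h3, h5]
          · simp [h3, h4, h5]
      · simp [h3]
    linear_combination (lam n) * (-1) * h2
  have ha0 : a ≠ 0 := by rcases ha with rfl | rfl <;> norm_num
  have hPdiff : Tendsto (fun N => (PP S a 1 N - PP S a 3 N) / B N) atTop (𝓝 0) := by
    have h1 : Tendsto (fun N => (ee S a 1 N - ee S a 3 N) / B N) atTop (𝓝 0) := by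
      refine hbdd (C := 1) fun N => ?_
      unfold ee
      split_ifs <;> simp
    have h2 := hTdiff.add h1
    rw [add_zero] at h2
    refine h2.congr fun N => ?_
    rw [← add_div, PP_eq S 1 ha0, PP_eq S 3 ha0]
    congr 1
    ring
  have hPB : Tendsto (fun N => PP S a b N / B N) atTop (𝓝 (1 / 4)) := by
    rcases hb with rfl | rfl
    · have h1 := ((hpi a ha).add hPdiff).div_const 2
      rw [show ((1 / 2 + 0) / 2 : ℝ) = 1 / 4 by norm_num] at h1
      refine h1.congr fun N => ?_
      rw [← PP_sum hS4 hinf a N, ← add_div]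
      ring
    · have h1 := ((hpi a ha).sub hPdiff).div_const 2
      rw [show ((1 / 2 - 0) / 2 : ℝ) = 1 / 4 by norm_num] at h1
      refine h1.congr fun N => ?_
      rw [← PP_sum hS4 hinf a N, ← sub_div]
      ring
  have hfin := hPB.div (hpi a ha) (by norm_num)
  rw [show ((1 / 4) / (1 / 2) : ℝ) = 1 / 2 by norm_num] at hfin
  refine hfin.congr fun N => ?_
  have := (hBpos N).ne'
  simp only [Pi.div_apply]
  rw [div_div_div_cancel_right₀ this]

end Pool.Agent.Helper88.Twin
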