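import Mathlib
import Pool.Agent.Helper88.BiasAn
import Pool.Agent.Helper88.TwinDet

open Filter Finset Asymptotics
open scoped Topology

namespace Pool.Agent.Helper88.Bias

open Pool.Agent.Helper88.Twin

/-! ### Periodic sequences -/

lemma per_bdd {z : ℕ → ℝ} {T : ℕ} (hT : 0 < T) (hz : ∀ n, z (n + T) = z n)
    (h0 : ∑ n ∈ range T, z n = 0) (N : ℕ) :
    |∑ n ∈ range N, z n| ≤ ∑ n ∈ range T, |z n| := by
  induction N using Nat.strong_induction_on with
  | _ N ih =>
    rcases Nat.lt_or_ge N T with h | h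
    · refine (abs_sum_le_sum_abs _ _).trans ?_
      exact sum_le_sum_of_subset_of_nonneg (range_mono h.le) fun _ _ _ => abs_nonneg _
    · obtain ⟨M, rfl⟩ : ∃ M, N = T + M := ⟨N - T, by omega⟩
      rw [sum_range_add, h0, zero_add]
      have h1 : ∑ i ∈ range M, z (T + i) = ∑ i ∈ range M, z i :=
        sum_congr rfl fun i _ => by rw [add_comm, hz]
      rw [h1]
      exact ih M (by omega)

lemma per_shift {f : ℕ → ℝ} {T : ℕ} (hf : f T = f 0) :
    ∑ n ∈ range T, f (n + 1) = ∑ n ∈ range T, f n := by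
  have h1 := sum_range_succ' f T
  have h2 := sum_range_succ f T
  rw [h1, hf] at h2
  linarith

/-- the state sum lemma -/
lemma state_sum {s r c z : ℕ → ℝ} (hs : ∀ n, |s n| ≤ 1) (hr : ∀ n, |s (n + 1) - s n| ≤ r n)
    (hc : ∀ n, 0 ≤ c n) (hanti : ∀ n, c (n + 1) ≤ c n) {C : ℝ}
    (hZ : ∀ N, |∑ n ∈ range N, z n| ≤ C) (N : ℕ) :
    |∑ n ∈ range N, s n * z n * c n| ≤ C * (c 0 + ∑ n ∈ range N, r n * c n) := by
  have hC : 0 ≤ C := (abs_nonneg _).trans (hZ 0)
  have h0 : ∑ n ∈ range N, s n * z n * c n = ∑ n ∈ range N, (s n * c n) * z n :=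
    sum_congr rfl fun n _ => by ring
  rw [h0, parts (fun n => s n * c n) z N]
  refine (abs_sub _ _).trans ?_
  have h1 : |s N * c N * ∑ i ∈ range N, z i| ≤ c N * C := by
    rw [abs_mul, abs_mul, abs_of_nonneg (hc N)]
    refine mul_le_mul ?_ (hZ N) (abs_nonneg _) (hc N)
    have := hs N
    have := hc N
    nlinarith [abs_nonneg (s N)]
  have h2 : |∑ i ∈ range N, (s (i + 1) * c (i + 1) - s i * c i) * ∑ k ∈ range (i + 1), z k| ≤
      ∑ i ∈ range N, (r i * c i + (c i - c (i + 1))) * C := by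
    refine (abs_sum_le_sum_abs _ _).trans (sum_le_sum fun i _ => ?_)
    rw [abs_mul]
    have h3 : |s (i + 1) * c (i + 1) - s i * c i| ≤ r i * c i + (c i - c (i + 1)) := by
      have e : s (i + 1) * c (i + 1) - s i * c i =
          (s (i + 1) - s i) * c i + s (i + 1) * (c (i + 1) - c i) := by ring
      rw [e]
      refine (abs_add_le _ _).trans (add_le_add ?_ ?_)
      · rw [abs_mul, abs_of_nonneg (hc i)]
        exact mul_le_mul_of_nonneg_right (hr i) (hc i)
      · rw [abs_mul, abs_of_nonpos (show c (i + 1) - c i ≤ 0 by linarith [hanti i])]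
        have := hs (i + 1)
        have := hanti i
        nlinarith [abs_nonneg (s (i + 1))]
    refine mul_le_mul h3 (hZ _) (abs_nonneg _) ?_
    exact (abs_nonneg _).trans h3
  have h4 : ∑ i ∈ range N, (r i * c i + (c i - c (i + 1))) * C =
      (∑ i ∈ range N, r i * c i + (c 0 - c N)) * C := by
    rw [← sum_mul, sum_add_distrib, sum_range_sub']
  calc _ ≤ c N * C + (∑ i ∈ range N, r i * c i + (c 0 - c N)) * C := by
        refine add_le_add h1 (h2.trans h4.le)
    _ = _ := by ring

/-- periodic weights can be replaced by their means -/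
lemma per_sum {c z : ℕ → ℝ} (hc : ∀ n, 0 ≤ c n) (hanti : ∀ n, c (n + 1) ≤ c n) {C : ℝ}
    (hZ : ∀ N, |∑ n ∈ range N, z n| ≤ C) (N : ℕ) :
    |∑ n ∈ range N, z n * c n| ≤ C * c 0 := by
  have h := state_sum (s := fun _ => 1) (r := fun _ => 0) (c := c) (z := z) (by simp) (by simp)
    hc hanti hZ N
  simpa using h

/-! ### The data -/

/-- state indicator -/
noncomputable def sa (S : ℕ → Prop) (a n : ℕ) : ℝ := if st S n = a then 1 else 0

noncomputable def BB (v : ℕ → ℝ) (n : ℕ) : ℝ := ∑ k ∈ range n, chi (k + 1) * v (k + 1)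

noncomputable def UU (v : ℕ → ℝ) (q n : ℕ) : ℝ := BB v n - (∑ k ∈ range (4 * q), BB v k) / (4 * q)

noncomputable def gg (v : ℕ → ℝ) (q n : ℕ) : ℝ := UU v q n * el n

structure VDat (v : ℕ → ℝ) (q : ℕ) : Prop where
  hq : 0 < q
  hper : ∀ n, v (n + 4 * q) = v n
  hv0 : ∀ n, 0 ≤ v n
  heven : ∀ n, n % 2 = 0 → v n = 0
  hbal : ∑ n ∈ range (4 * q), chi n * v n = 0
  hpos : 0 < ∑ n ∈ range (4 * q), v n

lemma chi_per (q n : ℕ) : chi (n + 4 * q) = chi n := by
  unfold chi
  rw [show (n + 4 * q) % 4 = n % 4 by omega]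

lemma chi_abs (n : ℕ) : |chi n| ≤ 1 := by
  unfold chi; split_ifs <;> simp

variable {v : ℕ → ℝ} {q : ℕ}

lemma VDat.bound (h : VDat v q) : ∃ C, 0 < C ∧ ∀ n, v n ≤ C := by
  refine ⟨∑ n ∈ range (4 * q), v n, h.hpos, fun n => ?_⟩
  induction n using Nat.strong_induction_on with
  | _ n ih =>
    rcases Nat.lt_or_ge n (4 * q) with h1 | h1
    · exact single_le_sum (f := v) (fun i _ => h.hv0 i) (mem_range.mpr h1)
    · obtain ⟨m, rfl⟩ : ∃ m, n = m + 4 * q := ⟨n - 4 * q, by omega⟩
      rw [h.hper]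
      exact ih m (by have := h.hq; omega)

lemma VDat.bal' (h : VDat v q) : ∑ n ∈ range (4 * q), chi (n + 1) * v (n + 1) = 0 := by
  rw [per_shift (f := fun n => chi n * v n), h.hbal]
  have h1 := h.hper 0
  have h2 := chi_per q 0
  rw [zero_add] at h1 h2
  simp only [h1, h2]

lemma VDat.BB_per (h : VDat v q) (n : ℕ) : BB v (n + 4 * q) = BB v n := by
  unfold BB
  rw [add_comm n, sum_range_add, h.bal', zero_add]
  refine sum_congr rfl fun i _ => ?_
  rw [show 4 * q + i + 1 = (i + 1) + 4 * q by ring, h.hper, chi_per]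

lemma VDat.UU_per (h : VDat v q) (n : ℕ) : UU v q (n + 4 * q) = UU v q n := by
  unfold UU
  rw [h.BB_per]

lemma VDat.BB_bdd (h : VDat v q) : ∃ C, ∀ n, |BB v n| ≤ C := by
  refine ⟨_, fun n => per_bdd (T := 4 * q) (by have := h.hq; omega) (fun n => ?_) h.bal' n⟩
  rw [show n + 4 * q + 1 = (n + 1) + 4 * q by ring, h.hper, chi_per]

lemma VDat.UU_bdd (h : VDat v q) : ∃ C, 0 < C ∧ ∀ n, |UU v q n| ≤ C := by
  obtain ⟨C, hC⟩ := h.BB_bdd
  refine ⟨|C| + |(∑ k ∈ range (4 * q), BB v k) / (4 * q)| + 1, by positivity, fun n => ?_⟩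
  unfold UU
  refine (abs_sub _ _).trans ?_
  have := hC n
  have := le_abs_self C
  linarith

lemma UU_succ (n : ℕ) : UU v q (n + 1) - UU v q n = chi (n + 1) * v (n + 1) := by
  unfold UU BB
  rw [sum_range_succ]
  ring

lemma sa_abs (S : ℕ → Prop) (a n : ℕ) : |sa S a n| ≤ 1 := by
  unfold sa; split_ifs <;> simp

lemma sa_half (S : ℕ → Prop) (a n : ℕ) : |sa S a n - 1 / 2| ≤ 1 := by
  unfold sa; split_ifs <;> norm_num [abs_le]

lemma sa_succ (S : ℕ → Prop) (a n : ℕ) :
    sa S a (n + 1) - sa S a n = rS S n * (Hb a n - sa S a n) := by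
  unfold sa rS Hb
  by_cases h : S (n + 1)
  · simp [st, h]
  · simp [st, h]

lemma sa_change (S : ℕ → Prop) (a n : ℕ) :
    |(sa S a (n + 1) - 1 / 2) - (sa S a n - 1 / 2)| ≤ rS S n := by
  rw [sub_sub_sub_cancel_right, sa_succ]
  have h1 := rS_nonneg (S := S) n
  rw [abs_mul, abs_of_nonneg h1]
  have h2 : |Hb a n - sa S a n| ≤ 1 := by
    unfold Hb sa; split_ifs <;> norm_num
  nlinarith [abs_nonneg (Hb a n - sa S a n)]

/-- `(h - 1/2) v = χ(a) χ(n+1) v / 2` -/
lemma VDat.h_half (h : VDat v q) {a : ℕ} (ha : a = 1 ∨ a = 3) (n : ℕ) :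
    (Hb a n - 1 / 2) * v (n + 1) = chi a / 2 * (chi (n + 1) * v (n + 1)) := by
  by_cases h2 : (n + 1) % 2 = 0
  · rw [h.heven _ h2]; ring
  · have h3 : (n + 1) % 4 = 1 ∨ (n + 1) % 4 = 3 := by omega
    unfold Hb chi
    rcases ha with rfl | rfl <;> rcases h3 with h3 | h3 <;> simp only [h3] <;> norm_num

lemma VDat.chi_sq (h : VDat v q) (n : ℕ) : (chi n * v n) ^ 2 = v n ^ 2 := by
  by_cases h2 : n % 2 = 0
  · rw [h.heven _ h2]; ring
  · have h3 : n % 4 = 1 ∨ n % 4 = 3 := by omega
    unfold chi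
    rcases h3 with h3 | h3 <;> simp [h3]

structure Dat (S : ℕ → Prop) (v : ℕ → ℝ) (q : ℕ) : Prop extends VDat v q where
  hS : ∀ n, S n → n % 4 = 1 ∨ n % 4 = 3
  m1 : ∀ a b, (fun N => ∑ n ∈ range N, Hab S a b n * (rS S n - v (n + 1) * el n)) =o[atTop] S2
  m2 : ∀ b, (fun N => ∑ n ∈ range N, Hb b n * (rS S n - v (n + 1) * el n)) =o[atTop] S2
  m3 : ∀ a, (fun N => ∑ n ∈ range N, ((Hb a n - sa S a n) * gg v q (n + 1)) *
    (rS S n - v (n + 1) * el n)) =o[atTop] S2
  m4 : (fun N => ∑ n ∈ range N, el n * (rS S n - v (n + 1) * el n)) =o[atTop] S2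
  m5 : (fun N => ∑ n ∈ range N, el n ^ 2 * (rS S n - v (n + 1) * el n)) =o[atTop] S2
  m6 : ∀ a, (fun N => ∑ n ∈ range N, (Hb a n - sa S a n) *
    (rS S n - v (n + 1) * el n)) =o[atTop] S2

variable {S : ℕ → Prop}

lemma el_abs (n : ℕ) : |el n| = el n := abs_of_pos (el_pos n)

lemma Dat.rel (h : Dat S v q) : (fun N => ∑ n ∈ range N, rS S n * el n) =O[atTop] S2 := by
  obtain ⟨C, hC0, hC⟩ := h.toVDat.bound
  have h1 : (fun N => ∑ n ∈ range N, v (n + 1) * el n ^ 2) =O[atTop] S2 := by
    refine sum_big (C := C) fun n => ?_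
    have := el_pos n
    rw [abs_mul, abs_of_nonneg (h.hv0 _), abs_of_nonneg (by positivity)]
    exact mul_le_mul_of_nonneg_right (hC _) (by positivity)
  refine (h.m4.isBigO.add h1).congr_left fun N => ?_
  rw [← sum_add_distrib]
  exact sum_congr rfl fun n _ => by ring

lemma Dat.rel2 (h : Dat S v q) : (fun N => ∑ n ∈ range N, rS S n * el n ^ 2) =o[atTop] S2 := by
  obtain ⟨C, hC0, hC⟩ := h.toVDat.bound
  have h1 : (fun N => ∑ n ∈ range N, v (n + 1) * el n ^ 3) =o[atTop] S2 := by
    refine sum_little ?_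
    have h2 : (fun n => v (n + 1)) =O[atTop] (fun _ => (1 : ℝ)) := by
      refine IsBigO.of_bound C (Eventually.of_forall fun n => ?_)
      rw [Real.norm_eq_abs, abs_of_nonneg (h.hv0 _)]
      simpa using hC _
    refine (h2.mul_isLittleO el3_little).congr_right fun n => ?_
    ring
  refine (h.m5.add h1).congr_left fun N => ?_
  rw [← sum_add_distrib]
  exact sum_congr rfl fun n _ => by ring

/-- mean of `v` -/
noncomputable def vbar (v : ℕ → ℝ) (q : ℕ) : ℝ := (∑ n ∈ range (4 * q), v n) / (4 * q)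

lemma mean_zero {f : ℕ → ℝ} {T : ℕ} (hT : 0 < T) :
    ∑ n ∈ range T, (f n - (∑ k ∈ range T, f k) / T) = 0 := by
  have : (T : ℝ) ≠ 0 := by positivity
  rw [sum_sub_distrib, sum_const, card_range, nsmul_eq_mul]
  field_simp
  ring

/-- a periodic sequence minus its mean has bounded partial sums -/
lemma per_mean {f : ℕ → ℝ} {T : ℕ} (hT : 0 < T) (hf : ∀ n, f (n + T) = f n) :
    ∃ C, 0 < C ∧ ∀ N, |∑ n ∈ range N, (f n - (∑ k ∈ range T, f k) / T)| ≤ C := by
  refine ⟨∑ n ∈ range T, |f n - (∑ k ∈ range T, f k) / T| + 1, ?_, fun N => ?_⟩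
  · have : 0 ≤ ∑ n ∈ range T, |f n - (∑ k ∈ range T, f k) / T| :=
      sum_nonneg fun _ _ => abs_nonneg _
    linarith
  · have := per_bdd (z := fun n => f n - (∑ k ∈ range T, f k) / T) hT (fun n => by rw [hf])
      (mean_zero hT) N
    linarith

/-- state sums with periodic zero-mean weights -/
lemma Dat.state_per (h : Dat S v q) (a : ℕ) {f : ℕ → ℝ} (hf : ∀ n, f (n + 4 * q) = f n) :
    (fun N => ∑ n ∈ range N, (sa S a n - 1 / 2) *
      (f n - (∑ k ∈ range (4 * q), f k) / (4 * q)) * el n) =O[atTop] S2 := by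
  obtain ⟨C, hC0, hC⟩ := per_mean (T := 4 * q) (by have := h.hq; omega) hf
  push_cast at hC
  have h1 : (fun N => C * (el 0 + ∑ n ∈ range N, rS S n * el n)) =O[atTop] S2 :=
    ((bdd_little (f := fun _ => el 0) (C := |el 0|) (fun _ => le_rfl)).isBigO.add h.rel).const_mul_left C
  refine IsBigO.trans (IsBigO.of_bound 1 (Eventually.of_forall fun N => ?_)) h1
  rw [one_mul, Real.norm_eq_abs, Real.norm_eq_abs]
  exact (state_sum (sa_half S a) (sa_change S a) (fun n => (el_pos n).le) el_succ_le hC N).trans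
    (le_abs_self _)

lemma Dat.state_per2 (h : Dat S v q) (a : ℕ) {f : ℕ → ℝ} (hf : ∀ n, f (n + 4 * q) = f n) :
    (fun N => ∑ n ∈ range N, (sa S a n - 1 / 2) *
      (f n - (∑ k ∈ range (4 * q), f k) / (4 * q)) * el n ^ 2) =o[atTop] S2 := by
  obtain ⟨C, hC0, hC⟩ := per_mean (T := 4 * q) (by have := h.hq; omega) hf
  push_cast at hC
  have h1 : (fun N => C * (el 0 ^ 2 + ∑ n ∈ range N, rS S n * el n ^ 2)) =o[atTop] S2 :=
    ((bdd_little (f := fun _ => el 0 ^ 2) (C := |el 0 ^ 2|) (fun _ => le_rfl)).add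
      h.rel2).const_mul_left C
  refine IsBigO.trans_isLittleO (IsBigO.of_bound 1 (Eventually.of_forall fun N => ?_)) h1
  rw [one_mul, Real.norm_eq_abs, Real.norm_eq_abs]
  exact (state_sum (c := fun n => el n ^ 2) (sa_half S a) (sa_change S a)
    (fun n => (pow_pos (el_pos n) 2).le)
    (fun n => pow_le_pow_left₀ (el_pos _).le (el_succ_le n) 2) hC N).trans
    (le_abs_self _)

lemma VDat.alt (h : VDat v q) : (fun N => ∑ n ∈ range N, chi (n + 1) * v (n + 1) * el n)
    =o[atTop] S2 := by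
  obtain ⟨C, hC⟩ := h.BB_bdd
  exact bdd_little (C := C * el 0) fun N => per_sum (z := fun n => chi (n + 1) * v (n + 1))
    (fun n => (el_pos n).le) el_succ_le hC N

/-- Step B -/
lemma Dat.F_big (h : Dat S v q) {a : ℕ} (ha : a = 1 ∨ a = 3) :
    (fun N => ∑ n ∈ range N, (sa S a n - 1 / 2) * el n) =O[atTop] S2 := by
  have hper : ∀ n, v (n + 4 * q + 1) = v (n + 1) := fun n => by
    rw [show n + 4 * q + 1 = n + 1 + 4 * q by ring, h.hper]
  have h1 := h.state_per a (f := fun n => v (n + 1)) hper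
  have hmean : (∑ k ∈ range (4 * q), v (k + 1)) / (4 * q) = vbar v q := by
    unfold vbar
    rw [per_shift (f := v)]
    have := h.hper 0
    rwa [zero_add] at this
  rw [hmean] at h1
  have h2 : (fun N => ∑ n ∈ range N, (sa S a n - Hb a n) * (v (n + 1) * el n)) =o[atTop] S2 := by
    have h3 : (fun N => sa S a N - sa S a 0) =o[atTop] S2 := by
      refine bdd_little (C := 1 + 1) fun N => (abs_sub _ _).trans ?_
      exact add_le_add (sa_abs S a N) (sa_abs S a 0)
    refine ((h.m6 a).sub h3).congr_left fun N => ?_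
    rw [← sum_range_sub (sa S a) N, ← sum_sub_distrib]
    refine sum_congr rfl fun n _ => ?_
    rw [sa_succ]; ring
  have h4 : (fun N => chi a / 2 * ∑ n ∈ range N, chi (n + 1) * v (n + 1) * el n) =o[atTop] S2 :=
    h.toVDat.alt.const_mul_left _
  have h5 : (fun N => vbar v q * ∑ n ∈ range N, (sa S a n - 1 / 2) * el n) =O[atTop] S2 := by
    refine ((h2.isBigO.add h4.isBigO).sub h1).congr_left fun N => ?_
    rw [mul_sum, mul_sum, ← sum_add_distrib, ← sum_sub_distrib]
    refine sum_congr rfl fun n _ => ?_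
    have e := h.toVDat.h_half ha n
    linear_combination (-el n) * e
  have hv : 0 < vbar v q := by
    unfold vbar
    have := h.hpos
    have := h.hq
    positivity
  exact (isBigO_const_mul_left_iff hv.ne').mp h5

/-- Step C -/
lemma Dat.F2_little (h : Dat S v q) {a : ℕ} (ha : a = 1 ∨ a = 3) :
    (fun N => ∑ n ∈ range N, (sa S a n - 1 / 2) * el n ^ 2) =o[atTop] S2 := by
  have hF := h.F_big ha
  set F : ℕ → ℝ := fun N => ∑ n ∈ range N, (sa S a n - 1 / 2) * el n with hFdef
  have h1 : (fun N => el N * F N) =o[atTop] S2 := by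
    have h2 : el =o[atTop] (fun _ => (1 : ℝ)) := (isLittleO_one_iff ℝ).mpr el_tendsto
    refine (h2.mul_isBigO hF).congr_right fun N => one_mul _
  have h3 : (fun N => ∑ n ∈ range N, (el (n + 1) - el n) * F (n + 1)) =o[atTop] S2 := by
    refine sum_little ?_
    have h4 : (fun n => F (n + 1)) =O[atTop] (fun n : ℕ => ((n + 1 : ℕ) : ℝ) * el (n + 1) ^ 2) :=
      (hF.trans S2_bigO').comp_tendsto (tendsto_add_atTop_nat 1)
    have h5 : (fun n : ℕ => (el (n + 1) - el n) * F (n + 1)) =O[atTop]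
        (fun n : ℕ => (el (n + 1) - el n) * (((n + 1 : ℕ) : ℝ) * el (n + 1) ^ 2)) :=
      (isBigO_refl _ _).mul h4
    have h6 : (fun n : ℕ => (el (n + 1) - el n) * (((n + 1 : ℕ) : ℝ) * el (n + 1) ^ 2)) =O[atTop]
        (fun n : ℕ => (((n : ℝ) + 1) * (el n - el (n + 1))) * el n) := by
      refine IsBigO.of_bound 1 (Eventually.of_forall fun n => ?_)
      have e0 := el_pos n
      have e1 := el_pos (n + 1)
      have e2 := el_succ_le n
      have e3 := el_le_one n
      have hn : (0 : ℝ) ≤ n := Nat.cast_nonneg n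
      have hd : 0 ≤ el n - el (n + 1) := by linarith
      rw [one_mul, Real.norm_eq_abs, Real.norm_eq_abs,
        abs_of_nonneg (show 0 ≤ ((n : ℝ) + 1) * (el n - el (n + 1)) * el n by positivity)]
      have e4 : (el (n + 1) - el n) * (((n + 1 : ℕ) : ℝ) * el (n + 1) ^ 2) =
          -(((n : ℝ) + 1) * (el n - el (n + 1)) * el (n + 1) ^ 2) := by push_cast; ring
      rw [e4, abs_neg, abs_of_nonneg (by positivity)]
      apply mul_le_mul_of_nonneg_left _ (by positivity)
      nlinarith
    refine (h5.trans h6).trans_isLittleO ?_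
    refine (diff1.mul_isBigO (isBigO_refl el atTop)).congr_right fun n => ?_
    ring
  refine (h1.sub h3).congr_left fun N => ?_
  have := parts el (fun n => (sa S a n - 1 / 2) * el n) N
  rw [← this]
  exact sum_congr rfl fun n _ => by ring

/-- sums against the differences of `el` are bounded -/
lemma diff_bdd {f : ℕ → ℝ} {C : ℝ} (hf : ∀ n, |f n| ≤ C) (N : ℕ) :
    |∑ n ∈ range N, f n * (el n - el (n + 1))| ≤ C := by
  have hC : 0 ≤ C := (abs_nonneg _).trans (hf 0)
  calc _ ≤ ∑ n ∈ range N, |f n * (el n - el (n + 1))| := abs_sum_le_sum_abs _ _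
    _ ≤ ∑ n ∈ range N, C * (el n - el (n + 1)) := by
        refine sum_le_sum fun n _ => ?_
        rw [abs_mul, abs_of_nonneg (el_diff_nonneg n)]
        exact mul_le_mul_of_nonneg_right (hf n) (el_diff_nonneg n)
    _ = C * (el 0 - el N) := by rw [← mul_sum, sum_range_sub']
    _ ≤ C * 1 := by
        apply mul_le_mul_of_nonneg_left _ hC
        have := el_pos N
        have := el_le_one 0
        linarith
    _ = C := mul_one C

/-- Step D -/
lemma Dat.D_little (h : Dat S v q) {a : ℕ} (ha : a = 1 ∨ a = 3) :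
    (fun N => ∑ n ∈ range N, (sa S a n - 1 / 2) * gg v q (n + 1) * (v (n + 1) * el n))
      =o[atTop] S2 := by
  obtain ⟨C, hC0, hC⟩ := h.toVDat.bound
  obtain ⟨C', hC0', hC'⟩ := h.toVDat.UU_bdd
  have hper : ∀ n, v (n + 4 * q + 1) * UU v q (n + 4 * q + 1) = v (n + 1) * UU v q (n + 1) :=
    fun n => by rw [show n + 4 * q + 1 = n + 1 + 4 * q by ring, h.hper, h.toVDat.UU_per]
  have h1 := h.state_per2 a (f := fun n => v (n + 1) * UU v q (n + 1)) hper
  have h2 := (h.F2_little ha).const_mul_left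
    ((∑ k ∈ range (4 * q), v (k + 1) * UU v q (k + 1)) / (4 * q))
  have h3 : (fun N => ∑ n ∈ range N, ((sa S a n - 1 / 2) * (v (n + 1) * UU v q (n + 1)) * el n) *
      (el n - el (n + 1))) =o[atTop] S2 := by
    refine bdd_little (C := C * C') fun N => diff_bdd (fun n => ?_) N
    have e1 := sa_half S a n
    have e2 := hC (n + 1)
    have e3 := hC' (n + 1)
    have e4 := el_le_one n
    have e5 := el_pos n
    have e6 := h.hv0 (n + 1)
    rw [abs_mul, abs_mul, abs_mul, el_abs, abs_of_nonneg e6]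
    calc |sa S a n - 1 / 2| * (v (n + 1) * |UU v q (n + 1)|) * el n
        ≤ 1 * (C * C') * 1 := by gcongr
      _ = C * C' := by ring
  refine ((h1.add h2).sub h3).congr_left fun N => ?_
  rw [mul_sum, ← sum_add_distrib, ← sum_sub_distrib]
  refine sum_congr rfl fun n _ => ?_
  unfold gg
  ring

/-- mean of `v ^ 2` -/
noncomputable def v2bar (v : ℕ → ℝ) (q : ℕ) : ℝ := (∑ n ∈ range (4 * q), v n ^ 2) / (4 * q)

lemma VDat.sq_sum (h : VDat v q) : (fun N => ∑ n ∈ range N, (chi (n + 1) * v (n + 1) * el n) ^ 2 -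
    v2bar v q * S2 N) =o[atTop] S2 := by
  have hper : ∀ n, v (n + 4 * q + 1) ^ 2 = v (n + 1) ^ 2 := fun n => by
    rw [show n + 4 * q + 1 = n + 1 + 4 * q by ring, h.hper]
  obtain ⟨C, hC0, hC⟩ := per_mean (T := 4 * q) (f := fun n => v (n + 1) ^ 2)
    (by have := h.hq; omega) hper
  push_cast at hC
  have hmean : (∑ k ∈ range (4 * q), v (k + 1) ^ 2) / (4 * q) = v2bar v q := by
    unfold v2bar
    rw [per_shift (f := fun n => v n ^ 2)]
    have := h.hper 0
    rw [zero_add] at this
    simp only [this]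
  rw [hmean] at hC
  refine bdd_little (C := C * el 0 ^ 2) fun N => ?_
  have h1 := per_sum (c := fun n => el n ^ 2) (fun n => (pow_pos (el_pos n) 2).le)
    (fun n => pow_le_pow_left₀ (el_pos _).le (el_succ_le n) 2) hC N
  refine le_trans (le_of_eq ?_) h1
  congr 1
  rw [S2, mul_sum, ← sum_sub_distrib]
  refine sum_congr rfl fun n _ => ?_
  have := h.chi_sq (n + 1)
  linear_combination el n ^ 2 * this

/-- Step E: `∑ x_n g_{n+1} = (1/2) ∑ x_n^2 + O(1)` -/
lemma VDat.xg (h : VDat v q) : (fun N => ∑ n ∈ range N, (chi (n + 1) * v (n + 1) * el n) *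
    gg v q (n + 1) - 1 / 2 * ∑ n ∈ range N, (chi (n + 1) * v (n + 1) * el n) ^ 2)
    =o[atTop] S2 := by
  obtain ⟨C, hC0, hC⟩ := h.bound
  obtain ⟨C', hC0', hC'⟩ := h.UU_bdd
  have hg : ∀ n, |gg v q n| ≤ C' := by
    intro n
    unfold gg
    rw [abs_mul, el_abs]
    have := hC' n
    have := el_le_one n
    have := el_pos n
    nlinarith [abs_nonneg (UU v q n)]
  have hx : ∀ n, |chi (n + 1) * v (n + 1) * el n| ≤ C := by
    intro n
    rw [abs_mul, abs_mul, el_abs, abs_of_nonneg (h.hv0 _)]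
    have e1 := chi_abs (n + 1)
    have e2 := hC (n + 1)
    have e3 := el_le_one n
    have e4 := el_pos n
    have e5 := h.hv0 (n + 1)
    calc |chi (n + 1)| * v (n + 1) * el n ≤ 1 * C * 1 := by gcongr
      _ = C := by ring
  have h1 : (fun N => (gg v q N ^ 2 - gg v q 0 ^ 2) / 2) =o[atTop] S2 := by
    refine bdd_little (C := C' ^ 2) fun N => ?_
    have e1 : gg v q N ^ 2 ≤ C' ^ 2 := by
      rw [← sq_abs]; exact pow_le_pow_left₀ (abs_nonneg _) (hg N) 2
    have e2 : gg v q 0 ^ 2 ≤ C' ^ 2 := by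
      rw [← sq_abs]; exact pow_le_pow_left₀ (abs_nonneg _) (hg 0) 2
    have e3 := sq_nonneg (gg v q N)
    have e4 := sq_nonneg (gg v q 0)
    rw [abs_le]
    constructor <;> nlinarith
  have h2 : (fun N => ∑ n ∈ range N, (UU v q (n + 1) * (gg v q (n + 1) -
      chi (n + 1) * v (n + 1) * el n + 1 / 2 * (UU v q (n + 1) * (el n - el (n + 1))))) *
      (el n - el (n + 1))) =o[atTop] S2 := by
    refine bdd_little (C := C' * (C' + C + 1 / 2 * (C' * 1))) fun N => diff_bdd (fun n => ?_) N
    have e1 := hC' (n + 1)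
    have e2 := hg (n + 1)
    have e3 := hx n
    have e4 := el_diff_nonneg n
    have e5 : el n - el (n + 1) ≤ 1 := by
      have := el_le_one n
      have := el_pos (n + 1)
      linarith
    rw [abs_mul]
    have e6 : |gg v q (n + 1) - chi (n + 1) * v (n + 1) * el n +
        1 / 2 * (UU v q (n + 1) * (el n - el (n + 1)))| ≤ C' + C + 1 / 2 * (C' * 1) := by
      refine (abs_add_le _ _).trans (add_le_add ((abs_sub _ _).trans (add_le_add e2 e3)) ?_)
      rw [abs_mul, abs_mul, abs_of_nonneg e4, abs_of_pos (by norm_num : (0 : ℝ) < 1 / 2)]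
      gcongr
    exact mul_le_mul e1 e6 (abs_nonneg _) hC0'.le
  refine (h1.add h2).congr_left fun N => ?_
  rw [← sum_range_sub (fun n => gg v q n ^ 2) N, sum_div, mul_sum, ← sum_add_distrib,
    ← sum_sub_distrib]
  refine sum_congr rfl fun n _ => ?_
  have e := UU_succ (v := v) (q := q) n
  have hgn : gg v q n = gg v q (n + 1) - chi (n + 1) * v (n + 1) * el n +
      UU v q (n + 1) * (el n - el (n + 1)) := by
    unfold gg
    linear_combination (-el n) * e
  rw [hgn]
  ring

/-- The second order term of the state-restricted alternating sum. -/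
theorem Dat.E_asymp (h : Dat S v q) {a : ℕ} (ha : a = 1 ∨ a = 3) :
    (fun N => ∑ n ∈ range N, sa S a n * (chi (n + 1) * v (n + 1) * el n) +
      chi a / 4 * v2bar v q * S2 N) =o[atTop] S2 := by
  obtain ⟨C, hC0, hC⟩ := h.toVDat.bound
  obtain ⟨C', hC0', hC'⟩ := h.toVDat.UU_bdd
  have hg : ∀ n, |gg v q n| ≤ C' := by
    intro n
    unfold gg
    rw [abs_mul, el_abs]
    have := hC' n
    have := el_le_one n
    have := el_pos n
    nlinarith [abs_nonneg (UU v q n)]
  -- boundary terms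
  have k1 : (fun N => sa S a N * gg v q N - sa S a 0 * gg v q 0) =o[atTop] S2 := by
    refine bdd_little (C := C' + C') fun N => (abs_sub _ _).trans (add_le_add ?_ ?_)
    · rw [abs_mul]
      have := sa_abs S a N
      have := hg N
      nlinarith [abs_nonneg (sa S a N), abs_nonneg (gg v q N)]
    · rw [abs_mul]
      have := sa_abs S a 0
      have := hg 0
      nlinarith [abs_nonneg (sa S a 0), abs_nonneg (gg v q 0)]
  have k2 : (fun N => ∑ n ∈ range N, (sa S a n * UU v q (n + 1)) * (el n - el (n + 1)))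
      =o[atTop] S2 := by
    refine bdd_little (C := C') fun N => diff_bdd (fun n => ?_) N
    rw [abs_mul]
    have := sa_abs S a n
    have := hC' (n + 1)
    nlinarith [abs_nonneg (sa S a n), abs_nonneg (UU v q (n + 1))]
  have k3 := h.m3 a
  have k4 := h.D_little ha
  have k5 := h.toVDat.xg.const_mul_left (chi a / 2)
  have k6 := h.toVDat.sq_sum.const_mul_left (chi a / 4)
  refine (((((k1.add k2).sub k3).add k4).sub k5).sub k6).congr_left fun N => ?_
  rw [← sum_range_sub (fun n => sa S a n * gg v q n) N]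
  have hsum : ∀ n, sa S a n * (chi (n + 1) * v (n + 1) * el n) =
      (sa S a (n + 1) * gg v q (n + 1) - sa S a n * gg v q n) +
      (sa S a n * UU v q (n + 1)) * (el n - el (n + 1)) -
      (((Hb a n - sa S a n) * gg v q (n + 1)) * (rS S n - v (n + 1) * el n)) +
      (sa S a n - 1 / 2) * gg v q (n + 1) * (v (n + 1) * el n) -
      chi a / 2 * ((chi (n + 1) * v (n + 1) * el n) * gg v q (n + 1)) := by
    intro n
    have e1 := UU_succ (v := v) (q := q) n
    have e2 := sa_succ S a n
    have e3 := h.toVDat.h_half ha n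
    have e4 : gg v q n = UU v q n * el n := rfl
    have e5 : gg v q (n + 1) = UU v q (n + 1) * el (n + 1) := rfl
    have hgn : gg v q n = gg v q (n + 1) - chi (n + 1) * v (n + 1) * el n +
        UU v q (n + 1) * (el n - el (n + 1)) := by
      rw [e4, e5]
      linear_combination (-el n) * e1
    rw [hgn]
    linear_combination gg v q (n + 1) * (-1) * e2 + gg v q (n + 1) * el n * (-1) * e3
  rw [sum_congr rfl fun n _ => hsum n]
  simp only [sum_sub_distrib, sum_add_distrib, ← mul_sum]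
  ring

/-! ### Final deterministic statement -/

lemma S2_little_S1 : S2 =o[atTop] S1 := by
  have h : (fun n => el n ^ 2) =o[atTop] el := by
    rw [isLittleO_iff_tendsto (fun n h => absurd h (el_pos n).ne')]
    refine el_tendsto.congr fun n => ?_
    have := el_pos n
    field_simp
  exact h.sum_range (fun n => (el_pos n).le) S1_tendsto

lemma Dat.pi_asymp (h : Dat S v q) {a : ℕ} (ha : a = 1 ∨ a = 3) :
    Tendsto (fun N => Twin.pi S a N / S1 N) atTop (𝓝 (vbar v q / 2)) := by
  have hper : ∀ n, v (n + 4 * q + 1) = v (n + 1) := fun n => by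
    rw [show n + 4 * q + 1 = n + 1 + 4 * q by ring, h.hper]
  obtain ⟨C, hC0, hC⟩ := per_mean (T := 4 * q) (f := fun n => v (n + 1))
    (by have := h.hq; omega) hper
  push_cast at hC
  have hmean : (∑ k ∈ range (4 * q), v (k + 1)) / (4 * q) = vbar v q := by
    unfold vbar
    rw [per_shift (f := v)]
    have := h.hper 0
    rwa [zero_add] at this
  rw [hmean] at hC
  have h1 : (fun N => ∑ n ∈ range N, (v (n + 1) - vbar v q) * el n) =o[atTop] S2 :=
    bdd_little fun N => per_sum (fun n => (el_pos n).le) el_succ_le hC N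
  have h2 := h.toVDat.alt.const_mul_left (chi a / 2)
  have h3 : (fun N => Twin.pi S a N - vbar v q / 2 * S1 N) =o[atTop] S1 := by
    refine (((((h.m2 a).add h2).add (h1.const_mul_left (1 / 2))).congr_left fun N => ?_)).trans
      S2_little_S1
    unfold Twin.pi S1
    rw [mul_sum, mul_sum, mul_sum, ← sum_add_distrib, ← sum_add_distrib, ← sum_sub_distrib]
    refine sum_congr rfl fun n _ => ?_
    have e := h.toVDat.h_half ha n
    linear_combination (-el n) * e
  have h4 := h3.tendsto_div_nhds_zero.add_const (vbar v q / 2)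
  rw [zero_add] at h4
  refine h4.congr' ?_
  filter_upwards [eventually_gt_atTop 0] with N hN
  have := S1_pos hN
  field_simp
  ring

lemma Dat.PP_diff (h : Dat S v q) {a : ℕ} (ha : a = 1 ∨ a = 3) :
    Tendsto (fun N => (PP S a 1 N - PP S a 3 N) / S2 N) atTop
      (𝓝 (-(chi a / 4 * v2bar v q))) := by
  have ha0 : a ≠ 0 := by rcases ha with rfl | rfl <;> norm_num
  have h1 : (fun N => ee S a 1 N - ee S a 3 N) =o[atTop] S2 := by
    refine bdd_little (C := 1) fun N => ?_
    unfold ee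
    split_ifs <;> simp
  have h2 : (fun N => (PP S a 1 N - PP S a 3 N) + chi a / 4 * v2bar v q * S2 N) =o[atTop] S2 := by
    refine ((((h.m1 a 1).sub (h.m1 a 3)).add h1).add (h.E_asymp ha)).congr_left fun N => ?_
    rw [PP_eq S 1 ha0, PP_eq S 3 ha0]
    unfold TT
    have e : ∑ n ∈ range N, Hab S a 1 n * (rS S n - v (n + 1) * el n) -
        ∑ n ∈ range N, Hab S a 3 n * (rS S n - v (n + 1) * el n) +
        ∑ n ∈ range N, sa S a n * (chi (n + 1) * v (n + 1) * el n) =
        ∑ n ∈ range N, Hab S a 1 n * rS S n - ∑ n ∈ range N, Hab S a 3 n * rS S n := by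
      rw [← sum_sub_distrib, ← sum_add_distrib, ← sum_sub_distrib]
      refine sum_congr rfl fun n _ => ?_
      have h2 : Hab S a 1 n - Hab S a 3 n = sa S a n * chi (n + 1) := by
        unfold Hab chi sa
        by_cases h3 : st S n = a
        · by_cases h4 : (n + 1) % 4 = 1
          · simp [h3, h4]
          · by_cases h5 : (n + 1) % 4 = 3
            · simp [h3, h5]
            · simp [h3, h4, h5]
        · simp [h3]
      linear_combination (-(v (n + 1) * el n)) * h2
    linear_combination e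
  have h3 := h2.tendsto_div_nhds_zero.sub_const (chi a / 4 * v2bar v q)
  rw [zero_sub] at h3
  refine h3.congr' ?_
  filter_upwards [eventually_gt_atTop 0] with N hN
  have := S2_pos hN
  field_simp
  ring

/-- Deterministic second order term. -/
theorem Dat.final (h : Dat S v q) {a b : ℕ} (ha : a = 1 ∨ a = 3) (hb : b = 1 ∨ b = 3) :
    Tendsto (fun N => (PP S a b N / Twin.pi S a N - 1 / 2) / el N) atTop
      (𝓝 ((if a = b then -1 else 1) * ((∑ n ∈ range (4 * q), v n ^ 2) /
        (4 * ∑ n ∈ range (4 * q), v n)))) := by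
  have hvb : 0 < vbar v q := by
    unfold vbar
    have := h.hpos
    have := h.hq
    positivity
  have hpi := h.pi_asymp ha
  -- infinitely many chosen integers
  have hpinf : Tendsto (fun N => Twin.pi S a N) atTop atTop := by
    have h1 := hpi.pos_mul_atTop (by positivity) S1_tendsto
    refine h1.congr' ?_
    filter_upwards [eventually_gt_atTop 0] with N hN
    have := S1_pos hN
    field_simp
  have hinf : ∀ n, ∃ m, n < m ∧ S m := by
    intro n
    by_contra hcon
    push Not at hcon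
    obtain ⟨N, hN1, hN2⟩ := (hpinf.eventually_gt_atTop (n : ℝ)).and (eventually_ge_atTop n) |>.exists
    obtain ⟨k, rfl⟩ : ∃ k, N = n + k := ⟨N - n, by omega⟩
    unfold Twin.pi at hN1
    rw [sum_range_add] at hN1
    have h1 : ∑ i ∈ range k, Hb a (n + i) * rS S (n + i) = 0 := by
      refine sum_eq_zero fun i _ => ?_
      unfold rS
      rw [if_neg (hcon _ (by omega)), mul_zero]
    have h2 : ∑ i ∈ range n, Hb a i * rS S i ≤ n := by
      calc _ ≤ ∑ i ∈ range n, (1 : ℝ) := sum_le_sum fun i _ => by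
            unfold rS Hb; split_ifs <;> norm_num
        _ = n := by simp
    linarith
  have hd := h.PP_diff ha
  have h1 := ((hd.mul ratio).mul (hpi.inv₀ (by positivity))).const_mul (chi b / 2)
  have hlim : chi b / 2 * (-(chi a / 4 * v2bar v q) * 1 * (vbar v q / 2)⁻¹) =
      (if a = b then -1 else 1) * ((∑ n ∈ range (4 * q), v n ^ 2) /
        (4 * ∑ n ∈ range (4 * q), v n)) := by
    have hq : (0 : ℝ) < q := by exact_mod_cast h.hq
    have hs := h.hpos
    unfold v2bar vbar
    have hab : chi b * chi a = if a = b then 1 else -1 := by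
      unfold chi
      rcases ha with rfl | rfl <;> rcases hb with rfl | rfl <;> norm_num
    have e : chi b / 2 * (-(chi a / 4 * ((∑ n ∈ range (4 * q), v n ^ 2) / (4 * q))) * 1 *
        ((∑ n ∈ range (4 * q), v n) / (4 * q) / 2)⁻¹) =
        -(chi b * chi a) * ((∑ n ∈ range (4 * q), v n ^ 2) /
        (4 * ∑ n ∈ range (4 * q), v n)) := by
      field_simp
    rw [e, hab]
    split_ifs <;> ring
  rw [hlim] at h1
  refine h1.congr' ?_
  filter_upwards [eventually_gt_atTop 0, hpinf.eventually_gt_atTop 0] with N hN hpN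
  have e1 := S1_pos hN
  have e2 := S2_pos hN
  have e3 := el_pos N
  have e4 := PP_sum h.hS hinf a N
  have e5 : PP S a b N / Twin.pi S a N - 1 / 2 =
      chi b / 2 * ((PP S a 1 N - PP S a 3 N) / Twin.pi S a N) := by
    rcases hb with rfl | rfl
    · have : chi 1 = 1 := by unfold chi; norm_num
      rw [this]
      field_simp
      linarith
    · have : chi 3 = -1 := by unfold chi; norm_num
      rw [this]
      field_simp
      linarith
  rw [e5]
  field_simp

end Pool.Agent.Helper88.Bias
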