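import Mathlib

open MeasureTheory ProbabilityTheory Filter Finset
open scoped Topology NNReal

set_option linter.unusedSectionVars false

namespace Pool.Agent.Helper88.Lln

/-! ### Kronecker's lemma -/

lemma kronecker {x b : ℕ → ℝ} (hb0 : ∀ n, 0 < b n) (hmono : Monotone b)
    (hb : Tendsto b atTop atTop) {z : ℝ}
    (hz : Tendsto (fun N => ∑ n ∈ range N, x n / b n) atTop (𝓝 z)) :
    Tendsto (fun N => (∑ n ∈ range N, x n) / b N) atTop (𝓝 0) := by
  set Z : ℕ → ℝ := fun N => ∑ n ∈ range N, x n / b n with hZ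
  -- summation by parts
  have hparts : ∀ N, ∑ n ∈ range N, x n = b N * Z N - ∑ n ∈ range N, (b (n + 1) - b n) * Z (n + 1) := by
    intro N
    induction N with
    | zero => simp [hZ]
    | succ N ih =>
      rw [sum_range_succ, sum_range_succ, ih]
      have h1 : Z (N + 1) = Z N + x N / b N := by simp only [hZ]; rw [sum_range_succ]
      have h2 := (hb0 N).ne'
      have h3 : x N = b N * (Z (N + 1) - Z N) := by rw [h1]; field_simp; ring
      rw [h3]; ring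
  have hsumb : ∀ N, ∑ n ∈ range N, (b (n + 1) - b n) = b N - b 0 := fun N => sum_range_sub b N
  have hlit : (fun n => (b (n + 1) - b n) * (Z (n + 1) - z)) =o[atTop]
      fun n => b (n + 1) - b n := by
    have h1 : Tendsto (fun n => Z (n + 1) - z) atTop (𝓝 0) := by
      have := (hz.comp (tendsto_add_atTop_nat 1)).sub_const z
      simpa using this
    have h2 : (fun n => Z (n + 1) - z) =o[atTop] fun _ => (1 : ℝ) :=
      (Asymptotics.isLittleO_one_iff ℝ).mpr h1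
    have h3 := (Asymptotics.isBigO_refl (fun n => b (n + 1) - b n) atTop).mul_isLittleO h2
    simpa using h3
  have hdiv : Tendsto (fun N => ∑ n ∈ range N, (b (n + 1) - b n)) atTop atTop := by
    simp_rw [hsumb]
    exact tendsto_atTop_add_const_right _ _ hb
  have hsum := hlit.sum_range (fun n => sub_nonneg.mpr (hmono (Nat.le_succ n))) hdiv
  have hA : Tendsto (fun N => (∑ n ∈ range N, (b (n + 1) - b n) * (Z (n + 1) - z)) / b N) atTop
      (𝓝 0) := by
    have h1 : (fun N => ∑ n ∈ range N, (b (n + 1) - b n)) =O[atTop] b := by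
      refine Asymptotics.IsBigO.of_bound 1 ?_
      filter_upwards with N
      rw [hsumb, one_mul, Real.norm_of_nonneg (hb0 N).le,
        Real.norm_of_nonneg (sub_nonneg.mpr (hmono (Nat.zero_le N)))]
      linarith [hb0 0]
    exact (hsum.trans_isBigO h1).tendsto_div_nhds_zero
  have hB : Tendsto (fun N => b 0 / b N) atTop (𝓝 0) := hb.const_div_atTop _
  have hfin : Tendsto (fun N => (Z N - z) + z * (b 0 / b N) -
      (∑ n ∈ range N, (b (n + 1) - b n) * (Z (n + 1) - z)) / b N) atTop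
      (𝓝 ((z - z) + z * 0 - 0)) := ((hz.sub_const z).add (hB.const_mul z)).sub hA
  have heq : ∀ N, (∑ n ∈ range N, x n) / b N = (Z N - z) + z * (b 0 / b N) -
      (∑ n ∈ range N, (b (n + 1) - b n) * (Z (n + 1) - z)) / b N := by
    intro N
    have h1 : ∑ n ∈ range N, (b (n + 1) - b n) * (Z (n + 1) - z) =
        ∑ n ∈ range N, (b (n + 1) - b n) * Z (n + 1) - z * (b N - b 0) := by
      rw [← hsumb N, mul_sum, ← sum_sub_distrib]
      refine sum_congr rfl fun n _ => ?_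
      ring
    rw [hparts N, h1]
    have := (hb0 N).ne'
    field_simp
    ring
  have h0 : (z - z) + z * 0 - 0 = 0 := by ring
  rw [h0] at hfin
  exact hfin.congr fun N => (heq N).symm

/-! ### Martingale differences -/

variable {Ω : Type*} [mΩ : MeasurableSpace Ω] {μ : Measure Ω}

/-- clipped conditional intensity -/
noncomputable def lam (μ : Measure Ω) (ℱ : Filtration ℕ mΩ) (R : ℕ → Set Ω) (n : ℕ) (ω : Ω) : ℝ :=
  max 0 (min 1 ((μ[(R (n + 1)).indicator (fun _ => (1 : ℝ)) | ℱ n]) ω))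

open Classical in
/-- the indicator of `R (n+1)` -/
noncomputable def rr (R : ℕ → Set Ω) (n : ℕ) (ω : Ω) : ℝ := if ω ∈ R (n + 1) then 1 else 0

lemma rr_nonneg (R : ℕ → Set Ω) (n : ℕ) (ω : Ω) : 0 ≤ rr R n ω := by
  unfold rr; split_ifs <;> norm_num

lemma rr_le_one (R : ℕ → Set Ω) (n : ℕ) (ω : Ω) : rr R n ω ≤ 1 := by
  unfold rr; split_ifs <;> norm_num

lemma rr_sq (R : ℕ → Set Ω) (n : ℕ) (ω : Ω) : rr R n ω * rr R n ω = rr R n ω := by
  unfold rr; split_ifs <;> norm_num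

lemma lam_nonneg (ℱ : Filtration ℕ mΩ) (R : ℕ → Set Ω) (n : ℕ) (ω : Ω) : 0 ≤ lam μ ℱ R n ω :=
  le_max_left _ _

lemma lam_le_one (ℱ : Filtration ℕ mΩ) (R : ℕ → Set Ω) (n : ℕ) (ω : Ω) : lam μ ℱ R n ω ≤ 1 :=
  max_le (by norm_num) (min_le_left _ _)

lemma lam_meas (ℱ : Filtration ℕ mΩ) (R : ℕ → Set Ω) (n : ℕ) :
    Measurable[ℱ n] (lam μ ℱ R n) := by
  have h := (stronglyMeasurable_condExp
    (μ := μ) (m := ℱ n) (f := (R (n + 1)).indicator (fun _ => (1 : ℝ)))).measurable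
  exact measurable_const.max (measurable_const.min h)

lemma lam_ae [IsProbabilityMeasure μ] {ℱ : Filtration ℕ mΩ} {R : ℕ → Set Ω}
    (hR : ∀ n, MeasurableSet[ℱ n] (R n)) (n : ℕ) :
    lam μ ℱ R n =ᵐ[μ] μ[(R (n + 1)).indicator (fun _ => (1 : ℝ)) | ℱ n] := by
  have hRm : MeasurableSet (R (n + 1)) := ℱ.le _ _ (hR (n + 1))
  have hint : Integrable ((R (n + 1)).indicator (fun _ => (1 : ℝ))) μ :=
    (integrable_const (1 : ℝ)).indicator hRm
  have h0 : 0 ≤ᵐ[μ] μ[(R (n + 1)).indicator (fun _ => (1 : ℝ)) | ℱ n] :=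
    condExp_nonneg (ae_of_all _ fun ω => Set.indicator_nonneg (fun _ _ => zero_le_one) ω)
  have h1 : μ[(R (n + 1)).indicator (fun _ => (1 : ℝ)) | ℱ n] ≤ᵐ[μ] fun _ => 1 := by
    have := condExp_mono (m := ℱ n) hint (integrable_const (1 : ℝ)) (ae_of_all μ fun ω => by
      by_cases h : ω ∈ R (n + 1) <;> simp [h])
    rwa [condExp_const (ℱ.le n)] at this
  filter_upwards [h0, h1] with ω h2 h3
  unfold lam
  rw [min_eq_right h3]
  exact max_eq_right h2

lemma bdd_int [IsProbabilityMeasure μ] {f : Ω → ℝ} (hf : Measurable f) {C : ℝ}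
    (hC : ∀ ω, |f ω| ≤ C) : Integrable f μ :=
  Integrable.of_bound hf.aestronglyMeasurable C (ae_of_all _ hC)

/-- The identity `E[φ 1_{R(n+1)}] = E[φ λ_n]`. -/
lemma keyK [IsProbabilityMeasure μ] {ℱ : Filtration ℕ mΩ} {R : ℕ → Set Ω}
    (hR : ∀ n, MeasurableSet[ℱ n] (R n)) (n : ℕ)
    {φ : Ω → ℝ} (hφ : Measurable[ℱ n] φ) {C : ℝ} (hC : ∀ ω, |φ ω| ≤ C) :
    ∫ ω, φ ω * rr R n ω ∂μ = ∫ ω, φ ω * lam μ ℱ R n ω ∂μ := by
  have hRm : MeasurableSet (R (n + 1)) := ℱ.le _ _ (hR (n + 1))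
  have hint : Integrable ((R (n + 1)).indicator (fun _ => (1 : ℝ))) μ :=
    (integrable_const (1 : ℝ)).indicator hRm
  have h1 : (fun ω => φ ω * rr R n ω) = φ * (R (n + 1)).indicator (fun _ => (1 : ℝ)) := by
    ext ω
    simp only [Pi.mul_apply, rr, Set.indicator]
  have h2 : μ[φ * (R (n + 1)).indicator (fun _ => (1 : ℝ)) | ℱ n] =ᵐ[μ]
      φ * μ[(R (n + 1)).indicator (fun _ => (1 : ℝ)) | ℱ n] :=
    condExp_stronglyMeasurable_mul_of_bound (ℱ.le n) hφ.stronglyMeasurable hint C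
      (ae_of_all _ hC)
  have h3 := lam_ae (μ := μ) hR n
  rw [h1, ← integral_condExp (ℱ.le n)]
  refine integral_congr_ae ?_
  filter_upwards [h2, h3] with ω h4 h5
  rw [h4, Pi.mul_apply, h5]

/-- the martingale transform -/
noncomputable def ZZ (μ : Measure Ω) (ℱ : Filtration ℕ mΩ) (R : ℕ → Set Ω) (w : ℕ → Ω → ℝ)
    (N : ℕ) (ω : Ω) : ℝ :=
  ∑ n ∈ range N, w n ω * (rr R n ω - lam μ ℱ R n ω)

variable {ℱ : Filtration ℕ mΩ} {R : ℕ → Set Ω} {w : ℕ → Ω → ℝ}

lemma rr_meas (hR : ∀ n, MeasurableSet[ℱ n] (R n)) (n : ℕ) : Measurable[ℱ (n + 1)] (rr R n) :=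
  Measurable.ite (hR (n + 1)) measurable_const measurable_const

lemma ZZ_meas (hR : ∀ n, MeasurableSet[ℱ n] (R n)) (hw : ∀ n, Measurable[ℱ n] (w n)) (N : ℕ) :
    Measurable[ℱ N] (ZZ μ ℱ R w N) := by
  unfold ZZ
  refine Finset.measurable_sum _ fun n hn => ?_
  rw [mem_range] at hn
  refine Measurable.mul ?_ (Measurable.sub ?_ ?_)
  · exact (hw n).mono (ℱ.mono (by omega)) le_rfl
  · exact (rr_meas hR n).mono (ℱ.mono (by omega)) le_rfl
  · exact (lam_meas ℱ R n).mono (ℱ.mono (by omega)) le_rfl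

lemma ZZ_bound {C : ℝ} (hC : ∀ n ω, |w n ω| ≤ C) (N : ℕ) (ω : Ω) :
    |ZZ μ ℱ R w N ω| ≤ N * C := by
  unfold ZZ
  calc |∑ n ∈ range N, w n ω * (rr R n ω - lam μ ℱ R n ω)|
      ≤ ∑ n ∈ range N, |w n ω * (rr R n ω - lam μ ℱ R n ω)| := abs_sum_le_sum_abs _ _
    _ ≤ ∑ n ∈ range N, C := by
        refine sum_le_sum fun n _ => ?_
        rw [abs_mul]
        have h1 : |rr R n ω - lam μ ℱ R n ω| ≤ 1 := by
          have a1 := rr_nonneg R n ω
          have a2 := rr_le_one R n ω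
          have a3 := lam_nonneg (μ := μ) ℱ R n ω
          have a4 := lam_le_one (μ := μ) ℱ R n ω
          rw [abs_le]; constructor <;> linarith
        have h2 := hC n ω
        have h3 : 0 ≤ C := (abs_nonneg _).trans h2
        calc |w n ω| * |rr R n ω - lam μ ℱ R n ω| ≤ C * 1 := by gcongr
          _ = C := mul_one C
    _ = N * C := by simp

lemma ZZ_martingale [IsProbabilityMeasure μ] (hR : ∀ n, MeasurableSet[ℱ n] (R n))
    (hw : ∀ n, Measurable[ℱ n] (w n)) {C : ℝ} (hC : ∀ n ω, |w n ω| ≤ C) :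
    Martingale (ZZ μ ℱ R w) ℱ μ := by
  have hZi : ∀ N, Integrable (ZZ μ ℱ R w N) μ := fun N =>
    bdd_int ((ZZ_meas hR hw N).mono (ℱ.le N) le_rfl) (ZZ_bound hC N)
  refine martingale_of_setIntegral_eq_succ (fun n => (ZZ_meas hR hw n).stronglyMeasurable)
    hZi ?_
  intro N s hs
  have hsm : MeasurableSet s := ℱ.le _ _ hs
  have hsucc : ∀ ω, ZZ μ ℱ R w (N + 1) ω = ZZ μ ℱ R w N ω +
      w N ω * (rr R N ω - lam μ ℱ R N ω) := by
    intro ω; unfold ZZ; rw [sum_range_succ]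
  have hφm : Measurable[ℱ N] (s.indicator (w N)) := (hw N).indicator hs
  have hφC : ∀ ω, |s.indicator (w N) ω| ≤ C := by
    intro ω
    by_cases h : ω ∈ s
    · rw [Set.indicator_of_mem h]; exact hC N ω
    · rw [Set.indicator_of_notMem h, abs_zero]; exact (abs_nonneg _).trans (hC N ω)
  have hK := keyK (μ := μ) hR N hφm hφC
  have hrm : Measurable (rr R N) := (rr_meas hR N).mono (ℱ.le _) le_rfl
  have hlm : Measurable (lam μ ℱ R N) := (lam_meas ℱ R N).mono (ℱ.le _) le_rfl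
  have hφm' : Measurable (s.indicator (w N)) := hφm.mono (ℱ.le _) le_rfl
  have hi1 : Integrable (fun ω => s.indicator (w N) ω * rr R N ω) μ := by
    refine bdd_int (C := C * 1) (hφm'.mul hrm) fun ω => ?_
    rw [abs_mul]
    have h9 : |rr R N ω| ≤ 1 := by rw [abs_of_nonneg (rr_nonneg R N ω)]; exact rr_le_one R N ω
    exact mul_le_mul (hφC ω) h9 (abs_nonneg _) ((abs_nonneg _).trans (hφC ω))
  have hi2 : Integrable (fun ω => s.indicator (w N) ω * lam μ ℱ R N ω) μ := by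
    refine bdd_int (C := C * 1) (hφm'.mul hlm) fun ω => ?_
    rw [abs_mul]
    have h9 : |lam μ ℱ R N ω| ≤ 1 := by
      rw [abs_of_nonneg (lam_nonneg ℱ R N ω)]; exact lam_le_one ℱ R N ω
    exact mul_le_mul (hφC ω) h9 (abs_nonneg _) ((abs_nonneg _).trans (hφC ω))
  have h1 : ∫ ω in s, ZZ μ ℱ R w (N + 1) ω ∂μ = ∫ ω in s, ZZ μ ℱ R w N ω ∂μ +
      ∫ ω in s, (w N ω * (rr R N ω - lam μ ℱ R N ω)) ∂μ := by
    rw [← integral_add (hZi N).integrableOn]
    · exact setIntegral_congr_fun hsm fun ω _ => hsucc ω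
    · have : (fun ω => w N ω * (rr R N ω - lam μ ℱ R N ω)) =
          fun ω => ZZ μ ℱ R w (N + 1) ω - ZZ μ ℱ R w N ω := by
        ext ω; rw [hsucc]; ring
      rw [this]
      exact ((hZi (N + 1)).sub (hZi N)).integrableOn
  have h2 : ∫ ω in s, (w N ω * (rr R N ω - lam μ ℱ R N ω)) ∂μ = 0 := by
    rw [← integral_indicator hsm]
    have h3 : (s.indicator fun ω => w N ω * (rr R N ω - lam μ ℱ R N ω)) =
        fun ω => s.indicator (w N) ω * rr R N ω - s.indicator (w N) ω * lam μ ℱ R N ω := by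
      ext ω
      by_cases h : ω ∈ s <;> simp [Set.indicator, h]
      ring
    rw [h3, integral_sub hi1 hi2, hK, sub_self]
  rw [h1, h2, add_zero]

lemma ZZ_sq [IsProbabilityMeasure μ] (hR : ∀ n, MeasurableSet[ℱ n] (R n))
    (hw : ∀ n, Measurable[ℱ n] (w n)) {C : ℝ} (hC : ∀ n ω, |w n ω| ≤ C) (N : ℕ) :
    ∫ ω, ZZ μ ℱ R w N ω ^ 2 ∂μ ≤ ∑ n ∈ range N, ∫ ω, w n ω ^ 2 * lam μ ℱ R n ω ∂μ := by
  induction N with
  | zero => simp [ZZ]
  | succ N ih =>
    rw [sum_range_succ]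
    refine le_trans ?_ (add_le_add ih le_rfl)
    have hsucc : ∀ ω, ZZ μ ℱ R w (N + 1) ω = ZZ μ ℱ R w N ω +
        w N ω * (rr R N ω - lam μ ℱ R N ω) := by
      intro ω; unfold ZZ; rw [sum_range_succ]
    have hC0 : ∀ ω : Ω, 0 ≤ C := fun ω => (abs_nonneg _).trans (hC 0 ω)
    have hZb := ZZ_bound (μ := μ) (ℱ := ℱ) (R := R) hC N
    have hZm : Measurable[ℱ N] (ZZ μ ℱ R w N) := ZZ_meas hR hw N
    have hlm : Measurable[ℱ N] (lam μ ℱ R N) := lam_meas ℱ R N
    set φ : Ω → ℝ := fun ω => 2 * ZZ μ ℱ R w N ω * w N ω + w N ω ^ 2 -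
      2 * (w N ω ^ 2 * lam μ ℱ R N ω) with hφ
    have hφm : Measurable[ℱ N] φ :=
      (((hZm.const_mul 2).mul (hw N)).add ((hw N).pow_const 2)).sub
        ((((hw N).pow_const 2).mul hlm).const_mul 2)
    have hlab : ∀ ω, |lam μ ℱ R N ω| ≤ 1 := fun ω => by
      rw [abs_of_nonneg (lam_nonneg ℱ R N ω)]; exact lam_le_one ℱ R N ω
    have hφC : ∀ ω, |φ ω| ≤ 2 * (N * C) * C + C ^ 2 + 2 * (C ^ 2 * 1) := by
      intro ω
      have h0 := hC0 ω
      calc |φ ω| ≤ |2 * ZZ μ ℱ R w N ω * w N ω + w N ω ^ 2| + |2 * (w N ω ^ 2 * lam μ ℱ R N ω)| :=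
            abs_sub _ _
        _ ≤ |2 * ZZ μ ℱ R w N ω * w N ω| + |w N ω ^ 2| + |2 * (w N ω ^ 2 * lam μ ℱ R N ω)| := by
            gcongr; exact abs_add_le _ _
        _ = 2 * |ZZ μ ℱ R w N ω| * |w N ω| + |w N ω| ^ 2 +
            2 * (|w N ω| ^ 2 * |lam μ ℱ R N ω|) := by
            rw [abs_mul, abs_mul, abs_pow, abs_mul, abs_mul, abs_pow]; norm_num
        _ ≤ _ := by
            have a1 := hC N ω
            have a2 := hlab ω
            have a3 := hZb ω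
            gcongr
    have hexp : ∀ ω, ZZ μ ℱ R w (N + 1) ω ^ 2 =
        (ZZ μ ℱ R w N ω ^ 2 - 2 * ZZ μ ℱ R w N ω * w N ω * lam μ ℱ R N ω +
          w N ω ^ 2 * lam μ ℱ R N ω ^ 2) + φ ω * rr R N ω := by
      intro ω
      rw [hsucc]
      simp only [hφ]
      have := rr_sq R N ω
      linear_combination (w N ω ^ 2) * this
    have hK := keyK (μ := μ) hR N hφm hφC
    have hrm : Measurable (rr R N) := (rr_meas hR N).mono (ℱ.le _) le_rfl
    have hφi : Integrable (fun ω => φ ω * rr R N ω) μ := by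
      refine bdd_int (C := (2 * (N * C) * C + C ^ 2 + 2 * (C ^ 2 * 1)) * 1)
        ((hφm.mono (ℱ.le _) le_rfl).mul hrm) fun ω => ?_
      rw [abs_mul]
      have h9 : |rr R N ω| ≤ 1 := by rw [abs_of_nonneg (rr_nonneg R N ω)]; exact rr_le_one R N ω
      exact mul_le_mul (hφC ω) h9 (abs_nonneg _) ((abs_nonneg _).trans (hφC ω))
    have hψi : Integrable (fun ω => ZZ μ ℱ R w N ω ^ 2 -
        2 * ZZ μ ℱ R w N ω * w N ω * lam μ ℱ R N ω + w N ω ^ 2 * lam μ ℱ R N ω ^ 2) μ := by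
      have hm : Measurable (fun ω => ZZ μ ℱ R w N ω ^ 2 -
          2 * ZZ μ ℱ R w N ω * w N ω * lam μ ℱ R N ω + w N ω ^ 2 * lam μ ℱ R N ω ^ 2) := by
        have : Measurable[ℱ N] (fun ω => ZZ μ ℱ R w N ω ^ 2 -
          2 * ZZ μ ℱ R w N ω * w N ω * lam μ ℱ R N ω + w N ω ^ 2 * lam μ ℱ R N ω ^ 2) :=
          ((hZm.pow_const 2).sub (((hZm.const_mul 2).mul (hw N)).mul hlm)).add
            (((hw N).pow_const 2).mul (hlm.pow_const 2))
        exact this.mono (ℱ.le _) le_rfl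
      refine bdd_int (C := (N * C) ^ 2 + 2 * (N * C) * C * 1 + C ^ 2 * 1 ^ 2) hm fun ω => ?_
      have h0 := hC0 ω
      calc |_| ≤ |ZZ μ ℱ R w N ω ^ 2 - 2 * ZZ μ ℱ R w N ω * w N ω * lam μ ℱ R N ω| +
            |w N ω ^ 2 * lam μ ℱ R N ω ^ 2| := abs_add_le _ _
        _ ≤ |ZZ μ ℱ R w N ω ^ 2| + |2 * ZZ μ ℱ R w N ω * w N ω * lam μ ℱ R N ω| +
            |w N ω ^ 2 * lam μ ℱ R N ω ^ 2| := by gcongr; exact abs_sub _ _
        _ = |ZZ μ ℱ R w N ω| ^ 2 + 2 * |ZZ μ ℱ R w N ω| * |w N ω| * |lam μ ℱ R N ω| +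
            |w N ω| ^ 2 * |lam μ ℱ R N ω| ^ 2 := by
            rw [abs_pow, abs_mul, abs_mul, abs_mul, abs_mul, abs_pow, abs_pow]; norm_num
        _ ≤ _ := by
            have a1 := hC N ω
            have a2 := hlab ω
            have a3 := hZb ω
            gcongr
    have hZ2i : Integrable (fun ω => ZZ μ ℱ R w N ω ^ 2) μ := by
      refine bdd_int (C := (N * C) ^ 2) ((hZm.mono (ℱ.le _) le_rfl).pow_const 2) fun ω => ?_
      rw [abs_pow]
      have a3 := hZb ω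
      gcongr
    have hwli : Integrable (fun ω => w N ω ^ 2 * lam μ ℱ R N ω) μ := by
      refine bdd_int (C := C ^ 2 * 1) (((hw N).mono (ℱ.le _) le_rfl).pow_const 2 |>.mul
        (hlm.mono (ℱ.le _) le_rfl)) fun ω => ?_
      rw [abs_mul, abs_pow]
      have a1 := hC N ω
      have a2 := hlab ω
      gcongr
    have hφli : Integrable (fun ω => φ ω * lam μ ℱ R N ω) μ := by
      refine bdd_int (C := (2 * (N * C) * C + C ^ 2 + 2 * (C ^ 2 * 1)) * 1)
        ((hφm.mono (ℱ.le _) le_rfl).mul (hlm.mono (ℱ.le _) le_rfl)) fun ω => ?_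
      rw [abs_mul]
      exact mul_le_mul (hφC ω) (hlab ω) (abs_nonneg _) ((abs_nonneg _).trans (hφC ω))
    simp_rw [hexp]
    rw [integral_add hψi hφi, hK, ← integral_add hψi hφli, ← integral_add hZ2i hwli]
    refine integral_mono (hψi.add hφli) (hZ2i.add hwli) fun ω => ?_
    simp only [hφ]
    have a1 := lam_nonneg (μ := μ) ℱ R N ω
    have a2 := sq_nonneg (w N ω)
    nlinarith [mul_nonneg a2 (mul_nonneg a1 a1)]

/-- A.s. convergence of an `L²`-bounded martingale transform. -/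
theorem ae_converges [IsProbabilityMeasure μ] (hR : ∀ n, MeasurableSet[ℱ n] (R n))
    (hw : ∀ n, Measurable[ℱ n] (w n)) {C : ℝ} (hC : ∀ n ω, |w n ω| ≤ C) {B : ℝ}
    (hB : ∀ N, ∑ n ∈ range N, ∫ ω, w n ω ^ 2 * lam μ ℱ R n ω ∂μ ≤ B) :
    ∀ᵐ ω ∂μ, ∃ z, Tendsto (fun N => ZZ μ ℱ R w N ω) atTop (𝓝 z) := by
  have hB0 : 0 ≤ B := by simpa using hB 0
  have hZi : ∀ N, Integrable (ZZ μ ℱ R w N) μ := fun N =>
    bdd_int ((ZZ_meas hR hw N).mono (ℱ.le N) le_rfl) (ZZ_bound hC N)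
  have hbdd : ∀ N, eLpNorm (ZZ μ ℱ R w N) 1 μ ≤ ((B + 1).toNNReal : ℝ≥0) := by
    intro N
    rw [eLpNorm_one_eq_lintegral_enorm, ← ofReal_integral_norm_eq_lintegral_enorm (hZi N)]
    have h1 : ∫ ω, ‖ZZ μ ℱ R w N ω‖ ∂μ ≤ B + 1 := by
      have hM2i : Integrable (fun ω => ZZ μ ℱ R w N ω ^ 2) μ := by
        refine bdd_int (C := (N * C) ^ 2)
          (((ZZ_meas hR hw N).mono (ℱ.le _) le_rfl).pow_const 2) fun ω => ?_
        rw [abs_pow]
        have a3 := ZZ_bound (μ := μ) (ℱ := ℱ) (R := R) hC N ω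
        gcongr
      calc ∫ ω, ‖ZZ μ ℱ R w N ω‖ ∂μ ≤ ∫ ω, (ZZ μ ℱ R w N ω ^ 2 + 1) ∂μ := by
            refine integral_mono (hZi N).norm (hM2i.add (integrable_const _)) fun ω => ?_
            simp only [Real.norm_eq_abs]
            rw [← sq_abs]
            nlinarith [sq_nonneg (|ZZ μ ℱ R w N ω| - 1), abs_nonneg (ZZ μ ℱ R w N ω)]
        _ = ∫ ω, ZZ μ ℱ R w N ω ^ 2 ∂μ + 1 := by
            rw [integral_add hM2i (integrable_const _)]
            simp
        _ ≤ B + 1 := by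
            have := (ZZ_sq (μ := μ) hR hw hC N).trans (hB N)
            linarith
    calc ENNReal.ofReal (∫ ω, ‖ZZ μ ℱ R w N ω‖ ∂μ) ≤ ENNReal.ofReal (B + 1) :=
          ENNReal.ofReal_le_ofReal h1
      _ = (((B + 1).toNNReal : ℝ≥0) : ENNReal) := rfl
  exact (ZZ_martingale hR hw hC).submartingale.exists_ae_tendsto_of_bdd hbdd

/-- Strong law with the total intensity as normalizer. -/
theorem slln [IsProbabilityMeasure μ] (hR : ∀ n, MeasurableSet[ℱ n] (R n))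
    {H : ℕ → Ω → ℝ} (hH : ∀ n, Measurable[ℱ n] (H n)) (hH1 : ∀ n ω, |H n ω| ≤ 1) :
    ∀ᵐ ω ∂μ, Tendsto (fun N => ∑ n ∈ range N, lam μ ℱ R n ω) atTop atTop →
      Tendsto (fun N => (∑ n ∈ range N, H n ω * (rr R n ω - lam μ ℱ R n ω)) /
        (1 + ∑ n ∈ range (N + 1), lam μ ℱ R n ω)) atTop (𝓝 0) := by
  set b : ℕ → Ω → ℝ := fun n ω => 1 + ∑ i ∈ range (n + 1), lam μ ℱ R i ω with hb
  have hb1 : ∀ n ω, 1 ≤ b n ω := by
    intro n ω
    have : 0 ≤ ∑ i ∈ range (n + 1), lam μ ℱ R i ω := sum_nonneg fun i _ => lam_nonneg ℱ R i ω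
    simp only [hb]; linarith
  have hbm : ∀ n, Measurable[ℱ n] (b n) := by
    intro n
    refine measurable_const.add (Finset.measurable_sum _ fun i hi => ?_)
    rw [mem_range] at hi
    exact (lam_meas ℱ R i).mono (ℱ.mono (by omega)) le_rfl
  have hwm : ∀ n, Measurable[ℱ n] (fun ω => H n ω / b n ω) := fun n => (hH n).div (hbm n)
  have hwC : ∀ n ω, |H n ω / b n ω| ≤ 1 := by
    intro n ω
    rw [abs_div, abs_of_pos (by linarith [hb1 n ω] : 0 < b n ω),
      div_le_one (by linarith [hb1 n ω])]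
    exact (hH1 n ω).trans (hb1 n ω)
  have hlm : ∀ n, Measurable (lam μ ℱ R n) := fun n => (lam_meas ℱ R n).mono (ℱ.le _) le_rfl
  have hB : ∀ N, ∑ n ∈ range N, ∫ ω, (H n ω / b n ω) ^ 2 * lam μ ℱ R n ω ∂μ ≤ 1 := by
    intro N
    have hpt : ∀ n ω, (H n ω / b n ω) ^ 2 * lam μ ℱ R n ω ≤
        1 / (1 + ∑ i ∈ range n, lam μ ℱ R i ω) - 1 / (1 + ∑ i ∈ range (n + 1), lam μ ℱ R i ω) := by
      intro n ω
      have h1 := hb1 n ω
      have h2 : (0 : ℝ) < 1 + ∑ i ∈ range n, lam μ ℱ R i ω := by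
        have : 0 ≤ ∑ i ∈ range n, lam μ ℱ R i ω := sum_nonneg fun i _ => lam_nonneg ℱ R i ω
        linarith
      have h3 : b n ω = (1 + ∑ i ∈ range n, lam μ ℱ R i ω) + lam μ ℱ R n ω := by
        simp only [hb]; rw [sum_range_succ]; ring
      have h4 := lam_nonneg (μ := μ) ℱ R n ω
      have h5 : H n ω ^ 2 ≤ 1 := by
        rw [← sq_abs]
        have := hH1 n ω
        have := abs_nonneg (H n ω)
        nlinarith
      change (H n ω / b n ω) ^ 2 * lam μ ℱ R n ω ≤ 1 / _ - 1 / b n ω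
      rw [h3]
      set s := 1 + ∑ i ∈ range n, lam μ ℱ R i ω with hs
      have h6 : 0 < s + lam μ ℱ R n ω := by linarith
      rw [div_sub_div _ _ h2.ne' h6.ne', div_pow, div_mul_eq_mul_div,
        div_le_div_iff₀ (by positivity) (by positivity)]
      have h7 : 1 * (s + lam μ ℱ R n ω) - s * 1 = lam μ ℱ R n ω := by ring
      rw [h7]
      have h8 : H n ω ^ 2 * lam μ ℱ R n ω ≤ 1 * lam μ ℱ R n ω := by gcongr
      have h9 : s * (s + lam μ ℱ R n ω) ≤ (s + lam μ ℱ R n ω) ^ 2 := by nlinarith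
      calc H n ω ^ 2 * lam μ ℱ R n ω * (s * (s + lam μ ℱ R n ω))
          ≤ 1 * lam μ ℱ R n ω * (s + lam μ ℱ R n ω) ^ 2 := by gcongr
        _ = _ := by ring
    have hi : ∀ n, Integrable (fun ω => (H n ω / b n ω) ^ 2 * lam μ ℱ R n ω) μ := by
      intro n
      refine bdd_int (C := 1 ^ 2 * 1) ((((hwm n).mono (ℱ.le _) le_rfl).pow_const 2).mul (hlm n))
        fun ω => ?_
      rw [abs_mul, abs_pow]
      have a1 := hwC n ω
      have a2 : |lam μ ℱ R n ω| ≤ 1 := by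
        rw [abs_of_nonneg (lam_nonneg ℱ R n ω)]; exact lam_le_one ℱ R n ω
      gcongr
    have hi2 : ∀ n, Integrable (fun ω => 1 / (1 + ∑ i ∈ range n, lam μ ℱ R i ω)) μ := by
      intro n
      refine bdd_int (C := 1) (measurable_const.div (measurable_const.add
        (Finset.measurable_sum _ fun i _ => hlm i))) fun ω => ?_
      have h2 : (0 : ℝ) ≤ ∑ i ∈ range n, lam μ ℱ R i ω := sum_nonneg fun i _ => lam_nonneg ℱ R i ω
      rw [abs_of_pos (by positivity), div_le_one (by linarith)]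
      linarith
    calc ∑ n ∈ range N, ∫ ω, (H n ω / b n ω) ^ 2 * lam μ ℱ R n ω ∂μ
        ≤ ∑ n ∈ range N, (∫ ω, 1 / (1 + ∑ i ∈ range n, lam μ ℱ R i ω) ∂μ -
          ∫ ω, 1 / (1 + ∑ i ∈ range (n + 1), lam μ ℱ R i ω) ∂μ) := by
          refine sum_le_sum fun n _ => ?_
          rw [← integral_sub (hi2 n) (hi2 (n + 1))]
          exact integral_mono (hi n) ((hi2 n).sub (hi2 (n + 1))) (hpt n)
      _ = ∫ ω, 1 / (1 + ∑ i ∈ range 0, lam μ ℱ R i ω) ∂μ -
          ∫ ω, 1 / (1 + ∑ i ∈ range N, lam μ ℱ R i ω) ∂μ :=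
          sum_range_sub' (fun n => ∫ ω, 1 / (1 + ∑ i ∈ range n, lam μ ℱ R i ω) ∂μ) N
      _ ≤ 1 := by
          have h1 : 0 ≤ ∫ ω, 1 / (1 + ∑ i ∈ range N, lam μ ℱ R i ω) ∂μ := by
            refine integral_nonneg fun ω => ?_
            have h2 : (0 : ℝ) ≤ ∑ i ∈ range N, lam μ ℱ R i ω :=
              sum_nonneg fun i _ => lam_nonneg ℱ R i ω
            simp only [Pi.zero_apply]
            positivity
          have h2 : ∫ ω, 1 / (1 + ∑ i ∈ range 0, lam μ ℱ R i ω) ∂μ = 1 := by simp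
          linarith
  filter_upwards [ae_converges hR hwm hwC hB] with ω hω hdiv
  obtain ⟨z, hz⟩ := hω
  have hmono : Monotone fun n => b n ω := by
    refine monotone_nat_of_le_succ fun n => ?_
    simp only [hb]
    rw [sum_range_succ _ (n + 1)]
    linarith [lam_nonneg (μ := μ) ℱ R (n + 1) ω]
  have hbt : Tendsto (fun n => b n ω) atTop atTop := by
    refine tendsto_atTop_add_const_left _ _ ?_
    exact hdiv.comp (tendsto_add_atTop_nat 1)
  refine kronecker (x := fun n => H n ω * (rr R n ω - lam μ ℱ R n ω))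
    (fun n => by linarith [hb1 n ω]) hmono hbt (z := z) ?_
  refine hz.congr fun N => ?_
  unfold ZZ
  refine sum_congr rfl fun n _ => ?_
  ring

end Pool.Agent.Helper88.Lln
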