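import Mathlib
import Pool.Agent.Helper88.Lln
import Pool.Agent.Helper88.TwinDet

open MeasureTheory ProbabilityTheory Filter Finset
open scoped Topology

set_option linter.unusedSectionVars false

namespace Pool.Agent.Helper88.Twin

open Pool.Agent.Helper88.Lln

variable {Ω : Type*} [mΩ : MeasurableSpace Ω] {μ : Measure Ω} {ℱ : Filtration ℕ mΩ}
  {R : ℕ → Set Ω}

/-- chosen integers -/
def SS (R : ℕ → Set Ω) (ω : Ω) (n : ℕ) : Prop := ω ∈ R n

lemma rS_eq (R : ℕ → Set Ω) (ω : Ω) (n : ℕ) : rS (SS R ω) n = rr R n ω := by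
  unfold rS rr SS
  congr

open Classical in
lemma st_meas (hR : ∀ n, MeasurableSet[ℱ n] (R n)) (n : ℕ) :
    Measurable[ℱ n] (fun ω => st (SS R ω) n) := by
  induction n with
  | zero => exact measurable_const
  | succ n ih =>
    have h : (fun ω => st (SS R ω) (n + 1)) =
        fun ω => if ω ∈ R (n + 1) then (n + 1) % 4 else st (SS R ω) n := by
      ext ω
      simp only [st, SS]
      congr
    rw [h]
    exact Measurable.ite (hR (n + 1)) measurable_const (ih.mono (ℱ.mono (by omega)) le_rfl)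

open Classical in
lemma Hab_meas (hR : ∀ n, MeasurableSet[ℱ n] (R n)) (a b n : ℕ) :
    Measurable[ℱ n] (fun ω => Hab (SS R ω) a b n) := by
  unfold Hab
  by_cases h : (n + 1) % 4 = b
  · simp only [h, and_true]
    exact Measurable.ite (st_meas hR n (measurableSet_singleton a)) measurable_const
      measurable_const
  · simp only [h, and_false, if_false]
    exact measurable_const

lemma lam_odd [IsProbabilityMeasure μ] (hR : ∀ n, MeasurableSet[ℱ n] (R n))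
    (hodd : ∀ n ω, ω ∈ R n → n % 4 = 1 ∨ n % 4 = 3) :
    ∀ᵐ ω ∂μ, ∀ n, ¬ ((n + 1) % 4 = 1 ∨ (n + 1) % 4 = 3) → lam μ ℱ R n ω = 0 := by
  rw [ae_all_iff]
  intro n
  by_cases h : (n + 1) % 4 = 1 ∨ (n + 1) % 4 = 3
  · exact ae_of_all _ fun ω h' => absurd h h'
  · have hempty : R (n + 1) = ∅ := by
      rw [Set.eq_empty_iff_forall_notMem]
      intro ω hω
      exact h (hodd _ ω hω)
    have h1 := lam_ae (μ := μ) hR n
    have h2 : μ[(R (n + 1)).indicator (fun _ => (1 : ℝ)) | ℱ n] = 0 := by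
      rw [hempty, Set.indicator_empty]
      exact condExp_zero
    filter_upwards [h1] with ω h3 _
    rw [h3, h2]
    rfl

theorem main [IsProbabilityMeasure μ] (hR : ∀ n, MeasurableSet[ℱ n] (R n))
    (hodd : ∀ n ω, ω ∈ R n → n % 4 = 1 ∨ n % 4 = 3)
    (hdiv : ∀ᵐ ω ∂μ, Tendsto (fun N => ∑ n ∈ range N,
      (μ[(R (n + 1)).indicator (fun _ => (1 : ℝ)) | ℱ n]) ω) atTop atTop)
    (hbal : ∀ᵐ ω ∂μ, ∀ ε : ℝ, 0 < ε → ∃ M : ℕ, ∀ m, M ≤ m → ∀ k,
      |∑ i ∈ range k, chi (m + i + 1) *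
        (μ[(R (m + i + 1)).indicator (fun _ => (1 : ℝ)) | ℱ (m + i)]) ω| ≤ ε) :
    ∀ᵐ ω ∂μ, ∀ a b, (a = 1 ∨ a = 3) → (b = 1 ∨ b = 3) →
      Tendsto (fun N => PP (SS R ω) a b N / pi (SS R ω) a N) atTop (𝓝 (1 / 2)) := by
  have hall := ae_all_iff.mpr fun n => lam_ae (μ := μ) hR n
  have hT : ∀ᵐ ω ∂μ, ∀ a b : ℕ, Tendsto (fun N => ∑ n ∈ range N, lam μ ℱ R n ω) atTop atTop →
      Tendsto (fun N => (∑ n ∈ range N, Hab (SS R ω) a b n * (rr R n ω - lam μ ℱ R n ω)) /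
        (1 + ∑ n ∈ range (N + 1), lam μ ℱ R n ω)) atTop (𝓝 0) := by
    rw [ae_all_iff]; intro a
    rw [ae_all_iff]; intro b
    refine slln hR (H := fun n ω => Hab (SS R ω) a b n) (fun n => Hab_meas hR a b n) ?_
    intro n ω
    unfold Hab
    split_ifs <;> simp
  have hP : ∀ᵐ ω ∂μ, ∀ b : ℕ, Tendsto (fun N => ∑ n ∈ range N, lam μ ℱ R n ω) atTop atTop →
      Tendsto (fun N => (∑ n ∈ range N, Hb b n * (rr R n ω - lam μ ℱ R n ω)) /
        (1 + ∑ n ∈ range (N + 1), lam μ ℱ R n ω)) atTop (𝓝 0) := by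
    rw [ae_all_iff]; intro b
    refine slln hR (H := fun n _ => Hb b n) (fun n => measurable_const) ?_
    intro n ω
    unfold Hb
    split_ifs <;> simp
  filter_upwards [hall, hT, hP, hdiv, hbal, lam_odd (μ := μ) hR hodd] with
    ω h1 h2 h3 h4 h5 h6 a b ha hb
  have h4' : Tendsto (fun N => ∑ n ∈ range N, lam μ ℱ R n ω) atTop atTop := by
    refine h4.congr fun N => sum_congr rfl fun n _ => (h1 n).symm
  refine det (S := SS R ω) (lam := fun n => lam μ ℱ R n ω) (fun n hn => hodd n ω hn)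
    (fun n => lam_nonneg ℱ R n ω) (fun n => lam_le_one ℱ R n ω) h6 h4' ?_ ?_ ?_ ha hb
  · intro ε hε
    obtain ⟨M, hM⟩ := h5 ε hε
    refine ⟨M, fun m hm k => ?_⟩
    have := hM m hm k
    refine le_trans (le_of_eq ?_) this
    congr 1
    refine sum_congr rfl fun i _ => ?_
    rw [h1]
  · intro a b
    simp_rw [rS_eq]
    exact h2 a b h4'
  · intro b
    simp_rw [rS_eq]
    exact h3 b h4'

open Classical in
lemma pi_eq_ncard (hodd : ∀ n ω, ω ∈ R n → n % 4 = 1 ∨ n % 4 = 3) (ω : Ω) {a : ℕ} (N : ℕ) :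
    pi (SS R ω) a N = ({n : ℕ | n ≤ N ∧ ω ∈ R n ∧ n % 4 = a}.ncard : ℝ) := by
  have h1 : {n : ℕ | n ≤ N ∧ ω ∈ R n ∧ n % 4 = a} =
      (((range N).filter fun n => ω ∈ R (n + 1) ∧ (n + 1) % 4 = a).image (· + 1) : Finset ℕ) := by
    ext n
    simp only [Set.mem_ofPred_eq, coe_image, coe_filter, mem_range, Set.mem_image]
    constructor
    · rintro ⟨h1, h2, h3⟩
      have hn : n ≠ 0 := by
        rintro rfl
        rcases hodd 0 ω h2 with h | h <;> omega
      exact ⟨n - 1, ⟨by omega, by rwa [Nat.sub_add_cancel (by omega)],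
        by rwa [Nat.sub_add_cancel (by omega)]⟩, by omega⟩
    · rintro ⟨k, ⟨h1, h2, h3⟩, rfl⟩
      exact ⟨by omega, h2, h3⟩
  rw [h1, Set.ncard_coe_finset, card_image_of_injective _ (add_left_injective 1), card_filter]
  push_cast
  unfold pi Hb rS SS
  refine sum_congr rfl fun n _ => ?_
  by_cases h2 : ω ∈ R (n + 1) <;> by_cases h3 : (n + 1) % 4 = a <;> simp [h2, h3]

open Classical in
lemma PP_eq_ncard (hodd : ∀ n ω, ω ∈ R n → n % 4 = 1 ∨ n % 4 = 3) (ω : Ω) {a b : ℕ} (N : ℕ) :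
    PP (SS R ω) a b N = ({n : ℕ | n ≤ N ∧ ω ∈ R n ∧ n % 4 = a ∧
      ∃ m, n < m ∧ ω ∈ R m ∧ (∀ k, n < k → k < m → ω ∉ R k) ∧ m % 4 = b}.ncard : ℝ) := by
  have h1 : {n : ℕ | n ≤ N ∧ ω ∈ R n ∧ n % 4 = a ∧
      ∃ m, n < m ∧ ω ∈ R m ∧ (∀ k, n < k → k < m → ω ∉ R k) ∧ m % 4 = b} =
      (((range N).filter fun n => ω ∈ R (n + 1) ∧ (n + 1) % 4 = a ∧ NC (SS R ω) (n + 1) b).image
        (· + 1) : Finset ℕ) := by
    ext n
    simp only [Set.mem_ofPred_eq, coe_image, coe_filter, mem_range, Set.mem_image]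
    constructor
    · rintro ⟨h1, h2, h3, h4⟩
      have hn : n ≠ 0 := by
        rintro rfl
        rcases hodd 0 ω h2 with h | h <;> omega
      refine ⟨n - 1, ⟨by omega, by rwa [Nat.sub_add_cancel (by omega)],
        by rwa [Nat.sub_add_cancel (by omega)], ?_⟩, by omega⟩
      rw [Nat.sub_add_cancel (by omega)]
      exact h4
    · rintro ⟨k, ⟨h1, h2, h3, h4⟩, rfl⟩
      exact ⟨by omega, h2, h3, h4⟩
  rw [h1, Set.ncard_coe_finset, card_image_of_injective _ (add_left_injective 1), card_filter]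
  push_cast
  unfold PP SS
  refine sum_congr rfl fun n _ => ?_
  congr

lemma chi_eq (n : ℕ) : chi n = ((ZMod.χ₄ (n : ZMod 4) : ℤ) : ℝ) := by
  unfold chi
  by_cases h1 : n % 4 = 1
  · rw [if_pos h1, ZMod.χ₄_nat_one_mod_four h1]; simp
  · by_cases h3 : n % 4 = 3
    · rw [if_neg h1, if_pos h3, ZMod.χ₄_nat_three_mod_four h3]; simp
    · rw [if_neg h1, if_neg h3]
      have h2 : ZMod.χ₄ (n : ZMod 4) = 0 := by
        rw [ZMod.χ₄_nat_eq_if_mod_four]
        have : n % 2 = 0 := by omega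
        simp [this]
      rw [h2]; simp

end Pool.Agent.Helper88.Twin
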