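import Mathlib
import Pool.Agent.Helper88.BiasDet
import Pool.Agent.Helper88.TwinMain

open MeasureTheory ProbabilityTheory Filter Finset Asymptotics
open scoped Topology

namespace Pool.Agent.Helper88.Bias

open Pool.Agent.Helper88.Twin Pool.Agent.Helper88.Lln

variable {Ω : Type*} [mΩ : MeasurableSpace Ω] {μ : Measure Ω} {ℱ : Filtration ℕ mΩ}
  {R : ℕ → Set Ω}

/-- strong law with normalization `N^{3/4}` -/
theorem slln34 [IsProbabilityMeasure μ] (hR : ∀ n, MeasurableSet[ℱ n] (R n))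
    {H : ℕ → Ω → ℝ} (hH : ∀ n, Measurable[ℱ n] (H n)) {C : ℝ} (hC : ∀ n ω, |H n ω| ≤ C) :
    ∀ᵐ ω ∂μ, (fun N => ∑ n ∈ range N, H n ω * (rr R n ω - lam μ ℱ R n ω)) =o[atTop]
      (fun N : ℕ => ((N : ℝ) + 1) ^ (3 / 4 : ℝ)) := by
  set b : ℕ → ℝ := fun n => ((n : ℝ) + 1) ^ (3 / 4 : ℝ) with hb
  have hb1 : ∀ n, 1 ≤ b n := fun n => Real.one_le_rpow (by
    have : (0 : ℝ) ≤ n := Nat.cast_nonneg n
    linarith) (by norm_num)
  have hwm : ∀ n, Measurable[ℱ n] (fun ω => H n ω / b n) := fun n => (hH n).div_const _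
  have hwC : ∀ n ω, |H n ω / b n| ≤ C := by
    intro n ω
    have h1 := hb1 n
    rw [abs_div, abs_of_pos (by linarith : 0 < b n), div_le_iff₀ (by linarith)]
    have h2 := hC n ω
    have h3 : 0 ≤ C := (abs_nonneg _).trans h2
    nlinarith
  have hsum : Summable (fun n : ℕ => C ^ 2 * (((n : ℝ) + 1) ^ (3 / 2 : ℝ))⁻¹) := by
    apply Summable.mul_left
    have h := (Real.summable_nat_rpow_inv (p := 3 / 2)).mpr (by norm_num)
    have h2 := (summable_nat_add_iff 1).mpr h
    refine h2.congr fun n => ?_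
    push_cast
    rfl
  have hB : ∀ N, ∑ n ∈ range N, ∫ ω, (H n ω / b n) ^ 2 * lam μ ℱ R n ω ∂μ ≤
      ∑' n : ℕ, C ^ 2 * (((n : ℝ) + 1) ^ (3 / 2 : ℝ))⁻¹ := by
    intro N
    refine le_trans (sum_le_sum fun n _ => ?_)
      (hsum.sum_le_tsum (range N) fun n _ => by positivity)
    have hpt : ∀ ω, (H n ω / b n) ^ 2 * lam μ ℱ R n ω ≤ C ^ 2 * (((n : ℝ) + 1) ^ (3 / 2 : ℝ))⁻¹ := by
      intro ω
      have h1 : b n ^ 2 = ((n : ℝ) + 1) ^ (3 / 2 : ℝ) := by
        rw [hb, ← Real.rpow_natCast, ← Real.rpow_mul (by positivity)]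
        norm_num
      rw [div_pow, h1]
      have h2 : H n ω ^ 2 ≤ C ^ 2 := by
        rw [← sq_abs]; exact pow_le_pow_left₀ (abs_nonneg _) (hC n ω) 2
      have h3 := lam_nonneg (μ := μ) ℱ R n ω
      have h4 := lam_le_one (μ := μ) ℱ R n ω
      rw [← div_eq_mul_inv]
      calc H n ω ^ 2 / ((n : ℝ) + 1) ^ (3 / 2 : ℝ) * lam μ ℱ R n ω
          ≤ C ^ 2 / ((n : ℝ) + 1) ^ (3 / 2 : ℝ) * 1 := by gcongr
        _ = _ := mul_one _
    have hlm : Measurable (lam μ ℱ R n) := (lam_meas ℱ R n).mono (ℱ.le _) le_rfl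
    have hi : Integrable (fun ω => (H n ω / b n) ^ 2 * lam μ ℱ R n ω) μ := by
      refine bdd_int (C := C ^ 2 * (((n : ℝ) + 1) ^ (3 / 2 : ℝ))⁻¹)
        ((((hwm n).mono (ℱ.le _) le_rfl).pow_const 2).mul hlm) fun ω => ?_
      rw [abs_of_nonneg (mul_nonneg (sq_nonneg _) (lam_nonneg (μ := μ) ℱ R n ω))]
      exact hpt ω
    calc ∫ ω, (H n ω / b n) ^ 2 * lam μ ℱ R n ω ∂μ
        ≤ ∫ _, C ^ 2 * (((n : ℝ) + 1) ^ (3 / 2 : ℝ))⁻¹ ∂μ :=
          integral_mono hi (integrable_const _) hpt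
      _ = _ := by simp
  filter_upwards [ae_converges hR hwm hwC hB] with ω hω
  obtain ⟨z, hz⟩ := hω
  have hmono : Monotone b := fun m n hmn =>
    Real.rpow_le_rpow (by positivity) (by
      have : (m : ℝ) ≤ n := by exact_mod_cast hmn
      linarith) (by norm_num)
  have hbt : Tendsto b atTop atTop :=
    (tendsto_rpow_atTop (by norm_num)).comp
      (tendsto_atTop_add_const_right _ _ tendsto_natCast_atTop_atTop)
  have h1 := kronecker (x := fun n => H n ω * (rr R n ω - lam μ ℱ R n ω))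
    (fun n => by linarith [hb1 n]) hmono hbt (z := z) (by
      refine hz.congr fun N => ?_
      unfold ZZ
      refine sum_congr rfl fun n _ => ?_
      ring)
  rw [isLittleO_iff_tendsto (fun n h => absurd h (by have := hb1 n; simp only [hb] at this; linarith))]
  exact h1

/-- `F = log (n+3)`, `f = log (n+1)`: comparison of the two normalizations -/
lemma norm_compare {v : ℕ → ℝ} {C : ℝ} (hv0 : ∀ n, 0 ≤ v n) (hC : ∀ n, v n ≤ C) {c : ℕ → ℝ}
    (h : Tendsto (fun n : ℕ => (c n - v (n + 1) / Real.log ((n : ℝ) + 1) ^ 2) *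
      Real.log ((n : ℝ) + 1) ^ 4) atTop (𝓝 0)) :
    (fun n => c n - v (n + 1) * el n) =o[atTop] fun n => el n ^ 2 := by
  have hC0 : 0 ≤ C := (hv0 0).trans (hC 0)
  rw [isLittleO_iff_tendsto (fun n h => absurd h (pow_pos (el_pos n) 2).ne')]
  have h1 : Tendsto (fun n : ℕ => |(c n - v (n + 1) / Real.log ((n : ℝ) + 1) ^ 2) *
      Real.log ((n : ℝ) + 1) ^ 4| * 16 + 24 * C * (Real.log ((n : ℝ) + 1) / ((n : ℝ) + 1)))
      atTop (𝓝 0) := by
    have h2 : Tendsto (fun n : ℕ => Real.log ((n : ℝ) + 1) / ((n : ℝ) + 1)) atTop (𝓝 0) :=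
      (Real.isLittleO_log_id_atTop.tendsto_div_nhds_zero).comp
        (tendsto_atTop_add_const_right _ _ tendsto_natCast_atTop_atTop)
    have h3 := (h.abs.mul_const 16).add (h2.const_mul (24 * C))
    simpa using h3
  refine squeeze_zero_norm' ?_ h1
  filter_upwards [eventually_ge_atTop 3] with n hn
  have hn' : (3 : ℝ) ≤ n := by exact_mod_cast hn
  set f := Real.log ((n : ℝ) + 1) with hf
  set F := Real.log ((n : ℝ) + 3) with hF
  have hf1 : 1 ≤ f := by
    rw [hf, Real.le_log_iff_exp_le (by positivity)]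
    have := Real.exp_one_lt_d9
    linarith
  have hfF : f ≤ F := Real.log_le_log (by positivity) (by linarith)
  have hFf : F - f ≤ 2 / ((n : ℝ) + 1) := by
    rw [hf, hF, ← Real.log_div (by positivity) (by positivity)]
    have h2 := Real.log_le_sub_one_of_pos (x := ((n : ℝ) + 3) / ((n : ℝ) + 1)) (by positivity)
    refine h2.trans (le_of_eq ?_)
    field_simp
    ring
  have hF2 : F ≤ 2 * f := by
    have h3 : 2 / ((n : ℝ) + 1) ≤ 1 := by
      rw [div_le_one (by positivity)]; linarith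
    linarith
  have hel : el n = 1 / F ^ 2 := rfl
  have hf0 : 0 < f := by linarith
  have hF0 : 0 < F := by linarith
  have e1 : (c n - v (n + 1) * el n) / el n ^ 2 =
      ((c n - v (n + 1) / f ^ 2) * f ^ 4) * (F / f) ^ 4 +
        v (n + 1) * ((F - f) * (F + f) * (F / f) ^ 2) := by
    rw [hel]
    have : F ≠ 0 := by linarith
    have : f ≠ 0 := by linarith
    field_simp
    ring
  rw [e1, Real.norm_eq_abs]
  have hq1 : F / f ≤ 2 := by rw [div_le_iff₀ (by linarith)]; linarith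
  have hq0 : 0 ≤ F / f := by positivity
  have e2 : (F / f) ^ 4 ≤ 16 := by
    calc (F / f) ^ 4 ≤ 2 ^ 4 := by gcongr
      _ = 16 := by norm_num
  have e3 : (F / f) ^ 2 ≤ 4 := by
    calc (F / f) ^ 2 ≤ 2 ^ 2 := by gcongr
      _ = 4 := by norm_num
  refine (abs_add_le _ _).trans (add_le_add ?_ ?_)
  · rw [abs_mul, abs_of_nonneg (by positivity : 0 ≤ (F / f) ^ 4)]
    exact mul_le_mul_of_nonneg_left e2 (abs_nonneg _)
  · have hd : 0 ≤ F - f := by linarith
    have hFf0 : 0 ≤ F + f := by linarith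
    rw [abs_of_nonneg (by have := hv0 (n + 1); positivity)]
    calc v (n + 1) * ((F - f) * (F + f) * (F / f) ^ 2)
        ≤ C * ((2 / ((n : ℝ) + 1)) * (3 * f) * 4) := by
          have := hC (n + 1)
          have := hv0 (n + 1)
          have : F + f ≤ 3 * f := by linarith
          gcongr
      _ = 24 * C * (f / ((n : ℝ) + 1)) := by ring

variable {v : ℕ → ℝ} {q : ℕ}

lemma sa_meas (hR : ∀ n, MeasurableSet[ℱ n] (R n)) (a n : ℕ) :
    Measurable[ℱ n] (fun ω => sa (SS R ω) a n) := by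
  unfold sa
  exact Measurable.ite (st_meas hR n (measurableSet_singleton a)) measurable_const measurable_const

theorem bias_main [IsProbabilityMeasure μ] (hR : ∀ n, MeasurableSet[ℱ n] (R n))
    (hodd : ∀ n ω, ω ∈ R n → n % 4 = 1 ∨ n % 4 = 3) (hv : VDat v q)
    (hint : ∀ᵐ ω ∂μ, Tendsto (fun n : ℕ => ((μ[(R (n + 1)).indicator (fun _ => (1 : ℝ)) | ℱ n]) ω -
      v (n + 1) / Real.log ((n : ℝ) + 1) ^ 2) * Real.log ((n : ℝ) + 1) ^ 4) atTop (𝓝 0)) :
    ∀ᵐ ω ∂μ, Dat (SS R ω) v q := by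
  have hall := ae_all_iff.mpr fun n => lam_ae (μ := μ) hR n
  obtain ⟨C, hC0, hC⟩ := hv.bound
  obtain ⟨C', hC0', hC'⟩ := hv.UU_bdd
  have hg : ∀ n, |gg v q n| ≤ C' := by
    intro n
    unfold gg
    rw [abs_mul, el_abs]
    have := hC' n
    have := el_le_one n
    have := el_pos n
    nlinarith [abs_nonneg (UU v q n)]
  have hsH : ∀ ω a n, |Hb a n - sa (SS R ω) a n| ≤ 1 := by
    intro ω a n
    unfold Hb sa; split_ifs <;> norm_num
  have w1 : ∀ᵐ ω ∂μ, ∀ a b : ℕ, (fun N => ∑ n ∈ range N, Hab (SS R ω) a b n *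
      (rr R n ω - lam μ ℱ R n ω)) =o[atTop] (fun N : ℕ => ((N : ℝ) + 1) ^ (3 / 4 : ℝ)) := by
    rw [ae_all_iff]; intro a
    rw [ae_all_iff]; intro b
    refine slln34 hR (H := fun n ω => Hab (SS R ω) a b n) (C := 1) (fun n => Hab_meas hR a b n) ?_
    intro n ω
    unfold Hab; split_ifs <;> simp
  have w2 : ∀ᵐ ω ∂μ, ∀ b : ℕ, (fun N => ∑ n ∈ range N, Hb b n *
      (rr R n ω - lam μ ℱ R n ω)) =o[atTop] (fun N : ℕ => ((N : ℝ) + 1) ^ (3 / 4 : ℝ)) := by
    rw [ae_all_iff]; intro b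
    refine slln34 hR (H := fun n _ => Hb b n) (C := 1) (fun n => measurable_const) ?_
    intro n ω
    unfold Hb; split_ifs <;> simp
  have w3 : ∀ᵐ ω ∂μ, ∀ a : ℕ, (fun N => ∑ n ∈ range N,
      ((Hb a n - sa (SS R ω) a n) * gg v q (n + 1)) *
      (rr R n ω - lam μ ℱ R n ω)) =o[atTop] (fun N : ℕ => ((N : ℝ) + 1) ^ (3 / 4 : ℝ)) := by
    rw [ae_all_iff]; intro a
    refine slln34 hR (H := fun n ω => (Hb a n - sa (SS R ω) a n) * gg v q (n + 1)) (C := 1 * C')
      (fun n => (measurable_const.sub (sa_meas hR a n)).mul measurable_const) ?_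
    intro n ω
    rw [abs_mul]
    exact mul_le_mul (hsH ω a n) (hg _) (abs_nonneg _) (by norm_num)
  have w4 : ∀ᵐ ω ∂μ, (fun N => ∑ n ∈ range N, el n *
      (rr R n ω - lam μ ℱ R n ω)) =o[atTop] (fun N : ℕ => ((N : ℝ) + 1) ^ (3 / 4 : ℝ)) := by
    refine slln34 hR (H := fun n _ => el n) (C := 1) (fun n => measurable_const) ?_
    intro n ω
    rw [el_abs]; exact el_le_one n
  have w5 : ∀ᵐ ω ∂μ, (fun N => ∑ n ∈ range N, el n ^ 2 *
      (rr R n ω - lam μ ℱ R n ω)) =o[atTop] (fun N : ℕ => ((N : ℝ) + 1) ^ (3 / 4 : ℝ)) := by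
    refine slln34 hR (H := fun n _ => el n ^ 2) (C := 1) (fun n => measurable_const) ?_
    intro n ω
    rw [abs_pow, el_abs]
    exact pow_le_one₀ (el_pos n).le (el_le_one n)
  have w6 : ∀ᵐ ω ∂μ, ∀ a : ℕ, (fun N => ∑ n ∈ range N, (Hb a n - sa (SS R ω) a n) *
      (rr R n ω - lam μ ℱ R n ω)) =o[atTop] (fun N : ℕ => ((N : ℝ) + 1) ^ (3 / 4 : ℝ)) := by
    rw [ae_all_iff]; intro a
    refine slln34 hR (H := fun n ω => Hb a n - sa (SS R ω) a n) (C := 1)
      (fun n => measurable_const.sub (sa_meas hR a n)) ?_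
    intro n ω
    exact hsH ω a n
  filter_upwards [hall, hint, w1, w2, w3, w4, w5, w6] with ω h0 hω h1 h2 h3 h4 h5 h6
  have hpert : (fun n => lam μ ℱ R n ω - v (n + 1) * el n) =o[atTop] fun n => el n ^ 2 := by
    refine norm_compare hv.hv0 hC ?_
    refine hω.congr fun n => ?_
    rw [h0 n]
  -- combine
  have key : ∀ (H : ℕ → ℝ) (B : ℝ), (∀ n, |H n| ≤ B) →
      (fun N => ∑ n ∈ range N, H n * (rr R n ω - lam μ ℱ R n ω)) =o[atTop]
        (fun N : ℕ => ((N : ℝ) + 1) ^ (3 / 4 : ℝ)) →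
      (fun N => ∑ n ∈ range N, H n * (rS (SS R ω) n - v (n + 1) * el n)) =o[atTop] S2 := by
    intro H B hB hH
    have hp : (fun N => ∑ n ∈ range N, H n * (lam μ ℱ R n ω - v (n + 1) * el n)) =o[atTop] S2 := by
      refine sum_little ?_
      have hb : H =O[atTop] (fun _ => (1 : ℝ)) := by
        refine IsBigO.of_bound B (Eventually.of_forall fun n => ?_)
        simpa using hB n
      refine (hb.mul_isLittleO hpert).congr_right fun n => one_mul _
    refine ((hH.trans pow_little_S2).add hp).congr_left fun N => ?_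
    rw [← sum_add_distrib]
    refine sum_congr rfl fun n _ => ?_
    rw [rS_eq]; ring
  have hHab1 : ∀ a b n, |Hab (SS R ω) a b n| ≤ 1 := by
    intro a b n; unfold Hab; split_ifs <;> simp
  have hHb1 : ∀ b n, |Hb b n| ≤ 1 := by
    intro b n; unfold Hb; split_ifs <;> simp
  exact
    { toVDat := hv
      hS := fun n hn => hodd n ω hn
      m1 := fun a b => key _ 1 (hHab1 a b) (h1 a b)
      m2 := fun b => key _ 1 (hHb1 b) (h2 b)
      m3 := fun a => key _ (1 * C') (fun n => by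
        rw [abs_mul]
        exact mul_le_mul (hsH ω a n) (hg _) (abs_nonneg _) (by norm_num)) (h3 a)
      m4 := key _ 1 (fun n => by rw [el_abs]; exact el_le_one n) h4
      m5 := key _ 1 (fun n => by
        rw [abs_pow, el_abs]
        exact pow_le_one₀ (el_pos n).le (el_le_one n)) h5
      m6 := fun a => key _ 1 (fun n => hsH ω a n) (h6 a) }

/-- passage to real `x` -/
lemma real_x {D : ℕ → ℝ} {L : ℝ} (h : Tendsto (fun N => D N / el N) atTop (𝓝 L)) :
    Tendsto (fun x : ℝ => Real.log x ^ 2 * D ⌊x⌋₊) atTop (𝓝 L) := by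
  have h1 := h.comp (tendsto_nat_floor_atTop (α := ℝ))
  -- log x / log (⌊x⌋ + 3) → 1
  have h2 : Tendsto (fun x : ℝ => Real.log ((⌊x⌋₊ : ℝ) + 3) / Real.log x) atTop (𝓝 1) := by
    have h3 : Tendsto (fun x : ℝ => 1 + Real.log 4 / Real.log x) atTop (𝓝 1) := by
      have := (Real.tendsto_log_atTop.const_div_atTop (Real.log 4)).const_add 1
      simpa using this
    refine tendsto_of_tendsto_of_tendsto_of_le_of_le' tendsto_const_nhds h3 ?_ ?_
    · filter_upwards [eventually_gt_atTop 1] with x hx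
      have hl : 0 < Real.log x := Real.log_pos hx
      rw [one_le_div hl]
      apply Real.log_le_log (by linarith)
      have := Nat.lt_floor_add_one x
      linarith
    · filter_upwards [eventually_gt_atTop 1] with x hx
      have hl : 0 < Real.log x := Real.log_pos hx
      have e : 1 + Real.log 4 / Real.log x = Real.log (x * 4) / Real.log x := by
        rw [Real.log_mul (by linarith) (by norm_num)]
        field_simp
      rw [e]
      apply div_le_div_of_nonneg_right _ hl.le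
      apply Real.log_le_log (by positivity)
      have := Nat.floor_le (show 0 ≤ x by linarith)
      linarith
  have h4 := (h2.inv₀ one_ne_zero).pow 2
  have h5 := h4.mul h1
  rw [inv_one, one_pow, one_mul] at h5
  refine h5.congr' ?_
  filter_upwards [eventually_gt_atTop 1] with x hx
  have hl : 0 < Real.log x := Real.log_pos hx
  have hl3 := log_gt ⌊x⌋₊
  simp only [Function.comp]
  unfold el
  field_simp

end Pool.Agent.Helper88.Bias
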