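import Mathlib

/-!
Deterministic estimates for the probability of a long gap.
-/

open Filter Finset
open scoped Topology

namespace Pool.Agent.Helper88.CN

/-- one term -/
lemma term {L g w B q ε lam : ℝ} (hL : 1 ≤ L) (hg : L ≤ g) (hg2 : g ≤ L + 1 / L) (hw : 0 ≤ w)
    (hwB : w ≤ B) (hε : 0 ≤ ε) (hε1 : ε ≤ 1)
    (hlam : |lam - w * (1 / g + q / g ^ 2)| ≤ ε * w / g ^ 2) (h0 : 0 ≤ lam) (h1 : lam ≤ 1 / 2) :
    |-Real.log (1 - lam) - (w / L + q * w / L ^ 2 + w ^ 2 / (2 * L ^ 2))| ≤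
      ε * w / L ^ 2 + (B + 2 * |q| * B + B * (|q| + 2) * (B + B * (|q| + 2)) +
        2 * (B + B * (|q| + 2)) ^ 3) / L ^ 3 := by
  have hL0 : 0 < L := by linarith
  have hg0 : 0 < g := by linarith
  have hB : 0 ≤ B := hw.trans hwB
  have hq := abs_nonneg q
  set D : ℝ := B * (|q| + 2) with hD
  have hD0 : 0 ≤ D := by positivity
  have hgL2 : L ^ 2 ≤ g ^ 2 := by gcongr
  have hgL : L * L ≤ g * L := by gcongr
  -- `1/L - 1/g`
  have d1 : |w / g - w / L| ≤ B / L ^ 3 := by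
    have e : w / g - w / L = -(w * (g - L) / (g * L)) := by field_simp; ring
    rw [e, abs_neg, abs_of_nonneg (by have : 0 ≤ g - L := by linarith
                                      positivity)]
    have h2 : g - L ≤ 1 / L := by linarith
    calc w * (g - L) / (g * L) ≤ B * (1 / L) / (L * L) := by
          have : 0 ≤ g - L := by linarith
          gcongr
      _ = B / L ^ 3 := by field_simp
  have d2 : |q * w / g ^ 2 - q * w / L ^ 2| ≤ 2 * |q| * B / L ^ 3 := by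
    have e : q * w / g ^ 2 - q * w / L ^ 2 = -(q * w * ((g - L) * (g + L)) / (g ^ 2 * L ^ 2)) := by
      field_simp; ring
    rw [e, abs_neg, abs_div, abs_mul, abs_mul, abs_of_nonneg hw,
      abs_of_nonneg (show 0 ≤ (g - L) * (g + L) by
        have : 0 ≤ g - L := by linarith
        positivity), abs_of_pos (by positivity : 0 < g ^ 2 * L ^ 2)]
    rw [div_le_div_iff₀ (by positivity) (by positivity)]
    have h2 : g - L ≤ 1 / L := by linarith
    have h3 : (g - L) * L ≤ 1 := by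
      rw [← le_div_iff₀ hL0]; exact h2
    have h4 : (g - L) * (g + L) * L ≤ 2 * g := by
      have h5 : 0 ≤ (g - L) * L := by
        have : 0 ≤ g - L := by linarith
        positivity
      nlinarith
    have h6 : (g - L) * (g + L) * L ^ 3 ≤ 2 * (g ^ 2 * L ^ 2) := by
      have h7 : (g - L) * (g + L) * L ^ 3 = (g - L) * (g + L) * L * L ^ 2 := by ring
      rw [h7]
      calc (g - L) * (g + L) * L * L ^ 2 ≤ 2 * g * L ^ 2 := by gcongr
        _ ≤ 2 * (g ^ 2 * L ^ 2) := by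
            have : g ≤ g ^ 2 := by nlinarith
            have h8 : g * L ^ 2 ≤ g ^ 2 * L ^ 2 := by gcongr
            linarith
    calc |q| * w * ((g - L) * (g + L)) * L ^ 3 = |q| * w * ((g - L) * (g + L) * L ^ 3) := by ring
      _ ≤ |q| * B * (2 * (g ^ 2 * L ^ 2)) := by
          have h9 : 0 ≤ (g - L) * (g + L) * L ^ 3 := by
            have : 0 ≤ g - L := by linarith
            positivity
          gcongr
      _ = 2 * |q| * B * (g ^ 2 * L ^ 2) := by ring
  have d3 : ε * w / g ^ 2 ≤ ε * w / L ^ 2 := by gcongr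
  have hL12 : 1 / L ^ 3 ≤ 1 / L ^ 2 := by
    apply one_div_le_one_div_of_le (by positivity)
    exact pow_le_pow_right₀ hL (by norm_num)
  -- `η`
  have hη : |lam - w / L| ≤ D / L ^ 2 := by
    have e : lam - w / L = (lam - w * (1 / g + q / g ^ 2)) + (w / g - w / L) + q * w / g ^ 2 := by
      field_simp; ring
    rw [e]
    have h3 : |q * w / g ^ 2| ≤ |q| * B / L ^ 2 := by
      rw [abs_div, abs_mul, abs_of_nonneg hw, abs_of_pos (by positivity : 0 < g ^ 2)]
      gcongr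
    have h4 : ε * w / L ^ 2 ≤ B / L ^ 2 := by
      have : ε * w ≤ 1 * B := by gcongr
      rw [one_mul] at this
      gcongr
    have h5 : B / L ^ 3 ≤ B / L ^ 2 := by
      have := mul_le_mul_of_nonneg_left hL12 hB
      rwa [mul_one_div, mul_one_div] at this
    calc _ ≤ |lam - w * (1 / g + q / g ^ 2)| + |w / g - w / L| + |q * w / g ^ 2| :=
          (abs_add_le _ _).trans (add_le_add (abs_add_le _ _) le_rfl)
      _ ≤ B / L ^ 2 + B / L ^ 2 + |q| * B / L ^ 2 := by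
          have := hlam.trans (d3.trans h4)
          have := d1.trans h5
          gcongr
      _ = D / L ^ 2 := by rw [hD]; ring
  have hwL : w / L ≤ B / L := by gcongr
  have hlamB : lam ≤ (B + D) / L := by
    have h3 : D / L ^ 2 ≤ D / L := by
      apply div_le_div_of_nonneg_left hD0 hL0
      nlinarith
    have h4 := (abs_le.mp hη).2
    rw [add_div]
    linarith
  have d4 : |lam ^ 2 / 2 - w ^ 2 / (2 * L ^ 2)| ≤ D * (B + D) / L ^ 3 := by
    have e : lam ^ 2 / 2 - w ^ 2 / (2 * L ^ 2) = (lam - w / L) * ((lam + w / L) / 2) := by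
      field_simp; ring
    have h5 : 0 ≤ w / L := by positivity
    rw [e, abs_mul, abs_of_nonneg (show 0 ≤ (lam + w / L) / 2 by linarith)]
    have h6 : (lam + w / L) / 2 ≤ (B + D) / L := by
      have : w / L ≤ (B + D) / L := hwL.trans (by gcongr; linarith)
      linarith
    calc |lam - w / L| * ((lam + w / L) / 2) ≤ D / L ^ 2 * ((B + D) / L) := by
          have : 0 ≤ (lam + w / L) / 2 := by linarith
          gcongr
      _ = D * (B + D) / L ^ 3 := by field_simp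
  have d5 : |-Real.log (1 - lam) - (lam + lam ^ 2 / 2)| ≤ 2 * (B + D) ^ 3 / L ^ 3 := by
    have h2 := Real.abs_log_sub_add_sum_range_le (x := lam) (by rw [abs_of_nonneg h0]; linarith) 2
    rw [abs_of_nonneg h0] at h2
    simp only [sum_range_succ, sum_range_zero, zero_add, Nat.cast_zero, Nat.cast_one,
      pow_one] at h2
    have e : -Real.log (1 - lam) - (lam + lam ^ 2 / 2) =
        -(lam / 1 + lam ^ (1 + 1) / (1 + 1) + Real.log (1 - lam)) := by ring
    rw [e, abs_neg]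
    refine h2.trans ?_
    have h3 : lam ^ (2 + 1) / (1 - lam) ≤ 2 * lam ^ 3 := by
      rw [div_le_iff₀ (by linarith)]
      have : 0 ≤ lam ^ 3 := by positivity
      norm_num
      nlinarith
    refine h3.trans ?_
    have h4 : lam ^ 3 ≤ ((B + D) / L) ^ 3 := by gcongr
    rw [div_pow] at h4
    rw [mul_div_assoc]
    linarith
  -- assemble
  have e : -Real.log (1 - lam) - (w / L + q * w / L ^ 2 + w ^ 2 / (2 * L ^ 2)) =
      (-Real.log (1 - lam) - (lam + lam ^ 2 / 2)) + (lam ^ 2 / 2 - w ^ 2 / (2 * L ^ 2)) +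
      (lam - w * (1 / g + q / g ^ 2)) + (w / g - w / L) + (q * w / g ^ 2 - q * w / L ^ 2) := by
    field_simp; ring
  rw [e]
  calc _ ≤ |-Real.log (1 - lam) - (lam + lam ^ 2 / 2)| + |lam ^ 2 / 2 - w ^ 2 / (2 * L ^ 2)| +
        |lam - w * (1 / g + q / g ^ 2)| + |w / g - w / L| + |q * w / g ^ 2 - q * w / L ^ 2| := by
        refine (abs_add_le _ _).trans (add_le_add ?_ le_rfl)
        refine (abs_add_le _ _).trans (add_le_add ?_ le_rfl)
        refine (abs_add_le _ _).trans (add_le_add ?_ le_rfl)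
        exact abs_add_le _ _
    _ ≤ 2 * (B + D) ^ 3 / L ^ 3 + D * (B + D) / L ^ 3 + ε * w / L ^ 2 + B / L ^ 3 +
        2 * |q| * B / L ^ 3 := by
        have := hlam.trans d3
        gcongr
    _ = _ := by ring

/-- the total error in a window -/
lemma window {W v q ε C : ℝ} {w : ℕ → ℝ} (hw : ∀ n, 0 ≤ w n)
    (hW : ∀ n k : ℕ, |∑ i ∈ range k, w (n + i + 1) - k| ≤ W)
    (hV : ∀ n k : ℕ, |∑ i ∈ range k, w (n + i + 1) ^ 2 - v * k| ≤ W)
    (hε : 0 ≤ ε) (hε1 : ε ≤ 1) {n k : ℕ} {t L : ℝ} (hLn : L = Real.log ((n : ℝ) + 1)) (hL : 1 ≤ L)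
    (ht : 0 ≤ t) (hk : k = ⌈t⌉₊) (htC : t ≤ C * L ^ 2)
    (hbig : L * (C * L ^ 2 + 1) ≤ (n : ℝ) + 1)
    {lam : ℕ → ℝ} (hlam : ∀ i < k, |lam i - w (n + 1 + i + 1) *
      (1 / Real.log ((n + 1 + i + 1 : ℕ) : ℝ) + q / Real.log ((n + 1 + i + 1 : ℕ) : ℝ) ^ 2)| ≤
        ε * w (n + 1 + i + 1) / Real.log ((n + 1 + i + 1 : ℕ) : ℝ) ^ 2)
    (h0 : ∀ i < k, 0 ≤ lam i) (h1 : ∀ i < k, lam i ≤ 1 / 2) :
    |∑ i ∈ range k, -Real.log (1 - lam i) - (t / L + (q + v / 2) * t / L ^ 2)| ≤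
      ε * C + (ε * (W + 1) / L ^ 2 +
        ((W + 1) + 2 * |q| * (W + 1) + (W + 1) * (|q| + 2) * ((W + 1) + (W + 1) * (|q| + 2)) +
        2 * ((W + 1) + (W + 1) * (|q| + 2)) ^ 3) * (C * L ^ 2 + 1) / L ^ 3 +
        (W + 1) / L + (|q| * W + W / 2 + |q + v / 2|) / L ^ 2) := by
  set K : ℝ := (W + 1) + 2 * |q| * (W + 1) + (W + 1) * (|q| + 2) * ((W + 1) + (W + 1) * (|q| + 2)) +
        2 * ((W + 1) + (W + 1) * (|q| + 2)) ^ 3 with hK
  have hW0 : 0 ≤ W := (abs_nonneg _).trans (hW 0 0)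
  have hL0 : 0 < L := by linarith
  have hK0 : 0 ≤ K := by have := abs_nonneg q; positivity
  have hwW : ∀ m : ℕ, w (m + 1) ≤ W + 1 := by
    intro m
    have h2 := (abs_le.mp (hW m 1)).2
    simp only [range_one, sum_singleton, add_zero, Nat.cast_one] at h2
    linarith
  have hk1 : (k : ℝ) < t + 1 := by rw [hk]; exact Nat.ceil_lt_add_one ht
  have hk2 : t ≤ k := by rw [hk]; exact Nat.le_ceil t
  have hkC : (k : ℝ) ≤ C * L ^ 2 + 1 := by linarith
  have hn1 : (0 : ℝ) < (n : ℝ) + 1 := by positivity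
  -- the logarithms in the window
  have hlog : ∀ i < k, L ≤ Real.log ((n + 1 + i + 1 : ℕ) : ℝ) ∧
      Real.log ((n + 1 + i + 1 : ℕ) : ℝ) ≤ L + 1 / L := by
    intro i hi
    have hik : ((i : ℝ) + 1) ≤ k := by exact_mod_cast hi
    constructor
    · rw [hLn]
      apply Real.log_le_log hn1
      push_cast
      have : (0 : ℝ) ≤ i := Nat.cast_nonneg i
      linarith
    · have e : ((n + 1 + i + 1 : ℕ) : ℝ) = ((n : ℝ) + 1) * (1 + ((i : ℝ) + 1) / ((n : ℝ) + 1)) := by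
        push_cast; field_simp; ring
      rw [e, Real.log_mul hn1.ne' (by positivity), ← hLn]
      have h3 : Real.log (1 + ((i : ℝ) + 1) / ((n : ℝ) + 1)) ≤ ((i : ℝ) + 1) / ((n : ℝ) + 1) := by
        have := Real.log_le_sub_one_of_pos (show 0 < 1 + ((i : ℝ) + 1) / ((n : ℝ) + 1) by positivity)
        linarith
      have h4 : ((i : ℝ) + 1) / ((n : ℝ) + 1) ≤ 1 / L := by
        rw [div_le_div_iff₀ hn1 hL0, one_mul]
        calc ((i : ℝ) + 1) * L ≤ (C * L ^ 2 + 1) * L := by gcongr; linarith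
          _ = L * (C * L ^ 2 + 1) := by ring
          _ ≤ (n : ℝ) + 1 := hbig
      linarith
  have hterm : ∀ i ∈ range k, |-Real.log (1 - lam i) - (w (n + 1 + i + 1) / L +
      q * w (n + 1 + i + 1) / L ^ 2 + w (n + 1 + i + 1) ^ 2 / (2 * L ^ 2))| ≤
      ε * w (n + 1 + i + 1) / L ^ 2 + K / L ^ 3 := by
    intro i hi
    rw [mem_range] at hi
    exact term hL (hlog i hi).1 (hlog i hi).2 (hw _) (hwW _) hε hε1 (hlam i hi) (h0 i hi) (h1 i hi)
  have hsum : |∑ i ∈ range k, -Real.log (1 - lam i) - ∑ i ∈ range k, (w (n + 1 + i + 1) / L +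
      q * w (n + 1 + i + 1) / L ^ 2 + w (n + 1 + i + 1) ^ 2 / (2 * L ^ 2))| ≤
      ∑ i ∈ range k, (ε * w (n + 1 + i + 1) / L ^ 2 + K / L ^ 3) := by
    rw [← sum_sub_distrib]
    exact (abs_sum_le_sum_abs _ _).trans (sum_le_sum hterm)
  set S1 : ℝ := ∑ i ∈ range k, w (n + 1 + i + 1) with hS1
  set S2 : ℝ := ∑ i ∈ range k, w (n + 1 + i + 1) ^ 2 with hS2
  have e1 : ∑ i ∈ range k, (w (n + 1 + i + 1) / L +
      q * w (n + 1 + i + 1) / L ^ 2 + w (n + 1 + i + 1) ^ 2 / (2 * L ^ 2)) =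
      S1 / L + q * S1 / L ^ 2 + S2 / (2 * L ^ 2) := by
    rw [sum_add_distrib, sum_add_distrib, ← sum_div, ← sum_div, ← sum_div, ← mul_sum]
  have e2 : ∑ i ∈ range k, (ε * w (n + 1 + i + 1) / L ^ 2 + K / L ^ 3) =
      ε * S1 / L ^ 2 + k * (K / L ^ 3) := by
    rw [sum_add_distrib, ← sum_div, ← mul_sum, sum_const, card_range, nsmul_eq_mul]
  rw [e1, e2] at hsum
  have b1 := hW (n + 1) k
  have b2 := hV (n + 1) k
  rw [← hS1] at b1
  rw [← hS2] at b2
  -- main terms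
  have m1 : |S1 / L + q * S1 / L ^ 2 + S2 / (2 * L ^ 2) -
      (k / L + q * k / L ^ 2 + v * k / (2 * L ^ 2))| ≤ W / L + |q| * W / L ^ 2 + W / (2 * L ^ 2) := by
    have e : S1 / L + q * S1 / L ^ 2 + S2 / (2 * L ^ 2) -
      (k / L + q * k / L ^ 2 + v * k / (2 * L ^ 2)) =
      (S1 - k) / L + q * (S1 - k) / L ^ 2 + (S2 - v * k) / (2 * L ^ 2) := by ring
    rw [e]
    refine (abs_add_le _ _).trans (add_le_add ((abs_add_le _ _).trans (add_le_add ?_ ?_)) ?_)
    · rw [abs_div, abs_of_pos hL0]; gcongr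
    · rw [abs_div, abs_mul, abs_of_pos (by positivity : 0 < L ^ 2)]; gcongr
    · rw [abs_div, abs_of_pos (by positivity : 0 < 2 * L ^ 2)]; gcongr
  have m2 : |k / L + q * k / L ^ 2 + v * k / (2 * L ^ 2) - (t / L + (q + v / 2) * t / L ^ 2)| ≤
      1 / L + |q + v / 2| / L ^ 2 := by
    have e : k / L + q * k / L ^ 2 + v * k / (2 * L ^ 2) - (t / L + (q + v / 2) * t / L ^ 2) =
        ((k : ℝ) - t) / L + (q + v / 2) * ((k : ℝ) - t) / L ^ 2 := by
      field_simp; ring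
    rw [e]
    have hkt : |(k : ℝ) - t| ≤ 1 := by rw [abs_le]; constructor <;> linarith
    refine (abs_add_le _ _).trans (add_le_add ?_ ?_)
    · rw [abs_div, abs_of_pos hL0]; gcongr
    · rw [abs_div, abs_mul, abs_of_pos (by positivity : 0 < L ^ 2)]
      have : |q + v / 2| * |(k : ℝ) - t| ≤ |q + v / 2| * 1 := by gcongr
      rw [mul_one] at this
      gcongr
  have hS1k : S1 ≤ C * L ^ 2 + 1 + W := by have := (abs_le.mp b1).2; linarith
  have m3 : ε * S1 / L ^ 2 + k * (K / L ^ 3) ≤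
      ε * C + (ε * (W + 1) / L ^ 2 + K * (C * L ^ 2 + 1) / L ^ 3) := by
    have h3 : ε * S1 / L ^ 2 ≤ ε * (C * L ^ 2 + 1 + W) / L ^ 2 := by gcongr
    have h4 : ε * (C * L ^ 2 + 1 + W) / L ^ 2 = ε * C + ε * (W + 1) / L ^ 2 := by
      field_simp; ring
    have h5 : k * (K / L ^ 3) ≤ (C * L ^ 2 + 1) * (K / L ^ 3) := by gcongr
    have h6 : (C * L ^ 2 + 1) * (K / L ^ 3) = K * (C * L ^ 2 + 1) / L ^ 3 := by ring
    linarith
  have hfin : |∑ i ∈ range k, -Real.log (1 - lam i) - (t / L + (q + v / 2) * t / L ^ 2)| ≤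
      (ε * S1 / L ^ 2 + k * (K / L ^ 3)) + (W / L + |q| * W / L ^ 2 + W / (2 * L ^ 2)) +
        (1 / L + |q + v / 2| / L ^ 2) := by
    have e : ∑ i ∈ range k, -Real.log (1 - lam i) - (t / L + (q + v / 2) * t / L ^ 2) =
        (∑ i ∈ range k, -Real.log (1 - lam i) - (S1 / L + q * S1 / L ^ 2 + S2 / (2 * L ^ 2))) +
        (S1 / L + q * S1 / L ^ 2 + S2 / (2 * L ^ 2) -
          (k / L + q * k / L ^ 2 + v * k / (2 * L ^ 2))) +
        (k / L + q * k / L ^ 2 + v * k / (2 * L ^ 2) - (t / L + (q + v / 2) * t / L ^ 2)) := by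
      ring
    rw [e]
    exact (abs_add_le _ _).trans (add_le_add ((abs_add_le _ _).trans (add_le_add hsum m1)) m2)
  refine hfin.trans ?_
  have e3 : (W / L + |q| * W / L ^ 2 + W / (2 * L ^ 2)) + (1 / L + |q + v / 2| / L ^ 2) =
      (W + 1) / L + (|q| * W + W / 2 + |q + v / 2|) / L ^ 2 := by
    field_simp; ring
  linarith

/-- `log` of naturals tends to infinity -/
lemma logn : Tendsto (fun n : ℕ => Real.log ((n : ℝ) + 1)) atTop atTop :=
  Real.tendsto_log_atTop.comp (tendsto_atTop_add_const_right _ _ tendsto_natCast_atTop_atTop)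

/-- the error terms are eventually small -/
lemma errs (W v q ε C δ : ℝ) (hδ : 0 < δ) : ∀ᶠ n : ℕ in atTop,
    (ε * (W + 1) / Real.log ((n : ℝ) + 1) ^ 2 +
        ((W + 1) + 2 * |q| * (W + 1) + (W + 1) * (|q| + 2) * ((W + 1) + (W + 1) * (|q| + 2)) +
        2 * ((W + 1) + (W + 1) * (|q| + 2)) ^ 3) * (C * Real.log ((n : ℝ) + 1) ^ 2 + 1) /
          Real.log ((n : ℝ) + 1) ^ 3 +
        (W + 1) / Real.log ((n : ℝ) + 1) +
        (|q| * W + W / 2 + |q + v / 2|) / Real.log ((n : ℝ) + 1) ^ 2) ≤ δ := by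
  set K : ℝ := (W + 1) + 2 * |q| * (W + 1) + (W + 1) * (|q| + 2) * ((W + 1) + (W + 1) * (|q| + 2)) +
        2 * ((W + 1) + (W + 1) * (|q| + 2)) ^ 3 with hK
  have h1 : Tendsto (fun x : ℝ => ε * (W + 1) / x ^ 2 + K * (C * x ^ 2 + 1) / x ^ 3 + (W + 1) / x +
      (|q| * W + W / 2 + |q + v / 2|) / x ^ 2) atTop (𝓝 (0 + 0 + 0 + 0)) := by
    have p1 : Tendsto (fun x : ℝ => x ^ 2) atTop atTop := tendsto_pow_atTop (by norm_num)
    have p3 : Tendsto (fun x : ℝ => x ^ 3) atTop atTop := tendsto_pow_atTop (by norm_num)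
    refine ((?_ : Tendsto _ _ _).add ?_ |>.add ?_).add ?_
    · exact tendsto_const_nhds.div_atTop p1
    · have e : ∀ᶠ x : ℝ in atTop, K * C / x + K / x ^ 3 = K * (C * x ^ 2 + 1) / x ^ 3 := by
        filter_upwards [eventually_gt_atTop 0] with x hx
        field_simp
      have h2 : Tendsto (fun x : ℝ => K * C / x + K / x ^ 3) atTop (𝓝 (0 + 0)) :=
        (tendsto_const_nhds.div_atTop tendsto_id).add (tendsto_const_nhds.div_atTop p3)
      rw [add_zero] at h2
      exact h2.congr' e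
    · exact tendsto_const_nhds.div_atTop tendsto_id
    · exact tendsto_const_nhds.div_atTop p1
  simp only [add_zero] at h1
  exact (h1.comp logn).eventually (eventually_le_nhds hδ)

/-- the polylogarithmic quantity is eventually small -/
lemma big (C : ℝ) : ∀ᶠ n : ℕ in atTop,
    Real.log ((n : ℝ) + 1) * (C * Real.log ((n : ℝ) + 1) ^ 2 + 1) ≤ (n : ℝ) + 1 := by
  have h1 : ∀ᶠ x : ℝ in atTop, Real.log x * (C * Real.log x ^ 2 + 1) ≤ x := by
    have e1 : (fun x : ℝ => Real.log x ^ (3 : ℝ)) =o[atTop] fun x => x ^ (1 : ℝ) :=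
      isLittleO_log_rpow_rpow_atTop 3 (by norm_num)
    have e2 : ∀ᶠ x : ℝ in atTop, ‖Real.log x ^ (3 : ℝ)‖ ≤ 1 / (|C| + 1) * ‖x ^ (1 : ℝ)‖ :=
      e1.def (by positivity)
    filter_upwards [e2, eventually_ge_atTop (Real.exp 1)] with x h2 h3
    have hx : 0 < x := lt_of_lt_of_le (Real.exp_pos 1) h3
    have hl : 1 ≤ Real.log x := by
      rw [← Real.log_exp 1]
      exact Real.log_le_log (Real.exp_pos 1) h3
    rw [Real.rpow_one, Real.norm_eq_abs, Real.norm_eq_abs, abs_of_pos hx,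
      abs_of_nonneg (by positivity : 0 ≤ Real.log x ^ (3 : ℝ))] at h2
    have e3 : Real.log x ^ (3 : ℝ) = Real.log x ^ 3 := by
      rw [← Real.rpow_natCast]; norm_num
    rw [e3] at h2
    have h4 : (|C| + 1) * Real.log x ^ 3 ≤ x := by
      have := mul_le_mul_of_nonneg_left h2 (by positivity : 0 ≤ |C| + 1)
      have e4 : (|C| + 1) * (1 / (|C| + 1) * x) = x := by field_simp
      linarith
    have h5 : C * Real.log x ^ 3 ≤ |C| * Real.log x ^ 3 :=
      mul_le_mul_of_nonneg_right (le_abs_self C) (by positivity)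
    have h6 : Real.log x ≤ Real.log x ^ 3 := by
      calc Real.log x = Real.log x ^ 1 := (pow_one _).symm
        _ ≤ Real.log x ^ 3 := pow_le_pow_right₀ hl (by norm_num)
    calc Real.log x * (C * Real.log x ^ 2 + 1) = C * Real.log x ^ 3 + Real.log x := by ring
      _ ≤ |C| * Real.log x ^ 3 + Real.log x ^ 3 := by linarith
      _ = (|C| + 1) * Real.log x ^ 3 := by ring
      _ ≤ x := h4
  exact (tendsto_atTop_add_const_right _ _ tendsto_natCast_atTop_atTop).eventually h1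

end Pool.Agent.Helper88.CN
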