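import Mathlib
import Pool.Agent.Helper88.Lln

/-!
Tilting of adapted random sets: exponential martingales, second moment under the tilt, and a
Borel-Cantelli argument.
-/

open MeasureTheory ProbabilityTheory Filter Finset
open scoped Topology

set_option linter.unusedSectionVars false

namespace Pool.Agent.Helper88.ER

open Pool.Agent.Helper88.Lln

variable {Ω : Type*} [mΩ : MeasurableSpace Ω] {μ : Measure Ω} {ℱ : Filtration ℕ mΩ}
  {R : ℕ → Set Ω}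

/-- bounded and measurable for `m` -/
def MB (m : MeasurableSpace Ω) (f : Ω → ℝ) : Prop := Measurable[m] f ∧ ∃ C, ∀ ω, |f ω| ≤ C

section MB

variable {m m' : MeasurableSpace Ω} {f g : Ω → ℝ}

lemma MB.const (c : ℝ) : MB m (fun _ => c) := ⟨measurable_const, |c|, fun _ => le_rfl⟩

lemma MB.add (hf : MB m f) (hg : MB m g) : MB m (fun ω => f ω + g ω) := by
  obtain ⟨h1, C, hC⟩ := hf
  obtain ⟨h2, D, hD⟩ := hg
  exact ⟨h1.add h2, C + D, fun ω => (abs_add_le _ _).trans (add_le_add (hC ω) (hD ω))⟩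

lemma MB.sub (hf : MB m f) (hg : MB m g) : MB m (fun ω => f ω - g ω) := by
  obtain ⟨h1, C, hC⟩ := hf
  obtain ⟨h2, D, hD⟩ := hg
  exact ⟨h1.sub h2, C + D, fun ω => (abs_sub _ _).trans (add_le_add (hC ω) (hD ω))⟩

lemma MB.mul (hf : MB m f) (hg : MB m g) : MB m (fun ω => f ω * g ω) := by
  obtain ⟨h1, C, hC⟩ := hf
  obtain ⟨h2, D, hD⟩ := hg
  refine ⟨h1.mul h2, C * D, fun ω => ?_⟩
  rw [abs_mul]
  exact mul_le_mul (hC ω) (hD ω) (abs_nonneg _) ((abs_nonneg _).trans (hC ω))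

lemma MB.mono (h : m ≤ m') (hf : MB m f) : MB m' f := ⟨hf.1.mono h le_rfl, hf.2⟩

lemma MB.sum {ι : Type*} (s : Finset ι) {F : ι → Ω → ℝ} (hF : ∀ i ∈ s, MB m (F i)) :
    MB m (fun ω => ∑ i ∈ s, F i ω) := by
  classical
  induction s using Finset.induction_on with
  | empty => simpa using MB.const 0
  | insert a s ha ih =>
    simp only [Finset.sum_insert ha]
    exact (hF a (Finset.mem_insert_self _ _)).add
      (ih fun i hi => hF i (Finset.mem_insert_of_mem hi))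

lemma MB.prod {ι : Type*} (s : Finset ι) {F : ι → Ω → ℝ} (hF : ∀ i ∈ s, MB m (F i)) :
    MB m (fun ω => ∏ i ∈ s, F i ω) := by
  classical
  induction s using Finset.induction_on with
  | empty => simpa using MB.const 1
  | insert a s ha ih =>
    simp only [Finset.prod_insert ha]
    exact (hF a (Finset.mem_insert_self _ _)).mul
      (ih fun i hi => hF i (Finset.mem_insert_of_mem hi))

/-- division by a function bounded below -/
lemma MB.div (hf : MB m f) (hg : MB m g) {δ : ℝ} (hδ : 0 < δ) (h : ∀ ω, δ ≤ g ω) :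
    MB m (fun ω => f ω / g ω) := by
  obtain ⟨h1, C, hC⟩ := hf
  refine ⟨h1.div hg.1, C / δ, fun ω => ?_⟩
  have h2 := h ω
  rw [abs_div, abs_of_pos (lt_of_lt_of_le hδ h2)]
  exact div_le_div₀ ((abs_nonneg _).trans (hC ω)) (hC ω) hδ h2

lemma MB.indicator (hf : MB m f) {s : Set Ω} [DecidablePred (· ∈ s)] (hs : MeasurableSet[m] s) :
    MB m (fun ω => if ω ∈ s then f ω else 0) := by
  obtain ⟨h1, C, hC⟩ := hf
  refine ⟨Measurable.ite hs h1 measurable_const, C, fun ω => ?_⟩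
  change |if ω ∈ s then f ω else 0| ≤ C
  split_ifs
  · exact hC ω
  · simpa using (abs_nonneg _).trans (hC ω)

end MB

lemma MB.integrable [IsProbabilityMeasure μ] {m : MeasurableSpace Ω} (hm : m ≤ mΩ) {f : Ω → ℝ}
    (hf : MB m f) : Integrable f μ := by
  obtain ⟨h1, C, hC⟩ := hf
  exact @bdd_int Ω mΩ μ _ f (h1.mono hm le_rfl) C hC

lemma lam_MB (n : ℕ) : MB (ℱ n) (lam μ ℱ R n) :=
  ⟨lam_meas ℱ R n, 1, fun ω => by
    rw [abs_of_nonneg (lam_nonneg ℱ R n ω)]; exact lam_le_one ℱ R n ω⟩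

lemma rr_MB (hR : ∀ n, MeasurableSet[ℱ n] (R n)) (n : ℕ) : MB (ℱ (n + 1)) (rr R n) :=
  ⟨rr_meas hR n, 1, fun ω => by rw [abs_of_nonneg (rr_nonneg R n ω)]; exact rr_le_one R n ω⟩

lemma key [IsProbabilityMeasure μ] (hR : ∀ n, MeasurableSet[ℱ n] (R n)) (n : ℕ) {f g : Ω → ℝ}
    (hf : MB (ℱ n) f) (hg : MB (ℱ n) g) :
    ∫ ω, (f ω + g ω * rr R n ω) ∂μ = ∫ ω, (f ω + g ω * lam μ ℱ R n ω) ∂μ := by
  have hi := hf.integrable (μ := μ) (ℱ.le n)
  have h1 : Integrable (fun ω => g ω * rr R n ω) μ :=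
    ((hg.mono (ℱ.mono (Nat.le_succ n))).mul (rr_MB hR n)).integrable (ℱ.le _)
  have h2 : Integrable (fun ω => g ω * lam μ ℱ R n ω) μ := (hg.mul (lam_MB n)).integrable (ℱ.le _)
  rw [integral_add hi h1, integral_add hi h2]
  obtain ⟨hg1, C, hC⟩ := hg
  rw [keyK hR n hg1 hC]

/-- tilt data: `c n` is `ℱ n`-measurable with values in `[-κ, C]`, `κ < 1`. -/
structure Tilt (ℱ : Filtration ℕ mΩ) (c : ℕ → Ω → ℝ) (κ C : ℝ) : Prop where
  meas : ∀ n, Measurable[ℱ n] (c n)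
  lo : ∀ n ω, -κ ≤ c n ω
  hi : ∀ n ω, c n ω ≤ C
  hκ : κ < 1
  hκ0 : 0 ≤ κ

/-- the tilted intensity -/
noncomputable def lc (μ : Measure Ω) (ℱ : Filtration ℕ mΩ) (R : ℕ → Set Ω) (c : ℕ → Ω → ℝ)
    (n : ℕ) (ω : Ω) : ℝ :=
  (1 + c n ω) * lam μ ℱ R n ω / (1 + c n ω * lam μ ℱ R n ω)

/-- the density of the tilt -/
noncomputable def DD (μ : Measure Ω) (ℱ : Filtration ℕ mΩ) (R : ℕ → Set Ω) (c : ℕ → Ω → ℝ)
    (a N : ℕ) (ω : Ω) : ℝ :=
  ∏ n ∈ range N, ((1 + c (a + n) ω * rr R (a + n) ω) / (1 + c (a + n) ω * lam μ ℱ R (a + n) ω))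

section tilt

variable {c : ℕ → Ω → ℝ} {κ C : ℝ}

lemma Tilt.MB (hc : Tilt ℱ c κ C) (n : ℕ) : MB (ℱ n) (c n) := by
  refine ⟨hc.meas n, max κ C, fun ω => ?_⟩
  rw [abs_le]
  have h1 := hc.lo n ω
  have h2 := hc.hi n ω
  have h3 := le_max_left κ C
  have h4 := le_max_right κ C
  constructor <;> linarith

lemma Tilt.den_ge (hc : Tilt ℱ c κ C) (n : ℕ) (ω : Ω) {t : ℝ} (ht0 : 0 ≤ t) (ht1 : t ≤ 1) :
    1 - κ ≤ 1 + c n ω * t := by
  have h1 := hc.lo n ω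
  have h2 := hc.hκ0
  nlinarith

lemma Tilt.den_pos (hc : Tilt ℱ c κ C) (n : ℕ) (ω : Ω) : 0 < 1 + c n ω * lam μ ℱ R n ω := by
  have h1 := hc.den_ge n ω (lam_nonneg (μ := μ) ℱ R n ω) (lam_le_one ℱ R n ω)
  have h2 := hc.hκ
  linarith

lemma Tilt.num_pos (hc : Tilt ℱ c κ C) (n : ℕ) (ω : Ω) : 0 < 1 + c n ω * rr R n ω := by
  have h1 := hc.den_ge n ω (rr_nonneg R n ω) (rr_le_one R n ω)
  have h2 := hc.hκ
  linarith

lemma Tilt.den_MB (hc : Tilt ℱ c κ C) (n : ℕ) :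
    ER.MB (ℱ n) (fun ω => 1 + c n ω * lam μ ℱ R n ω) :=
  (MB.const 1).add ((hc.MB n).mul (lam_MB n))

lemma Tilt.lc_MB (hc : Tilt ℱ c κ C) (n : ℕ) : ER.MB (ℱ n) (lc μ ℱ R c n) := by
  have hκ := hc.hκ
  exact (((MB.const 1).add (hc.MB n)).mul (lam_MB n)).div (hc.den_MB n)
    (δ := 1 - κ) (by linarith)
    fun ω => hc.den_ge n ω (lam_nonneg (μ := μ) ℱ R n ω) (lam_le_one ℱ R n ω)

lemma DD_pos (hc : Tilt ℱ c κ C) (a N : ℕ) (ω : Ω) : 0 < DD μ ℱ R c a N ω :=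
  prod_pos fun n _ => div_pos (hc.num_pos (a + n) ω) (hc.den_pos (a + n) ω)

lemma DD_MB (hR : ∀ n, MeasurableSet[ℱ n] (R n)) (hc : Tilt ℱ c κ C) (a N : ℕ) :
    ER.MB (ℱ (a + N)) (DD μ ℱ R c a N) := by
  have hκ := hc.hκ
  refine MB.prod _ fun n hn => ?_
  rw [mem_range] at hn
  have h1 : ER.MB (ℱ (a + N)) (fun ω => 1 + c (a + n) ω * rr R (a + n) ω) :=
    (MB.const 1).add (((hc.MB (a + n)).mono (ℱ.mono (by omega))).mul
      ((rr_MB hR (a + n)).mono (ℱ.mono (by omega))))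
  have h2 : ER.MB (ℱ (a + N)) (fun ω => 1 + c (a + n) ω * lam μ ℱ R (a + n) ω) :=
    (hc.den_MB (a + n)).mono (ℱ.mono (by omega))
  exact h1.div h2 (δ := 1 - κ) (by linarith)
    fun ω => hc.den_ge (a + n) ω (lam_nonneg (μ := μ) ℱ R _ ω) (lam_le_one ℱ R _ ω)

/-- one step of the tilt -/
lemma step [IsProbabilityMeasure μ] (hR : ∀ n, MeasurableSet[ℱ n] (R n)) (hc : Tilt ℱ c κ C)
    (a N : ℕ) {F₀ F₁ : Ω → ℝ} (h0 : ER.MB (ℱ (a + N)) F₀) (h1 : ER.MB (ℱ (a + N)) F₁) :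
    ∫ ω, DD μ ℱ R c a (N + 1) ω * (F₀ ω + F₁ ω * rr R (a + N) ω) ∂μ =
      ∫ ω, DD μ ℱ R c a N ω * (F₀ ω + F₁ ω * lc μ ℱ R c (a + N) ω) ∂μ := by
  have hκ := hc.hκ
  set ψ : Ω → ℝ := fun ω => DD μ ℱ R c a N ω / (1 + c (a + N) ω * lam μ ℱ R (a + N) ω) with hψ
  have hψM : ER.MB (ℱ (a + N)) ψ := (DD_MB hR hc a N).div (hc.den_MB (a + N))
    (δ := 1 - κ) (by linarith)
    fun ω => hc.den_ge (a + N) ω (lam_nonneg (μ := μ) ℱ R _ ω) (lam_le_one ℱ R _ ω)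
  have hf : ER.MB (ℱ (a + N)) (fun ω => ψ ω * F₀ ω) := hψM.mul h0
  have hg : ER.MB (ℱ (a + N)) (fun ω => ψ ω * (c (a + N) ω * F₀ ω + (1 + c (a + N) ω) * F₁ ω)) :=
    hψM.mul (((hc.MB _).mul h0).add (((MB.const 1).add (hc.MB _)).mul h1))
  have e := key (μ := μ) hR (a + N) hf hg
  have e1 : ∀ ω, DD μ ℱ R c a (N + 1) ω * (F₀ ω + F₁ ω * rr R (a + N) ω) =
      ψ ω * F₀ ω + ψ ω * (c (a + N) ω * F₀ ω + (1 + c (a + N) ω) * F₁ ω) * rr R (a + N) ω := by
    intro ω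
    have hd := (hc.den_pos (μ := μ) (R := R) (a + N) ω).ne'
    have hs := rr_sq R (a + N) ω
    simp only [hψ]
    unfold DD
    rw [prod_range_succ]
    field_simp
    linear_combination (∏ n ∈ range N, ((1 + c (a + n) ω * rr R (a + n) ω) /
      (1 + c (a + n) ω * lam μ ℱ R (a + n) ω))) * c (a + N) ω * F₁ ω * hs
  have e2 : ∀ ω, DD μ ℱ R c a N ω * (F₀ ω + F₁ ω * lc μ ℱ R c (a + N) ω) =
      ψ ω * F₀ ω + ψ ω * (c (a + N) ω * F₀ ω + (1 + c (a + N) ω) * F₁ ω) *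
        lam μ ℱ R (a + N) ω := by
    intro ω
    have hd := (hc.den_pos (μ := μ) (R := R) (a + N) ω).ne'
    simp only [hψ]
    unfold lc
    field_simp
    ring
  simp_rw [e1, e2]
  exact e

/-- the tilt is a change of measure -/
lemma tilt_one [IsProbabilityMeasure μ] (hR : ∀ n, MeasurableSet[ℱ n] (R n)) (hc : Tilt ℱ c κ C)
    {a : ℕ} {φ : Ω → ℝ} (hφ : ER.MB (ℱ a) φ) (N : ℕ) :
    ∫ ω, DD μ ℱ R c a N ω * φ ω ∂μ = ∫ ω, φ ω ∂μ := by
  induction N with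
  | zero => simp [DD]
  | succ N ih =>
    have h := step (μ := μ) hR hc a N (F₀ := φ) (F₁ := fun _ => 0)
      (hφ.mono (ℱ.mono (by omega))) (MB.const 0)
    simp only [zero_mul, add_zero] at h
    rw [h, ih]

/-- tilted martingale -/
noncomputable def SM (μ : Measure Ω) (ℱ : Filtration ℕ mΩ) (R : ℕ → Set Ω) (c u : ℕ → Ω → ℝ)
    (a N : ℕ) (ω : Ω) : ℝ :=
  ∑ n ∈ range N, u (a + n) ω * (rr R (a + n) ω - lc μ ℱ R c (a + n) ω)

/-- its bracket -/
noncomputable def QM (μ : Measure Ω) (ℱ : Filtration ℕ mΩ) (R : ℕ → Set Ω) (c u : ℕ → Ω → ℝ)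
    (a N : ℕ) (ω : Ω) : ℝ :=
  ∑ n ∈ range N, u (a + n) ω ^ 2 * lc μ ℱ R c (a + n) ω

lemma lc_nonneg (hc : Tilt ℱ c κ C) (n : ℕ) (ω : Ω) : 0 ≤ lc μ ℱ R c n ω := by
  have h1 := hc.den_pos (μ := μ) (R := R) n ω
  have h2 := lam_nonneg (μ := μ) ℱ R n ω
  have h3 := hc.lo n ω
  have h4 := hc.hκ
  unfold lc
  apply div_nonneg (mul_nonneg (by linarith) h2) h1.le

lemma SM_MB (hR : ∀ n, MeasurableSet[ℱ n] (R n)) (hc : Tilt ℱ c κ C) {u : ℕ → Ω → ℝ}
    (hu : ∀ n, ER.MB (ℱ n) (u n)) (a N : ℕ) : ER.MB (ℱ (a + N)) (SM μ ℱ R c u a N) := by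
  refine MB.sum _ fun n hn => ?_
  rw [mem_range] at hn
  exact ((hu _).mono (ℱ.mono (by omega))).mul
    (((rr_MB hR (a + n)).mono (ℱ.mono (by omega))).sub ((hc.lc_MB _).mono (ℱ.mono (by omega))))

lemma QM_MB (hc : Tilt ℱ c κ C) {u : ℕ → Ω → ℝ}
    (hu : ∀ n, ER.MB (ℱ n) (u n)) (a N : ℕ) : ER.MB (ℱ (a + N)) (QM μ ℱ R c u a N) := by
  refine MB.sum _ fun n hn => ?_
  rw [mem_range] at hn
  have h : ER.MB (ℱ (a + N)) (fun ω => u (a + n) ω * u (a + n) ω) :=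
    ((hu _).mono (ℱ.mono (by omega))).mul ((hu _).mono (ℱ.mono (by omega)))
  have h2 := h.mul ((hc.lc_MB (μ := μ) (R := R) (a + n)).mono (ℱ.mono (by omega : a + n ≤ a + N)))
  have e : (fun ω => u (a + n) ω ^ 2 * lc μ ℱ R c (a + n) ω) =
      (fun ω => u (a + n) ω * u (a + n) ω * lc μ ℱ R c (a + n) ω) := by
    ext ω; ring
  rw [e]
  exact h2

/-- second moment under the tilt -/
lemma tilt_var [IsProbabilityMeasure μ] (hR : ∀ n, MeasurableSet[ℱ n] (R n)) (hc : Tilt ℱ c κ C)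
    {u : ℕ → Ω → ℝ} (hu : ∀ n, ER.MB (ℱ n) (u n)) {a : ℕ} {φ : Ω → ℝ} (hφ : ER.MB (ℱ a) φ)
    (hφ0 : ∀ ω, 0 ≤ φ ω) (N : ℕ) :
    ∫ ω, DD μ ℱ R c a N ω * (φ ω * (SM μ ℱ R c u a N ω ^ 2 - QM μ ℱ R c u a N ω)) ∂μ ≤ 0 := by
  induction N with
  | zero => simp [SM, QM]
  | succ N ih =>
    have hφN : ER.MB (ℱ (a + N)) φ := hφ.mono (ℱ.mono (by omega))
    have hS := SM_MB (μ := μ) hR hc hu a N
    have hQ := QM_MB (μ := μ) (R := R) hc hu a N
    have hl := hc.lc_MB (μ := μ) (R := R) (a + N)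
    have huN := hu (a + N)
    set S := SM μ ℱ R c u a N with hSdef
    set Q := QM μ ℱ R c u a N with hQdef
    set l := lc μ ℱ R c (a + N) with hldef
    set v := u (a + N) with hvdef
    set F₀ : Ω → ℝ := fun ω => φ ω * (S ω * S ω - Q ω - 2 * (S ω * v ω * l ω) +
      v ω * v ω * (l ω * l ω) - v ω * v ω * l ω) with hF₀
    set F₁ : Ω → ℝ := fun ω => φ ω * (2 * (S ω * v ω) + v ω * v ω * (1 - 2 * l ω)) with hF₁
    have h0 : ER.MB (ℱ (a + N)) F₀ :=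
      hφN.mul (((((hS.mul hS).sub hQ).sub ((MB.const 2).mul ((hS.mul huN).mul hl))).add
        ((huN.mul huN).mul (hl.mul hl))).sub ((huN.mul huN).mul hl))
    have h1 : ER.MB (ℱ (a + N)) F₁ :=
      hφN.mul (((MB.const 2).mul (hS.mul huN)).add
        ((huN.mul huN).mul ((MB.const 1).sub ((MB.const 2).mul hl))))
    have h := step (μ := μ) hR hc a N h0 h1
    have e1 : ∀ ω, DD μ ℱ R c a (N + 1) ω *
        (φ ω * (SM μ ℱ R c u a (N + 1) ω ^ 2 - QM μ ℱ R c u a (N + 1) ω)) =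
        DD μ ℱ R c a (N + 1) ω * (F₀ ω + F₁ ω * rr R (a + N) ω) := by
      intro ω
      have hs := rr_sq R (a + N) ω
      have hS1 : SM μ ℱ R c u a (N + 1) ω = S ω + v ω * (rr R (a + N) ω - l ω) := by
        simp only [hSdef, SM, sum_range_succ, hvdef, hldef]
      have hQ1 : QM μ ℱ R c u a (N + 1) ω = Q ω + v ω ^ 2 * l ω := by
        simp only [hQdef, QM, sum_range_succ, hvdef, hldef]
      rw [hS1, hQ1]
      simp only [hF₀, hF₁]
      linear_combination DD μ ℱ R c a (N + 1) ω * φ ω * v ω ^ 2 * hs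
    simp_rw [e1]
    rw [h]
    refine le_trans ?_ ih
    refine integral_mono ?_ ?_ fun ω => ?_
    · exact ((DD_MB (μ := μ) hR hc a N).mul (h0.add (h1.mul hl))).integrable (ℱ.le _)
    · have hSS : ER.MB (ℱ (a + N)) (fun ω => S ω ^ 2 - Q ω) := by
        have := (hS.mul hS).sub hQ
        have e : (fun ω => S ω ^ 2 - Q ω) = (fun ω => S ω * S ω - Q ω) := by ext ω; ring
        rw [e]; exact this
      exact ((DD_MB (μ := μ) hR hc a N).mul (hφN.mul hSS)).integrable (ℱ.le _)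
    · have hD := DD_pos (μ := μ) (R := R) hc a N ω
      have hp := hφ0 ω
      refine mul_le_mul_of_nonneg_left ?_ hD.le
      simp only [hF₀, hF₁]
      have e : φ ω * (S ω * S ω - Q ω - 2 * (S ω * v ω * l ω) + v ω * v ω * (l ω * l ω) -
          v ω * v ω * l ω) + φ ω * (2 * (S ω * v ω) + v ω * v ω * (1 - 2 * l ω)) * l ω =
          φ ω * (S ω ^ 2 - Q ω) - φ ω * (v ω * l ω) ^ 2 := by ring
      rw [e]
      have : 0 ≤ φ ω * (v ω * l ω) ^ 2 := mul_nonneg hp (sq_nonneg _)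
      linarith

/-- Lower bound for the (conditional) probability of the tilted concentration event. -/
theorem lower [IsProbabilityMeasure μ] (hR : ∀ n, MeasurableSet[ℱ n] (R n)) (hc : Tilt ℱ c κ C)
    {j : ℕ} {u : ℕ → ℕ → Ω → ℝ} (hu : ∀ i n, ER.MB (ℱ n) (u i n)) {a N : ℕ} {φ : Ω → ℝ}
    (hφ : ER.MB (ℱ a) φ) (hφ0 : ∀ ω, 0 ≤ φ ω) {B ρ M : ℝ} (hρ : 0 < ρ) (hM : 0 < M)
    (hB : ∀ i < j, ∀ ω, QM μ ℱ R c (u i) a N ω ≤ B) (G : Set Ω) [DecidablePred (· ∈ G)]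
    (hG : G = {ω | ∀ i < j, |SM μ ℱ R c (u i) a N ω| ≤ ρ})
    (hD : ∀ ω ∈ G, DD μ ℱ R c a N ω ≤ M) :
    (1 - j * B / ρ ^ 2) / M * ∫ ω, φ ω ∂μ ≤ ∫ ω, (if ω ∈ G then φ ω else 0) ∂μ := by
  have hφN : ER.MB (ℱ (a + N)) φ := hφ.mono (ℱ.mono (by omega))
  have hDM := DD_MB (μ := μ) hR hc a N
  have hGm : MeasurableSet[ℱ (a + N)] G := by
    rw [hG]
    have : {ω | ∀ i < j, |SM μ ℱ R c (u i) a N ω| ≤ ρ} =
        ⋂ i ∈ range j, {ω | |SM μ ℱ R c (u i) a N ω| ≤ ρ} := by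
      ext ω; simp
    rw [this]
    refine Finset.measurableSet_biInter _ fun i _ => ?_
    have h1 := (SM_MB (μ := μ) hR hc (hu i) a N).1 (measurableSet_Icc (a := -ρ) (b := ρ))
    convert h1 using 1
    ext ω
    simp [abs_le]
  have hSS : ∀ i, ER.MB (ℱ (a + N)) (fun ω => SM μ ℱ R c (u i) a N ω ^ 2) := by
    intro i
    have hS := SM_MB (μ := μ) hR hc (hu i) a N
    have e : (fun ω => SM μ ℱ R c (u i) a N ω ^ 2) =
      (fun ω => SM μ ℱ R c (u i) a N ω * SM μ ℱ R c (u i) a N ω) := by ext ω; ring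
    rw [e]; exact hS.mul hS
  -- pointwise inequality
  have hpt : ∀ ω, (1 / M) * (DD μ ℱ R c a N ω * φ ω -
      (1 / ρ ^ 2) * ∑ i ∈ range j, DD μ ℱ R c a N ω * (φ ω * SM μ ℱ R c (u i) a N ω ^ 2)) ≤
      if ω ∈ G then φ ω else 0 := by
    intro ω
    have hDp := DD_pos (μ := μ) (R := R) hc a N ω
    have hp := hφ0 ω
    have hsum0 : 0 ≤ ∑ i ∈ range j, DD μ ℱ R c a N ω * (φ ω * SM μ ℱ R c (u i) a N ω ^ 2) :=
      sum_nonneg fun i _ => by positivity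
    by_cases hω : ω ∈ G
    · rw [if_pos hω]
      have h1 := hD ω hω
      have h2 : (1 / M) * (DD μ ℱ R c a N ω * φ ω) ≤ φ ω := by
        rw [one_div, inv_mul_le_iff₀ hM]
        exact mul_le_mul_of_nonneg_right h1 hp
      have h3 : 0 ≤ (1 / M) * ((1 / ρ ^ 2) * ∑ i ∈ range j, DD μ ℱ R c a N ω *
          (φ ω * SM μ ℱ R c (u i) a N ω ^ 2)) := by positivity
      rw [mul_sub]
      linarith
    · rw [if_neg hω]
      have hex : ∃ i < j, ρ < |SM μ ℱ R c (u i) a N ω| := by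
        by_contra hcon
        push Not at hcon
        apply hω
        rw [hG]
        exact hcon
      obtain ⟨i, hi, hSi⟩ := hex
      have h1 : ρ ^ 2 ≤ SM μ ℱ R c (u i) a N ω ^ 2 := by
        rw [← sq_abs (SM μ ℱ R c (u i) a N ω)]
        exact pow_le_pow_left₀ hρ.le hSi.le 2
      have h2 : DD μ ℱ R c a N ω * (φ ω * ρ ^ 2) ≤
          ∑ i ∈ range j, DD μ ℱ R c a N ω * (φ ω * SM μ ℱ R c (u i) a N ω ^ 2) := by
        refine le_trans ?_ (single_le_sum (f := fun i => DD μ ℱ R c a N ω *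
          (φ ω * SM μ ℱ R c (u i) a N ω ^ 2)) (fun i _ => by positivity) (mem_range.mpr hi))
        gcongr
      have h3 : DD μ ℱ R c a N ω * φ ω - (1 / ρ ^ 2) * ∑ i ∈ range j, DD μ ℱ R c a N ω *
          (φ ω * SM μ ℱ R c (u i) a N ω ^ 2) ≤ 0 := by
        have h4 : DD μ ℱ R c a N ω * φ ω = (1 / ρ ^ 2) * (DD μ ℱ R c a N ω * (φ ω * ρ ^ 2)) := by
          field_simp
        rw [h4, ← mul_sub]
        exact mul_nonpos_of_nonneg_of_nonpos (by positivity) (by linarith)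
      exact mul_nonpos_of_nonneg_of_nonpos (by positivity) h3
  have hint1 : Integrable (fun ω => DD μ ℱ R c a N ω * φ ω) μ := (hDM.mul hφN).integrable (ℱ.le _)
  have hint2 : ∀ i, Integrable (fun ω => DD μ ℱ R c a N ω *
      (φ ω * SM μ ℱ R c (u i) a N ω ^ 2)) μ := fun i =>
    (hDM.mul (hφN.mul (hSS i))).integrable (ℱ.le _)
  have hint3 : Integrable (fun ω => if ω ∈ G then φ ω else 0) μ :=
    (hφN.indicator hGm).integrable (ℱ.le _)
  have hint4 : Integrable (fun ω => (1 / M) * (DD μ ℱ R c a N ω * φ ω - (1 / ρ ^ 2) *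
      ∑ i ∈ range j, DD μ ℱ R c a N ω * (φ ω * SM μ ℱ R c (u i) a N ω ^ 2))) μ :=
    (hint1.sub ((integrable_finsetSum _ fun i _ => hint2 i).const_mul (1 / ρ ^ 2))).const_mul (1 / M)
  have hmono := integral_mono hint4 hint3 hpt
  refine le_trans ?_ hmono
  have e1 : ∫ ω, (1 / M) * (DD μ ℱ R c a N ω * φ ω - (1 / ρ ^ 2) * ∑ i ∈ range j,
      DD μ ℱ R c a N ω * (φ ω * SM μ ℱ R c (u i) a N ω ^ 2)) ∂μ =
      (1 / M) * (∫ ω, φ ω ∂μ - (1 / ρ ^ 2) * ∑ i ∈ range j, ∫ ω, DD μ ℱ R c a N ω *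
      (φ ω * SM μ ℱ R c (u i) a N ω ^ 2) ∂μ) := by
    rw [integral_const_mul, integral_sub hint1 ((integrable_finsetSum _ fun i _ =>
      hint2 i).const_mul _), integral_const_mul, integral_finsetSum _ fun i _ => hint2 i,
      tilt_one hR hc hφ N]
  have e2 : ∀ i ∈ range j, ∫ ω, DD μ ℱ R c a N ω * (φ ω * SM μ ℱ R c (u i) a N ω ^ 2) ∂μ ≤
      B * ∫ ω, φ ω ∂μ := by
    intro i hi
    rw [mem_range] at hi
    have h1 := tilt_var (μ := μ) hR hc (hu i) hφ hφ0 N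
    have hQ := QM_MB (μ := μ) (R := R) hc (hu i) a N
    have hintQ : Integrable (fun ω => DD μ ℱ R c a N ω * (φ ω * QM μ ℱ R c (u i) a N ω)) μ :=
      (hDM.mul (hφN.mul hQ)).integrable (ℱ.le _)
    have h2 : ∫ ω, DD μ ℱ R c a N ω * (φ ω * SM μ ℱ R c (u i) a N ω ^ 2) ∂μ ≤
        ∫ ω, DD μ ℱ R c a N ω * (φ ω * QM μ ℱ R c (u i) a N ω) ∂μ := by
      have h3 : ∫ ω, DD μ ℱ R c a N ω * (φ ω * (SM μ ℱ R c (u i) a N ω ^ 2 -
          QM μ ℱ R c (u i) a N ω)) ∂μ =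
          ∫ ω, DD μ ℱ R c a N ω * (φ ω * SM μ ℱ R c (u i) a N ω ^ 2) ∂μ -
          ∫ ω, DD μ ℱ R c a N ω * (φ ω * QM μ ℱ R c (u i) a N ω) ∂μ := by
        rw [← integral_sub (hint2 i) hintQ]
        congr 1
        ext ω
        ring
      rw [h3] at h1
      linarith
    refine h2.trans ?_
    have h4 : ∫ ω, DD μ ℱ R c a N ω * (φ ω * QM μ ℱ R c (u i) a N ω) ∂μ ≤
        ∫ ω, B * (DD μ ℱ R c a N ω * φ ω) ∂μ := by
      refine integral_mono hintQ (hint1.const_mul B) fun ω => ?_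
      have hDp := DD_pos (μ := μ) (R := R) hc a N ω
      have hp := hφ0 ω
      have := hB i hi ω
      calc DD μ ℱ R c a N ω * (φ ω * QM μ ℱ R c (u i) a N ω)
          ≤ DD μ ℱ R c a N ω * (φ ω * B) := by gcongr
        _ = B * (DD μ ℱ R c a N ω * φ ω) := by ring
    rw [integral_const_mul, tilt_one hR hc hφ N] at h4
    exact h4
  rw [e1]
  have h5 : ∑ i ∈ range j, ∫ ω, DD μ ℱ R c a N ω * (φ ω * SM μ ℱ R c (u i) a N ω ^ 2) ∂μ ≤
      j * (B * ∫ ω, φ ω ∂μ) := by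
    refine (sum_le_sum e2).trans (le_of_eq ?_)
    rw [sum_const, card_range, nsmul_eq_mul]
  calc (1 - j * B / ρ ^ 2) / M * ∫ ω, φ ω ∂μ
      = (1 / M) * (∫ ω, φ ω ∂μ - (1 / ρ ^ 2) * (j * (B * ∫ ω, φ ω ∂μ))) := by
        field_simp
    _ ≤ _ := by gcongr

end tilt

/-- Borel-Cantelli for events with conditional probability bounded below. -/
theorem bc [IsProbabilityMeasure μ] {x : ℕ → ℕ} {k₀ : ℕ} {G : ℕ → Set Ω}
    (hx : ∀ k, k₀ ≤ k → x k ≤ x (k + 1)) (hG : ∀ k, k₀ ≤ k → MeasurableSet[ℱ (x (k + 1))] (G k))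
    {p : ℕ → ℝ} (hp : ∀ k, k₀ ≤ k → ∀ φ : Ω → ℝ, MB (ℱ (x k)) φ → (∀ ω, 0 ≤ φ ω) →
      p k * ∫ ω, φ ω ∂μ ≤ ∫ ω, (G k).indicator φ ω ∂μ)
    (hdiv : Tendsto (fun N => ∑ k ∈ range N, p (k₀ + k)) atTop atTop) :
    ∀ᵐ ω ∂μ, ∃ᶠ k in atTop, ω ∈ G k := by
  classical
  -- avoiding all events from `K` on has probability `0`
  have hall : ∀ K, k₀ ≤ K → μ {ω | ∀ k, K ≤ k → ω ∉ G k} = 0 := by
    intro K hK
    have hind : ∀ M, MB (ℱ (x (K + M))) (fun ω => if ∀ i < M, ω ∉ G (K + i) then (1 : ℝ) else 0) ∧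
        ∫ ω, (if ∀ i < M, ω ∉ G (K + i) then (1 : ℝ) else 0) ∂μ ≤
          Real.exp (-∑ i ∈ range M, p (K + i)) := by
      intro M
      induction M with
      | zero =>
        constructor
        · simpa using MB.const 1
        · simp
      | succ M ih =>
        obtain ⟨ih1, ih2⟩ := ih
        set φ : Ω → ℝ := fun ω => if ∀ i < M, ω ∉ G (K + i) then (1 : ℝ) else 0 with hφ
        have hφ0 : ∀ ω, 0 ≤ φ ω := by intro ω; simp only [hφ]; split_ifs <;> norm_num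
        have hGm := hG (K + M) (by omega)
        have e : (fun ω => if ∀ i < M + 1, ω ∉ G (K + i) then (1 : ℝ) else 0) =
            fun ω => φ ω - (if ω ∈ G (K + M) then φ ω else 0) := by
          ext ω
          by_cases h1 : ∀ i < M, ω ∉ G (K + i)
          · by_cases h2 : ω ∈ G (K + M)
            · rw [if_neg (fun h => h M (Nat.lt_succ_self M) h2), if_pos h2, sub_self]
            · rw [if_pos, if_neg h2, sub_zero]
              · simp only [hφ]; rw [if_pos h1]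
              · intro i hi
                rcases Nat.lt_succ_iff_lt_or_eq.mp hi with h | h
                · exact h1 i h
                · subst h; exact h2
          · have h3 : φ ω = 0 := by simp only [hφ]; rw [if_neg h1]
            rw [if_neg (fun h => h1 fun i hi => h i (by omega)), h3]; simp
        have hm1 : MB (ℱ (x (K + (M + 1)))) φ :=
          ih1.mono (ℱ.mono (by rw [← add_assoc]; exact hx (K + M) (by omega)))
        have hm2 : MB (ℱ (x (K + (M + 1)))) (fun ω => if ω ∈ G (K + M) then φ ω else 0) :=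
          hm1.indicator (by rw [← add_assoc]; exact hGm)
        constructor
        · rw [e]; exact hm1.sub hm2
        · rw [e, integral_sub (hm1.integrable (ℱ.le _)) (hm2.integrable (ℱ.le _))]
          have h1 := hp (K + M) (by omega) φ ih1 hφ0
          have h2 : ∫ ω, (G (K + M)).indicator φ ω ∂μ =
              ∫ ω, (if ω ∈ G (K + M) then φ ω else 0) ∂μ := by
            congr 1
          rw [h2] at h1
          rw [sum_range_succ, neg_add, Real.exp_add]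
          have h3 : 0 ≤ ∫ ω, φ ω ∂μ := integral_nonneg hφ0
          have h4 : 1 - p (K + M) ≤ Real.exp (-p (K + M)) := by
            have := Real.add_one_le_exp (-p (K + M))
            linarith
          calc ∫ ω, φ ω ∂μ - ∫ ω, (if ω ∈ G (K + M) then φ ω else 0) ∂μ
              ≤ (∫ ω, φ ω ∂μ) * (1 - p (K + M)) := by linarith
            _ ≤ (∫ ω, φ ω ∂μ) * Real.exp (-p (K + M)) := mul_le_mul_of_nonneg_left h4 h3
            _ ≤ _ := mul_le_mul_of_nonneg_right ih2 (Real.exp_pos _).le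
    -- limit
    have hsum : Tendsto (fun M => ∑ i ∈ range M, p (K + i)) atTop atTop := by
      obtain ⟨d, rfl⟩ : ∃ d, K = k₀ + d := ⟨K - k₀, by omega⟩
      have h1 := hdiv.comp (tendsto_add_atTop_nat d)
      have h2 : ∀ M, ∑ i ∈ range M, p (k₀ + d + i) = -(∑ k ∈ range d, p (k₀ + k)) +
          ∑ k ∈ range (M + d), p (k₀ + k) := by
        intro M
        rw [add_comm M d, sum_range_add]
        simp only [add_assoc, neg_add_cancel_left]
      simp_rw [h2]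
      exact tendsto_atTop_add_const_left _ _ h1
    have hlim : Tendsto (fun M => Real.exp (-∑ i ∈ range M, p (K + i))) atTop (𝓝 0) :=
      Real.tendsto_exp_neg_atTop_nhds_zero.comp hsum
    have hle : ∀ M, μ.real {ω | ∀ k, K ≤ k → ω ∉ G k} ≤ Real.exp (-∑ i ∈ range M, p (K + i)) := by
      intro M
      refine le_trans ?_ (hind M).2
      have hms : MeasurableSet {ω | ∀ i < M, ω ∉ G (K + i)} := by
        have h1 : {ω | ∀ i < M, ω ∉ G (K + i)} = ⋂ i ∈ range M, (G (K + i))ᶜ := by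
          ext ω; simp
        rw [h1]
        refine Finset.measurableSet_biInter _ fun i _ => ?_
        exact (ℱ.le _ _ (hG (K + i) (by omega))).compl
      have h2 : ∫ ω, (if ∀ i < M, ω ∉ G (K + i) then (1 : ℝ) else 0) ∂μ =
          μ.real {ω | ∀ i < M, ω ∉ G (K + i)} := by
        rw [← integral_indicator_one hms]
        refine integral_congr_ae (ae_of_all _ fun ω => ?_)
        by_cases h : ∀ i < M, ω ∉ G (K + i)
        · rw [Set.indicator_of_mem (show ω ∈ {ω | ∀ i < M, ω ∉ G (K + i)} from h)]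
          simp only [if_pos h, Pi.one_apply]
        · rw [Set.indicator_of_notMem (show ω ∉ {ω | ∀ i < M, ω ∉ G (K + i)} from h)]
          simp only [if_neg h]
      rw [h2]
      exact measureReal_mono fun ω hω i _ => hω (K + i) (by omega)
    have h0 : μ.real {ω | ∀ k, K ≤ k → ω ∉ G k} ≤ 0 := ge_of_tendsto' hlim hle
    have h1 : μ.real {ω | ∀ k, K ≤ k → ω ∉ G k} = 0 := le_antisymm h0 measureReal_nonneg
    rwa [measureReal_eq_zero_iff] at h1
  have hnull : μ (⋃ K, {ω | ∀ k, k₀ + K ≤ k → ω ∉ G k}) = 0 :=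
    measure_iUnion_null fun K => hall (k₀ + K) (by omega)
  rw [ae_iff]
  refine measure_mono_null ?_ hnull
  intro ω hω
  simp only [Set.mem_ofPred_eq, not_frequently, eventually_atTop] at hω
  obtain ⟨K, hK⟩ := hω
  refine Set.mem_iUnion.mpr ⟨K, fun k hk => hK k (by omega)⟩

end Pool.Agent.Helper88.ER
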