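import Mathlib
import Pool.Agent.Helper88.ErCore

/-!
Counting long gaps in adapted random sets: orthogonality of the normalised gap events, second
moments, and a strong law.
-/

open MeasureTheory ProbabilityTheory Filter Finset
open scoped Topology

set_option linter.unusedSectionVars false

namespace Pool.Agent.Helper88.CN

open Pool.Agent.Helper88.Lln
open Pool.Agent.Helper88.ER

variable {Ω : Type*} [mΩ : MeasurableSpace Ω] {μ : Measure Ω} {ℱ : Filtration ℕ mΩ}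
  {R : ℕ → Set Ω}

/-- activity indicators -/
structure Act (μ : Measure Ω) (ℱ : Filtration ℕ mΩ) (R : ℕ → Set Ω) (h : ℕ → Ω → ℝ) : Prop where
  mb : ∀ n, MB (ℱ n) (h n)
  val : ∀ n ω, h n ω = 0 ∨ h n ω = 1
  le : ∀ n ω, h n ω * lam μ ℱ R n ω ≤ 1 / 2

/-- normalised indicator of the event that nothing is chosen in a window -/
noncomputable def WD (μ : Measure Ω) (ℱ : Filtration ℕ mΩ) (R : ℕ → Set Ω) (h : ℕ → Ω → ℝ)
    (a N : ℕ) (ω : Ω) : ℝ :=
  ∏ n ∈ range N, ((1 - h (a + n) ω * rr R (a + n) ω) / (1 - h (a + n) ω * lam μ ℱ R (a + n) ω))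

section act

variable {h : ℕ → Ω → ℝ}

lemma Act.den (H : Act μ ℱ R h) (n : ℕ) (ω : Ω) : 1 / 2 ≤ 1 - h n ω * lam μ ℱ R n ω := by
  have := H.le n ω
  linarith

lemma Act.num (H : Act μ ℱ R h) (n : ℕ) (ω : Ω) : 0 ≤ 1 - h n ω * rr R n ω := by
  have h1 := rr_le_one R n ω
  have h2 := rr_nonneg R n ω
  rcases H.val n ω with h3 | h3 <;> rw [h3] <;> linarith

lemma Act.nonneg (H : Act μ ℱ R h) (n : ℕ) (ω : Ω) : 0 ≤ h n ω := by
  rcases H.val n ω with h3 | h3 <;> rw [h3] <;> norm_num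

lemma Act.den_MB (H : Act μ ℱ R h) (n : ℕ) :
    MB (ℱ n) (fun ω => 1 - h n ω * lam μ ℱ R n ω) :=
  (MB.const 1).sub ((H.mb n).mul (lam_MB n))

lemma WD_nonneg (H : Act μ ℱ R h) (a N : ℕ) (ω : Ω) : 0 ≤ WD μ ℱ R h a N ω := by
  refine prod_nonneg fun n _ => div_nonneg (H.num _ ω) ?_
  have := H.den (a + n) ω
  linarith

lemma WD_MB (hR : ∀ n, MeasurableSet[ℱ n] (R n)) (H : Act μ ℱ R h) (a N : ℕ) :
    MB (ℱ (a + N)) (WD μ ℱ R h a N) := by
  refine MB.prod _ fun n hn => ?_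
  rw [mem_range] at hn
  have h1 : MB (ℱ (a + N)) (fun ω => 1 - h (a + n) ω * rr R (a + n) ω) :=
    (MB.const 1).sub (((H.mb (a + n)).mono (ℱ.mono (by omega))).mul
      ((rr_MB hR (a + n)).mono (ℱ.mono (by omega))))
  have h2 : MB (ℱ (a + N)) (fun ω => 1 - h (a + n) ω * lam μ ℱ R (a + n) ω) :=
    (H.den_MB (a + n)).mono (ℱ.mono (by omega))
  exact h1.div h2 (δ := 1 / 2) (by norm_num) fun ω => H.den (a + n) ω

/-- mean one -/
lemma WD_one [IsProbabilityMeasure μ] (hR : ∀ n, MeasurableSet[ℱ n] (R n)) (H : Act μ ℱ R h)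
    {a : ℕ} {φ : Ω → ℝ} (hφ : MB (ℱ a) φ) (N : ℕ) :
    ∫ ω, φ ω * WD μ ℱ R h a N ω ∂μ = ∫ ω, φ ω ∂μ := by
  induction N with
  | zero => simp [WD]
  | succ N ih =>
    rw [← ih]
    set ψ : Ω → ℝ := fun ω => φ ω * WD μ ℱ R h a N ω /
      (1 - h (a + N) ω * lam μ ℱ R (a + N) ω) with hψ
    have hψM : MB (ℱ (a + N)) ψ :=
      ((hφ.mono (ℱ.mono (by omega))).mul (WD_MB hR H a N)).div (H.den_MB (a + N))
        (δ := 1 / 2) (by norm_num) fun ω => H.den (a + N) ω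
    have hg : MB (ℱ (a + N)) (fun ω => -(ψ ω * h (a + N) ω)) := by
      have := (MB.const (m := ℱ (a + N)) (-1)).mul (hψM.mul (H.mb (a + N)))
      simpa using this
    have e := key (μ := μ) hR (a + N) hψM hg
    have e1 : ∀ ω, φ ω * WD μ ℱ R h a (N + 1) ω =
        ψ ω + -(ψ ω * h (a + N) ω) * rr R (a + N) ω := by
      intro ω
      have hd := H.den (a + N) ω
      have hd' : 1 - h (a + N) ω * lam μ ℱ R (a + N) ω ≠ 0 := by linarith
      simp only [hψ]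
      unfold WD
      rw [prod_range_succ]
      field_simp
      ring
    have e2 : ∀ ω, φ ω * WD μ ℱ R h a N ω =
        ψ ω + -(ψ ω * h (a + N) ω) * lam μ ℱ R (a + N) ω := by
      intro ω
      have hd := H.den (a + N) ω
      have hd' : 1 - h (a + N) ω * lam μ ℱ R (a + N) ω ≠ 0 := by linarith
      simp only [hψ]
      field_simp
      ring
    simp_rw [e1, e2]
    exact e

/-- normalised gap event after the choice of `n + 1` -/
noncomputable def TT (μ : Measure Ω) (ℱ : Filtration ℕ mΩ) (R : ℕ → Set Ω) (h : ℕ → Ω → ℝ)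
    (k : ℕ → ℕ) (n : ℕ) (ω : Ω) : ℝ :=
  h n ω * rr R n ω * WD μ ℱ R h (n + 1) (k n) ω

variable {k : ℕ → ℕ}

lemma TT_nonneg (H : Act μ ℱ R h) (n : ℕ) (ω : Ω) : 0 ≤ TT μ ℱ R h k n ω :=
  mul_nonneg (mul_nonneg (H.nonneg n ω) (rr_nonneg R n ω)) (WD_nonneg H _ _ ω)

lemma TT_MB (hR : ∀ n, MeasurableSet[ℱ n] (R n)) (H : Act μ ℱ R h) (n : ℕ) :
    MB (ℱ (n + 1 + k n)) (TT μ ℱ R h k n) :=
  (((H.mb n).mono (ℱ.mono (by omega))).mul ((rr_MB hR n).mono (ℱ.mono (by omega)))).mul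
    (WD_MB hR H (n + 1) (k n))

lemma HL_MB (H : Act μ ℱ R h) (n : ℕ) : MB (ℱ n) (fun ω => h n ω * lam μ ℱ R n ω) :=
  (H.mb n).mul (lam_MB n)

lemma HL_nonneg (H : Act μ ℱ R h) (n : ℕ) (ω : Ω) : 0 ≤ h n ω * lam μ ℱ R n ω :=
  mul_nonneg (H.nonneg n ω) (lam_nonneg ℱ R n ω)

lemma TT_mean [IsProbabilityMeasure μ] (hR : ∀ n, MeasurableSet[ℱ n] (R n)) (H : Act μ ℱ R h)
    (n : ℕ) {φ : Ω → ℝ} (hφ : MB (ℱ n) φ) :
    ∫ ω, φ ω * TT μ ℱ R h k n ω ∂μ = ∫ ω, φ ω * (h n ω * lam μ ℱ R n ω) ∂μ := by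
  have h1 : MB (ℱ (n + 1)) (fun ω => φ ω * (h n ω * rr R n ω)) :=
    (hφ.mono (ℱ.mono (by omega))).mul (((H.mb n).mono (ℱ.mono (by omega))).mul (rr_MB hR n))
  have h2 := WD_one (μ := μ) hR H h1 (k n)
  have e1 : ∀ ω, φ ω * TT μ ℱ R h k n ω =
      φ ω * (h n ω * rr R n ω) * WD μ ℱ R h (n + 1) (k n) ω := by
    intro ω; unfold TT; ring
  simp_rw [e1]
  rw [h2]
  have h3 := key (μ := μ) hR n (MB.const 0) (hφ.mul (H.mb n))
  simp only [zero_add] at h3
  simp_rw [← mul_assoc]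
  exact h3

lemma int_mul [IsProbabilityMeasure μ] {f g : Ω → ℝ} (hf : MB mΩ f) (hg : MB mΩ g) :
    Integrable (fun ω => f ω * g ω) μ :=
  (hf.mul hg).integrable le_rfl

/-- the normalised gap events are non-positively correlated -/
lemma cross [IsProbabilityMeasure μ] (hR : ∀ n, MeasurableSet[ℱ n] (R n)) (H : Act μ ℱ R h)
    {n n' : ℕ} (hn : n < n') :
    ∫ ω, (TT μ ℱ R h k n ω - h n ω * lam μ ℱ R n ω) *
      (TT μ ℱ R h k n' ω - h n' ω * lam μ ℱ R n' ω) ∂μ ≤ 0 := by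
  have hT := TT_MB (μ := μ) (k := k) hR H n
  have hT' := TT_MB (μ := μ) (k := k) hR H n'
  have hL := HL_MB H n
  have hL' := HL_MB H n'
  have i1 := int_mul (μ := μ) (hT.mono (ℱ.le _)) (hT'.mono (ℱ.le _))
  have i2 := int_mul (μ := μ) (hT.mono (ℱ.le _)) (hL'.mono (ℱ.le _))
  have i3 := int_mul (μ := μ) (hL.mono (ℱ.le _)) (hT'.mono (ℱ.le _))
  have i4 := int_mul (μ := μ) (hL.mono (ℱ.le _)) (hL'.mono (ℱ.le _))
  have i12 : Integrable (fun ω => TT μ ℱ R h k n ω * TT μ ℱ R h k n' ω -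
      TT μ ℱ R h k n ω * (h n' ω * lam μ ℱ R n' ω)) μ := i1.sub i2
  have i34 : Integrable (fun ω => h n ω * lam μ ℱ R n ω * TT μ ℱ R h k n' ω -
      h n ω * lam μ ℱ R n ω * (h n' ω * lam μ ℱ R n' ω)) μ := i3.sub i4
  have e : ∀ ω, (TT μ ℱ R h k n ω - h n ω * lam μ ℱ R n ω) *
      (TT μ ℱ R h k n' ω - h n' ω * lam μ ℱ R n' ω) =
      (TT μ ℱ R h k n ω * TT μ ℱ R h k n' ω -
        TT μ ℱ R h k n ω * (h n' ω * lam μ ℱ R n' ω)) -
      (h n ω * lam μ ℱ R n ω * TT μ ℱ R h k n' ω -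
        h n ω * lam μ ℱ R n ω * (h n' ω * lam μ ℱ R n' ω)) := fun ω => by ring
  simp_rw [e]
  rw [integral_sub i12 i34, integral_sub i1 i2, integral_sub i3 i4,
    TT_mean hR H n' (hL.mono (ℱ.mono hn.le)), sub_self, sub_zero]
  rcases le_or_gt (n + 1 + k n) n' with hc | hc
  · rw [TT_mean hR H n' (hT.mono (ℱ.mono hc)), sub_self]
  · have h0 : ∀ ω, TT μ ℱ R h k n ω * TT μ ℱ R h k n' ω = 0 := by
      intro ω
      by_cases hz : h n' ω * rr R n' ω = 0
      · unfold TT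
        rw [hz]; ring
      · -- then the factor of index `n'` vanishes
        have hv : h n' ω * rr R n' ω = 1 := by
          rcases H.val n' ω with h1 | h1
          · rw [h1] at hz; simp at hz
          · rw [h1] at hz ⊢
            unfold rr at hz ⊢
            split_ifs at hz ⊢ with h2
            · norm_num
            · simp at hz
        have hw : WD μ ℱ R h (n + 1) (k n) ω = 0 := by
          unfold WD
          refine prod_eq_zero (i := n' - (n + 1)) (mem_range.mpr (by omega)) ?_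
          rw [show n + 1 + (n' - (n + 1)) = n' by omega, hv, sub_self, zero_div]
        unfold TT
        rw [hw]; ring
    simp_rw [h0]
    rw [integral_zero, zero_sub, neg_nonpos]
    exact integral_nonneg fun ω => mul_nonneg (TT_nonneg H n ω) (HL_nonneg H n' ω)

/-- second moment of one term -/
lemma diag [IsProbabilityMeasure μ] (hR : ∀ n, MeasurableSet[ℱ n] (R n)) (H : Act μ ℱ R h)
    {n : ℕ} {M : ℝ} (hM : ∀ ω, TT μ ℱ R h k n ω ≤ M) :
    ∫ ω, (TT μ ℱ R h k n ω - h n ω * lam μ ℱ R n ω) ^ 2 ∂μ ≤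
      M * ∫ ω, h n ω * lam μ ℱ R n ω ∂μ := by
  have hT := TT_MB (μ := μ) (k := k) hR H n
  have hL := HL_MB H n
  have i1 := int_mul (μ := μ) (hT.mono (ℱ.le _)) (hT.mono (ℱ.le _))
  have i2 := int_mul (μ := μ) (hL.mono (ℱ.le _)) (hT.mono (ℱ.le _))
  have i4 := int_mul (μ := μ) (hL.mono (ℱ.le _)) (hL.mono (ℱ.le _))
  have i12 : Integrable (fun ω => TT μ ℱ R h k n ω * TT μ ℱ R h k n ω -
      2 * (h n ω * lam μ ℱ R n ω * TT μ ℱ R h k n ω)) μ := i1.sub (i2.const_mul 2)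
  have e : ∀ ω, (TT μ ℱ R h k n ω - h n ω * lam μ ℱ R n ω) ^ 2 =
      TT μ ℱ R h k n ω * TT μ ℱ R h k n ω - 2 * (h n ω * lam μ ℱ R n ω * TT μ ℱ R h k n ω) +
        h n ω * lam μ ℱ R n ω * (h n ω * lam μ ℱ R n ω) := fun ω => by ring
  simp_rw [e]
  rw [integral_add i12 i4, integral_sub i1 (i2.const_mul 2),
    integral_const_mul, TT_mean hR H n hL]
  have h1 : 0 ≤ ∫ ω, h n ω * lam μ ℱ R n ω * (h n ω * lam μ ℱ R n ω) ∂μ :=
    integral_nonneg fun ω => mul_self_nonneg _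
  have h2 : ∫ ω, TT μ ℱ R h k n ω * TT μ ℱ R h k n ω ∂μ ≤ M * ∫ ω, h n ω * lam μ ℱ R n ω ∂μ := by
    have h3 := TT_mean (μ := μ) (k := k) hR H n (MB.const (m := ℱ n) M)
    rw [integral_const_mul M (fun ω => h n ω * lam μ ℱ R n ω)] at h3
    rw [← h3]
    refine integral_mono i1 ((int_mul (μ := μ) (MB.const M) (hT.mono (ℱ.le _)))) fun ω => ?_
    exact mul_le_mul_of_nonneg_right (hM ω) (TT_nonneg H n ω)
  linarith

/-- second moment of the weighted sum -/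
lemma second [IsProbabilityMeasure μ] (hR : ∀ n, MeasurableSet[ℱ n] (R n)) (H : Act μ ℱ R h)
    {b M : ℕ → ℝ} (hb : ∀ n, 0 ≤ b n) (hM : ∀ n ω, TT μ ℱ R h k n ω ≤ M n) (N : ℕ) :
    ∫ ω, (∑ n ∈ range N, b n * (TT μ ℱ R h k n ω - h n ω * lam μ ℱ R n ω)) ^ 2 ∂μ ≤
      ∑ n ∈ range N, b n ^ 2 * (M n * ∫ ω, h n ω * lam μ ℱ R n ω ∂μ) := by
  have hd : ∀ n, MB mΩ (fun ω => TT μ ℱ R h k n ω - h n ω * lam μ ℱ R n ω) := fun n =>
    ((TT_MB (μ := μ) (k := k) hR H n).mono (ℱ.le _)).sub ((HL_MB H n).mono (ℱ.le _))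
  have hS : ∀ N, MB mΩ (fun ω => ∑ n ∈ range N,
      b n * (TT μ ℱ R h k n ω - h n ω * lam μ ℱ R n ω)) := fun N =>
    MB.sum _ fun n _ => (MB.const _).mul (hd n)
  induction N with
  | zero => simp
  | succ N ih =>
    rw [sum_range_succ]
    have e : ∀ ω, (∑ n ∈ range (N + 1), b n * (TT μ ℱ R h k n ω - h n ω * lam μ ℱ R n ω)) ^ 2 =
        (∑ n ∈ range N, b n * (TT μ ℱ R h k n ω - h n ω * lam μ ℱ R n ω)) ^ 2 +
        2 * b N * ((∑ n ∈ range N, b n * (TT μ ℱ R h k n ω - h n ω * lam μ ℱ R n ω)) *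
          (TT μ ℱ R h k N ω - h N ω * lam μ ℱ R N ω)) +
        b N ^ 2 * (TT μ ℱ R h k N ω - h N ω * lam μ ℱ R N ω) ^ 2 := by
      intro ω
      rw [sum_range_succ]; ring
    simp_rw [e]
    have i1 : Integrable (fun ω => (∑ n ∈ range N,
        b n * (TT μ ℱ R h k n ω - h n ω * lam μ ℱ R n ω)) ^ 2) μ := by
      simp_rw [sq]
      exact int_mul (μ := μ) (hS N) (hS N)
    have i2 : Integrable (fun ω => (∑ n ∈ range N,
        b n * (TT μ ℱ R h k n ω - h n ω * lam μ ℱ R n ω)) *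
          (TT μ ℱ R h k N ω - h N ω * lam μ ℱ R N ω)) μ :=
      int_mul (μ := μ) (hS N) (hd N)
    have i3 : Integrable (fun ω => (TT μ ℱ R h k N ω - h N ω * lam μ ℱ R N ω) ^ 2) μ := by
      simp_rw [sq]
      exact int_mul (μ := μ) (hd N) (hd N)
    have i12 : Integrable (fun ω => (∑ n ∈ range N,
        b n * (TT μ ℱ R h k n ω - h n ω * lam μ ℱ R n ω)) ^ 2 +
        2 * b N * ((∑ n ∈ range N, b n * (TT μ ℱ R h k n ω - h n ω * lam μ ℱ R n ω)) *
          (TT μ ℱ R h k N ω - h N ω * lam μ ℱ R N ω))) μ := i1.add (i2.const_mul _)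
    rw [integral_add i12 (i3.const_mul _), integral_add i1 (i2.const_mul _),
      integral_const_mul, integral_const_mul]
    have hcr : ∫ ω, (∑ n ∈ range N, b n * (TT μ ℱ R h k n ω - h n ω * lam μ ℱ R n ω)) *
          (TT μ ℱ R h k N ω - h N ω * lam μ ℱ R N ω) ∂μ ≤ 0 := by
      have e2 : ∀ ω, (∑ n ∈ range N, b n * (TT μ ℱ R h k n ω - h n ω * lam μ ℱ R n ω)) *
          (TT μ ℱ R h k N ω - h N ω * lam μ ℱ R N ω) =
          ∑ n ∈ range N, b n * ((TT μ ℱ R h k n ω - h n ω * lam μ ℱ R n ω) *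
            (TT μ ℱ R h k N ω - h N ω * lam μ ℱ R N ω)) := by
        intro ω
        rw [sum_mul]
        exact sum_congr rfl fun n _ => by ring
      simp_rw [e2]
      rw [integral_finsetSum _ fun n _ =>
        (int_mul (μ := μ) (hd n) (hd N)).const_mul (b n)]
      refine sum_nonpos fun n hn => ?_
      rw [integral_const_mul]
      exact mul_nonpos_of_nonneg_of_nonpos (hb n) (cross hR H (mem_range.mp hn))
    have hdg := diag (μ := μ) hR H (hM N)
    have h1 : 2 * b N * ∫ ω, (∑ n ∈ range N, b n * (TT μ ℱ R h k n ω - h n ω * lam μ ℱ R n ω)) *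
          (TT μ ℱ R h k N ω - h N ω * lam μ ℱ R N ω) ∂μ ≤ 0 :=
      mul_nonpos_of_nonneg_of_nonpos (by have := hb N; positivity) hcr
    have h2 : b N ^ 2 * ∫ ω, (TT μ ℱ R h k N ω - h N ω * lam μ ℱ R N ω) ^ 2 ∂μ ≤
        b N ^ 2 * (M N * ∫ ω, h N ω * lam μ ℱ R N ω ∂μ) :=
      mul_le_mul_of_nonneg_left hdg (sq_nonneg _)
    linarith

end act

/-- a strong law by interpolation between the points where `V` passes `j ^ 2` -/
theorem slln [IsProbabilityMeasure μ] {A B : ℕ → Ω → ℝ} {V : ℕ → ℝ} {C C' K : ℝ}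
    (hAB : ∀ N, MB mΩ (fun ω => A N ω - B N ω))
    (hA : ∀ ω, Monotone fun N => A N ω) (hB : ∀ ω, Monotone fun N => B N ω)
    (hBV : ∀ ω N M, N ≤ M → B M ω - B N ω ≤ C' * (V M - V N)) (hV0 : V 0 = 0)
    (hVm : Monotone V) (hVi : ∀ N, V (N + 1) ≤ V N + K) (hV : Tendsto V atTop atTop)
    (hC : 0 ≤ C) (hC' : 0 ≤ C') (hK : 0 ≤ K)
    (hE : ∀ N, ∫ ω, (A N ω - B N ω) ^ 2 ∂μ ≤ C * V N) :
    ∀ᵐ ω ∂μ, Tendsto (fun N => (A N ω - B N ω) / V N) atTop (𝓝 0) := by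
  classical
  have hex : ∀ j : ℕ, ∃ N, (j : ℝ) ^ 2 ≤ V N := fun j => (hV.eventually_ge_atTop _).exists
  set Nj : ℕ → ℕ := fun j => Nat.find (hex j) with hNj
  have hge : ∀ j : ℕ, (j : ℝ) ^ 2 ≤ V (Nj j) := fun j => Nat.find_spec (hex j)
  have hle : ∀ j : ℕ, V (Nj j) ≤ (j : ℝ) ^ 2 + K := by
    intro j
    rcases Nat.eq_zero_or_pos (Nj j) with h0 | h0
    · rw [h0, hV0]; positivity
    · have h1 : ¬ (j : ℝ) ^ 2 ≤ V (Nj j - 1) := Nat.find_min (hex j) (by simp only [hNj] at h0 ⊢; omega)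
      have h2 := hVi (Nj j - 1)
      rw [show Nj j - 1 + 1 = Nj j by omega] at h2
      push Not at h1
      linarith
  -- Chebyshev and Borel-Cantelli
  have hbc : ∀ᵐ ω ∂μ, ∀ q : ℕ, ∀ᶠ j : ℕ in atTop,
      |A (Nj j) ω - B (Nj j) ω| ≤ 1 / ((q : ℝ) + 1) * V (Nj j) := by
    rw [ae_all_iff]
    intro q
    set δ : ℝ := 1 / ((q : ℝ) + 1) with hδ
    have hδ0 : 0 < δ := by positivity
    set s : ℕ → Set Ω := fun j => {ω | 1 ≤ j ∧ δ * V (Nj j) < |A (Nj j) ω - B (Nj j) ω|} with hs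
    have hsm : ∀ j, μ.real (s j) ≤ C / δ ^ 2 * (1 / (j : ℝ) ^ 2) := by
      intro j
      rcases Nat.eq_zero_or_pos j with h0 | h0
      · have : s j = ∅ := by
          ext ω; simp [hs, h0]
        rw [this]; simp only [measureReal_empty]; positivity
      · have hj : (0 : ℝ) < (j : ℝ) ^ 2 := by positivity
        have hVp : 0 < V (Nj j) := lt_of_lt_of_le hj (hge j)
        have hint : Integrable (fun ω => (A (Nj j) ω - B (Nj j) ω) ^ 2) μ := by
          simp_rw [sq]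
          exact int_mul (μ := μ) (hAB _) (hAB _)
        have h1 := mul_meas_ge_le_integral_of_nonneg (μ := μ)
          (f := fun ω => (A (Nj j) ω - B (Nj j) ω) ^ 2) (ae_of_all _ fun ω => sq_nonneg _)
          hint ((δ * V (Nj j)) ^ 2)
        have h2 : μ.real (s j) ≤ μ.real {ω | (δ * V (Nj j)) ^ 2 ≤ (A (Nj j) ω - B (Nj j) ω) ^ 2} := by
          refine measureReal_mono fun ω hω => ?_
          simp only [hs, Set.mem_ofPred_eq] at hω ⊢
          rw [← sq_abs (A (Nj j) ω - B (Nj j) ω)]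
          exact pow_le_pow_left₀ (by positivity) hω.2.le 2
        have h3 := hE (Nj j)
        have h4 : (δ * V (Nj j)) ^ 2 * μ.real (s j) ≤ C * V (Nj j) := by
          calc _ ≤ (δ * V (Nj j)) ^ 2 *
                μ.real {ω | (δ * V (Nj j)) ^ 2 ≤ (A (Nj j) ω - B (Nj j) ω) ^ 2} :=
                mul_le_mul_of_nonneg_left h2 (sq_nonneg _)
            _ ≤ _ := h1.trans h3
        have h5 : μ.real (s j) ≤ C * V (Nj j) / (δ * V (Nj j)) ^ 2 := by
          rw [le_div_iff₀ (by positivity)]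
          linarith
        refine h5.trans ?_
        have h6 : C * V (Nj j) / (δ * V (Nj j)) ^ 2 = C / δ ^ 2 * (1 / V (Nj j)) := by
          field_simp
        rw [h6]
        exact mul_le_mul_of_nonneg_left (one_div_le_one_div_of_le hj (hge j)) (by positivity)
    have hsum : Summable (fun j : ℕ => C / δ ^ 2 * (1 / (j : ℝ) ^ 2)) :=
      (Real.summable_one_div_nat_pow.mpr (by norm_num)).mul_left _
    have hsum2 : Summable fun j => μ.real (s j) :=
      Summable.of_nonneg_of_le (fun _ => measureReal_nonneg) hsm hsum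
    have hfin : ∑' j, μ (s j) ≠ ⊤ := by
      have h1 : ∀ j, μ (s j) = ENNReal.ofReal (μ.real (s j)) := fun j => by
        rw [measureReal_def, ENNReal.ofReal_toReal (measure_ne_top _ _)]
      simp_rw [h1]
      rw [← ENNReal.ofReal_tsum_of_nonneg (fun _ => measureReal_nonneg) hsum2]
      exact ENNReal.ofReal_ne_top
    filter_upwards [ae_eventually_notMem hfin] with ω hω
    filter_upwards [hω, eventually_ge_atTop 1] with j h1 h2
    simp only [hs, Set.mem_ofPred_eq, not_and, not_lt] at h1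
    exact h1 h2
  filter_upwards [hbc] with ω hω
  rw [Metric.tendsto_atTop']
  intro ε hε
  obtain ⟨q, hq⟩ := exists_nat_one_div_lt (show (0 : ℝ) < ε / 4 by positivity)
  set δ : ℝ := 1 / ((q : ℝ) + 1) with hδ
  have hδ0 : 0 < δ := by positivity
  obtain ⟨j₀, hj₀⟩ := eventually_atTop.mp (hω q)
  -- largeness of `V`
  have hlarge : ∀ᶠ N : ℕ in atTop, ((j₀ : ℝ) + 1) ^ 2 ≤ V N ∧ 0 < V N ∧
      δ * (V N + 2 * Real.sqrt (V N) + 1 + K) + C' * (2 * Real.sqrt (V N) + 1 + K) < ε * V N := by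
    have h1 : ∀ᶠ v : ℝ in atTop, ((j₀ : ℝ) + 1) ^ 2 ≤ v ∧ 0 < v ∧
        δ * (v + 2 * Real.sqrt v + 1 + K) + C' * (2 * Real.sqrt v + 1 + K) < ε * v := by
      have h2 : ∀ᶠ v : ℝ in atTop,
          2 * (δ + C') * (4 / ε) ≤ Real.sqrt v := (Real.tendsto_sqrt_atTop).eventually_ge_atTop _
      filter_upwards [eventually_ge_atTop (((j₀ : ℝ) + 1) ^ 2), eventually_gt_atTop 0, h2,
        eventually_gt_atTop ((δ + C') * (1 + K) * (4 / ε))] with v h3 h4 h5 h6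
      refine ⟨h3, h4, ?_⟩
      have hs0 := Real.sqrt_nonneg v
      have hss := Real.mul_self_sqrt h4.le
      have h7 : 2 * (δ + C') * Real.sqrt v ≤ ε / 4 * v := by
        have := mul_le_mul_of_nonneg_right h5 hs0
        rw [hss] at this
        have h8 : 2 * (δ + C') * Real.sqrt v = ε / 4 * (2 * (δ + C') * (4 / ε) * Real.sqrt v) := by
          field_simp
        rw [h8]
        exact mul_le_mul_of_nonneg_left this (by positivity)
      have h9 : (δ + C') * (1 + K) < ε / 4 * v := by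
        have h8 : (δ + C') * (1 + K) = ε / 4 * ((δ + C') * (1 + K) * (4 / ε)) := by
          field_simp
        rw [h8]
        exact mul_lt_mul_of_pos_left h6 (by positivity)
      have h10 : δ * v ≤ ε / 4 * v := mul_le_mul_of_nonneg_right hq.le h4.le
      nlinarith
    exact hV.eventually h1
  obtain ⟨N₀, hN₀⟩ := eventually_atTop.mp hlarge
  refine ⟨N₀, fun N hN => ?_⟩
  obtain ⟨g1, g2, g3⟩ := hN₀ N hN.le
  rw [Real.dist_eq, sub_zero, abs_div, abs_of_pos g2, div_lt_iff₀ g2]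
  refine lt_of_le_of_lt ?_ g3
  -- the block of `N`
  set j : ℕ := ⌊Real.sqrt (V N)⌋₊ with hj
  have hs0 := Real.sqrt_nonneg (V N)
  have hss := Real.mul_self_sqrt g2.le
  have hj1 : (j : ℝ) ≤ Real.sqrt (V N) := Nat.floor_le hs0
  have hj2 : Real.sqrt (V N) < (j : ℝ) + 1 := Nat.lt_floor_add_one _
  have hjj : j₀ ≤ j := by
    have h1 : (j₀ : ℝ) + 1 ≤ Real.sqrt (V N) := Real.le_sqrt_of_sq_le g1
    have h2 : (j₀ : ℝ) < (j : ℝ) + 1 := by linarith
    have h3 : j₀ < j + 1 := by exact_mod_cast h2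
    omega
  have hNj1 : Nj j ≤ N := Nat.find_min' (hex j) (by nlinarith)
  have hNj2 : N ≤ Nj (j + 1) := by
    by_contra hcon
    push Not at hcon
    have h1 := hVm hcon.le
    have h2 := hge (j + 1)
    push_cast at h2
    nlinarith
  have a1 := hA ω hNj1
  have a2 := hA ω hNj2
  have b1 := hB ω hNj1
  have b2 := hB ω hNj2
  have b3 := hBV ω (Nj j) (Nj (j + 1)) (hNj1.trans hNj2)
  have c1 := hj₀ j hjj
  have c2 := hj₀ (j + 1) (by omega)
  have v1 := hle j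
  have v2 := hle (j + 1)
  have v3 := hge j
  push_cast at v2
  simp only at a1 a2 b1 b2
  have hj0 : (0 : ℝ) ≤ j := Nat.cast_nonneg j
  have hBle : B (Nj (j + 1)) ω - B (Nj j) ω ≤ C' * (2 * Real.sqrt (V N) + 1 + K) := by
    refine b3.trans (mul_le_mul_of_nonneg_left ?_ hC')
    nlinarith
  have hV2 : V (Nj (j + 1)) ≤ V N + 2 * Real.sqrt (V N) + 1 + K := by nlinarith
  have hV1 : V (Nj j) ≤ V N + 2 * Real.sqrt (V N) + 1 + K := (hVm (hNj1.trans hNj2)).trans hV2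
  have d1 : |A (Nj j) ω - B (Nj j) ω| ≤ δ * (V N + 2 * Real.sqrt (V N) + 1 + K) :=
    c1.trans (mul_le_mul_of_nonneg_left hV1 hδ0.le)
  have d2 : |A (Nj (j + 1)) ω - B (Nj (j + 1)) ω| ≤ δ * (V N + 2 * Real.sqrt (V N) + 1 + K) :=
    c2.trans (mul_le_mul_of_nonneg_left hV2 hδ0.le)
  have d1' := abs_le.mp d1
  have d2' := abs_le.mp d2
  rw [abs_le]
  constructor <;> linarith [d1'.1, d1'.2, d2'.1, d2'.2]

end Pool.Agent.Helper88.CN
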