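import Mathlib
import Pool.Agent.Helper88.CntCore
import Pool.Agent.Helper88.CntAn

open MeasureTheory ProbabilityTheory Filter Finset
open scoped Topology

set_option linter.unusedSectionVars false
set_option maxHeartbeats 1000000

namespace Pool.Agent.Helper88.CN

open Pool.Agent.Helper88.Lln
open Pool.Agent.Helper88.ER

/-- the logarithm of `n + 1` -/
noncomputable def LL (n : ℕ) : ℝ := Real.log ((n + 1 : ℕ) : ℝ)

lemma LL_eq (n : ℕ) : LL n = Real.log ((n : ℝ) + 1) := by unfold LL; push_cast; rfl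

/-- approximation of the conditional intensity -/
def Cnd (w : ℕ → ℝ) (q ε : ℝ) (m : ℕ) (x : ℝ) : Prop :=
  |x - w (m + 1) * (1 / LL m + q / LL m ^ 2)| ≤ ε * w (m + 1) / LL m ^ 2

/-- exponent -/
noncomputable def AA (t : ℕ → ℝ) (v q : ℝ) (n : ℕ) : ℝ :=
  t (n + 1) / LL n + (q + v / 2) * t (n + 1) / LL n ^ 2

/-- normalisation -/
noncomputable def bb (t : ℕ → ℝ) (v q : ℝ) (n₀ n : ℕ) : ℝ :=
  if n < n₀ then 0 else Real.exp (-AA t v q n)

/-- window length -/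
noncomputable def kk (t : ℕ → ℝ) (n : ℕ) : ℕ := ⌈t (n + 1)⌉₊

structure Par (w t : ℕ → ℝ) (W v C q ε δ : ℝ) (n₀ : ℕ) : Prop where
  hw : ∀ n, 0 ≤ w n
  hW : ∀ n k : ℕ, |∑ i ∈ range k, w (n + i + 1) - k| ≤ W
  hV : ∀ n k : ℕ, |∑ i ∈ range k, w (n + i + 1) ^ 2 - v * k| ≤ W
  ht : ∀ n, 0 ≤ t n
  hε : 0 ≤ ε
  hε1 : ε ≤ 1
  hδ : 0 < δ
  L1 : ∀ n, n₀ ≤ n → 1 ≤ LL n
  Lbig : ∀ n, n₀ ≤ n → LL n * (C * LL n ^ 2 + 1) ≤ (n : ℝ) + 1
  Lerr : ∀ n, n₀ ≤ n → (ε * (W + 1) / LL n ^ 2 +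
        ((W + 1) + 2 * |q| * (W + 1) + (W + 1) * (|q| + 2) * ((W + 1) + (W + 1) * (|q| + 2)) +
        2 * ((W + 1) + (W + 1) * (|q| + 2)) ^ 3) * (C * LL n ^ 2 + 1) / LL n ^ 3 +
        (W + 1) / LL n + (|q| * W + W / 2 + |q + v / 2|) / LL n ^ 2) ≤ δ
  Lhalf : ∀ n, n₀ ≤ n → (W + 1) * (1 / LL n + (|q| + 1) / LL n ^ 2) ≤ 1 / 2
  Lq : ∀ n, n₀ ≤ n → |q| + 1 ≤ LL n * δ
  Lq1 : ∀ n, n₀ ≤ n → |q| + 1 ≤ LL n
  Lv : ∀ n, n₀ ≤ n → |q + v / 2| ≤ LL n
  htC : ∀ n, n₀ ≤ n → t (n + 1) ≤ C * LL n ^ 2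

/-- existence of the parameter `n₀` -/
lemma exists_par {w t : ℕ → ℝ} {W v C q ε δ : ℝ} (hw : ∀ n, 0 ≤ w n)
    (hW : ∀ n k : ℕ, |∑ i ∈ range k, w (n + i + 1) - k| ≤ W)
    (hV : ∀ n k : ℕ, |∑ i ∈ range k, w (n + i + 1) ^ 2 - v * k| ≤ W) (ht : ∀ n, 0 ≤ t n)
    (htC : ∀ᶠ n : ℕ in atTop, t n ≤ C * Real.log n ^ 2) (hε : 0 ≤ ε) (hε1 : ε ≤ 1)
    (hδ : 0 < δ) : ∀ᶠ n₀ : ℕ in atTop, Par w t W v C q ε δ n₀ := by
  have hL := logn
  have e1 := hL.eventually_ge_atTop 1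
  have e2 := big C
  have e3 := errs W v q ε C δ hδ
  have e4 : ∀ᶠ n : ℕ in atTop, (W + 1) * (1 / Real.log ((n : ℝ) + 1) +
      (|q| + 1) / Real.log ((n : ℝ) + 1) ^ 2) ≤ 1 / 2 := by
    have h1 : Tendsto (fun x : ℝ => (W + 1) * (1 / x + (|q| + 1) / x ^ 2)) atTop
        (𝓝 ((W + 1) * (0 + 0))) :=
      ((tendsto_const_nhds.div_atTop tendsto_id).add
        (tendsto_const_nhds.div_atTop (tendsto_pow_atTop (by norm_num)))).const_mul _
    rw [add_zero, mul_zero] at h1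
    exact (h1.comp hL).eventually (eventually_le_nhds (by norm_num))
  have e5 := hL.eventually_ge_atTop ((|q| + 1) / δ)
  have e6 := hL.eventually_ge_atTop (|q| + 1)
  have e7 := hL.eventually_ge_atTop |q + v / 2|
  have e8 : ∀ᶠ n : ℕ in atTop, t (n + 1) ≤ C * Real.log ((n : ℝ) + 1) ^ 2 := by
    have := (tendsto_add_atTop_nat 1).eventually htC
    filter_upwards [this] with n hn
    push_cast at hn
    exact hn
  obtain ⟨N, hN⟩ := eventually_atTop.mp
    (e1.and (e2.and (e3.and (e4.and (e5.and (e6.and (e7.and e8)))))))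
  filter_upwards [eventually_ge_atTop N] with n₀ hn₀
  have key : ∀ n, n₀ ≤ n → _ := fun n hn => hN n (hn₀.trans hn)
  refine
    { hw := hw, hW := hW, hV := hV, ht := ht, hε := hε, hε1 := hε1, hδ := hδ
      L1 := fun n hn => ?_, Lbig := fun n hn => ?_, Lerr := fun n hn => ?_
      Lhalf := fun n hn => ?_, Lq := fun n hn => ?_, Lq1 := fun n hn => ?_
      Lv := fun n hn => ?_, htC := fun n hn => ?_ } <;>
    obtain ⟨a1, a2, a3, a4, a5, a6, a7, a8⟩ := key n hn <;> rw [LL_eq]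
  · exact a1
  · exact a2
  · exact a3
  · exact a4
  · rwa [div_le_iff₀ hδ] at a5
  · exact a6
  · exact a7
  · exact a8

section par

variable {w t : ℕ → ℝ} {W v C q ε δ : ℝ} {n₀ : ℕ}

lemma Par.W0 (P : Par w t W v C q ε δ n₀) : 0 ≤ W := (abs_nonneg _).trans (P.hW 0 0)

lemma Par.wW (P : Par w t W v C q ε δ n₀) (m : ℕ) : w (m + 1) ≤ W + 1 := by
  have h2 := (abs_le.mp (P.hW m 1)).2
  simp only [range_one, sum_singleton, add_zero, Nat.cast_one] at h2
  linarith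

/-- the upper approximation -/
noncomputable def upp (w : ℕ → ℝ) (q ε : ℝ) (m : ℕ) : ℝ :=
  w (m + 1) * (1 / LL m + (q + ε) / LL m ^ 2)

lemma Par.upp_nonneg (P : Par w t W v C q ε δ n₀) {m : ℕ} (hm : n₀ ≤ m) : 0 ≤ upp w q ε m := by
  unfold upp
  refine mul_nonneg (P.hw _) ?_
  have h1 := P.L1 m hm
  have h2 := P.Lq1 m hm
  have h3 := P.hε
  have h4 := neg_abs_le q
  have e : 1 / LL m + (q + ε) / LL m ^ 2 = (LL m + (q + ε)) / LL m ^ 2 := by
    field_simp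
  rw [e]
  apply div_nonneg _ (by positivity)
  linarith

lemma Par.upp_le (P : Par w t W v C q ε δ n₀) {m : ℕ} (hm : n₀ ≤ m) :
    upp w q ε m ≤ (2 + |q|) * (w (m + 1) / LL m) := by
  unfold upp
  have h1 := P.L1 m hm
  have h3 := P.hε1
  have h4 := le_abs_self q
  have h5 := P.hw (m + 1)
  have h6 : (q + ε) / LL m ^ 2 ≤ (|q| + 1) / LL m := by
    rw [div_le_div_iff₀ (by positivity) (by positivity)]
    have : (q + ε) ≤ |q| + 1 := by linarith
    have h7 : 0 ≤ |q| + 1 := by positivity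
    calc (q + ε) * LL m ≤ (|q| + 1) * LL m := by gcongr
      _ ≤ (|q| + 1) * LL m ^ 2 := by
          have : LL m ≤ LL m ^ 2 := by nlinarith
          gcongr
  calc w (m + 1) * (1 / LL m + (q + ε) / LL m ^ 2) ≤
        w (m + 1) * (1 / LL m + (|q| + 1) / LL m) := by gcongr
    _ = _ := by ring

lemma Par.upp_half (P : Par w t W v C q ε δ n₀) {m : ℕ} (hm : n₀ ≤ m) :
    upp w q ε m ≤ 1 / 2 := by
  refine le_trans ?_ (P.Lhalf m hm)
  unfold upp
  have h1 := P.L1 m hm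
  have h3 := P.hε1
  have h4 := le_abs_self q
  have h5 := P.hw (m + 1)
  have h6 := P.wW m
  have h7 : (q + ε) / LL m ^ 2 ≤ (|q| + 1) / LL m ^ 2 := by
    gcongr
  have h8 : 0 ≤ (|q| + 1) / LL m ^ 2 := by positivity
  have h9 : 0 ≤ 1 / LL m := by positivity
  calc w (m + 1) * (1 / LL m + (q + ε) / LL m ^ 2) ≤
        w (m + 1) * (1 / LL m + (|q| + 1) / LL m ^ 2) := by gcongr
    _ ≤ _ := by gcongr

lemma Cnd.le {m : ℕ} {x : ℝ} (h : Cnd w q ε m x) : x ≤ upp w q ε m := by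
  unfold Cnd at h
  unfold upp
  have := (abs_le.mp h).2
  have e : w (m + 1) * (1 / LL m + (q + ε) / LL m ^ 2) =
      w (m + 1) * (1 / LL m + q / LL m ^ 2) + ε * w (m + 1) / LL m ^ 2 := by ring
  linarith

lemma Par.cnd_near (P : Par w t W v C q ε δ n₀) {m : ℕ} (hm : n₀ ≤ m) {x : ℝ}
    (h : Cnd w q ε m x) : |x - w (m + 1) / LL m| ≤ δ * (w (m + 1) / LL m) := by
  unfold Cnd at h
  have h1 := P.L1 m hm
  have h2 := P.Lq m hm
  have h3 := P.hε1
  have h5 := P.hw (m + 1)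
  have hL0 : 0 < LL m := by linarith
  have e : x - w (m + 1) / LL m = (x - w (m + 1) * (1 / LL m + q / LL m ^ 2)) +
      q * w (m + 1) / LL m ^ 2 := by ring
  rw [e]
  have h6 : |q * w (m + 1) / LL m ^ 2| = |q| * w (m + 1) / LL m ^ 2 := by
    rw [abs_div, abs_mul, abs_of_nonneg h5, abs_of_pos (by positivity : 0 < LL m ^ 2)]
  calc _ ≤ |x - w (m + 1) * (1 / LL m + q / LL m ^ 2)| + |q * w (m + 1) / LL m ^ 2| :=
        abs_add_le _ _
    _ ≤ 1 * w (m + 1) / LL m ^ 2 + |q| * w (m + 1) / LL m ^ 2 := by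
        rw [h6]
        have : ε * w (m + 1) / LL m ^ 2 ≤ 1 * w (m + 1) / LL m ^ 2 := by gcongr
        linarith
    _ = (|q| + 1) * (w (m + 1) / LL m ^ 2) := by ring
    _ ≤ (LL m * δ) * (w (m + 1) / LL m ^ 2) := by gcongr
    _ = _ := by field_simp

lemma Par.A_nonneg (P : Par w t W v C q ε δ n₀) {n : ℕ} (hn : n₀ ≤ n) : 0 ≤ AA t v q n := by
  unfold AA
  have h1 := P.L1 n hn
  have h2 := P.Lv n hn
  have h3 := P.ht (n + 1)
  have h4 := neg_abs_le (q + v / 2)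
  have e : t (n + 1) / LL n + (q + v / 2) * t (n + 1) / LL n ^ 2 =
      t (n + 1) * (LL n + (q + v / 2)) / LL n ^ 2 := by
    field_simp
  rw [e]
  apply div_nonneg _ (by positivity)
  exact mul_nonneg h3 (by linarith)

lemma Par.win (P : Par w t W v C q ε δ n₀) {n : ℕ} (hn : n₀ ≤ n) {x : ℕ → ℝ}
    (hx : ∀ i < kk t n, Cnd w q ε (n + 1 + i) (x i)) (h0 : ∀ i < kk t n, 0 ≤ x i)
    (h1 : ∀ i < kk t n, x i ≤ 1 / 2) :
    |∑ i ∈ range (kk t n), -Real.log (1 - x i) - AA t v q n| ≤ ε * C + δ := by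
  have h := window (W := W) (v := v) (q := q) (ε := ε) (C := C) P.hw P.hW P.hV P.hε P.hε1
    (n := n) (k := kk t n) (t := t (n + 1)) (LL_eq n) (P.L1 n hn) (P.ht _) rfl (P.htC n hn)
    (P.Lbig n hn) (lam := x) hx h0 h1
  refine h.trans ?_
  have := P.Lerr n hn
  linarith

lemma bb_nonneg (n : ℕ) : 0 ≤ bb t v q n₀ n := by
  unfold bb; split_ifs
  · exact le_rfl
  · exact (Real.exp_pos _).le

lemma Par.bb_le (P : Par w t W v C q ε δ n₀) (n : ℕ) : bb t v q n₀ n ≤ 1 := by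
  unfold bb; split_ifs with h
  · norm_num
  · rw [Real.exp_le_one_iff]
    have := P.A_nonneg (n := n) (by omega)
    linarith

end par

/-- mass of the expected count -/
noncomputable def ss (w t : ℕ → ℝ) (v q : ℝ) (n₀ n : ℕ) : ℝ :=
  bb t v q n₀ n * (w (n + 1) / LL n)

lemma LL_nonneg (n : ℕ) : 0 ≤ LL n := Real.log_natCast_nonneg _

lemma ss_nonneg {w t : ℕ → ℝ} {v q : ℝ} {n₀ : ℕ} (hw : ∀ n, 0 ≤ w n) (n : ℕ) :
    0 ≤ ss w t v q n₀ n :=
  mul_nonneg (bb_nonneg n) (div_nonneg (hw _) (LL_nonneg n))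

variable {Ω : Type*} [mΩ : MeasurableSpace Ω] {μ : Measure Ω} {ℱ : Filtration ℕ mΩ}
  {R : ℕ → Set Ω} {w t : ℕ → ℝ} {W v C q ε δ : ℝ} {n₀ : ℕ}

open Classical in
/-- activity -/
noncomputable def hf (μ : Measure Ω) (ℱ : Filtration ℕ mΩ) (R : ℕ → Set Ω) (w : ℕ → ℝ)
    (q ε : ℝ) (n₀ n : ℕ) (ω : Ω) : ℝ :=
  if n₀ ≤ n ∧ ∀ m, n₀ ≤ m → m ≤ n → Cnd w q ε m (lam μ ℱ R m ω) then 1 else 0

lemma hf_cases (n : ℕ) (ω : Ω) : hf μ ℱ R w q ε n₀ n ω = 0 ∨
    (hf μ ℱ R w q ε n₀ n ω = 1 ∧ n₀ ≤ n ∧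
      ∀ m, n₀ ≤ m → m ≤ n → Cnd w q ε m (lam μ ℱ R m ω)) := by
  unfold hf
  split_ifs with h
  · exact Or.inr ⟨rfl, h⟩
  · exact Or.inl rfl

lemma hf_MB (n : ℕ) : MB (ℱ n) (hf μ ℱ R w q ε n₀ n) := by
  classical
  have hs : MeasurableSet[ℱ n] {ω | n₀ ≤ n ∧ ∀ m, n₀ ≤ m → m ≤ n →
      Cnd w q ε m (lam μ ℱ R m ω)} := by
    have e : {ω | n₀ ≤ n ∧ ∀ m, n₀ ≤ m → m ≤ n → Cnd w q ε m (lam μ ℱ R m ω)} =
        {ω | n₀ ≤ n} ∩ ⋂ m ∈ Finset.Icc n₀ n, (lam μ ℱ R m ⁻¹' {x | Cnd w q ε m x}) := by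
      ext ω
      simp only [Set.mem_ofPred_eq, Set.mem_inter_iff, Set.mem_iInter, Finset.mem_Icc,
        Set.mem_preimage, and_imp]
    rw [e]
    refine MeasurableSet.inter (MeasurableSet.const _) ?_
    refine Finset.measurableSet_biInter _ fun m hm => ?_
    rw [Finset.mem_Icc] at hm
    have h1 : MeasurableSet {x : ℝ | Cnd w q ε m x} := by
      unfold Cnd
      exact measurableSet_le (by fun_prop) measurable_const
    exact ((lam_MB (μ := μ) (ℱ := ℱ) (R := R) m).mono (ℱ.mono hm.2)).1 h1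
  have h := (MB.const (m := ℱ n) 1).indicator (s := {ω | n₀ ≤ n ∧ ∀ m, n₀ ≤ m → m ≤ n →
      Cnd w q ε m (lam μ ℱ R m ω)}) hs
  have e : hf μ ℱ R w q ε n₀ n = fun ω => if ω ∈ {ω | n₀ ≤ n ∧ ∀ m, n₀ ≤ m → m ≤ n →
      Cnd w q ε m (lam μ ℱ R m ω)} then (1 : ℝ) else 0 := by
    ext ω
    unfold hf
    congr
  rw [e]
  exact h

lemma hf_act (P : Par w t W v C q ε δ n₀) : Act μ ℱ R (hf μ ℱ R w q ε n₀) where
  mb := hf_MB
  val n ω := by
    rcases hf_cases (μ := μ) (ℱ := ℱ) (R := R) (w := w) (q := q) (ε := ε) (n₀ := n₀) n ω with h | h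
    · exact Or.inl h
    · exact Or.inr h.1
  le n ω := by
    rcases hf_cases (μ := μ) (ℱ := ℱ) (R := R) (w := w) (q := q) (ε := ε) (n₀ := n₀) n ω with
      h | ⟨h, h1, h2⟩
    · rw [h]; norm_num
    · rw [h, one_mul]
      exact (h2 n h1 le_rfl).le.trans (P.upp_half h1)

lemma HL_le (P : Par w t W v C q ε δ n₀) {n : ℕ} (hn : n₀ ≤ n) (ω : Ω) :
    hf μ ℱ R w q ε n₀ n ω * lam μ ℱ R n ω ≤ (2 + |q|) * (w (n + 1) / LL n) := by
  rcases hf_cases (μ := μ) (ℱ := ℱ) (R := R) (w := w) (q := q) (ε := ε) (n₀ := n₀) n ω with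
    h | ⟨h, h1, h2⟩
  · rw [h, zero_mul]
    exact (P.upp_nonneg hn).trans (P.upp_le hn)
  · rw [h, one_mul]
    exact (h2 n h1 le_rfl).le.trans (P.upp_le hn)

/-- sup bound for the normalised gap event -/
lemma TT_le (P : Par w t W v C q ε δ n₀) {n : ℕ} (hn : n₀ ≤ n) (ω : Ω) :
    TT μ ℱ R (hf μ ℱ R w q ε n₀) (kk t) n ω ≤ Real.exp (AA t v q n + (ε * C + δ)) := by
  have H := hf_act (μ := μ) (ℱ := ℱ) (R := R) P
  have h1 : WD μ ℱ R (hf μ ℱ R w q ε n₀) (n + 1) (kk t n) ω ≤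
      ∏ i ∈ range (kk t n), Real.exp (-Real.log (1 - upp w q ε (n + 1 + i))) := by
    unfold WD
    refine prod_le_prod (fun i _ => div_nonneg (H.num _ ω) (by have := H.den (n + 1 + i) ω; linarith))
      fun i _ => ?_
    have hm : n₀ ≤ n + 1 + i := by omega
    have u0 := P.upp_nonneg hm
    have u1 := P.upp_half hm
    have up : 0 < 1 - upp w q ε (n + 1 + i) := by linarith
    rw [Real.exp_neg, Real.exp_log up]
    have hden := H.den (n + 1 + i) ω
    have hnum : 1 - hf μ ℱ R w q ε n₀ (n + 1 + i) ω * rr R (n + 1 + i) ω ≤ 1 := by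
      have := mul_nonneg (H.nonneg (n + 1 + i) ω) (rr_nonneg R (n + 1 + i) ω)
      linarith
    have hd2 : 1 - upp w q ε (n + 1 + i) ≤
        1 - hf μ ℱ R w q ε n₀ (n + 1 + i) ω * lam μ ℱ R (n + 1 + i) ω := by
      rcases hf_cases (μ := μ) (ℱ := ℱ) (R := R) (w := w) (q := q) (ε := ε) (n₀ := n₀)
        (n + 1 + i) ω with h | ⟨h, h3, h2⟩
      · rw [h]; linarith
      · rw [h, one_mul]
        have := (h2 _ h3 le_rfl).le
        linarith
    rw [← one_div]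
    exact div_le_div₀ (by norm_num) hnum up hd2
  have h2 : TT μ ℱ R (hf μ ℱ R w q ε n₀) (kk t) n ω ≤
      WD μ ℱ R (hf μ ℱ R w q ε n₀) (n + 1) (kk t n) ω := by
    unfold TT
    have h3 : hf μ ℱ R w q ε n₀ n ω * rr R n ω ≤ 1 := by
      rcases H.val n ω with h | h
      · rw [h]; norm_num
      · rw [h, one_mul]; exact rr_le_one R n ω
    have h4 := WD_nonneg H (n + 1) (kk t n) ω
    calc _ ≤ 1 * WD μ ℱ R (hf μ ℱ R w q ε n₀) (n + 1) (kk t n) ω := by gcongr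
      _ = _ := one_mul _
  refine (h2.trans h1).trans ?_
  rw [← Real.exp_sum]
  apply Real.exp_le_exp.mpr
  have h5 := P.win hn (x := fun i => upp w q ε (n + 1 + i)) (fun i _ => by
      unfold Cnd upp
      have e : w (n + 1 + i + 1) * (1 / LL (n + 1 + i) + (q + ε) / LL (n + 1 + i) ^ 2) -
          w (n + 1 + i + 1) * (1 / LL (n + 1 + i) + q / LL (n + 1 + i) ^ 2) =
          ε * w (n + 1 + i + 1) / LL (n + 1 + i) ^ 2 := by ring
      rw [e, abs_of_nonneg]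
      have := P.hε
      have := P.hw (n + 1 + i + 1)
      positivity) (fun i _ => P.upp_nonneg (by omega)) (fun i _ => P.upp_half (by omega))
  have := (abs_le.mp h5).2
  linarith

/-- the strong law for fixed parameters -/
theorem law_par [IsProbabilityMeasure μ] (hR : ∀ n, MeasurableSet[ℱ n] (R n))
    (P : Par w t W v C q ε δ n₀)
    (hV : Tendsto (fun N => ∑ n ∈ range N, ss w t v q n₀ n) atTop atTop) :
    ∀ᵐ ω ∂μ, Tendsto (fun N =>
      (∑ n ∈ range N, bb t v q n₀ n * TT μ ℱ R (hf μ ℱ R w q ε n₀) (kk t) n ω -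
        ∑ n ∈ range N, bb t v q n₀ n * (hf μ ℱ R w q ε n₀ n ω * lam μ ℱ R n ω)) /
        ∑ n ∈ range N, ss w t v q n₀ n) atTop (𝓝 0) := by
  have H := hf_act (μ := μ) (ℱ := ℱ) (R := R) P
  have hsub : ∀ N (ω : Ω), ∑ n ∈ range N, bb t v q n₀ n *
      TT μ ℱ R (hf μ ℱ R w q ε n₀) (kk t) n ω -
        ∑ n ∈ range N, bb t v q n₀ n * (hf μ ℱ R w q ε n₀ n ω * lam μ ℱ R n ω) =
      ∑ n ∈ range N, bb t v q n₀ n * (TT μ ℱ R (hf μ ℱ R w q ε n₀) (kk t) n ω -
        hf μ ℱ R w q ε n₀ n ω * lam μ ℱ R n ω) := by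
    intro N ω
    rw [← sum_sub_distrib]
    exact sum_congr rfl fun n _ => by ring
  have hterm : ∀ n (ω : Ω), bb t v q n₀ n * (hf μ ℱ R w q ε n₀ n ω * lam μ ℱ R n ω) ≤
      (2 + |q|) * ss w t v q n₀ n := by
    intro n ω
    unfold ss
    rcases lt_or_ge n n₀ with h | h
    · unfold bb; rw [if_pos h]; simp
    · have h1 := HL_le (μ := μ) (ℱ := ℱ) (R := R) P h ω
      have h2 := bb_nonneg (t := t) (v := v) (q := q) (n₀ := n₀) n
      calc _ ≤ bb t v q n₀ n * ((2 + |q|) * (w (n + 1) / LL n)) := by gcongr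
        _ = _ := by ring
  have hsn := fun n => ss_nonneg (t := t) (v := v) (q := q) (n₀ := n₀) P.hw n
  have hq0 := abs_nonneg q
  refine slln (μ := μ) (C := Real.exp (ε * C + δ) * (2 + |q|)) (C' := 2 + |q|) (K := W + 1)
    (A := fun N ω => ∑ n ∈ range N, bb t v q n₀ n * TT μ ℱ R (hf μ ℱ R w q ε n₀) (kk t) n ω)
    (B := fun N ω => ∑ n ∈ range N, bb t v q n₀ n *
      (hf μ ℱ R w q ε n₀ n ω * lam μ ℱ R n ω))
    (V := fun N => ∑ n ∈ range N, ss w t v q n₀ n)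
    (fun N => ?_) (fun ω => ?_) (fun ω => ?_) (fun ω N M hNM => ?_) (by simp) ?_ (fun N => ?_) hV
    (by positivity) (by positivity) (by have := P.W0; positivity) (fun N => ?_)
  · simp_rw [hsub]
    exact MB.sum _ fun n _ => (MB.const _).mul
      (((TT_MB (μ := μ) (k := kk t) hR H n).mono (ℱ.le _)).sub ((HL_MB H n).mono (ℱ.le _)))
  · exact monotone_nat_of_le_succ fun N => by
      rw [sum_range_succ]
      have := mul_nonneg (bb_nonneg (t := t) (v := v) (q := q) (n₀ := n₀) N)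
        (TT_nonneg (k := kk t) H N ω)
      linarith
  · exact monotone_nat_of_le_succ fun N => by
      rw [sum_range_succ]
      have := mul_nonneg (bb_nonneg (t := t) (v := v) (q := q) (n₀ := n₀) N)
        (HL_nonneg H N ω)
      linarith
  · rw [← Finset.sum_Ico_eq_sub _ hNM, ← Finset.sum_Ico_eq_sub _ hNM, mul_sum]
    exact sum_le_sum fun n _ => hterm n ω
  · exact monotone_nat_of_le_succ fun N => by
      rw [sum_range_succ]
      have := hsn N
      linarith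
  · rw [sum_range_succ]
    have h1 : ss w t v q n₀ N ≤ W + 1 := by
      unfold ss
      rcases lt_or_ge N n₀ with h | h
      · unfold bb; rw [if_pos h, zero_mul]; have := P.W0; positivity
      · have h2 := P.bb_le N
        have h3 := P.L1 N h
        have h4 := P.wW N
        have h5 := P.hw (N + 1)
        have h6 := P.W0
        have h7 : w (N + 1) / LL N ≤ W + 1 := by
          rw [div_le_iff₀ (by linarith)]
          nlinarith
        calc _ ≤ 1 * (W + 1) := by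
              have := bb_nonneg (t := t) (v := v) (q := q) (n₀ := n₀) N
              have : 0 ≤ w (N + 1) / LL N := div_nonneg h5 (LL_nonneg N)
              gcongr
          _ = W + 1 := one_mul _
    linarith
  · simp_rw [hsub]
    have h1 := second (μ := μ) (k := kk t) hR H
      (b := bb t v q n₀) (M := fun n => if n < n₀ then 1 else Real.exp (AA t v q n + (ε * C + δ)))
      bb_nonneg (fun n ω => by
        rcases lt_or_ge n n₀ with h | h
        · simp only [if_pos h]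
          unfold TT hf
          rw [if_neg (by rintro ⟨h2, -⟩; omega)]
          simp
        · simp only [if_neg (not_lt.mpr h)]
          exact TT_le P h ω) N
    refine h1.trans ?_
    rw [mul_sum]
    refine sum_le_sum fun n _ => ?_
    rcases lt_or_ge n n₀ with h | h
    · unfold ss bb; simp [if_pos h]
    · rw [if_neg (not_lt.mpr h)]
      have hb : bb t v q n₀ n = Real.exp (-AA t v q n) := by
        unfold bb; rw [if_neg (not_lt.mpr h)]
      have h2 : ∫ ω, hf μ ℱ R w q ε n₀ n ω * lam μ ℱ R n ω ∂μ ≤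
          (2 + |q|) * (w (n + 1) / LL n) := by
        calc _ ≤ ∫ _ω, (2 + |q|) * (w (n + 1) / LL n) ∂μ :=
              integral_mono ((HL_MB H n).integrable (ℱ.le _)) (integrable_const _)
                fun ω => HL_le P h ω
          _ = _ := by simp
      have h3 : bb t v q n₀ n ^ 2 * (Real.exp (AA t v q n + (ε * C + δ)) *
          ∫ ω, hf μ ℱ R w q ε n₀ n ω * lam μ ℱ R n ω ∂μ) ≤
          bb t v q n₀ n ^ 2 * (Real.exp (AA t v q n + (ε * C + δ)) *
          ((2 + |q|) * (w (n + 1) / LL n))) := by gcongr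
      refine h3.trans (le_of_eq ?_)
      unfold ss
      rw [hb, Real.exp_add, sq]
      have e : Real.exp (-AA t v q n) * Real.exp (AA t v q n) = 1 := by
        rw [← Real.exp_add]; simp
      linear_combination (Real.exp (-AA t v q n) * Real.exp (ε * C + δ) * (2 + |q|) *
        (w (n + 1) / LL n)) * e

end Pool.Agent.Helper88.CN
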