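import Mathlib
import Pool.Agent.Helper88.CntMain

open MeasureTheory ProbabilityTheory Filter Finset
open scoped Topology

set_option linter.unusedSectionVars false
set_option maxHeartbeats 1000000

namespace Pool.Agent.Helper88.CN

open Pool.Agent.Helper88.Lln
open Pool.Agent.Helper88.ER

variable {Ω : Type*} [mΩ : MeasurableSpace Ω] {μ : Measure Ω} {ℱ : Filtration ℕ mΩ}
  {R : ℕ → Set Ω} {w t : ℕ → ℝ} {W v C q ε δ : ℝ} {n₀ : ℕ}

open Classical in
/-- indicator that `n + 1` is chosen and followed by a long gap -/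
noncomputable def XX (R : ℕ → Set Ω) (t : ℕ → ℝ) (n : ℕ) (ω : Ω) : ℝ :=
  if ω ∈ R (n + 1) ∧ ∀ i < kk t n, ω ∉ R (n + 1 + i + 1) then 1 else 0

lemma XX_nonneg (n : ℕ) (ω : Ω) : 0 ≤ XX R t n ω := by unfold XX; split_ifs <;> norm_num

lemma XX_le_one (n : ℕ) (ω : Ω) : XX R t n ω ≤ 1 := by unfold XX; split_ifs <;> norm_num

/-- comparison of the normalised gap event with its indicator -/
lemma XX_TT (P : Par w t W v C q ε δ n₀) {ω : Ω}
    (hω : ∀ m, n₀ ≤ m → Cnd w q ε m (lam μ ℱ R m ω)) {n : ℕ} (hn : n₀ ≤ n) :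
    bb t v q n₀ n * TT μ ℱ R (hf μ ℱ R w q ε n₀) (kk t) n ω ≤
      Real.exp (ε * C + δ) * XX R t n ω ∧
    Real.exp (-(ε * C + δ)) * XX R t n ω ≤
      bb t v q n₀ n * TT μ ℱ R (hf μ ℱ R w q ε n₀) (kk t) n ω := by
  have hh : ∀ m, n₀ ≤ m → hf μ ℱ R w q ε n₀ m ω = 1 := by
    intro m hm
    unfold hf
    rw [if_pos]
    exact ⟨hm, fun m' h1 _ => hω m' h1⟩
  by_cases hX : ω ∈ R (n + 1) ∧ ∀ i < kk t n, ω ∉ R (n + 1 + i + 1)
  · have hX1 : XX R t n ω = 1 := by unfold XX; rw [if_pos hX]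
    have hr : rr R n ω = 1 := by unfold rr; rw [if_pos hX.1]
    have hb : bb t v q n₀ n = Real.exp (-AA t v q n) := by
      unfold bb; rw [if_neg (not_lt.mpr hn)]
    have hT : TT μ ℱ R (hf μ ℱ R w q ε n₀) (kk t) n ω =
        Real.exp (∑ i ∈ range (kk t n), -Real.log (1 - lam μ ℱ R (n + 1 + i) ω)) := by
      unfold TT WD
      rw [hh n hn, hr, one_mul, one_mul, Real.exp_sum]
      refine prod_congr rfl fun i hi => ?_
      rw [mem_range] at hi
      have h1 : rr R (n + 1 + i) ω = 0 := by unfold rr; rw [if_neg (hX.2 i hi)]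
      have h2 := ((hω (n + 1 + i) (by omega)).le).trans (P.upp_half (m := n + 1 + i) (by omega))
      rw [hh _ (by omega), h1, mul_zero, sub_zero, one_mul, Real.exp_neg, Real.exp_log (by linarith),
        one_div]
    have hwin := P.win hn (x := fun i => lam μ ℱ R (n + 1 + i) ω) (fun i _ => hω _ (by omega))
      (fun i _ => lam_nonneg ℱ R _ ω)
      (fun i _ => ((hω (n + 1 + i) (by omega)).le).trans (P.upp_half (m := n + 1 + i) (by omega)))
    rw [abs_le] at hwin
    rw [hX1, hb, hT, ← Real.exp_add, mul_one, mul_one]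
    constructor
    · apply Real.exp_le_exp.mpr; linarith [hwin.2]
    · apply Real.exp_le_exp.mpr; linarith [hwin.1]
  · have hX0 : XX R t n ω = 0 := by unfold XX; rw [if_neg hX]
    have hT : TT μ ℱ R (hf μ ℱ R w q ε n₀) (kk t) n ω = 0 := by
      unfold TT
      by_cases h1 : ω ∈ R (n + 1)
      · have h2 : ∃ i < kk t n, ω ∈ R (n + 1 + i + 1) := by
          by_contra hcon
          push Not at hcon
          exact hX ⟨h1, hcon⟩
        obtain ⟨i, hi, h3⟩ := h2
        have h4 : rr R (n + 1 + i) ω = 1 := by unfold rr; rw [if_pos h3]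
        have : WD μ ℱ R (hf μ ℱ R w q ε n₀) (n + 1) (kk t n) ω = 0 := by
          unfold WD
          refine prod_eq_zero (mem_range.mpr hi) ?_
          rw [hh _ (by omega), h4]; simp
        rw [this, mul_zero]
      · have h4 : rr R n ω = 0 := by unfold rr; rw [if_neg h1]
        rw [h4]; simp
    rw [hX0, hT]
    simp

/-- the expected number -/
noncomputable def sk (w t : ℕ → ℝ) (v κ : ℝ) (n : ℕ) : ℝ :=
  Real.exp (-AA t v κ n) * (w (n + 1) / LL n)

lemma sk_nonneg (hw : ∀ n, 0 ≤ w n) (κ : ℝ) (n : ℕ) : 0 ≤ sk w t v κ n :=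
  mul_nonneg (Real.exp_pos _).le (div_nonneg (hw _) (LL_nonneg n))

lemma Par.C0 (P : Par w t W v C q ε δ n₀) : 0 ≤ C := by
  have h1 := P.ht (n₀ + 1)
  have h2 := P.htC n₀ le_rfl
  have h3 := P.L1 n₀ le_rfl
  by_contra hcon
  push Not at hcon
  have : C * LL n₀ ^ 2 < 0 := mul_neg_of_neg_of_pos hcon (by positivity)
  linarith

/-- changing the second-order parameter -/
lemma AA_diff (P : Par w t W v C q ε δ n₀) {κ η : ℝ} (hη : |κ - q| ≤ η) {n : ℕ} (hn : n₀ ≤ n) :
    |AA t v κ n - AA t v q n| ≤ η * C := by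
  have h1 := P.L1 n hn
  have h2 := P.htC n hn
  have h3 := P.ht (n + 1)
  have hη0 : 0 ≤ η := (abs_nonneg _).trans hη
  have e : AA t v κ n - AA t v q n = (κ - q) * (t (n + 1) / LL n ^ 2) := by
    unfold AA; ring
  rw [e, abs_mul, abs_of_nonneg (show 0 ≤ t (n + 1) / LL n ^ 2 by positivity)]
  have h4 : t (n + 1) / LL n ^ 2 ≤ C := by
    rw [div_le_iff₀ (by positivity)]; exact h2
  have : 0 ≤ t (n + 1) / LL n ^ 2 := by positivity
  gcongr

theorem ratio {ω : Ω} {κ : ℝ} (hw : ∀ n, 0 ≤ w n)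
    (hW : ∀ n k : ℕ, |∑ i ∈ range k, w (n + i + 1) - k| ≤ W)
    (hV : ∀ n k : ℕ, |∑ i ∈ range k, w (n + i + 1) ^ 2 - v * k| ≤ W) (ht : ∀ n, 0 ≤ t n)
    (htC : ∀ᶠ n : ℕ in atTop, t n ≤ C * Real.log n ^ 2)
    (hc : ∀ ε : ℝ, 0 < ε → ∀ᶠ n : ℕ in atTop, Cnd w κ ε n (lam μ ℱ R n ω))
    (hS : Tendsto (fun N => ∑ n ∈ range N, sk w t v κ n) atTop atTop)
    (hlaw : ∀ (q : ℚ) (a n₀ : ℕ), Par w t W v C q (1 / ((a : ℝ) + 1)) (1 / ((a : ℝ) + 1)) n₀ →
      Tendsto (fun N => ∑ n ∈ range N, ss w t v q n₀ n) atTop atTop →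
      Tendsto (fun N =>
      (∑ n ∈ range N, bb t v q n₀ n * TT μ ℱ R (hf μ ℱ R w q (1 / ((a : ℝ) + 1)) n₀) (kk t) n ω -
        ∑ n ∈ range N, bb t v q n₀ n *
          (hf μ ℱ R w q (1 / ((a : ℝ) + 1)) n₀ n ω * lam μ ℱ R n ω)) /
        ∑ n ∈ range N, ss w t v q n₀ n) atTop (𝓝 0)) :
    Tendsto (fun N => (∑ n ∈ range N, XX R t n ω) / ∑ n ∈ range N, sk w t v κ n)
      atTop (𝓝 1) := by
  rw [Metric.tendsto_atTop']
  intro η hη
  -- choice of the accuracy
  have hlim : Tendsto (fun a : ℕ => (1 : ℝ) / ((a : ℝ) + 1)) atTop (𝓝 0) :=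
    tendsto_one_div_add_atTop_nhds_zero_nat
  have hf1 : Tendsto (fun x : ℝ => Real.exp ((2 * C + 1) * x) * (1 + 2 * x)) (𝓝 0) (𝓝 1) := by
    have : Continuous fun x : ℝ => Real.exp ((2 * C + 1) * x) * (1 + 2 * x) := by fun_prop
    simpa using this.tendsto 0
  have hf2 : Tendsto (fun x : ℝ => Real.exp (-((2 * C + 1) * x)) * (1 - 2 * x)) (𝓝 0) (𝓝 1) := by
    have : Continuous fun x : ℝ => Real.exp (-((2 * C + 1) * x)) * (1 - 2 * x) := by fun_prop
    simpa using this.tendsto 0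
  have e1 : ∀ᶠ a : ℕ in atTop, Real.exp ((2 * C + 1) * (1 / ((a : ℝ) + 1))) *
      (1 + 2 * (1 / ((a : ℝ) + 1))) < 1 + η / 2 :=
    (hf1.comp hlim).eventually (eventually_lt_nhds (by linarith))
  have e2 : ∀ᶠ a : ℕ in atTop, 1 - η / 2 < Real.exp (-((2 * C + 1) * (1 / ((a : ℝ) + 1)))) *
      (1 - 2 * (1 / ((a : ℝ) + 1))) :=
    (hf2.comp hlim).eventually (eventually_gt_nhds (by linarith))
  obtain ⟨a, ha1, ha2, ha3⟩ := (e1.and (e2.and (eventually_ge_atTop 1))).exists
  set δ : ℝ := 1 / ((a : ℝ) + 1) with hδ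
  have hδ0 : 0 < δ := by positivity
  have hδ1 : δ ≤ 1 / 2 := by
    rw [hδ]
    apply one_div_le_one_div_of_le (by norm_num)
    have : (1 : ℝ) ≤ a := by exact_mod_cast ha3
    linarith
  obtain ⟨q, hq1, hq2⟩ := exists_rat_btwn (show κ - δ / 2 < κ + δ / 2 by linarith)
  have hκq : |κ - q| ≤ δ / 2 := by rw [abs_le]; constructor <;> linarith
  have hcq : ∀ᶠ n : ℕ in atTop, Cnd w q δ n (lam μ ℱ R n ω) := by
    filter_upwards [hc (δ / 2) (by positivity)] with n hn
    unfold Cnd at hn ⊢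
    have h5 := hw (n + 1)
    have e : lam μ ℱ R n ω - w (n + 1) * (1 / LL n + q / LL n ^ 2) =
        (lam μ ℱ R n ω - w (n + 1) * (1 / LL n + κ / LL n ^ 2)) +
        (κ - q) * (w (n + 1) / LL n ^ 2) := by ring
    rw [e]
    refine (abs_add_le _ _).trans ?_
    rw [abs_mul, abs_of_nonneg (show 0 ≤ w (n + 1) / LL n ^ 2 by positivity)]
    have h6 : |κ - q| * (w (n + 1) / LL n ^ 2) ≤ δ / 2 * (w (n + 1) / LL n ^ 2) := by
      have : 0 ≤ w (n + 1) / LL n ^ 2 := by positivity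
      gcongr
    have e' : δ * w (n + 1) / LL n ^ 2 =
        δ / 2 * w (n + 1) / LL n ^ 2 + δ / 2 * (w (n + 1) / LL n ^ 2) := by ring
    linarith
  have hPar := exists_par (q := (q : ℝ)) (ε := δ) (δ := δ) hw hW hV ht htC hδ0.le
    (by linarith) hδ0
  obtain ⟨N₁, hN₁⟩ := eventually_atTop.mp hcq
  obtain ⟨n₀, P, hn₀⟩ := (hPar.and (eventually_ge_atTop N₁)).exists
  have hω : ∀ m, n₀ ≤ m → Cnd w q δ m (lam μ ℱ R m ω) := fun m hm => hN₁ m (hn₀.trans hm)
  have hC0 := P.C0
  -- termwise comparison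
  have hss1 : ∀ n, ss w t v q n₀ n ≤ Real.exp (δ * C) * sk w t v κ n := by
    intro n
    unfold ss sk bb
    have hwl : 0 ≤ w (n + 1) / LL n := div_nonneg (hw _) (LL_nonneg n)
    split_ifs with h
    · rw [zero_mul]; positivity
    · rw [← mul_assoc, ← Real.exp_add]
      have h1 := AA_diff P (hκq.trans (by linarith : δ / 2 ≤ δ)) (n := n) (by omega)
      rw [abs_le] at h1
      apply mul_le_mul_of_nonneg_right _ hwl
      apply Real.exp_le_exp.mpr
      linarith [h1.2]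
  have hss2 : ∀ n, Real.exp (-(δ * C)) * (sk w t v κ n - if n < n₀ then sk w t v κ n else 0) ≤
      ss w t v q n₀ n := by
    intro n
    have hwl : 0 ≤ w (n + 1) / LL n := div_nonneg (hw _) (LL_nonneg n)
    split_ifs with h
    · rw [sub_self, mul_zero]; exact ss_nonneg hw n
    · rw [sub_zero]
      unfold ss sk bb
      rw [if_neg h, ← mul_assoc, ← Real.exp_add]
      have h1 := AA_diff P (hκq.trans (by linarith : δ / 2 ≤ δ)) (n := n) (by omega)
      rw [abs_le] at h1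
      apply mul_le_mul_of_nonneg_right _ hwl
      apply Real.exp_le_exp.mpr
      linarith [h1.1]
  set S : ℕ → ℝ := fun N => ∑ n ∈ range N, sk w t v κ n with hSdef
  set V : ℕ → ℝ := fun N => ∑ n ∈ range N, ss w t v q n₀ n with hVdef
  set c₀ : ℝ := ∑ n ∈ range n₀, sk w t v κ n with hc₀
  have hc₀0 : 0 ≤ c₀ := sum_nonneg fun n _ => sk_nonneg hw κ n
  have hcut : ∀ N, ∑ n ∈ range N, (if n < n₀ then sk w t v κ n else 0) ≤ c₀ := by
    intro N
    rw [← sum_filter]
    refine sum_le_sum_of_subset_of_nonneg (fun n hn => ?_) fun n _ _ => sk_nonneg hw κ n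
    rw [mem_filter] at hn
    exact mem_range.mpr hn.2
  have hVS1 : ∀ N, V N ≤ Real.exp (δ * C) * S N := by
    intro N
    simp only [hVdef, hSdef]
    rw [mul_sum]
    exact sum_le_sum fun n _ => hss1 n
  have hVS2 : ∀ N, Real.exp (-(δ * C)) * (S N - c₀) ≤ V N := by
    intro N
    have h1 := sum_le_sum (s := range N) fun n _ => hss2 n
    rw [← mul_sum, sum_sub_distrib] at h1
    refine le_trans ?_ h1
    have := hcut N
    have h2 := (Real.exp_pos (-(δ * C))).le
    simp only [hSdef]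
    gcongr
  have hVt : Tendsto V atTop atTop := by
    refine tendsto_atTop_mono hVS2 ?_
    exact (tendsto_atTop_add_const_right _ _ hS).const_mul_atTop (Real.exp_pos _)
  have hlaw' := hlaw q a n₀ P hVt
  rw [← hδ] at hlaw'
  set A : ℕ → ℝ := fun N =>
    ∑ n ∈ range N, bb t v q n₀ n * TT μ ℱ R (hf μ ℱ R w q δ n₀) (kk t) n ω with hA
  set B : ℕ → ℝ := fun N =>
    ∑ n ∈ range N, bb t v q n₀ n * (hf μ ℱ R w q δ n₀ n ω * lam μ ℱ R n ω) with hB
  have hAB : ∀ᶠ N in atTop, |A N - B N| ≤ δ * V N := by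
    have h1 : ∀ᶠ N in atTop, |(A N - B N) / V N| < δ := by
      have := (Metric.tendsto_nhds.mp hlaw') δ hδ0
      filter_upwards [this] with N hN
      rwa [Real.dist_eq, sub_zero] at hN
    filter_upwards [h1, hVt.eventually_gt_atTop 0] with N h2 h3
    rw [abs_div, abs_of_pos h3, div_lt_iff₀ h3] at h2
    exact h2.le
  have hh : ∀ m, n₀ ≤ m → hf μ ℱ R w q δ n₀ m ω = 1 := by
    intro m hm
    unfold hf
    rw [if_pos]
    exact ⟨hm, fun m' h1 _ => hω m' h1⟩
  have hBV : ∀ N, B N ≤ (1 + δ) * V N ∧ (1 - δ) * V N ≤ B N := by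
    intro N
    simp only [hB, hVdef]
    rw [mul_sum, mul_sum]
    have hterm : ∀ n, |bb t v q n₀ n * (hf μ ℱ R w q δ n₀ n ω * lam μ ℱ R n ω) -
        ss w t v q n₀ n| ≤ δ * ss w t v q n₀ n := by
      intro n
      rcases lt_or_ge n n₀ with h | h
      · unfold ss bb; simp [if_pos h]
      · unfold ss
        rw [hh n h, one_mul, ← mul_sub, abs_mul, abs_of_nonneg (bb_nonneg n)]
        have h1 := P.cnd_near h (hω n h)
        calc _ ≤ bb t v q n₀ n * (δ * (w (n + 1) / LL n)) :=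
              mul_le_mul_of_nonneg_left h1 (bb_nonneg n)
          _ = _ := by ring
    constructor
    · refine sum_le_sum fun n _ => ?_
      have := (abs_le.mp (hterm n)).2
      linarith
    · refine sum_le_sum fun n _ => ?_
      have := (abs_le.mp (hterm n)).1
      linarith
  -- the counts
  set X : ℕ → ℝ := fun N => ∑ n ∈ range N, XX R t n ω with hX
  have hexpp : Real.exp (δ * C + δ) * Real.exp (-(δ * C + δ)) = 1 := by
    rw [← Real.exp_add]; simp
  have hX1 : ∀ N, X N ≤ n₀ + Real.exp (δ * C + δ) * A N := by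
    intro N
    have h1 : ∀ n ∈ range N, XX R t n ω ≤ (if n < n₀ then (1 : ℝ) else 0) +
        Real.exp (δ * C + δ) * (bb t v q n₀ n * TT μ ℱ R (hf μ ℱ R w q δ n₀) (kk t) n ω) := by
      intro n _
      rcases lt_or_ge n n₀ with h | h
      · rw [if_pos h]
        unfold bb
        rw [if_pos h]
        have := XX_le_one (R := R) (t := t) n ω
        simp only [zero_mul, mul_zero, add_zero]
        exact this
      · rw [if_neg (not_lt.mpr h), zero_add]
        have h2 := (XX_TT P hω h).2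
        have h3 := mul_le_mul_of_nonneg_left h2 (Real.exp_pos (δ * C + δ)).le
        rw [← mul_assoc, hexpp, one_mul] at h3
        exact h3
    have h2 := sum_le_sum h1
    rw [sum_add_distrib, ← mul_sum] at h2
    refine h2.trans ?_
    have h3 : ∑ n ∈ range N, (if n < n₀ then (1 : ℝ) else 0) ≤ n₀ := by
      rw [← sum_filter, sum_const, nsmul_eq_mul, mul_one]
      have : ((range N).filter (fun n => n < n₀)).card ≤ (range n₀).card :=
        card_le_card fun n hn => by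
          rw [mem_filter] at hn
          exact mem_range.mpr hn.2
      rw [card_range] at this
      exact_mod_cast this
    linarith
  have hX2 : ∀ N, Real.exp (-(δ * C + δ)) * A N ≤ X N := by
    intro N
    simp only [hA, hX]
    rw [mul_sum]
    refine sum_le_sum fun n _ => ?_
    rcases lt_or_ge n n₀ with h | h
    · unfold bb
      rw [if_pos h]
      have := XX_nonneg (R := R) (t := t) n ω
      simpa using this
    · have h2 := (XX_TT P hω h).1
      have h3 := mul_le_mul_of_nonneg_left h2 (Real.exp_pos (-(δ * C + δ))).le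
      rw [← mul_assoc _ (Real.exp _), mul_comm (Real.exp (-(δ * C + δ))) (Real.exp (δ * C + δ)),
        hexpp, one_mul] at h3
      exact h3
  -- conclusion
  set F : ℝ := Real.exp ((2 * C + 1) * δ) * (1 + 2 * δ) with hF
  set G : ℝ := Real.exp (-((2 * C + 1) * δ)) * (1 - 2 * δ) with hG
  have hG0 : 0 ≤ G := mul_nonneg (Real.exp_pos _).le (by linarith)
  have hlarge : ∀ᶠ N in atTop, (n₀ : ℝ) < η / 2 * S N ∧ G * c₀ < η / 2 * S N ∧ 0 < S N := by
    have h1 : Tendsto (fun N => η / 2 * S N) atTop atTop := hS.const_mul_atTop (by positivity)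
    exact (h1.eventually_gt_atTop _).and ((h1.eventually_gt_atTop _).and (hS.eventually_gt_atTop 0))
  obtain ⟨N₂, hN₂⟩ := eventually_atTop.mp (hAB.and (hlarge.and (hVt.eventually_ge_atTop 0)))
  refine ⟨N₂, fun N hN => ?_⟩
  obtain ⟨g1, ⟨g2, g3, g4⟩, g5⟩ := hN₂ N hN.le
  rw [abs_le] at g1
  obtain ⟨b1, b2⟩ := hBV N
  have u1 : A N ≤ (1 + 2 * δ) * V N := by linarith [g1.2]
  have u2 : (1 - 2 * δ) * V N ≤ A N := by linarith [g1.1]
  have x1 : X N ≤ n₀ + F * S N := by
    refine (hX1 N).trans ?_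
    have h1 : Real.exp (δ * C + δ) * A N ≤ Real.exp (δ * C + δ) *
        ((1 + 2 * δ) * (Real.exp (δ * C) * S N)) := by
      have h3 := hVS1 N
      refine mul_le_mul_of_nonneg_left (u1.trans ?_) (Real.exp_pos _).le
      exact mul_le_mul_of_nonneg_left h3 (by linarith)
    have h2 : Real.exp (δ * C + δ) * ((1 + 2 * δ) * (Real.exp (δ * C) * S N)) = F * S N := by
      have e : Real.exp ((2 * C + 1) * δ) = Real.exp (δ * C + δ) * Real.exp (δ * C) := by
        rw [← Real.exp_add]; congr 1; ring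
      rw [hF, e]
      ring
    linarith
  have x2 : G * (S N - c₀) ≤ X N := by
    refine le_trans ?_ (hX2 N)
    have h1 : Real.exp (-(δ * C + δ)) * ((1 - 2 * δ) * (Real.exp (-(δ * C)) * (S N - c₀))) ≤
        Real.exp (-(δ * C + δ)) * A N := by
      have h3 := hVS2 N
      have h4 : 0 ≤ 1 - 2 * δ := by linarith
      refine mul_le_mul_of_nonneg_left (le_trans ?_ u2) (Real.exp_pos _).le
      exact mul_le_mul_of_nonneg_left h3 h4
    have h2 : Real.exp (-(δ * C + δ)) * ((1 - 2 * δ) * (Real.exp (-(δ * C)) * (S N - c₀))) =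
        G * (S N - c₀) := by
      rw [hG, show -((2 * C + 1) * δ) = -(δ * C + δ) + -(δ * C) by ring, Real.exp_add]
      ring
    linarith
  rw [Real.dist_eq, abs_lt]
  constructor
  · have h1 : (1 - η) * S N < X N := by nlinarith
    have h2 : 1 - η < X N / S N := by rwa [lt_div_iff₀ g4]
    linarith
  · have h1 : X N < (1 + η) * S N := by nlinarith
    have h2 : X N / S N < 1 + η := by rwa [div_lt_iff₀ g4]
    linarith

end Pool.Agent.Helper88.CN
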