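import Mathlib

open MeasureTheory ProbabilityTheory Filter
open scoped Topology

set_option linter.unusedSectionVars false

namespace Pool.Agent.Helper88.GapCore

variable {Ω : Type*} [mΩ : MeasurableSpace Ω] {μ : Measure Ω}

/-- `n + 1` is chosen, none of `n + 2, …, n + 1 + j` is chosen, and all is good up to time
`n + j`. -/
def V (G R : ℕ → Set Ω) (n : ℕ) : ℕ → Set Ω
  | 0 => G n ∩ R (n + 1)
  | j + 1 => V G R n j ∩ G (n + 1 + j) ∩ (R (n + 1 + j + 1))ᶜ

structure Setup (μ : Measure Ω) (ℱ : Filtration ℕ mΩ) (G R : ℕ → Set Ω) (l u : ℕ → ℝ) (N : ℕ) :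
    Prop where
  hG : ∀ n, MeasurableSet[ℱ n] (G n)
  hR : ∀ n, MeasurableSet[ℱ n] (R n)
  hanti : Antitone G
  hU : ∀ n, N ≤ n → ∀ A : Set Ω, MeasurableSet[ℱ n] A → A ⊆ G n →
    l (n + 1) * μ.real A ≤ μ.real (A ∩ R (n + 1)) ∧
      μ.real (A ∩ R (n + 1)) ≤ u (n + 1) * μ.real A
  hl : ∀ n, N ≤ n → 0 ≤ l (n + 1)
  hl1 : ∀ n, N ≤ n → l (n + 1) ≤ 1
  hu : ∀ n, N ≤ n → u (n + 1) ≤ 1
  hu0 : ∀ n, N ≤ n → 0 ≤ u (n + 1)

variable {ℱ : Filtration ℕ mΩ} {G R : ℕ → Set Ω} {l u : ℕ → ℝ} {N : ℕ}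

lemma V_meas (hS : Setup μ ℱ G R l u N) (n j : ℕ) :
    MeasurableSet[ℱ (n + 1 + j)] (V G R n j) := by
  induction j with
  | zero =>
    exact MeasurableSet.inter (ℱ.mono (by omega) _ (hS.hG n)) (hS.hR (n + 1))
  | succ j ih =>
    refine MeasurableSet.inter (MeasurableSet.inter ?_ ?_) ?_
    · exact ℱ.mono (by omega) _ ih
    · exact ℱ.mono (by omega) _ (hS.hG _)
    · exact (hS.hR (n + 1 + j + 1)).compl

lemma V_subset_G (G R : ℕ → Set Ω) (n j : ℕ) : V G R n j ⊆ G (n + j) := by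
  cases j with
  | zero => exact Set.inter_subset_left
  | succ j =>
    intro ω hω
    have := hω.1.2
    rwa [show n + (j + 1) = n + 1 + j by ring]

lemma V_subset_R (G R : ℕ → Set Ω) (n j : ℕ) : V G R n j ⊆ R (n + 1) := by
  induction j with
  | zero => exact Set.inter_subset_right
  | succ j ih => exact fun ω hω => ih hω.1.1

lemma V_subset_notR (G R : ℕ → Set Ω) (n : ℕ) {k j : ℕ} (hkj : k < j) :
    V G R n j ⊆ (R (n + 1 + k + 1))ᶜ := by
  induction j with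
  | zero => omega
  | succ j ih =>
    rcases Nat.lt_succ_iff_lt_or_eq.mp hkj with h | h
    · exact fun ω hω => ih h hω.1.1
    · subst h; exact fun ω hω => hω.2

lemma meas_compl [IsProbabilityMeasure μ] (hS : Setup μ ℱ G R l u N) {n : ℕ} (hn : N ≤ n)
    {A : Set Ω} (hA : MeasurableSet[ℱ n] A) (hAG : A ⊆ G n) :
    (1 - u (n + 1)) * μ.real A ≤ μ.real (A ∩ (R (n + 1))ᶜ) ∧
      μ.real (A ∩ (R (n + 1))ᶜ) ≤ (1 - l (n + 1)) * μ.real A := by
  have h := hS.hU n hn A hA hAG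
  have hRm : MeasurableSet (R (n + 1)) := ℱ.le _ _ (hS.hR (n + 1))
  have h2 := measureReal_inter_add_sdiff (μ := μ) (s := A) (t := R (n + 1)) hRm
  rw [Set.sdiff_eq] at h2
  constructor <;> nlinarith [h.1, h.2]

lemma V_upper [IsProbabilityMeasure μ] (hS : Setup μ ℱ G R l u N) {n : ℕ} (hn : N ≤ n) (j : ℕ)
    {F : Set Ω} (hF : MeasurableSet[ℱ n] F) :
    μ.real (F ∩ V G R n j) ≤
      u (n + 1) * (∏ i ∈ Finset.range j, (1 - l (n + 1 + i + 1))) * μ.real (F ∩ G n) := by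
  induction j with
  | zero =>
    have h := (hS.hU n hn (F ∩ G n) (hF.inter (hS.hG n)) Set.inter_subset_right).2
    simp only [V, Finset.range_zero, Finset.prod_empty, mul_one]
    rwa [← Set.inter_assoc]
  | succ j ih =>
    have hF' : MeasurableSet[ℱ (n + 1 + j)] (F ∩ V G R n j ∩ G (n + 1 + j)) :=
      ((ℱ.mono (by omega) _ hF).inter (V_meas hS n j)).inter (hS.hG _)
    have h := (meas_compl hS (by omega) hF' Set.inter_subset_right).2
    have h2 : μ.real (F ∩ V G R n j ∩ G (n + 1 + j)) ≤ μ.real (F ∩ V G R n j) :=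
      measureReal_mono Set.inter_subset_left
    have h3 : F ∩ V G R n (j + 1) = F ∩ V G R n j ∩ G (n + 1 + j) ∩ (R (n + 1 + j + 1))ᶜ := by
      simp only [V, Set.inter_assoc]
    rw [h3, Finset.prod_range_succ]
    have hl1 : 0 ≤ 1 - l (n + 1 + j + 1) := by
      have := hS.hl1 (n + 1 + j) (by omega); linarith
    calc _ ≤ (1 - l (n + 1 + j + 1)) * μ.real (F ∩ V G R n j ∩ G (n + 1 + j)) := h
      _ ≤ (1 - l (n + 1 + j + 1)) * μ.real (F ∩ V G R n j) := by gcongr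
      _ ≤ (1 - l (n + 1 + j + 1)) *
          (u (n + 1) * (∏ i ∈ Finset.range j, (1 - l (n + 1 + i + 1))) * μ.real (F ∩ G n)) := by
        gcongr
      _ = _ := by ring

/-- the failure event during the run after `n + 1` -/
def X (G R : ℕ → Set Ω) (n i : ℕ) : Set Ω := V G R n i \ G (n + 1 + i)

lemma X_meas (hS : Setup μ ℱ G R l u N) (n i : ℕ) : MeasurableSet (X G R n i) :=
  (ℱ.le _ _ (V_meas hS n i)).diff (ℱ.le _ _ (hS.hG _))

lemma V_lower [IsProbabilityMeasure μ] (hS : Setup μ ℱ G R l u N) {n : ℕ} (hn : N ≤ n) (j : ℕ)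
    {F : Set Ω} (hF : MeasurableSet[ℱ n] F) :
    l (n + 1) * (∏ i ∈ Finset.range j, (1 - u (n + 1 + i + 1))) * μ.real (F ∩ G n) -
      ∑ i ∈ Finset.range j, μ.real (F ∩ X G R n i) ≤ μ.real (F ∩ V G R n j) := by
  induction j with
  | zero =>
    have h := (hS.hU n hn (F ∩ G n) (hF.inter (hS.hG n)) Set.inter_subset_right).1
    simp only [V, Finset.range_zero, Finset.prod_empty, mul_one, Finset.sum_empty, sub_zero]
    rwa [← Set.inter_assoc]
  | succ j ih =>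
    have hF' : MeasurableSet[ℱ (n + 1 + j)] (F ∩ V G R n j ∩ G (n + 1 + j)) :=
      ((ℱ.mono (by omega) _ hF).inter (V_meas hS n j)).inter (hS.hG _)
    have h := (meas_compl hS (by omega) hF' Set.inter_subset_right).1
    have hGm : MeasurableSet (G (n + 1 + j)) := ℱ.le _ _ (hS.hG _)
    have h2 := measureReal_inter_add_sdiff (μ := μ) (s := F ∩ V G R n j) (t := G (n + 1 + j)) hGm
    have h4 : (F ∩ V G R n j) \ G (n + 1 + j) = F ∩ X G R n j := by
      rw [X, Set.inter_sdiff_assoc]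
    rw [h4] at h2
    have h3 : F ∩ V G R n (j + 1) = F ∩ V G R n j ∩ G (n + 1 + j) ∩ (R (n + 1 + j + 1))ᶜ := by
      simp only [V, Set.inter_assoc]
    rw [h3, Finset.prod_range_succ, Finset.sum_range_succ]
    have hu1 : 0 ≤ 1 - u (n + 1 + j + 1) := by
      have := hS.hu (n + 1 + j) (by omega); linarith
    have hl0 := hS.hl n hn
    have hu2 : 1 - u (n + 1 + j + 1) ≤ 1 := by
      have := hS.hu0 (n + 1 + j) (by omega); linarith
    set a := μ.real (F ∩ V G R n j) with ha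
    set b := μ.real (F ∩ V G R n j ∩ G (n + 1 + j)) with hb
    set c := μ.real (F ∩ X G R n j) with hc
    set P := l (n + 1) * (∏ i ∈ Finset.range j, (1 - u (n + 1 + i + 1))) * μ.real (F ∩ G n)
    have hc0 : 0 ≤ c := measureReal_nonneg
    have hs0 : 0 ≤ ∑ i ∈ Finset.range j, μ.real (F ∩ X G R n i) :=
      Finset.sum_nonneg fun i _ => measureReal_nonneg
    have : l (n + 1) * ((∏ i ∈ Finset.range j, (1 - u (n + 1 + i + 1))) *
        (1 - u (n + 1 + j + 1))) * μ.real (F ∩ G n) = (1 - u (n + 1 + j + 1)) * P := by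
      simp only [P]; ring
    rw [this]
    nlinarith

lemma X_subset_compl (G R : ℕ → Set Ω) (n i : ℕ) : X G R n i ⊆ (G (n + 1 + i))ᶜ :=
  fun _ hω => hω.2

lemma X_disjoint (hanti : Antitone G) {n i n' i' : ℕ} (hne : (n, i) ≠ (n', i')) :
    Disjoint (X G R n i) (X G R n' i') := by
  wlog hle : n + 1 + i < n' + 1 + i' ∨ (n + 1 + i = n' + 1 + i' ∧ n < n') generalizing n i n' i'
  · refine (this (n := n') (i := i') (n' := n) (i' := i) (Ne.symm hne) ?_).symm
    by_contra hcon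
    push Not at hle hcon
    have h1 : n + 1 + i = n' + 1 + i' := by omega
    have h2 := hle.2 h1
    have h3 := hcon.2 h1.symm
    have h4 : n = n' := by omega
    subst h4
    exact hne (by simp; omega)
  rw [Set.disjoint_left]
  intro ω h1 h2
  rcases hle with h | ⟨h, hn⟩
  · have h3 := V_subset_G G R n' i' h2.1
    exact h1.2 (hanti (by omega) h3)
  · have h3 := V_subset_R G R n' i' h2.1
    have h4 := V_subset_notR G R n (k := n' - n - 1) (j := i) (by omega) h1.1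
    rw [show n + 1 + (n' - n - 1) + 1 = n' + 1 by omega] at h4
    exact h4 h3

lemma sum_X_le [IsProbabilityMeasure μ] (hS : Setup μ ℱ G R l u N) (S : Finset ℕ) (L : ℕ → ℕ)
    (M : ℕ) (hM : ∀ n ∈ S, n + L n ≤ M) {F : Set Ω} (hF : MeasurableSet F) :
    ∑ n ∈ S, ∑ i ∈ Finset.range (L n), μ.real (F ∩ X G R n i) ≤ μ.real (F \ G M) := by
  classical
  rw [Finset.sum_sigma' S (fun n => Finset.range (L n)) (fun n i => μ.real (F ∩ X G R n i))]
  rw [← measureReal_biUnion_finset (μ := μ)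
    (s := S.sigma fun n => Finset.range (L n)) (f := fun p : (Σ _ : ℕ, ℕ) => F ∩ X G R p.1 p.2)]
  · refine measureReal_mono ?_
    intro ω hω
    simp only [Set.mem_iUnion, Finset.mem_sigma, Finset.mem_range] at hω
    obtain ⟨⟨n, i⟩, ⟨hn, hi⟩, hω⟩ := hω
    refine ⟨hω.1, fun hcon => hω.2.2 (hS.hanti ?_ hcon)⟩
    have := hM n hn
    simp only at hi ⊢
    omega
  · rintro ⟨n, i⟩ _ ⟨n', i'⟩ _ hne
    refine (X_disjoint hS.hanti ?_).mono Set.inter_subset_right Set.inter_subset_right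
    intro hcon
    apply hne
    simp only [Prod.mk.injEq] at hcon
    rw [hcon.1, hcon.2]
  · intro p _
    exact hF.inter (X_meas hS _ _)

/-- lower product -/
noncomputable def Pm (l u : ℕ → ℝ) (n j : ℕ) : ℝ :=
  l (n + 1) * ∏ i ∈ Finset.range j, (1 - u (n + 1 + i + 1))

/-- upper product -/
noncomputable def Pp (l u : ℕ → ℝ) (n j : ℕ) : ℝ :=
  u (n + 1) * ∏ i ∈ Finset.range j, (1 - l (n + 1 + i + 1))

lemma Pm_nonneg (hS : Setup μ ℱ G R l u N) {n : ℕ} (hn : N ≤ n) (j : ℕ) : 0 ≤ Pm l u n j := by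
  refine mul_nonneg (hS.hl n hn) (Finset.prod_nonneg fun i _ => ?_)
  have := hS.hu (n + 1 + i) (by omega)
  linarith

lemma Pp_nonneg (hS : Setup μ ℱ G R l u N) {n : ℕ} (hn : N ≤ n) (j : ℕ) : 0 ≤ Pp l u n j := by
  refine mul_nonneg (hS.hu0 n hn) (Finset.prod_nonneg fun i _ => ?_)
  have := hS.hl1 (n + 1 + i) (by omega)
  linarith

lemma sum_V_ge [IsProbabilityMeasure μ] (hS : Setup μ ℱ G R l u N) (S : Finset ℕ) (L : ℕ → ℕ)
    (M a : ℕ) (hNa : N ≤ a) (hSa : ∀ n ∈ S, a ≤ n)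
    (hM : ∀ n ∈ S, n + L n ≤ M) {F : Set Ω} (hF : MeasurableSet[ℱ a] F) :
    (∑ n ∈ S, Pm l u n (L n)) * μ.real (F ∩ G M) - μ.real (F \ G M) ≤
      ∑ n ∈ S, μ.real (F ∩ V G R n (L n)) := by
  have h1 : ∀ n ∈ S, Pm l u n (L n) * μ.real (F ∩ G M) -
      ∑ i ∈ Finset.range (L n), μ.real (F ∩ X G R n i) ≤ μ.real (F ∩ V G R n (L n)) := by
    intro n hn
    have hna := hSa n hn
    have h2 := V_lower hS (hNa.trans hna) (L n) (ℱ.mono hna _ hF)
    have h3 : μ.real (F ∩ G M) ≤ μ.real (F ∩ G n) :=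
      measureReal_mono (Set.inter_subset_inter_right _ (hS.hanti (by have := hM n hn; omega)))
    have h4 := Pm_nonneg hS (hNa.trans hna) (L n)
    have h5 : Pm l u n (L n) * μ.real (F ∩ G M) ≤ Pm l u n (L n) * μ.real (F ∩ G n) := by gcongr
    unfold Pm at h4 h5 ⊢
    linarith
  have h2 := Finset.sum_le_sum h1
  rw [Finset.sum_sub_distrib, ← Finset.sum_mul] at h2
  have h3 := sum_X_le hS S L M hM (ℱ.le _ _ hF)
  linarith

lemma pair_le [IsProbabilityMeasure μ] (hS : Setup μ ℱ G R l u N) (L : ℕ → ℕ)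
    (a : ℕ) (hNa : N ≤ a) {n m : ℕ} (han : a ≤ n) (hnm : n < m)
    {F : Set Ω} (hF : MeasurableSet[ℱ a] F) :
    μ.real (F ∩ V G R n (L n) ∩ V G R m (L m)) ≤
      Pp l u n (L n) * Pp l u m (L m) * μ.real F := by
  have hP1 := Pp_nonneg hS (hNa.trans han) (L n)
  have hP2 := Pp_nonneg hS (n := m) (by omega) (L m)
  by_cases h : m ≤ n + L n
  · have : F ∩ V G R n (L n) ∩ V G R m (L m) = ∅ := by
      rw [Set.eq_empty_iff_forall_notMem]
      rintro ω ⟨⟨_, h1⟩, h2⟩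
      have h3 := V_subset_R G R m _ h2
      have h4 := V_subset_notR G R n (k := m - n - 1) (j := L n) (by omega) h1
      rw [show n + 1 + (m - n - 1) + 1 = m + 1 by omega] at h4
      exact h4 h3
    rw [this]
    simp only [measureReal_empty]
    positivity
  · push Not at h
    have hF' : MeasurableSet[ℱ m] (F ∩ V G R n (L n)) :=
      (ℱ.mono (by omega) _ hF).inter (ℱ.mono (by omega) _ (V_meas hS n (L n)))
    have h1 := V_upper hS (n := m) (by omega) (L m) hF'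
    have h2 := V_upper hS (n := n) (by omega) (L n) (ℱ.mono han _ hF)
    have h3 : μ.real (F ∩ V G R n (L n) ∩ G m) ≤ μ.real (F ∩ V G R n (L n)) :=
      measureReal_mono Set.inter_subset_left
    have h4 : μ.real (F ∩ G n) ≤ μ.real F := measureReal_mono Set.inter_subset_left
    change _ ≤ Pp l u m (L m) * _ at h1
    change _ ≤ Pp l u n (L n) * _ at h2
    calc _ ≤ Pp l u m (L m) * μ.real (F ∩ V G R n (L n) ∩ G m) := h1
      _ ≤ Pp l u m (L m) * μ.real (F ∩ V G R n (L n)) := by gcongr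
      _ ≤ Pp l u m (L m) * (Pp l u n (L n) * μ.real (F ∩ G n)) := by gcongr
      _ ≤ Pp l u m (L m) * (Pp l u n (L n) * μ.real F) := by gcongr
      _ = _ := by ring

lemma bonferroni [IsProbabilityMeasure μ] (hS : Setup μ ℱ G R l u N) (S : Finset ℕ) (L : ℕ → ℕ)
    (a : ℕ) (hNa : N ≤ a) (hSa : ∀ n ∈ S, a ≤ n) {F : Set Ω} (hF : MeasurableSet[ℱ a] F) :
    ∑ n ∈ S, μ.real (F ∩ V G R n (L n)) -
      (∑ n ∈ S, Pp l u n (L n)) ^ 2 / 2 * μ.real F ≤ μ.real (F ∩ ⋃ n ∈ S, V G R n (L n)) := by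
  induction S using Finset.induction_on_max with
  | empty => simp
  | insert m S hm ih =>
    have hmS : m ∉ S := fun hcon => lt_irrefl _ (hm m hcon)
    have ih' := ih (fun n hn => hSa n (Finset.mem_insert_of_mem hn))
    rw [Finset.sum_insert hmS, Finset.sum_insert hmS]
    have ham := hSa m (Finset.mem_insert_self _ _)
    have h1 : F ∩ ⋃ n ∈ insert m S, V G R n (L n) =
        (F ∩ V G R m (L m)) ∪ (F ∩ ⋃ n ∈ S, V G R n (L n)) := by
      rw [Finset.set_biUnion_insert, Set.inter_union_distrib_left]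
    have hmeas : MeasurableSet (F ∩ ⋃ n ∈ S, V G R n (L n)) :=
      (ℱ.le _ _ hF).inter (Finset.measurableSet_biUnion _ fun n _ => ℱ.le _ _ (V_meas hS n _))
    have h2 := measureReal_union_add_inter (μ := μ) (s := F ∩ V G R m (L m)) hmeas
    have h3 : μ.real ((F ∩ V G R m (L m)) ∩ (F ∩ ⋃ n ∈ S, V G R n (L n))) ≤
        ∑ n ∈ S, μ.real (F ∩ V G R n (L n) ∩ V G R m (L m)) := by
      refine le_trans (measureReal_mono ?_ (measure_ne_top _ _))
        (measureReal_biUnion_finset_le S _)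
      rintro ω ⟨⟨hωF, hω1⟩, _, hω2⟩
      simp only [Set.mem_iUnion] at hω2 ⊢
      obtain ⟨n, hn, hω2⟩ := hω2
      exact ⟨n, hn, ⟨hωF, hω2⟩, hω1⟩
    have h4 : ∑ n ∈ S, μ.real (F ∩ V G R n (L n) ∩ V G R m (L m)) ≤
        ∑ n ∈ S, Pp l u n (L n) * (Pp l u m (L m) * μ.real F) := by
      refine Finset.sum_le_sum fun n hn => ?_
      have := pair_le hS L a hNa (hSa n (Finset.mem_insert_of_mem hn)) (hm n hn) hF
      linarith
    rw [← Finset.sum_mul] at h4
    rw [h1]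
    have h5 : 0 ≤ μ.real F := measureReal_nonneg
    have h6 := Pp_nonneg hS (hNa.trans ham) (L m)
    nlinarith [mul_nonneg (mul_nonneg h6 h6) h5]

lemma step [IsProbabilityMeasure μ] (hS : Setup μ ℱ G R l u N) (S : Finset ℕ) (L : ℕ → ℕ)
    (M a : ℕ) (hNa : N ≤ a) (hSa : ∀ n ∈ S, a ≤ n)
    (hM : ∀ n ∈ S, n + L n ≤ M) {F : Set Ω} (hF : MeasurableSet[ℱ a] F) {κ δ : ℝ}
    (hκ : 0 < κ) (hκ1 : κ ≤ 1) (hP : ∀ n ∈ S, κ * Pp l u n (L n) ≤ Pm l u n (L n))
    (hs1 : δ ≤ ∑ n ∈ S, Pp l u n (L n)) (hs2 : ∑ n ∈ S, Pp l u n (L n) ≤ κ / 2) :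
    μ.real (F ∩ G M ∩ ⋂ n ∈ S, (V G R n (L n))ᶜ) ≤ (1 - κ * δ / 8) * μ.real F := by
  have h1 := sum_V_ge hS S L M a hNa hSa hM hF
  have h2 := bonferroni hS S L a hNa hSa hF
  have hFm : MeasurableSet F := ℱ.le _ _ hF
  have hGm : MeasurableSet (G M) := ℱ.le _ _ (hS.hG M)
  have hBm : MeasurableSet (⋂ n ∈ S, (V G R n (L n))ᶜ) :=
    Finset.measurableSet_biInter _ fun n _ => (ℱ.le _ _ (V_meas hS n _)).compl
  have h3 := measureReal_inter_add_sdiff (μ := μ) (s := F) (t := G M) hGm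
  have h4 := measureReal_inter_add_sdiff (μ := μ) (s := F)
    (t := G M ∩ ⋂ n ∈ S, (V G R n (L n))ᶜ) (hGm.inter hBm)
  rw [← Set.inter_assoc] at h4
  have h5 : μ.real (F \ G M) ≤ μ.real (F \ (G M ∩ ⋂ n ∈ S, (V G R n (L n))ᶜ)) :=
    measureReal_mono (fun ω hω => ⟨hω.1, fun hcon => hω.2 hcon.1⟩) (measure_ne_top _ _)
  have h6 : μ.real (F ∩ ⋃ n ∈ S, V G R n (L n)) ≤
      μ.real (F \ (G M ∩ ⋂ n ∈ S, (V G R n (L n))ᶜ)) := by
    refine measureReal_mono ?_ (measure_ne_top _ _)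
    rintro ω ⟨hω1, hω2⟩
    refine ⟨hω1, fun hcon => ?_⟩
    simp only [Set.mem_iUnion] at hω2
    obtain ⟨n, hn, hω2⟩ := hω2
    exact (Set.mem_iInter₂.mp hcon.2 n hn) hω2
  have h7 : κ * ∑ n ∈ S, Pp l u n (L n) ≤ ∑ n ∈ S, Pm l u n (L n) := by
    rw [Finset.mul_sum]
    exact Finset.sum_le_sum hP
  set s := ∑ n ∈ S, Pp l u n (L n) with hs
  set f := μ.real F with hf
  set x := μ.real (F \ G M) with hx
  set y := μ.real (F \ (G M ∩ ⋂ n ∈ S, (V G R n (L n))ᶜ)) with hy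
  have hf0 : 0 ≤ f := measureReal_nonneg
  have hx0 : 0 ≤ x := measureReal_nonneg
  have hs0 : 0 ≤ s := Finset.sum_nonneg fun n hn => Pp_nonneg hS (hNa.trans (hSa n hn)) _
  have hg0 : 0 ≤ μ.real (F ∩ G M) := measureReal_nonneg
  have h8 : κ * s * (f - x) - x - s ^ 2 / 2 * f ≤ y := by
    have : κ * s * (f - x) ≤ (∑ n ∈ S, Pm l u n (L n)) * μ.real (F ∩ G M) := by
      have : f - x = μ.real (F ∩ G M) := by linarith
      rw [this]
      gcongr
    linarith
  have h9 : s ^ 2 / 2 * f ≤ κ * s / 4 * f := by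
    apply mul_le_mul_of_nonneg_right _ hf0
    nlinarith
  have h10 : κ * s * x ≤ x := by
    have : κ * s ≤ 1 := by nlinarith
    nlinarith
  have h11 : κ * s / 8 * f ≤ y := by
    by_cases hc : κ * s / 8 * f ≤ x
    · linarith
    · push Not at hc
      nlinarith
  have h12 : κ * δ / 8 * f ≤ κ * s / 8 * f := by gcongr
  linarith

theorem infinite_of_div [IsProbabilityMeasure μ] (hS : Setup μ ℱ G R l u N) (L : ℕ → ℕ)
    (I : Set ℕ) {κ δ : ℝ} (hκ : 0 < κ) (hκ1 : κ ≤ 1) (hδ : 0 < δ) (hδ1 : δ ≤ 1)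
    (hP : ∀ n, N ≤ n → n ∈ I → κ * Pp l u n (L n) ≤ Pm l u n (L n))
    (hdiv : ∀ a, ∃ S : Finset ℕ, (∀ n ∈ S, a ≤ n ∧ n ∈ I) ∧ δ ≤ ∑ n ∈ S, Pp l u n (L n) ∧
      ∑ n ∈ S, Pp l u n (L n) ≤ κ / 2) :
    ∀ᵐ ω ∂μ, (∀ n, ω ∈ G n) → ∀ a, ∃ n, a ≤ n ∧ n ∈ I ∧ ω ∈ V G R n (L n) := by
  have key : ∀ a, μ {ω | (∀ n, ω ∈ G n) ∧ ∀ n, a ≤ n → n ∈ I → ω ∉ V G R n (L n)} = 0 := by
    intro a
    set B := {ω | (∀ n, ω ∈ G n) ∧ ∀ n, a ≤ n → n ∈ I → ω ∉ V G R n (L n)} with hB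
    have hc0 : 0 ≤ 1 - κ * δ / 8 := by nlinarith
    have hc1 : 1 - κ * δ / 8 < 1 := by
      have : 0 < κ * δ := by positivity
      linarith
    have hk : ∀ k : ℕ, ∃ b, max a N ≤ b ∧ ∃ F : Set Ω, MeasurableSet[ℱ b] F ∧ B ⊆ F ∧
        μ.real F ≤ (1 - κ * δ / 8) ^ k := by
      intro k
      induction k with
      | zero =>
        refine ⟨max a N, le_rfl, Set.univ, MeasurableSet.univ, Set.subset_univ _, ?_⟩
        simp
      | succ k ih =>
        obtain ⟨b, hb, F, hF, hBF, hFk⟩ := ih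
        obtain ⟨S, hSb, hs1, hs2⟩ := hdiv b
        set M := max b (S.sup fun n => n + 1 + L n) with hM
        have hMS : ∀ n ∈ S, n + 1 + L n ≤ M := fun n hn =>
          le_trans (Finset.le_sup (f := fun n => n + 1 + L n) hn) (le_max_right _ _)
        refine ⟨M, hb.trans (le_max_left _ _), F ∩ G M ∩ ⋂ n ∈ S, (V G R n (L n))ᶜ, ?_, ?_, ?_⟩
        · refine MeasurableSet.inter (MeasurableSet.inter (ℱ.mono (le_max_left _ _) _ hF)
            (hS.hG M)) ?_
          exact Finset.measurableSet_biInter _ fun n hn =>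
            (ℱ.mono (hMS n hn) _ (V_meas hS n _)).compl
        · intro ω hω
          refine ⟨⟨hBF hω, hω.1 M⟩, ?_⟩
          simp only [Set.mem_iInter]
          intro n hn
          exact hω.2 n (((le_max_left _ _).trans hb).trans (hSb n hn).1) (hSb n hn).2
        · have h1 := step hS S L M b ((le_max_right _ _).trans hb) (fun n hn => (hSb n hn).1)
            (fun n hn => by have := hMS n hn; omega) hF hκ hκ1
            (fun n hn => hP n (((le_max_right _ _).trans hb).trans (hSb n hn).1) (hSb n hn).2)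
            hs1 hs2
          rw [pow_succ]
          calc _ ≤ (1 - κ * δ / 8) * μ.real F := h1
            _ ≤ (1 - κ * δ / 8) * (1 - κ * δ / 8) ^ k := by gcongr
            _ = _ := by ring
    have hlim := tendsto_pow_atTop_nhds_zero_of_lt_one hc0 hc1
    have hle : μ.real B ≤ 0 := by
      refine ge_of_tendsto' hlim fun k => ?_
      obtain ⟨b, _, F, _, hBF, hFk⟩ := hk k
      exact (measureReal_mono hBF (measure_ne_top _ _)).trans hFk
    have h0 : μ.real B = 0 := le_antisymm hle measureReal_nonneg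
    rwa [measureReal_eq_zero_iff] at h0
  have hall : ∀ᵐ ω ∂μ, ∀ a : ℕ,
      ω ∉ {ω | (∀ n, ω ∈ G n) ∧ ∀ n, a ≤ n → n ∈ I → ω ∉ V G R n (L n)} := by
    rw [ae_all_iff]
    intro a
    exact measure_eq_zero_iff_ae_notMem.mp (key a)
  filter_upwards [hall] with ω hω hG a
  have := hω a
  by_contra hcon
  push Not at hcon
  exact this ⟨hG, hcon⟩

theorem finite_of_sum [IsProbabilityMeasure μ] (hS : Setup μ ℱ G R l u N) (L : ℕ → ℕ)
    (I : Set ℕ) (hsum : Summable (I.indicator fun n => Pp l u n (L n))) :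
    ∀ᵐ ω ∂μ, {n | n ∈ I ∧ ω ∈ V G R n (L n)}.Finite := by
  classical
  set E : ℕ → Set Ω := fun n => if n ∈ I ∧ N ≤ n then V G R n (L n) else ∅ with hE
  have hle : ∀ n, μ.real (E n) ≤ |I.indicator (fun n => Pp l u n (L n)) n| := by
    intro n
    by_cases h : n ∈ I ∧ N ≤ n
    · simp only [hE, if_pos h, Set.indicator_of_mem h.1]
      have h1 := V_upper hS h.2 (L n) (F := Set.univ) MeasurableSet.univ
      rw [Set.univ_inter, Set.univ_inter] at h1
      have h2 : μ.real (G n) ≤ 1 := measureReal_le_one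
      have h3 := Pp_nonneg hS h.2 (L n)
      refine le_trans ?_ (le_abs_self _)
      unfold Pp at h3 ⊢
      nlinarith [measureReal_nonneg (μ := μ) (s := G n)]
    · simp only [hE, if_neg h, measureReal_empty]
      positivity
  have hsum2 : Summable fun n => μ.real (E n) :=
    Summable.of_nonneg_of_le (fun n => measureReal_nonneg) hle hsum.abs
  have h2 : ∑' n : ℕ, μ (E n) ≠ ⊤ := by
    have h3 := hsum2.tsum_ofReal_ne_top
    have h4 : ∀ n : ℕ, ENNReal.ofReal (μ.real (E n)) = μ (E n) := fun n => by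
      rw [measureReal_def, ENNReal.ofReal_toReal (measure_ne_top μ _)]
    simpa only [h4] using h3
  filter_upwards [ae_finite_setOfPred_mem h2] with ω hω
  refine (hω.union (Set.finite_lt_nat N)).subset ?_
  rintro n ⟨hn1, hn2⟩
  by_cases h : N ≤ n
  · left
    simp only [hE, Set.mem_ofPred_eq, if_pos (And.intro hn1 h)]
    exact hn2
  · right
    simpa using h

end Pool.Agent.Helper88.GapCore
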