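import Mathlib
import Pool.Agent.Helper88.GapCore

open MeasureTheory ProbabilityTheory Filter
open scoped Topology

namespace Pool.Agent.Helper88.GapCore

/-- lower intensity -/
noncomputable def lo (w : ℕ → ℝ) (K : ℝ) (i : ℕ) : ℝ :=
  w i / Real.log i - K * w i / Real.log i ^ 2

/-- upper intensity -/
noncomputable def up (w : ℕ → ℝ) (K : ℝ) (i : ℕ) : ℝ :=
  w i / Real.log i + K * w i / Real.log i ^ 2

section

variable {w : ℕ → ℝ} {W K : ℝ}

lemma w_le (hW : ∀ n k : ℕ, |∑ i ∈ Finset.range k, w (n + i + 1) - k| ≤ W) (n : ℕ) :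
    w (n + 1) ≤ W + 1 := by
  have h := (abs_le.mp (hW n 1)).2
  simp at h
  linarith

lemma W_nonneg (hW : ∀ n k : ℕ, |∑ i ∈ Finset.range k, w (n + i + 1) - k| ≤ W) : 0 ≤ W :=
  (abs_nonneg _).trans (hW 0 0)

lemma log_add_le {m : ℕ} (hm : 0 < m) (i : ℕ) :
    Real.log ((m + i + 1 : ℕ) : ℝ) ≤ Real.log m + (i + 1) / m := by
  have hm' : (0 : ℝ) < m := by exact_mod_cast hm
  have h1 : ((m + i + 1 : ℕ) : ℝ) = m * (1 + (i + 1) / m) := by push_cast; field_simp; ring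
  rw [h1, Real.log_mul hm'.ne' (by positivity)]
  have h2 : Real.log (1 + ((i : ℝ) + 1) / m) ≤ (i + 1) / m := by
    have := Real.log_le_sub_one_of_pos (x := 1 + ((i : ℝ) + 1) / m) (by positivity)
    linarith
  linarith

lemma log_mono_add {m : ℕ} (hm : 0 < m) (i : ℕ) :
    Real.log m ≤ Real.log ((m + i + 1 : ℕ) : ℝ) := by
  apply Real.log_le_log (by exact_mod_cast hm)
  exact_mod_cast (by omega : m ≤ m + i + 1)

/-- lower bound for the sum of lower intensities -/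
lemma sum_lo_ge (hw : ∀ i, 0 ≤ w i)
    (hW : ∀ n k : ℕ, |∑ i ∈ Finset.range k, w (n + i + 1) - k| ≤ W) (hK : 0 ≤ K)
    {m L : ℕ} (hm : 0 < m) (h1 : K + 1 ≤ Real.log m) (hL : (L : ℝ) ≤ 4 * Real.log m ^ 2)
    (hLm : (L : ℝ) ≤ m) :
    (L : ℝ) / Real.log m - (W + 4 * (K + 1)) ≤ ∑ i ∈ Finset.range L, lo w K (m + i + 1) := by
  set ℓ := Real.log m with hℓ
  have hℓ1 : 1 ≤ ℓ := by linarith
  have hℓ0 : 0 < ℓ := by linarith
  have hm' : (0 : ℝ) < m := by exact_mod_cast hm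
  have hW0 := W_nonneg hW
  have hterm : ∀ i ∈ Finset.range L, (1 / ℓ - (K + 1) / ℓ ^ 2) * w (m + i + 1) ≤
      lo w K (m + i + 1) := by
    intro i hi
    rw [Finset.mem_range] at hi
    have hge := log_mono_add hm i
    have hle := log_add_le hm i
    rw [← hℓ] at hge hle
    set ℓ' := Real.log ((m + i + 1 : ℕ) : ℝ) with hℓ'
    have hi' : ((i : ℝ) + 1) / m ≤ 1 := by
      rw [div_le_one hm']
      have : ((i : ℝ) + 1) ≤ L := by exact_mod_cast hi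
      linarith
    have hle2 : ℓ' ≤ ℓ + 1 := by linarith
    have hpos' : 0 < ℓ' := by linarith
    have h3 : 1 / ℓ - 1 / ℓ ^ 2 ≤ 1 / ℓ' := by
      rw [div_sub_div _ _ hℓ0.ne' (by positivity), div_le_div_iff₀ (by positivity) hpos']
      have : (1 * ℓ ^ 2 - ℓ * 1) * ℓ' ≤ (ℓ ^ 2 - ℓ) * (ℓ + 1) := by
        have : 0 ≤ ℓ ^ 2 - ℓ := by nlinarith
        nlinarith
      nlinarith
    have h4 : K / ℓ' ^ 2 ≤ K / ℓ ^ 2 := by gcongr
    have h5 := hw (m + i + 1)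
    unfold lo
    rw [← hℓ']
    have h6 : w (m + i + 1) / ℓ' - K * w (m + i + 1) / ℓ' ^ 2 =
      (1 / ℓ' - K / ℓ' ^ 2) * w (m + i + 1) := by ring
    rw [h6]
    apply mul_le_mul_of_nonneg_right _ h5
    have : (K + 1) / ℓ ^ 2 = K / ℓ ^ 2 + 1 / ℓ ^ 2 := by ring
    linarith
  have hsum := Finset.sum_le_sum hterm
  rw [← Finset.mul_sum] at hsum
  have hWs := (abs_le.mp (hW m L)).1
  have hcoef : 0 ≤ 1 / ℓ - (K + 1) / ℓ ^ 2 := by
    rw [sub_nonneg, div_le_div_iff₀ (by positivity) hℓ0]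
    nlinarith
  refine le_trans ?_ hsum
  calc (L : ℝ) / ℓ - (W + 4 * (K + 1))
      ≤ (1 / ℓ - (K + 1) / ℓ ^ 2) * (L - W) := by
        have h7 : (1 / ℓ - (K + 1) / ℓ ^ 2) * (L - W) =
          L / ℓ - W / ℓ - (K + 1) * (L / ℓ ^ 2) + (K + 1) * W / ℓ ^ 2 := by ring
        rw [h7]
        have h8 : W / ℓ ≤ W := div_le_self hW0 hℓ1
        have h9 : (L : ℝ) / ℓ ^ 2 ≤ 4 := by
          rw [div_le_iff₀ (by positivity)]; exact hL
        have h10 : 0 ≤ (K + 1) * W / ℓ ^ 2 := by positivity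
        nlinarith
    _ ≤ (1 / ℓ - (K + 1) / ℓ ^ 2) * ∑ i ∈ Finset.range L, w (m + i + 1) := by
        apply mul_le_mul_of_nonneg_left _ hcoef
        linarith

/-- upper bound for the sum of upper intensities -/
lemma sum_up_le (hw : ∀ i, 0 ≤ w i)
    (hW : ∀ n k : ℕ, |∑ i ∈ Finset.range k, w (n + i + 1) - k| ≤ W) (hK : 0 ≤ K)
    {m L : ℕ} (hm : 0 < m) (h1 : 1 ≤ Real.log m) (hL : (L : ℝ) ≤ 4 * Real.log m ^ 2) :
    ∑ i ∈ Finset.range L, up w K (m + i + 1) ≤ (L : ℝ) / Real.log m + (W + K * (4 + W)) := by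
  set ℓ := Real.log m with hℓ
  have hℓ0 : 0 < ℓ := by linarith
  have hm' : (0 : ℝ) < m := by exact_mod_cast hm
  have hW0 := W_nonneg hW
  have hterm : ∀ i ∈ Finset.range L, up w K (m + i + 1) ≤
      (1 / ℓ + K / ℓ ^ 2) * w (m + i + 1) := by
    intro i hi
    have hge := log_mono_add hm i
    rw [← hℓ] at hge
    have h5 := hw (m + i + 1)
    unfold up
    set ℓ' := Real.log ((m + i + 1 : ℕ) : ℝ) with hℓ'
    have h6 : w (m + i + 1) / ℓ' + K * w (m + i + 1) / ℓ' ^ 2 =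
      (1 / ℓ' + K / ℓ' ^ 2) * w (m + i + 1) := by ring
    rw [h6]
    apply mul_le_mul_of_nonneg_right _ h5
    gcongr
  refine (Finset.sum_le_sum hterm).trans ?_
  rw [← Finset.mul_sum]
  have hWs := (abs_le.mp (hW m L)).2
  calc (1 / ℓ + K / ℓ ^ 2) * ∑ i ∈ Finset.range L, w (m + i + 1)
      ≤ (1 / ℓ + K / ℓ ^ 2) * (L + W) := by
        gcongr
        linarith
    _ = L / ℓ + W / ℓ + K * (L / ℓ ^ 2 + W / ℓ ^ 2) := by ring
    _ ≤ (L : ℝ) / ℓ + (W + K * (4 + W)) := by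
        have h8 : W / ℓ ≤ W := div_le_self hW0 h1
        have h9 : (L : ℝ) / ℓ ^ 2 ≤ 4 := by
          rw [div_le_iff₀ (by positivity)]; exact hL
        have h10 : W / ℓ ^ 2 ≤ W := div_le_self hW0 (by nlinarith)
        nlinarith

lemma exp_le_one_sub {a : ℝ} (h0 : 0 ≤ a) (h1 : a ≤ 1 / 2) :
    Real.exp (-a - 2 * a ^ 2) ≤ 1 - a := by
  have hpos : 0 < 1 - a := by linarith
  rw [← Real.le_log_iff_exp_le hpos]
  have h2 := Real.one_sub_inv_le_log_of_pos hpos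
  refine le_trans ?_ h2
  rw [show 1 - (1 - a)⁻¹ = -a / (1 - a) by field_simp; ring, le_div_iff₀ hpos]
  nlinarith [mul_nonneg h0 h0, mul_nonneg (mul_nonneg h0 h0) (by linarith : (0:ℝ) ≤ 1 - 2 * a)]

lemma up_nonneg (hw : ∀ i, 0 ≤ w i) (hK : 0 ≤ K) (i : ℕ) : 0 ≤ up w K i := by
  have h1 := hw i
  have h2 := Real.log_natCast_nonneg i
  unfold up
  positivity

lemma lo_nonneg (hw : ∀ i, 0 ≤ w i) {i : ℕ} (hi : K ≤ Real.log i) (hpos : 0 < Real.log i) :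
    0 ≤ lo w K i := by
  have h1 := hw i
  unfold lo
  rw [sub_nonneg, div_le_div_iff₀ (by positivity) hpos]
  nlinarith [mul_nonneg h1 hpos.le, mul_nonneg (mul_nonneg h1 hpos.le) (sub_nonneg.mpr hi)]

lemma lo_le_up (hw : ∀ i, 0 ≤ w i) (hK : 0 ≤ K) (i : ℕ) : lo w K i ≤ up w K i := by
  have h1 := hw i
  unfold lo up
  have : 0 ≤ K * w i / Real.log i ^ 2 := by positivity
  linarith

lemma up_le (hw : ∀ i, 0 ≤ w i)
    (hW : ∀ n k : ℕ, |∑ i ∈ Finset.range k, w (n + i + 1) - k| ≤ W)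
    {ℓ : ℝ} (hℓ : 0 < ℓ) (hKℓ : K ≤ ℓ) {i : ℕ} (hi : 0 < i) (hi2 : ℓ ≤ Real.log i) (hK : 0 ≤ K) :
    up w K i ≤ 2 * (W + 1) / ℓ := by
  obtain ⟨j, rfl⟩ : ∃ j, i = j + 1 := ⟨i - 1, by omega⟩
  have h1 := w_le hW j
  have h0 := hw (j + 1)
  unfold up
  set ℓ' := Real.log ((j + 1 : ℕ) : ℝ) with hℓ'
  have hpos : 0 < ℓ' := by linarith
  calc w (j + 1) / ℓ' + K * w (j + 1) / ℓ' ^ 2 = (1 / ℓ' + K / ℓ' ^ 2) * w (j + 1) := by ring
    _ ≤ (1 / ℓ + K / ℓ ^ 2) * w (j + 1) := by gcongr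
    _ ≤ (1 / ℓ + 1 / ℓ) * (W + 1) := by
        have : K / ℓ ^ 2 ≤ 1 / ℓ := by
          rw [div_le_div_iff₀ (by positivity) hℓ]
          nlinarith
        gcongr
    _ = 2 * (W + 1) / ℓ := by ring

/-- Upper bound for the probability of a run. -/
lemma Pp_le (hw : ∀ i, 0 ≤ w i)
    (hW : ∀ n k : ℕ, |∑ i ∈ Finset.range k, w (n + i + 1) - k| ≤ W) (hK : 0 ≤ K)
    {n L : ℕ} {t : ℝ} (h1 : K + 1 ≤ Real.log (n + 1 : ℕ))
    (hbig : 2 * (W + 1) ≤ Real.log (n + 1 : ℕ))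
    (ht : t ≤ L) (hL : (L : ℝ) ≤ 4 * Real.log (n + 1 : ℕ) ^ 2)
    (hLm : (L : ℝ) ≤ (n + 1 : ℕ)) :
    Pp (lo w K) (up w K) n L ≤ 2 * Real.exp (W + 4 * (K + 1)) *
      (w (n + 1) * Real.exp (-t / Real.log (n + 1 : ℕ)) / Real.log (n + 1 : ℕ)) := by
  have h2 := sum_lo_ge hw hW hK (m := n + 1) (by omega) h1 hL hLm
  set ℓ := Real.log ((n + 1 : ℕ) : ℝ) with hℓ
  have hℓ1 : 1 ≤ ℓ := by linarith
  have hℓ0 : 0 < ℓ := by linarith
  have h3 : ∏ i ∈ Finset.range L, (1 - lo w K (n + 1 + i + 1)) ≤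
      Real.exp (-t / ℓ + (W + 4 * (K + 1))) := by
    have h4 : ∏ i ∈ Finset.range L, (1 - lo w K (n + 1 + i + 1)) ≤
        Real.exp (-∑ i ∈ Finset.range L, lo w K (n + 1 + i + 1)) := by
      rw [← Finset.sum_neg_distrib, Real.exp_sum]
      apply Finset.prod_le_prod
      · intro i _
        have hge := log_mono_add (m := n + 1) (by omega) i
        rw [← hℓ] at hge
        have h5 := up_le hw hW (i := n + 1 + i + 1) hℓ0 (by linarith : K ≤ ℓ) (by omega) hge hK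
        have h6 := lo_le_up hw hK (n + 1 + i + 1)
        have h7 : 2 * (W + 1) / ℓ ≤ 1 := by
          rw [div_le_one hℓ0]; exact hbig
        linarith
      · intro i _
        have := Real.add_one_le_exp (-lo w K (n + 1 + i + 1))
        linarith
    refine h4.trans (Real.exp_le_exp.mpr ?_)
    have : t / ℓ ≤ L / ℓ := by gcongr
    have h5 : -t / ℓ = -(t / ℓ) := by ring
    rw [h5]
    linarith
  have h5 : up w K (n + 1) ≤ 2 * (w (n + 1) / ℓ) := by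
    unfold up
    rw [← hℓ]
    have h6 := hw (n + 1)
    have : K * w (n + 1) / ℓ ^ 2 ≤ w (n + 1) / ℓ := by
      rw [div_le_div_iff₀ (by positivity) hℓ0]
      nlinarith [mul_nonneg (mul_nonneg h6 hℓ0.le) (by linarith : 0 ≤ ℓ - K)]
    linarith
  unfold Pp
  have h6 := hw (n + 1)
  have h7 : 0 ≤ up w K (n + 1) := up_nonneg hw hK _
  calc up w K (n + 1) * ∏ i ∈ Finset.range L, (1 - lo w K (n + 1 + i + 1))
      ≤ up w K (n + 1) * Real.exp (-t / ℓ + (W + 4 * (K + 1))) := by gcongr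
    _ ≤ 2 * (w (n + 1) / ℓ) * Real.exp (-t / ℓ + (W + 4 * (K + 1))) := by gcongr
    _ = _ := by
        rw [Real.exp_add]
        ring

/-- Lower bound for the probability of a run. -/
lemma le_Pm (hw : ∀ i, 0 ≤ w i)
    (hW : ∀ n k : ℕ, |∑ i ∈ Finset.range k, w (n + i + 1) - k| ≤ W) (hK : 0 ≤ K)
    {n L : ℕ} {t : ℝ} (h1 : 2 * K + 1 ≤ Real.log (n + 1 : ℕ))
    (hbig : 4 * (W + 1) ≤ Real.log (n + 1 : ℕ))
    (ht : (L : ℝ) ≤ t + 1) (hL : (L : ℝ) ≤ 4 * Real.log (n + 1 : ℕ) ^ 2) :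
    1 / 2 * Real.exp (-((1 + W + K * (4 + W)) + 4 * (W + 1) * (4 + W + K * (4 + W)))) *
      (w (n + 1) * Real.exp (-t / Real.log (n + 1 : ℕ)) / Real.log (n + 1 : ℕ)) ≤
      Pm (lo w K) (up w K) n L := by
  have hW0 := W_nonneg hW
  set ℓ := Real.log ((n + 1 : ℕ) : ℝ) with hℓ
  have hℓ1 : 1 ≤ ℓ := by linarith
  have hℓ0 : 0 < ℓ := by linarith
  have h2 := sum_up_le hw hW hK (m := n + 1) (by omega) hℓ1 hL
  rw [← hℓ] at h2
  set s := ∑ i ∈ Finset.range L, up w K (n + 1 + i + 1) with hs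
  have hu : ∀ i, up w K (n + 1 + i + 1) ≤ 2 * (W + 1) / ℓ := fun i =>
    up_le hw hW (i := n + 1 + i + 1) hℓ0 (by linarith : K ≤ ℓ) (by omega)
      (log_mono_add (m := n + 1) (by omega) i) hK
  have hu2 : 2 * (W + 1) / ℓ ≤ 1 / 2 := by
    rw [div_le_iff₀ hℓ0]; linarith
  have hsq : ∑ i ∈ Finset.range L, up w K (n + 1 + i + 1) ^ 2 ≤
      2 * (W + 1) * (4 + W + K * (4 + W)) := by
    calc ∑ i ∈ Finset.range L, up w K (n + 1 + i + 1) ^ 2
        ≤ ∑ i ∈ Finset.range L, 2 * (W + 1) / ℓ * up w K (n + 1 + i + 1) := by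
          apply Finset.sum_le_sum
          intro i _
          rw [sq]
          exact mul_le_mul_of_nonneg_right (hu i) (up_nonneg hw hK _)
      _ = 2 * (W + 1) / ℓ * s := by rw [← Finset.mul_sum]
      _ ≤ 2 * (W + 1) / ℓ * (ℓ * (4 + W + K * (4 + W))) := by
          gcongr
          have h3 : (L : ℝ) / ℓ ≤ 4 * ℓ := by
            rw [div_le_iff₀ hℓ0]; linarith
          have h4 : W + K * (4 + W) ≤ ℓ * (W + K * (4 + W)) := by
            have : 0 ≤ W + K * (4 + W) := by positivity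
            nlinarith
          linarith
      _ = _ := by field_simp
  have h3 : Real.exp (-t / ℓ - ((1 + W + K * (4 + W)) + 4 * (W + 1) * (4 + W + K * (4 + W)))) ≤
      ∏ i ∈ Finset.range L, (1 - up w K (n + 1 + i + 1)) := by
    have h4 : Real.exp (∑ i ∈ Finset.range L,
        (-up w K (n + 1 + i + 1) - 2 * up w K (n + 1 + i + 1) ^ 2)) ≤
        ∏ i ∈ Finset.range L, (1 - up w K (n + 1 + i + 1)) := by
      rw [Real.exp_sum]
      apply Finset.prod_le_prod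
      · intro i _; exact (Real.exp_pos _).le
      · intro i _
        exact exp_le_one_sub (up_nonneg hw hK _) ((hu i).trans hu2)
    refine le_trans (Real.exp_le_exp.mpr ?_) h4
    rw [Finset.sum_sub_distrib, Finset.sum_neg_distrib, ← Finset.mul_sum, ← hs]
    have h5 : (L : ℝ) / ℓ ≤ t / ℓ + 1 := by
      rw [div_le_iff₀ hℓ0, add_mul, div_mul_cancel₀ _ hℓ0.ne']
      linarith
    have h6 : -t / ℓ = -(t / ℓ) := by ring
    rw [h6]
    linarith
  have h5 : 1 / 2 * (w (n + 1) / ℓ) ≤ lo w K (n + 1) := by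
    unfold lo
    rw [← hℓ]
    have h6 := hw (n + 1)
    have : K * w (n + 1) / ℓ ^ 2 ≤ 1 / 2 * (w (n + 1) / ℓ) := by
      rw [show 1 / 2 * (w (n + 1) / ℓ) = w (n + 1) / (2 * ℓ) by ring,
        div_le_div_iff₀ (by positivity) (by positivity)]
      nlinarith [mul_nonneg (mul_nonneg h6 hℓ0.le) (by linarith : 0 ≤ ℓ - 2 * K)]
    linarith
  unfold Pm
  have h6 := hw (n + 1)
  have h7 : 0 ≤ 1 / 2 * (w (n + 1) / ℓ) := by positivity
  calc 1 / 2 * Real.exp (-((1 + W + K * (4 + W)) + 4 * (W + 1) * (4 + W + K * (4 + W)))) *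
      (w (n + 1) * Real.exp (-t / ℓ) / ℓ)
      = 1 / 2 * (w (n + 1) / ℓ) *
        Real.exp (-t / ℓ - ((1 + W + K * (4 + W)) + 4 * (W + 1) * (4 + W + K * (4 + W)))) := by
        rw [sub_eq_add_neg, Real.exp_add]
        ring
    _ ≤ 1 / 2 * (w (n + 1) / ℓ) * ∏ i ∈ Finset.range L, (1 - up w K (n + 1 + i + 1)) := by gcongr
    _ ≤ lo w K (n + 1) * ∏ i ∈ Finset.range L, (1 - up w K (n + 1 + i + 1)) := by
        apply mul_le_mul_of_nonneg_right h5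
        exact (Real.exp_pos _).le.trans h3

end

end Pool.Agent.Helper88.GapCore
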