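import Mathlib
import Pool.Agent.Helper88.GapCore
import Pool.Agent.Helper88.GapAnalytic

open MeasureTheory ProbabilityTheory Filter
open scoped Topology

set_option linter.unusedSectionVars false

namespace Pool.Agent.Helper88.GapCore

variable {Ω : Type*} [mΩ : MeasurableSpace Ω] {μ : Measure Ω}

/-- the term of the series -/
noncomputable def q (w t : ℕ → ℝ) (n : ℕ) : ℝ := w n * Real.exp (-t n / Real.log n) / Real.log n

/-- `n` is chosen and the run of unchosen integers after `n` has length at least `t n` -/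
def lg (R : ℕ → Set Ω) (t : ℕ → ℝ) (ω : Ω) (n : ℕ) : Prop :=
  ω ∈ R n ∧ ∀ m : ℕ, n < m → (m : ℝ) - n - 1 < t n → ω ∉ R m

lemma lg_iff (R : ℕ → Set Ω) (t : ℕ → ℝ) (ω : Ω) (n : ℕ) :
    lg R t ω n ↔ ω ∈ R n ∧ ∀ i, i < ⌈t n⌉₊ → ω ∉ R (n + i + 1) := by
  unfold lg
  refine and_congr_right fun _ => ⟨fun h i hi => ?_, fun h m hm hmt => ?_⟩
  · apply h _ (by omega)
    have := Nat.lt_ceil.mp hi
    push_cast
    linarith
  · obtain ⟨i, rfl⟩ : ∃ i, m = n + i + 1 := ⟨m - n - 1, by omega⟩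
    apply h i
    rw [Nat.lt_ceil]
    push_cast at hmt
    linarith

lemma lg_mono (R : ℕ → Set Ω) {t t' : ℕ → ℝ} (ω : Ω) {n : ℕ} (h : t' n ≤ t n)
    (hlg : lg R t ω n) : lg R t' ω n :=
  ⟨hlg.1, fun m hm hmt => hlg.2 m hm (hmt.trans_le h)⟩

lemma mem_V_iff {G R : ℕ → Set Ω} {ω : Ω} (hG : ∀ n, ω ∈ G n) (n j : ℕ) :
    ω ∈ V G R n j ↔ ω ∈ R (n + 1) ∧ ∀ i, i < j → ω ∉ R (n + 1 + i + 1) := by
  induction j with
  | zero =>
    simp only [V, Set.mem_inter_iff, hG n, true_and]
    simp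
  | succ j ih =>
    simp only [V, Set.mem_inter_iff, ih, hG, and_true, Set.mem_compl_iff]
    constructor
    · rintro ⟨⟨h1, h2⟩, h3⟩
      refine ⟨h1, fun i hi => ?_⟩
      rcases Nat.lt_succ_iff_lt_or_eq.mp hi with h | h
      · exact h2 i h
      · subst h; exact h3
    · rintro ⟨h1, h2⟩
      exact ⟨⟨h1, fun i hi => h2 i (by omega)⟩, h2 j (by omega)⟩

lemma V_iff_lg {G R : ℕ → Set Ω} {ω : Ω} (hG : ∀ n, ω ∈ G n) (t : ℕ → ℝ) (n : ℕ) :
    ω ∈ V G R n ⌈t (n + 1)⌉₊ ↔ lg R t ω (n + 1) := by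
  rw [mem_V_iff hG, lg_iff]

/-- all the conditions saying that `n` is large -/
def Big (K W : ℝ) (n : ℕ) : Prop :=
  2 * K + 1 ≤ Real.log (n + 1 : ℕ) ∧ 4 * (W + 1) ≤ Real.log (n + 1 : ℕ) ∧
    3 * Real.log (n + 1 : ℕ) ^ 2 + 1 ≤ (n + 1 : ℕ)

lemma eventually_big (K W : ℝ) : ∀ᶠ n : ℕ in atTop, Big K W n := by
  have hs : Tendsto (fun n : ℕ => ((n + 1 : ℕ) : ℝ)) atTop atTop :=
    tendsto_natCast_atTop_atTop.comp (tendsto_add_atTop_nat 1)
  have h0 : Tendsto (fun n : ℕ => Real.log (n + 1 : ℕ)) atTop atTop :=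
    Real.tendsto_log_atTop.comp hs
  have h1 : Tendsto (fun x : ℝ => Real.log x ^ 2 / x) atTop (𝓝 0) := by
    have := Real.tendsto_pow_log_div_mul_add_atTop 1 0 2 one_ne_zero
    simpa using this
  have h2 := h1.comp hs
  have h3 : Tendsto (fun n : ℕ => (1 : ℝ) / (n + 1 : ℕ)) atTop (𝓝 0) := by
    have := tendsto_one_div_add_atTop_nhds_zero_nat (𝕜 := ℝ)
    simpa using this
  have h4 : Tendsto (fun n : ℕ => 3 * (Real.log (n + 1 : ℕ) ^ 2 / (n + 1 : ℕ)) +
      1 / (n + 1 : ℕ)) atTop (𝓝 (3 * 0 + 0)) := (h2.const_mul 3).add h3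
  have h5 := h4.eventually_lt_const (u := 1) (by norm_num)
  filter_upwards [h0.eventually_ge_atTop (2 * K + 1), h0.eventually_ge_atTop (4 * (W + 1)), h5]
    with n ha hb hc
  refine ⟨ha, hb, ?_⟩
  have hpos : (0 : ℝ) < (n + 1 : ℕ) := by positivity
  have h6 : 3 * (Real.log (n + 1 : ℕ) ^ 2 / (n + 1 : ℕ)) + 1 / (n + 1 : ℕ) =
    (3 * Real.log (n + 1 : ℕ) ^ 2 + 1) / (n + 1 : ℕ) := by ring
  rw [h6, div_lt_one hpos] at hc
  exact hc.le

section

variable {w : ℕ → ℝ} {W K : ℝ}

lemma bounds (hw : ∀ i, 0 ≤ w i)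
    (hW : ∀ n k : ℕ, |∑ i ∈ Finset.range k, w (n + i + 1) - k| ≤ W) (hK : 0 ≤ K)
    {n : ℕ} (hb : Big K W n) {t : ℕ → ℝ} (ht0 : 0 ≤ t (n + 1))
    (ht1 : t (n + 1) ≤ 3 * Real.log (n + 1 : ℕ) ^ 2) :
    1 / 2 * Real.exp (-((1 + W + K * (4 + W)) + 4 * (W + 1) * (4 + W + K * (4 + W)))) *
      q w t (n + 1) ≤ Pm (lo w K) (up w K) n ⌈t (n + 1)⌉₊ ∧
    Pp (lo w K) (up w K) n ⌈t (n + 1)⌉₊ ≤ 2 * Real.exp (W + 4 * (K + 1)) * q w t (n + 1) := by
  obtain ⟨h1, h2, h3⟩ := hb
  have hW0 := W_nonneg hW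
  have hc1 := Nat.le_ceil (t (n + 1))
  have hc2 := (Nat.ceil_lt_add_one ht0).le
  have hℓ : 1 ≤ Real.log (n + 1 : ℕ) := by linarith
  have hL : (⌈t (n + 1)⌉₊ : ℝ) ≤ 4 * Real.log (n + 1 : ℕ) ^ 2 := by nlinarith
  constructor
  · exact le_Pm hw hW hK h1 h2 hc2 hL
  · exact Pp_le hw hW hK (by linarith) (by linarith) hc1 hL (by linarith)

/-- good sets -/
def Gd (ℱ : Filtration ℕ mΩ) (μ : Measure Ω) (R : ℕ → Set Ω) (w : ℕ → ℝ) (K : ℝ) (N0 : ℕ)
    (n : ℕ) : Set Ω :=
  ⋂ s ∈ Finset.Icc N0 n, {ω | lo w K (s + 1) ≤ (μ[(R (s + 1)).indicator (fun _ => (1 : ℝ)) | ℱ s]) ω ∧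
    (μ[(R (s + 1)).indicator (fun _ => (1 : ℝ)) | ℱ s]) ω ≤ up w K (s + 1)}

lemma setup [IsProbabilityMeasure μ] {ℱ : Filtration ℕ mΩ} {R : ℕ → Set Ω}
    (hR : ∀ n, MeasurableSet[ℱ n] (R n)) (hw : ∀ i, 0 ≤ w i)
    (hW : ∀ n k : ℕ, |∑ i ∈ Finset.range k, w (n + i + 1) - k| ≤ W) (hK : 0 ≤ K)
    (N0 N : ℕ) (hN0 : N0 ≤ N) (hN : ∀ n, N ≤ n → Big K W n) :
    Setup μ ℱ (Gd ℱ μ R w K N0) R (lo w K) (up w K) N where
  hG n := by
    refine Finset.measurableSet_biInter _ fun s hs => ?_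
    have hsm := (stronglyMeasurable_condExp
      (μ := μ) (m := ℱ s) (f := (R (s + 1)).indicator (fun _ => (1 : ℝ)))).measurable
    have hle := ℱ.mono (Finset.mem_Icc.mp hs).2
    refine hle _ ?_
    exact (measurableSet_le measurable_const hsm).inter (measurableSet_le hsm measurable_const)
  hR := hR
  hanti := by
    intro a b hab ω hω
    simp only [Gd, Set.mem_iInter] at hω ⊢
    intro s hs
    rw [Finset.mem_Icc] at hs
    exact hω s (Finset.mem_Icc.mpr ⟨hs.1, hs.2.trans hab⟩)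
  hU := by
    intro n hn A hA hAG
    have hRm : MeasurableSet (R (n + 1)) := ℱ.le _ _ (hR (n + 1))
    have hAm : MeasurableSet A := ℱ.le _ _ hA
    have hint : Integrable ((R (n + 1)).indicator (fun _ => (1 : ℝ))) μ :=
      (integrable_const (1 : ℝ)).indicator hRm
    have h1 := setIntegral_condExp (μ := μ) (ℱ.le n) hint hA
    have h2 : ∫ ω in A, (R (n + 1)).indicator (fun _ => (1 : ℝ)) ω ∂μ = μ.real (A ∩ R (n + 1)) := by
      rw [setIntegral_indicator hRm, setIntegral_const]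
      simp
    rw [h2] at h1
    have hgood : ∀ ω ∈ A, lo w K (n + 1) ≤
        (μ[(R (n + 1)).indicator (fun _ => (1 : ℝ)) | ℱ n]) ω ∧
        (μ[(R (n + 1)).indicator (fun _ => (1 : ℝ)) | ℱ n]) ω ≤ up w K (n + 1) := by
      intro ω hω
      have := hAG hω
      simp only [Gd, Set.mem_iInter] at this
      exact this n (Finset.mem_Icc.mpr ⟨hN0.trans hn, le_rfl⟩)
    have hci : IntegrableOn (μ[(R (n + 1)).indicator (fun _ => (1 : ℝ)) | ℱ n]) A μ :=
      integrable_condExp.integrableOn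
    have hconst : ∀ c : ℝ, ∫ _ in A, c ∂μ = c * μ.real A := by
      intro c
      rw [setIntegral_const, smul_eq_mul, mul_comm]
    constructor
    · rw [← h1, ← hconst]
      exact setIntegral_mono_on (integrable_const _).integrableOn hci hAm fun ω hω =>
        (hgood ω hω).1
    · rw [← h1, ← hconst]
      exact setIntegral_mono_on hci (integrable_const _).integrableOn hAm fun ω hω =>
        (hgood ω hω).2
  hl := by
    intro n hn
    obtain ⟨h1, h2, h3⟩ := hN n hn
    have hW0 := W_nonneg hW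
    exact lo_nonneg hw (by linarith) (by linarith)
  hl1 := by
    intro n hn
    obtain ⟨h1, h2, h3⟩ := hN n hn
    have hW0 := W_nonneg hW
    have hℓ0 : 0 < Real.log (n + 1 : ℕ) := by linarith
    have h4 := up_le hw hW (i := n + 1) hℓ0 (by linarith : K ≤ _) (by omega) le_rfl hK
    have h5 := lo_le_up hw hK (n + 1)
    have h6 : 2 * (W + 1) / Real.log (n + 1 : ℕ) ≤ 1 := by
      rw [div_le_one hℓ0]; linarith
    linarith
  hu := by
    intro n hn
    obtain ⟨h1, h2, h3⟩ := hN n hn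
    have hW0 := W_nonneg hW
    have hℓ0 : 0 < Real.log (n + 1 : ℕ) := by linarith
    have h4 := up_le hw hW (i := n + 1) hℓ0 (by linarith : K ≤ _) (by omega) le_rfl hK
    have h6 : 2 * (W + 1) / Real.log (n + 1 : ℕ) ≤ 1 := by
      rw [div_le_one hℓ0]; linarith
    linarith
  hu0 := fun n _ => up_nonneg hw hK _

lemma q_nonneg (hw : ∀ i, 0 ≤ w i) (t : ℕ → ℝ) (n : ℕ) : 0 ≤ q w t n := by
  have h1 := hw n
  have h2 := Real.log_natCast_nonneg n
  unfold q
  positivity

/-- tail terms are summable -/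
lemma summable_tail (hw : ∀ i, 0 ≤ w i)
    (hW : ∀ n k : ℕ, |∑ i ∈ Finset.range k, w (n + i + 1) - k| ≤ W) :
    Summable fun n : ℕ => q w (fun n => 3 * Real.log n ^ 2) n := by
  rw [← summable_nat_add_iff 1]
  have hW0 := W_nonneg hW
  have hs : Summable fun n : ℕ => (W + 1) * (1 / ((n + 1 : ℕ) : ℝ) ^ 2) := by
    have h1 : Summable fun n : ℕ => (1 / (n : ℝ) ^ 2) := Real.summable_one_div_nat_pow.mpr (by norm_num)
    have := (summable_nat_add_iff 1).mpr h1
    exact this.mul_left _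
  refine Summable.of_norm_bounded_eventually_nat hs ?_
  filter_upwards [eventually_big 0 0] with n hn
  obtain ⟨h1, _, _⟩ := hn
  have hℓ : 1 ≤ Real.log (n + 1 : ℕ) := by linarith
  rw [Real.norm_of_nonneg (q_nonneg hw _ _)]
  unfold q
  have hpos : (0 : ℝ) < (n + 1 : ℕ) := by positivity
  have h2 : -(3 * Real.log (n + 1 : ℕ) ^ 2) / Real.log (n + 1 : ℕ) = -(3 * Real.log (n + 1 : ℕ)) := by
    field_simp
  have h3 : Real.exp (-(3 * Real.log (n + 1 : ℕ))) ≤ 1 / ((n + 1 : ℕ) : ℝ) ^ 2 := by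
    have h4 : Real.exp (-(3 * Real.log (n + 1 : ℕ))) ≤ Real.exp (-(2 * Real.log (n + 1 : ℕ))) := by
      apply Real.exp_le_exp.mpr; linarith
    refine h4.trans (le_of_eq ?_)
    rw [Real.exp_neg, two_mul, Real.exp_add, Real.exp_log hpos, one_div, sq]
  rw [h2]
  have h5 := w_le hW n
  have h6 := hw (n + 1)
  calc w (n + 1) * Real.exp (-(3 * Real.log (n + 1 : ℕ))) / Real.log (n + 1 : ℕ)
      ≤ w (n + 1) * Real.exp (-(3 * Real.log (n + 1 : ℕ))) :=
        div_le_self (by positivity) hℓ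
    _ ≤ (W + 1) * (1 / ((n + 1 : ℕ) : ℝ) ^ 2) := by gcongr

lemma exists_partial_sum {f : ℕ → ℝ} (hf : ∀ n, 0 ≤ f n) (hdiv : ¬ Summable f) {ε : ℝ}
    (hε : 0 < ε) {a : ℕ} (ha : ∀ n, a ≤ n → f n ≤ ε) :
    ∃ M, ε ≤ ∑ n ∈ Finset.Ico a M, f n ∧ ∑ n ∈ Finset.Ico a M, f n ≤ 2 * ε := by
  have hdiv' : ¬ Summable fun n => f (n + a) := by
    intro hcon
    exact hdiv ((summable_nat_add_iff a).mp hcon)
  have htend := (not_summable_iff_tendsto_nat_atTop_of_nonneg
    (fun n => hf (n + a))).mp hdiv'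
  have hex : ∃ k, ε ≤ ∑ n ∈ Finset.range k, f (n + a) := (htend.eventually_ge_atTop ε).exists
  classical
  set k := Nat.find hex with hk
  have hk1 := Nat.find_spec hex
  rw [← hk] at hk1
  have hkpos : 0 < k := by
    rcases Nat.eq_zero_or_pos k with h | h
    · rw [h] at hk1; simp at hk1; linarith
    · exact h
  have hk2 : ∑ n ∈ Finset.range (k - 1), f (n + a) < ε := by
    have := Nat.find_min hex (m := k - 1) (by omega)
    push Not at this
    exact this
  have hconv : ∑ n ∈ Finset.Ico a (a + k), f n = ∑ n ∈ Finset.range k, f (n + a) := by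
    rw [Finset.sum_Ico_eq_sum_range]
    simp [add_comm]
  refine ⟨a + k, ?_, ?_⟩
  · rw [hconv]; exact hk1
  · rw [hconv]
    obtain ⟨j, hj⟩ : ∃ j, k = j + 1 := ⟨k - 1, by omega⟩
    rw [hj] at hk2 ⊢
    rw [Finset.sum_range_succ]
    simp only [Nat.add_sub_cancel] at hk2
    have := ha (j + a) (by omega)
    linarith

/-- The general theorem. -/
theorem main [IsProbabilityMeasure μ] {ℱ : Filtration ℕ mΩ} {R : ℕ → Set Ω}
    (hR : ∀ n, MeasurableSet[ℱ n] (R n)) (hw : ∀ i, 0 ≤ w i)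
    (hW : ∀ n k : ℕ, |∑ i ∈ Finset.range k, w (n + i + 1) - k| ≤ W)
    (hcond : ∀ᵐ ω ∂μ, ∃ K : ℝ, ∀ᶠ n : ℕ in atTop,
      |(μ[(R (n + 1)).indicator (fun _ => (1 : ℝ)) | ℱ n]) ω - w (n + 1) / Real.log (n + 1 : ℕ)| ≤
        K * w (n + 1) / Real.log (n + 1 : ℕ) ^ 2)
    {t : ℕ → ℝ} (ht : ∀ n, 0 ≤ t n) :
    ((Summable fun n : ℕ => w n * Real.exp (-t n / Real.log n) / Real.log n) →
      ∀ᵐ ω ∂μ, {n : ℕ | ω ∈ R n ∧ ∀ m : ℕ, n < m → (m : ℝ) - n - 1 < t n → ω ∉ R m}.Finite) ∧
    ((¬ Summable fun n : ℕ => w n * Real.exp (-t n / Real.log n) / Real.log n) →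
      ∀ᵐ ω ∂μ, {n : ℕ | ω ∈ R n ∧ ∀ m : ℕ, n < m → (m : ℝ) - n - 1 < t n → ω ∉ R m}.Infinite) := by
  have hW0 := W_nonneg hW
  -- reduction to good sets
  have hred : ∀ᵐ ω ∂μ, ∃ p : ℕ × ℕ, ∀ n, ω ∈ Gd ℱ μ R w (p.1 : ℝ) p.2 n := by
    filter_upwards [hcond] with ω hω
    obtain ⟨K, hK⟩ := hω
    obtain ⟨N0, hN0⟩ := eventually_atTop.mp hK
    refine ⟨(⌈K⌉₊, N0), fun n => ?_⟩
    simp only [Gd, Set.mem_iInter]
    intro s hs
    have h1 := hN0 s (Finset.mem_Icc.mp hs).1
    have h2 : K * w (s + 1) / Real.log (s + 1 : ℕ) ^ 2 ≤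
        (⌈K⌉₊ : ℝ) * w (s + 1) / Real.log (s + 1 : ℕ) ^ 2 := by
      have := hw (s + 1)
      have := Nat.le_ceil K
      gcongr
    have h3 := abs_le.mp (h1.trans h2)
    simp only [Set.mem_ofPred_eq]
    unfold lo up
    constructor <;> linarith [h3.1, h3.2]
  -- truncated threshold
  set t' : ℕ → ℝ := fun n => min (t n) (3 * Real.log n ^ 2) with ht'
  have ht'0 : ∀ n, 0 ≤ t' n := fun n => le_min (ht n) (by positivity)
  have ht'1 : ∀ n, t' n ≤ 3 * Real.log n ^ 2 := fun n => min_le_right _ _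
  have ht't : ∀ n, t' n ≤ t n := fun n => min_le_left _ _
  constructor
  · intro hsum
    change Summable (q w t) at hsum
    have hsum' : Summable (q w t') := by
      refine Summable.of_nonneg_of_le (fun n => q_nonneg hw _ _) (fun n => ?_)
        (hsum.add (summable_tail hw hW))
      unfold q
      have h1 := hw n
      have h2 := Real.log_natCast_nonneg n
      rcases min_choice (t n) (3 * Real.log n ^ 2) with h | h
      · have h3 : t' n = t n := h
        rw [h3]
        have : 0 ≤ w n * Real.exp (-(3 * Real.log n ^ 2) / Real.log n) / Real.log n := by positivity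
        linarith
      · have h3 : t' n = 3 * Real.log n ^ 2 := h
        rw [h3]
        have : 0 ≤ w n * Real.exp (-t n / Real.log n) / Real.log n := by positivity
        linarith
    have hall : ∀ᵐ ω ∂μ, ∀ p : ℕ × ℕ, (∀ n, ω ∈ Gd ℱ μ R w (p.1 : ℝ) p.2 n) →
        {n | n ∈ Set.univ ∧ ω ∈ V (Gd ℱ μ R w (p.1 : ℝ) p.2) R n ⌈t' (n + 1)⌉₊}.Finite := by
      rw [ae_all_iff]
      rintro ⟨K, N0⟩
      simp only
      obtain ⟨N1, hN1⟩ := eventually_atTop.mp (eventually_big (K : ℝ) W)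
      have hS := setup (μ := μ) hR hw hW (K := K) (Nat.cast_nonneg K) N0 (max N0 N1)
        (le_max_left _ _) (fun n hn => hN1 n ((le_max_right _ _).trans hn))
      have := finite_of_sum hS (fun n => ⌈t' (n + 1)⌉₊) Set.univ (by
        rw [Set.indicator_univ]
        have h2 : Summable fun n => 2 * Real.exp (W + 4 * (K + 1)) * q w t' (n + 1) :=
          ((summable_nat_add_iff 1).mpr hsum').mul_left _
        refine Summable.of_norm_bounded_eventually_nat h2 ?_
        filter_upwards [eventually_ge_atTop (max N0 N1)] with n hn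
        rw [Real.norm_of_nonneg (Pp_nonneg hS hn _)]
        exact (bounds hw hW (Nat.cast_nonneg K) (hN1 n ((le_max_right _ _).trans hn))
          (ht'0 _) (ht'1 _)).2)
      filter_upwards [this] with ω hω _
      exact hω
    filter_upwards [hred, hall] with ω hω1 hω2
    obtain ⟨p, hp⟩ := hω1
    have h1 := hω2 p hp
    have h2 : {n | lg R t ω (n + 1)} ⊆
        {n | n ∈ Set.univ ∧ ω ∈ V (Gd ℱ μ R w (p.1 : ℝ) p.2) R n ⌈t' (n + 1)⌉₊} := by
      intro n hn
      refine ⟨Set.mem_univ _, ?_⟩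
      rw [V_iff_lg hp]
      exact lg_mono R ω (ht't _) hn
    have h3 := h1.subset h2
    refine ((h3.image (· + 1)).union (Set.finite_singleton 0)).subset ?_
    intro n hn
    rcases Nat.eq_zero_or_pos n with h | h
    · right; exact h
    · left
      refine ⟨n - 1, ?_, by simp; omega⟩
      simp only [Set.mem_ofPred_eq]
      rw [Nat.sub_add_cancel h]
      exact hn
  · intro hdiv
    change ¬ Summable (q w t) at hdiv
    set I : Set ℕ := {n | t (n + 1) ≤ 3 * Real.log (n + 1 : ℕ) ^ 2} with hI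
    have hdiv1 : ¬ Summable (I.indicator fun n => q w t (n + 1)) := by
      intro hcon
      apply hdiv
      rw [← summable_nat_add_iff 1]
      refine Summable.of_nonneg_of_le (fun n => q_nonneg hw _ _) (fun n => ?_)
        (hcon.add ((summable_nat_add_iff 1).mpr (summable_tail hw hW)))
      have h1 : 0 ≤ q w (fun n => 3 * Real.log n ^ 2) (n + 1) := q_nonneg hw _ _
      by_cases h : n ∈ I
      · rw [Set.indicator_of_mem h]
        linarith
      · rw [Set.indicator_of_notMem h, zero_add]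
        simp only [hI, Set.mem_ofPred_eq, not_le] at h
        unfold q
        have h1 := hw (n + 1)
        have h2 := Real.log_natCast_nonneg (n + 1)
        gcongr
    have hall : ∀ᵐ ω ∂μ, ∀ p : ℕ × ℕ, (∀ n, ω ∈ Gd ℱ μ R w (p.1 : ℝ) p.2 n) →
        ∀ a, ∃ n, a ≤ n ∧ n ∈ I ∧ ω ∈ V (Gd ℱ μ R w (p.1 : ℝ) p.2) R n ⌈t (n + 1)⌉₊ := by
      rw [ae_all_iff]
      rintro ⟨K, N0⟩
      simp only
      obtain ⟨N1, hN1⟩ := eventually_atTop.mp (eventually_big (K : ℝ) W)
      have hS := setup (μ := μ) hR hw hW (K := K) (Nat.cast_nonneg K) N0 (max N0 N1)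
        (le_max_left _ _) (fun n hn => hN1 n ((le_max_right _ _).trans hn))
      have hK0 : (0 : ℝ) ≤ K := Nat.cast_nonneg K
      set c : ℝ := 1 / 2 * Real.exp (-((1 + W + K * (4 + W)) + 4 * (W + 1) * (4 + W + K * (4 + W))))
        with hc
      set C : ℝ := 2 * Real.exp (W + 4 * (K + 1)) with hC
      have hc0 : 0 < c := by positivity
      have hC0 : 0 < C := by positivity
      have hc1 : c ≤ 1 := by
        have : Real.exp (-((1 + W + K * (4 + W)) + 4 * (W + 1) * (4 + W + K * (4 + W)))) ≤ 1 := by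
          rw [Real.exp_le_one_iff, neg_nonpos]
          positivity
        linarith
      have hC1 : 1 ≤ C := by
        have : 1 ≤ Real.exp (W + 4 * (K + 1)) := by
          rw [Real.one_le_exp_iff]; positivity
        linarith
      set κ := c / C with hκ
      have hκ0 : 0 < κ := by positivity
      have hκ1 : κ ≤ 1 := by
        rw [hκ, div_le_one hC0]; linarith
      have hP : ∀ n, max N0 N1 ≤ n → n ∈ I →
          κ * Pp (lo w K) (up w K) n ⌈t (n + 1)⌉₊ ≤ Pm (lo w K) (up w K) n ⌈t (n + 1)⌉₊ := by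
        intro n hn hnI
        have hb := bounds hw hW hK0 (hN1 n ((le_max_right _ _).trans hn)) (ht (n + 1)) hnI
        calc κ * Pp (lo w K) (up w K) n ⌈t (n + 1)⌉₊
            ≤ κ * (C * q w t (n + 1)) := by
              apply mul_le_mul_of_nonneg_left hb.2 hκ0.le
          _ = c * q w t (n + 1) := by rw [hκ]; field_simp
          _ ≤ _ := hb.1
      set f : ℕ → ℝ := fun n => if max N0 N1 ≤ n ∧ n ∈ I then
        Pp (lo w K) (up w K) n ⌈t (n + 1)⌉₊ else 0 with hf
      have hf0 : ∀ n, 0 ≤ f n := by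
        intro n
        simp only [hf]
        split_ifs with h
        · exact Pp_nonneg hS h.1 _
        · rfl
      have hfdiv : ¬ Summable f := by
        intro hcon
        apply hdiv1
        have h1 : Summable fun n => (1 / c) * f n := hcon.mul_left _
        refine Summable.of_norm_bounded_eventually_nat h1 ?_
        filter_upwards [eventually_ge_atTop (max N0 N1)] with n hn
        by_cases h : n ∈ I
        · rw [Set.indicator_of_mem h, Real.norm_of_nonneg (q_nonneg hw _ _)]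
          have hb := bounds hw hW hK0 (hN1 n ((le_max_right _ _).trans hn)) (ht (n + 1)) h
          have h2 : Pm (lo w K) (up w K) n ⌈t (n + 1)⌉₊ ≤ Pp (lo w K) (up w K) n ⌈t (n + 1)⌉₊ := by
            unfold Pm Pp
            have h3 := lo_le_up hw hK0 (n + 1)
            have h4 : ∏ i ∈ Finset.range ⌈t (n + 1)⌉₊, (1 - up w K (n + 1 + i + 1)) ≤
                ∏ i ∈ Finset.range ⌈t (n + 1)⌉₊, (1 - lo w K (n + 1 + i + 1)) := by
              apply Finset.prod_le_prod
              · intro i _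
                have := hS.hu (n + 1 + i) (by omega)
                linarith
              · intro i _
                have := lo_le_up hw hK0 (n + 1 + i + 1)
                linarith
            have h5 : 0 ≤ ∏ i ∈ Finset.range ⌈t (n + 1)⌉₊, (1 - up w K (n + 1 + i + 1)) := by
              apply Finset.prod_nonneg
              intro i _
              have := hS.hu (n + 1 + i) (by omega)
              linarith
            have h6 := hS.hu0 n hn
            exact mul_le_mul h3 h4 h5 h6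
          have h3 : f n = Pp (lo w K) (up w K) n ⌈t (n + 1)⌉₊ := by
            simp only [hf]
            rw [if_pos ⟨hn, h⟩]
          rw [h3, one_div, ← div_eq_inv_mul, le_div_iff₀ hc0]
          have h4 := hb.1
          rw [← hc] at h4
          linarith
        · rw [Set.indicator_of_notMem h, norm_zero]
          have := hf0 n
          positivity
      have hsmall : ∀ᶠ n : ℕ in atTop, f n ≤ κ / 4 := by
        have hlog : Tendsto (fun n : ℕ => Real.log (n + 1 : ℕ)) atTop atTop :=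
          Real.tendsto_log_atTop.comp (tendsto_natCast_atTop_atTop.comp (tendsto_add_atTop_nat 1))
        filter_upwards [eventually_ge_atTop (max N0 N1),
          hlog.eventually_ge_atTop (8 * (W + 1) / κ)] with n hn hl
        simp only [hf]
        split_ifs with h
        · obtain ⟨h1, h2, h3⟩ := hN1 n ((le_max_right _ _).trans hn)
          have hℓ0 : 0 < Real.log (n + 1 : ℕ) := by linarith
          have h4 := up_le hw hW (i := n + 1) hℓ0 (by linarith : (K : ℝ) ≤ _) (by omega) le_rfl hK0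
          have h5 : 2 * (W + 1) / Real.log (n + 1 : ℕ) ≤ κ / 4 := by
            rw [div_le_iff₀ hℓ0]
            rw [div_le_iff₀ hκ0] at hl
            linarith
          have h6 : ∏ i ∈ Finset.range ⌈t (n + 1)⌉₊, (1 - lo w K (n + 1 + i + 1)) ≤ 1 := by
            apply Finset.prod_le_one
            · intro i _
              have := hS.hl1 (n + 1 + i) (by omega)
              linarith
            · intro i _
              have := hS.hl (n + 1 + i) (by omega)
              linarith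
          unfold Pp
          have h7 := hS.hu0 n hn
          nlinarith
        · positivity
      obtain ⟨a0, ha0⟩ := eventually_atTop.mp hsmall
      have hdivS : ∀ a, ∃ S : Finset ℕ, (∀ n ∈ S, a ≤ n ∧ n ∈ I) ∧
          κ / 4 ≤ ∑ n ∈ S, Pp (lo w K) (up w K) n ⌈t (n + 1)⌉₊ ∧
          ∑ n ∈ S, Pp (lo w K) (up w K) n ⌈t (n + 1)⌉₊ ≤ κ / 2 := by
        intro a
        obtain ⟨M, hM1, hM2⟩ := exists_partial_sum hf0 hfdiv (ε := κ / 4) (by positivity)
          (a := max a a0) (fun n hn => ha0 n ((le_max_right _ _).trans hn))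
        classical
        refine ⟨(Finset.Ico (max a a0) M).filter (fun n => max N0 N1 ≤ n ∧ n ∈ I), ?_, ?_, ?_⟩
        · intro n hn
          rw [Finset.mem_filter, Finset.mem_Ico] at hn
          exact ⟨(le_max_left _ _).trans hn.1.1, hn.2.2⟩
        · rw [Finset.sum_filter]
          exact hM1
        · rw [Finset.sum_filter]
          refine hM2.trans ?_
          linarith
      have := infinite_of_div hS (fun n => ⌈t (n + 1)⌉₊) I hκ0 hκ1 (δ := κ / 4) (by positivity)
        (by linarith) hP hdivS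
      exact this
    filter_upwards [hred, hall] with ω hω1 hω2
    obtain ⟨p, hp⟩ := hω1
    refine Set.infinite_of_forall_exists_gt fun a => ?_
    obtain ⟨n, han, _, hn⟩ := hω2 p hp a
    rw [V_iff_lg hp] at hn
    exact ⟨n + 1, hn, by omega⟩

end

end Pool.Agent.Helper88.GapCore
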