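import Mathlib
import Pool.Agent.Helper88.GapMain

open MeasureTheory ProbabilityTheory Filter
open scoped Topology

namespace Pool.Agent.Helper88.GapCore

/-- the series of `w n / (n log n)` diverges -/
lemma not_summable_w {w : ℕ → ℝ} {W : ℝ} (hw : ∀ i, 0 ≤ w i)
    (hW : ∀ n k : ℕ, |∑ i ∈ Finset.range k, w (n + i + 1) - k| ≤ W) :
    ¬ Summable fun n : ℕ => w n * Real.exp (-(Real.log n ^ 2) / Real.log n) / Real.log n := by
  intro hsum
  set f : ℕ → ℝ := fun n : ℕ => w n * Real.exp (-(Real.log n ^ 2) / Real.log n) / Real.log n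
    with hf
  have hf0 : ∀ n, 0 ≤ f n := by
    intro n
    have h1 := hw n
    have h2 := Real.log_natCast_nonneg n
    simp only [hf]
    positivity
  have hf1 : ∀ n : ℕ, 2 ≤ n → f n = w n / (n * Real.log n) := by
    intro n hn
    have hn' : (1 : ℝ) < n := by exact_mod_cast hn
    have hl : 0 < Real.log n := Real.log_pos hn'
    simp only [hf]
    have h1 : -(Real.log n ^ 2) / Real.log n = -Real.log n := by field_simp
    rw [h1, Real.exp_neg, Real.exp_log (by linarith)]
    field_simp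
  have hW0 := W_nonneg hW
  -- block estimate
  have hblock : ∀ k : ℕ, 2 * W ≤ 2 ^ k → 1 ≤ k →
      1 / (4 * Real.log 2) * (1 / ((k : ℝ) + 1)) ≤
        ∑ i ∈ Finset.range (2 ^ k), f (2 ^ k + i + 1) := by
    intro k hk hk1
    have hl2 : 0 < Real.log 2 := Real.log_pos (by norm_num)
    have h1 := (abs_le.mp (hW (2 ^ k) (2 ^ k))).1
    have h2 : ∀ i ∈ Finset.range (2 ^ k),
        w (2 ^ k + i + 1) * (1 / (2 * 2 ^ k * (((k : ℝ) + 1) * Real.log 2))) ≤
          f (2 ^ k + i + 1) := by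
      intro i hi
      rw [Finset.mem_range] at hi
      rw [hf1 _ (by have := Nat.one_le_two_pow (n := k); omega),
        div_eq_mul_one_div (w (2 ^ k + i + 1)) (((2 ^ k + i + 1 : ℕ) : ℝ) * _)]
      refine mul_le_mul_of_nonneg_left ?_ (hw _)
      have h3 : ((2 ^ k + i + 1 : ℕ) : ℝ) ≤ 2 * 2 ^ k := by
        have : 2 ^ k + i + 1 ≤ 2 * 2 ^ k := by omega
        exact_mod_cast this
      have h4 : (1 : ℝ) < ((2 ^ k + i + 1 : ℕ) : ℝ) := by
        have : 1 < 2 ^ k + i + 1 := by have := Nat.one_le_two_pow (n := k); omega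
        exact_mod_cast this
      have h5 : 0 < Real.log ((2 ^ k + i + 1 : ℕ) : ℝ) := Real.log_pos h4
      have h6 : Real.log ((2 ^ k + i + 1 : ℕ) : ℝ) ≤ ((k : ℝ) + 1) * Real.log 2 := by
        calc Real.log ((2 ^ k + i + 1 : ℕ) : ℝ) ≤ Real.log (2 * 2 ^ k) :=
              Real.log_le_log (by linarith) h3
          _ = ((k : ℝ) + 1) * Real.log 2 := by
              rw [Real.log_mul (by norm_num) (by positivity), Real.log_pow]; ring
      apply one_div_le_one_div_of_le (by positivity)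
      gcongr
    have h3 := Finset.sum_le_sum h2
    rw [← Finset.sum_mul] at h3
    refine le_trans ?_ h3
    push_cast at h1
    have h4 : (2 : ℝ) ^ k / 2 ≤ ∑ i ∈ Finset.range (2 ^ k), w (2 ^ k + i + 1) := by linarith
    calc 1 / (4 * Real.log 2) * (1 / ((k : ℝ) + 1))
        = (2 : ℝ) ^ k / 2 * (1 / (2 * 2 ^ k * (((k : ℝ) + 1) * Real.log 2))) := by
          field_simp; norm_num
      _ ≤ _ := by gcongr
  obtain ⟨k0, hk0⟩ : ∃ k0 : ℕ, 2 * W ≤ 2 ^ k0 := by
    obtain ⟨k, hk⟩ := pow_unbounded_of_one_lt (2 * W) (by norm_num : (1 : ℝ) < 2)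
    exact ⟨k, hk.le⟩
  set k1 := k0 + 1 with hk1
  have hl2 : 0 < Real.log 2 := Real.log_pos (by norm_num)
  have hpart : ∀ j : ℕ, ∑ i ∈ Finset.range j, 1 / (4 * Real.log 2) * (1 / (((k1 + i : ℕ) : ℝ) + 1)) ≤
      ∑ i ∈ Finset.range (2 ^ (k1 + j)), f (i + 1) := by
    intro j
    induction j with
    | zero =>
      simp only [Finset.range_zero, Finset.sum_empty]
      exact Finset.sum_nonneg fun i _ => hf0 _
    | succ j ih =>
      rw [Finset.sum_range_succ]
      have h1 : 2 ^ (k1 + (j + 1)) = 2 ^ (k1 + j) + 2 ^ (k1 + j) := by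
        rw [← add_assoc, pow_succ]; ring
      rw [h1, Finset.sum_range_add]
      have h2 := hblock (k1 + j) (hk0.trans (pow_le_pow_right₀ (by norm_num) (by omega)))
        (by omega)
      exact add_le_add ih h2
  have hbd : ∀ j : ℕ, ∑ i ∈ Finset.range j,
      1 / (4 * Real.log 2) * (1 / (((k1 + i : ℕ) : ℝ) + 1)) ≤ ∑' n, f (n + 1) := by
    intro j
    refine (hpart j).trans ?_
    exact ((summable_nat_add_iff 1).mpr hsum).sum_le_tsum _ fun i _ => hf0 _
  have hs : Summable fun i : ℕ => 1 / (4 * Real.log 2) * (1 / (((k1 + i : ℕ) : ℝ) + 1)) :=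
    summable_of_sum_range_le (fun i => by positivity) hbd
  rw [summable_mul_left_iff (by positivity)] at hs
  have hs2 : Summable fun i : ℕ => 1 / (i : ℝ) := by
    rw [← summable_nat_add_iff (k1 + 1)]
    refine hs.congr fun i => ?_
    push_cast
    congr 1
    ring
  exact Real.not_summable_one_div_natCast hs2

end Pool.Agent.Helper88.GapCore
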