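import Mathlib
import Pool.Agent.Helper88.CntFinal
import Pool.Agent.Helper88.GapDiv

open MeasureTheory ProbabilityTheory Filter Finset
open scoped Topology

set_option linter.unusedSectionVars false
set_option maxHeartbeats 1000000

namespace Pool.Agent.Helper88.CN

open Pool.Agent.Helper88.Lln
open Pool.Agent.Helper88.ER

variable {Ω : Type*} [mΩ : MeasurableSpace Ω] {μ : Measure Ω} {ℱ : Filtration ℕ mΩ}
  {R : ℕ → Set Ω} {w t : ℕ → ℝ} {W v C q ε δ : ℝ} {n₀ : ℕ}

/-- the event that `n` is chosen and followed by a gap of size at least `t n` -/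
def Ex (R : ℕ → Set Ω) (t : ℕ → ℝ) (ω : Ω) (n : ℕ) : Prop :=
  ω ∈ R n ∧ ∀ m : ℕ, n < m → (m : ℝ) - n - 1 < t n → ω ∉ R m

lemma Ex_succ (ω : Ω) (n : ℕ) : Ex R t ω (n + 1) ↔
    ω ∈ R (n + 1) ∧ ∀ i < kk t n, ω ∉ R (n + 1 + i + 1) := by
  unfold Ex kk
  refine and_congr_right fun _ => ⟨fun h i hi => ?_, fun h m hm hmt => ?_⟩
  · refine h (n + 1 + i + 1) (by omega) ?_
    rw [Nat.lt_ceil] at hi
    push_cast
    linarith
  · obtain ⟨i, rfl⟩ : ∃ i, m = n + 1 + i + 1 := ⟨m - (n + 1) - 1, by omega⟩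
    apply h i
    rw [Nat.lt_ceil]
    push_cast at hmt
    linarith

open Classical in
lemma count_eq (R : ℕ → Set Ω) (t : ℕ → ℝ) (ω : Ω) (x : ℕ) :
    (({n : ℕ | n ≤ x ∧ ω ∈ R n ∧ ∀ m : ℕ, n < m → (m : ℝ) - n - 1 < t n → ω ∉ R m}.ncard : ℕ) : ℝ)
      = (if Ex R t ω 0 then 1 else 0) + ∑ n ∈ range x, XX R t n ω := by
  have h1 : {n : ℕ | n ≤ x ∧ ω ∈ R n ∧ ∀ m : ℕ, n < m → (m : ℝ) - n - 1 < t n → ω ∉ R m} =
      (((range (x + 1)).filter (fun n => Ex R t ω n) : Finset ℕ) : Set ℕ) := by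
    ext n
    simp only [Set.mem_ofPred_eq, coe_filter, mem_range, Nat.lt_succ_iff]
    rfl
  rw [h1, Set.ncard_coe_finset, card_filter]
  push_cast
  rw [sum_range_succ', add_comm]
  congr 1
  refine sum_congr rfl fun n _ => ?_
  unfold XX
  by_cases h : Ex R t ω (n + 1)
  · rw [if_pos h, if_pos ((Ex_succ ω n).mp h)]
  · rw [if_neg h, if_neg (fun h2 => h ((Ex_succ ω n).mpr h2))]

lemma sum_eq (w t : ℕ → ℝ) (v κ : ℝ) (x : ℕ) :
    ∑ n ∈ range (x + 1), w n * Real.exp (-t n / Real.log n -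
      (κ + v / 2) * t n / Real.log n ^ 2) / Real.log n = ∑ n ∈ range x, sk w t v κ n := by
  rw [sum_range_succ']
  simp only [Nat.cast_zero, Real.log_zero, div_zero, add_zero]
  refine sum_congr rfl fun n _ => ?_
  unfold sk AA LL
  rw [neg_add, ← neg_div, sub_eq_add_neg]
  ring_nf

/-- divergence does not depend on the second-order parameter -/
lemma sk_tendsto (hw : ∀ n, 0 ≤ w n) (ht : ∀ n, 0 ≤ t n)
    (htC : ∀ᶠ n : ℕ in atTop, t n ≤ C * Real.log n ^ 2)
    (hdiv : ¬ Summable fun n : ℕ => w n * Real.exp (-t n / Real.log n) / Real.log n) (κ : ℝ) :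
    Tendsto (fun N => ∑ n ∈ range N, sk w t v κ n) atTop atTop := by
  rw [← not_summable_iff_tendsto_nat_atTop_of_nonneg fun n => sk_nonneg hw κ n]
  intro hsum
  apply hdiv
  rw [← summable_nat_add_iff 1]
  have h1 : ∀ᶠ n : ℕ in atTop, t (n + 1) ≤ C * LL n ^ 2 := (tendsto_add_atTop_nat 1).eventually htC
  have h2 : ∀ᶠ n : ℕ in atTop, 1 ≤ LL n := by
    filter_upwards [logn.eventually_ge_atTop 1] with n hn
    rw [LL_eq]; exact hn
  refine Summable.of_norm_bounded_eventually_nat (g := fun n =>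
    Real.exp (|κ + v / 2| * C) * sk w t v κ n) (hsum.mul_left _) ?_
  filter_upwards [h1, h2] with n h3 h4
  have hwn := hw (n + 1)
  have htn := ht (n + 1)
  have e0 : 0 ≤ w (n + 1) * Real.exp (-t (n + 1) / Real.log ((n + 1 : ℕ) : ℝ)) /
      Real.log ((n + 1 : ℕ) : ℝ) :=
    div_nonneg (mul_nonneg hwn (Real.exp_pos _).le) (Real.log_natCast_nonneg _)
  rw [Real.norm_of_nonneg e0]
  change w (n + 1) * Real.exp (-t (n + 1) / LL n) / LL n ≤ _
  unfold sk
  rw [← mul_assoc, ← Real.exp_add]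
  have e1 : w (n + 1) * Real.exp (-t (n + 1) / LL n) / LL n =
      Real.exp (-t (n + 1) / LL n) * (w (n + 1) / LL n) := by ring
  rw [e1]
  refine mul_le_mul_of_nonneg_right ?_ (div_nonneg hwn (LL_nonneg n))
  apply Real.exp_le_exp.mpr
  unfold AA
  have h5 : (κ + v / 2) * t (n + 1) / LL n ^ 2 ≤ |κ + v / 2| * C := by
    have h6 : t (n + 1) / LL n ^ 2 ≤ C := by
      rw [div_le_iff₀ (by positivity)]; exact h3
    have h7 : 0 ≤ t (n + 1) / LL n ^ 2 := by positivity
    calc (κ + v / 2) * t (n + 1) / LL n ^ 2 = (κ + v / 2) * (t (n + 1) / LL n ^ 2) := by ring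
      _ ≤ |κ + v / 2| * (t (n + 1) / LL n ^ 2) := by gcongr; exact le_abs_self _
      _ ≤ _ := by gcongr
  have e2 : -t (n + 1) / LL n = -(t (n + 1) / LL n) := by ring
  rw [e2]
  linarith

theorem count_law [IsProbabilityMeasure μ] (hR : ∀ n, MeasurableSet[ℱ n] (R n))
    (hw : ∀ n, 0 ≤ w n)
    (hW : ∀ n k : ℕ, |∑ i ∈ range k, w (n + i + 1) - k| ≤ W)
    (hV : ∀ n k : ℕ, |∑ i ∈ range k, w (n + i + 1) ^ 2 - v * k| ≤ W) {κ : Ω → ℝ}
    (hcond : ∀ᵐ ω ∂μ, ∀ ε : ℝ, 0 < ε → ∀ᶠ n : ℕ in atTop,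
      |(μ[(R (n + 1)).indicator (fun _ => (1 : ℝ)) | ℱ n]) ω -
        w (n + 1) * (1 / Real.log (n + 1 : ℕ) + κ ω / Real.log (n + 1 : ℕ) ^ 2)| ≤
        ε * w (n + 1) / Real.log (n + 1 : ℕ) ^ 2)
    (ht : ∀ n, 0 ≤ t n) (htC : ∀ᶠ n : ℕ in atTop, t n ≤ C * Real.log n ^ 2)
    (hdiv : ¬ Summable fun n : ℕ => w n * Real.exp (-t n / Real.log n) / Real.log n) :
    ∀ᵐ ω ∂μ, Tendsto (fun x : ℕ =>
      (({n : ℕ | n ≤ x ∧ ω ∈ R n ∧
        ∀ m : ℕ, n < m → (m : ℝ) - n - 1 < t n → ω ∉ R m}.ncard : ℕ) : ℝ) /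
      ∑ n ∈ range (x + 1), w n * Real.exp (-t n / Real.log n -
        (κ ω + v / 2) * t n / Real.log n ^ 2) / Real.log n) atTop (𝓝 1) := by
  classical
  have hlaw : ∀ᵐ ω ∂μ, ∀ (q : ℚ) (a n₀ : ℕ),
      Par w t W v C q (1 / ((a : ℝ) + 1)) (1 / ((a : ℝ) + 1)) n₀ →
      Tendsto (fun N => ∑ n ∈ range N, ss w t v q n₀ n) atTop atTop →
      Tendsto (fun N =>
      (∑ n ∈ range N, bb t v q n₀ n * TT μ ℱ R (hf μ ℱ R w q (1 / ((a : ℝ) + 1)) n₀) (kk t) n ω -
        ∑ n ∈ range N, bb t v q n₀ n *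
          (hf μ ℱ R w q (1 / ((a : ℝ) + 1)) n₀ n ω * lam μ ℱ R n ω)) /
        ∑ n ∈ range N, ss w t v q n₀ n) atTop (𝓝 0) := by
    refine ae_all_iff.mpr fun q => ae_all_iff.mpr fun a => ae_all_iff.mpr fun n₀ => ?_
    by_cases h1 : Par w t W v C q (1 / ((a : ℝ) + 1)) (1 / ((a : ℝ) + 1)) n₀
    swap
    · exact ae_of_all _ fun ω h => absurd h h1
    by_cases h2 : Tendsto (fun N => ∑ n ∈ range N, ss w t v q n₀ n) atTop atTop
    swap
    · exact ae_of_all _ fun ω _ h => absurd h h2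
    filter_upwards [law_par (μ := μ) hR h1 h2] with ω h _ _
    exact h
  have hlam : ∀ᵐ ω ∂μ, ∀ n, lam μ ℱ R n ω =
      (μ[(R (n + 1)).indicator (fun _ => (1 : ℝ)) | ℱ n]) ω :=
    ae_all_iff.mpr fun n => lam_ae (μ := μ) hR n
  filter_upwards [hcond, hlam, hlaw] with ω h1 h2 h3
  have hc : ∀ ε : ℝ, 0 < ε → ∀ᶠ n : ℕ in atTop, Cnd w (κ ω) ε n (lam μ ℱ R n ω) := by
    intro ε hε
    filter_upwards [h1 ε hε] with n hn
    unfold Cnd LL
    rw [h2 n]
    exact hn
  have hS := sk_tendsto (w := w) (t := t) (v := v) (C := C) hw ht htC hdiv (κ ω)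
  have hr := ratio (μ := μ) (ℱ := ℱ) (R := R) (ω := ω) (κ := κ ω) hw hW hV ht htC hc hS h3
  have h4 : Tendsto (fun x : ℕ => (if Ex R t ω 0 then (1 : ℝ) else 0) /
      ∑ n ∈ range x, sk w t v (κ ω) n) atTop (𝓝 0) := tendsto_const_nhds.div_atTop hS
  have h5 := h4.add hr
  rw [zero_add] at h5
  refine h5.congr fun x => ?_
  rw [count_eq R t ω x, sum_eq, add_div]

/-! ### The threshold `(log n)^2` -/

/-- partial sums of `1 / (n log n)` -/
lemma loglog_le (N : ℕ) :
    Real.log (Real.log ((N + 3 : ℕ) : ℝ)) - Real.log (Real.log 3) ≤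
      ∑ n ∈ range N, 1 / (((n + 3 : ℕ) : ℝ) * Real.log ((n + 3 : ℕ) : ℝ)) ∧
    ∑ n ∈ range N, 1 / (((n + 3 : ℕ) : ℝ) * Real.log ((n + 3 : ℕ) : ℝ)) ≤
      Real.log (Real.log ((N + 3 : ℕ) : ℝ)) - Real.log (Real.log 3) + 1 -
        1 / (((N + 3 : ℕ) : ℝ) * Real.log ((N + 3 : ℕ) : ℝ)) := by
  have hl3 : 1 ≤ Real.log 3 := by
    rw [← Real.log_exp 1]
    exact Real.log_le_log (Real.exp_pos 1) (by have := Real.exp_one_lt_d9; linarith)
  have hlog1 : ∀ n : ℕ, 1 ≤ Real.log ((n + 3 : ℕ) : ℝ) := by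
    intro n
    refine hl3.trans (Real.log_le_log (by norm_num) ?_)
    have : 3 ≤ n + 3 := by omega
    exact_mod_cast this
  -- increments
  have inc : ∀ n : ℕ,
      Real.log (Real.log ((n + 1 + 3 : ℕ) : ℝ)) - Real.log (Real.log ((n + 3 : ℕ) : ℝ)) ≤
        1 / (((n + 3 : ℕ) : ℝ) * Real.log ((n + 3 : ℕ) : ℝ)) ∧
      1 / (((n + 1 + 3 : ℕ) : ℝ) * Real.log ((n + 1 + 3 : ℕ) : ℝ)) ≤
        Real.log (Real.log ((n + 1 + 3 : ℕ) : ℝ)) - Real.log (Real.log ((n + 3 : ℕ) : ℝ)) := by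
    intro n
    set a : ℝ := ((n + 3 : ℕ) : ℝ) with ha
    have ha3 : 3 ≤ a := by
      have : 3 ≤ n + 3 := by omega
      rw [ha]; exact_mod_cast this
    have hb : ((n + 1 + 3 : ℕ) : ℝ) = a + 1 := by rw [ha]; push_cast; ring
    rw [hb]
    have h1 : 1 ≤ Real.log a := hlog1 n
    have h2 : 1 ≤ Real.log (a + 1) := h1.trans (Real.log_le_log (by linarith) (by linarith))
    have h3 : Real.log (a + 1) - Real.log a ≤ 1 / a := by
      rw [← Real.log_div (by linarith) (by linarith)]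
      have := Real.log_le_sub_one_of_pos (show 0 < (a + 1) / a by positivity)
      have e : (a + 1) / a - 1 = 1 / a := by field_simp; ring
      linarith
    have h4 : 1 / (a + 1) ≤ Real.log (a + 1) - Real.log a := by
      rw [← Real.log_div (by linarith) (by linarith)]
      have := Real.one_sub_inv_le_log_of_pos (show 0 < (a + 1) / a by positivity)
      have e : 1 - ((a + 1) / a)⁻¹ = 1 / (a + 1) := by
        rw [inv_div]; field_simp; ring
      linarith
    rw [← Real.log_div (by linarith) (by linarith)]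
    constructor
    · have h5 := Real.log_le_sub_one_of_pos (show 0 < Real.log (a + 1) / Real.log a by positivity)
      have e : Real.log (a + 1) / Real.log a - 1 = (Real.log (a + 1) - Real.log a) / Real.log a := by
        field_simp
      rw [e] at h5
      refine h5.trans ?_
      rw [div_le_div_iff₀ (by linarith) (by positivity), one_mul]
      calc (Real.log (a + 1) - Real.log a) * (a * Real.log a) ≤ 1 / a * (a * Real.log a) := by
            gcongr
        _ = Real.log a := by field_simp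
    · have h5 := Real.one_sub_inv_le_log_of_pos
        (show 0 < Real.log (a + 1) / Real.log a by positivity)
      have e : 1 - (Real.log (a + 1) / Real.log a)⁻¹ =
          (Real.log (a + 1) - Real.log a) / Real.log (a + 1) := by
        rw [inv_div]; field_simp
      rw [e] at h5
      refine le_trans ?_ h5
      rw [div_le_div_iff₀ (by positivity) (by linarith), one_mul]
      calc Real.log (a + 1) = 1 / (a + 1) * ((a + 1) * Real.log (a + 1)) := by field_simp
        _ ≤ _ := by gcongr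
  induction N with
  | zero =>
    simp only [range_zero, sum_empty, zero_add]
    have h1 : Real.log (Real.log ((3 : ℕ) : ℝ)) = Real.log (Real.log 3) := by norm_num
    rw [h1]
    constructor
    · linarith
    · have h2 : 1 / (((3 : ℕ) : ℝ) * Real.log ((3 : ℕ) : ℝ)) ≤ 1 := by
        rw [div_le_one (by push_cast; positivity)]
        push_cast
        nlinarith
      linarith
  | succ N ih =>
    rw [sum_range_succ]
    obtain ⟨i1, i2⟩ := inc N
    constructor
    · linarith [ih.1]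
    · linarith [ih.2]

/-- Abel summation bound -/
lemma abel {a c : ℕ → ℝ} {W : ℝ} (hA : ∀ N, |∑ n ∈ range N, a n| ≤ W) (hc : Antitone c)
    (hc0 : ∀ n, 0 ≤ c n) (N : ℕ) : |∑ n ∈ range N, a n * c n| ≤ W * c 0 := by
  have hid : ∀ N, ∑ n ∈ range N, a n * c n = (∑ n ∈ range N, a n) * c N +
      ∑ n ∈ range N, (∑ i ∈ range (n + 1), a i) * (c n - c (n + 1)) := by
    intro N
    induction N with
    | zero => simp
    | succ N ih =>
      rw [sum_range_succ, ih, sum_range_succ (fun n => (∑ i ∈ range (n + 1), a i) *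
        (c n - c (n + 1))), sum_range_succ a]
      ring
  rw [hid]
  have hW : 0 ≤ W := (abs_nonneg _).trans (hA 0)
  have h1 : |(∑ n ∈ range N, a n) * c N| ≤ W * c N := by
    rw [abs_mul, abs_of_nonneg (hc0 N)]
    exact mul_le_mul_of_nonneg_right (hA N) (hc0 N)
  have h2 : |∑ n ∈ range N, (∑ i ∈ range (n + 1), a i) * (c n - c (n + 1))| ≤
      W * (c 0 - c N) := by
    calc _ ≤ ∑ n ∈ range N, |(∑ i ∈ range (n + 1), a i) * (c n - c (n + 1))| :=
          abs_sum_le_sum_abs _ _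
      _ ≤ ∑ n ∈ range N, W * (c n - c (n + 1)) := by
          refine sum_le_sum fun n _ => ?_
          have h3 : 0 ≤ c n - c (n + 1) := sub_nonneg.mpr (hc (Nat.le_succ n))
          rw [abs_mul, abs_of_nonneg h3]
          exact mul_le_mul_of_nonneg_right (hA _) h3
      _ = W * (c 0 - c N) := by rw [← mul_sum, sum_range_sub']
  calc _ ≤ W * c N + W * (c 0 - c N) := (abs_add_le _ _).trans (add_le_add h1 h2)
    _ = W * c 0 := by ring

/-- `∑_{n ≤ x} w n / (n log n) ~ log log x` -/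
lemma loglog_ratio (hW : ∀ n k : ℕ, |∑ i ∈ range k, w (n + i + 1) - k| ≤ W) :
    Tendsto (fun x : ℕ => (∑ n ∈ range (x + 1), w n / (n * Real.log n)) /
      Real.log (Real.log x)) atTop (𝓝 1) := by
  have hLLt : Tendsto (fun x : ℕ => Real.log (Real.log (x : ℝ))) atTop atTop :=
    Real.tendsto_log_atTop.comp (Real.tendsto_log_atTop.comp tendsto_natCast_atTop_atTop)
  set c : ℕ → ℝ := fun n => 1 / (((n + 3 : ℕ) : ℝ) * Real.log ((n + 3 : ℕ) : ℝ)) with hc
  have hlogpos : ∀ n : ℕ, 0 < Real.log ((n + 3 : ℕ) : ℝ) := fun n =>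
    Real.log_pos (by
      have : 1 < n + 3 := by omega
      exact_mod_cast this)
  have hc0 : ∀ n, 0 ≤ c n := fun n => by
    have := (hlogpos n).le
    simp only [hc]; positivity
  have hanti : Antitone c := by
    refine antitone_nat_of_succ_le fun n => ?_
    simp only [hc]
    have h1 := hlogpos n
    have h3 : ((n + 3 : ℕ) : ℝ) ≤ ((n + 1 + 3 : ℕ) : ℝ) := by
      have : n + 3 ≤ n + 1 + 3 := by omega
      exact_mod_cast this
    have h4 : (0 : ℝ) < ((n + 3 : ℕ) : ℝ) := by positivity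
    have h2 : Real.log ((n + 3 : ℕ) : ℝ) ≤ Real.log ((n + 1 + 3 : ℕ) : ℝ) :=
      Real.log_le_log h4 h3
    apply one_div_le_one_div_of_le (by positivity)
    gcongr
  have hA : ∀ N, |∑ n ∈ range N, (w (n + 3) - 1)| ≤ W := by
    intro N
    have h1 := hW 2 N
    rw [sum_sub_distrib, sum_const, card_range, nsmul_eq_mul, mul_one]
    have e : ∑ i ∈ range N, w (2 + i + 1) = ∑ n ∈ range N, w (n + 3) :=
      sum_congr rfl fun i _ => by congr 1; omega
    rwa [e] at h1
  have hab := abel hA hanti hc0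
  -- bounded difference
  set K : ℝ := |w 0 / (0 * Real.log 0)| + |w 1 / (1 * Real.log 1)| + |w 2 / (2 * Real.log 2)| +
    (W * c 0 + |Real.log (Real.log 3)| + 1) with hK
  have hdiff : ∀ x : ℕ, 3 ≤ x →
      |∑ n ∈ range (x + 1), w n / (n * Real.log n) - Real.log (Real.log ((x + 1 : ℕ) : ℝ))| ≤ K := by
    intro x hx
    obtain ⟨N, rfl⟩ : ∃ N, x = N + 2 := ⟨x - 2, by omega⟩
    have e : ∑ n ∈ range (N + 2 + 1), w n / (n * Real.log n) =
        w 0 / (0 * Real.log 0) + w 1 / (1 * Real.log 1) + w 2 / (2 * Real.log 2) +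
        ∑ n ∈ range N, w (n + 3) * c n := by
      rw [show N + 2 + 1 = 3 + N by ring, sum_range_add]
      simp only [sum_range_succ, sum_range_zero, zero_add, Nat.cast_zero, Nat.cast_one,
        Nat.cast_ofNat]
      congr 1
      refine sum_congr rfl fun n _ => ?_
      rw [add_comm 3 n]
      simp only [hc]
      rw [mul_one_div]
    have e2 : ∑ n ∈ range N, w (n + 3) * c n = ∑ n ∈ range N, (w (n + 3) - 1) * c n +
        ∑ n ∈ range N, c n := by
      rw [← sum_add_distrib]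
      exact sum_congr rfl fun n _ => by ring
    rw [e, e2]
    have h1 := hab N
    obtain ⟨l1, l2⟩ := loglog_le N
    have hcN := hc0 N
    have h3 : |∑ n ∈ range N, c n - Real.log (Real.log ((N + 3 : ℕ) : ℝ))| ≤
        |Real.log (Real.log 3)| + 1 := by
      rw [abs_le]
      have := le_abs_self (Real.log (Real.log 3))
      have := neg_abs_le (Real.log (Real.log 3))
      simp only [hc] at hcN ⊢
      constructor <;> linarith
    have e3 : w 0 / (0 * Real.log 0) + w 1 / (1 * Real.log 1) + w 2 / (2 * Real.log 2) +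
        (∑ n ∈ range N, (w (n + 3) - 1) * c n + ∑ n ∈ range N, c n) -
        Real.log (Real.log ((N + 2 + 1 : ℕ) : ℝ)) =
        (w 0 / (0 * Real.log 0) + w 1 / (1 * Real.log 1) + w 2 / (2 * Real.log 2)) +
        (∑ n ∈ range N, (w (n + 3) - 1) * c n +
        (∑ n ∈ range N, c n - Real.log (Real.log ((N + 3 : ℕ) : ℝ)))) := by
      rw [show N + 2 + 1 = N + 3 by ring]; ring
    rw [e3, hK]
    refine (abs_add_le _ _).trans (add_le_add ?_ ?_)
    · exact (abs_add_le _ _).trans (add_le_add (abs_add_le _ _) le_rfl)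
    · refine (abs_add_le _ _).trans ?_
      linarith
  have hK0 : 0 ≤ K := (abs_nonneg _).trans (hdiff 3 le_rfl)
  -- replace `x + 1` by `x`
  have hshift : ∀ x : ℕ, 3 ≤ x →
      |Real.log (Real.log ((x + 1 : ℕ) : ℝ)) - Real.log (Real.log (x : ℝ))| ≤ 1 := by
    intro x hx
    have hx3 : (3 : ℝ) ≤ x := by exact_mod_cast hx
    have h1 : 1 ≤ Real.log (x : ℝ) := by
      rw [← Real.log_exp 1]
      exact Real.log_le_log (Real.exp_pos 1) (by have := Real.exp_one_lt_d9; linarith)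
    have h2 : Real.log (x : ℝ) ≤ Real.log ((x + 1 : ℕ) : ℝ) :=
      Real.log_le_log (by linarith) (by push_cast; linarith)
    have h3 : Real.log ((x + 1 : ℕ) : ℝ) ≤ Real.log x + 1 := by
      push_cast
      have h4 : Real.log ((x : ℝ) + 1) ≤ Real.log (x * Real.exp 1) := by
        apply Real.log_le_log (by positivity)
        have := Real.add_one_le_exp (1 : ℝ)
        nlinarith
      rw [Real.log_mul (by positivity) (Real.exp_pos 1).ne', Real.log_exp] at h4
      exact h4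
    have h5 : Real.log (Real.log (x : ℝ)) ≤ Real.log (Real.log ((x + 1 : ℕ) : ℝ)) :=
      Real.log_le_log (by linarith) h2
    have h6 : Real.log (Real.log ((x + 1 : ℕ) : ℝ)) ≤ Real.log (Real.log (x : ℝ)) + 1 := by
      have h7 : Real.log (Real.log ((x + 1 : ℕ) : ℝ)) ≤
          Real.log (Real.log (x : ℝ) * Real.exp 1) := by
        apply Real.log_le_log (by linarith)
        have := Real.add_one_le_exp (1 : ℝ)
        nlinarith
      rw [Real.log_mul (by linarith) (Real.exp_pos 1).ne', Real.log_exp] at h7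
      exact h7
    rw [abs_le]; constructor <;> linarith
  rw [Metric.tendsto_atTop']
  intro η hη
  obtain ⟨N₁, hN₁⟩ := eventually_atTop.mp ((hLLt.eventually_gt_atTop ((K + 1) / η)).and
    ((hLLt.eventually_gt_atTop 0).and (eventually_ge_atTop 3)))
  refine ⟨N₁, fun x hx => ?_⟩
  obtain ⟨g1, g2, g3⟩ := hN₁ x hx.le
  have h1 := hdiff x g3
  have h2 := hshift x g3
  have h3 : |∑ n ∈ range (x + 1), w n / (n * Real.log n) - Real.log (Real.log (x : ℝ))| ≤ K + 1 := by
    have e : ∑ n ∈ range (x + 1), w n / (n * Real.log n) - Real.log (Real.log (x : ℝ)) =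
        (∑ n ∈ range (x + 1), w n / (n * Real.log n) - Real.log (Real.log ((x + 1 : ℕ) : ℝ))) +
        (Real.log (Real.log ((x + 1 : ℕ) : ℝ)) - Real.log (Real.log (x : ℝ))) := by ring
    rw [e]
    exact (abs_add_le _ _).trans (add_le_add h1 h2)
  rw [Real.dist_eq]
  have e : (∑ n ∈ range (x + 1), w n / (n * Real.log n)) / Real.log (Real.log x) - 1 =
      (∑ n ∈ range (x + 1), w n / (n * Real.log n) - Real.log (Real.log (x : ℝ))) /
        Real.log (Real.log x) := by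
    field_simp
  rw [e, abs_div, abs_of_pos g2, div_lt_iff₀ g2]
  rw [div_lt_iff₀ hη] at g1
  linarith

theorem count_log_sq [IsProbabilityMeasure μ] (hR : ∀ n, MeasurableSet[ℱ n] (R n))
    (hw : ∀ n, 0 ≤ w n)
    (hW : ∀ n k : ℕ, |∑ i ∈ range k, w (n + i + 1) - k| ≤ W)
    (hV : ∀ n k : ℕ, |∑ i ∈ range k, w (n + i + 1) ^ 2 - v * k| ≤ W) {κ : Ω → ℝ}
    (hcond : ∀ᵐ ω ∂μ, ∀ ε : ℝ, 0 < ε → ∀ᶠ n : ℕ in atTop,
      |(μ[(R (n + 1)).indicator (fun _ => (1 : ℝ)) | ℱ n]) ω -
        w (n + 1) * (1 / Real.log (n + 1 : ℕ) + κ ω / Real.log (n + 1 : ℕ) ^ 2)| ≤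
        ε * w (n + 1) / Real.log (n + 1 : ℕ) ^ 2) :
    ∀ᵐ ω ∂μ, Tendsto (fun x : ℕ =>
      (({n : ℕ | n ≤ x ∧ ω ∈ R n ∧
        ∀ m : ℕ, n < m → (m : ℝ) - n - 1 < Real.log n ^ 2 → ω ∉ R m}.ncard : ℕ) : ℝ) /
      Real.log (Real.log x)) atTop (𝓝 (Real.exp (-κ ω - v / 2))) := by
  have h := count_law (μ := μ) (t := fun n => Real.log n ^ 2) (C := 1) hR hw hW hV hcond
    (fun n => sq_nonneg _) (Eventually.of_forall fun n => by rw [one_mul])
    (Pool.Agent.Helper88.GapCore.not_summable_w hw hW)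
  filter_upwards [h] with ω hω
  have h1 := loglog_ratio (w := w) hW
  have hsum : ∀ x : ℕ, ∑ n ∈ range (x + 1), w n * Real.exp (-(Real.log n ^ 2) / Real.log n -
        (κ ω + v / 2) * Real.log n ^ 2 / Real.log n ^ 2) / Real.log n =
      Real.exp (-κ ω - v / 2) * ∑ n ∈ range (x + 1), w n / (n * Real.log n) := by
    intro x
    rw [mul_sum]
    refine sum_congr rfl fun n _ => ?_
    rcases Nat.lt_or_ge n 2 with h2 | h2
    · have : Real.log (n : ℝ) = 0 := by
        interval_cases n <;> simp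
      rw [this]; simp
    · have hn : (1 : ℝ) < n := by exact_mod_cast h2
      have hl : 0 < Real.log (n : ℝ) := Real.log_pos hn
      have e1 : -(Real.log (n : ℝ) ^ 2) / Real.log n - (κ ω + v / 2) * Real.log n ^ 2 /
          Real.log n ^ 2 = (-κ ω - v / 2) + -Real.log n := by
        field_simp
        ring
      rw [e1, Real.exp_add, Real.exp_neg (Real.log (n : ℝ)), Real.exp_log (by linarith)]
      field_simp
  have h2 : Tendsto (fun x : ℕ => (({n : ℕ | n ≤ x ∧ ω ∈ R n ∧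
        ∀ m : ℕ, n < m → (m : ℝ) - n - 1 < Real.log n ^ 2 → ω ∉ R m}.ncard : ℕ) : ℝ) /
        (Real.exp (-κ ω - v / 2) * ∑ n ∈ range (x + 1), w n / (n * Real.log n)) *
      (Real.exp (-κ ω - v / 2) * ((∑ n ∈ range (x + 1), w n / (n * Real.log n)) /
        Real.log (Real.log x)))) atTop (𝓝 (1 * (Real.exp (-κ ω - v / 2) * 1))) := by
    refine Tendsto.mul ?_ (h1.const_mul _)
    refine hω.congr fun x => ?_
    rw [hsum]
  rw [one_mul, mul_one] at h2
  refine h2.congr' ?_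
  -- the sum is eventually nonzero
  have hLLt : Tendsto (fun x : ℕ => Real.log (Real.log (x : ℝ))) atTop atTop :=
    Real.tendsto_log_atTop.comp (Real.tendsto_log_atTop.comp tendsto_natCast_atTop_atTop)
  have h3 : ∀ᶠ x : ℕ in atTop, (0 : ℝ) < (∑ n ∈ range (x + 1), w n / (n * Real.log n)) /
      Real.log (Real.log x) := h1.eventually (eventually_gt_nhds (by norm_num))
  filter_upwards [h3, hLLt.eventually_gt_atTop 0] with x hx1 hx2
  have hx3 : (∑ n ∈ range (x + 1), w n / (n * Real.log n)) ≠ 0 := by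
    intro h0
    rw [h0, zero_div] at hx1
    exact lt_irrefl _ hx1
  have hx4 := (Real.exp_pos (-κ ω - v / 2)).ne'
  field_simp

end Pool.Agent.Helper88.CN
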