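import Pool.Agent.Helper88.DivDefs

set_option autoImplicit false

namespace Pool.Agent.Helper88.Div

open Finset

theorem Adm.mono {A B : Finset ℕ} (h : Adm B) (hAB : A ⊆ B) : Adm A :=
  fun a ha b hb d hd => h a (hAB ha) b (hAB hb) d (hAB hd)

theorem adm_empty : Adm ∅ := by intro a ha; simp at ha

theorem card_le_mx {X A : Finset ℕ} (hA : A ⊆ X) (h : Adm A) : A.card ≤ mx X := by
  classical
  unfold mx
  exact Finset.le_sup (f := Finset.card) (by simp [hA, h])

theorem exists_mx (X : Finset ℕ) : ∃ A ⊆ X, Adm A ∧ A.card = mx X := by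
  classical
  unfold mx
  have hne : (X.powerset.filter Adm).Nonempty := ⟨∅, by simp [adm_empty]⟩
  obtain ⟨A, hA, hA2⟩ := Finset.exists_mem_eq_sup _ hne Finset.card
  rw [Finset.mem_filter, Finset.mem_powerset] at hA
  exact ⟨A, hA.1, hA.2, hA2.symm⟩

theorem mx_mono {X Y : Finset ℕ} (h : X ⊆ Y) : mx X ≤ mx Y := by
  obtain ⟨A, hA, hA2, hA3⟩ := exists_mx X
  rw [← hA3]
  exact card_le_mx (hA.trans h) hA2

theorem mx_insert_le (X : Finset ℕ) (s : ℕ) : mx (insert s X) ≤ mx X + 1 := by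
  obtain ⟨A, hA, hA2, hA3⟩ := exists_mx (insert s X)
  rw [← hA3]
  have h1 : (A.erase s) ⊆ X := by
    intro x hx
    rw [Finset.mem_erase] at hx
    have := hA hx.2
    rw [Finset.mem_insert] at this
    exact this.resolve_left hx.1
  have h2 := card_le_mx h1 (hA2.mono (Finset.erase_subset _ _))
  have h3 := Finset.pred_card_le_card_erase (s := A) (a := s)
  omega

/-- `K`-smooth part -/
noncomputable def sm (K n : ℕ) : ℕ := (n.factorization.filter (· < K)).prod (· ^ ·)
/-- `K`-rough part -/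
noncomputable def ro (K n : ℕ) : ℕ := (n.factorization.filter (fun p => ¬ p < K)).prod (· ^ ·)

theorem sm_mul_ro (K n : ℕ) (hn : n ≠ 0) : sm K n * ro K n = n := by
  unfold sm ro
  rw [Finsupp.prod_filter_mul_prod_filter_not]
  exact Nat.prod_factorization_pow_eq_self hn

theorem fact_sm (K n : ℕ) : (sm K n).factorization = n.factorization.filter (· < K) := by
  unfold sm
  apply Nat.prod_pow_factorization_eq_self
  intro p hp
  rw [Finsupp.support_filter, Finset.mem_filter] at hp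
  exact Nat.prime_of_mem_primeFactors hp.1

theorem fact_ro (K n : ℕ) : (ro K n).factorization = n.factorization.filter (fun p => ¬ p < K) := by
  unfold ro
  apply Nat.prod_pow_factorization_eq_self
  intro p hp
  rw [Finsupp.support_filter, Finset.mem_filter] at hp
  exact Nat.prime_of_mem_primeFactors hp.1

theorem sm_ne_zero (K n : ℕ) (hn : n ≠ 0) : sm K n ≠ 0 := by
  intro h
  have := sm_mul_ro K n hn
  rw [h, zero_mul] at this
  exact hn this.symm

theorem ro_ne_zero (K n : ℕ) (hn : n ≠ 0) : ro K n ≠ 0 := by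
  intro h
  have := sm_mul_ro K n hn
  rw [h, mul_zero] at this
  exact hn this.symm

theorem sm_mul (K a b : ℕ) (ha : a ≠ 0) (hb : b ≠ 0) : sm K (a * b) = sm K a * sm K b := by
  apply Nat.eq_of_factorization_eq (sm_ne_zero _ _ (by positivity))
    (Nat.mul_ne_zero (sm_ne_zero _ _ ha) (sm_ne_zero _ _ hb))
  intro p
  rw [Nat.factorization_mul (sm_ne_zero _ _ ha) (sm_ne_zero _ _ hb), fact_sm, fact_sm, fact_sm,
    Nat.factorization_mul ha hb, Finsupp.filter_add]

theorem ro_mul (K a b : ℕ) (ha : a ≠ 0) (hb : b ≠ 0) : ro K (a * b) = ro K a * ro K b := by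
  apply Nat.eq_of_factorization_eq (ro_ne_zero _ _ (by positivity))
    (Nat.mul_ne_zero (ro_ne_zero _ _ ha) (ro_ne_zero _ _ hb))
  intro p
  rw [Nat.factorization_mul (ro_ne_zero _ _ ha) (ro_ne_zero _ _ hb), fact_ro, fact_ro, fact_ro,
    Nat.factorization_mul ha hb, Finsupp.filter_add]

/-- smooth and rough numbers via the parts -/
theorem ro_eq_one_of_lt (K k : ℕ) (hk : k < K) : ro K k = 1 := by
  have : k.factorization.filter (fun p => ¬ p < K) = 0 := by
    rw [Finsupp.filter_eq_zero_iff]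
    intro p hp
    by_contra hne
    have hmem : p ∈ k.primeFactors := by
      rw [← Nat.support_factorization]; exact Finsupp.mem_support_iff.2 hne
    have := Nat.le_of_mem_primeFactors hmem
    omega
  unfold ro
  rw [this]
  simp

theorem ro_def (K m : ℕ) : ro K m = (m.factorization.filter (fun p => ¬ p < K)).prod (· ^ ·) := rfl
theorem sm_def (K m : ℕ) : sm K m = (m.factorization.filter (· < K)).prod (· ^ ·) := rfl

theorem ro_ro (K n : ℕ) : ro K (ro K n) = ro K n := by
  rw [ro_def K (ro K n), fact_ro]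
  rw [show (n.factorization.filter (fun p => ¬ p < K)).filter (fun p => ¬ p < K)
    = n.factorization.filter (fun p => ¬ p < K) by
    ext p; simp only [Finsupp.filter_apply]; split_ifs <;> rfl]
  rfl

theorem sm_sm (K n : ℕ) : sm K (sm K n) = sm K n := by
  rw [sm_def K (sm K n), fact_sm]
  rw [show (n.factorization.filter (· < K)).filter (· < K)
    = n.factorization.filter (· < K) by
    ext p; simp only [Finsupp.filter_apply]; split_ifs <;> rfl]
  rfl

theorem sm_ro (K n : ℕ) : sm K (ro K n) = 1 := by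
  unfold sm
  rw [fact_ro]
  rw [show (n.factorization.filter (fun p => ¬ p < K)).filter (· < K) = 0 by
    ext p; simp only [Finsupp.filter_apply, Finsupp.coe_zero, Pi.zero_apply]; split_ifs <;> rfl]
  simp

theorem ro_sm (K n : ℕ) : ro K (sm K n) = 1 := by
  unfold ro
  rw [fact_sm]
  rw [show (n.factorization.filter (· < K)).filter (fun p => ¬ p < K) = 0 by
    ext p; simp only [Finsupp.filter_apply, Finsupp.coe_zero, Pi.zero_apply]; split_ifs <;> rfl]
  simp


/-- smooth numbers up to `y` -/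
noncomputable def Sm (K y : ℕ) : Finset ℕ := (Finset.Icc 1 y).filter (fun s => ro K s = 1)
/-- rough numbers up to `n` -/
noncomputable def Ro (K n : ℕ) : Finset ℕ := (Finset.Icc 1 n).filter (fun v => sm K v = 1)

theorem mem_Sm {K y s : ℕ} : s ∈ Sm K y ↔ (1 ≤ s ∧ s ≤ y) ∧ ro K s = 1 := by
  simp [Sm]
theorem mem_Ro {K y s : ℕ} : s ∈ Ro K y ↔ (1 ≤ s ∧ s ≤ y) ∧ sm K s = 1 := by
  simp [Ro]

theorem ro_le (K n : ℕ) (hn : n ≠ 0) : ro K n ≤ n := by
  conv_rhs => rw [← sm_mul_ro K n hn]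
  exact Nat.le_mul_of_pos_left _ (Nat.pos_of_ne_zero (sm_ne_zero K n hn))

theorem sm_of_Sm {K s : ℕ} (hs : s ≠ 0) (h : ro K s = 1) : sm K s = s := by
  have := sm_mul_ro K s hs
  rwa [h, mul_one] at this

theorem ro_of_Ro {K v : ℕ} (hv : v ≠ 0) (h : sm K v = 1) : ro K v = v := by
  have := sm_mul_ro K v hv
  rwa [h, one_mul] at this

/-- `G_K(y)` -/
noncomputable def G (K y : ℕ) : ℕ := mx (Sm K y)

/-- `F_K(n)` -/
noncomputable def F (K n : ℕ) : ℕ := ∑ v ∈ Ro K n, G K (n / v)

theorem upper (K n : ℕ) : mx (Finset.Icc 1 n) ≤ F K n := by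
  classical
  obtain ⟨A, hA, hA2, hA3⟩ := exists_mx (Finset.Icc 1 n)
  rw [← hA3]
  have hA0 : ∀ a ∈ A, a ≠ 0 ∧ a ≤ n := by
    intro a ha
    have := Finset.mem_Icc.1 (hA ha)
    exact ⟨by omega, this.2⟩
  have hmap : ∀ a ∈ A, ro K a ∈ Ro K n := by
    intro a ha
    obtain ⟨h0, h1⟩ := hA0 a ha
    rw [mem_Ro]
    exact ⟨⟨Nat.pos_of_ne_zero (ro_ne_zero K a h0), (ro_le K a h0).trans h1⟩, sm_ro K a⟩
  rw [Finset.card_eq_sum_card_fiberwise hmap]
  unfold F
  refine Finset.sum_le_sum fun v hv => ?_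
  have hv0 : 0 < v := by
    rw [mem_Ro] at hv; omega
  have hinj : Set.InjOn (sm K) (↑(A.filter fun a => ro K a = v) : Set ℕ) := by
    intro a ha b hb hab
    simp only [Finset.coe_filter, Set.mem_ofPred_eq] at ha hb
    rw [← sm_mul_ro K a (hA0 a ha.1).1, ← sm_mul_ro K b (hA0 b hb.1).1, ha.2, hb.2, hab]
  rw [← Finset.card_image_of_injOn hinj]
  unfold G
  apply card_le_mx
  · intro s hs
    rw [Finset.mem_image] at hs
    obtain ⟨a, ha, rfl⟩ := hs
    rw [Finset.mem_filter] at ha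
    have h0 := hA0 a ha.1
    rw [mem_Sm]
    refine ⟨⟨Nat.pos_of_ne_zero (sm_ne_zero K a h0.1), ?_⟩, ro_sm K a⟩
    rw [Nat.le_div_iff_mul_le hv0, ← ha.2, sm_mul_ro K a h0.1]
    exact h0.2
  · intro x hx y hy z hz hxy hxz hyz hdiv
    rw [Finset.mem_image] at hx hy hz
    obtain ⟨a, ha, rfl⟩ := hx
    obtain ⟨b, hb, rfl⟩ := hy
    obtain ⟨d, hd, rfl⟩ := hz
    rw [Finset.mem_filter] at ha hb hd
    have ea : a = sm K a * v := by
      conv_lhs => rw [← sm_mul_ro K a (hA0 a ha.1).1, ha.2]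
    have eb : b = sm K b * v := by
      conv_lhs => rw [← sm_mul_ro K b (hA0 b hb.1).1, hb.2]
    have ed : d = sm K d * v := by
      conv_lhs => rw [← sm_mul_ro K d (hA0 d hd.1).1, hd.2]
    refine hA2 a ha.1 b hb.1 d hd.1 (fun h => hxy (by rw [h])) (fun h => hxz (by rw [h]))
      (fun h => hyz (by rw [h])) ⟨?_, ?_⟩
    · rw [ea, eb]; exact Nat.mul_dvd_mul_right hdiv.1 v
    · rw [ea, ed]; exact Nat.mul_dvd_mul_right hdiv.2 v

/-- the union of the blocks `v · X(n/v)` -/
noncomputable def blocks (K n : ℕ) (X : ℕ → Finset ℕ) : Finset ℕ :=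
  (Ro K n).biUnion fun v => (X (n / v)).image (· * v)

theorem mem_blocks {K n : ℕ} {X : ℕ → Finset ℕ} {a : ℕ} :
    a ∈ blocks K n X ↔ ∃ v ∈ Ro K n, ∃ s ∈ X (n / v), s * v = a := by
  simp [blocks]

theorem blocks_data {K n : ℕ} {X : ℕ → Finset ℕ} (hX : ∀ y, X y ⊆ Sm K y) {a : ℕ}
    (ha : a ∈ blocks K n X) : a ≠ 0 ∧ a ≤ n ∧ ro K a ∈ Ro K n ∧ sm K a ∈ X (n / ro K a) := by
  rw [mem_blocks] at ha
  obtain ⟨v, hv, s, hs, rfl⟩ := ha
  have hs' := mem_Sm.1 (hX _ hs)
  have hv' := mem_Ro.1 hv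
  have hs0 : s ≠ 0 := by omega
  have hv0 : v ≠ 0 := by omega
  have h1 : ro K (s * v) = v := by
    rw [ro_mul K s v hs0 hv0, hs'.2, ro_of_Ro hv0 hv'.2, one_mul]
  have h2 : sm K (s * v) = s := by
    rw [sm_mul K s v hs0 hv0, hv'.2, sm_of_Sm hs0 hs'.2, mul_one]
  refine ⟨Nat.mul_ne_zero hs0 hv0, ?_, by rw [h1]; exact hv, by rw [h1, h2]; exact hs⟩
  exact (Nat.le_div_iff_mul_le (Nat.pos_of_ne_zero hv0)).1 hs'.1.2

theorem card_blocks {K n : ℕ} {X : ℕ → Finset ℕ} (hX : ∀ y, X y ⊆ Sm K y) :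
    (blocks K n X).card = ∑ v ∈ Ro K n, (X (n / v)).card := by
  classical
  unfold blocks
  rw [Finset.card_biUnion]
  · refine Finset.sum_congr rfl fun v hv => ?_
    have hv' := mem_Ro.1 hv
    apply Finset.card_image_of_injective
    intro a b hab
    exact Nat.eq_of_mul_eq_mul_right (by omega) hab
  · intro v hv w hw hvw
    rw [Function.onFun, Finset.disjoint_left]
    intro x hx hy
    rw [Finset.mem_image] at hx hy
    obtain ⟨s, hs, rfl⟩ := hx
    obtain ⟨t, ht, hst⟩ := hy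
    have hv' := mem_Ro.1 hv
    have hw' := mem_Ro.1 hw
    have hs' := mem_Sm.1 (hX _ hs)
    have ht' := mem_Sm.1 (hX _ ht)
    have h1 : ro K (s * v) = v := by
      rw [ro_mul K s v (by omega) (by omega), hs'.2, ro_of_Ro (by omega) hv'.2, one_mul]
    have h2 : ro K (t * w) = w := by
      rw [ro_mul K t w (by omega) (by omega), ht'.2, ro_of_Ro (by omega) hw'.2, one_mul]
    apply hvw
    rw [← h1, ← h2, ← hst]

theorem lower (K W n : ℕ) (hW : ∀ k, k ≠ 0 → k < W → ro K k = 1) (X : ℕ → Finset ℕ)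
    (hX : ∀ y, X y ⊆ Sm K y) (hA : ∀ y, Adm (X y)) (hw : ∀ y, ∀ s ∈ X y, y < W * s) :
    ∑ v ∈ Ro K n, (X (n / v)).card ≤ mx (Finset.Icc 1 n) := by
  rw [← card_blocks hX]
  apply card_le_mx
  · intro a ha
    have := blocks_data hX ha
    rw [Finset.mem_Icc]
    omega
  · intro a ha b hb d hd hab had hbd hdiv
    obtain ⟨a0, a1, a2, a3⟩ := blocks_data hX ha
    obtain ⟨b0, b1, b2, b3⟩ := blocks_data hX hb
    obtain ⟨d0, d1, d2, d3⟩ := blocks_data hX hd
    -- `n < W * a`
    have hnW : n < W * a := by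
      have h1 := hw _ _ a3
      rw [Nat.div_lt_iff_lt_mul (Nat.pos_of_ne_zero (ro_ne_zero K a a0))] at h1
      rwa [mul_assoc, sm_mul_ro K a a0] at h1
    have key : ∀ c, c ≠ 0 → c ≤ n → a ∣ c → ro K c = ro K a ∧ sm K a ∣ sm K c := by
      rintro c c0 c1 ⟨k, rfl⟩
      have hk0 : k ≠ 0 := by rintro rfl; simp at c0
      have hkW : k < W := by
        by_contra hcon
        push Not at hcon
        have : W * a ≤ k * a := Nat.mul_le_mul_right _ hcon
        rw [mul_comm k a] at this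
        omega
      rw [ro_mul K a k a0 hk0, sm_mul K a k a0 hk0, hW k hk0 hkW, mul_one]
      exact ⟨rfl, Dvd.intro _ rfl⟩
    obtain ⟨e1, e2⟩ := key b b0 b1 hdiv.1
    obtain ⟨e3, e4⟩ := key d d0 d1 hdiv.2
    rw [e1] at b3
    rw [e3] at d3
    refine hA _ _ a3 _ b3 _ d3 (fun h => hab ?_) (fun h => had ?_) (fun h => hbd ?_) ⟨e2, e4⟩
    · rw [← sm_mul_ro K a a0, ← sm_mul_ro K b b0, h, e1]
    · rw [← sm_mul_ro K a a0, ← sm_mul_ro K d d0, h, e3]
    · rw [← sm_mul_ro K b b0, ← sm_mul_ro K d d0, h, e1, e3]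

/-- `f(n) ≥ F_K(n) - n/K` -/
theorem lower_limit (K n : ℕ) (hK : 1 ≤ K) : F K n ≤ mx (Finset.Icc 1 n) + n / K := by
  classical
  choose O hO1 hO2 hO3 using fun y => exists_mx (Sm K y)
  let X : ℕ → Finset ℕ := fun y => (O y).filter fun s => y < K * s
  let Z : ℕ → Finset ℕ := fun y => (Sm K y).filter fun s => ¬ y < K * s
  have hX : ∀ y, X y ⊆ Sm K y := fun y => (Finset.filter_subset _ _).trans (hO1 y)
  have hZ : ∀ y, Z y ⊆ Sm K y := fun y => Finset.filter_subset _ _
  have h1 := lower K K n (fun k _ hk => ro_eq_one_of_lt K k hk) X hX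
    (fun y => (hO2 y).mono (Finset.filter_subset _ _))
    (fun y s hs => (Finset.mem_filter.1 hs).2)
  have h2 : ∑ v ∈ Ro K n, (Z (n / v)).card ≤ n / K := by
    rw [← card_blocks hZ]
    have : blocks K n Z ⊆ Finset.Icc 1 (n / K) := by
      intro a ha
      obtain ⟨a0, a1, a2, a3⟩ := blocks_data hZ ha
      rw [Finset.mem_Icc]
      refine ⟨Nat.pos_of_ne_zero a0, ?_⟩
      rw [Nat.le_div_iff_mul_le (by omega)]
      have h3 := (Finset.mem_filter.1 a3).2
      push Not at h3
      rw [Nat.le_div_iff_mul_le (Nat.pos_of_ne_zero (ro_ne_zero K a a0)), mul_assoc,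
        sm_mul_ro K a a0] at h3
      rwa [mul_comm]
    calc _ ≤ (Finset.Icc 1 (n / K)).card := Finset.card_le_card this
      _ = n / K := by simp
  have h3 : F K n ≤ ∑ v ∈ Ro K n, (X (n / v)).card + ∑ v ∈ Ro K n, (Z (n / v)).card := by
    rw [← Finset.sum_add_distrib]
    unfold F G
    refine Finset.sum_le_sum fun v _ => ?_
    rw [← hO3 (n / v), ← Finset.card_filter_add_card_filter_not (s := O (n / v)) (fun s => (n / v) < K * s)]
    refine Nat.add_le_add_left (Finset.card_le_card ?_) _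
    exact Finset.filter_subset_filter _ (hO1 _)
  omega


/-! ### density of rough numbers -/

/-- product of the primes below `K` -/
def Q (K : ℕ) : ℕ := ∏ p ∈ K.primesBelow, p

theorem Q_pos (K : ℕ) : 0 < Q K := by
  unfold Q
  exact Finset.prod_pos fun p hp => (Nat.prime_of_mem_primesBelow hp).pos

theorem sm_eq_one_iff (K v : ℕ) (hv : v ≠ 0) : sm K v = 1 ↔ (Q K).Coprime v := by
  constructor
  · intro h
    unfold Q
    apply Nat.Coprime.prod_left
    intro p hp
    have hp' := Nat.prime_of_mem_primesBelow hp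
    have hlt := Nat.lt_of_mem_primesBelow hp
    rw [hp'.coprime_iff_not_dvd]
    intro hdvd
    have h1 : (sm K v).factorization p = v.factorization p := by
      rw [fact_sm, Finsupp.filter_apply, if_pos hlt]
    rw [h] at h1
    simp only [Nat.factorization_one, Finsupp.coe_zero, Pi.zero_apply] at h1
    have := (hp'.dvd_iff_one_le_factorization hv).1 hdvd
    omega
  · intro h
    unfold sm
    have : v.factorization.filter (· < K) = 0 := by
      rw [Finsupp.filter_eq_zero_iff]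
      intro p hp
      by_contra hne
      have hmem : p ∈ v.primeFactors := by
        rw [← Nat.support_factorization]; exact Finsupp.mem_support_iff.2 hne
      have hpp := Nat.prime_of_mem_primeFactors hmem
      have hdvd := Nat.dvd_of_mem_primeFactors hmem
      have hQ : p ∣ Q K := Finset.dvd_prod_of_mem _ (Nat.mem_primesBelow.2 ⟨hp, hpp⟩)
      have := Nat.dvd_gcd hQ hdvd
      rw [Nat.Coprime] at h
      rw [h] at this
      exact hpp.one_lt.ne' (Nat.dvd_one.1 this)
    rw [this]; simp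

theorem Ro_card_bounds (K m : ℕ) :
    (Q K).totient * (m / Q K) ≤ (Ro K m).card ∧ (Ro K m).card ≤ (Q K).totient * (m / Q K) + Q K := by
  have hQ := Q_pos K
  have hRo : Ro K m = (Finset.Ico 1 (1 + m)).filter fun x => (Q K).Coprime x := by
    ext x
    rw [mem_Ro, Finset.mem_filter, Finset.mem_Ico]
    constructor
    · rintro ⟨h1, h2⟩
      exact ⟨by omega, (sm_eq_one_iff K x (by omega)).1 h2⟩
    · rintro ⟨h1, h2⟩
      exact ⟨by omega, (sm_eq_one_iff K x (by omega)).2 h2⟩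
  have key : ∀ q : ℕ, ((Finset.Ico 1 (1 + Q K * q)).filter fun x => (Q K).Coprime x).card
      = (Q K).totient * q := by
    intro q
    induction q with
    | zero => simp
    | succ q ih =>
      have h1 : Finset.Ico 1 (1 + Q K * (q + 1)) = Finset.Ico 1 (1 + Q K * q) ∪
          Finset.Ico (1 + Q K * q) (1 + Q K * q + Q K) := by
        rw [Finset.Ico_union_Ico_eq_Ico (by omega) (by omega)]
        congr 1
        ring
      rw [h1, Finset.filter_union, Finset.card_union_of_disjoint, ih, Nat.filter_coprime_Ico_eq_totient]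
      · ring
      · apply Finset.disjoint_filter_filter
        exact Finset.Ico_disjoint_Ico_consecutive _ _ _
  have h1 := Nat.div_add_mod m (Q K)
  have h2 := Nat.mod_lt m hQ
  rw [hRo]
  constructor
  · rw [← key (m / Q K)]
    apply Finset.card_le_card
    apply Finset.filter_subset_filter
    apply Finset.Ico_subset_Ico_right
    omega
  · have h3 : Finset.Ico 1 (1 + m) ⊆ Finset.Ico 1 (1 + Q K * (m / Q K)) ∪
        Finset.Ico (1 + Q K * (m / Q K)) (1 + Q K * (m / Q K) + Q K) := by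
      rw [Finset.Ico_union_Ico_eq_Ico (by omega) (by omega)]
      apply Finset.Ico_subset_Ico_right
      omega
    calc _ ≤ ((Finset.Ico 1 (1 + Q K * (m / Q K)) ∪
        Finset.Ico (1 + Q K * (m / Q K)) (1 + Q K * (m / Q K) + Q K)).filter fun x => (Q K).Coprime x).card :=
          Finset.card_le_card (Finset.filter_subset_filter _ h3)
      _ ≤ _ := by
        rw [Finset.filter_union]
        refine (Finset.card_union_le _ _).trans ?_
        rw [key]
        refine Nat.add_le_add_left ?_ _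
        refine (Finset.card_filter_le _ _).trans ?_
        simp

/-- the density `φ(Q)/Q` -/
noncomputable def dens (K : ℕ) : ℝ := ((Q K).totient : ℝ) / (Q K : ℝ)

open Filter Topology

theorem Ro_tendsto (K : ℕ) : Tendsto (fun m : ℕ => ((Ro K m).card : ℝ) / m) atTop (𝓝 (dens K)) := by
  have hQ := Q_pos K
  have hQR : (0 : ℝ) < Q K := by exact_mod_cast hQ
  have htot : ((Q K).totient : ℝ) ≤ Q K := by exact_mod_cast Nat.totient_le _
  have hb : ∀ m : ℕ, 1 ≤ m → |((Ro K m).card : ℝ) / m - dens K| ≤ (Q K : ℝ) / m := by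
    intro m hm
    have hmR : (0 : ℝ) < m := by exact_mod_cast hm
    obtain ⟨h1, h2⟩ := Ro_card_bounds K m
    have h3 := Nat.div_add_mod m (Q K)
    have h4 := Nat.mod_lt m hQ
    have h1' : ((Q K).totient : ℝ) * ((m / Q K : ℕ) : ℝ) ≤ ((Ro K m).card : ℝ) := by exact_mod_cast h1
    have h2' : ((Ro K m).card : ℝ) ≤ ((Q K).totient : ℝ) * ((m / Q K : ℕ) : ℝ) + Q K := by exact_mod_cast h2
    have h3' : (Q K : ℝ) * ((m / Q K : ℕ) : ℝ) + ((m % Q K : ℕ) : ℝ) = m := by exact_mod_cast h3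
    have h4' : ((m % Q K : ℕ) : ℝ) < Q K := by exact_mod_cast h4
    have h5 : (0 : ℝ) ≤ ((m % Q K : ℕ) : ℝ) := by positivity
    have htot0 : (0 : ℝ) ≤ (Q K).totient := by positivity
    have e1 : ((Ro K m).card : ℝ) / m - dens K
        = (((Ro K m).card : ℝ) - dens K * m) / m := by
      field_simp
    rw [e1, abs_div, abs_of_pos hmR]
    apply div_le_div_of_nonneg_right _ hmR.le
    have e2 : dens K * m = ((Q K).totient : ℝ) * ((m / Q K : ℕ) : ℝ) + dens K * ((m % Q K : ℕ) : ℝ) := by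
      rw [← h3']
      unfold dens
      field_simp
    have e3 : 0 ≤ dens K := by unfold dens; positivity
    have e4 : dens K ≤ 1 := by
      unfold dens
      rw [div_le_one hQR]; exact htot
    have e5 : dens K * ((m % Q K : ℕ) : ℝ) ≤ Q K := by nlinarith
    have e6 : 0 ≤ dens K * ((m % Q K : ℕ) : ℝ) := by positivity
    rw [e2, abs_le]
    constructor <;> linarith
  rw [tendsto_iff_norm_sub_tendsto_zero]
  refine squeeze_zero' (Eventually.of_forall fun m => norm_nonneg _)
    (g := fun m : ℕ => (Q K : ℝ) / m) ?_ ?_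
  · filter_upwards [eventually_ge_atTop 1] with m hm
    rw [Real.norm_eq_abs]
    exact hb m hm
  · exact tendsto_const_div_atTop_nhds_zero_nat _


/-! ### the limit of `F_K(n)/n` -/

theorem mx_empty : mx ∅ = 0 := by
  obtain ⟨A, hA, -, hA3⟩ := exists_mx ∅
  rw [← hA3, Finset.subset_empty.1 hA, Finset.card_empty]

theorem G_zero (K : ℕ) : G K 0 = 0 := by
  unfold G
  have : Sm K 0 = ∅ := by
    ext x; rw [mem_Sm]; simp; omega
  rw [this, mx_empty]

/-- increments of `G_K` -/
noncomputable def inc (K s : ℕ) : ℕ := G K s - G K (s - 1)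

theorem G_succ_bounds (K y : ℕ) : G K y ≤ G K (y + 1) ∧ G K (y + 1) ≤ G K y + 1 := by
  constructor
  · apply mx_mono
    intro x hx
    rw [mem_Sm] at hx ⊢
    exact ⟨⟨hx.1.1, by omega⟩, hx.2⟩
  · have h : Sm K (y + 1) ⊆ insert (y + 1) (Sm K y) := by
      intro x hx
      rw [mem_Sm] at hx
      rw [Finset.mem_insert, mem_Sm]
      rcases Nat.eq_or_lt_of_le hx.1.2 with h | h
      · exact Or.inl h
      · exact Or.inr ⟨⟨hx.1.1, by omega⟩, hx.2⟩
    exact (mx_mono h).trans (mx_insert_le _ _)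

theorem inc_le_one (K s : ℕ) : inc K s ≤ 1 := by
  unfold inc
  cases s with
  | zero => simp
  | succ s =>
    have := G_succ_bounds K s
    simp only [Nat.add_sub_cancel]
    omega

theorem inc_eq_zero (K s : ℕ) (h : s = 0 ∨ ro K s ≠ 1) : inc K s = 0 := by
  unfold inc
  rcases Nat.eq_zero_or_pos s with rfl | hs
  · simp
  have h' : ro K s ≠ 1 := h.resolve_left (by omega)
  obtain ⟨t, rfl⟩ : ∃ t, s = t + 1 := ⟨s - 1, by omega⟩
  have : Sm K (t + 1) = Sm K t := by
    ext x
    rw [mem_Sm, mem_Sm]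
    constructor
    · rintro ⟨⟨h1, h2⟩, h3⟩
      refine ⟨⟨h1, ?_⟩, h3⟩
      by_contra hcon
      have : x = t + 1 := by omega
      exact h' (this ▸ h3)
    · rintro ⟨⟨h1, h2⟩, h3⟩
      exact ⟨⟨h1, by omega⟩, h3⟩
  simp [G, this]

theorem G_eq_sum (K y : ℕ) : G K y = ∑ s ∈ Finset.Icc 1 y, inc K s := by
  induction y with
  | zero => simp [G_zero]
  | succ y ih =>
    rw [Finset.sum_Icc_succ_top (by omega), ← ih]
    have := G_succ_bounds K y
    simp only [inc, Nat.add_sub_cancel]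
    omega

theorem F_eq_sum (K n : ℕ) : F K n = ∑ s ∈ Finset.Icc 1 n, inc K s * (Ro K (n / s)).card := by
  unfold F
  simp_rw [G_eq_sum]
  rw [Finset.sum_comm' (t' := Finset.Icc 1 n) (s' := fun s => Ro K (n / s))]
  · refine Finset.sum_congr rfl fun s _ => ?_
    rw [Finset.sum_const, smul_eq_mul, mul_comm]
  · intro v s
    rw [mem_Ro, mem_Ro, Finset.mem_Icc, Finset.mem_Icc]
    constructor
    · rintro ⟨⟨⟨h1, h2⟩, h3⟩, h4, h5⟩
      rw [Nat.le_div_iff_mul_le (by omega)] at h5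
      refine ⟨⟨⟨h1, ?_⟩, h3⟩, h4, ?_⟩
      · rw [Nat.le_div_iff_mul_le (by omega), mul_comm]; exact h5
      · exact le_trans (Nat.le_mul_of_pos_right _ (by omega)) h5
    · rintro ⟨⟨⟨h1, h2⟩, h3⟩, h4, h5⟩
      rw [Nat.le_div_iff_mul_le (by omega)] at h2
      refine ⟨⟨⟨h1, ?_⟩, h3⟩, h4, ?_⟩
      · exact le_trans (Nat.le_mul_of_pos_right _ (by omega)) h2
      · rw [Nat.le_div_iff_mul_le (by omega), mul_comm]; exact h2

theorem smooth_of_ro (K s : ℕ) (hs : s ≠ 0) (h : ro K s = 1) : s ∈ K.smoothNumbers := by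
  rw [Nat.mem_smoothNumbers']
  intro p hp hdvd
  by_contra hcon
  have h1 : (ro K s).factorization p = s.factorization p := by
    rw [fact_ro, Finsupp.filter_apply, if_pos hcon]
  rw [h] at h1
  simp only [Nat.factorization_one, Finsupp.coe_zero, Pi.zero_apply] at h1
  have := (hp.dvd_iff_one_le_factorization hs).1 hdvd
  omega

theorem summable_bound (K : ℕ) :
    Summable (fun s : ℕ => (K.smoothNumbers).indicator (fun m : ℕ => ((m : ℝ))⁻¹) s) := by
  let f : ℕ →* ℝ := ((Nat.castRingHom ℝ : ℕ →+* ℝ).toMonoidHom : ℕ →* ℝ).comp (MonoidHom.id ℕ)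
  let g : ℕ →* ℝ :=
    { toFun := fun m => ((m : ℝ))⁻¹
      map_one' := by simp
      map_mul' := by intro a b; push_cast; rw [mul_inv] }
  have h := (EulerProduct.summable_and_hasSum_smoothNumbers_prod_primesBelow_geometric (f := g)
    (fun {p} hp => by
      change ‖((p : ℝ))⁻¹‖ < 1
      rw [Real.norm_eq_abs, abs_of_nonneg (by positivity)]
      exact inv_lt_one_of_one_lt₀ (by exact_mod_cast hp.one_lt)) K).1
  have h2 : Summable ((fun m : ℕ => ((m : ℝ))⁻¹) ∘ ((↑) : K.smoothNumbers → ℕ)) := by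
    refine h.congr fun m => ?_
    change ‖((m : ℝ))⁻¹‖ = _
    rw [Real.norm_eq_abs, abs_of_nonneg (by positivity)]
    rfl
  exact summable_subtype_iff_indicator.1 h2

/-- `λ_K` -/
noncomputable def lam (K : ℕ) : ℝ := dens K * ∑' s : ℕ, (inc K s : ℝ) / s

theorem div_tendsto (s : ℕ) (hs : s ≠ 0) :
    Tendsto (fun n : ℕ => ((n / s : ℕ) : ℝ) / n) atTop (𝓝 ((s : ℝ))⁻¹) := by
  have hsR : (0 : ℝ) < s := by exact_mod_cast Nat.pos_of_ne_zero hs
  have h1 : Tendsto (fun n : ℕ => ((s : ℝ))⁻¹ - 1 / (n : ℝ)) atTop (𝓝 ((s : ℝ))⁻¹) := by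
    have := tendsto_one_div_atTop_nhds_zero_nat (𝕜 := ℝ)
    simpa using (tendsto_const_nhds (x := ((s : ℝ))⁻¹)).sub this
  refine tendsto_of_tendsto_of_tendsto_of_le_of_le' h1 tendsto_const_nhds ?_ ?_
  · filter_upwards [eventually_ge_atTop 1] with n hn
    have hnR : (0 : ℝ) < n := by exact_mod_cast hn
    have h2 : (n : ℝ) < s * (((n / s : ℕ) : ℝ) + 1) := by
      exact_mod_cast Nat.lt_mul_div_succ n (Nat.pos_of_ne_zero hs)
    rw [le_div_iff₀ hnR, sub_mul, div_mul_cancel₀ _ hnR.ne']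
    have : ((s : ℝ))⁻¹ * n < ((n / s : ℕ) : ℝ) + 1 := by
      rw [inv_mul_lt_iff₀ hsR]; exact h2
    linarith
  · filter_upwards [eventually_ge_atTop 1] with n hn
    have hnR : (0 : ℝ) < n := by exact_mod_cast hn
    rw [div_le_iff₀ hnR]
    have : ((n / s : ℕ) : ℝ) ≤ (n : ℝ) / s := Nat.cast_div_le
    rw [div_eq_inv_mul] at this
    exact this

theorem Ro_div_tendsto (K s : ℕ) (hs : s ≠ 0) :
    Tendsto (fun n : ℕ => ((Ro K (n / s)).card : ℝ) / n) atTop (𝓝 (dens K * ((s : ℝ))⁻¹)) := by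
  have h0 : Tendsto (fun n : ℕ => n / s) atTop atTop := Nat.tendsto_div_const_atTop hs
  have h1 := (Ro_tendsto K).comp h0
  have h2 := h1.mul (div_tendsto s hs)
  refine h2.congr' ?_
  filter_upwards [eventually_ge_atTop s] with n hn
  have : (0 : ℝ) < ((n / s : ℕ) : ℝ) := by
    exact_mod_cast Nat.div_pos hn (Nat.pos_of_ne_zero hs)
  simp only [Function.comp]
  field_simp

theorem Ro_card_le (K m : ℕ) : (Ro K m).card ≤ m := by
  unfold Ro
  refine (Finset.card_filter_le _ _).trans ?_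
  simp

theorem F_tendsto (K : ℕ) : Tendsto (fun n : ℕ => (F K n : ℝ) / n) atTop (𝓝 (lam K)) := by
  have h := tendsto_tsum_of_dominated_convergence (𝓕 := atTop)
    (f := fun (n s : ℕ) => (inc K s : ℝ) * (((Ro K (n / s)).card : ℝ) / n))
    (g := fun s : ℕ => (inc K s : ℝ) * (dens K * ((s : ℝ))⁻¹)) (summable_bound K) ?_ ?_
  · have e1 : ∑' s : ℕ, (inc K s : ℝ) * (dens K * ((s : ℝ))⁻¹) = lam K := by
      unfold lam
      rw [← tsum_mul_left]
      refine tsum_congr fun s => ?_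
      rw [div_eq_mul_inv]; ring
    rw [e1] at h
    refine h.congr fun n => ?_
    rw [F_eq_sum]
    push_cast
    rw [Finset.sum_div, tsum_eq_sum (s := Finset.Icc 1 n)]
    · refine Finset.sum_congr rfl fun s _ => ?_
      rw [mul_div_assoc]
    · intro s hs
      rw [Finset.mem_Icc] at hs
      rcases Nat.eq_zero_or_pos s with rfl | hs0
      · rw [inc_eq_zero K 0 (Or.inl rfl)]; simp
      · have : n / s = 0 := Nat.div_eq_of_lt (by omega)
        rw [this]
        have : (Ro K 0).card = 0 := Nat.le_zero.1 (Ro_card_le K 0)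
        rw [this]; simp
  · intro s
    rcases eq_or_ne s 0 with rfl | hs
    · rw [inc_eq_zero K 0 (Or.inl rfl)]; simp
    · exact (Ro_div_tendsto K s hs).const_mul _
  · filter_upwards [eventually_ge_atTop 1] with n hn s
    have hnR : (0 : ℝ) < n := by exact_mod_cast hn
    rw [Real.norm_eq_abs, abs_of_nonneg (by positivity)]
    by_cases hs : s ≠ 0 ∧ ro K s = 1
    · rw [Set.indicator_of_mem (smooth_of_ro K s hs.1 hs.2)]
      have h1 : (inc K s : ℝ) ≤ 1 := by exact_mod_cast inc_le_one K s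
      have h2 : ((Ro K (n / s)).card : ℝ) ≤ ((n / s : ℕ) : ℝ) := by exact_mod_cast Ro_card_le K _
      have h3 : ((n / s : ℕ) : ℝ) ≤ (n : ℝ) / s := Nat.cast_div_le
      have h4 : ((Ro K (n / s)).card : ℝ) / n ≤ ((s : ℝ))⁻¹ := by
        rw [div_le_iff₀ hnR, ← div_eq_inv_mul]
        linarith
      calc (inc K s : ℝ) * (((Ro K (n / s)).card : ℝ) / n) ≤ 1 * ((s : ℝ))⁻¹ :=
            mul_le_mul h1 h4 (by positivity) (by norm_num)
        _ = _ := by rw [one_mul]
    · rw [inc_eq_zero K s (by tauto)]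
      simp only [Nat.cast_zero, zero_mul]
      apply Set.indicator_nonneg
      intro m _
      positivity

/-! ### existence of the limit -/

theorem exists_limit : ∃ c : ℝ, Tendsto (fun n : ℕ => (mx (Finset.Icc 1 n) : ℝ) / n) atTop (𝓝 c) ∧
    ∀ K : ℕ, 1 ≤ K → c ≤ lam K ∧ lam K ≤ c + 1 / K := by
  have hup : ∀ K n : ℕ, (mx (Finset.Icc 1 n) : ℝ) / n ≤ (F K n : ℝ) / n := by
    intro K n
    apply div_le_div_of_nonneg_right _ (by positivity)
    exact_mod_cast upper K n
  have hlo : ∀ K n : ℕ, 1 ≤ K → 1 ≤ n → (F K n : ℝ) / n ≤ (mx (Finset.Icc 1 n) : ℝ) / n + 1 / K := by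
    intro K n hK hn
    have hnR : (0 : ℝ) < n := by exact_mod_cast hn
    have hKR : (0 : ℝ) < K := by exact_mod_cast hK
    have h1 : (F K n : ℝ) ≤ (mx (Finset.Icc 1 n) : ℝ) + ((n / K : ℕ) : ℝ) := by
      exact_mod_cast lower_limit K n hK
    have h2 : ((n / K : ℕ) : ℝ) ≤ (n : ℝ) / K := Nat.cast_div_le
    rw [div_le_iff₀ hnR, add_mul, div_mul_cancel₀ _ hnR.ne']
    have : 1 / (K : ℝ) * n = n / K := by field_simp
    rw [this]
    linarith
  have hc : CauchySeq (fun n : ℕ => (mx (Finset.Icc 1 n) : ℝ) / n) := by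
    rw [Metric.cauchySeq_iff']
    intro ε hε
    obtain ⟨K, hK⟩ := exists_nat_gt (4 / ε)
    have hK0 : (0 : ℝ) < K := lt_trans (by positivity) hK
    have hK1 : 1 ≤ K := by
      have : 0 < K := by exact_mod_cast hK0
      omega
    have hKε : 1 / (K : ℝ) < ε / 4 := by
      rw [div_lt_iff₀ hK0]
      rw [div_lt_iff₀ hε] at hK
      linarith
    have h1 := (Metric.tendsto_atTop.1 (F_tendsto K)) (ε / 8) (by positivity)
    obtain ⟨N, hN⟩ := h1
    refine ⟨N + 1, fun n hn => ?_⟩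
    have a1 := hN n (by omega)
    have a2 := hN (N + 1) (by omega)
    rw [Real.dist_eq, abs_lt] at a1 a2 ⊢
    have b1 := hup K n
    have b2 := hlo K n hK1 (by omega)
    have b3 := hup K (N + 1)
    have b4 := hlo K (N + 1) hK1 (by omega)
    constructor <;> linarith [a1.1, a1.2, a2.1, a2.2]
  obtain ⟨c, hc⟩ := cauchySeq_tendsto_of_complete hc
  refine ⟨c, hc, fun K hK => ⟨?_, ?_⟩⟩
  · exact le_of_tendsto_of_tendsto' hc (F_tendsto K) (hup K)
  · refine le_of_tendsto_of_tendsto (F_tendsto K) (hc.add_const (1 / (K : ℝ))) ?_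
    filter_upwards [eventually_ge_atTop 1] with n hn
    exact hlo K n hK hn



end Pool.Agent.Helper88.Div
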