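import Pool.Agent.Helper88.DivTwo

set_option autoImplicit false

namespace Pool.Agent.Helper88.Div

open Finset

/-! ### a branch and bound certificate for three primes, `y < 320` -/

/-- the `5`-smooth numbers up to `319` -/
def S6 : List ℕ := [
  1, 2, 3, 4, 5, 6, 8, 9, 10, 12, 15, 16, 18, 20, 24, 25, 27, 30, 32, 36, 40, 45, 48, 50, 54, 60,
  64, 72, 75, 80, 81, 90, 96, 100, 108, 120, 125, 128, 135, 144, 150, 160, 162, 180, 192, 200,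
  216, 225, 240, 243, 250, 256, 270, 288, 300]

theorem S6_complete : ((List.range 320).all fun s => decide (s = 0) || !(decide (30 ^ 9 % s = 0)) ||
    S6.contains s) = true := by decide +kernel

theorem S6_nodup : S6.Nodup := by decide +kernel

/-- row `(w, a, r, m, Q)`: weight `w` for the inequality
`(r - 1) [a ∈ A] + #{s ∈ A : a ∣ s, s / a ∈ Q} ≤ r` -/
abbrev Row := ℕ × ℕ × ℕ × ℕ × List ℕ

def rowOk (R : Row) : Bool :=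
  decide (1 ≤ R.2.1) && decide (1 ≤ R.2.2.1) && (R.2.2.2.2.all fun q => decide (2 ≤ q)) &&
  (decide (R.2.2.2.2.length ≤ R.2.2.1) ||
    (decide (R.2.2.2.1 < 512) && decide (g6 R.2.2.2.1 ≤ R.2.2.1) &&
      (R.2.2.2.2.all fun q => decide (q ≤ R.2.2.2.1) && decide (30 ^ 9 % q = 0))))

def coef (R : Row) (s : ℕ) : ℕ :=
  (if s = R.2.1 then R.2.2.1 - 1 else 0) +
    (if (decide (s % R.2.1 = 0) && R.2.2.2.2.contains (s / R.2.1)) = true then 1 else 0)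

inductive Cert
  | leaf (rows : List Row)
  | node (s : ℕ) (l r : Cert)

def csum (rows : List Row) (s : ℕ) : ℕ := (rows.map fun R => R.1 * coef R s).sum
def bsum (rows : List Row) : ℕ := (rows.map fun R => R.1 * R.2.2.1).sum

def contrib (fx : List (ℕ × Bool)) (rows : List Row) (s : ℕ) : ℤ :=
  if fx.contains (s, false) then 0
  else if fx.contains (s, true) then 5040 - (csum rows s : ℤ)
  else max 0 (5040 - (csum rows s : ℤ))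

def chkCert (N : ℕ) (fx : List (ℕ × Bool)) : Cert → Bool
  | Cert.leaf rows => rows.all rowOk &&
      decide ((bsum rows : ℤ) + (S6.map (contrib fx rows)).sum < 5040 * (N : ℤ))
  | Cert.node s l r => chkCert N ((s, true) :: fx) l && chkCert N ((s, false) :: fx) r

theorem row_sound {A : Finset ℕ} (hA : Adm A) (hpos : ∀ s ∈ A, 0 < s) (R : Row) (hR : rowOk R = true) :
    ∑ s ∈ A, coef R s ≤ R.2.2.1 := by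
  classical
  obtain ⟨w, a, r, m, Q⟩ := R
  simp only [rowOk, Bool.and_eq_true, decide_eq_true_eq, List.all_eq_true, Bool.or_eq_true] at hR
  obtain ⟨⟨⟨ha, hr⟩, hQ2⟩, hQ⟩ := hR
  simp only [coef]
  rw [Finset.sum_add_distrib, Finset.sum_ite_eq' A a, ← Finset.card_filter]
  set T := A.filter (fun s => (decide (s % a = 0) && Q.contains (s / a)) = true) with hT
  have hTmem : ∀ s, s ∈ T ↔ s ∈ A ∧ a ∣ s ∧ s / a ∈ Q := by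
    intro s
    rw [hT, Finset.mem_filter]
    simp only [Bool.and_eq_true, decide_eq_true_eq, List.contains_eq_mem, Nat.dvd_iff_mod_eq_zero]
  by_cases haA : a ∈ A
  · rw [if_pos haA]
    have h1 : T.card ≤ 1 := by
      by_contra hcon
      push Not at hcon
      obtain ⟨b, d, hb, hd, hbd⟩ := Finset.one_lt_card_iff.1 hcon
      rw [hTmem] at hb hd
      have hne : ∀ s, a ∣ s → s / a ∈ Q → a ≠ s := by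
        intro s _ hs2 hcon2
        subst hcon2
        have := hQ2 _ hs2
        rw [Nat.div_self (by omega)] at this
        omega
      exact hA a haA b hb.1 d hd.1 (hne b hb.2.1 hb.2.2) (hne d hd.2.1 hd.2.2) hbd ⟨hb.2.1, hd.2.1⟩
    omega
  · rw [if_neg haA, zero_add]
    have hinj : Set.InjOn (fun s => s / a) (T : Set ℕ) := by
      intro s hs t ht hst
      rw [Finset.mem_coe, hTmem] at hs ht
      simp only at hst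
      rw [← Nat.mul_div_cancel' hs.2.1, ← Nat.mul_div_cancel' ht.2.1, hst]
    rw [← Finset.card_image_of_injOn hinj]
    rcases hQ with hQ | ⟨⟨hm, hg⟩, hQm⟩
    · refine le_trans ?_ hQ
      refine le_trans (Finset.card_le_card (t := Q.toFinset) ?_) (List.toFinset_card_le Q)
      intro q hq
      rw [Finset.mem_image] at hq
      obtain ⟨s, hs, rfl⟩ := hq
      rw [hTmem] at hs
      exact List.mem_toFinset.2 hs.2.2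
    · refine le_trans ?_ ((mx_le_g6 m hm).trans hg)
      apply card_le_mx
      · intro q hq
        rw [Finset.mem_image] at hq
        obtain ⟨s, hs, rfl⟩ := hq
        rw [hTmem] at hs
        have h1 := hQ2 _ hs.2.2
        have h2 := hQm _ hs.2.2
        rw [mem_Sm]
        exact ⟨⟨by omega, h2.1⟩, ro_six_of_dvd (k := 9) (Nat.dvd_of_mod_eq_zero h2.2)⟩
      · intro x hx y hy z hz hxy hxz hyz hdiv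
        rw [Finset.mem_image] at hx hy hz
        obtain ⟨s, hs, rfl⟩ := hx
        obtain ⟨t, ht, rfl⟩ := hy
        obtain ⟨u, hu, rfl⟩ := hz
        rw [hTmem] at hs ht hu
        refine hA s hs.1 t ht.1 u hu.1 (fun h => hxy (by rw [h])) (fun h => hxz (by rw [h]))
          (fun h => hyz (by rw [h])) ⟨?_, ?_⟩
        · rw [← Nat.mul_div_cancel' hs.2.1, ← Nat.mul_div_cancel' ht.2.1]
          exact Nat.mul_dvd_mul_left _ hdiv.1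
        · rw [← Nat.mul_div_cancel' hs.2.1, ← Nat.mul_div_cancel' hu.2.1]
          exact Nat.mul_dvd_mul_left _ hdiv.2

theorem csum_sound {A : Finset ℕ} (hA : Adm A) (hpos : ∀ s ∈ A, 0 < s) (rows : List Row)
    (h : ∀ R ∈ rows, rowOk R = true) : ∑ s ∈ A, csum rows s ≤ bsum rows := by
  induction rows with
  | nil => simp [csum, bsum]
  | cons R rows ih =>
    have h1 := ih (fun R' hR' => h R' (List.mem_cons_of_mem _ hR'))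
    have h2 := row_sound hA hpos R (h R List.mem_cons_self)
    simp only [csum, bsum, List.map_cons, List.sum_cons] at h1 ⊢
    rw [Finset.sum_add_distrib, ← Finset.mul_sum]
    exact Nat.add_le_add (Nat.mul_le_mul_left _ h2) h1

theorem cert_sound (N : ℕ) (c : Cert) : ∀ fx : List (ℕ × Bool), chkCert N fx c = true →
    ∀ A : Finset ℕ, Adm A → (∀ s ∈ A, 0 < s) → A ⊆ S6.toFinset →
      (∀ s b, (s, b) ∈ fx → (s ∈ A ↔ b = true)) → A.card < N := by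
  classical
  induction c with
  | leaf rows =>
    intro fx hc A hA hpos hsub hfx
    simp only [chkCert, Bool.and_eq_true, decide_eq_true_eq, List.all_eq_true] at hc
    obtain ⟨hrows, hlt⟩ := hc
    have h1 := csum_sound hA hpos rows hrows
    have h1' : (∑ s ∈ A, (csum rows s : ℤ)) ≤ (bsum rows : ℤ) := by exact_mod_cast h1
    have h2 : ∑ s ∈ A, ((5040 : ℤ) - (csum rows s : ℤ)) ≤ ∑ s ∈ S6.toFinset, contrib fx rows s := by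
      calc ∑ s ∈ A, ((5040 : ℤ) - (csum rows s : ℤ)) ≤ ∑ s ∈ A, contrib fx rows s := by
            refine Finset.sum_le_sum fun s hs => ?_
            unfold contrib
            split_ifs with hf ht
            · exfalso
              rw [List.contains_iff_mem] at hf
              exact absurd ((hfx s false hf).1 hs) (by simp)
            · exact le_rfl
            · exact le_max_right _ _
        _ ≤ _ := by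
            apply Finset.sum_le_sum_of_subset_of_nonneg hsub
            intro s _ hs
            unfold contrib
            split_ifs with hf ht
            · exact le_rfl
            · exfalso
              rw [List.contains_iff_mem] at ht
              exact hs ((hfx s true ht).2 rfl)
            · exact le_max_left _ _
    have h3 : ∑ s ∈ S6.toFinset, contrib fx rows s = (S6.map (contrib fx rows)).sum :=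
      List.sum_toFinset _ S6_nodup
    rw [h3] at h2
    rw [Finset.sum_sub_distrib, Finset.sum_const, nsmul_eq_mul] at h2
    have h4 : (A.card : ℤ) * 5040 < 5040 * (N : ℤ) := by linarith
    have h5 : (A.card : ℤ) < N := by linarith
    exact_mod_cast h5
  | node s l r ihl ihr =>
    intro fx hc A hA hpos hsub hfx
    simp only [chkCert, Bool.and_eq_true] at hc
    by_cases hs : s ∈ A
    · refine ihl _ hc.1 A hA hpos hsub ?_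
      intro t b htb
      rcases List.mem_cons.1 htb with h | h
      · rw [Prod.mk.injEq] at h
        obtain ⟨rfl, rfl⟩ := h
        simp [hs]
      · exact hfx t b h
    · refine ihr _ hc.2 A hA hpos hsub ?_
      intro t b htb
      rcases List.mem_cons.1 htb with h | h
      · rw [Prod.mk.injEq] at h
        obtain ⟨rfl, rfl⟩ := h
        simp [hs]
      · exact hfx t b h

def leaf0 : List Row := [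
  (4775, 12, 2, 5, [4, 5]),
  (265, 1, 20, 243, [2, 3, 4, 5, 6, 8, 9, 10, 12, 15, 16, 18, 20, 24, 25, 27, 30, 32, 36, 40, 45, 48, 50, 54, 60, 64, 72, 75, 80, 81, 90, 96, 100, 108, 120, 125, 128, 135, 144, 150, 160, 162, 180, 192, 200, 216, 225, 240, 243]),
  (1477, 24, 2, 3, [2, 3]), (111, 24, 4, 6, [2, 3, 4, 5, 6]), (4775, 2, 2, 30, [24, 30]),
  (498, 36, 4, 8, [2, 3, 6, 8]), (153, 10, 7, 18, [2, 3, 4, 5, 6, 8, 9, 10, 12, 15, 16, 18]),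
  (934, 15, 6, 15, [2, 3, 4, 5, 6, 8, 9, 10, 12, 15]), (265, 32, 3, 8, [2, 5, 8]),
  (526, 60, 4, 5, [2, 3, 4, 5]), (393, 24, 5, 9, [2, 3, 4, 5, 6, 8, 9]), (929, 40, 2, 4, [2, 4]),
  (1209, 75, 3, 4, [2, 3, 4]),
  (104, 5, 11, 48, [2, 3, 4, 5, 6, 8, 9, 10, 12, 15, 16, 18, 20, 24, 25, 27, 30, 32, 36, 40, 45, 48]),
  (1130, 54, 3, 5, [2, 4, 5]), (934, 25, 6, 12, [2, 3, 4, 5, 6, 8, 9, 10, 12]),
  (1028, 27, 5, 9, [2, 3, 4, 5, 6, 8, 9]), (822, 18, 6, 15, [2, 3, 4, 5, 6, 8, 9, 10, 12, 15]),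
  (1061, 32, 5, 9, [2, 3, 4, 5, 6, 8, 9]), (1173, 50, 2, 5, [2, 5]), (2014, 30, 2, 9, [2, 9]),
  (4775, 16, 2, 4, [3, 4]),
  (95, 9, 10, 32, [2, 3, 4, 5, 6, 8, 9, 10, 12, 15, 16, 18, 20, 24, 25, 27, 30, 32]),
  (4775, 3, 2, 20, [16, 20]), (226, 30, 4, 6, [2, 3, 4, 5, 6]),
  (895, 20, 6, 15, [2, 3, 4, 5, 6, 8, 9, 10, 12, 15]), (253, 9, 3, 27, [9, 15, 27]),
  (569, 9, 6, 15, [2, 3, 4, 5, 6, 8, 9, 10, 12, 15]), (111, 64, 3, 4, [2, 3, 4]),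
  (790, 50, 4, 6, [2, 3, 4, 5, 6]), (817, 10, 2, 25, [6, 25]), (3209, 48, 4, 6, [2, 3, 4, 5, 6]),
  (4775, 4, 2, 15, [12, 15]), (1326, 10, 3, 25, [6, 8, 25]), (384, 75, 2, 3, [2, 3]),
  (632, 36, 3, 6, [2, 3, 6]), (176, 36, 4, 8, [2, 4, 6, 8]), (1392, 24, 2, 5, [2, 5]),
  (1326, 40, 3, 5, [2, 4, 5]), (2830, 81, 2, 3, [2, 3]), (979, 45, 4, 6, [2, 3, 4, 5, 6]),
  (3737, 5, 2, 25, [12, 25]), (3602, 64, 2, 4, [2, 4]),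
  (40, 10, 8, 24, [2, 3, 4, 5, 6, 8, 9, 10, 12, 15, 16, 18, 20, 24]), (685, 100, 2, 3, [2, 3]),
  (4775, 6, 2, 10, [8, 10]), (852, 30, 2, 3, [2, 3]), (4775, 8, 2, 8, [6, 8]),
  (136, 45, 2, 5, [3, 5]), (569, 9, 2, 27, [15, 27])]

def leaf1 : List Row := [
  (4444, 12, 2, 5, [4, 5]),
  (596, 1, 20, 243, [2, 3, 4, 5, 6, 8, 9, 10, 12, 15, 16, 18, 20, 24, 25, 27, 30, 32, 36, 40, 45, 48, 50, 54, 60, 64, 72, 75, 80, 81, 90, 96, 100, 108, 120, 125, 128, 135, 144, 150, 160, 162, 180, 192, 200, 216, 225, 240, 243]),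
  (433, 24, 2, 3, [2, 3]), (4444, 2, 2, 30, [24, 30]), (965, 36, 4, 8, [2, 3, 6, 8]),
  (494, 8, 10, 36, [2, 3, 4, 5, 6, 8, 9, 10, 12, 15, 16, 18, 20, 24, 25, 27, 30, 32, 36]),
  (869, 15, 6, 15, [2, 3, 4, 5, 6, 8, 9, 10, 12, 15]), (748, 27, 2, 9, [5, 9]),
  (358, 60, 4, 5, [2, 3, 4, 5]), (175, 20, 5, 9, [2, 3, 4, 5, 6, 8, 9]),
  (1304, 75, 3, 4, [2, 3, 4]),
  (11, 10, 10, 30, [2, 3, 4, 5, 6, 8, 9, 10, 12, 15, 16, 18, 20, 24, 25, 27, 30]),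
  (677, 54, 3, 5, [2, 4, 5]), (869, 25, 6, 12, [2, 3, 4, 5, 6, 8, 9, 10, 12]),
  (678, 27, 5, 9, [2, 3, 4, 5, 6, 8, 9]), (724, 18, 6, 15, [2, 3, 4, 5, 6, 8, 9, 10, 12, 15]),
  (2178, 32, 2, 8, [4, 8]), (470, 54, 2, 5, [2, 5]), (2263, 30, 2, 9, [2, 9]),
  (1625, 20, 2, 5, [3, 5]),
  (78, 9, 10, 32, [2, 3, 4, 5, 6, 8, 9, 10, 12, 15, 16, 18, 20, 24, 25, 27, 30, 32]),
  (4444, 3, 2, 20, [16, 20]), (63, 24, 2, 5, [2, 5]),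
  (356, 20, 6, 15, [2, 3, 4, 5, 6, 8, 9, 10, 12, 15]),
  (748, 9, 6, 15, [2, 3, 4, 5, 6, 8, 9, 10, 12, 15]), (79, 27, 3, 9, [2, 3, 9]),
  (1078, 50, 4, 6, [2, 3, 4, 5, 6]), (881, 32, 3, 8, [4, 5, 8]), (3082, 10, 2, 25, [6, 25]),
  (3215, 48, 4, 6, [2, 3, 4, 5, 6]), (4444, 4, 2, 15, [12, 15]), (104, 54, 4, 5, [2, 3, 4, 5]),
  (52, 16, 2, 5, [3, 5]), (278, 24, 3, 12, [2, 3, 12]),
  (233, 10, 6, 15, [2, 3, 4, 5, 6, 8, 9, 10, 12, 15]),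
  (11, 16, 7, 18, [2, 3, 4, 5, 6, 8, 9, 10, 12, 15, 16, 18]), (596, 16, 3, 16, [3, 5, 16]),
  (1539, 40, 3, 5, [2, 4, 5]), (2861, 81, 2, 3, [2, 3]), (713, 45, 4, 6, [2, 3, 4, 5, 6]),
  (3478, 5, 2, 25, [12, 25]), (881, 16, 4, 16, [5, 8, 10, 16]), (1064, 60, 3, 5, [2, 3, 5]),
  (725, 24, 5, 9, [2, 3, 4, 5, 6, 8, 9]), (4444, 6, 2, 10, [8, 10]), (971, 30, 2, 3, [2, 3]),
  (97, 5, 11, 45, [2, 3, 4, 5, 6, 8, 9, 10, 12, 15, 16, 18, 20, 24, 25, 27, 30, 32, 36, 40, 45]),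
  (513, 45, 2, 5, [3, 5])]

def leaf2 : List Row := [
  (2520, 1, 3, 125, [40, 60, 125]), (1206, 27, 3, 9, [3, 5, 9]),
  (360, 3, 15, 96, [2, 3, 4, 5, 6, 8, 9, 10, 12, 15, 16, 18, 20, 24, 25, 27, 30, 32, 36, 40, 45, 48, 50, 54, 60, 64, 72, 75, 80, 81, 90, 96]),
  (184, 24, 4, 12, [3, 4, 8, 12]), (261, 64, 3, 4, [2, 3, 4]),
  (299, 8, 10, 36, [2, 3, 4, 5, 6, 8, 9, 10, 12, 15, 16, 18, 20, 24, 25, 27, 30, 32, 36]),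
  (299, 36, 4, 8, [2, 3, 4, 8]),
  (520, 9, 10, 32, [2, 3, 4, 5, 6, 8, 9, 10, 12, 15, 16, 18, 20, 24, 25, 27, 30, 32]),
  (3061, 40, 5, 6, [2, 3, 4, 5, 6]), (474, 36, 5, 8, [2, 3, 4, 5, 6, 8]),
  (1258, 54, 3, 5, [2, 4, 5]), (1219, 75, 3, 4, [2, 3, 4]),
  (486, 12, 7, 18, [2, 3, 4, 5, 6, 8, 9, 10, 12, 15, 16, 18]), (5040, 2, 2, 30, [20, 30]),
  (1008, 25, 6, 12, [2, 3, 4, 5, 6, 8, 9, 10, 12]), (437, 27, 5, 9, [2, 3, 4, 5, 6, 8, 9]),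
  (738, 18, 6, 15, [2, 3, 4, 5, 6, 8, 9, 10, 12, 15]), (933, 32, 5, 9, [2, 3, 4, 5, 6, 8, 9]),
  (458, 30, 2, 10, [2, 10]), (584, 15, 2, 9, [4, 9]), (372, 24, 5, 12, [3, 4, 6, 8, 12]),
  (414, 75, 2, 4, [2, 4]), (5040, 4, 2, 15, [10, 15]), (582, 30, 5, 10, [2, 3, 5, 9, 10]),
  (61, 60, 2, 5, [3, 5]), (105, 40, 3, 6, [2, 5, 6]), (5040, 10, 2, 6, [4, 6]),
  (439, 30, 2, 3, [2, 3]),
  (468, 6, 11, 48, [2, 3, 4, 5, 6, 8, 9, 10, 12, 15, 16, 18, 20, 24, 25, 27, 30, 32, 36, 40, 45, 48]),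
  (5040, 20, 2, 3, [2, 3]), (1298, 12, 2, 25, [5, 25]), (3528, 5, 2, 12, [8, 12]),
  (261, 8, 7, 18, [2, 3, 4, 5, 6, 8, 9, 10, 12, 15, 16, 18]),
  (747, 16, 7, 18, [2, 3, 4, 5, 6, 8, 9, 10, 12, 15, 16, 18]), (523, 8, 2, 32, [5, 32]),
  (368, 96, 2, 3, [2, 3]), (2517, 81, 2, 3, [2, 3]), (1114, 45, 4, 6, [2, 3, 4, 5, 6]),
  (1512, 5, 2, 25, [12, 25]), (2277, 64, 2, 4, [2, 4]), (261, 8, 2, 16, [5, 16]),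
  (16, 36, 3, 8, [2, 4, 8]), (562, 24, 3, 8, [3, 4, 8]), (4032, 50, 2, 5, [2, 5]),
  (567, 40, 2, 5, [2, 5]), (170, 30, 2, 5, [2, 5]),
  (819, 15, 6, 15, [2, 3, 4, 5, 6, 8, 9, 10, 12, 15])]

def leaf3 : List Row := [
  (2520, 1, 3, 125, [40, 60, 125]),
  (360, 3, 15, 96, [2, 3, 4, 5, 6, 8, 9, 10, 12, 15, 16, 18, 20, 24, 25, 27, 30, 32, 36, 40, 45, 48, 50, 54, 60, 64, 72, 75, 80, 81, 90, 96]),
  (212, 24, 4, 12, [3, 4, 8, 12]), (261, 64, 3, 4, [2, 3, 4]),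
  (299, 8, 10, 36, [2, 3, 4, 5, 6, 8, 9, 10, 12, 15, 16, 18, 20, 24, 25, 27, 30, 32, 36]),
  (424, 36, 4, 8, [2, 3, 4, 8]),
  (520, 9, 10, 32, [2, 3, 4, 5, 6, 8, 9, 10, 12, 15, 16, 18, 20, 24, 25, 27, 30, 32]),
  (3061, 40, 5, 6, [2, 3, 4, 5, 6]), (142, 36, 5, 8, [2, 3, 4, 5, 6, 8]),
  (1108, 54, 3, 5, [2, 4, 5]), (1358, 75, 3, 4, [2, 3, 4]),
  (541, 12, 7, 18, [2, 3, 4, 5, 6, 8, 9, 10, 12, 15, 16, 18]), (5040, 2, 2, 30, [20, 30]),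
  (1008, 25, 6, 12, [2, 3, 4, 5, 6, 8, 9, 10, 12]), (738, 27, 5, 9, [2, 3, 4, 5, 6, 8, 9]),
  (738, 18, 6, 15, [2, 3, 4, 5, 6, 8, 9, 10, 12, 15]), (933, 32, 5, 9, [2, 3, 4, 5, 6, 8, 9]),
  (1206, 27, 2, 9, [3, 9]), (226, 30, 2, 10, [2, 10]), (1628, 15, 2, 9, [4, 9]),
  (414, 24, 5, 12, [3, 4, 6, 8, 12]), (345, 75, 2, 4, [2, 4]), (5040, 4, 2, 15, [10, 15]),
  (663, 30, 5, 10, [2, 3, 5, 9, 10]), (476, 60, 2, 5, [3, 5]), (105, 40, 3, 6, [2, 5, 6]),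
  (5040, 10, 2, 6, [4, 6]), (497, 30, 2, 3, [2, 3]),
  (468, 6, 11, 48, [2, 3, 4, 5, 6, 8, 9, 10, 12, 15, 16, 18, 20, 24, 25, 27, 30, 32, 36, 40, 45, 48]),
  (5040, 20, 2, 3, [2, 3]), (964, 12, 2, 25, [5, 25]), (3528, 5, 2, 12, [8, 12]),
  (261, 8, 7, 18, [2, 3, 4, 5, 6, 8, 9, 10, 12, 15, 16, 18]),
  (747, 16, 7, 18, [2, 3, 4, 5, 6, 8, 9, 10, 12, 15, 16, 18]), (523, 8, 2, 32, [5, 32]),
  (395, 96, 2, 3, [2, 3]), (2215, 81, 2, 3, [2, 3]), (1183, 45, 4, 6, [2, 3, 4, 5, 6]),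
  (1512, 5, 2, 25, [12, 25]), (2277, 64, 2, 4, [2, 4]), (261, 8, 2, 16, [5, 16]),
  (125, 72, 3, 4, [2, 3, 4]), (409, 24, 3, 8, [3, 4, 8]), (4032, 50, 2, 5, [2, 5]),
  (567, 40, 2, 5, [2, 5]), (228, 30, 2, 5, [2, 5]),
  (610, 15, 6, 15, [2, 3, 4, 5, 6, 8, 9, 10, 12, 15])]

def leaf4 : List Row := [
  (610, 6, 2, 10, [9, 10]),
  (890, 1, 20, 243, [2, 3, 4, 5, 6, 8, 9, 10, 12, 15, 16, 18, 20, 24, 25, 27, 30, 32, 36, 40, 45, 48, 50, 54, 60, 64, 72, 75, 80, 81, 90, 96, 100, 108, 120, 125, 128, 135, 144, 150, 160, 162, 180, 192, 200, 216, 225, 240, 243]),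
  (92, 3, 15, 96, [2, 3, 4, 5, 6, 8, 9, 10, 12, 15, 16, 18, 20, 24, 25, 27, 30, 32, 36, 40, 45, 48, 50, 54, 60, 64, 72, 75, 80, 81, 90, 96]),
  (330, 4, 13, 75, [2, 3, 4, 5, 6, 8, 9, 10, 12, 15, 16, 18, 20, 24, 25, 27, 30, 32, 36, 40, 45, 48, 50, 54, 60, 64, 72, 75]),
  (455, 18, 7, 16, [2, 3, 4, 5, 6, 8, 9, 10, 12, 15, 16]), (56, 45, 5, 6, [2, 3, 4, 5, 6]),
  (403, 8, 10, 36, [2, 3, 4, 5, 6, 8, 9, 10, 12, 15, 16, 18, 20, 24, 25, 27, 30, 32, 36]),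
  (343, 36, 4, 8, [2, 3, 4, 8]),
  (422, 9, 10, 32, [2, 3, 4, 5, 6, 8, 9, 10, 12, 15, 16, 18, 20, 24, 25, 27, 30, 32]),
  (209, 15, 6, 15, [2, 3, 4, 5, 6, 8, 9, 10, 12, 15]), (403, 50, 2, 5, [2, 5]),
  (1451, 30, 8, 10, [2, 3, 4, 5, 6, 8, 9, 10]), (921, 75, 3, 4, [2, 3, 4]),
  (1216, 45, 2, 5, [3, 5]), (640, 12, 2, 16, [5, 16]),
  (830, 25, 6, 12, [2, 3, 4, 5, 6, 8, 9, 10, 12]), (615, 27, 5, 9, [2, 3, 4, 5, 6, 8, 9]),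
  (260, 3, 11, 48, [2, 3, 4, 5, 6, 8, 9, 10, 12, 15, 16, 18, 20, 24, 25, 27, 30, 32, 36, 40, 45, 48]),
  (672, 32, 5, 9, [2, 3, 4, 5, 6, 8, 9]), (1866, 20, 2, 4, [3, 4]),
  (2, 15, 4, 20, [2, 5, 9, 20]), (405, 45, 3, 5, [2, 3, 5]), (1458, 30, 2, 9, [2, 9]),
  (339, 20, 6, 15, [2, 3, 4, 5, 6, 8, 9, 10, 12, 15]), (1609, 10, 2, 16, [6, 16]),
  (72, 6, 11, 48, [2, 3, 4, 5, 6, 8, 9, 10, 12, 15, 16, 18, 20, 24, 25, 27, 30, 32, 36, 40, 45, 48]),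
  (260, 3, 2, 81, [20, 81]), (68, 10, 8, 20, [2, 3, 4, 5, 6, 8, 9, 10, 12, 15, 16, 18, 20]),
  (1871, 10, 2, 25, [6, 25]), (890, 2, 2, 128, [30, 128]), (916, 15, 4, 6, [2, 3, 4, 5, 6]),
  (152, 36, 5, 8, [2, 3, 4, 5, 6, 8]),
  (380, 6, 7, 18, [2, 3, 4, 5, 6, 8, 9, 10, 12, 15, 16, 18]), (459, 27, 3, 9, [3, 5, 9]),
  (1328, 50, 3, 5, [2, 4, 5]), (526, 54, 3, 5, [2, 4, 5]),
  (538, 16, 7, 18, [2, 3, 4, 5, 6, 8, 9, 10, 12, 15, 16, 18]),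
  (316, 30, 5, 10, [2, 3, 5, 9, 10]), (158, 72, 3, 4, [2, 3, 4]), (2303, 81, 2, 3, [2, 3]),
  (415, 5, 4, 50, [16, 25, 27, 50]), (2905, 5, 2, 25, [12, 25]), (2016, 64, 2, 4, [2, 4]),
  (422, 24, 6, 12, [2, 3, 4, 5, 6, 8, 9, 10, 12]), (660, 100, 2, 3, [2, 3]),
  (312, 12, 8, 24, [2, 3, 4, 5, 6, 8, 9, 10, 12, 15, 16, 18, 20, 24]), (478, 96, 2, 3, [2, 3]),
  (192, 2, 18, 150, [2, 3, 4, 5, 6, 8, 9, 10, 12, 15, 16, 18, 20, 24, 25, 27, 30, 32, 36, 40, 45, 48, 50, 54, 60, 64, 72, 75, 80, 81, 90, 96, 100, 108, 120, 125, 128, 135, 144, 150])]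

def leaf5 : List Row := [
  (32, 9, 7, 18, [2, 3, 4, 5, 6, 8, 9, 10, 12, 15, 16, 18]), (216, 16, 3, 10, [5, 8, 10]),
  (305, 3, 15, 96, [2, 3, 4, 5, 6, 8, 9, 10, 12, 15, 16, 18, 20, 24, 25, 27, 30, 32, 36, 40, 45, 48, 50, 54, 60, 64, 72, 75, 80, 81, 90, 96]),
  (401, 4, 13, 75, [2, 3, 4, 5, 6, 8, 9, 10, 12, 15, 16, 18, 20, 24, 25, 27, 30, 32, 36, 40, 45, 48, 50, 54, 60, 64, 72, 75]),
  (3659, 60, 4, 5, [2, 3, 4, 5]),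
  (490, 8, 10, 36, [2, 3, 4, 5, 6, 8, 9, 10, 12, 15, 16, 18, 20, 24, 25, 27, 30, 32, 36]),
  (656, 36, 4, 8, [2, 3, 4, 8]),
  (215, 9, 10, 32, [2, 3, 4, 5, 6, 8, 9, 10, 12, 15, 16, 18, 20, 24, 25, 27, 30, 32]),
  (160, 6, 3, 20, [10, 15, 20]), (1084, 25, 5, 9, [2, 3, 4, 5, 6, 8, 9]),
  (783, 24, 5, 9, [2, 3, 4, 5, 6, 8, 9]), (268, 3, 3, 40, [20, 25, 40]),
  (475, 9, 6, 15, [2, 3, 4, 5, 6, 8, 9, 10, 12, 15]), (216, 64, 3, 4, [2, 3, 4]),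
  (490, 50, 2, 5, [2, 5]), (373, 27, 6, 10, [2, 3, 4, 5, 6, 8, 9, 10]),
  (660, 18, 6, 15, [2, 3, 4, 5, 6, 8, 9, 10, 12, 15]), (835, 32, 5, 9, [2, 3, 4, 5, 6, 8, 9]),
  (229, 1, 23, 288, [2, 3, 4, 5, 6, 8, 9, 10, 12, 15, 16, 18, 20, 24, 25, 27, 30, 32, 36, 40, 45, 48, 50, 54, 60, 64, 72, 75, 80, 81, 90, 96, 100, 108, 120, 125, 128, 135, 144, 150, 160, 162, 180, 192, 200, 216, 225, 240, 243, 250, 256, 270, 288]),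
  (1080, 10, 2, 25, [6, 25]), (52, 45, 3, 6, [3, 5, 6]), (193, 100, 2, 3, [2, 3]),
  (106, 72, 3, 4, [2, 3, 4]), (787, 20, 6, 15, [2, 3, 4, 5, 6, 8, 9, 10, 12, 15]),
  (806, 15, 6, 15, [2, 3, 4, 5, 6, 8, 9, 10, 12, 15]), (1025, 2, 2, 80, [30, 80]),
  (3354, 2, 2, 60, [30, 60]), (216, 6, 8, 24, [2, 3, 4, 5, 6, 8, 9, 10, 12, 15, 16, 18, 20, 24]),
  (99, 27, 3, 10, [3, 9, 10]), (354, 27, 3, 9, [3, 5, 9]),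
  (268, 6, 11, 48, [2, 3, 4, 5, 6, 8, 9, 10, 12, 15, 16, 18, 20, 24, 25, 27, 30, 32, 36, 40, 45, 48]),
  (476, 5, 11, 45, [2, 3, 4, 5, 6, 8, 9, 10, 12, 15, 16, 18, 20, 24, 25, 27, 30, 32, 36, 40, 45]),
  (507, 27, 3, 10, [5, 9, 10]), (1381, 50, 3, 5, [2, 4, 5]), (1134, 54, 3, 5, [2, 4, 5]),
  (581, 16, 7, 18, [2, 3, 4, 5, 6, 8, 9, 10, 12, 15, 16, 18]), (1198, 45, 3, 6, [2, 3, 6]),
  (216, 2, 3, 128, [40, 125, 128]), (2958, 81, 2, 3, [2, 3]), (1872, 75, 2, 3, [2, 3]),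
  (2072, 64, 2, 4, [2, 4]), (21, 36, 3, 8, [2, 4, 8]), (76, 36, 4, 6, [2, 3, 4, 5, 6]),
  (932, 96, 2, 3, [2, 3]), (17, 5, 4, 50, [16, 25, 27, 50]), (1627, 10, 3, 25, [6, 8, 25]),
  (3621, 12, 2, 10, [5, 10])]

def leaf6 : List Row := [
  (33, 1, 20, 243, [2, 3, 4, 5, 6, 8, 9, 10, 12, 15, 16, 18, 20, 24, 25, 27, 30, 32, 36, 40, 45, 48, 50, 54, 60, 64, 72, 75, 80, 81, 90, 96, 100, 108, 120, 125, 128, 135, 144, 150, 160, 162, 180, 192, 200, 216, 225, 240, 243]),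
  (315, 3, 15, 96, [2, 3, 4, 5, 6, 8, 9, 10, 12, 15, 16, 18, 20, 24, 25, 27, 30, 32, 36, 40, 45, 48, 50, 54, 60, 64, 72, 75, 80, 81, 90, 96]),
  (377, 4, 13, 75, [2, 3, 4, 5, 6, 8, 9, 10, 12, 15, 16, 18, 20, 24, 25, 27, 30, 32, 36, 40, 45, 48, 50, 54, 60, 64, 72, 75]),
  (288, 80, 2, 3, [2, 3]), (392, 3, 2, 81, [20, 81]),
  (461, 8, 10, 36, [2, 3, 4, 5, 6, 8, 9, 10, 12, 15, 16, 18, 20, 24, 25, 27, 30, 32, 36]),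
  (30, 36, 4, 8, [2, 3, 4, 8]),
  (281, 9, 10, 32, [2, 3, 4, 5, 6, 8, 9, 10, 12, 15, 16, 18, 20, 24, 25, 27, 30, 32]),
  (270, 12, 2, 16, [5, 16]), (841, 12, 2, 5, [3, 5]), (441, 15, 2, 9, [4, 9]),
  (1400, 75, 3, 4, [2, 3, 4]), (392, 9, 6, 15, [2, 3, 4, 5, 6, 8, 9, 10, 12, 15]),
  (606, 10, 2, 9, [6, 9]), (944, 25, 6, 12, [2, 3, 4, 5, 6, 8, 9, 10, 12]),
  (2474, 20, 2, 4, [3, 4]), (616, 18, 6, 15, [2, 3, 4, 5, 6, 8, 9, 10, 12, 15]),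
  (768, 32, 5, 9, [2, 3, 4, 5, 6, 8, 9]),
  (201, 1, 23, 288, [2, 3, 4, 5, 6, 8, 9, 10, 12, 15, 16, 18, 20, 24, 25, 27, 30, 32, 36, 40, 45, 48, 50, 54, 60, 64, 72, 75, 80, 81, 90, 96, 100, 108, 120, 125, 128, 135, 144, 150, 160, 162, 180, 192, 200, 216, 225, 240, 243, 250, 256, 270, 288]),
  (302, 12, 8, 24, [2, 3, 4, 5, 6, 8, 9, 10, 12, 15, 16, 18, 20, 24]), (150, 12, 2, 8, [5, 8]),
  (461, 20, 2, 5, [3, 5]), (222, 24, 3, 8, [3, 4, 8]),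
  (226, 20, 6, 15, [2, 3, 4, 5, 6, 8, 9, 10, 12, 15]), (1705, 10, 2, 16, [6, 16]),
  (2128, 10, 2, 25, [6, 25]), (695, 50, 4, 6, [2, 3, 4, 5, 6]),
  (303, 27, 5, 9, [2, 3, 4, 5, 6, 8, 9]),
  (86, 5, 13, 60, [2, 3, 4, 5, 6, 8, 9, 10, 12, 15, 16, 18, 20, 24, 25, 27, 30, 32, 36, 40, 45, 48, 50, 54, 60]),
  (119, 6, 8, 24, [2, 3, 4, 5, 6, 8, 9, 10, 12, 15, 16, 18, 20, 24]),
  (337, 6, 11, 48, [2, 3, 4, 5, 6, 8, 9, 10, 12, 15, 16, 18, 20, 24, 25, 27, 30, 32, 36, 40, 45, 48]),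
  (33, 2, 2, 128, [30, 128]), (1303, 27, 3, 9, [3, 5, 9]), (706, 50, 3, 5, [2, 4, 5]),
  (615, 16, 7, 18, [2, 3, 4, 5, 6, 8, 9, 10, 12, 15, 16, 18]), (87, 30, 4, 6, [2, 3, 4, 5, 6]),
  (461, 54, 4, 5, [2, 3, 4, 5]), (2212, 81, 2, 3, [2, 3]), (1024, 45, 4, 6, [2, 3, 4, 5, 6]),
  (3776, 5, 2, 25, [12, 25]), (2305, 64, 2, 4, [2, 4]),
  (858, 24, 6, 12, [2, 3, 4, 5, 6, 8, 9, 10, 12]), (1031, 100, 2, 3, [2, 3]),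
  (661, 15, 7, 18, [2, 3, 4, 5, 6, 8, 9, 10, 12, 15, 16, 18]),
  (213, 36, 5, 8, [2, 3, 4, 5, 6, 8]),
  (281, 2, 18, 150, [2, 3, 4, 5, 6, 8, 9, 10, 12, 15, 16, 18, 20, 24, 25, 27, 30, 32, 36, 40, 45, 48, 50, 54, 60, 64, 72, 75, 80, 81, 90, 96, 100, 108, 120, 125, 128, 135, 144, 150]),
  (777, 54, 2, 5, [2, 5])]

def leaf7 : List Row := [
  (127, 1, 20, 243, [2, 3, 4, 5, 6, 8, 9, 10, 12, 15, 16, 18, 20, 24, 25, 27, 30, 32, 36, 40, 45, 48, 50, 54, 60, 64, 72, 75, 80, 81, 90, 96, 100, 108, 120, 125, 128, 135, 144, 150, 160, 162, 180, 192, 200, 216, 225, 240, 243]),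
  (330, 3, 15, 96, [2, 3, 4, 5, 6, 8, 9, 10, 12, 15, 16, 18, 20, 24, 25, 27, 30, 32, 36, 40, 45, 48, 50, 54, 60, 64, 72, 75, 80, 81, 90, 96]),
  (377, 4, 13, 75, [2, 3, 4, 5, 6, 8, 9, 10, 12, 15, 16, 18, 20, 24, 25, 27, 30, 32, 36, 40, 45, 48, 50, 54, 60, 64, 72, 75]),
  (860, 80, 2, 3, [2, 3]), (170, 3, 2, 81, [20, 81]),
  (460, 8, 10, 36, [2, 3, 4, 5, 6, 8, 9, 10, 12, 15, 16, 18, 20, 24, 25, 27, 30, 32, 36]),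
  (683, 36, 4, 8, [2, 3, 4, 8]),
  (402, 9, 10, 32, [2, 3, 4, 5, 6, 8, 9, 10, 12, 15, 16, 18, 20, 24, 25, 27, 30, 32]),
  (1229, 12, 2, 16, [5, 16]), (392, 72, 3, 4, [2, 3, 4]), (456, 15, 2, 9, [4, 9]),
  (1378, 75, 3, 4, [2, 3, 4]), (170, 9, 6, 15, [2, 3, 4, 5, 6, 8, 9, 10, 12, 15]),
  (750, 10, 2, 9, [6, 9]), (942, 25, 6, 12, [2, 3, 4, 5, 6, 8, 9, 10, 12]),
  (982, 20, 2, 4, [3, 4]), (640, 18, 6, 15, [2, 3, 4, 5, 6, 8, 9, 10, 12, 15]),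
  (767, 32, 5, 9, [2, 3, 4, 5, 6, 8, 9]),
  (119, 1, 23, 288, [2, 3, 4, 5, 6, 8, 9, 10, 12, 15, 16, 18, 20, 24, 25, 27, 30, 32, 36, 40, 45, 48, 50, 54, 60, 64, 72, 75, 80, 81, 90, 96, 100, 108, 120, 125, 128, 135, 144, 150, 160, 162, 180, 192, 200, 216, 225, 240, 243, 250, 256, 270, 288]),
  (134, 12, 8, 24, [2, 3, 4, 5, 6, 8, 9, 10, 12, 15, 16, 18, 20, 24]), (1229, 12, 2, 8, [5, 8]),
  (460, 20, 2, 5, [3, 5]), (121, 24, 3, 8, [3, 4, 8]),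
  (523, 20, 6, 15, [2, 3, 4, 5, 6, 8, 9, 10, 12, 15]), (833, 10, 2, 16, [6, 16]),
  (1613, 10, 2, 25, [6, 25]), (717, 50, 4, 6, [2, 3, 4, 5, 6]),
  (318, 27, 5, 9, [2, 3, 4, 5, 6, 8, 9]),
  (86, 5, 13, 60, [2, 3, 4, 5, 6, 8, 9, 10, 12, 15, 16, 18, 20, 24, 25, 27, 30, 32, 36, 40, 45, 48, 50, 54, 60]),
  (419, 6, 11, 48, [2, 3, 4, 5, 6, 8, 9, 10, 12, 15, 16, 18, 20, 24, 25, 27, 30, 32, 36, 40, 45, 48]),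
  (127, 2, 2, 128, [30, 128]), (1309, 27, 3, 9, [3, 5, 9]), (671, 50, 3, 5, [2, 4, 5]),
  (901, 54, 3, 5, [2, 4, 5]), (614, 16, 7, 18, [2, 3, 4, 5, 6, 8, 9, 10, 12, 15, 16, 18]),
  (66, 45, 3, 6, [2, 3, 6]), (146, 54, 4, 5, [2, 3, 4, 5]), (2264, 81, 2, 3, [2, 3]),
  (1008, 45, 4, 6, [2, 3, 4, 5, 6]), (3766, 5, 2, 25, [12, 25]), (2301, 64, 2, 4, [2, 4]),
  (69, 48, 4, 6, [2, 3, 4, 5, 6]), (744, 100, 2, 3, [2, 3]),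
  (648, 15, 7, 18, [2, 3, 4, 5, 6, 8, 9, 10, 12, 15, 16, 18]), (32, 15, 2, 5, [4, 5]),
  (274, 2, 18, 150, [2, 3, 4, 5, 6, 8, 9, 10, 12, 15, 16, 18, 20, 24, 25, 27, 30, 32, 36, 40, 45, 48, 50, 54, 60, 64, 72, 75, 80, 81, 90, 96, 100, 108, 120, 125, 128, 135, 144, 150]),
  (619, 10, 3, 25, [6, 8, 25])]

def leaf8 : List Row := [
  (947, 12, 2, 9, [4, 9]),
  (565, 1, 20, 243, [2, 3, 4, 5, 6, 8, 9, 10, 12, 15, 16, 18, 20, 24, 25, 27, 30, 32, 36, 40, 45, 48, 50, 54, 60, 64, 72, 75, 80, 81, 90, 96, 100, 108, 120, 125, 128, 135, 144, 150, 160, 162, 180, 192, 200, 216, 225, 240, 243]),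
  (228, 3, 15, 96, [2, 3, 4, 5, 6, 8, 9, 10, 12, 15, 16, 18, 20, 24, 25, 27, 30, 32, 36, 40, 45, 48, 50, 54, 60, 64, 72, 75, 80, 81, 90, 96]),
  (351, 4, 13, 75, [2, 3, 4, 5, 6, 8, 9, 10, 12, 15, 16, 18, 20, 24, 25, 27, 30, 32, 36, 40, 45, 48, 50, 54, 60, 64, 72, 75]),
  (441, 10, 10, 30, [2, 3, 4, 5, 6, 8, 9, 10, 12, 15, 16, 18, 20, 24, 25, 27, 30]),
  (78, 40, 2, 5, [2, 5]), (177, 27, 3, 9, [3, 5, 9]), (81, 30, 4, 10, [3, 5, 9, 10]),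
  (329, 27, 4, 9, [2, 3, 5, 9]), (975, 6, 5, 9, [2, 3, 4, 5, 6, 8, 9]),
  (782, 27, 4, 6, [2, 3, 4, 5, 6]), (1196, 75, 3, 4, [2, 3, 4]), (88, 24, 3, 8, [2, 3, 8]),
  (846, 25, 6, 12, [2, 3, 4, 5, 6, 8, 9, 10, 12]),
  (490, 18, 6, 15, [2, 3, 4, 5, 6, 8, 9, 10, 12, 15]), (765, 32, 5, 9, [2, 3, 4, 5, 6, 8, 9]),
  (138, 45, 3, 6, [3, 5, 6]), (6, 12, 5, 9, [2, 3, 4, 5, 6, 8, 9]),
  (147, 8, 10, 36, [2, 3, 4, 5, 6, 8, 9, 10, 12, 15, 16, 18, 20, 24, 25, 27, 30, 32, 36]),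
  (536, 9, 2, 27, [15, 27]), (1980, 24, 6, 12, [2, 3, 4, 5, 6, 8, 9, 10, 12]),
  (466, 20, 6, 15, [2, 3, 4, 5, 6, 8, 9, 10, 12, 15]), (241, 16, 2, 16, [3, 16]),
  (493, 3, 2, 81, [16, 81]), (493, 50, 4, 6, [2, 3, 4, 5, 6]),
  (52, 3, 11, 48, [2, 3, 4, 5, 6, 8, 9, 10, 12, 15, 16, 18, 20, 24, 25, 27, 30, 32, 36, 40, 45, 48]),
  (29, 3, 10, 36, [2, 3, 4, 5, 6, 8, 9, 10, 12, 15, 16, 18, 20, 24, 25, 27, 30, 32, 36]),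
  (174, 15, 6, 15, [2, 3, 4, 5, 6, 8, 9, 10, 12, 15]), (1551, 5, 2, 50, [25, 50]),
  (1602, 12, 2, 4, [3, 4]), (705, 24, 3, 12, [2, 9, 12]),
  (311, 9, 10, 32, [2, 3, 4, 5, 6, 8, 9, 10, 12, 15, 16, 18, 20, 24, 25, 27, 30, 32]),
  (848, 54, 2, 5, [2, 5]), (289, 16, 7, 18, [2, 3, 4, 5, 6, 8, 9, 10, 12, 15, 16, 18]),
  (658, 30, 3, 10, [3, 9, 10]), (977, 40, 3, 5, [2, 4, 5]), (2400, 81, 2, 3, [2, 3]),
  (829, 45, 4, 6, [2, 3, 4, 5, 6]), (2296, 64, 2, 4, [2, 4]),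
  (165, 9, 6, 15, [2, 3, 4, 5, 6, 8, 9, 10, 12, 15]),
  (508, 15, 7, 18, [2, 3, 4, 5, 6, 8, 9, 10, 12, 15, 16, 18]),
  (244, 5, 13, 60, [2, 3, 4, 5, 6, 8, 9, 10, 12, 15, 16, 18, 20, 24, 25, 27, 30, 32, 36, 40, 45, 48, 50, 54, 60]),
  (1202, 50, 2, 5, [2, 5]), (169, 20, 6, 10, [2, 3, 4, 5, 6, 8, 9, 10]),
  (363, 8, 8, 24, [2, 3, 4, 5, 6, 8, 9, 10, 12, 15, 16, 18, 20, 24]),
  (263, 2, 18, 150, [2, 3, 4, 5, 6, 8, 9, 10, 12, 15, 16, 18, 20, 24, 25, 27, 30, 32, 36, 40, 45, 48, 50, 54, 60, 64, 72, 75, 80, 81, 90, 96, 100, 108, 120, 125, 128, 135, 144, 150]),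
  (687, 16, 3, 16, [3, 5, 16])]

def leaf9 : List Row := [
  (421, 15, 6, 15, [2, 3, 4, 5, 6, 8, 9, 10, 12, 15]),
  (265, 1, 20, 243, [2, 3, 4, 5, 6, 8, 9, 10, 12, 15, 16, 18, 20, 24, 25, 27, 30, 32, 36, 40, 45, 48, 50, 54, 60, 64, 72, 75, 80, 81, 90, 96, 100, 108, 120, 125, 128, 135, 144, 150, 160, 162, 180, 192, 200, 216, 225, 240, 243]),
  (114, 10, 3, 25, [8, 10, 25]),
  (374, 4, 13, 75, [2, 3, 4, 5, 6, 8, 9, 10, 12, 15, 16, 18, 20, 24, 25, 27, 30, 32, 36, 40, 45, 48, 50, 54, 60, 64, 72, 75]),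
  (198, 6, 5, 9, [2, 3, 4, 5, 6, 8, 9]), (445, 45, 2, 6, [3, 6]),
  (458, 8, 10, 36, [2, 3, 4, 5, 6, 8, 9, 10, 12, 15, 16, 18, 20, 24, 25, 27, 30, 32, 36]),
  (594, 36, 4, 8, [2, 3, 6, 8]), (454, 12, 2, 10, [4, 10]), (255, 3, 2, 81, [16, 81]),
  (1015, 75, 3, 4, [2, 3, 4]), (868, 10, 4, 25, [3, 8, 10, 25]),
  (932, 25, 6, 12, [2, 3, 4, 5, 6, 8, 9, 10, 12]), (1130, 27, 5, 9, [2, 3, 4, 5, 6, 8, 9]),
  (727, 18, 6, 15, [2, 3, 4, 5, 6, 8, 9, 10, 12, 15]), (727, 32, 5, 9, [2, 3, 4, 5, 6, 8, 9]),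
  (2213, 5, 2, 25, [9, 25]), (349, 30, 4, 10, [4, 5, 9, 10]), (214, 12, 2, 18, [4, 18]),
  (752, 12, 2, 4, [3, 4]), (345, 40, 3, 4, [2, 3, 4]),
  (768, 20, 6, 15, [2, 3, 4, 5, 6, 8, 9, 10, 12, 15]), (416, 12, 2, 9, [4, 9]),
  (1682, 12, 2, 6, [4, 6]), (74, 10, 2, 25, [8, 25]), (1094, 50, 4, 6, [2, 3, 4, 5, 6]),
  (255, 9, 6, 15, [2, 3, 4, 5, 6, 8, 9, 10, 12, 15]),
  (163, 10, 10, 30, [2, 3, 4, 5, 6, 8, 9, 10, 12, 15, 16, 18, 20, 24, 25, 27, 30]),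
  (1960, 48, 4, 6, [2, 3, 4, 5, 6]), (1514, 5, 2, 50, [25, 50]), (180, 32, 2, 8, [5, 8]),
  (64, 100, 2, 3, [2, 3]), (571, 16, 7, 18, [2, 3, 4, 5, 6, 8, 9, 10, 12, 15, 16, 18]),
  (74, 6, 11, 48, [2, 3, 4, 5, 6, 8, 9, 10, 12, 15, 16, 18, 20, 24, 25, 27, 30, 32, 36, 40, 45, 48]),
  (85, 16, 2, 16, [3, 16]), (1640, 81, 2, 3, [2, 3]), (2407, 45, 4, 6, [2, 3, 4, 5, 6]),
  (2363, 64, 2, 4, [2, 4]), (1749, 9, 3, 27, [5, 9, 27]), (593, 54, 4, 5, [2, 3, 4, 5]),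
  (116, 5, 10, 32, [2, 3, 4, 5, 6, 8, 9, 10, 12, 15, 16, 18, 20, 24, 25, 27, 30, 32]),
  (329, 6, 10, 36, [2, 3, 4, 5, 6, 8, 9, 10, 12, 15, 16, 18, 20, 24, 25, 27, 30, 32, 36]),
  (4520, 3, 2, 16, [15, 16]), (641, 40, 4, 6, [2, 3, 4, 5, 6]),
  (281, 2, 18, 150, [2, 3, 4, 5, 6, 8, 9, 10, 12, 15, 16, 18, 20, 24, 25, 27, 30, 32, 36, 40, 45, 48, 50, 54, 60, 64, 72, 75, 80, 81, 90, 96, 100, 108, 120, 125, 128, 135, 144, 150]),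
  (1276, 15, 3, 5, [2, 3, 5]), (148, 16, 2, 10, [3, 10])]

def leaf10 : List Row := [
  (462, 75, 2, 4, [3, 4]),
  (265, 1, 20, 243, [2, 3, 4, 5, 6, 8, 9, 10, 12, 15, 16, 18, 20, 24, 25, 27, 30, 32, 36, 40, 45, 48, 50, 54, 60, 64, 72, 75, 80, 81, 90, 96, 100, 108, 120, 125, 128, 135, 144, 150, 160, 162, 180, 192, 200, 216, 225, 240, 243]),
  (320, 54, 2, 5, [2, 5]),
  (374, 4, 13, 75, [2, 3, 4, 5, 6, 8, 9, 10, 12, 15, 16, 18, 20, 24, 25, 27, 30, 32, 36, 40, 45, 48, 50, 54, 60, 64, 72, 75]),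
  (177, 8, 8, 24, [2, 3, 4, 5, 6, 8, 9, 10, 12, 15, 16, 18, 20, 24]),
  (320, 8, 10, 36, [2, 3, 4, 5, 6, 8, 9, 10, 12, 15, 16, 18, 20, 24, 25, 27, 30, 32, 36]),
  (620, 30, 3, 9, [3, 4, 9]), (364, 16, 2, 5, [3, 5]), (1406, 3, 2, 81, [16, 81]),
  (644, 75, 3, 4, [2, 3, 4]), (1993, 25, 2, 10, [5, 10]),
  (473, 25, 6, 12, [2, 3, 4, 5, 6, 8, 9, 10, 12]), (1037, 27, 5, 9, [2, 3, 4, 5, 6, 8, 9]),
  (686, 18, 6, 15, [2, 3, 4, 5, 6, 8, 9, 10, 12, 15]), (807, 32, 5, 9, [2, 3, 4, 5, 6, 8, 9]),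
  (474, 3, 2, 45, [16, 45]), (1406, 3, 2, 27, [16, 27]), (1565, 12, 2, 4, [3, 4]),
  (117, 30, 4, 10, [3, 4, 9, 10]), (605, 20, 6, 15, [2, 3, 4, 5, 6, 8, 9, 10, 12, 15]),
  (351, 30, 3, 9, [3, 6, 9]), (1553, 12, 2, 6, [4, 6]), (2030, 15, 3, 15, [5, 9, 15]),
  (1737, 50, 4, 6, [2, 3, 4, 5, 6]), (680, 10, 7, 18, [2, 3, 4, 5, 6, 8, 9, 10, 12, 15, 16, 18]),
  (693, 54, 3, 5, [2, 4, 5]), (1799, 48, 4, 6, [2, 3, 4, 5, 6]),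
  (106, 3, 15, 96, [2, 3, 4, 5, 6, 8, 9, 10, 12, 15, 16, 18, 20, 24, 25, 27, 30, 32, 36, 40, 45, 48, 50, 54, 60, 64, 72, 75, 80, 81, 90, 96]),
  (519, 9, 10, 32, [2, 3, 4, 5, 6, 8, 9, 10, 12, 15, 16, 18, 20, 24, 25, 27, 30, 32]),
  (561, 30, 2, 9, [3, 9]), (395, 16, 7, 18, [2, 3, 4, 5, 6, 8, 9, 10, 12, 15, 16, 18]),
  (439, 6, 11, 48, [2, 3, 4, 5, 6, 8, 9, 10, 12, 15, 16, 18, 20, 24, 25, 27, 30, 32, 36, 40, 45, 48]),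
  (193, 15, 2, 15, [9, 15]), (1707, 81, 2, 3, [2, 3]), (73, 40, 3, 5, [2, 4, 5]),
  (2420, 64, 2, 4, [2, 4]), (76, 12, 7, 18, [2, 3, 4, 5, 6, 8, 9, 10, 12, 15, 16, 18]),
  (243, 36, 4, 6, [2, 3, 4, 5, 6]),
  (347, 5, 13, 60, [2, 3, 4, 5, 6, 8, 9, 10, 12, 15, 16, 18, 20, 24, 25, 27, 30, 32, 36, 40, 45, 48, 50, 54, 60]),
  (210, 50, 2, 5, [2, 5]), (83, 40, 2, 4, [2, 4]), (564, 40, 4, 6, [2, 3, 4, 5, 6]),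
  (281, 2, 18, 150, [2, 3, 4, 5, 6, 8, 9, 10, 12, 15, 16, 18, 20, 24, 25, 27, 30, 32, 36, 40, 45, 48, 50, 54, 60, 64, 72, 75, 80, 81, 90, 96, 100, 108, 120, 125, 128, 135, 144, 150]),
  (443, 16, 3, 16, [3, 5, 16]),
  (68, 5, 10, 36, [2, 3, 4, 5, 6, 8, 9, 10, 12, 15, 16, 18, 20, 24, 25, 27, 30, 32, 36])]

def leaf11 : List Row := [
  (293, 100, 2, 3, [2, 3]),
  (158, 1, 20, 243, [2, 3, 4, 5, 6, 8, 9, 10, 12, 15, 16, 18, 20, 24, 25, 27, 30, 32, 36, 40, 45, 48, 50, 54, 60, 64, 72, 75, 80, 81, 90, 96, 100, 108, 120, 125, 128, 135, 144, 150, 160, 162, 180, 192, 200, 216, 225, 240, 243]),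
  (260, 54, 2, 5, [2, 5]),
  (383, 4, 13, 75, [2, 3, 4, 5, 6, 8, 9, 10, 12, 15, 16, 18, 20, 24, 25, 27, 30, 32, 36, 40, 45, 48, 50, 54, 60, 64, 72, 75]),
  (290, 10, 10, 30, [2, 3, 4, 5, 6, 8, 9, 10, 12, 15, 16, 18, 20, 24, 25, 27, 30]),
  (468, 8, 10, 36, [2, 3, 4, 5, 6, 8, 9, 10, 12, 15, 16, 18, 20, 24, 25, 27, 30, 32, 36]),
  (1122, 30, 3, 9, [3, 4, 9]), (627, 3, 2, 81, [16, 81]), (1938, 75, 3, 4, [2, 3, 4]),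
  (366, 16, 2, 16, [3, 16]), (920, 25, 6, 12, [2, 3, 4, 5, 6, 8, 9, 10, 12]),
  (720, 27, 5, 9, [2, 3, 4, 5, 6, 8, 9]), (674, 18, 6, 15, [2, 3, 4, 5, 6, 8, 9, 10, 12, 15]),
  (838, 32, 5, 9, [2, 3, 4, 5, 6, 8, 9]), (2035, 1, 2, 125, [48, 125]),
  (208, 16, 3, 8, [3, 5, 8]), (1157, 3, 2, 45, [16, 45]), (627, 3, 2, 27, [16, 27]),
  (1201, 12, 2, 4, [3, 4]), (208, 6, 7, 18, [2, 3, 4, 5, 6, 8, 9, 10, 12, 15, 16, 18]),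
  (728, 20, 6, 15, [2, 3, 4, 5, 6, 8, 9, 10, 12, 15]),
  (82, 5, 11, 45, [2, 3, 4, 5, 6, 8, 9, 10, 12, 15, 16, 18, 20, 24, 25, 27, 30, 32, 36, 40, 45]),
  (1370, 12, 2, 6, [4, 6]), (652, 27, 3, 9, [3, 5, 9]),
  (670, 15, 6, 15, [2, 3, 4, 5, 6, 8, 9, 10, 12, 15]), (858, 54, 3, 5, [2, 4, 5]),
  (1656, 48, 4, 6, [2, 3, 4, 5, 6]), (1644, 5, 2, 50, [25, 50]),
  (177, 3, 15, 96, [2, 3, 4, 5, 6, 8, 9, 10, 12, 15, 16, 18, 20, 24, 25, 27, 30, 32, 36, 40, 45, 48, 50, 54, 60, 64, 72, 75, 80, 81, 90, 96]),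
  (523, 9, 10, 32, [2, 3, 4, 5, 6, 8, 9, 10, 12, 15, 16, 18, 20, 24, 25, 27, 30, 32]),
  (256, 30, 2, 9, [3, 9]), (391, 16, 7, 18, [2, 3, 4, 5, 6, 8, 9, 10, 12, 15, 16, 18]),
  (317, 6, 11, 48, [2, 3, 4, 5, 6, 8, 9, 10, 12, 15, 16, 18, 20, 24, 25, 27, 30, 32, 36, 40, 45, 48]),
  (75, 30, 3, 9, [3, 6, 9]), (2184, 81, 2, 3, [2, 3]), (1213, 40, 3, 5, [2, 4, 5]),
  (208, 64, 3, 4, [2, 3, 4]), (2098, 64, 2, 4, [2, 4]),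
  (157, 12, 7, 18, [2, 3, 4, 5, 6, 8, 9, 10, 12, 15, 16, 18]), (319, 36, 4, 6, [2, 3, 4, 5, 6]),
  (201, 5, 13, 60, [2, 3, 4, 5, 6, 8, 9, 10, 12, 15, 16, 18, 20, 24, 25, 27, 30, 32, 36, 40, 45, 48, 50, 54, 60]),
  (1697, 10, 2, 25, [10, 25]), (613, 16, 2, 5, [3, 5]), (17, 40, 2, 5, [2, 5]),
  (287, 2, 18, 150, [2, 3, 4, 5, 6, 8, 9, 10, 12, 15, 16, 18, 20, 24, 25, 27, 30, 32, 36, 40, 45, 48, 50, 54, 60, 64, 72, 75, 80, 81, 90, 96, 100, 108, 120, 125, 128, 135, 144, 150]),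
  (329, 15, 2, 9, [5, 9]), (372, 15, 3, 15, [5, 9, 15])]

def leaf12 : List Row := [
  (995, 100, 2, 3, [2, 3]),
  (190, 1, 20, 243, [2, 3, 4, 5, 6, 8, 9, 10, 12, 15, 16, 18, 20, 24, 25, 27, 30, 32, 36, 40, 45, 48, 50, 54, 60, 64, 72, 75, 80, 81, 90, 96, 100, 108, 120, 125, 128, 135, 144, 150, 160, 162, 180, 192, 200, 216, 225, 240, 243]),
  (295, 40, 3, 4, [2, 3, 4]),
  (380, 4, 13, 75, [2, 3, 4, 5, 6, 8, 9, 10, 12, 15, 16, 18, 20, 24, 25, 27, 30, 32, 36, 40, 45, 48, 50, 54, 60, 64, 72, 75]),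
  (378, 10, 10, 30, [2, 3, 4, 5, 6, 8, 9, 10, 12, 15, 16, 18, 20, 24, 25, 27, 30]),
  (465, 8, 10, 36, [2, 3, 4, 5, 6, 8, 9, 10, 12, 15, 16, 18, 20, 24, 25, 27, 30, 32, 36]),
  (195, 30, 3, 9, [3, 4, 9]), (246, 36, 3, 5, [2, 3, 5]), (738, 3, 2, 81, [16, 81]),
  (942, 75, 3, 4, [2, 3, 4]), (190, 16, 2, 16, [3, 16]),
  (927, 25, 6, 12, [2, 3, 4, 5, 6, 8, 9, 10, 12]), (683, 27, 5, 9, [2, 3, 4, 5, 6, 8, 9]),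
  (658, 18, 6, 15, [2, 3, 4, 5, 6, 8, 9, 10, 12, 15]), (817, 32, 5, 9, [2, 3, 4, 5, 6, 8, 9]),
  (1425, 1, 2, 125, [48, 125]), (330, 3, 2, 45, [16, 45]), (520, 3, 2, 27, [16, 27]),
  (1118, 12, 2, 4, [3, 4]), (359, 40, 2, 4, [2, 4]),
  (719, 20, 6, 15, [2, 3, 4, 5, 6, 8, 9, 10, 12, 15]), (200, 30, 4, 10, [3, 5, 9, 10]),
  (1192, 12, 2, 6, [4, 6]), (638, 27, 3, 9, [3, 5, 9]),
  (565, 15, 6, 15, [2, 3, 4, 5, 6, 8, 9, 10, 12, 15]), (974, 54, 3, 5, [2, 4, 5]),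
  (1583, 48, 4, 6, [2, 3, 4, 5, 6]), (2284, 5, 2, 50, [25, 50]),
  (233, 3, 15, 96, [2, 3, 4, 5, 6, 8, 9, 10, 12, 15, 16, 18, 20, 24, 25, 27, 30, 32, 36, 40, 45, 48, 50, 54, 60, 64, 72, 75, 80, 81, 90, 96]),
  (392, 9, 10, 32, [2, 3, 4, 5, 6, 8, 9, 10, 12, 15, 16, 18, 20, 24, 25, 27, 30, 32]),
  (407, 30, 2, 9, [3, 9]), (452, 16, 7, 18, [2, 3, 4, 5, 6, 8, 9, 10, 12, 15, 16, 18]),
  (433, 6, 11, 48, [2, 3, 4, 5, 6, 8, 9, 10, 12, 15, 16, 18, 20, 24, 25, 27, 30, 32, 36, 40, 45, 48]),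
  (1577, 15, 2, 15, [9, 15]), (2166, 81, 2, 3, [2, 3]), (2450, 64, 2, 4, [2, 4]),
  (201, 12, 7, 18, [2, 3, 4, 5, 6, 8, 9, 10, 12, 15, 16, 18]), (146, 36, 4, 6, [2, 3, 4, 5, 6]),
  (214, 5, 13, 60, [2, 3, 4, 5, 6, 8, 9, 10, 12, 15, 16, 18, 20, 24, 25, 27, 30, 32, 36, 40, 45, 48, 50, 54, 60]),
  (952, 10, 2, 25, [10, 25]), (817, 16, 2, 5, [3, 5]), (487, 40, 4, 6, [2, 3, 4, 5, 6]),
  (285, 2, 18, 150, [2, 3, 4, 5, 6, 8, 9, 10, 12, 15, 16, 18, 20, 24, 25, 27, 30, 32, 36, 40, 45, 48, 50, 54, 60, 64, 72, 75, 80, 81, 90, 96, 100, 108, 120, 125, 128, 135, 144, 150]),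
  (672, 30, 3, 9, [3, 5, 9]), (218, 9, 6, 15, [2, 3, 4, 5, 6, 8, 9, 10, 12, 15])]

def leaf13 : List Row := [
  (3265, 5, 2, 25, [9, 25]),
  (265, 1, 20, 243, [2, 3, 4, 5, 6, 8, 9, 10, 12, 15, 16, 18, 20, 24, 25, 27, 30, 32, 36, 40, 45, 48, 50, 54, 60, 64, 72, 75, 80, 81, 90, 96, 100, 108, 120, 125, 128, 135, 144, 150, 160, 162, 180, 192, 200, 216, 225, 240, 243]),
  (13, 12, 5, 16, [2, 3, 8, 9, 16]),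
  (374, 4, 13, 75, [2, 3, 4, 5, 6, 8, 9, 10, 12, 15, 16, 18, 20, 24, 25, 27, 30, 32, 36, 40, 45, 48, 50, 54, 60, 64, 72, 75]),
  (773, 18, 3, 6, [2, 3, 6]), (763, 27, 2, 9, [2, 9]),
  (386, 8, 10, 36, [2, 3, 4, 5, 6, 8, 9, 10, 12, 15, 16, 18, 20, 24, 25, 27, 30, 32, 36]),
  (78, 54, 4, 5, [2, 3, 4, 5]),
  (334, 3, 13, 75, [2, 3, 4, 5, 6, 8, 9, 10, 12, 15, 16, 18, 20, 24, 25, 27, 30, 32, 36, 40, 45, 48, 50, 54, 60, 64, 72, 75]),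
  (122, 10, 5, 25, [3, 8, 10, 15, 25]), (265, 16, 2, 16, [6, 16]), (2726, 9, 2, 5, [4, 5]),
  (1227, 75, 2, 4, [2, 4]), (463, 12, 8, 24, [2, 3, 4, 5, 6, 8, 9, 10, 12, 15, 16, 18, 20, 24]),
  (770, 25, 6, 12, [2, 3, 4, 5, 6, 8, 9, 10, 12]), (495, 27, 5, 9, [2, 3, 4, 5, 6, 8, 9]),
  (789, 32, 5, 9, [2, 3, 4, 5, 6, 8, 9]), (145, 24, 4, 12, [3, 4, 8, 12]),
  (106, 10, 10, 30, [2, 3, 4, 5, 6, 8, 9, 10, 12, 15, 16, 18, 20, 24, 25, 27, 30]),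
  (126, 6, 5, 9, [2, 3, 4, 5, 6, 8, 9]), (98, 40, 2, 4, [2, 4]),
  (788, 20, 6, 15, [2, 3, 4, 5, 6, 8, 9, 10, 12, 15]), (837, 5, 2, 50, [9, 50]),
  (429, 9, 5, 9, [2, 3, 4, 5, 6, 8, 9]), (1181, 50, 4, 6, [2, 3, 4, 5, 6]),
  (75, 5, 10, 36, [2, 3, 4, 5, 6, 8, 9, 10, 12, 15, 16, 18, 20, 24, 25, 27, 30, 32, 36]),
  (889, 40, 4, 6, [2, 3, 4, 5, 6]), (144, 30, 4, 10, [4, 5, 8, 10]),
  (186, 25, 3, 10, [3, 5, 10]), (411, 10, 5, 25, [3, 8, 10, 16, 25]),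
  (666, 10, 3, 25, [8, 10, 25]), (479, 25, 2, 10, [5, 10]), (396, 45, 3, 6, [3, 5, 6]),
  (578, 16, 7, 18, [2, 3, 4, 5, 6, 8, 9, 10, 12, 15, 16, 18]), (2183, 15, 3, 5, [2, 3, 5]),
  (339, 18, 6, 15, [2, 3, 4, 5, 6, 8, 9, 10, 12, 15]), (2882, 81, 2, 3, [2, 3]),
  (3275, 45, 4, 6, [2, 3, 4, 5, 6]), (323, 64, 3, 4, [2, 3, 4]), (1720, 64, 2, 4, [2, 4]),
  (323, 8, 3, 32, [16, 24, 32]), (400, 24, 6, 12, [2, 3, 4, 5, 6, 8, 9, 10, 12]),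
  (381, 3, 3, 32, [12, 15, 32]), (1259, 36, 5, 8, [2, 3, 4, 5, 6, 8]), (200, 45, 2, 6, [3, 6]),
  (635, 27, 3, 9, [2, 3, 9]),
  (281, 2, 18, 150, [2, 3, 4, 5, 6, 8, 9, 10, 12, 15, 16, 18, 20, 24, 25, 27, 30, 32, 36, 40, 45, 48, 50, 54, 60, 64, 72, 75, 80, 81, 90, 96, 100, 108, 120, 125, 128, 135, 144, 150]),
  (366, 6, 11, 48, [2, 3, 4, 5, 6, 8, 9, 10, 12, 15, 16, 18, 20, 24, 25, 27, 30, 32, 36, 40, 45, 48]),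
  (169, 30, 3, 10, [4, 5, 10])]

def leaf14 : List Row := [
  (3625, 5, 2, 25, [9, 25]),
  (252, 1, 20, 243, [2, 3, 4, 5, 6, 8, 9, 10, 12, 15, 16, 18, 20, 24, 25, 27, 30, 32, 36, 40, 45, 48, 50, 54, 60, 64, 72, 75, 80, 81, 90, 96, 100, 108, 120, 125, 128, 135, 144, 150, 160, 162, 180, 192, 200, 216, 225, 240, 243]),
  (116, 9, 7, 18, [2, 3, 4, 5, 6, 8, 9, 10, 12, 15, 16, 18]),
  (376, 4, 13, 75, [2, 3, 4, 5, 6, 8, 9, 10, 12, 15, 16, 18, 20, 24, 25, 27, 30, 32, 36, 40, 45, 48, 50, 54, 60, 64, 72, 75]),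
  (130, 9, 2, 12, [5, 12]), (545, 54, 4, 5, [2, 3, 4, 5]),
  (459, 8, 10, 36, [2, 3, 4, 5, 6, 8, 9, 10, 12, 15, 16, 18, 20, 24, 25, 27, 30, 32, 36]),
  (207, 18, 6, 15, [2, 3, 4, 5, 6, 8, 9, 10, 12, 15]),
  (228, 3, 13, 75, [2, 3, 4, 5, 6, 8, 9, 10, 12, 15, 16, 18, 20, 24, 25, 27, 30, 32, 36, 40, 45, 48, 50, 54, 60, 64, 72, 75]),
  (288, 96, 2, 3, [2, 3]), (133, 50, 2, 5, [2, 5]), (1791, 9, 2, 27, [5, 27]),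
  (350, 75, 3, 4, [2, 3, 4]), (601, 75, 2, 4, [2, 4]),
  (335, 12, 8, 24, [2, 3, 4, 5, 6, 8, 9, 10, 12, 15, 16, 18, 20, 24]),
  (906, 25, 6, 12, [2, 3, 4, 5, 6, 8, 9, 10, 12]), (1052, 27, 5, 9, [2, 3, 4, 5, 6, 8, 9]),
  (765, 32, 5, 9, [2, 3, 4, 5, 6, 8, 9]),
  (146, 3, 15, 96, [2, 3, 4, 5, 6, 8, 9, 10, 12, 15, 16, 18, 20, 24, 25, 27, 30, 32, 36, 40, 45, 48, 50, 54, 60, 64, 72, 75, 80, 81, 90, 96]),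
  (251, 10, 10, 30, [2, 3, 4, 5, 6, 8, 9, 10, 12, 15, 16, 18, 20, 24, 25, 27, 30]),
  (620, 18, 5, 16, [3, 4, 6, 8, 16]), (594, 40, 2, 4, [2, 4]),
  (772, 20, 6, 15, [2, 3, 4, 5, 6, 8, 9, 10, 12, 15]), (1163, 5, 2, 50, [9, 50]),
  (207, 24, 3, 8, [3, 4, 8]), (38, 30, 4, 10, [5, 8, 9, 10]), (1065, 50, 4, 6, [2, 3, 4, 5, 6]),
  (21, 10, 6, 15, [2, 3, 4, 5, 6, 8, 9, 10, 12, 15]), (678, 40, 4, 6, [2, 3, 4, 5, 6]),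
  (86, 10, 5, 25, [3, 8, 10, 15, 25]), (1359, 9, 2, 9, [5, 9]), (239, 10, 3, 25, [3, 10, 25]),
  (658, 10, 3, 25, [8, 10, 25]), (257, 25, 2, 10, [5, 10]), (122, 45, 3, 6, [3, 5, 6]),
  (612, 16, 7, 18, [2, 3, 4, 5, 6, 8, 9, 10, 12, 15, 16, 18]), (2207, 15, 3, 5, [2, 3, 5]),
  (250, 12, 5, 16, [6, 8, 9, 12, 16]), (1798, 81, 2, 3, [2, 3]),
  (3035, 45, 4, 6, [2, 3, 4, 5, 6]), (2295, 64, 2, 4, [2, 4]),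
  (427, 24, 6, 12, [2, 3, 4, 5, 6, 8, 9, 10, 12]), (317, 72, 3, 4, [2, 3, 4]),
  (252, 1, 2, 256, [45, 256]), (88, 9, 6, 15, [2, 3, 4, 5, 6, 8, 9, 10, 12, 15]),
  (282, 2, 18, 150, [2, 3, 4, 5, 6, 8, 9, 10, 12, 15, 16, 18, 20, 24, 25, 27, 30, 32, 36, 40, 45, 48, 50, 54, 60, 64, 72, 75, 80, 81, 90, 96, 100, 108, 120, 125, 128, 135, 144, 150]),
  (413, 6, 11, 48, [2, 3, 4, 5, 6, 8, 9, 10, 12, 15, 16, 18, 20, 24, 25, 27, 30, 32, 36, 40, 45, 48]),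
  (400, 30, 3, 10, [4, 5, 10])]

def leaf15 : List Row := [
  (805, 15, 2, 15, [9, 15]),
  (752, 1, 20, 243, [2, 3, 4, 5, 6, 8, 9, 10, 12, 15, 16, 18, 20, 24, 25, 27, 30, 32, 36, 40, 45, 48, 50, 54, 60, 64, 72, 75, 80, 81, 90, 96, 100, 108, 120, 125, 128, 135, 144, 150, 160, 162, 180, 192, 200, 216, 225, 240, 243]),
  (254, 3, 15, 96, [2, 3, 4, 5, 6, 8, 9, 10, 12, 15, 16, 18, 20, 24, 25, 27, 30, 32, 36, 40, 45, 48, 50, 54, 60, 64, 72, 75, 80, 81, 90, 96]),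
  (336, 4, 13, 75, [2, 3, 4, 5, 6, 8, 9, 10, 12, 15, 16, 18, 20, 24, 25, 27, 30, 32, 36, 40, 45, 48, 50, 54, 60, 64, 72, 75]),
  (425, 10, 10, 30, [2, 3, 4, 5, 6, 8, 9, 10, 12, 15, 16, 18, 20, 24, 25, 27, 30]),
  (343, 6, 3, 9, [4, 6, 9]),
  (210, 8, 10, 36, [2, 3, 4, 5, 6, 8, 9, 10, 12, 15, 16, 18, 20, 24, 25, 27, 30, 32, 36]),
  (55, 18, 3, 15, [2, 3, 15]), (613, 30, 3, 10, [3, 9, 10]), (750, 54, 2, 5, [2, 5]),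
  (448, 9, 10, 32, [2, 3, 4, 5, 6, 8, 9, 10, 12, 15, 16, 18, 20, 24, 25, 27, 30, 32]),
  (338, 12, 4, 24, [2, 3, 15, 24]), (1253, 75, 3, 4, [2, 3, 4]), (78, 54, 3, 5, [2, 3, 5]),
  (402, 30, 3, 9, [3, 6, 9]), (816, 25, 6, 12, [2, 3, 4, 5, 6, 8, 9, 10, 12]),
  (503, 15, 7, 18, [2, 3, 4, 5, 6, 8, 9, 10, 12, 15, 16, 18]),
  (559, 18, 6, 15, [2, 3, 4, 5, 6, 8, 9, 10, 12, 15]), (720, 32, 5, 9, [2, 3, 4, 5, 6, 8, 9]),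
  (61, 30, 4, 10, [3, 5, 9, 10]), (132, 20, 3, 5, [2, 4, 5]), (1043, 50, 2, 5, [2, 5]),
  (287, 24, 4, 12, [3, 4, 8, 12]), (560, 20, 6, 15, [2, 3, 4, 5, 6, 8, 9, 10, 12, 15]),
  (141, 6, 5, 9, [2, 3, 4, 5, 6, 8, 9]), (514, 50, 4, 6, [2, 3, 4, 5, 6]),
  (289, 6, 6, 15, [2, 3, 4, 5, 6, 8, 9, 10, 12, 15]), (728, 3, 2, 45, [8, 45]),
  (34, 8, 8, 24, [2, 3, 4, 5, 6, 8, 9, 10, 12, 15, 16, 18, 20, 24]), (1781, 5, 2, 50, [25, 50]),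
  (272, 6, 5, 45, [4, 6, 9, 15, 45]), (1000, 12, 3, 9, [2, 3, 9]),
  (576, 16, 7, 18, [2, 3, 4, 5, 6, 8, 9, 10, 12, 15, 16, 18]), (199, 8, 3, 32, [3, 5, 32]),
  (965, 40, 3, 5, [2, 4, 5]), (2244, 81, 2, 3, [2, 3]), (158, 54, 3, 5, [2, 4, 5]),
  (2160, 64, 2, 4, [2, 4]), (1618, 24, 6, 12, [2, 3, 4, 5, 6, 8, 9, 10, 12]),
  (209, 5, 13, 60, [2, 3, 4, 5, 6, 8, 9, 10, 12, 15, 16, 18, 20, 24, 25, 27, 30, 32, 36, 40, 45, 48, 50, 54, 60]),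
  (889, 27, 3, 9, [3, 5, 9]), (588, 8, 3, 32, [3, 10, 32]),
  (252, 2, 18, 150, [2, 3, 4, 5, 6, 8, 9, 10, 12, 15, 16, 18, 20, 24, 25, 27, 30, 32, 36, 40, 45, 48, 50, 54, 60, 64, 72, 75, 80, 81, 90, 96, 100, 108, 120, 125, 128, 135, 144, 150]),
  (452, 27, 5, 9, [2, 3, 4, 5, 6, 8, 9])]

def leaf16 : List Row := [
  (2421, 5, 2, 25, [8, 25]), (807, 5, 2, 27, [25, 27]),
  (341, 3, 15, 96, [2, 3, 4, 5, 6, 8, 9, 10, 12, 15, 16, 18, 20, 24, 25, 27, 30, 32, 36, 40, 45, 48, 50, 54, 60, 64, 72, 75, 80, 81, 90, 96]),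
  (374, 4, 13, 75, [2, 3, 4, 5, 6, 8, 9, 10, 12, 15, 16, 18, 20, 24, 25, 27, 30, 32, 36, 40, 45, 48, 50, 54, 60, 64, 72, 75]),
  (582, 20, 2, 5, [2, 5]),
  (399, 8, 10, 36, [2, 3, 4, 5, 6, 8, 9, 10, 12, 15, 16, 18, 20, 24, 25, 27, 30, 32, 36]),
  (508, 36, 5, 8, [2, 3, 4, 5, 6, 8]), (921, 30, 3, 10, [3, 9, 10]), (399, 54, 2, 5, [2, 5]),
  (493, 9, 10, 32, [2, 3, 4, 5, 6, 8, 9, 10, 12, 15, 16, 18, 20, 24, 25, 27, 30, 32]),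
  (215, 10, 7, 18, [2, 3, 4, 5, 6, 8, 9, 10, 12, 15, 16, 18]), (1049, 75, 3, 4, [2, 3, 4]),
  (265, 8, 3, 32, [5, 9, 32]), (106, 40, 2, 4, [2, 4]),
  (946, 25, 6, 12, [2, 3, 4, 5, 6, 8, 9, 10, 12]), (226, 27, 5, 9, [2, 3, 4, 5, 6, 8, 9]),
  (649, 18, 6, 15, [2, 3, 4, 5, 6, 8, 9, 10, 12, 15]), (775, 32, 5, 9, [2, 3, 4, 5, 6, 8, 9]),
  (69, 30, 8, 10, [2, 3, 4, 5, 6, 8, 9, 10]),
  (265, 1, 20, 243, [2, 3, 4, 5, 6, 8, 9, 10, 12, 15, 16, 18, 20, 24, 25, 27, 30, 32, 36, 40, 45, 48, 50, 54, 60, 64, 72, 75, 80, 81, 90, 96, 100, 108, 120, 125, 128, 135, 144, 150, 160, 162, 180, 192, 200, 216, 225, 240, 243]),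
  (528, 10, 3, 25, [4, 9, 25]), (159, 20, 5, 9, [2, 3, 4, 5, 6, 8, 9]),
  (219, 20, 6, 15, [2, 3, 4, 5, 6, 8, 9, 10, 12, 15]), (556, 5, 3, 45, [8, 25, 45]),
  (443, 12, 4, 16, [6, 8, 12, 16]), (929, 50, 4, 6, [2, 3, 4, 5, 6]),
  (246, 15, 6, 15, [2, 3, 4, 5, 6, 8, 9, 10, 12, 15]), (726, 54, 3, 5, [2, 4, 5]),
  (333, 30, 3, 9, [3, 6, 9]), (2104, 10, 2, 25, [4, 25]), (62, 72, 2, 4, [2, 4]),
  (1584, 40, 4, 6, [2, 3, 4, 5, 6]), (860, 15, 3, 15, [5, 9, 15]),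
  (620, 16, 7, 18, [2, 3, 4, 5, 6, 8, 9, 10, 12, 15, 16, 18]), (173, 54, 4, 5, [2, 3, 4, 5]),
  (240, 15, 7, 18, [2, 3, 4, 5, 6, 8, 9, 10, 12, 15, 16, 18]), (2197, 81, 2, 3, [2, 3]),
  (43, 5, 11, 48, [2, 3, 4, 5, 6, 8, 9, 10, 12, 15, 16, 18, 20, 24, 25, 27, 30, 32, 36, 40, 45, 48]),
  (355, 12, 3, 16, [6, 8, 16]), (2325, 64, 2, 4, [2, 4]), (252, 50, 3, 6, [2, 5, 6]),
  (189, 12, 8, 24, [2, 3, 4, 5, 6, 8, 9, 10, 12, 15, 16, 18, 20, 24]),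
  (1518, 27, 3, 9, [3, 5, 9]), (775, 20, 3, 5, [2, 4, 5]), (582, 96, 2, 3, [2, 3]),
  (281, 2, 18, 150, [2, 3, 4, 5, 6, 8, 9, 10, 12, 15, 16, 18, 20, 24, 25, 27, 30, 32, 36, 40, 45, 48, 50, 54, 60, 64, 72, 75, 80, 81, 90, 96, 100, 108, 120, 125, 128, 135, 144, 150]),
  (415, 6, 11, 48, [2, 3, 4, 5, 6, 8, 9, 10, 12, 15, 16, 18, 20, 24, 25, 27, 30, 32, 36, 40, 45, 48])]

def leaf17 : List Row := [
  (573, 80, 2, 3, [2, 3]), (529, 20, 3, 8, [4, 5, 8]),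
  (341, 3, 15, 96, [2, 3, 4, 5, 6, 8, 9, 10, 12, 15, 16, 18, 20, 24, 25, 27, 30, 32, 36, 40, 45, 48, 50, 54, 60, 64, 72, 75, 80, 81, 90, 96]),
  (375, 4, 13, 75, [2, 3, 4, 5, 6, 8, 9, 10, 12, 15, 16, 18, 20, 24, 25, 27, 30, 32, 36, 40, 45, 48, 50, 54, 60, 64, 72, 75]),
  (392, 10, 10, 30, [2, 3, 4, 5, 6, 8, 9, 10, 12, 15, 16, 18, 20, 24, 25, 27, 30]),
  (418, 8, 10, 36, [2, 3, 4, 5, 6, 8, 9, 10, 12, 15, 16, 18, 20, 24, 25, 27, 30, 32, 36]),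
  (147, 8, 2, 32, [12, 32]), (1124, 50, 3, 5, [2, 4, 5]),
  (493, 9, 10, 32, [2, 3, 4, 5, 6, 8, 9, 10, 12, 15, 16, 18, 20, 24, 25, 27, 30, 32]),
  (347, 36, 5, 8, [2, 3, 4, 5, 6, 8]), (1196, 75, 3, 4, [2, 3, 4]),
  (276, 5, 13, 60, [2, 3, 4, 5, 6, 8, 9, 10, 12, 15, 16, 18, 20, 24, 25, 27, 30, 32, 36, 40, 45, 48, 50, 54, 60]),
  (699, 10, 2, 25, [8, 25]), (1261, 25, 6, 12, [2, 3, 4, 5, 6, 8, 9, 10, 12]),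
  (86, 27, 5, 9, [2, 3, 4, 5, 6, 8, 9]), (501, 18, 6, 15, [2, 3, 4, 5, 6, 8, 9, 10, 12, 15]),
  (772, 32, 5, 9, [2, 3, 4, 5, 6, 8, 9]), (399, 15, 3, 15, [6, 9, 15]),
  (206, 30, 3, 9, [3, 4, 9]), (435, 20, 6, 15, [2, 3, 4, 5, 6, 8, 9, 10, 12, 15]),
  (73, 8, 4, 32, [10, 16, 24, 32]),
  (259, 1, 20, 243, [2, 3, 4, 5, 6, 8, 9, 10, 12, 15, 16, 18, 20, 24, 25, 27, 30, 32, 36, 40, 45, 48, 50, 54, 60, 64, 72, 75, 80, 81, 90, 96, 100, 108, 120, 125, 128, 135, 144, 150, 160, 162, 180, 192, 200, 216, 225, 240, 243]),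
  (107, 50, 4, 6, [2, 3, 4, 5, 6]), (248, 18, 4, 6, [2, 3, 4, 5, 6]), (303, 54, 3, 5, [2, 4, 5]),
  (510, 15, 7, 18, [2, 3, 4, 5, 6, 8, 9, 10, 12, 15, 16, 18]), (113, 1, 2, 256, [125, 256]),
  (717, 30, 4, 10, [3, 4, 9, 10]), (900, 5, 2, 50, [25, 50]), (304, 15, 2, 15, [9, 15]),
  (618, 16, 7, 18, [2, 3, 4, 5, 6, 8, 9, 10, 12, 15, 16, 18]), (603, 54, 4, 5, [2, 3, 4, 5]),
  (570, 5, 2, 27, [25, 27]), (2059, 81, 2, 3, [2, 3]), (112, 20, 3, 10, [4, 8, 10]),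
  (370, 12, 3, 16, [6, 8, 16]), (2170, 64, 2, 4, [2, 4]), (73, 64, 3, 4, [2, 3, 4]),
  (204, 36, 4, 8, [2, 4, 6, 8]),
  (146, 12, 8, 24, [2, 3, 4, 5, 6, 8, 9, 10, 12, 15, 16, 18, 20, 24]),
  (1801, 27, 3, 9, [3, 5, 9]), (267, 12, 7, 18, [2, 3, 4, 5, 6, 8, 9, 10, 12, 15, 16, 18]),
  (629, 96, 2, 3, [2, 3]),
  (281, 2, 18, 150, [2, 3, 4, 5, 6, 8, 9, 10, 12, 15, 16, 18, 20, 24, 25, 27, 30, 32, 36, 40, 45, 48, 50, 54, 60, 64, 72, 75, 80, 81, 90, 96, 100, 108, 120, 125, 128, 135, 144, 150]),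
  (416, 6, 11, 48, [2, 3, 4, 5, 6, 8, 9, 10, 12, 15, 16, 18, 20, 24, 25, 27, 30, 32, 36, 40, 45, 48]),
  (374, 36, 3, 4, [2, 3, 4])]

def leaf18 : List Row := [
  (184, 80, 2, 3, [2, 3]), (152, 20, 3, 8, [4, 5, 8]),
  (342, 3, 15, 96, [2, 3, 4, 5, 6, 8, 9, 10, 12, 15, 16, 18, 20, 24, 25, 27, 30, 32, 36, 40, 45, 48, 50, 54, 60, 64, 72, 75, 80, 81, 90, 96]),
  (376, 4, 13, 75, [2, 3, 4, 5, 6, 8, 9, 10, 12, 15, 16, 18, 20, 24, 25, 27, 30, 32, 36, 40, 45, 48, 50, 54, 60, 64, 72, 75]),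
  (213, 10, 10, 30, [2, 3, 4, 5, 6, 8, 9, 10, 12, 15, 16, 18, 20, 24, 25, 27, 30]),
  (459, 8, 10, 36, [2, 3, 4, 5, 6, 8, 9, 10, 12, 15, 16, 18, 20, 24, 25, 27, 30, 32, 36]),
  (377, 5, 12, 50, [2, 3, 4, 5, 6, 8, 9, 10, 12, 15, 16, 18, 20, 24, 25, 27, 30, 32, 36, 40, 45, 48, 50]),
  (885, 50, 3, 5, [2, 4, 5]),
  (494, 9, 10, 32, [2, 3, 4, 5, 6, 8, 9, 10, 12, 15, 16, 18, 20, 24, 25, 27, 30, 32]),
  (110, 45, 4, 6, [2, 3, 4, 5, 6]), (1121, 75, 3, 4, [2, 3, 4]), (60, 100, 2, 3, [2, 3]),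
  (765, 10, 2, 25, [8, 25]), (1315, 25, 6, 12, [2, 3, 4, 5, 6, 8, 9, 10, 12]),
  (208, 27, 5, 9, [2, 3, 4, 5, 6, 8, 9]), (651, 18, 6, 15, [2, 3, 4, 5, 6, 8, 9, 10, 12, 15]),
  (765, 32, 5, 9, [2, 3, 4, 5, 6, 8, 9]), (193, 54, 2, 5, [2, 5]), (538, 15, 3, 15, [6, 9, 15]),
  (94, 12, 4, 16, [6, 8, 12, 16]), (647, 20, 6, 15, [2, 3, 4, 5, 6, 8, 9, 10, 12, 15]),
  (252, 1, 20, 243, [2, 3, 4, 5, 6, 8, 9, 10, 12, 15, 16, 18, 20, 24, 25, 27, 30, 32, 36, 40, 45, 48, 50, 54, 60, 64, 72, 75, 80, 81, 90, 96, 100, 108, 120, 125, 128, 135, 144, 150, 160, 162, 180, 192, 200, 216, 225, 240, 243]),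
  (175, 50, 4, 6, [2, 3, 4, 5, 6]), (232, 72, 3, 4, [2, 3, 4]), (785, 54, 3, 5, [2, 4, 5]),
  (492, 15, 7, 18, [2, 3, 4, 5, 6, 8, 9, 10, 12, 15, 16, 18]), (252, 1, 2, 256, [125, 256]),
  (796, 30, 4, 10, [3, 4, 9, 10]), (22, 15, 3, 9, [5, 6, 9]),
  (612, 16, 7, 18, [2, 3, 4, 5, 6, 8, 9, 10, 12, 15, 16, 18]), (211, 54, 4, 5, [2, 3, 4, 5]),
  (646, 5, 2, 27, [25, 27]), (2184, 81, 2, 3, [2, 3]), (722, 10, 3, 25, [8, 16, 25]),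
  (380, 12, 3, 16, [6, 8, 16]), (2295, 64, 2, 4, [2, 4]),
  (56, 30, 6, 10, [2, 3, 4, 5, 6, 8, 9, 10]),
  (333, 12, 8, 24, [2, 3, 4, 5, 6, 8, 9, 10, 12, 15, 16, 18, 20, 24]),
  (1560, 27, 3, 9, [3, 5, 9]), (307, 50, 2, 5, [2, 5]), (730, 96, 2, 3, [2, 3]),
  (282, 2, 18, 150, [2, 3, 4, 5, 6, 8, 9, 10, 12, 15, 16, 18, 20, 24, 25, 27, 30, 32, 36, 40, 45, 48, 50, 54, 60, 64, 72, 75, 80, 81, 90, 96, 100, 108, 120, 125, 128, 135, 144, 150]),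
  (416, 6, 11, 48, [2, 3, 4, 5, 6, 8, 9, 10, 12, 15, 16, 18, 20, 24, 25, 27, 30, 32, 36, 40, 45, 48]),
  (498, 36, 3, 4, [2, 3, 4])]

def cert300 : Cert :=
  Cert.node 60 (Cert.node 48 (Cert.node 64 (Cert.leaf leaf0) (Cert.leaf leaf1)) (Cert.node 40 (Cert.node 36 (Cert.leaf leaf2) (Cert.leaf leaf3)) (Cert.node 30 (Cert.leaf leaf4) (Cert.node 120 (Cert.leaf leaf5) (Cert.node 24 (Cert.leaf leaf6) (Cert.leaf leaf7)))))) (Cert.node 48 (Cert.node 24 (Cert.leaf leaf8) (Cert.node 45 (Cert.leaf leaf9) (Cert.node 50 (Cert.leaf leaf10) (Cert.node 75 (Cert.leaf leaf11) (Cert.leaf leaf12))))) (Cert.node 45 (Cert.node 36 (Cert.leaf leaf13) (Cert.leaf leaf14)) (Cert.node 24 (Cert.leaf leaf15) (Cert.node 40 (Cert.leaf leaf16) (Cert.node 36 (Cert.leaf leaf17) (Cert.leaf leaf18))))))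

theorem cert300_ok : chkCert 23 [] cert300 = true := by decide +kernel

theorem mx_six_320 (y : ℕ) (hy : y < 320) : mx (Sm 6 y) ≤ 22 := by
  obtain ⟨A, hA, hA2, hA3⟩ := exists_mx (Sm 6 y)
  rw [← hA3]
  have h := cert_sound 23 cert300 [] cert300_ok A hA2 (fun s hs => (mem_Sm.1 (hA hs)).1.1) ?_ ?_
  · omega
  · intro s hs
    have h1 := mem_Sm.1 (hA hs)
    rw [List.mem_toFinset]
    have h := S6_complete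
    rw [List.all_eq_true] at h
    have h3 := h s (List.mem_range.2 (by omega))
    simp only [Bool.or_eq_true, decide_eq_true_eq, Bool.not_eq_true', decide_eq_false_iff_not,
      List.contains_eq_mem] at h3
    rcases h3 with (h3 | h3) | h3
    · omega
    · exact absurd (Nat.mod_eq_zero_of_dvd (dvd_thirty_pow (by omega) h1.2 (by omega))) h3
    · exact h3
  · intro s b hsb
    simp at hsb

end Pool.Agent.Helper88.Div
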