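import Mathlib

set_option autoImplicit false

namespace Pool.Agent.Helper88.Div

/-- Admissible: no element of `A` divides two other distinct elements of `A`. -/
def Adm (A : Finset ℕ) : Prop :=
  ∀ a ∈ A, ∀ b ∈ A, ∀ d ∈ A, a ≠ b → a ≠ d → b ≠ d → ¬ (a ∣ b ∧ a ∣ d)

open Classical in
/-- The largest size of an admissible subset of `X`. -/
noncomputable def mx (X : Finset ℕ) : ℕ := (X.powerset.filter Adm).sup Finset.card

/-- `f(n)`: the largest size of an admissible subset of `{1,…,n}`. -/
noncomputable def f (n : ℕ) : ℕ := mx (Finset.Icc 1 n)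

end Pool.Agent.Helper88.Div
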