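import Pool.Agent.Helper88.DivEntries

set_option autoImplicit false

namespace Pool.Agent.Helper88.Div

open Finset Filter Topology

/-- `b` may belong to the set of the entry for some `y` -/
def keep (e : ℕ × ℕ × List ℕ × List ℕ) (b : ℕ) : Bool :=
  e.2.2.1.contains b || (decide (e.1 < 3 * b) && decide (b < e.2.1) && !(e.2.2.2.contains b))

/-- membership, fast in the kernel -/
def memb (b : ℕ) (l : List ℕ) : Bool :=
  List.rec (motive := fun _ => Bool) false (fun x _ ih => cond (Nat.beq b x) true ih) l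

def kept (lo hi : ℕ) (X R : List ℕ) (b : ℕ) : Bool :=
  cond (Nat.ble (Nat.mul 3 b) lo) (memb b X) (cond (Nat.ble hi b) false (not (memb b R)))

def kn (lo hi : ℕ) (X R : List ℕ) (b : ℕ) : ℕ := cond (kept lo hi X R b) 1 0

def okX (lo hi : ℕ) (X R : List ℕ) (l : List ℕ) : ℕ → Bool :=
  List.rec (motive := fun _ => ℕ → Bool) (fun _ => true) (fun x _ ih prev =>
    cond (Nat.ble x prev) false (cond (Nat.beq (Nat.mod (Nat.pow 30 24) x) 0)
      (cond (Nat.ble (Nat.mul 3 x) lo) (cond (Nat.ble hi (Nat.mul 7 x))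
        (cond (Nat.ble (Nat.add (kn lo hi X R (Nat.mul 2 x)) (Nat.add (kn lo hi X R (Nat.mul 3 x))
          (Nat.add (kn lo hi X R (Nat.mul 4 x)) (Nat.add (kn lo hi X R (Nat.mul 5 x))
            (kn lo hi X R (Nat.mul 6 x)))))) 1) (ih x) false) false) false) false)) l

def okEntry (e : ℕ × ℕ × List ℕ × List ℕ) : Bool := okX e.1 e.2.1 e.2.2.1 e.2.2.2 e.2.2.1 0

theorem memb_iff (b : ℕ) (l : List ℕ) : memb b l = true ↔ b ∈ l := by
  induction l with
  | nil => simp [memb]
  | cons x l ih =>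
    have h : memb b (x :: l) = cond (Nat.beq b x) true (memb b l) := rfl
    rw [h, List.mem_cons, ← ih]
    cases hb : Nat.beq b x with
    | true =>
      have := Nat.eq_of_beq_eq_true hb
      simp [this]
    | false =>
      have := Nat.ne_of_beq_eq_false hb
      simp [this]

theorem okX_cons (lo hi : ℕ) (X R : List ℕ) (x : ℕ) (l : List ℕ) (prev : ℕ)
    (h : okX lo hi X R (x :: l) prev = true) :
    prev < x ∧ 30 ^ 24 % x = 0 ∧ 3 * x ≤ lo ∧ hi ≤ 7 * x ∧
      kn lo hi X R (2 * x) + (kn lo hi X R (3 * x) + (kn lo hi X R (4 * x) + (kn lo hi X R (5 * x)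
        + kn lo hi X R (6 * x)))) ≤ 1 ∧ okX lo hi X R l x = true := by
  have h0 : okX lo hi X R (x :: l) prev = 
    cond (Nat.ble x prev) false (cond (Nat.beq (Nat.mod (Nat.pow 30 24) x) 0)
      (cond (Nat.ble (Nat.mul 3 x) lo) (cond (Nat.ble hi (Nat.mul 7 x))
        (cond (Nat.ble (Nat.add (kn lo hi X R (Nat.mul 2 x)) (Nat.add (kn lo hi X R (Nat.mul 3 x))
          (Nat.add (kn lo hi X R (Nat.mul 4 x)) (Nat.add (kn lo hi X R (Nat.mul 5 x))
            (kn lo hi X R (Nat.mul 6 x)))))) 1) (okX lo hi X R l x) false) false) false) false) := rfl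
  rw [h0] at h
  clear h0
  cases h1 : Nat.ble x prev with
  | true => rw [h1] at h; simp at h
  | false =>
    rw [h1] at h
    cases h2 : Nat.beq (Nat.mod (Nat.pow 30 24) x) 0 with
    | false => rw [h2] at h; simp at h
    | true =>
      rw [h2] at h
      cases h3 : Nat.ble (Nat.mul 3 x) lo with
      | false => rw [h3] at h; simp at h
      | true =>
        rw [h3] at h
        cases h4 : Nat.ble hi (Nat.mul 7 x) with
        | false => rw [h4] at h; simp at h
        | true =>
          rw [h4] at h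
          cases h5 : Nat.ble (Nat.add (kn lo hi X R (Nat.mul 2 x)) (Nat.add (kn lo hi X R (Nat.mul 3 x))
            (Nat.add (kn lo hi X R (Nat.mul 4 x)) (Nat.add (kn lo hi X R (Nat.mul 5 x))
            (kn lo hi X R (Nat.mul 6 x)))))) 1 with
          | false => rw [h5] at h; simp at h
          | true =>
            rw [h5] at h
            refine ⟨?_, Nat.eq_of_beq_eq_true h2, Nat.le_of_ble_eq_true h3, Nat.le_of_ble_eq_true h4,
              Nat.le_of_ble_eq_true h5, h⟩
            by_contra hcon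
            push Not at hcon
            have := Nat.ble_eq_true_of_le hcon
            rw [h1] at this
            exact Bool.noConfusion this

theorem okX_spec (lo hi : ℕ) (X R : List ℕ) (l : List ℕ) : ∀ prev, okX lo hi X R l prev = true →
    (l.Nodup ∧ ∀ x ∈ l, prev < x) ∧ ∀ x ∈ l, 1 ≤ x ∧ 30 ^ 24 % x = 0 ∧ 3 * x ≤ lo ∧ hi ≤ 7 * x ∧
      kn lo hi X R (2 * x) + (kn lo hi X R (3 * x) + (kn lo hi X R (4 * x) + (kn lo hi X R (5 * x)
        + kn lo hi X R (6 * x)))) ≤ 1 := by
  induction l with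
  | nil => intro prev _; simp
  | cons x l ih =>
    intro prev h
    obtain ⟨h1, h2, h3, h4, h5, h6⟩ := okX_cons lo hi X R x l prev h
    obtain ⟨⟨i1, i2⟩, i3⟩ := ih x h6
    refine ⟨⟨List.nodup_cons.2 ⟨fun hx => absurd (i2 x hx) (lt_irrefl _), i1⟩, fun z hz => ?_⟩, fun z hz => ?_⟩
    · rcases List.mem_cons.1 hz with rfl | hz
      · exact h1
      · exact h1.trans (i2 z hz)
    · rcases List.mem_cons.1 hz with rfl | hz
      · exact ⟨by omega, h2, h3, h4, h5⟩
      · exact i3 z hz

/-- the `5`-smooth integers in `(y/3, y]` -/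
noncomputable def bs (y : ℕ) : Finset ℕ := (Sm 6 y).filter (fun s => y < 3 * s)

open Classical in
/-- the modified set -/
noncomputable def TT (e : ℕ × ℕ × List ℕ × List ℕ) (y : ℕ) : Finset ℕ :=
  (bs y \ e.2.2.2.toFinset) ∪ e.2.2.1.toFinset

theorem okEntry_spec {e : ℕ × ℕ × List ℕ × List ℕ} (h : okEntry e = true) :
    e.2.2.1.Nodup ∧ ∀ x ∈ e.2.2.1, 1 ≤ x ∧ ro 6 x = 1 ∧ 3 * x ≤ e.1 ∧ e.2.1 ≤ 7 * x ∧
      [2, 3, 4, 5, 6].countP (fun k => keep e (k * x)) ≤ 1 := by
  obtain ⟨⟨h1, _⟩, h2⟩ := okX_spec e.1 e.2.1 e.2.2.1 e.2.2.2 e.2.2.1 0 h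
  refine ⟨h1, fun x hx => ?_⟩
  obtain ⟨h3, h4, h5, h6, h7⟩ := h2 x hx
  refine ⟨h3, ro_six_of_dvd (k := 24) (Nat.dvd_of_mod_eq_zero h4), h5, h6, ?_⟩
  have key : ∀ b, (if keep e b = true then 1 else 0) ≤ kn e.1 e.2.1 e.2.2.1 e.2.2.2 b := by
    intro b
    split_ifs with hb
    · have : kept e.1 e.2.1 e.2.2.1 e.2.2.2 b = true := by
        unfold keep at hb
        rw [Bool.or_eq_true, Bool.and_eq_true, Bool.and_eq_true, decide_eq_true_eq, decide_eq_true_eq,
          Bool.not_eq_true', List.contains_eq_mem, List.contains_eq_mem, decide_eq_true_eq,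
          decide_eq_false_iff_not] at hb
        unfold kept
        rcases hb with hb | ⟨⟨hb1, hb2⟩, hb3⟩
        · have h8 := (h2 b hb).2.2.1
          have h9 : Nat.ble (Nat.mul 3 b) e.1 = true := Nat.ble_eq_true_of_le h8
          rw [h9]
          exact (memb_iff b _).2 hb
        · have h9 : Nat.ble (Nat.mul 3 b) e.1 = false := by
            cases h10 : Nat.ble (Nat.mul 3 b) e.1 with
            | false => rfl
            | true =>
              have h11 : 3 * b ≤ e.1 := Nat.le_of_ble_eq_true h10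
              omega
          have h10 : Nat.ble e.2.1 b = false := by
            cases h10 : Nat.ble e.2.1 b with
            | false => rfl
            | true =>
              have h11 : e.2.1 ≤ b := Nat.le_of_ble_eq_true h10
              omega
          have h11 : memb b e.2.2.2 = false := by
            cases h12 : memb b e.2.2.2 with
            | false => rfl
            | true => exact absurd ((memb_iff b _).1 h12) hb3
          rw [h9, h10, h11]
          rfl
      unfold kn
      rw [this]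
      exact le_refl 1
    · exact Nat.zero_le _
  simp only [List.countP_cons, List.countP_nil]
  have k2 := key (2 * x)
  have k3 := key (3 * x)
  have k4 := key (4 * x)
  have k5 := key (5 * x)
  have k6 := key (6 * x)
  omega

theorem mem_bs {y s : ℕ} : s ∈ bs y ↔ ((1 ≤ s ∧ s ≤ y) ∧ ro 6 s = 1) ∧ y < 3 * s := by
  unfold bs
  rw [Finset.mem_filter, mem_Sm]

theorem mem_TT {e : ℕ × ℕ × List ℕ × List ℕ} {y s : ℕ} :
    s ∈ TT e y ↔ (s ∈ bs y ∧ s ∉ e.2.2.2) ∨ s ∈ e.2.2.1 := by
  unfold TT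
  rw [Finset.mem_union, Finset.mem_sdiff, List.mem_toFinset, List.mem_toFinset]

theorem TT_sub {e : ℕ × ℕ × List ℕ × List ℕ} (h : okEntry e = true) {y : ℕ} (h1 : e.1 ≤ y) :
    TT e y ⊆ Sm 6 y := by
  intro s hs
  rw [mem_TT] at hs
  rw [mem_Sm]
  rcases hs with hs | hs
  · exact (mem_bs.1 hs.1).1
  · have := (okEntry_spec h).2 s hs
    exact ⟨⟨this.1, by omega⟩, this.2.1⟩

theorem TT_window {e : ℕ × ℕ × List ℕ × List ℕ} (h : okEntry e = true) {y : ℕ}
    (h2 : y < e.2.1) : ∀ s ∈ TT e y, y < 7 * s := by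
  intro s hs
  rw [mem_TT] at hs
  rcases hs with hs | hs
  · have := (mem_bs.1 hs.1).2; omega
  · have := (okEntry_spec h).2 s hs
    omega

theorem keep_of_mem {e : ℕ × ℕ × List ℕ × List ℕ} {y b : ℕ} (h1 : e.1 ≤ y) (h2 : y < e.2.1)
    (hb : b ∈ TT e y) : keep e b = true := by
  rw [mem_TT] at hb
  unfold keep
  rcases hb with hb | hb
  · have := mem_bs.1 hb.1
    have h3 : e.1 < 3 * b := by omega
    have h4 : b < e.2.1 := by omega
    simp [h3, h4, hb.2]
  · simp [hb]

theorem two_le_countP {l : List ℕ} (p : ℕ → Bool) {i j : ℕ} (hi : i ∈ l) (hj : j ∈ l)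
    (hij : i ≠ j) (pi : p i = true) (pj : p j = true) : 2 ≤ l.countP p := by
  rw [List.countP_eq_length_filter]
  have h1 : i ∈ l.filter p := List.mem_filter.2 ⟨hi, pi⟩
  have h2 : j ∈ l.filter p := List.mem_filter.2 ⟨hj, pj⟩
  have h3 : ({i, j} : Finset ℕ) ⊆ (l.filter p).toFinset := by
    intro x hx
    rw [Finset.mem_insert, Finset.mem_singleton] at hx
    rw [List.mem_toFinset]
    rcases hx with rfl | rfl
    · exact h1
    · exact h2
  have h4 := Finset.card_le_card h3
  rw [Finset.card_pair hij] at h4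
  exact h4.trans (List.toFinset_card_le _)

theorem TT_adm {e : ℕ × ℕ × List ℕ × List ℕ} (h : okEntry e = true) {y : ℕ} (h1 : e.1 ≤ y)
    (h2 : y < e.2.1) : Adm (TT e y) := by
  intro a ha b hb d hd hab had hbd hdiv
  have hsub := TT_sub h h1
  have ha0 := (mem_Sm.1 (hsub ha)).1
  have hb0 := (mem_Sm.1 (hsub hb)).1
  have hd0 := (mem_Sm.1 (hsub hd)).1
  obtain ⟨⟨k, hk⟩, ⟨l, hl⟩⟩ := hdiv
  have hk2 : 2 ≤ k := by
    by_contra hcon
    have : k = 0 ∨ k = 1 := by omega
    rcases this with rfl | rfl <;> omega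
  have hl2 : 2 ≤ l := by
    by_contra hcon
    have : l = 0 ∨ l = 1 := by omega
    rcases this with rfl | rfl <;> omega
  have hkl : k ≠ l := by rintro rfl; omega
  have hlt : ∀ m, a * m ≤ y → ∀ W, y < W * a → m < W := by
    intro m hm W hW
    by_contra hcon
    push Not at hcon
    have : W * a ≤ m * a := Nat.mul_le_mul_right _ hcon
    rw [mul_comm m a] at this
    omega
  rw [mem_TT] at ha
  rcases ha with ha | ha
  · have h3 := (mem_bs.1 ha.1).2
    have := hlt k (by omega) 3 h3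
    have := hlt l (by omega) 3 h3
    omega
  · have h3 := (okEntry_spec h).2 a ha
    have hk7 := hlt k (by omega) 7 (by omega)
    have hl7 := hlt l (by omega) 7 (by omega)
    have hmem : ∀ m, 2 ≤ m → m < 7 → m ∈ [2, 3, 4, 5, 6] := by
      intro m hm1 hm2
      simp only [List.mem_cons, List.not_mem_nil, or_false]
      omega
    have hkk := keep_of_mem h1 h2 hb
    have hll := keep_of_mem h1 h2 hd
    rw [hk, mul_comm] at hkk
    rw [hl, mul_comm] at hll
    have h4 := two_le_countP (fun k => keep e (k * a)) (hmem k hk2 hk7) (hmem l hl2 hl7) hkl hkk hll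
    omega

theorem TT_card {e : ℕ × ℕ × List ℕ × List ℕ} (h : okEntry e = true) {y : ℕ} (h1 : e.1 ≤ y) :
    (bs y).card + e.2.2.1.length ≤ (TT e y).card + e.2.2.2.length := by
  have hsp := okEntry_spec h
  unfold TT
  rw [Finset.card_union_of_disjoint]
  · rw [List.toFinset_card_of_nodup hsp.1]
    have h2 := Finset.le_card_sdiff e.2.2.2.toFinset (bs y)
    have h3 := List.toFinset_card_le e.2.2.2
    omega
  · rw [Finset.disjoint_left]
    intro x hx hx2
    rw [Finset.mem_sdiff] at hx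
    rw [List.mem_toFinset] at hx2
    have h3 := (mem_bs.1 hx.1).2
    have h4 := (hsp.2 x hx2).2.2.1
    omega

theorem bs_adm (y : ℕ) : Adm (bs y) := by
  intro a ha b hb d hd hab had hbd hdiv
  have ha0 := mem_bs.1 ha
  have hb0 := mem_bs.1 hb
  have hd0 := mem_bs.1 hd
  obtain ⟨⟨k, hk⟩, ⟨l, hl⟩⟩ := hdiv
  have hk2 : 2 ≤ k := by
    by_contra hcon
    have : k = 0 ∨ k = 1 := by omega
    rcases this with rfl | rfl <;> omega
  have hl2 : 2 ≤ l := by
    by_contra hcon
    have : l = 0 ∨ l = 1 := by omega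
    rcases this with rfl | rfl <;> omega
  have hkl : k ≠ l := by rintro rfl; omega
  have hlt : ∀ m, a * m ≤ y → m < 3 := by
    intro m hm
    by_contra hcon
    push Not at hcon
    have : 3 * a ≤ m * a := Nat.mul_le_mul_right _ hcon
    rw [mul_comm m a] at this
    omega
  have := hlt k (by omega)
  have := hlt l (by omega)
  omega

/-- pick the entry for `y` -/
noncomputable def pick : List (ℕ × ℕ × List ℕ × List ℕ) → ℕ → Finset ℕ
  | [], y => bs y
  | e :: E, y => if e.1 ≤ y ∧ y < e.2.1 then TT e y else pick E y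

/-- increasing, disjoint intervals, all entries fine -/
def okList : ℕ → List (ℕ × ℕ × List ℕ × List ℕ) → Bool
  | _, [] => true
  | t, e :: E => decide (t ≤ e.1) && decide (0 < e.1) && decide (e.1 ≤ e.2.1) && okEntry e && okList e.2.1 E

theorem pick_props (E : List (ℕ × ℕ × List ℕ × List ℕ)) : ∀ t, okList t E = true → ∀ y,
    pick E y ⊆ Sm 6 y ∧ Adm (pick E y) ∧ ∀ s ∈ pick E y, y < 7 * s := by
  induction E with
  | nil =>
    intro t _ y
    refine ⟨Finset.filter_subset _ _, bs_adm y, fun s hs => ?_⟩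
    have := (mem_bs.1 hs).2
    omega
  | cons e E ih =>
    intro t ht y
    simp only [okList, Bool.and_eq_true, decide_eq_true_eq] at ht
    obtain ⟨⟨_, he⟩, hE⟩ := ht
    unfold pick
    split_ifs with hc
    · exact ⟨TT_sub he hc.1, TT_adm he hc.1 hc.2, TT_window he hc.2⟩
    · exact ih _ hE y

/-- gain of an entry -/
def gn (e : ℕ × ℕ × List ℕ × List ℕ) : ℤ := (e.2.2.1.length : ℤ) - e.2.2.2.length

theorem sum_zero_of_lt (E : List (ℕ × ℕ × List ℕ × List ℕ)) : ∀ t, okList t E = true → ∀ y, y < t →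
    (E.map fun e => if e.1 ≤ y ∧ y < e.2.1 then gn e else 0).sum = 0 := by
  induction E with
  | nil => intro t _ y _; simp
  | cons e E ih =>
    intro t ht y hy
    simp only [okList, Bool.and_eq_true, decide_eq_true_eq] at ht
    obtain ⟨⟨⟨⟨h1, h0⟩, h2⟩, he⟩, hE⟩ := ht
    rw [List.map_cons, List.sum_cons, if_neg (by omega), ih _ hE y (by omega), add_zero]

theorem pick_card (E : List (ℕ × ℕ × List ℕ × List ℕ)) : ∀ t, okList t E = true → ∀ y,
    ((bs y).card : ℤ) + (E.map fun e => if e.1 ≤ y ∧ y < e.2.1 then gn e else 0).sum ≤ (pick E y).card := by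
  induction E with
  | nil => intro t _ y; simp [pick]
  | cons e E ih =>
    intro t ht y
    simp only [okList, Bool.and_eq_true, decide_eq_true_eq] at ht
    obtain ⟨⟨⟨⟨h1, h0⟩, h2⟩, he⟩, hE⟩ := ht
    rw [List.map_cons, List.sum_cons]
    unfold pick
    split_ifs with hc
    · rw [sum_zero_of_lt E _ hE y hc.2, add_zero]
      have := TT_card he hc.1
      unfold gn
      omega
    · rw [zero_add]
      exact ih _ hE y

theorem count_interval (K n lo hi : ℕ) (h0 : 0 < lo) (h : lo ≤ hi) :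
    ((Ro K n).filter (fun v => lo ≤ n / v ∧ n / v < hi)).card + (Ro K (n / hi)).card
      = (Ro K (n / lo)).card := by
  classical
  rw [← Finset.card_union_of_disjoint]
  · congr 1
    ext v
    rw [Finset.mem_union, Finset.mem_filter, mem_Ro, mem_Ro, mem_Ro]
    constructor
    · rintro (⟨⟨⟨h1, h2⟩, h3⟩, h4, h5⟩ | ⟨⟨h1, h2⟩, h3⟩)
      · refine ⟨⟨h1, ?_⟩, h3⟩
        rw [Nat.le_div_iff_mul_le (by omega)] at h4 ⊢
        rw [mul_comm]; exact h4
      · exact ⟨⟨h1, h2.trans (Nat.div_le_div_left h h0)⟩, h3⟩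
    · rintro ⟨⟨h1, h2⟩, h3⟩
      by_cases h4 : v ≤ n / hi
      · right
        exact ⟨⟨h1, h4⟩, h3⟩
      · left
        refine ⟨⟨⟨h1, h2.trans (Nat.div_le_self _ _)⟩, h3⟩, ?_, ?_⟩
        · rw [Nat.le_div_iff_mul_le (by omega)] at h2 ⊢
          rw [mul_comm]; exact h2
        · rw [Nat.le_div_iff_mul_le (by omega)] at h4
          rw [Nat.div_lt_iff_lt_mul (by omega), mul_comm]
          omega
  · rw [Finset.disjoint_left]
    intro v hv hv2
    rw [Finset.mem_filter] at hv
    rw [mem_Ro] at hv2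
    have h1 := hv2.1.2
    rw [Nat.le_div_iff_mul_le (by omega)] at h1
    have h2 := hv.2.2
    rw [Nat.div_lt_iff_lt_mul (by omega), mul_comm] at h2
    omega

theorem sum_bs (n : ℕ) : n ≤ ∑ v ∈ Ro 6 n, (bs (n / v)).card + n / 3 := by
  classical
  rw [← card_blocks (X := bs) (fun y => Finset.filter_subset _ _)]
  have h : Finset.Icc 1 n ⊆ blocks 6 n bs ∪ Finset.Icc 1 (n / 3) := by
    intro a ha
    rw [Finset.mem_Icc] at ha
    rw [Finset.mem_union, Finset.mem_Icc]
    by_cases h3 : a ≤ n / 3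
    · right; exact ⟨ha.1, h3⟩
    · left
      have h0 : a ≠ 0 := by omega
      have hr := ro_ne_zero 6 a h0
      rw [mem_blocks]
      refine ⟨ro 6 a, ?_, sm 6 a, ?_, sm_mul_ro 6 a h0⟩
      · rw [mem_Ro]
        exact ⟨⟨Nat.pos_of_ne_zero hr, (ro_le 6 a h0).trans ha.2⟩, sm_ro 6 a⟩
      · rw [mem_bs]
        refine ⟨⟨⟨Nat.pos_of_ne_zero (sm_ne_zero 6 a h0), ?_⟩, ro_sm 6 a⟩, ?_⟩
        · rw [Nat.le_div_iff_mul_le (Nat.pos_of_ne_zero hr), sm_mul_ro 6 a h0]
          exact ha.2
        · rw [Nat.div_lt_iff_lt_mul (Nat.pos_of_ne_zero hr), mul_assoc, sm_mul_ro 6 a h0]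
          rw [Nat.le_div_iff_mul_le (by norm_num)] at h3
          omega
  have h2 := (Finset.card_le_card h).trans (Finset.card_union_le _ _)
  simpa using h2

/-- the finite lower bound -/
theorem lower_list (E : List (ℕ × ℕ × List ℕ × List ℕ)) (t : ℕ) (hE : okList t E = true) (n : ℕ) :
    (n : ℤ) - (n / 3 : ℕ) + (E.map fun e => gn e * (((Ro 6 (n / e.1)).card : ℤ) - (Ro 6 (n / e.2.1)).card)).sum
      ≤ f n := by
  classical
  have h1 := lower 6 7 n (fun k hk0 hk => ?_) (pick E) (fun y => (pick_props E t hE y).1)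
    (fun y => (pick_props E t hE y).2.1) (fun y => (pick_props E t hE y).2.2)
  · have h2 : ∑ v ∈ Ro 6 n, (((bs (n / v)).card : ℤ)
        + (E.map fun e => if e.1 ≤ n / v ∧ n / v < e.2.1 then gn e else 0).sum)
        ≤ ∑ v ∈ Ro 6 n, ((pick E (n / v)).card : ℤ) :=
      Finset.sum_le_sum fun v _ => pick_card E t hE _
    rw [Finset.sum_add_distrib] at h2
    have h3 : ∑ v ∈ Ro 6 n, (E.map fun e => if e.1 ≤ n / v ∧ n / v < e.2.1 then gn e else 0).sum
        = (E.map fun e => gn e * (((Ro 6 (n / e.1)).card : ℤ) - (Ro 6 (n / e.2.1)).card)).sum := by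
      clear h1 h2
      induction E generalizing t with
      | nil => simp
      | cons e E ih =>
        simp only [okList, Bool.and_eq_true, decide_eq_true_eq] at hE
        obtain ⟨⟨⟨⟨h1, h0⟩, h2⟩, he⟩, hE⟩ := hE
        simp only [List.map_cons, List.sum_cons]
        rw [Finset.sum_add_distrib, ih _ hE]
        congr 1
        rw [← Finset.sum_filter, Finset.sum_const, nsmul_eq_mul, mul_comm]
        congr 1
        have := count_interval 6 n e.1 e.2.1 h0 h2
        omega
    rw [h3] at h2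
    have h4 := sum_bs n
    have h5 : ((∑ v ∈ Ro 6 n, (pick E (n / v)).card : ℕ) : ℤ) ≤ f n := by
      unfold f; exact_mod_cast h1
    have h6 : (n : ℤ) ≤ ∑ v ∈ Ro 6 n, ((bs (n / v)).card : ℤ) + ((n / 3 : ℕ) : ℤ) := by exact_mod_cast h4
    push_cast at h5
    push_cast at h6
    push_cast
    omega
  · by_cases h6 : k < 6
    · exact ro_eq_one_of_lt 6 k h6
    · have : k = 6 := by omega
      subst this
      exact ro_six_of_dvd (k := 1) (by norm_num)

end Pool.Agent.Helper88.Div
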