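import Pool.Agent.Helper88.DivLower

set_option autoImplicit false

namespace Pool.Agent.Helper88.Div

open Finset Filter Topology

/-- scaled entry -/
def sc (k : ℕ) (e : ℕ × ℕ × List ℕ × List ℕ) : ℕ × ℕ × List ℕ × List ℕ :=
  (2 ^ k * e.1, 2 ^ k * e.2.1, e.2.2.1.map (fun x => 2 ^ k * x), e.2.2.2.map (fun x => 2 ^ k * x))

/-- the last octave -/
def octv : List (ℕ × ℕ × List ℕ × List ℕ) := ents.filter (fun e => decide (50000 ≤ e.1))

/-- all entries used -/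
def allEnts : List (ℕ × ℕ × List ℕ × List ℕ) :=
  ents ++ octv.map (sc 1) ++ octv.map (sc 2) ++ octv.map (sc 3) ++ octv.map (sc 4)

theorem allEnts_ok : okList 0 allEnts = true := by decide +kernel

theorem ents_sum : (67295 : ℚ) / 100000 <
    2 / 3 + 4 / 15 * (allEnts.map fun e : ℕ × ℕ × List ℕ × List ℕ => (gn e : ℚ) * ((e.1 : ℚ)⁻¹ - (e.2.1 : ℚ)⁻¹)).sum := by
  decide +kernel

theorem Q_six : Q 6 = 30 := by
  unfold Q
  have : (6 : ℕ).primesBelow = {2, 3, 5} := by decide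
  rw [this]; decide

theorem dens_six : dens 6 = 4 / 15 := by
  unfold dens
  rw [Q_six]
  have : Nat.totient 30 = 8 := by decide
  rw [this]; norm_num

theorem okList_pos (E : List (ℕ × ℕ × List ℕ × List ℕ)) : ∀ t, okList t E = true →
    ∀ e ∈ E, 0 < e.1 ∧ e.1 ≤ e.2.1 := by
  induction E with
  | nil => intro t _ e he; simp at he
  | cons e E ih =>
    intro t ht e' he'
    simp only [okList, Bool.and_eq_true, decide_eq_true_eq] at ht
    obtain ⟨⟨⟨⟨h1, h0⟩, h2⟩, he⟩, hE⟩ := ht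
    rcases List.mem_cons.1 he' with rfl | h
    · exact ⟨h0, h2⟩
    · exact ih _ hE e' h

theorem cast_list_sum (E : List (ℕ × ℕ × List ℕ × List ℕ)) :
    (((E.map fun e : ℕ × ℕ × List ℕ × List ℕ => (gn e : ℚ) * ((e.1 : ℚ)⁻¹ - (e.2.1 : ℚ)⁻¹)).sum : ℚ) : ℝ)
      = (E.map fun e : ℕ × ℕ × List ℕ × List ℕ => (gn e : ℝ) * ((e.1 : ℝ)⁻¹ - (e.2.1 : ℝ)⁻¹)).sum := by
  induction E with
  | nil => simp
  | cons e E ih =>
    simp only [List.map_cons, List.sum_cons]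
    push_cast
    push_cast at ih
    rw [ih]

theorem cast_list_sum2 (E : List (ℕ × ℕ × List ℕ × List ℕ)) (n : ℕ) :
    (((E.map fun e => gn e * (((Ro 6 (n / e.1)).card : ℤ) - (Ro 6 (n / e.2.1)).card)).sum : ℤ) : ℝ) / n
      = (E.map fun e : ℕ × ℕ × List ℕ × List ℕ =>
        (gn e : ℝ) * (((Ro 6 (n / e.1)).card : ℝ) / n - ((Ro 6 (n / e.2.1)).card : ℝ) / n)).sum := by
  induction E with
  | nil => simp
  | cons e E ih =>
    simp only [List.map_cons, List.sum_cons]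
    rw [← ih]
    push_cast
    ring

theorem lower_bound : ∀ᶠ n : ℕ in atTop, 0.67295 * (n : ℝ) ≤ (f n : ℝ) := by
  have hpos := okList_pos allEnts 0 allEnts_ok
  have h1 : Tendsto (fun n : ℕ => 1 - ((n / 3 : ℕ) : ℝ) / n + (allEnts.map fun e : ℕ × ℕ × List ℕ × List ℕ =>
        (gn e : ℝ) * (((Ro 6 (n / e.1)).card : ℝ) / n - ((Ro 6 (n / e.2.1)).card : ℝ) / n)).sum) atTop
      (𝓝 (1 - ((3 : ℕ) : ℝ)⁻¹ + (allEnts.map fun e : ℕ × ℕ × List ℕ × List ℕ =>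
        (gn e : ℝ) * (dens 6 * ((e.1 : ℝ))⁻¹ - dens 6 * ((e.2.1 : ℝ))⁻¹)).sum)) := by
    refine (tendsto_const_nhds.sub (div_tendsto 3 (by norm_num))).add ?_
    refine tendsto_list_sum _ fun e he => ?_
    have := hpos e he
    exact ((Ro_div_tendsto 6 e.1 (by omega)).sub (Ro_div_tendsto 6 e.2.1 (by omega))).const_mul _
  have h2 : (0.67295 : ℝ) < 1 - ((3 : ℕ) : ℝ)⁻¹ + (allEnts.map fun e : ℕ × ℕ × List ℕ × List ℕ =>
        (gn e : ℝ) * (dens 6 * ((e.1 : ℝ))⁻¹ - dens 6 * ((e.2.1 : ℝ))⁻¹)).sum := by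
    have e1 : (allEnts.map fun e : ℕ × ℕ × List ℕ × List ℕ =>
        (gn e : ℝ) * (dens 6 * ((e.1 : ℝ))⁻¹ - dens 6 * ((e.2.1 : ℝ))⁻¹)).sum
        = 4 / 15 * (allEnts.map fun e : ℕ × ℕ × List ℕ × List ℕ =>
          (gn e : ℝ) * ((e.1 : ℝ)⁻¹ - (e.2.1 : ℝ)⁻¹)).sum := by
      rw [← List.sum_map_mul_left]
      congr 1
      apply List.map_congr_left
      intro e _
      rw [dens_six]
      ring
    rw [e1, ← cast_list_sum]
    have h3 := ents_sum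
    have h4 : (((67295 : ℚ) / 100000 : ℚ) : ℝ) < ((2 / 3 + 4 / 15 *
        (allEnts.map fun e : ℕ × ℕ × List ℕ × List ℕ => (gn e : ℚ) * ((e.1 : ℚ)⁻¹ - (e.2.1 : ℚ)⁻¹)).sum : ℚ) : ℝ) := by
      exact_mod_cast h3
    rw [Rat.cast_add, Rat.cast_mul] at h4
    norm_num at h4 ⊢
    linarith
  filter_upwards [h1.eventually (lt_mem_nhds h2), eventually_gt_atTop 0] with n hn hn0
  have hnR : (0 : ℝ) < n := by exact_mod_cast hn0
  have h4 := lower_list allEnts 0 allEnts_ok n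
  have h5 : ((n : ℝ) - ((n / 3 : ℕ) : ℝ) + (((allEnts.map fun e => gn e * (((Ro 6 (n / e.1)).card : ℤ)
      - (Ro 6 (n / e.2.1)).card)).sum : ℤ) : ℝ)) ≤ (f n : ℝ) := by exact_mod_cast h4
  rw [← cast_list_sum2] at hn
  have h6 : (0.67295 : ℝ) < (f n : ℝ) / n := by
    refine lt_of_lt_of_le hn ?_
    rw [le_div_iff₀ hnR, add_mul, sub_mul, div_mul_cancel₀ _ hnR.ne', div_mul_cancel₀ _ hnR.ne']
    linarith
  rw [lt_div_iff₀ hnR] at h6
  exact h6.le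

end Pool.Agent.Helper88.Div
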