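import Pool.Agent.Helper88.DivBase

set_option autoImplicit false

namespace Pool.Agent.Helper88.Div

/-! ### the two-prime problem as a problem on pairs of exponents -/

/-- admissible sets of pairs -/
def PAdm (B : Finset (ℕ × ℕ)) : Prop :=
  ∀ a ∈ B, ∀ b ∈ B, ∀ d ∈ B, a ≠ b → a ≠ d → b ≠ d → ¬ (a ≤ b ∧ a ≤ d)

/-- all pairs have weight at most `y` -/
def PIn (y : ℕ) (B : Finset (ℕ × ℕ)) : Prop := ∀ a ∈ B, 2 ^ a.1 * 3 ^ a.2 ≤ y

/-- number of pairs with second coordinate at least `o` -/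
def cnt (B : Finset (ℕ × ℕ)) (o : ℕ) : ℕ := (B.filter (fun a => o ≤ a.2)).card

/-- `T` bounds the size of admissible sets of weight `≤ y` in terms of two thresholds -/
def Valid (y : ℕ) (T : ℕ → ℕ → ℕ) : Prop :=
  ∀ B, PIn y B → PAdm B → ∀ p q, q ≤ p → p < 16 → cnt B p = 0 → cnt B q ≤ 1 → B.card ≤ T p q

theorem cnt_anti (B : Finset (ℕ × ℕ)) {o o' : ℕ} (h : o ≤ o') : cnt B o' ≤ cnt B o := by
  unfold cnt
  apply Finset.card_le_card
  intro a ha
  rw [Finset.mem_filter] at ha ⊢
  exact ⟨ha.1, h.trans ha.2⟩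

/-- first coordinate zero part -/
def col0 (B : Finset (ℕ × ℕ)) : Finset ℕ := (B.filter (fun a => a.1 = 0)).image Prod.snd
/-- shifted positive part -/
def colp (B : Finset (ℕ × ℕ)) : Finset (ℕ × ℕ) :=
  (B.filter (fun a => a.1 ≠ 0)).image (fun a => (a.1 - 1, a.2))

theorem mem_col0 {B : Finset (ℕ × ℕ)} {j : ℕ} : j ∈ col0 B ↔ (0, j) ∈ B := by
  unfold col0
  simp only [Finset.mem_image, Finset.mem_filter, Prod.exists]
  constructor
  · rintro ⟨a, b, ⟨h1, h2⟩, rfl⟩
    have h3 : a = 0 := h2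
    subst h3; exact h1
  · intro h
    exact ⟨0, j, ⟨h, rfl⟩, rfl⟩

theorem mem_colp {B : Finset (ℕ × ℕ)} {a : ℕ × ℕ} : a ∈ colp B ↔ (a.1 + 1, a.2) ∈ B := by
  unfold colp
  simp only [Finset.mem_image, Finset.mem_filter, Prod.exists]
  constructor
  · rintro ⟨i, j, ⟨h1, h2⟩, rfl⟩
    have h3 : i ≠ 0 := h2
    change (i - 1 + 1, j) ∈ B
    rwa [Nat.sub_add_cancel (Nat.pos_of_ne_zero h3)]
  · intro h
    exact ⟨a.1 + 1, a.2, ⟨h, by simp⟩, by simp⟩

theorem cnt_split (B : Finset (ℕ × ℕ)) (o : ℕ) :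
    cnt B o = ((col0 B).filter (fun j => o ≤ j)).card + cnt (colp B) o := by
  classical
  unfold cnt
  rw [← Finset.card_filter_add_card_filter_not (s := B.filter (fun a => o ≤ a.2)) (fun a => a.1 = 0)]
  congr 1
  · symm
    apply Finset.card_nbij' (fun j => (0, j)) (fun a => a.2)
    · intro j hj
      simp only [Finset.coe_filter, Set.mem_ofPred_eq, mem_col0, Finset.mem_filter] at hj ⊢
      exact ⟨⟨hj.1, hj.2⟩, trivial⟩
    · intro a ha
      simp only [Finset.coe_filter, Set.mem_ofPred_eq, mem_col0, Finset.mem_filter] at ha ⊢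
      obtain ⟨⟨h1, h2⟩, h3⟩ := ha
      rw [← h3]; exact ⟨h1, h2⟩
    · intro j _; rfl
    · intro a ha
      simp only [Finset.coe_filter, Set.mem_ofPred_eq, Finset.mem_filter] at ha
      obtain ⟨⟨h1, h2⟩, h3⟩ := ha
      rw [← h3]
  · symm
    apply Finset.card_nbij' (fun a => (a.1 + 1, a.2)) (fun a => (a.1 - 1, a.2))
    · intro a ha
      simp only [Finset.coe_filter, Set.mem_ofPred_eq, mem_colp, Finset.mem_filter] at ha ⊢
      exact ⟨⟨ha.1, ha.2⟩, by simp⟩
    · intro a ha
      simp only [Finset.coe_filter, Set.mem_ofPred_eq, mem_colp, Finset.mem_filter] at ha ⊢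
      obtain ⟨⟨h1, h2⟩, h3⟩ := ha
      rw [Nat.sub_add_cancel (Nat.pos_of_ne_zero h3)]
      exact ⟨h1, h2⟩
    · intro a _; simp
    · intro a ha
      simp only [Finset.coe_filter, Set.mem_ofPred_eq, Finset.mem_filter] at ha
      obtain ⟨⟨h1, h2⟩, h3⟩ := ha
      simp only
      rw [Nat.sub_add_cancel (Nat.pos_of_ne_zero h3)]

theorem card_split (B : Finset (ℕ × ℕ)) : B.card = (col0 B).card + (colp B).card := by
  have := cnt_split B 0
  simpa [cnt] using this

theorem colp_PIn {y : ℕ} {B : Finset (ℕ × ℕ)} (h : PIn y B) : PIn (y / 2) (colp B) := by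
  intro a ha
  rw [mem_colp] at ha
  have := h _ ha
  simp only [pow_succ] at this
  rw [Nat.le_div_iff_mul_le (by norm_num)]
  calc 2 ^ a.1 * 3 ^ a.2 * 2 = 2 ^ a.1 * 2 * 3 ^ a.2 := by ring
    _ ≤ y := this

theorem colp_PAdm {B : Finset (ℕ × ℕ)} (h : PAdm B) : PAdm (colp B) := by
  intro a ha b hb d hd hab had hbd hle
  rw [mem_colp] at ha hb hd
  refine h _ ha _ hb _ hd ?_ ?_ ?_ ?_
  · intro hh
    apply hab
    rw [Prod.mk.injEq] at hh
    exact Prod.ext (by omega) hh.2
  · intro hh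
    apply had
    rw [Prod.mk.injEq] at hh
    exact Prod.ext (by omega) hh.2
  · intro hh
    apply hbd
    rw [Prod.mk.injEq] at hh
    exact Prod.ext (by omega) hh.2
  · obtain ⟨h1, h2⟩ := hle
    rw [Prod.le_def] at h1 h2
    rw [Prod.mk_le_mk, Prod.mk_le_mk]
    exact ⟨⟨by omega, h1.2⟩, ⟨by omega, h2.2⟩⟩

theorem cnt_le_two {B : Finset (ℕ × ℕ)} (h : PAdm B) {j : ℕ} (hj : (0, j) ∈ B) : cnt B j ≤ 2 := by
  classical
  unfold cnt
  by_contra hcon
  push Not at hcon
  have hmem : (0, j) ∈ B.filter (fun a => j ≤ a.2) := by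
    rw [Finset.mem_filter]; exact ⟨hj, le_refl _⟩
  have h2 : 2 ≤ ((B.filter (fun a => j ≤ a.2)).erase (0, j)).card := by
    rw [Finset.card_erase_of_mem hmem]; omega
  obtain ⟨b, d, hb, hd, hbd⟩ := Finset.one_lt_card_iff.1 (show 1 < _ from h2)
  rw [Finset.mem_erase, Finset.mem_filter] at hb hd
  refine h _ hj b hb.2.1 d hd.2.1 (Ne.symm hb.1) (Ne.symm hd.1) hbd ⟨?_, ?_⟩
  · exact ⟨Nat.zero_le _, hb.2.2⟩
  · exact ⟨Nat.zero_le _, hd.2.2⟩

/-- digit extraction -/
def cell (T p q : ℕ) : ℕ := (T >>> (5 * (16 * p + q))) % 32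

/-- check of one cell -/
def okCell (J T' T p q : ℕ) : Bool :=
  decide (cell T' p q ≤ cell T p q) &&
  (!(decide (q ≤ J) && decide (q < p)) || decide (cell T' q q + 1 ≤ cell T p q)) &&
  (!(decide (1 ≤ q)) || decide (cell T' p (min (q - 1) J) + 1 ≤ cell T p q)) &&
  (!(decide (1 ≤ q) && decide (1 ≤ J) && decide (2 ≤ p)) ||
    decide (cell T' (min (q - 1) (min (J - 1) (p - 2))) (min (q - 1) (min (J - 1) (p - 2))) + 2 ≤ cell T p q))

/-- check of a table -/
def okTable (J T' T : ℕ) : Bool :=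
  (List.range 16).all fun p => (List.range (p + 1)).all fun q => okCell J T' T p q

theorem valid_step (y J T' T : ℕ) (hJ : y < 3 ^ (J + 1)) (hT : okTable J T' T = true)
    (h : Valid (y / 2) (cell T')) : Valid y (cell T) := by
  classical
  intro B hB hA p q hqp hp16 hp hq
  have hcell : okCell J T' T p q = true := by
    unfold okTable at hT
    rw [List.all_eq_true] at hT
    have h1 := hT p (List.mem_range.2 hp16)
    rw [List.all_eq_true] at h1
    exact h1 q (List.mem_range.2 (by omega))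
  unfold okCell at hcell
  simp only [Bool.and_eq_true, Bool.or_eq_true, Bool.not_eq_true', Bool.and_eq_false_iff,
    decide_eq_true_eq, decide_eq_false_iff_not] at hcell
  obtain ⟨⟨⟨c0, c1⟩, c2⟩, c3⟩ := hcell
  have hB' := colp_PIn hB
  have hA' := colp_PAdm hA
  have hs := card_split B
  have hcp := cnt_split B p
  have hcq := cnt_split B q
  -- bound on exponents in column zero
  have hJb : ∀ o ∈ col0 B, o ≤ J := by
    intro o ho
    rw [mem_col0] at ho
    have := hB _ ho
    simp only [pow_zero, one_mul] at this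
    by_contra hcon
    push Not at hcon
    have h2 : 3 ^ (J + 1) ≤ 3 ^ o := Nat.pow_le_pow_right (by norm_num) hcon
    omega
  have hpb : ∀ o ∈ col0 B, o < p := by
    intro o ho
    by_contra hcon
    push Not at hcon
    have : 0 < ((col0 B).filter (fun j => p ≤ j)).card :=
      Finset.card_pos.2 ⟨o, Finset.mem_filter.2 ⟨ho, hcon⟩⟩
    omega
  rcases Finset.eq_empty_or_nonempty (col0 B) with h0 | h0
  · -- empty column
    have e0 : (col0 B).card = 0 := by rw [h0]; rfl
    have := h (colp B) hB' hA' p q hqp hp16 (by omega) (by omega)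
    omega
  · -- smallest element
    obtain ⟨o, ho, hmin⟩ : ∃ o ∈ col0 B, ∀ o' ∈ col0 B, o ≤ o' :=
      ⟨(col0 B).min' h0, Finset.min'_mem _ _, fun o' ho' => Finset.min'_le _ _ ho'⟩
    have hco := cnt_split B o
    have hle2 := cnt_le_two hA (mem_col0.1 ho)
    have hall : (col0 B).filter (fun j => o ≤ j) = col0 B :=
      Finset.filter_true_of_mem (fun j hj => hmin j hj)
    rw [hall] at hco
    have hoJ := hJb o ho
    have hop := hpb o ho
    have hcard1 : 1 ≤ (col0 B).card := Finset.card_pos.2 h0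
    by_cases hc : (col0 B).card = 1
    · -- one element
      by_cases hqo : q ≤ o
      · have h1 : 0 < ((col0 B).filter (fun j => q ≤ j)).card :=
          Finset.card_pos.2 ⟨o, Finset.mem_filter.2 ⟨ho, hqo⟩⟩
        have h2 : cnt (colp B) q = 0 := by omega
        have h3 := h (colp B) hB' hA' q q (le_refl _) (by omega) h2 (by omega)
        rcases c1 with c1 | c1
        · exfalso; rcases c1 with c1 | c1 <;> omega
        · omega
      · push Not at hqo
        have h1 : cnt (colp B) o ≤ 1 := by omega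
        have h2 : o ≤ min (q - 1) J := by
          rw [le_min_iff]; omega
        have h3 : cnt (colp B) (min (q - 1) J) ≤ 1 := (cnt_anti _ h2).trans h1
        have h4 : min (q - 1) J ≤ p := by
          have := min_le_left (q - 1) J
          omega
        have h5 := h (colp B) hB' hA' p _ h4 hp16 (by omega) h3
        rcases c2 with c2 | c2
        · omega
        · omega
    · -- two elements
      have hc2 : (col0 B).card = 2 := by omega
      have h1 : cnt (colp B) o = 0 := by omega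
      obtain ⟨o1, ho1, hne⟩ : ∃ o1 ∈ col0 B, o1 ≠ o := by
        obtain ⟨a, b, ha, hb, hab⟩ := Finset.one_lt_card_iff.1 (show 1 < (col0 B).card by omega)
        by_cases hao : a = o
        · exact ⟨b, hb, fun hbo => hab (hao.trans hbo.symm)⟩
        · exact ⟨a, ha, hao⟩
      have h2 := hmin o1 ho1
      have h3 := hJb o1 ho1
      have h4 := hpb o1 ho1
      have hoq : o < q := by
        by_contra hcon
        push Not at hcon
        have hall2 : (col0 B).filter (fun j => q ≤ j) = col0 B :=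
          Finset.filter_true_of_mem (fun j hj => hcon.trans (hmin j hj))
        rw [hall2] at hcq
        omega
      have h5 : o ≤ min (q - 1) (min (J - 1) (p - 2)) := by
        rw [le_min_iff, le_min_iff]; omega
      have h6 : cnt (colp B) (min (q - 1) (min (J - 1) (p - 2))) = 0 :=
        Nat.le_zero.1 ((cnt_anti _ h5).trans h1.le)
      have h7 : min (q - 1) (min (J - 1) (p - 2)) < 16 := by
        have := min_le_left (q - 1) (min (J - 1) (p - 2))
        omega
      have h8 := h (colp B) hB' hA' _ _ (le_refl _) h7 h6 (by omega)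
      rcases c3 with c3 | c3
      · exfalso; rcases c3 with (c3 | c3) | c3 <;> omega
      · omega

theorem valid_zero : Valid 0 (cell 0) := by
  intro B hB _ p q _ _ _ _
  have : B = ∅ := by
    rw [Finset.eq_empty_iff_forall_notMem]
    intro a ha
    have := hB a ha
    have h2 : 0 < 2 ^ a.1 * 3 ^ a.2 := by positivity
    omega
  rw [this]; simp

/-- chain of tables: entries `(y, J, T)` -/
def chk : ℕ → ℕ → List (ℕ × ℕ × ℕ) → Bool
  | _, _, [] => true
  | y', T', (e :: l) => decide (e.1 / 2 = y') && decide (e.1 < 3 ^ (e.2.1 + 1)) &&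
      okTable e.2.1 T' e.2.2 && chk e.1 e.2.2 l

theorem chk_valid (l : List (ℕ × ℕ × ℕ)) : ∀ y' T', Valid y' (cell T') → chk y' T' l = true →
    ∀ e ∈ l, Valid e.1 (cell e.2.2) := by
  induction l with
  | nil => intro _ _ _ _ e he; simp at he
  | cons e l ih =>
    intro y' T' hv hc e' he'
    simp only [chk, Bool.and_eq_true, decide_eq_true_eq] at hc
    obtain ⟨⟨⟨h1, h2⟩, h3⟩, h4⟩ := hc
    have hv2 : Valid e.1 (cell e.2.2) := valid_step e.1 e.2.1 T' e.2.2 h2 h3 (by rw [h1]; exact hv)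
    rcases List.mem_cons.1 he' with rfl | he'
    · exact hv2
    · exact ih e.1 e.2.2 hv2 h4 e' he'

/-! ### transfer to `3`-smooth integers -/

theorem fact_of_smooth {K s p : ℕ} (hs : ro K s = 1) (hp : K ≤ p) : s.factorization p = 0 := by
  have h1 : (ro K s).factorization p = s.factorization p := by
    rw [fact_ro, Finsupp.filter_apply, if_pos (by omega)]
  rw [hs] at h1
  simpa using h1.symm

theorem pair_weight {s : ℕ} (hs0 : s ≠ 0) (hs : ro 4 s = 1) :
    2 ^ (s.factorization 2) * 3 ^ (s.factorization 3) = s := by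
  apply Nat.eq_of_factorization_eq (by positivity) hs0
  intro p
  rw [Nat.factorization_mul (by positivity) (by positivity), Nat.Prime.factorization_pow Nat.prime_two,
    Nat.Prime.factorization_pow Nat.prime_three]
  simp only [Finsupp.add_apply, Finsupp.single_apply]
  by_cases h4 : 4 ≤ p
  · rw [fact_of_smooth hs h4, if_neg (by omega), if_neg (by omega)]
    rfl
  · have : p = 0 ∨ p = 1 ∨ p = 2 ∨ p = 3 := by omega
    rcases this with rfl | rfl | rfl | rfl <;> simp

theorem mx_le_of_valid (y T : ℕ) (hy : y < 3 ^ 15) (h : Valid y (cell T)) :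
    mx (Sm 4 y) ≤ cell T 15 15 := by
  classical
  obtain ⟨A, hA, hA2, hA3⟩ := exists_mx (Sm 4 y)
  rw [← hA3]
  set φ : ℕ → ℕ × ℕ := fun s => (s.factorization 2, s.factorization 3) with hφ
  have hinj : Set.InjOn φ (A : Set ℕ) := by
    intro a ha b hb hab
    have ha' := mem_Sm.1 (hA ha)
    have hb' := mem_Sm.1 (hA hb)
    simp only [hφ, Prod.mk.injEq] at hab
    rw [← pair_weight (by omega) ha'.2, ← pair_weight (by omega) hb'.2, hab.1, hab.2]
  rw [← Finset.card_image_of_injOn hinj]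
  have hin : PIn y (A.image φ) := by
    intro a ha
    rw [Finset.mem_image] at ha
    obtain ⟨s, hs, rfl⟩ := ha
    have hs' := mem_Sm.1 (hA hs)
    simp only [hφ]
    rw [pair_weight (by omega) hs'.2]
    exact hs'.1.2
  have hc : cnt (A.image φ) 15 = 0 := by
    unfold cnt
    rw [Finset.card_eq_zero, Finset.filter_eq_empty_iff]
    intro a ha hcon
    have h1 := hin a ha
    have h2 : 3 ^ 15 ≤ 3 ^ a.2 := Nat.pow_le_pow_right (by norm_num) hcon
    have h3 : 1 * 3 ^ a.2 ≤ 2 ^ a.1 * 3 ^ a.2 := Nat.mul_le_mul_right _ Nat.one_le_two_pow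
    omega
  refine h _ hin ?_ 15 15 (le_refl _) (by norm_num) hc (by omega)
  intro x hx y' hy' z hz hxy hxz hyz hle
  rw [Finset.mem_image] at hx hy' hz
  obtain ⟨a, ha, rfl⟩ := hx
  obtain ⟨b, hb, rfl⟩ := hy'
  obtain ⟨d, hd, rfl⟩ := hz
  have ha' := mem_Sm.1 (hA ha)
  have hb' := mem_Sm.1 (hA hb)
  have hd' := mem_Sm.1 (hA hd)
  have key : ∀ u v : ℕ, (1 ≤ u ∧ u ≤ y) ∧ ro 4 u = 1 → (1 ≤ v ∧ v ≤ y) ∧ ro 4 v = 1 → φ u ≤ φ v → u ∣ v := by
    intro u v hu hv huv
    simp only [hφ, Prod.mk_le_mk] at huv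
    rw [← pair_weight (by omega) hu.2, ← pair_weight (by omega) hv.2]
    exact Nat.mul_dvd_mul (pow_dvd_pow 2 huv.1) (pow_dvd_pow 3 huv.2)
  exact hA2 a ha b hb d hd (fun h => hxy (by rw [h])) (fun h => hxz (by rw [h]))
    (fun h => hyz (by rw [h])) ⟨key a b ha' hb' hle.1, key a d ha' hd' hle.2⟩

end Pool.Agent.Helper88.Div
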