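import Pool.Agent.Helper88.DivPairs

set_option autoImplicit false

namespace Pool.Agent.Helper88.Div

open Finset

theorem mx_le_card (X : Finset ℕ) : mx X ≤ X.card := by
  obtain ⟨A, hA, -, hA3⟩ := exists_mx X
  rw [← hA3]
  exact Finset.card_le_card hA

theorem mx_le_add (X Y : Finset ℕ) : mx Y ≤ mx X + (Y \ X).card := by
  obtain ⟨A, hA, hA2, hA3⟩ := exists_mx Y
  rw [← hA3]
  have h1 : A ⊆ (A ∩ X) ∪ (Y \ X) := by
    intro a ha
    rw [Finset.mem_union, Finset.mem_inter, Finset.mem_sdiff]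
    by_cases hx : a ∈ X
    · exact Or.inl ⟨ha, hx⟩
    · exact Or.inr ⟨hA ha, hx⟩
  calc A.card ≤ ((A ∩ X) ∪ (Y \ X)).card := Finset.card_le_card h1
    _ ≤ (A ∩ X).card + (Y \ X).card := Finset.card_union_le _ _
    _ ≤ _ := by
      refine Nat.add_le_add_right (card_le_mx Finset.inter_subset_right ?_) _
      exact hA2.mono Finset.inter_subset_left

theorem ro_one_of_smooth {K s : ℕ} (h : s ∈ K.smoothNumbers) : ro K s = 1 := by
  unfold ro
  have : s.factorization.filter (fun p => ¬ p < K) = 0 := by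
    rw [Finsupp.filter_eq_zero_iff]
    intro p hp
    by_contra hne
    have hmem : p ∈ s.primeFactors := by
      rw [← Nat.support_factorization]; exact Finsupp.mem_support_iff.2 hne
    exact hp (Nat.mem_smoothNumbers'.1 h p (Nat.prime_of_mem_primeFactors hmem)
      (Nat.dvd_of_mem_primeFactors hmem))
  rw [this]; simp

theorem ro_four_of_dvd {s k : ℕ} (h : s ∣ 6 ^ k) : ro 4 s = 1 := by
  apply ro_one_of_smooth
  refine Nat.mem_smoothNumbers_of_dvd (m := 6 ^ k) ?_ h
  rw [Nat.mem_smoothNumbers']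
  intro p hp hdvd
  have h1 : p ∣ 6 := hp.dvd_of_dvd_pow hdvd
  have h2 := Nat.le_of_dvd (by norm_num) h1
  by_contra hcon
  have : p = 4 ∨ p = 5 ∨ p = 6 := by omega
  rcases this with rfl | rfl | rfl
  · exact absurd hp (by decide)
  · exact absurd h1 (by decide)
  · exact absurd hp (by decide)

theorem ro_six_of_dvd {s k : ℕ} (h : s ∣ 30 ^ k) : ro 6 s = 1 := by
  apply ro_one_of_smooth
  refine Nat.mem_smoothNumbers_of_dvd (m := 30 ^ k) ?_ h
  rw [Nat.mem_smoothNumbers']
  intro p hp hdvd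
  have h1 : p ∣ 30 := hp.dvd_of_dvd_pow hdvd
  have h2 : p ∣ 2 * (3 * 5) := by simpa using h1
  rcases hp.dvd_mul.1 h2 with h3 | h3
  · have := Nat.le_of_dvd (by norm_num) h3; omega
  rcases hp.dvd_mul.1 h3 with h3 | h3
  · have := Nat.le_of_dvd (by norm_num) h3; omega
  · have := Nat.le_of_dvd (by norm_num) h3; omega

theorem triple_weight {s : ℕ} (hs0 : s ≠ 0) (hs : ro 6 s = 1) :
    2 ^ (s.factorization 2) * 3 ^ (s.factorization 3) * 5 ^ (s.factorization 5) = s := by
  apply Nat.eq_of_factorization_eq (by positivity) hs0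
  intro p
  rw [Nat.factorization_mul (by positivity) (by positivity),
    Nat.factorization_mul (by positivity) (by positivity), Nat.Prime.factorization_pow Nat.prime_two,
    Nat.Prime.factorization_pow Nat.prime_three, Nat.Prime.factorization_pow Nat.prime_five]
  simp only [Finsupp.add_apply, Finsupp.single_apply]
  by_cases h6 : 6 ≤ p
  · rw [fact_of_smooth hs h6, if_neg (by omega), if_neg (by omega), if_neg (by omega)]
    rfl
  · have : p = 0 ∨ p = 1 ∨ p = 2 ∨ p = 3 ∨ p = 4 ∨ p = 5 := by omega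
    rcases this with rfl | rfl | rfl | rfl | rfl | rfl
    · simp
    · simp
    · simp
    · simp
    · have : s.factorization 4 = 0 := Nat.factorization_eq_zero_of_not_prime _ (by decide)
      simp [this]
    · simp

/-- the `5`-adic layers -/
theorem mx_six_le (y : ℕ) (hy : y < 625) :
    mx (Sm 6 y) ≤ ∑ k ∈ Finset.range 4, mx (Sm 4 (y / 5 ^ k)) := by
  classical
  obtain ⟨A, hA, hA2, hA3⟩ := exists_mx (Sm 6 y)
  rw [← hA3]
  have hfac : ∀ a ∈ A, 2 ^ (a.factorization 2) * 3 ^ (a.factorization 3) * 5 ^ (a.factorization 5) = a :=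
    fun a ha => triple_weight (by have := mem_Sm.1 (hA ha); omega) (mem_Sm.1 (hA ha)).2
  have hmap : ∀ a ∈ A, a.factorization 5 ∈ Finset.range 4 := by
    intro a ha
    rw [Finset.mem_range]
    by_contra hcon
    push Not at hcon
    have h1 := hfac a ha
    have h2 : 5 ^ 4 ≤ 5 ^ (a.factorization 5) := Nat.pow_le_pow_right (by norm_num) hcon
    have h3 : 0 < 2 ^ (a.factorization 2) * 3 ^ (a.factorization 3) := by positivity
    have h4 := (mem_Sm.1 (hA ha)).1.2
    have h5 : 5 ^ (a.factorization 5) ≤ a := by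
      conv_rhs => rw [← h1]
      exact Nat.le_mul_of_pos_left _ h3
    omega
  rw [Finset.card_eq_sum_card_fiberwise hmap]
  refine Finset.sum_le_sum fun k _ => ?_
  -- `a ↦ a / 5 ^ k`
  have hdv : ∀ a ∈ A.filter (fun a => a.factorization 5 = k), a = 5 ^ k * (a / 5 ^ k) := by
    intro a ha
    rw [Finset.mem_filter] at ha
    have h1 : 5 ^ k ∣ a := by
      rw [← ha.2]
      exact ⟨_, (by rw [mul_comm]; exact (hfac a ha.1).symm)⟩
    exact (Nat.mul_div_cancel' h1).symm
  have hinj : Set.InjOn (fun a => a / 5 ^ k) (↑(A.filter fun a => a.factorization 5 = k) : Set ℕ) := by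
    intro a ha b hb hab
    rw [hdv a ha, hdv b hb]
    simp only at hab
    rw [hab]
  rw [← Finset.card_image_of_injOn hinj]
  apply card_le_mx
  · intro s hs
    rw [Finset.mem_image] at hs
    obtain ⟨a, ha, rfl⟩ := hs
    have ha' := Finset.mem_filter.1 ha
    have h1 := hdv a ha
    have h2 := mem_Sm.1 (hA ha'.1)
    have h3 : a / 5 ^ k = 2 ^ (a.factorization 2) * 3 ^ (a.factorization 3) := by
      have h4 := hfac a ha'.1
      rw [ha'.2] at h4
      conv_lhs => rw [← h4]
      exact Nat.mul_div_cancel _ (by positivity)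
    rw [mem_Sm]
    refine ⟨⟨?_, Nat.div_le_div_right h2.1.2⟩, ?_⟩
    · rw [h3]; exact Nat.pos_of_ne_zero (by positivity)
    · rw [h3]
      apply ro_four_of_dvd (k := a.factorization 2 + a.factorization 3)
      rw [show (6 : ℕ) = 2 * 3 by norm_num, mul_pow]
      exact Nat.mul_dvd_mul (pow_dvd_pow 2 (by omega)) (pow_dvd_pow 3 (by omega))
  · intro x hx z hz w hw hxz hxw hzw hdiv
    rw [Finset.mem_image] at hx hz hw
    obtain ⟨a, ha, rfl⟩ := hx
    obtain ⟨b, hb, rfl⟩ := hz
    obtain ⟨d, hd, rfl⟩ := hw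
    refine hA2 a (Finset.mem_filter.1 ha).1 b (Finset.mem_filter.1 hb).1 d (Finset.mem_filter.1 hd).1
      (fun h => hxz (by rw [h])) (fun h => hxw (by rw [h])) (fun h => hzw (by rw [h])) ⟨?_, ?_⟩
    · rw [hdv a ha, hdv b hb]; exact Nat.mul_dvd_mul_left _ hdiv.1
    · rw [hdv a ha, hdv d hd]; exact Nat.mul_dvd_mul_left _ hdiv.2

end Pool.Agent.Helper88.Div
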