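import Pool.Agent.Helper88.DivTables

set_option autoImplicit false

namespace Pool.Agent.Helper88.Div

open Finset

theorem countP_le_toFinset (l : List ℕ) (hl : l.Nodup) (d : ℕ) :
    l.countP (fun x => decide (x ≤ d)) = (l.toFinset.filter (fun x => x ≤ d)).card := by
  rw [List.countP_eq_length_filter]
  have : l.toFinset.filter (fun x => x ≤ d) = (l.filter (fun x => decide (x ≤ d))).toFinset := by
    ext x
    simp
  rw [this, List.toFinset_card_of_nodup (hl.filter _)]

theorem S4_count_le (d : ℕ) : S4.countP (fun x => decide (x ≤ d)) ≤ (Sm 4 d).card := by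
  rw [countP_le_toFinset S4 S4_nodup]
  apply Finset.card_le_card
  intro s hs
  rw [Finset.mem_filter, List.mem_toFinset] at hs
  have h := chk_S4
  rw [List.all_eq_true] at h
  have h2 := h s hs.1
  simp only [Bool.and_eq_true, decide_eq_true_eq] at h2
  rw [mem_Sm]
  exact ⟨⟨h2.1, hs.2⟩, ro_four_of_dvd (k := 21) (Nat.dvd_of_mod_eq_zero h2.2)⟩

theorem D4_bound {d : ℕ} (hd : d ∈ D4) :
    mx (Sm 4 d) + D4.countP (fun x => decide (x ≤ d)) ≤ (Sm 4 d).card := by
  have h := chk_D4
  rw [List.all_eq_true] at h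
  have h2 := h d hd
  rw [List.any_eq_true] at h2
  obtain ⟨c, hc, h3⟩ := h2
  rw [List.any_eq_true] at h3
  obtain ⟨e, he, h4⟩ := h3
  simp only [Bool.and_eq_true, decide_eq_true_eq] at h4
  obtain ⟨h5, h6⟩ := h4
  have hv := chk_valid c 0 0 valid_zero (chk_chains c hc) e he
  have hsm := D4_small
  rw [List.all_eq_true] at hsm
  have h7 := hsm d hd
  simp only [Bool.and_eq_true, decide_eq_true_eq] at h7
  rw [h5] at hv
  have h8 := mx_le_of_valid d e.2.2 (lt_of_le_of_lt h7.1.1 (by norm_num)) hv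
  have h9 := S4_count_le d
  omega

theorem two_bound_gen (D : List ℕ) (hnd : D.Nodup)
    (hb : ∀ d ∈ D, mx (Sm 4 d) + D.countP (fun x => decide (x ≤ d)) ≤ (Sm 4 d).card) (y : ℕ) :
    mx (Sm 4 y) + D.countP (fun x => decide (x ≤ y)) ≤ (Sm 4 y).card := by
  by_cases h : ∃ d ∈ D, d ≤ y
  · -- largest such `d`
    have hne : (D.toFinset.filter (fun x => x ≤ y)).Nonempty := by
      obtain ⟨d, hd, hdy⟩ := h
      exact ⟨d, Finset.mem_filter.2 ⟨List.mem_toFinset.2 hd, hdy⟩⟩
    obtain ⟨d, hd, hdy, hmax⟩ : ∃ d ∈ D, d ≤ y ∧ ∀ x ∈ D, x ≤ y → x ≤ d := by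
      refine ⟨(D.toFinset.filter (fun x => x ≤ y)).max' hne, ?_, ?_, ?_⟩
      · have hmem := Finset.max'_mem _ hne
        rw [Finset.mem_filter, List.mem_toFinset] at hmem
        exact hmem.1
      · have hmem := Finset.max'_mem _ hne
        rw [Finset.mem_filter, List.mem_toFinset] at hmem
        exact hmem.2
      · intro x hx hxy
        exact Finset.le_max' _ x (Finset.mem_filter.2 ⟨List.mem_toFinset.2 hx, hxy⟩)
    have hcount : D.countP (fun x => decide (x ≤ y)) = D.countP (fun x => decide (x ≤ d)) := by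
      rw [countP_le_toFinset D hnd, countP_le_toFinset D hnd]
      congr 1
      ext x
      rw [Finset.mem_filter, Finset.mem_filter, List.mem_toFinset]
      constructor
      · rintro ⟨h1, h2⟩; exact ⟨h1, hmax x h1 h2⟩
      · rintro ⟨h1, h2⟩; exact ⟨h1, h2.trans hdy⟩
    have h1 := hb d hd
    have h2 := mx_le_add (Sm 4 d) (Sm 4 y)
    have hsub : Sm 4 d ⊆ Sm 4 y := by
      intro x hx
      rw [mem_Sm] at hx ⊢
      exact ⟨⟨hx.1.1, hx.1.2.trans hdy⟩, hx.2⟩
    have h3 := Finset.card_sdiff_add_card_eq_card hsub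
    omega
  · push Not at h
    have : D.countP (fun x => decide (x ≤ y)) = 0 := by
      rw [List.countP_eq_zero]
      intro x hx
      have := h x hx
      simp only [decide_eq_true_eq]
      omega
    rw [this, add_zero]
    exact mx_le_card _

theorem two_bound (y : ℕ) :
    mx (Sm 4 y) + D4.countP (fun x => decide (x ≤ y)) ≤ (Sm 4 y).card :=
  two_bound_gen D4 D4_nodup (fun _ hd => D4_bound hd) y

/-! ### explicit bounds below `320` -/

theorem exp_lt_of_le {p e s : ℕ} (hp : 2 ≤ p) (h : p ^ e ≤ s) (hs : s < 2 ^ 9) : e < 9 := by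
  by_contra hcon
  push Not at hcon
  have h1 : 2 ^ 9 ≤ p ^ e :=
    (Nat.pow_le_pow_left hp 9).trans (Nat.pow_le_pow_right (by omega) hcon)
  omega

theorem dvd_six_pow {s : ℕ} (hs0 : s ≠ 0) (hs : ro 4 s = 1) (h : s < 512) : s ∣ 6 ^ 9 := by
  have h1 := pair_weight hs0 hs
  have h2 : s.factorization 2 < 9 := exp_lt_of_le (le_refl 2)
    (by conv_rhs => rw [← h1]
        exact Nat.le_mul_of_pos_right _ (by positivity)) h
  have h3 : s.factorization 3 < 9 := exp_lt_of_le (p := 3) (by norm_num)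
    (by conv_rhs => rw [← h1]
        exact Nat.le_mul_of_pos_left _ (by positivity)) h
  rw [← h1, show (6 : ℕ) ^ 9 = 2 ^ 9 * 3 ^ 9 by norm_num]
  exact Nat.mul_dvd_mul (pow_dvd_pow 2 h2.le) (pow_dvd_pow 3 h3.le)

theorem dvd_thirty_pow {s : ℕ} (hs0 : s ≠ 0) (hs : ro 6 s = 1) (h : s < 512) : s ∣ 30 ^ 9 := by
  have h1 := triple_weight hs0 hs
  have h2 : s.factorization 2 < 9 := exp_lt_of_le (le_refl 2)
    (by conv_rhs => rw [← h1, mul_assoc]
        exact Nat.le_mul_of_pos_right _ (by positivity)) h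
  have h3 : s.factorization 3 < 9 := exp_lt_of_le (p := 3) (by norm_num)
    (by conv_rhs => rw [← h1, mul_comm (2 ^ _), mul_assoc]
        exact Nat.le_mul_of_pos_right _ (by positivity)) h
  have h4 : s.factorization 5 < 9 := exp_lt_of_le (p := 5) (by norm_num)
    (by conv_rhs => rw [← h1]
        exact Nat.le_mul_of_pos_left _ (by positivity)) h
  rw [← h1, show (30 : ℕ) ^ 9 = 2 ^ 9 * 3 ^ 9 * 5 ^ 9 by norm_num]
  exact Nat.mul_dvd_mul (Nat.mul_dvd_mul (pow_dvd_pow 2 h2.le) (pow_dvd_pow 3 h3.le)) (pow_dvd_pow 5 h4.le)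

/-- computable bound for two primes -/
def u4 (y : ℕ) : ℕ :=
  S4.countP (fun x => decide (x ≤ y)) - D4.countP (fun x => decide (x ≤ y))

theorem S4_complete : ((List.range 512).all fun s => decide (s = 0) || !(decide (6 ^ 9 % s = 0)) ||
    S4.contains s) = true := by decide +kernel

theorem mx_le_u4 (y : ℕ) (hy : y < 512) : mx (Sm 4 y) ≤ u4 y := by
  have h1 := two_bound y
  have h2 : (Sm 4 y).card ≤ S4.countP (fun x => decide (x ≤ y)) := by
    rw [countP_le_toFinset S4 S4_nodup]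
    apply Finset.card_le_card
    intro s hs
    rw [mem_Sm] at hs
    rw [Finset.mem_filter, List.mem_toFinset]
    refine ⟨?_, hs.1.2⟩
    have h := S4_complete
    rw [List.all_eq_true] at h
    have h3 := h s (List.mem_range.2 (by omega))
    simp only [Bool.or_eq_true, decide_eq_true_eq, Bool.not_eq_true', decide_eq_false_iff_not,
      List.contains_eq_mem] at h3
    rcases h3 with (h3 | h3) | h3
    · omega
    · exact absurd (Nat.mod_eq_zero_of_dvd (dvd_six_pow (by omega) hs.2 (by omega))) h3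
    · exact h3
  unfold u4
  omega

/-- computable bound for three primes, layer by layer -/
def g6 (y : ℕ) : ℕ := u4 y + u4 (y / 5) + u4 (y / 25) + u4 (y / 125)

theorem mx_le_g6 (y : ℕ) (hy : y < 512) : mx (Sm 6 y) ≤ g6 y := by
  have h := mx_six_le y (by omega)
  have h1 : ∀ k, mx (Sm 4 (y / 5 ^ k)) ≤ u4 (y / 5 ^ k) := fun k =>
    mx_le_u4 _ (lt_of_le_of_lt (Nat.div_le_self _ _) hy)
  have h2 : ∑ k ∈ Finset.range 4, mx (Sm 4 (y / 5 ^ k)) ≤ ∑ k ∈ Finset.range 4, u4 (y / 5 ^ k) :=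
    Finset.sum_le_sum fun k _ => h1 k
  have h3 : ∑ k ∈ Finset.range 4, u4 (y / 5 ^ k) = g6 y := by
    simp [Finset.sum_range_succ, g6]
  omega

end Pool.Agent.Helper88.Div
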