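import Pool.Agent.Helper88.DivCert

set_option autoImplicit false

namespace Pool.Agent.Helper88.Div

open Finset Filter Topology

/-- the fibre over a rough part -/
theorem fibre_le (K n : ℕ) (A : Finset ℕ) (hA : A ⊆ Finset.Icc 1 n) (hA2 : Adm A) (v : ℕ) (hv0 : 0 < v) :
    (A.filter fun a => ro K a = v).card ≤ mx (Sm K (n / v)) := by
  classical
  have hA0 : ∀ a ∈ A, a ≠ 0 ∧ a ≤ n := by
    intro a ha
    have := Finset.mem_Icc.1 (hA ha)
    exact ⟨by omega, this.2⟩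
  have hinj : Set.InjOn (sm K) (↑(A.filter fun a => ro K a = v) : Set ℕ) := by
    intro a ha b hb hab
    simp only [Finset.coe_filter, Set.mem_ofPred_eq] at ha hb
    rw [← sm_mul_ro K a (hA0 a ha.1).1, ← sm_mul_ro K b (hA0 b hb.1).1, ha.2, hb.2, hab]
  rw [← Finset.card_image_of_injOn hinj]
  apply card_le_mx
  · intro s hs
    rw [Finset.mem_image] at hs
    obtain ⟨a, ha, rfl⟩ := hs
    rw [Finset.mem_filter] at ha
    have h0 := hA0 a ha.1
    rw [mem_Sm]
    refine ⟨⟨Nat.pos_of_ne_zero (sm_ne_zero K a h0.1), ?_⟩, ro_sm K a⟩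
    rw [Nat.le_div_iff_mul_le hv0, ← ha.2, sm_mul_ro K a h0.1]
    exact h0.2
  · intro x hx y hy z hz hxy hxz hyz hdiv
    rw [Finset.mem_image] at hx hy hz
    obtain ⟨a, ha, rfl⟩ := hx
    obtain ⟨b, hb, rfl⟩ := hy
    obtain ⟨d, hd, rfl⟩ := hz
    rw [Finset.mem_filter] at ha hb hd
    have ea : a = sm K a * v := by
      conv_lhs => rw [← sm_mul_ro K a (hA0 a ha.1).1, ha.2]
    have eb : b = sm K b * v := by
      conv_lhs => rw [← sm_mul_ro K b (hA0 b hb.1).1, hb.2]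
    have ed : d = sm K d * v := by
      conv_lhs => rw [← sm_mul_ro K d (hA0 d hd.1).1, hd.2]
    refine hA2 a ha.1 b hb.1 d hd.1 (fun h => hxy (by rw [h])) (fun h => hxz (by rw [h]))
      (fun h => hyz (by rw [h])) ⟨?_, ?_⟩
    · rw [ea, eb]; exact Nat.mul_dvd_mul_right hdiv.1 v
    · rw [ea, ed]; exact Nat.mul_dvd_mul_right hdiv.2 v

/-- every integer is in exactly one block -/
theorem sum_card_Sm (K n : ℕ) : ∑ v ∈ Ro K n, (Sm K (n / v)).card = n := by
  rw [← card_blocks (X := Sm K) (fun y => Finset.Subset.refl _)]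
  have : blocks K n (Sm K) = Finset.Icc 1 n := by
    ext a
    rw [Finset.mem_Icc]
    constructor
    · intro ha
      have := blocks_data (X := Sm K) (fun y => Finset.Subset.refl _) ha
      omega
    · rintro ⟨h1, h2⟩
      have h0 : a ≠ 0 := by omega
      have hr := ro_ne_zero K a h0
      rw [mem_blocks]
      refine ⟨ro K a, ?_, sm K a, ?_, sm_mul_ro K a h0⟩
      · rw [mem_Ro]
        exact ⟨⟨Nat.pos_of_ne_zero hr, (ro_le K a h0).trans h2⟩, sm_ro K a⟩
      · rw [mem_Sm]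
        refine ⟨⟨Nat.pos_of_ne_zero (sm_ne_zero K a h0), ?_⟩, ro_sm K a⟩
        rw [Nat.le_div_iff_mul_le (Nat.pos_of_ne_zero hr), sm_mul_ro K a h0]
        exact h2
  rw [this]; simp

/-- double counting -/
theorem sum_countP (K n : ℕ) (D : List ℕ) (hD : D.Nodup) (hpos : ∀ d ∈ D, 1 ≤ d) :
    ∑ v ∈ Ro K n, D.countP (fun x => decide (x ≤ n / v)) = ∑ d ∈ D.toFinset, (Ro K (n / d)).card := by
  have h1 : ∀ v, D.countP (fun x => decide (x ≤ n / v))
      = ∑ _d ∈ D.toFinset.filter (fun x => x ≤ n / v), 1 := by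
    intro v
    rw [countP_le_toFinset D hD, Finset.card_eq_sum_ones]
  simp_rw [h1]
  rw [Finset.sum_comm' (t' := D.toFinset) (s' := fun d => Ro K (n / d))]
  · refine Finset.sum_congr rfl fun d _ => ?_
    rw [Finset.card_eq_sum_ones]
  · intro v d
    rw [mem_Ro, mem_Ro, Finset.mem_filter, List.mem_toFinset]
    constructor
    · rintro ⟨⟨⟨h1, h2⟩, h3⟩, h4, h5⟩
      have hd := hpos d h4
      rw [Nat.le_div_iff_mul_le (by omega)] at h5
      refine ⟨⟨⟨h1, ?_⟩, h3⟩, h4⟩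
      rw [Nat.le_div_iff_mul_le (by omega), mul_comm]; exact h5
    · rintro ⟨⟨⟨h1, h2⟩, h3⟩, h4⟩
      have hd := hpos d h4
      rw [Nat.le_div_iff_mul_le (by omega)] at h2
      refine ⟨⟨⟨h1, ?_⟩, h3⟩, h4, ?_⟩
      · exact le_trans (Nat.le_mul_of_pos_right _ (by omega)) h2
      · rw [Nat.le_div_iff_mul_le (by omega), mul_comm]; exact h2

/-- the layered bound is at least `23` on `[270,320)` -/
theorem g6_ge : ((List.range 50).all fun i => decide (23 ≤ g6 (270 + i))) = true := by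
  decide +kernel

theorem fact_five_pow (i : ℕ) : ((5 : ℕ) ^ i).factorization 5 = i := by
  rw [Nat.Prime.factorization_pow Nat.prime_five]; simp

/-- `5`-adic layers over a fixed `w` -/
theorem layers_le (n : ℕ) (A : Finset ℕ) (hA : A ⊆ Finset.Icc 1 n) (hA2 : Adm A) (w : ℕ) (hw : w ∈ Ro 4 n)
    (hlo : 270 ≤ n / w) (hhi : n / w < 320) :
    ∑ i ∈ Finset.range 4, (A.filter fun a => ro 4 a = 5 ^ i * w).card ≤ 22 := by
  classical
  have hw' := mem_Ro.1 hw
  have hw0 : 0 < w := hw'.1.1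
  have hA0 : ∀ a ∈ A, a ≠ 0 ∧ a ≤ n := by
    intro a ha
    have := Finset.mem_Icc.1 (hA ha)
    exact ⟨by omega, this.2⟩
  rw [← Finset.card_biUnion]
  swap
  · intro i _ j _ hij
    rw [Function.onFun, Finset.disjoint_left]
    intro x hx hy
    rw [Finset.mem_filter] at hx hy
    have h1 : 5 ^ i * w = 5 ^ j * w := by rw [← hx.2, ← hy.2]
    have h2 := Nat.eq_of_mul_eq_mul_right hw0 h1
    exact hij (Nat.pow_right_injective (le_refl 2 |>.trans (by norm_num)) h2)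
  -- data of an element
  have hdat : ∀ a ∈ (Finset.range 4).biUnion (fun i => A.filter fun a => ro 4 a = 5 ^ i * w),
      a ∈ A ∧ ∃ i, a = sm 4 a * 5 ^ i * w := by
    intro a ha
    rw [Finset.mem_biUnion] at ha
    obtain ⟨i, _, hai⟩ := ha
    rw [Finset.mem_filter] at hai
    refine ⟨hai.1, i, ?_⟩
    conv_lhs => rw [← sm_mul_ro 4 a (hA0 a hai.1).1, hai.2]
    ring
  have hinj : Set.InjOn (fun a => a / w)
      (↑((Finset.range 4).biUnion (fun i => A.filter fun a => ro 4 a = 5 ^ i * w)) : Set ℕ) := by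
    intro a ha b hb hab
    obtain ⟨ha1, i, hi⟩ := hdat a ha
    obtain ⟨hb1, j, hj⟩ := hdat b hb
    simp only at hab
    rw [hi, hj, Nat.mul_div_cancel _ hw0, Nat.mul_div_cancel _ hw0] at hab
    rw [hi, hj, hab]
  rw [← Finset.card_image_of_injOn hinj]
  have h22 := mx_six_320 (n / w) hhi
  refine le_trans ?_ h22
  apply card_le_mx
  · intro s hs
    rw [Finset.mem_image] at hs
    obtain ⟨a, ha, rfl⟩ := hs
    obtain ⟨ha1, i, hi⟩ := hdat a ha
    have ha0 := hA0 a ha1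
    rw [mem_Sm]
    refine ⟨⟨?_, Nat.div_le_div_right ha0.2⟩, ?_⟩
    · rw [hi, Nat.mul_div_cancel _ hw0]
      have := sm_ne_zero 4 a ha0.1
      exact Nat.pos_of_ne_zero (by positivity)
    · rw [hi, Nat.mul_div_cancel _ hw0]
      have hs0 := sm_ne_zero 4 a ha0.1
      have h4 : ro 4 (sm 4 a) = 1 := ro_sm 4 a
      have h5 := pair_weight hs0 h4
      rw [← h5]
      apply ro_six_of_dvd (k := (sm 4 a).factorization 2 + (sm 4 a).factorization 3 + i)
      rw [show (30 : ℕ) = 2 * 3 * 5 by norm_num, mul_pow, mul_pow]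
      exact Nat.mul_dvd_mul (Nat.mul_dvd_mul (pow_dvd_pow 2 (by omega)) (pow_dvd_pow 3 (by omega)))
        (pow_dvd_pow 5 (by omega))
  · intro x hx y hy z hz hxy hxz hyz hdiv
    rw [Finset.mem_image] at hx hy hz
    obtain ⟨a, ha, rfl⟩ := hx
    obtain ⟨b, hb, rfl⟩ := hy
    obtain ⟨d, hd, rfl⟩ := hz
    have key : ∀ a ∈ (Finset.range 4).biUnion (fun i => A.filter fun a => ro 4 a = 5 ^ i * w),
        a = (a / w) * w := by
      intro a ha
      obtain ⟨ha1, i, hi⟩ := hdat a ha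
      conv_rhs => rw [hi, Nat.mul_div_cancel _ hw0]
      exact hi
    have ea := key a ha
    have eb := key b hb
    have ed := key d hd
    refine hA2 a (hdat a ha).1 b (hdat b hb).1 d (hdat d hd).1 (fun h => hxy (by rw [h]))
      (fun h => hxz (by rw [h])) (fun h => hyz (by rw [h])) ⟨?_, ?_⟩
    · rw [ea, eb]; exact Nat.mul_dvd_mul_right hdiv.1 w
    · rw [ea, ed]; exact Nat.mul_dvd_mul_right hdiv.2 w

theorem sm_five_pow (i : ℕ) : sm 4 (5 ^ i) = 1 := by
  unfold sm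
  have : ((5 : ℕ) ^ i).factorization.filter (· < 4) = 0 := by
    rw [Finsupp.filter_eq_zero_iff]
    intro p hp
    rw [Nat.Prime.factorization_pow Nat.prime_five, Finsupp.single_apply, if_neg (by omega)]
  rw [this]; simp

theorem five_pow_mul_mem {n w i : ℕ} (hw : w ∈ Ro 4 n) (hlo : 270 ≤ n / w) (hi : i < 4) :
    5 ^ i * w ∈ Ro 4 n := by
  have hw' := mem_Ro.1 hw
  have hw0 : 0 < w := hw'.1.1
  rw [mem_Ro]
  refine ⟨⟨?_, ?_⟩, ?_⟩
  · exact Nat.pos_of_ne_zero (by positivity)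
  · have h1 : 270 * w ≤ n := (Nat.le_div_iff_mul_le hw0).1 hlo
    have h2 : 5 ^ i ≤ 5 ^ 3 := Nat.pow_le_pow_right (by norm_num) (by omega)
    calc 5 ^ i * w ≤ 5 ^ 3 * w := Nat.mul_le_mul_right _ h2
      _ ≤ 270 * w := Nat.mul_le_mul_right _ (by norm_num)
      _ ≤ n := h1
  · rw [sm_mul 4 _ _ (by positivity) (by omega), sm_five_pow, hw'.2]

/-- The main inequality. -/
theorem main_ineq (n : ℕ) :
    f n + ∑ d ∈ D4.toFinset, (Ro 4 (n / d)).card + (Ro 4 (n / 270)).card ≤ n + (Ro 4 (n / 320)).card := by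
  classical
  obtain ⟨A, hA, hA2, hA3⟩ := exists_mx (Finset.Icc 1 n)
  have hf : f n = A.card := by unfold f; exact hA3.symm
  have hA0 : ∀ a ∈ A, a ≠ 0 ∧ a ≤ n := by
    intro a ha
    have := Finset.mem_Icc.1 (hA ha)
    exact ⟨by omega, this.2⟩
  have hmap : ∀ a ∈ A, ro 4 a ∈ Ro 4 n := by
    intro a ha
    obtain ⟨h0, h1⟩ := hA0 a ha
    rw [mem_Ro]
    exact ⟨⟨Nat.pos_of_ne_zero (ro_ne_zero 4 a h0), (ro_le 4 a h0).trans h1⟩, sm_ro 4 a⟩
  have hpos : ∀ d ∈ D4, 1 ≤ d := by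
    intro d hd
    have hsm := D4_small
    rw [List.all_eq_true] at hsm
    have h7 := hsm d hd
    simp only [Bool.and_eq_true, decide_eq_true_eq] at h7
    exact h7.1.2
  -- notation
  set h : ℕ → ℕ := fun w => (A.filter fun a => ro 4 a = w).card with hh
  set c : ℕ → ℕ := fun w => D4.countP (fun x => decide (x ≤ n / w)) with hc
  set S : ℕ → ℕ := fun w => (Sm 4 (n / w)).card with hS
  have hle : ∀ w ∈ Ro 4 n, h w + c w ≤ S w := by
    intro w hw
    have hw0 : 0 < w := (mem_Ro.1 hw).1.1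
    have h1 := fibre_le 4 n A hA hA2 w hw0
    have h2 := two_bound (n / w)
    simp only [hh, hc, hS]
    omega
  have hsumh : A.card = ∑ w ∈ Ro 4 n, h w := Finset.card_eq_sum_card_fiberwise hmap
  have hsumc : ∑ w ∈ Ro 4 n, c w = ∑ d ∈ D4.toFinset, (Ro 4 (n / d)).card :=
    sum_countP 4 n D4 D4_nodup hpos
  have hsumS : ∑ w ∈ Ro 4 n, S w = n := sum_card_Sm 4 n
  -- deficiency
  set df : ℕ → ℕ := fun w => S w - (h w + c w) with hdf
  have hsumdf : ∑ w ∈ Ro 4 n, df w + (∑ w ∈ Ro 4 n, h w + ∑ w ∈ Ro 4 n, c w) = ∑ w ∈ Ro 4 n, S w := by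
    rw [← Finset.sum_add_distrib, ← Finset.sum_add_distrib]
    refine Finset.sum_congr rfl fun w hw => ?_
    have := hle w hw
    simp only [hdf]
    omega
  -- the window
  set W : Finset ℕ := (Ro 4 n).filter (fun w => 270 ≤ n / w ∧ n / w < 320) with hW
  have hex : ∀ w ∈ W, ∃ i < 4, 1 ≤ df (5 ^ i * w) := by
    intro w hw
    rw [hW, Finset.mem_filter] at hw
    obtain ⟨hw1, hw2, hw3⟩ := hw
    by_contra hcon
    push Not at hcon
    have h1 := layers_le n A hA hA2 w hw1 hw2 hw3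
    have h2 : ∀ i ∈ Finset.range 4, u4 (n / w / 5 ^ i) ≤ (A.filter fun a => ro 4 a = 5 ^ i * w).card := by
      intro i hi
      rw [Finset.mem_range] at hi
      have h3 := hcon i hi
      have h4 := hle (5 ^ i * w) (five_pow_mul_mem hw1 hw2 hi)
      have h5 : n / (5 ^ i * w) = n / w / 5 ^ i := by
        rw [Nat.div_div_eq_div_mul, mul_comm]
      have h6 := S4_count_le (n / w / 5 ^ i)
      simp only [hdf, hh, hc, hS, h5] at h3 h4
      unfold u4
      omega
    have h3 := Finset.sum_le_sum h2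
    have h4 : ∑ i ∈ Finset.range 4, u4 (n / w / 5 ^ i) = g6 (n / w) := by
      simp [Finset.sum_range_succ, g6]
    have h5 : 23 ≤ g6 (n / w) := by
      have h6 := g6_ge
      rw [List.all_eq_true] at h6
      have h7 := h6 (n / w - 270) (List.mem_range.2 (by omega))
      rw [decide_eq_true_eq] at h7
      rwa [show 270 + (n / w - 270) = n / w by omega] at h7
    omega
  -- the injection
  choose! g hg1 hg2 using hex
  have hinj : Set.InjOn (fun w => 5 ^ (g w) * w) (↑W : Set ℕ) := by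
    intro a ha b hb hab
    have ha' := ha
    have hb' := hb
    rw [Finset.mem_coe, hW, Finset.mem_filter] at ha' hb'
    obtain ⟨ha1, ha2, ha3⟩ := ha'
    obtain ⟨hb1, hb2, hb3⟩ := hb'
    have ha0 : 0 < a := (mem_Ro.1 ha1).1.1
    have hb0 : 0 < b := (mem_Ro.1 hb1).1.1
    rw [Nat.le_div_iff_mul_le ha0] at ha2
    rw [Nat.le_div_iff_mul_le hb0] at hb2
    rw [Nat.div_lt_iff_lt_mul ha0] at ha3
    rw [Nat.div_lt_iff_lt_mul hb0] at hb3
    simp only at hab
    rcases lt_trichotomy (g a) (g b) with hlt | heq | hgt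
    · exfalso
      obtain ⟨k, hk⟩ : ∃ k, g b = g a + (k + 1) := ⟨g b - g a - 1, by omega⟩
      rw [hk, pow_add, mul_assoc] at hab
      have h1 := Nat.eq_of_mul_eq_mul_left (show 0 < 5 ^ g a by positivity) hab
      have h2 : 5 ≤ 5 ^ (k + 1) := by
        calc 5 = 5 ^ 1 := by norm_num
          _ ≤ 5 ^ (k + 1) := Nat.pow_le_pow_right (by norm_num) (by omega)
      have h3 : 5 * b ≤ 5 ^ (k + 1) * b := Nat.mul_le_mul_right _ h2
      omega
    · rw [heq] at hab
      exact Nat.eq_of_mul_eq_mul_left (by positivity) hab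
    · exfalso
      obtain ⟨k, hk⟩ : ∃ k, g a = g b + (k + 1) := ⟨g a - g b - 1, by omega⟩
      rw [hk, pow_add, mul_assoc] at hab
      have h1 := Nat.eq_of_mul_eq_mul_left (show 0 < 5 ^ g b by positivity) hab
      have h2 : 5 ≤ 5 ^ (k + 1) := by
        calc 5 = 5 ^ 1 := by norm_num
          _ ≤ 5 ^ (k + 1) := Nat.pow_le_pow_right (by norm_num) (by omega)
      have h3 : 5 * a ≤ 5 ^ (k + 1) * a := Nat.mul_le_mul_right _ h2
      omega
  have hWdf : W.card ≤ ∑ w ∈ Ro 4 n, df w := by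
    rw [← Finset.card_image_of_injOn hinj]
    have hsub : W.image (fun w => 5 ^ (g w) * w) ⊆ Ro 4 n := by
      intro x hx
      rw [Finset.mem_image] at hx
      obtain ⟨w, hw, rfl⟩ := hx
      have hw' := hw
      rw [hW, Finset.mem_filter] at hw'
      exact five_pow_mul_mem hw'.1 hw'.2.1 (hg1 w hw)
    calc (W.image (fun w => 5 ^ (g w) * w)).card
        = ∑ x ∈ W.image (fun w => 5 ^ (g w) * w), 1 := Finset.card_eq_sum_ones _
      _ ≤ ∑ x ∈ W.image (fun w => 5 ^ (g w) * w), df x := by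
          refine Finset.sum_le_sum fun x hx => ?_
          rw [Finset.mem_image] at hx
          obtain ⟨w, hw, rfl⟩ := hx
          exact hg2 w hw
      _ ≤ ∑ w ∈ Ro 4 n, df w := Finset.sum_le_sum_of_subset hsub
  -- size of the window
  have hWcard : (Ro 4 (n / 270)).card ≤ W.card + (Ro 4 (n / 320)).card := by
    refine le_trans (Finset.card_le_card ?_) (Finset.card_union_le _ _)
    intro w hw
    rw [mem_Ro] at hw
    obtain ⟨⟨h1, h2⟩, h3⟩ := hw
    rw [Nat.le_div_iff_mul_le (by norm_num)] at h2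
    rw [Finset.mem_union]
    by_cases h4 : w ≤ n / 320
    · right
      rw [mem_Ro]
      exact ⟨⟨h1, h4⟩, h3⟩
    · left
      rw [hW, Finset.mem_filter, mem_Ro]
      rw [Nat.le_div_iff_mul_le (by norm_num)] at h4
      refine ⟨⟨⟨h1, by omega⟩, h3⟩, ?_, ?_⟩
      · rw [Nat.le_div_iff_mul_le (by omega)]; omega
      · rw [Nat.div_lt_iff_lt_mul (by omega)]; omega
  rw [hf, hsumh]
  rw [hsumc, hsumS] at hsumdf
  omega

theorem Q_four : Q 4 = 6 := by
  unfold Q
  have : (4 : ℕ).primesBelow = {2, 3} := by decide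
  rw [this]; decide

theorem dens_four : dens 4 = 1 / 3 := by
  unfold dens
  rw [Q_four]
  have : Nat.totient 6 = 2 := by decide
  rw [this]; norm_num

/-- the numerical value -/
theorem D4_sum : (98109 : ℚ) / 100000 + (1 / 320 - 1 / 270) < (D4.map fun d : ℕ => 1 / (d : ℚ)).sum := by
  decide +kernel

theorem D4_sum_real : (98109 : ℝ) / 100000 + (1 / 320 - 1 / 270) < ∑ d ∈ D4.toFinset, ((d : ℝ))⁻¹ := by
  have h1 : ((∑ d ∈ D4.toFinset, ((d : ℚ))⁻¹ : ℚ) : ℝ) = ∑ d ∈ D4.toFinset, ((d : ℝ))⁻¹ := by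
    push_cast; rfl
  have h2 : ∑ d ∈ D4.toFinset, ((d : ℚ))⁻¹ = (D4.map fun d : ℕ => 1 / (d : ℚ)).sum := by
    rw [List.sum_toFinset _ D4_nodup]
    simp only [one_div]
  rw [← h1, h2]
  have h3 := D4_sum
  have h4 : (((98109 : ℚ) / 100000 + (1 / 320 - 1 / 270) : ℚ) : ℝ)
      < (((D4.map fun d : ℕ => 1 / (d : ℚ)).sum : ℚ) : ℝ) := by exact_mod_cast h3
  refine lt_of_eq_of_lt ?_ h4
  push_cast; ring

theorem upper_bound : ∀ᶠ n : ℕ in atTop, (f n : ℝ) ≤ 0.67297 * n := by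
  have hpos : ∀ d ∈ D4.toFinset, d ≠ 0 := by
    intro d hd
    rw [List.mem_toFinset] at hd
    have hsm := D4_small
    rw [List.all_eq_true] at hsm
    have h7 := hsm d hd
    simp only [Bool.and_eq_true, decide_eq_true_eq] at h7
    have := h7.1.2
    omega
  have h1 : Tendsto (fun n : ℕ => 1 + ((Ro 4 (n / 320)).card : ℝ) / n - ((Ro 4 (n / 270)).card : ℝ) / n
      - ∑ d ∈ D4.toFinset, ((Ro 4 (n / d)).card : ℝ) / n) atTop
      (𝓝 (1 + dens 4 * ((320 : ℕ) : ℝ)⁻¹ - dens 4 * ((270 : ℕ) : ℝ)⁻¹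
        - ∑ d ∈ D4.toFinset, dens 4 * ((d : ℝ))⁻¹)) := by
    refine ((tendsto_const_nhds.add (Ro_div_tendsto 4 320 (by norm_num))).sub
      (Ro_div_tendsto 4 270 (by norm_num))).sub ?_
    exact tendsto_finsetSum _ fun d hd => Ro_div_tendsto 4 d (hpos d hd)
  have h2 : 1 + dens 4 * ((320 : ℕ) : ℝ)⁻¹ - dens 4 * ((270 : ℕ) : ℝ)⁻¹
        - ∑ d ∈ D4.toFinset, dens 4 * ((d : ℝ))⁻¹ < 0.67297 := by
    rw [← Finset.mul_sum, dens_four]
    have h3 := D4_sum_real
    push_cast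
    norm_num at h3 ⊢
    linarith
  filter_upwards [h1.eventually (gt_mem_nhds h2), eventually_gt_atTop 0] with n hn hn0
  have hnR : (0 : ℝ) < n := by exact_mod_cast hn0
  have h4 : (f n : ℝ) + ∑ d ∈ D4.toFinset, ((Ro 4 (n / d)).card : ℝ) + ((Ro 4 (n / 270)).card : ℝ)
      ≤ n + ((Ro 4 (n / 320)).card : ℝ) := by exact_mod_cast main_ineq n
  have h5 : (f n : ℝ) / n ≤ 1 + ((Ro 4 (n / 320)).card : ℝ) / n - ((Ro 4 (n / 270)).card : ℝ) / n
      - ∑ d ∈ D4.toFinset, ((Ro 4 (n / d)).card : ℝ) / n := by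
    rw [← Finset.sum_div, div_le_iff₀ hnR, sub_mul, sub_mul, add_mul, div_mul_cancel₀ _ hnR.ne',
      div_mul_cancel₀ _ hnR.ne', div_mul_cancel₀ _ hnR.ne']
    linarith
  rw [← div_le_iff₀ hnR]
  linarith

end Pool.Agent.Helper88.Div
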