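import Mathlib
import Pool.Agent.Helper88.ErCore

open MeasureTheory ProbabilityTheory Filter Finset Asymptotics
open scoped Topology

namespace Pool.Agent.Helper88.ER

open Pool.Agent.Helper88.Lln

variable {Ω : Type*} [mΩ : MeasurableSpace Ω] {μ : Measure Ω} {ℱ : Filtration ℕ mΩ}

/-- spacing of the points `⌊k^q⌋` -/
lemma spacing {C q : ℝ} (hq : 1 < q) : ∀ᶠ k : ℕ in atTop,
    C * Real.log (⌊(k : ℝ) ^ q⌋₊ : ℝ) ^ 2 + (⌊(k : ℝ) ^ q⌋₊ : ℝ) ≤ (⌊((k + 1 : ℕ) : ℝ) ^ q⌋₊ : ℝ) := by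
  have h1 : (fun x : ℝ => Real.log x ^ (2 : ℝ)) =o[atTop] fun x => x ^ (q - 1) :=
    isLittleO_log_rpow_rpow_atTop 2 (by linarith)
  have h2 : ∀ᶠ k : ℕ in atTop, ‖Real.log (k : ℝ) ^ (2 : ℝ)‖ ≤
      1 / (2 * (|C| + 1) * q ^ 2) * ‖(k : ℝ) ^ (q - 1)‖ :=
    tendsto_natCast_atTop_atTop.eventually
      (h1.def (c := 1 / (2 * (|C| + 1) * q ^ 2)) (by positivity))
  have h3 : ∀ᶠ k : ℕ in atTop, (2 : ℝ) ≤ (k : ℝ) ^ (q - 1) :=
    ((tendsto_rpow_atTop (by linarith : 0 < q - 1)).comp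
      tendsto_natCast_atTop_atTop).eventually_ge_atTop 2
  filter_upwards [h2, h3, eventually_ge_atTop 2] with k hk1 hk2 hk3
  have hk : (2 : ℝ) ≤ k := by exact_mod_cast hk3
  have hk0 : (0 : ℝ) < k := by linarith
  have hlog : 0 ≤ Real.log k := Real.log_nonneg (by linarith)
  rw [Real.norm_eq_abs, Real.norm_eq_abs,
    abs_of_nonneg (show 0 ≤ Real.log (k : ℝ) ^ (2 : ℝ) by positivity),
    abs_of_nonneg (show 0 ≤ (k : ℝ) ^ (q - 1) by positivity)] at hk1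
  have e2 : Real.log (k : ℝ) ^ (2 : ℝ) = Real.log k ^ 2 := by
    rw [← Real.rpow_natCast]; norm_num
  rw [e2] at hk1
  have hx1 : (1 : ℝ) ≤ (k : ℝ) ^ q := Real.one_le_rpow (by linarith) (by linarith)
  have hfl : (⌊(k : ℝ) ^ q⌋₊ : ℝ) ≤ (k : ℝ) ^ q := Nat.floor_le (by positivity)
  have hfl1 : (1 : ℝ) ≤ (⌊(k : ℝ) ^ q⌋₊ : ℝ) := by
    have : 1 ≤ ⌊(k : ℝ) ^ q⌋₊ := Nat.le_floor (by simpa using hx1)
    exact_mod_cast this
  have hl : Real.log (⌊(k : ℝ) ^ q⌋₊ : ℝ) ≤ q * Real.log k := by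
    rw [← Real.log_rpow hk0]
    exact Real.log_le_log (by linarith) hfl
  have hl0 : 0 ≤ Real.log (⌊(k : ℝ) ^ q⌋₊ : ℝ) := Real.log_nonneg hfl1
  have h4 : C * Real.log (⌊(k : ℝ) ^ q⌋₊ : ℝ) ^ 2 ≤ (k : ℝ) ^ (q - 1) / 2 := by
    calc C * Real.log (⌊(k : ℝ) ^ q⌋₊ : ℝ) ^ 2 ≤ (|C| + 1) * (q * Real.log k) ^ 2 := by
          have : C ≤ |C| + 1 := by linarith [le_abs_self C]
          gcongr
      _ = (|C| + 1) * q ^ 2 * Real.log k ^ 2 := by ring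
      _ ≤ (|C| + 1) * q ^ 2 * (1 / (2 * (|C| + 1) * q ^ 2) * (k : ℝ) ^ (q - 1)) := by gcongr
      _ = (k : ℝ) ^ (q - 1) / 2 := by field_simp
  -- `(k+1)^q ≥ k^q + q k^(q-1)`
  have h5 : (k : ℝ) ^ q + q * (k : ℝ) ^ (q - 1) ≤ ((k + 1 : ℕ) : ℝ) ^ q := by
    have hb := one_add_mul_self_le_rpow_one_add (s := 1 / (k : ℝ)) (by
      have : (0 : ℝ) ≤ 1 / k := by positivity
      linarith) hq.le
    have e3 : ((k + 1 : ℕ) : ℝ) = k * (1 + 1 / k) := by push_cast; field_simp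
    rw [e3, Real.mul_rpow (by positivity) (by positivity)]
    have e4 : (k : ℝ) ^ q + q * (k : ℝ) ^ (q - 1) = (k : ℝ) ^ q * (1 + q * (1 / k)) := by
      rw [Real.rpow_sub_one hk0.ne']
      field_simp
    rw [e4]
    exact mul_le_mul_of_nonneg_left hb (by positivity)
  have h6 := Nat.lt_floor_add_one (((k + 1 : ℕ) : ℝ) ^ q)
  have h7 : (k : ℝ) ^ (q - 1) ≤ q * (k : ℝ) ^ (q - 1) := by
    have : 0 ≤ (k : ℝ) ^ (q - 1) := by positivity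
    nlinarith
  linarith

theorem bc_log [IsProbabilityMeasure μ] {m : ℕ → ℕ} {C s : ℝ} (hs : 1 / 2 ≤ s) (hs1 : s < 1)
    (hm : ∀ x : ℕ, (m x : ℝ) ≤ C * Real.log x ^ 2) {G : ℕ → Set Ω} {x₀ : ℕ}
    (hG : ∀ x, x₀ ≤ x → MeasurableSet[ℱ (x + m x)] (G x))
    (hp : ∀ x, x₀ ≤ x → ∀ φ : Ω → ℝ, MB (ℱ x) φ → (∀ ω, 0 ≤ φ ω) →
      1 / 2 * (x : ℝ) ^ (-s) * ∫ ω, φ ω ∂μ ≤ ∫ ω, (G x).indicator φ ω ∂μ) :
    ∀ᵐ ω ∂μ, ∃ᶠ x : ℕ in atTop, ω ∈ G x := by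
  set q : ℝ := 2 / (1 + s) with hq
  have hq1 : 1 < q := by rw [hq, lt_div_iff₀ (by linarith)]; linarith
  have hqs : q * s ≤ 1 := by
    rw [hq, div_mul_eq_mul_div, div_le_one (by linarith)]; linarith
  set x : ℕ → ℕ := fun k => ⌊(k : ℝ) ^ q⌋₊ with hx
  have hxt : Tendsto x atTop atTop :=
    tendsto_nat_floor_atTop.comp ((tendsto_rpow_atTop (by linarith)).comp
      tendsto_natCast_atTop_atTop)
  obtain ⟨k₀, hk₀⟩ := eventually_atTop.mp ((spacing (C := C) hq1).and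
    ((hxt.eventually_ge_atTop x₀).and (eventually_ge_atTop 2)))
  have hsp : ∀ k, k₀ ≤ k → x k + m (x k) ≤ x (k + 1) := by
    intro k hk
    have h1 := (hk₀ k hk).1
    have h2 := hm (x k)
    have h3 : ((x k + m (x k) : ℕ) : ℝ) ≤ ((x (k + 1) : ℕ) : ℝ) := by
      push_cast
      simp only [hx] at h2 ⊢
      linarith
    exact_mod_cast h3
  have hb := bc (μ := μ) (ℱ := ℱ) (x := x) (k₀ := k₀) (G := fun k => G (x k))
    (fun k hk => (Nat.le_add_right _ _).trans (hsp k hk))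
    (fun k hk => ℱ.mono (hsp k hk) _ (hG (x k) (hk₀ k hk).2.1))
    (p := fun k => 1 / 2 * (x k : ℝ) ^ (-s))
    (fun k hk φ hφ hφ0 => hp (x k) (hk₀ k hk).2.1 φ hφ hφ0) ?_
  · filter_upwards [hb] with ω hω
    exact hxt.frequently hω
  · -- divergence
    have h1 : Tendsto (fun n : ℕ => 1 / 2 * ∑ i ∈ range n, (1 / ((i : ℝ) + 1))) atTop atTop :=
      Real.tendsto_sum_range_one_div_nat_succ_atTop.const_mul_atTop (by norm_num)
    have h2 : Tendsto (fun n : ℕ => -(1 / 2 * ∑ i ∈ range k₀, (1 / ((i : ℝ) + 1))) +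
        1 / 2 * ∑ i ∈ range (k₀ + n), (1 / ((i : ℝ) + 1))) atTop atTop := by
      refine tendsto_atTop_add_const_left _ _ ?_
      refine (h1.comp (tendsto_add_atTop_nat k₀)).congr fun n => ?_
      simp only [Function.comp]
      rw [add_comm]
    refine tendsto_atTop_mono (fun n => ?_) h2
    rw [sum_range_add, mul_add, neg_add_cancel_left, mul_sum]
    refine sum_le_sum fun i _ => ?_
    have hki := (hk₀ (k₀ + i) (by omega)).2.2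
    have hk2 : (2 : ℝ) ≤ ((k₀ + i : ℕ) : ℝ) := by exact_mod_cast hki
    have hfl : (x (k₀ + i) : ℝ) ≤ ((k₀ + i : ℕ) : ℝ) ^ q := Nat.floor_le (by positivity)
    have hx1 : (1 : ℝ) ≤ ((k₀ + i : ℕ) : ℝ) ^ q := Real.one_le_rpow (by linarith) (by linarith)
    have hfl1 : (1 : ℝ) ≤ (x (k₀ + i) : ℝ) := by
      have : 1 ≤ ⌊((k₀ + i : ℕ) : ℝ) ^ q⌋₊ := Nat.le_floor (by simpa using hx1)
      exact_mod_cast this
    have h3 : (x (k₀ + i) : ℝ) ^ s ≤ ((k₀ + i : ℕ) : ℝ) := by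
      calc (x (k₀ + i) : ℝ) ^ s ≤ (((k₀ + i : ℕ) : ℝ) ^ q) ^ s :=
            Real.rpow_le_rpow (by linarith) hfl (by linarith)
        _ = ((k₀ + i : ℕ) : ℝ) ^ (q * s) := by rw [← Real.rpow_mul (by linarith)]
        _ ≤ ((k₀ + i : ℕ) : ℝ) ^ (1 : ℝ) := Real.rpow_le_rpow_of_exponent_le (by linarith) hqs
        _ = _ := Real.rpow_one _
    have h4 : 0 < (x (k₀ + i) : ℝ) ^ s := Real.rpow_pos_of_pos (by linarith) _
    rw [Real.rpow_neg (by linarith)]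
    refine mul_le_mul_of_nonneg_left ?_ (by norm_num)
    rw [← one_div]
    apply one_div_le_one_div_of_le h4
    push_cast at h3 ⊢
    linarith

end Pool.Agent.Helper88.ER
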