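import Mathlib
import Pool.Agent.Helper88.ErBc

open MeasureTheory ProbabilityTheory Filter Finset
open scoped Topology

namespace Pool.Agent.Helper88.ER

open Pool.Agent.Helper88.Lln

/-- the rate function -/
noncomputable def II (z : ℝ) : ℝ := z * Real.log z - z + 1

lemma II_nonneg {z : ℝ} (hz : 0 ≤ z) : 0 ≤ II z := by
  unfold II
  rcases hz.eq_or_lt with rfl | h
  · simp
  · have h1 := Real.one_sub_inv_le_log_of_pos h
    have h2 : z * (1 - z⁻¹) ≤ z * Real.log z := mul_le_mul_of_nonneg_left h1 hz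
    have h3 : z * (1 - z⁻¹) = z - 1 := by field_simp
    linarith

/-- the scalar inequality behind the tilt -/
lemma scalar {α K η t : ℝ} (hK : 1 ≤ K) (h1 : 1 / K ≤ α) (h2 : α ≤ K) (hη : K * η ≤ 1 / 2)
    (ht0 : 0 ≤ t) (ht : t ≤ η) :
    0 < 1 + (α - 1) * t ∧
    α * t / (1 + (α - 1) * t) ≤ 2 * K * t ∧
    |α * t / (1 + (α - 1) * t) - α * t| ≤ 2 * K ^ 2 * η * t ∧
    Real.log α * (α * t / (1 + (α - 1) * t)) - Real.log (1 + (α - 1) * t) ≤
      (II α + 4 * K ^ 3 * η) * t := by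
  have hK0 : 0 < K := by linarith
  have hα : 0 < α := lt_of_lt_of_le (by positivity) h1
  have hη0 : 0 ≤ η := ht0.trans ht
  have hθ : |Real.log α| ≤ K := by
    rw [abs_le]
    constructor
    · have := Real.one_sub_inv_le_log_of_pos hα
      have h3 : α⁻¹ ≤ K := by
        rw [inv_le_comm₀ hα hK0]
        rwa [one_div] at h1
      linarith
    · have := Real.log_le_sub_one_of_pos hα
      linarith
  have hα1 : |α - 1| ≤ K := by
    rw [abs_le]; constructor <;> linarith
  set u := (α - 1) * t with hu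
  have hu1 : |u| ≤ K * t := by
    rw [hu, abs_mul, abs_of_nonneg ht0]
    exact mul_le_mul_of_nonneg_right hα1 ht0
  have hu2 : |u| ≤ 1 / 2 := hu1.trans ((mul_le_mul_of_nonneg_left ht hK0.le).trans hη)
  have hu3 := abs_le.mp hu2
  have hd : 1 / 2 ≤ 1 + u := by linarith
  have hd0 : 0 < 1 + u := by linarith
  have hinv : 1 / (1 + u) ≤ 2 := by
    rw [div_le_iff₀ hd0]; linarith
  have e1 : α * t / (1 + u) - α * t = -(α * t * u) * (1 / (1 + u)) := by
    field_simp
    ring
  have b1 : |α * t / (1 + u) - α * t| ≤ 2 * K ^ 2 * η * t := by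
    rw [e1, abs_mul, abs_neg, abs_mul, abs_mul, abs_of_pos hα, abs_of_nonneg ht0,
      abs_of_pos (by positivity : 0 < 1 / (1 + u))]
    calc α * t * |u| * (1 / (1 + u)) ≤ K * t * (K * η) * 2 := by
          have : |u| ≤ K * η := hu1.trans (mul_le_mul_of_nonneg_left ht hK0.le)
          gcongr
      _ = 2 * K ^ 2 * η * t := by ring
  refine ⟨hd0, ?_, b1, ?_⟩
  · calc α * t / (1 + u) = (α * t) * (1 / (1 + u)) := by ring
      _ ≤ (K * t) * 2 := by gcongr
      _ = 2 * K * t := by ring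
  · have b2 : Real.log α * (α * t / (1 + u)) ≤ Real.log α * (α * t) + 2 * K ^ 3 * η * t := by
      have : Real.log α * (α * t / (1 + u)) =
          Real.log α * (α * t) + Real.log α * (α * t / (1 + u) - α * t) := by ring
      rw [this]
      have h4 : Real.log α * (α * t / (1 + u) - α * t) ≤ K * (2 * K ^ 2 * η * t) := by
        calc _ ≤ |Real.log α * (α * t / (1 + u) - α * t)| := le_abs_self _
          _ = |Real.log α| * |α * t / (1 + u) - α * t| := abs_mul _ _
          _ ≤ _ := mul_le_mul hθ b1 (abs_nonneg _) hK0.le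
      have : K * (2 * K ^ 2 * η * t) = 2 * K ^ 3 * η * t := by ring
      linarith
    have b3 : -Real.log (1 + u) ≤ -u + 2 * K ^ 2 * η * t := by
      have h5 := Real.one_sub_inv_le_log_of_pos hd0
      have h6 : 1 - (1 + u)⁻¹ = u - u ^ 2 * (1 / (1 + u)) := by field_simp; ring
      rw [h6] at h5
      have h7 : u ^ 2 * (1 / (1 + u)) ≤ 2 * K ^ 2 * η * t := by
        have h8 : u ^ 2 ≤ (K * η) * (K * t) := by
          rw [← sq_abs, sq]
          have : |u| ≤ K * η := hu1.trans (mul_le_mul_of_nonneg_left ht hK0.le)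
          exact mul_le_mul this hu1 (abs_nonneg _) (by positivity)
        calc u ^ 2 * (1 / (1 + u)) ≤ ((K * η) * (K * t)) * 2 := by
              gcongr
          _ = _ := by ring
      linarith
    have hK3 : 2 * K ^ 2 * η * t ≤ 2 * K ^ 3 * η * t := by
      have : K ^ 2 ≤ K ^ 3 := pow_le_pow_right₀ hK (by norm_num)
      have : 2 * K ^ 2 * (η * t) ≤ 2 * K ^ 3 * (η * t) := by gcongr
      linarith
    unfold II
    rw [hu] at b3 b2 ⊢
    nlinarith

/-- grid points -/
noncomputable def mm (δ : ℝ) (x i : ℕ) : ℕ := ⌊(i : ℝ) * δ * Real.log x ^ 2⌋₊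

lemma mm_mono {δ : ℝ} (hδ : 0 ≤ δ) (x : ℕ) : Monotone (mm δ x) := by
  intro a b hab
  unfold mm
  apply Nat.floor_mono
  have : (a : ℝ) ≤ b := by exact_mod_cast hab
  gcongr

open Classical in
/-- the window indicators -/
noncomputable def ww (δ : ℝ) (x i n : ℕ) : ℝ :=
  if x + mm δ x i ≤ n ∧ n < x + mm δ x (i + 1) then 1 else 0

lemma ww_nonneg (δ : ℝ) (x i n : ℕ) : 0 ≤ ww δ x i n := by unfold ww; split_ifs <;> norm_num

lemma ww_cases {δ : ℝ} (hδ : 0 ≤ δ) (x n j : ℕ) : (∀ i < j, ww δ x i n = 0) ∨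
    ∃ i₀ < j, ww δ x i₀ n = 1 ∧ ∀ i < j, i ≠ i₀ → ww δ x i n = 0 := by
  by_cases h : ∃ i₀ < j, x + mm δ x i₀ ≤ n ∧ n < x + mm δ x (i₀ + 1)
  · right
    obtain ⟨i₀, hi, h1, h2⟩ := h
    refine ⟨i₀, hi, by unfold ww; rw [if_pos ⟨h1, h2⟩], fun i _ hne => ?_⟩
    unfold ww
    rw [if_neg]
    rintro ⟨h3, h4⟩
    rcases lt_or_gt_of_ne hne with h5 | h5
    · have := mm_mono hδ x (show i + 1 ≤ i₀ by omega)
      omega
    · have := mm_mono hδ x (show i₀ + 1 ≤ i by omega)
      omega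
  · left
    push Not at h
    intro i hi
    unfold ww
    rw [if_neg]
    rintro ⟨h3, h4⟩
    have := h i hi h3
    omega

lemma window_sum (f : ℕ → ℝ) {a b N : ℕ} (hab : a ≤ b) (hb : b ≤ N) :
    ∑ k ∈ range N, (if a ≤ k ∧ k < b then f k else 0) = ∑ k ∈ range b, f k - ∑ k ∈ range a, f k := by
  rw [← Finset.sum_Ico_eq_sub f hab, ← sum_filter]
  congr 1
  ext k
  simp only [mem_filter, mem_range, mem_Ico]
  omega

lemma ww_sum {δ : ℝ} (hδ : 0 ≤ δ) (x : ℕ) {i j : ℕ} (hi : i < j) (f : ℕ → ℝ) :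
    ∑ k ∈ range (mm δ x j), ww δ x i (x + k) * f k =
      ∑ k ∈ range (mm δ x (i + 1)), f k - ∑ k ∈ range (mm δ x i), f k := by
  rw [← window_sum f (mm_mono hδ x (Nat.le_succ i)) (mm_mono hδ x (show i + 1 ≤ j by omega))]
  refine sum_congr rfl fun k _ => ?_
  unfold ww
  simp only [Nat.add_le_add_iff_left, Nat.add_lt_add_iff_left]
  split_ifs <;> simp

variable {Ω : Type*} [mΩ : MeasurableSpace Ω] {μ : Measure Ω} {ℱ : Filtration ℕ mΩ}
  {R : ℕ → Set Ω}

section params

variable (μ ℱ R) (δ η : ℝ) (α : ℕ → ℝ) (j x : ℕ)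

/-- compensator in the window -/
noncomputable def AA (i n : ℕ) (ω : Ω) : ℝ := ∑ k ∈ range (n + 1), ww δ x i k * lam μ ℱ R k ω

open Classical in
noncomputable def hh (n : ℕ) (ω : Ω) : ℝ :=
  if lam μ ℱ R n ω ≤ η ∧ ∀ i < j, AA μ ℱ R δ x i n ω ≤ (δ + η) * Real.log x then 1 else 0

noncomputable def cc (n : ℕ) (ω : Ω) : ℝ :=
  hh μ ℱ R δ η j x n ω * ∑ i ∈ range j, ww δ x i n * (α i - 1)

noncomputable def uu (i n : ℕ) (ω : Ω) : ℝ := hh μ ℱ R δ η j x n ω * ww δ x i n

end params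

variable {δ η : ℝ} {α : ℕ → ℝ} {j x : ℕ}

lemma hh_cases (n : ℕ) (ω : Ω) : hh μ ℱ R δ η j x n ω = 0 ∨ (hh μ ℱ R δ η j x n ω = 1 ∧
    lam μ ℱ R n ω ≤ η ∧ ∀ i < j, AA μ ℱ R δ x i n ω ≤ (δ + η) * Real.log x) := by
  unfold hh
  split_ifs with h
  · exact Or.inr ⟨rfl, h⟩
  · exact Or.inl rfl

lemma AA_MB (i n : ℕ) : MB (ℱ n) (AA μ ℱ R δ x i n) := by
  refine MB.sum _ fun k hk => ?_
  rw [mem_range] at hk
  exact (MB.const _).mul ((lam_MB k).mono (ℱ.mono (by omega)))

lemma hh_MB (n : ℕ) : MB (ℱ n) (hh μ ℱ R δ η j x n) := by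
  classical
  have hs : MeasurableSet[ℱ n] {ω | lam μ ℱ R n ω ≤ η ∧
      ∀ i < j, AA μ ℱ R δ x i n ω ≤ (δ + η) * Real.log x} := by
    have e : {ω | lam μ ℱ R n ω ≤ η ∧ ∀ i < j, AA μ ℱ R δ x i n ω ≤ (δ + η) * Real.log x} =
        (lam μ ℱ R n ⁻¹' Set.Iic η) ∩ ⋂ i ∈ range j,
          (AA μ ℱ R δ x i n ⁻¹' Set.Iic ((δ + η) * Real.log x)) := by
      ext ω; simp
    rw [e]
    refine MeasurableSet.inter ((lam_MB n).1 measurableSet_Iic) ?_
    exact Finset.measurableSet_biInter _ fun i _ => (AA_MB i n).1 measurableSet_Iic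
  have h := (MB.const (m := ℱ n) 1).indicator (s := {ω | lam μ ℱ R n ω ≤ η ∧
      ∀ i < j, AA μ ℱ R δ x i n ω ≤ (δ + η) * Real.log x}) hs
  have e : hh μ ℱ R δ η j x n = fun ω => if ω ∈ {ω | lam μ ℱ R n ω ≤ η ∧
      ∀ i < j, AA μ ℱ R δ x i n ω ≤ (δ + η) * Real.log x} then (1 : ℝ) else 0 := by
    ext ω
    unfold hh
    congr
  rw [e]
  exact h

lemma uu_MB (i n : ℕ) : MB (ℱ n) (uu μ ℱ R δ η j x i n) := (hh_MB n).mul (MB.const _)

lemma cc_MB (n : ℕ) : MB (ℱ n) (cc μ ℱ R δ η α j x n) := (hh_MB n).mul (MB.const _)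

lemma tiltK {K : ℝ} (hδ : 0 ≤ δ) (hK : 1 ≤ K) (hα1 : ∀ i < j, 1 / K ≤ α i)
    (hα2 : ∀ i < j, α i ≤ K) : Tilt ℱ (cc μ ℱ R δ η α j x) (1 - 1 / K) K := by
  have hK0 : 0 < K := by linarith
  have h1K : 1 / K ≤ 1 := by rw [div_le_one hK0]; exact hK
  have hb : ∀ n ω, -(1 - 1 / K) ≤ cc μ ℱ R δ η α j x n ω ∧ cc μ ℱ R δ η α j x n ω ≤ K := by
    intro n ω
    have hs : -(1 - 1 / K) ≤ ∑ i ∈ range j, ww δ x i n * (α i - 1) ∧
        ∑ i ∈ range j, ww δ x i n * (α i - 1) ≤ K := by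
      rcases ww_cases hδ x n j with h | ⟨i₀, hi, h1, h2⟩
      · have : ∑ i ∈ range j, ww δ x i n * (α i - 1) = 0 :=
          sum_eq_zero fun i hi => by rw [h i (mem_range.mp hi), zero_mul]
        rw [this]
        constructor <;> linarith
      · have : ∑ i ∈ range j, ww δ x i n * (α i - 1) = α i₀ - 1 := by
          rw [sum_eq_single i₀, h1, one_mul]
          · intro i hi' hne
            rw [h2 i (mem_range.mp hi') hne, zero_mul]
          · intro h; exact absurd (mem_range.mpr hi) h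
        rw [this]
        have := hα1 i₀ hi
        have := hα2 i₀ hi
        constructor <;> linarith
    unfold cc
    rcases hh_cases (μ := μ) (ℱ := ℱ) (R := R) (δ := δ) (η := η) (j := j) (x := x) n ω with
      h | ⟨h, -⟩
    · rw [h, zero_mul]
      constructor <;> linarith
    · rw [h, one_mul]; exact hs
  exact
    { meas := fun n => (cc_MB n).1
      lo := fun n ω => (hb n ω).1
      hi := fun n ω => (hb n ω).2
      hκ := by have : 0 < 1 / K := by positivity
               linarith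
      hκ0 := by linarith }

/-- the compensator of the active part is bounded -/
lemma H_le (hx : 0 ≤ (δ + η) * Real.log x) {i : ℕ} (hi : i < j) (N : ℕ) (ω : Ω) :
    ∑ k ∈ range N, uu μ ℱ R δ η j x i (x + k) ω * lam μ ℱ R (x + k) ω ≤
      (δ + η) * Real.log x := by
  induction N with
  | zero => simpa using hx
  | succ N ih =>
    rcases hh_cases (μ := μ) (ℱ := ℱ) (R := R) (δ := δ) (η := η) (j := j) (x := x) (x + N) ω with
      h | ⟨h, h1, h2⟩
    · rw [sum_range_succ]
      unfold uu at ih ⊢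
      rw [h, zero_mul, zero_mul, add_zero]
      exact ih
    · refine le_trans ?_ (h2 i hi)
      unfold AA
      have h3 : ∑ k ∈ range (N + 1), uu μ ℱ R δ η j x i (x + k) ω * lam μ ℱ R (x + k) ω ≤
          ∑ k ∈ range (N + 1), ww δ x i (x + k) * lam μ ℱ R (x + k) ω := by
        refine sum_le_sum fun k _ => ?_
        refine mul_le_mul_of_nonneg_right ?_ (lam_nonneg ℱ R _ ω)
        unfold uu
        have hw := ww_nonneg δ x i (x + k)
        rcases hh_cases (μ := μ) (ℱ := ℱ) (R := R) (δ := δ) (η := η) (j := j) (x := x) (x + k) ω with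
          h | ⟨h, -⟩
        · rw [h, zero_mul]; exact hw
        · rw [h, one_mul]
      refine h3.trans ?_
      have h4 := sum_range_add (fun k => ww δ x i k * lam μ ℱ R k ω) x (N + 1)
      rw [show x + N + 1 = x + (N + 1) by ring, h4]
      have : 0 ≤ ∑ k ∈ range x, ww δ x i k * lam μ ℱ R k ω :=
        sum_nonneg fun k _ => mul_nonneg (ww_nonneg _ _ _ _) (lam_nonneg ℱ R _ ω)
      linarith

/-- one factor of the density -/
lemma factor {K : ℝ} (hδ : 0 ≤ δ) (hK : 1 ≤ K) (hα1 : ∀ i < j, 1 / K ≤ α i)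
    (hα2 : ∀ i < j, α i ≤ K) (hη : K * η ≤ 1 / 2) (n : ℕ) (ω : Ω) :
    (1 + cc μ ℱ R δ η α j x n ω * rr R n ω) / (1 + cc μ ℱ R δ η α j x n ω * lam μ ℱ R n ω) ≤
      Real.exp (∑ i ∈ range j, (Real.log (α i) * (uu μ ℱ R δ η j x i n ω *
        (rr R n ω - lc μ ℱ R (cc μ ℱ R δ η α j x) n ω)) +
        (II (α i) + 4 * K ^ 3 * η) * (uu μ ℱ R δ η j x i n ω * lam μ ℱ R n ω))) := by
  have htriv : ∀ (hc : cc μ ℱ R δ η α j x n ω = 0)
      (hu : ∀ i < j, uu μ ℱ R δ η j x i n ω = 0),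
      (1 + cc μ ℱ R δ η α j x n ω * rr R n ω) / (1 + cc μ ℱ R δ η α j x n ω * lam μ ℱ R n ω) ≤
      Real.exp (∑ i ∈ range j, (Real.log (α i) * (uu μ ℱ R δ η j x i n ω *
        (rr R n ω - lc μ ℱ R (cc μ ℱ R δ η α j x) n ω)) +
        (II (α i) + 4 * K ^ 3 * η) * (uu μ ℱ R δ η j x i n ω * lam μ ℱ R n ω))) := by
    intro hc hu
    have : ∑ i ∈ range j, (Real.log (α i) * (uu μ ℱ R δ η j x i n ω *
        (rr R n ω - lc μ ℱ R (cc μ ℱ R δ η α j x) n ω)) +
        (II (α i) + 4 * K ^ 3 * η) * (uu μ ℱ R δ η j x i n ω * lam μ ℱ R n ω)) = 0 :=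
      sum_eq_zero fun i hi => by rw [hu i (mem_range.mp hi)]; ring
    rw [this, hc]
    simp
  rcases hh_cases (μ := μ) (ℱ := ℱ) (R := R) (δ := δ) (η := η) (j := j) (x := x) n ω with
    h | ⟨h, hl, -⟩
  · exact htriv (by unfold cc; rw [h, zero_mul]) fun i _ => by unfold uu; rw [h, zero_mul]
  · rcases ww_cases hδ x n j with hw | ⟨i₀, hi, h1, h2⟩
    · refine htriv ?_ fun i hi => by unfold uu; rw [hw i hi, mul_zero]
      unfold cc
      rw [sum_eq_zero fun i hi => by rw [hw i (mem_range.mp hi), zero_mul], mul_zero]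
    · have hc : cc μ ℱ R δ η α j x n ω = α i₀ - 1 := by
        unfold cc
        rw [h, one_mul, sum_eq_single i₀, h1, one_mul]
        · intro i hi' hne
          rw [h2 i (mem_range.mp hi') hne, zero_mul]
        · intro h; exact absurd (mem_range.mpr hi) h
      have hsum : ∑ i ∈ range j, (Real.log (α i) * (uu μ ℱ R δ η j x i n ω *
          (rr R n ω - lc μ ℱ R (cc μ ℱ R δ η α j x) n ω)) +
          (II (α i) + 4 * K ^ 3 * η) * (uu μ ℱ R δ η j x i n ω * lam μ ℱ R n ω)) =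
          Real.log (α i₀) * (rr R n ω - lc μ ℱ R (cc μ ℱ R δ η α j x) n ω) +
          (II (α i₀) + 4 * K ^ 3 * η) * lam μ ℱ R n ω := by
        rw [sum_eq_single i₀]
        · unfold uu; rw [h, h1]; ring
        · intro i hi' hne
          unfold uu
          rw [h2 i (mem_range.mp hi') hne]; ring
        · intro h; exact absurd (mem_range.mpr hi) h
      obtain ⟨s1, s2, s3, s4⟩ := scalar hK (hα1 i₀ hi) (hα2 i₀ hi) hη
        (lam_nonneg (μ := μ) ℱ R n ω) hl
      have hα0 : 0 < α i₀ := lt_of_lt_of_le (by positivity) (hα1 i₀ hi)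
      have hlc : lc μ ℱ R (cc μ ℱ R δ η α j x) n ω =
          α i₀ * lam μ ℱ R n ω / (1 + (α i₀ - 1) * lam μ ℱ R n ω) := by
        unfold lc; rw [hc]; ring
      rw [hsum, hlc, hc]
      have hnum : 1 + (α i₀ - 1) * rr R n ω = Real.exp (Real.log (α i₀) * rr R n ω) := by
        unfold rr
        split_ifs
        · rw [mul_one, mul_one, Real.exp_log hα0]; ring
        · simp
      rw [hnum, div_eq_mul_inv, ← Real.exp_log s1, ← Real.exp_neg, ← Real.exp_add,
        Real.exp_log s1]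
      apply Real.exp_le_exp.mpr
      linarith

/-- bound for the density on the concentration event -/
lemma D_le {K ρ : ℝ} (hδ : 0 ≤ δ) (hη0 : 0 ≤ η) (hK : 1 ≤ K) (hα1 : ∀ i < j, 1 / K ≤ α i)
    (hα2 : ∀ i < j, α i ≤ K) (hη : K * η ≤ 1 / 2) (hL : 0 ≤ Real.log x) (N : ℕ) {ω : Ω}
    (hG : ∀ i < j, |SM μ ℱ R (cc μ ℱ R δ η α j x) (uu μ ℱ R δ η j x i) x N ω| ≤ ρ) :
    DD μ ℱ R (cc μ ℱ R δ η α j x) x N ω ≤
      Real.exp (∑ i ∈ range j, (K * ρ + (II (α i) + 4 * K ^ 3 * η) * ((δ + η) * Real.log x))) := by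
  have hT := tiltK (μ := μ) (ℱ := ℱ) (R := R) (η := η) (x := x) hδ hK hα1 hα2
  have h1 : DD μ ℱ R (cc μ ℱ R δ η α j x) x N ω ≤
      ∏ k ∈ range N, Real.exp (∑ i ∈ range j, (Real.log (α i) * (uu μ ℱ R δ η j x i (x + k) ω *
        (rr R (x + k) ω - lc μ ℱ R (cc μ ℱ R δ η α j x) (x + k) ω)) +
        (II (α i) + 4 * K ^ 3 * η) * (uu μ ℱ R δ η j x i (x + k) ω * lam μ ℱ R (x + k) ω))) := by
    unfold DD
    refine prod_le_prod (fun k _ => (div_pos (hT.num_pos _ ω) (hT.den_pos _ ω)).le) fun k _ => ?_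
    exact factor hδ hK hα1 hα2 hη (x + k) ω
  refine h1.trans ?_
  rw [← Real.exp_sum]
  apply Real.exp_le_exp.mpr
  rw [sum_comm]
  refine sum_le_sum fun i hi => ?_
  rw [mem_range] at hi
  rw [sum_add_distrib, ← mul_sum, ← mul_sum]
  have hK0 : 0 < K := by linarith
  have hα0 : 0 < α i := lt_of_lt_of_le (by positivity) (hα1 i hi)
  refine add_le_add ?_ ?_
  · have h2 : |Real.log (α i)| ≤ K := by
      rw [abs_le]
      constructor
      · have := Real.one_sub_inv_le_log_of_pos hα0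
        have h3 : (α i)⁻¹ ≤ K := by
          rw [inv_le_comm₀ hα0 hK0]
          have := hα1 i hi
          rwa [one_div] at this
        linarith
      · have := Real.log_le_sub_one_of_pos hα0
        have := hα2 i hi
        linarith
    have h3 := hG i hi
    unfold SM at h3
    calc _ ≤ |Real.log (α i) * ∑ k ∈ range N, uu μ ℱ R δ η j x i (x + k) ω *
          (rr R (x + k) ω - lc μ ℱ R (cc μ ℱ R δ η α j x) (x + k) ω)| := le_abs_self _
      _ ≤ K * ρ := by
          rw [abs_mul]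
          exact mul_le_mul h2 h3 (abs_nonneg _) hK0.le
  · have h4 := H_le (μ := μ) (ℱ := ℱ) (R := R) (δ := δ) (η := η) (x := x) (j := j)
      (mul_nonneg (by linarith) hL) hi N ω
    have h5 := II_nonneg hα0.le
    exact mul_le_mul_of_nonneg_left h4 (by positivity)

/-- bound for the bracket -/
lemma Q_le {K : ℝ} (hδ : 0 ≤ δ) (hη0 : 0 ≤ η) (hK : 1 ≤ K) (hα1 : ∀ i < j, 1 / K ≤ α i)
    (hα2 : ∀ i < j, α i ≤ K) (hη : K * η ≤ 1 / 2) (hL : 0 ≤ Real.log x) (N : ℕ) (ω : Ω)
    {i : ℕ} (hi : i < j) :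
    QM μ ℱ R (cc μ ℱ R δ η α j x) (uu μ ℱ R δ η j x i) x N ω ≤
      2 * K * ((δ + η) * Real.log x) := by
  have h1 : QM μ ℱ R (cc μ ℱ R δ η α j x) (uu μ ℱ R δ η j x i) x N ω ≤
      ∑ k ∈ range N, 2 * K * (uu μ ℱ R δ η j x i (x + k) ω * lam μ ℱ R (x + k) ω) := by
    unfold QM
    refine sum_le_sum fun k _ => ?_
    have hl0 := lam_nonneg (μ := μ) ℱ R (x + k) ω
    rcases hh_cases (μ := μ) (ℱ := ℱ) (R := R) (δ := δ) (η := η) (j := j) (x := x) (x + k) ω with
      h | ⟨h, hl, -⟩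
    · unfold uu; rw [h]; simp
    · by_cases hw : ww δ x i (x + k) = 0
      · unfold uu; rw [hw]; simp
      · have hw1 : ww δ x i (x + k) = 1 := by
          unfold ww at hw ⊢
          split_ifs at hw ⊢ with h3
          · rfl
          · exact absurd rfl hw
        have hc : cc μ ℱ R δ η α j x (x + k) ω = α i - 1 := by
          unfold cc
          rw [h, one_mul, sum_eq_single i, hw1, one_mul]
          · intro i' hi' hne
            rcases ww_cases hδ x (x + k) j with hw' | ⟨i₀, hi₀, h1, h2⟩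
            · exact absurd (hw' i hi) hw
            · have hii : i = i₀ := by
                by_contra hne'
                exact hw (h2 i hi hne')
              subst hii
              rw [h2 i' (mem_range.mp hi') hne, zero_mul]
          · intro h; exact absurd (mem_range.mpr hi) h
        obtain ⟨s1, s2, s3, s4⟩ := scalar hK (hα1 i hi) (hα2 i hi) hη hl0 hl
        have hlc : lc μ ℱ R (cc μ ℱ R δ η α j x) (x + k) ω =
            α i * lam μ ℱ R (x + k) ω / (1 + (α i - 1) * lam μ ℱ R (x + k) ω) := by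
          unfold lc; rw [hc]; ring
        unfold uu
        rw [h, hw1, hlc]
        linarith
  refine h1.trans ?_
  rw [← mul_sum]
  have h4 := H_le (μ := μ) (ℱ := ℱ) (R := R) (δ := δ) (η := η) (x := x) (j := j)
    (mul_nonneg (by linarith) hL) hi N ω
  exact mul_le_mul_of_nonneg_left h4 (by linarith)

/-- closeness to the target on the concentration event when the compensators are good -/
lemma close {K : ℝ} (hδ : 0 < δ) (hη0 : 0 < η) (hK : 1 ≤ K) (hα1 : ∀ i < j, 1 / K ≤ α i)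
    (hα2 : ∀ i < j, α i ≤ K) (hη : K * η ≤ 1 / 2) (hL : 0 < Real.log x) {ω : Ω}
    (hG : ∀ i < j, |SM μ ℱ R (cc μ ℱ R δ η α j x) (uu μ ℱ R δ η j x i) x (mm δ x j) ω| ≤
      η * Real.log x)
    (hsm : ∀ n, x ≤ n → lam μ ℱ R n ω ≤ η)
    (hcomp : ∀ i < j, |(∑ k ∈ range (mm δ x (i + 1)), lam μ ℱ R (x + k) ω -
      ∑ k ∈ range (mm δ x i), lam μ ℱ R (x + k) ω) - δ * Real.log x| ≤ η * Real.log x)
    {i : ℕ} (hi : i < j) :
    |(∑ k ∈ range (mm δ x (i + 1)), rr R (x + k) ω - ∑ k ∈ range (mm δ x i), rr R (x + k) ω) /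
      Real.log x - α i * δ| ≤ η + 2 * K ^ 2 * η * (δ + η) + K * η := by
  have hK0 : 0 < K := by linarith
  -- all indices of the block are active
  have hact : ∀ k < mm δ x j, hh μ ℱ R δ η j x (x + k) ω = 1 := by
    intro k hk
    rcases hh_cases (μ := μ) (ℱ := ℱ) (R := R) (δ := δ) (η := η) (j := j) (x := x) (x + k) ω with
      h | ⟨h, -⟩
    · exfalso
      unfold hh at h
      rw [if_pos] at h
      · exact one_ne_zero h
      · refine ⟨hsm _ (by omega), fun i' hi' => ?_⟩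
        have h1 := hcomp i' hi'
        rw [← ww_sum hδ.le x hi' (fun k => lam μ ℱ R (x + k) ω)] at h1
        have h2 : AA μ ℱ R δ x i' (x + k) ω ≤
            ∑ k ∈ range (mm δ x j), ww δ x i' (x + k) * lam μ ℱ R (x + k) ω := by
          unfold AA
          have h4 := sum_range_add (fun k => ww δ x i' k * lam μ ℱ R k ω) x (k + 1)
          rw [show x + k + 1 = x + (k + 1) by ring, h4]
          have h5 : ∑ k ∈ range x, ww δ x i' k * lam μ ℱ R k ω = 0 := by
            refine sum_eq_zero fun m hm => ?_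
            rw [mem_range] at hm
            unfold ww
            rw [if_neg (by omega), zero_mul]
          rw [h5, zero_add]
          exact sum_le_sum_of_subset_of_nonneg (range_mono (by omega)) fun m _ _ =>
            mul_nonneg (ww_nonneg _ _ _ _) (lam_nonneg ℱ R _ ω)
        have h3 := (abs_le.mp h1).2
        linarith
    · exact h
  have hc : ∀ k < mm δ x j, ww δ x i (x + k) = 1 →
      cc μ ℱ R δ η α j x (x + k) ω = α i - 1 := by
    intro k hk hw
    unfold cc
    rw [hact k hk, one_mul, sum_eq_single i, hw, one_mul]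
    · intro i' hi' hne
      rcases ww_cases hδ.le x (x + k) j with hw' | ⟨i₀, hi₀, h1, h2⟩
      · rw [hw' i hi] at hw; exact absurd hw zero_ne_one
      · have hii : i = i₀ := by
          by_contra hne'
          rw [h2 i hi hne'] at hw
          exact zero_ne_one hw
        subst hii
        rw [h2 i' (mem_range.mp hi') hne, zero_mul]
    · intro h; exact absurd (mem_range.mpr hi) h
  set L := Real.log x with hLdef
  rw [← ww_sum hδ.le x hi (fun k => rr R (x + k) ω)]
  have hci := hcomp i hi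
  rw [← ww_sum hδ.le x hi (fun k => lam μ ℱ R (x + k) ω)] at hci
  have hSi := hG i hi
  -- decomposition
  have hdec : ∑ k ∈ range (mm δ x j), ww δ x i (x + k) * rr R (x + k) ω - α i * δ * L =
      SM μ ℱ R (cc μ ℱ R δ η α j x) (uu μ ℱ R δ η j x i) x (mm δ x j) ω +
      ∑ k ∈ range (mm δ x j), ww δ x i (x + k) * (lc μ ℱ R (cc μ ℱ R δ η α j x) (x + k) ω -
        α i * lam μ ℱ R (x + k) ω) +
      α i * (∑ k ∈ range (mm δ x j), ww δ x i (x + k) * lam μ ℱ R (x + k) ω - δ * L) := by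
    unfold SM
    rw [mul_sub, mul_sum, add_assoc, ← add_sub_assoc, ← add_sub_assoc]
    rw [← sum_add_distrib, ← sum_add_distrib]
    congr 1
    · refine sum_congr rfl fun k hk => ?_
      unfold uu
      rw [hact k (mem_range.mp hk)]
      ring
    · ring
  have hlcb : |∑ k ∈ range (mm δ x j), ww δ x i (x + k) *
      (lc μ ℱ R (cc μ ℱ R δ η α j x) (x + k) ω - α i * lam μ ℱ R (x + k) ω)| ≤
      2 * K ^ 2 * η * ((δ + η) * L) := by
    calc _ ≤ ∑ k ∈ range (mm δ x j), |ww δ x i (x + k) *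
          (lc μ ℱ R (cc μ ℱ R δ η α j x) (x + k) ω - α i * lam μ ℱ R (x + k) ω)| :=
          abs_sum_le_sum_abs _ _
      _ ≤ ∑ k ∈ range (mm δ x j), 2 * K ^ 2 * η * (ww δ x i (x + k) * lam μ ℱ R (x + k) ω) := by
          refine sum_le_sum fun k hk => ?_
          rw [mem_range] at hk
          have hl0 := lam_nonneg (μ := μ) ℱ R (x + k) ω
          rw [abs_mul, abs_of_nonneg (ww_nonneg _ _ _ _)]
          by_cases hw : ww δ x i (x + k) = 0
          · rw [hw]; simp
          · have hw1 : ww δ x i (x + k) = 1 := by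
              unfold ww at hw ⊢
              split_ifs at hw ⊢ with h3
              · rfl
              · exact absurd rfl hw
            obtain ⟨s1, s2, s3, s4⟩ := scalar hK (hα1 i hi) (hα2 i hi) hη hl0
              (hsm (x + k) (by omega))
            have hlc : lc μ ℱ R (cc μ ℱ R δ η α j x) (x + k) ω =
                α i * lam μ ℱ R (x + k) ω / (1 + (α i - 1) * lam μ ℱ R (x + k) ω) := by
              unfold lc; rw [hc k hk hw1]; ring
            rw [hw1, hlc, one_mul, one_mul]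
            exact s3
      _ = 2 * K ^ 2 * η * ∑ k ∈ range (mm δ x j), ww δ x i (x + k) * lam μ ℱ R (x + k) ω := by
          rw [← mul_sum]
      _ ≤ _ := by
          have := (abs_le.mp hci).2
          apply mul_le_mul_of_nonneg_left _ (by positivity)
          linarith
  have hα0 : 0 < α i := lt_of_lt_of_le (by positivity) (hα1 i hi)
  have hfin : |∑ k ∈ range (mm δ x j), ww δ x i (x + k) * rr R (x + k) ω - α i * δ * L| ≤
      (η + 2 * K ^ 2 * η * (δ + η) + K * η) * L := by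
    rw [hdec]
    refine (abs_add_le _ _).trans ?_
    refine (add_le_add ((abs_add_le _ _).trans (add_le_add hSi hlcb)) (?_ : _ ≤ K * (η * L))).trans
      (le_of_eq (by ring))
    rw [abs_mul, abs_of_pos hα0]
    exact mul_le_mul (hα2 i hi) hci (abs_nonneg _) hK0.le
  have e : (∑ k ∈ range (mm δ x j), ww δ x i (x + k) * rr R (x + k) ω) / L - α i * δ =
      (∑ k ∈ range (mm δ x j), ww δ x i (x + k) * rr R (x + k) ω - α i * δ * L) / L := by
    field_simp
  rw [e, abs_div, abs_of_pos hL, div_le_iff₀ hL]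
  exact hfin

end Pool.Agent.Helper88.ER
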