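import Mathlib
import Pool.Agent.Helper88.ErLow

open MeasureTheory ProbabilityTheory Filter Finset
open scoped Topology

namespace Pool.Agent.Helper88.ER

open Pool.Agent.Helper88.Lln

variable {Ω : Type*} [mΩ : MeasurableSpace Ω] {μ : Measure Ω} {ℱ : Filtration ℕ mΩ}
  {R : ℕ → Set Ω}

/-- normalized number of chosen integers in the window `i` -/
noncomputable def VV (R : ℕ → Set Ω) (δ : ℝ) (x i : ℕ) (ω : Ω) : ℝ :=
  (∑ k ∈ range (mm δ x (i + 1)), rr R (x + k) ω - ∑ k ∈ range (mm δ x i), rr R (x + k) ω) /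
    Real.log x

lemma log_nat_tendsto : Tendsto (fun x : ℕ => Real.log (x : ℝ)) atTop atTop :=
  Real.tendsto_log_atTop.comp tendsto_natCast_atTop_atTop

/-- window compensators -/
lemma window_comp {lam : ℕ → ℝ} (hcomp : ∀ t : ℝ, 0 < t → Tendsto (fun x : ℕ =>
      (∑ k ∈ range ⌊t * Real.log x ^ 2⌋₊, lam (x + k)) / Real.log x) atTop (𝓝 t))
    {δ : ℝ} (hδ : 0 < δ) (i : ℕ) :
    Tendsto (fun x : ℕ => (∑ k ∈ range (mm δ x (i + 1)), lam (x + k) -
      ∑ k ∈ range (mm δ x i), lam (x + k)) / Real.log x) atTop (𝓝 δ) := by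
  have h1 : ∀ i : ℕ, Tendsto (fun x : ℕ => (∑ k ∈ range (mm δ x i), lam (x + k)) / Real.log x)
      atTop (𝓝 (i * δ)) := by
    intro i
    rcases Nat.eq_zero_or_pos i with rfl | hi
    · simp [mm]
    · exact hcomp (i * δ) (by positivity)
  have h2 := (h1 (i + 1)).sub (h1 i)
  have e : ((i + 1 : ℕ) : ℝ) * δ - i * δ = δ := by push_cast; ring
  rw [e] at h2
  refine h2.congr fun x => ?_
  rw [sub_div]

theorem low_main [IsProbabilityMeasure μ] (hR : ∀ n, MeasurableSet[ℱ n] (R n))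
    (hsm : ∀ᵐ ω ∂μ, Tendsto (fun n => lam μ ℱ R n ω) atTop (𝓝 0))
    (hcomp : ∀ᵐ ω ∂μ, ∀ t : ℝ, 0 < t → Tendsto (fun x : ℕ =>
      (∑ k ∈ range ⌊t * Real.log x ^ 2⌋₊, lam μ ℱ R (x + k) ω) / Real.log x) atTop (𝓝 t))
    {j : ℕ} {δ : ℝ} (hδ : 0 < δ) {α : ℕ → ℝ} (hα : ∀ i < j, 0 < α i)
    (hJ : ∑ i ∈ range j, δ * II (α i) < 1) {ε : ℝ} (hε : 0 < ε) :
    ∀ᵐ ω ∂μ, ∃ᶠ x : ℕ in atTop, ∀ i < j, |VV R δ x i ω - α i * δ| ≤ ε := by
  classical
  -- parameters
  set K : ℝ := 1 + ∑ i ∈ range j, (α i + 1 / α i) with hKdef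
  have hterm : ∀ i ∈ range j, 0 ≤ α i + 1 / α i := fun i hi => by
    have := hα i (mem_range.mp hi)
    positivity
  have hK : 1 ≤ K := by
    have := sum_nonneg hterm
    linarith
  have hK0 : 0 < K := by linarith
  have hsingle : ∀ i < j, α i + 1 / α i ≤ K := by
    intro i hi
    have := single_le_sum hterm (mem_range.mpr hi)
    linarith
  have hα2 : ∀ i < j, α i ≤ K := fun i hi => by
    have h1 := hsingle i hi
    have : 0 < 1 / α i := by have := hα i hi; positivity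
    linarith
  have hα1 : ∀ i < j, 1 / K ≤ α i := fun i hi => by
    have h1 := hsingle i hi
    have h2 := hα i hi
    rw [div_le_comm₀ hK0 h2]
    linarith
  set J : ℝ := ∑ i ∈ range j, δ * II (α i) with hJdef
  have hJ0 : 0 ≤ J := sum_nonneg fun i hi =>
    mul_nonneg hδ.le (II_nonneg (hα i (mem_range.mp hi)).le)
  set s : ℝ := (1 + J) / 2 with hs
  -- choice of `η`
  have hcont1 : Continuous (fun η : ℝ => ∑ i ∈ range j, (K * η + (II (α i) + 4 * K ^ 3 * η) *
      (δ + η))) := by fun_prop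
  have hcont2 : Continuous (fun η : ℝ => η + 2 * K ^ 2 * η * (δ + η) + K * η) := by fun_prop
  have e1 : ∀ᶠ η in 𝓝[>] (0 : ℝ), ∑ i ∈ range j, (K * η + (II (α i) + 4 * K ^ 3 * η) *
      (δ + η)) < s := by
    apply (hcont1.tendsto 0).mono_left nhdsWithin_le_nhds |>.eventually_lt_const
    have : ∑ i ∈ range j, (K * 0 + (II (α i) + 4 * K ^ 3 * 0) * (δ + 0)) = J := by
      rw [hJdef]
      refine sum_congr rfl fun i _ => ?_
      ring
    rw [this, hs]
    linarith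
  have e2 : ∀ᶠ η in 𝓝[>] (0 : ℝ), η + 2 * K ^ 2 * η * (δ + η) + K * η < ε := by
    apply (hcont2.tendsto 0).mono_left nhdsWithin_le_nhds |>.eventually_lt_const
    simpa using hε
  have e3 : ∀ᶠ η in 𝓝[>] (0 : ℝ), η < 1 / (2 * K) :=
    (tendsto_id.mono_left nhdsWithin_le_nhds).eventually_lt_const (by positivity)
  obtain ⟨η, h1, h2, h3, h4⟩ := (e1.and (e2.and (e3.and self_mem_nhdsWithin))).exists
  have hη0 : 0 < η := h4
  have hη : K * η ≤ 1 / 2 := by
    rw [lt_div_iff₀ (by positivity)] at h3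
    linarith
  -- the events
  set G : ℕ → Set Ω := fun x => {ω | ∀ i < j, |SM μ ℱ R (cc μ ℱ R δ η α j x)
    (uu μ ℱ R δ η j x i) x (mm δ x j) ω| ≤ η * Real.log x} with hG
  have hlog : ∀ᶠ x : ℕ in atTop, 1 + 4 * K * j * (δ + η) / η ^ 2 ≤ Real.log (x : ℝ) :=
    log_nat_tendsto.eventually_ge_atTop _
  obtain ⟨x₀, hx₀⟩ := eventually_atTop.mp (hlog.and (eventually_ge_atTop 2))
  have hGmeas : ∀ x, MeasurableSet[ℱ (x + mm δ x j)] (G x) := by
    intro x
    have hT := tiltK (μ := μ) (ℱ := ℱ) (R := R) (η := η) (x := x) hδ.le hK hα1 hα2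
    have e : G x = ⋂ i ∈ range j, (SM μ ℱ R (cc μ ℱ R δ η α j x) (uu μ ℱ R δ η j x i) x
        (mm δ x j) ⁻¹' Set.Icc (-(η * Real.log x)) (η * Real.log x)) := by
      ext ω
      simp [hG, abs_le]
    rw [e]
    exact Finset.measurableSet_biInter _ fun i _ =>
      (SM_MB (μ := μ) hR hT (fun n => uu_MB i n) x (mm δ x j)).1 measurableSet_Icc
  have hbc := bc_log (μ := μ) (ℱ := ℱ) (m := fun x => mm δ x j) (C := j * δ) (s := s)
    (by rw [hs]; linarith) (by rw [hs]; linarith)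
    (fun x => by
      refine (Nat.floor_le ?_).trans (le_of_eq (by ring))
      positivity) (G := G) (x₀ := x₀) (fun x _ => hGmeas x) (by
    intro x hx φ hφ hφ0
    obtain ⟨hL, hx2⟩ := hx₀ x hx
    have hxpos : (0 : ℝ) < x := by
      have : (2 : ℝ) ≤ x := by exact_mod_cast hx2
      linarith
    have hq0 : 0 ≤ 4 * K * j * (δ + η) / η ^ 2 := by positivity
    have hLpos : 0 < Real.log (x : ℝ) := by linarith
    have hT := tiltK (μ := μ) (ℱ := ℱ) (R := R) (η := η) (x := x) hδ.le hK hα1 hα2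
    have hlow := lower (μ := μ) hR hT (j := j) (u := fun i => uu μ ℱ R δ η j x i)
      (fun i n => uu_MB i n) (a := x) (N := mm δ x j) hφ hφ0
      (B := 2 * K * ((δ + η) * Real.log x)) (ρ := η * Real.log x)
      (M := Real.exp (s * Real.log x)) (by positivity) (Real.exp_pos _)
      (fun i hi ω => Q_le hδ.le hη0.le hK hα1 hα2 hη hLpos.le _ ω hi) (G x) rfl
      (fun ω hω => by
        refine (D_le hδ.le hη0.le hK hα1 hα2 hη hLpos.le _ hω).trans ?_
        apply Real.exp_le_exp.mpr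
        have e : ∑ i ∈ range j, (K * (η * Real.log x) + (II (α i) + 4 * K ^ 3 * η) *
            ((δ + η) * Real.log x)) = (∑ i ∈ range j, (K * η + (II (α i) + 4 * K ^ 3 * η) *
            (δ + η))) * Real.log x := by
          rw [sum_mul]
          refine sum_congr rfl fun i _ => ?_
          ring
        rw [e]
        exact mul_le_mul_of_nonneg_right h1.le hLpos.le)
    have e5 : ∫ ω, (if ω ∈ G x then φ ω else 0) ∂μ = ∫ ω, (G x).indicator φ ω ∂μ := by
      refine integral_congr_ae (ae_of_all _ fun ω => ?_)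
      by_cases h : ω ∈ G x
      · simp only [if_pos h, Set.indicator_of_mem h]
      · simp only [if_neg h, Set.indicator_of_notMem h]
    rw [e5] at hlow
    refine le_trans ?_ hlow
    have hφi : 0 ≤ ∫ ω, φ ω ∂μ := integral_nonneg hφ0
    refine mul_le_mul_of_nonneg_right ?_ hφi
    have e6 : Real.exp (s * Real.log x) = (x : ℝ) ^ s := by
      rw [Real.rpow_def_of_pos hxpos, mul_comm]
    rw [e6, Real.rpow_neg hxpos.le, ← div_eq_mul_inv]
    refine div_le_div_of_nonneg_right ?_ (Real.rpow_pos_of_pos hxpos _).le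
    have e7 : (j : ℝ) * (2 * K * ((δ + η) * Real.log x)) / (η * Real.log x) ^ 2 =
        (4 * K * j * (δ + η) / η ^ 2) / (2 * Real.log x) := by
      field_simp
      ring
    rw [e7]
    have e8 : (4 * K * j * (δ + η) / η ^ 2) / (2 * Real.log x) ≤ 1 / 2 := by
      rw [div_le_iff₀ (by positivity)]
      linarith
    linarith)
  filter_upwards [hbc, hsm, hcomp] with ω hω hω1 hω2
  -- eventually the compensators are good
  have g1 : ∀ᶠ x : ℕ in atTop, ∀ n, x ≤ n → lam μ ℱ R n ω ≤ η := by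
    obtain ⟨N, hN⟩ := eventually_atTop.mp (hω1.eventually_le_const hη0)
    filter_upwards [eventually_ge_atTop N] with x hx n hn
    exact hN n (by omega)
  have g2 : ∀ᶠ x : ℕ in atTop, ∀ i < j, |(∑ k ∈ range (mm δ x (i + 1)), lam μ ℱ R (x + k) ω -
      ∑ k ∈ range (mm δ x i), lam μ ℱ R (x + k) ω) - δ * Real.log x| ≤ η * Real.log x := by
    have : ∀ i ∈ range j, ∀ᶠ x : ℕ in atTop,
        |(∑ k ∈ range (mm δ x (i + 1)), lam μ ℱ R (x + k) ω -
        ∑ k ∈ range (mm δ x i), lam μ ℱ R (x + k) ω) - δ * Real.log x| ≤ η * Real.log x := by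
      intro i _
      have h5 := window_comp (lam := fun n => lam μ ℱ R n ω) hω2 hδ i
      have h6 := (Metric.tendsto_nhds.mp h5) η hη0
      filter_upwards [h6, log_nat_tendsto.eventually_gt_atTop 0] with x hx hL
      rw [Real.dist_eq] at hx
      have e : (∑ k ∈ range (mm δ x (i + 1)), lam μ ℱ R (x + k) ω -
          ∑ k ∈ range (mm δ x i), lam μ ℱ R (x + k) ω) - δ * Real.log x =
          ((∑ k ∈ range (mm δ x (i + 1)), lam μ ℱ R (x + k) ω -
          ∑ k ∈ range (mm δ x i), lam μ ℱ R (x + k) ω) / Real.log x - δ) * Real.log x := by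
        field_simp
      rw [e, abs_mul, abs_of_pos hL]
      exact mul_le_mul_of_nonneg_right hx.le hL.le
    have h7 := (Filter.eventually_all_finset (range j)).mpr this
    filter_upwards [h7] with x hx i hi
    exact hx i (mem_range.mpr hi)
  refine (hω.and_eventually (g1.and (g2.and (log_nat_tendsto.eventually_gt_atTop 0)))).mono ?_
  rintro x ⟨hx1, hx2, hx3, hx4⟩ i hi
  exact (close hδ hη0 hK hα1 hα2 hη hx4 hx1 hx2 hx3 hi).trans h2.le

/-! ### Upper bound -/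

/-- deterministic tilt -/
noncomputable def ct (δ : ℝ) (θ : ℕ → ℝ) (j x n : ℕ) : ℝ :=
  ∑ i ∈ range j, ww δ x i n * (Real.exp (θ i) - 1)

lemma tiltT {δ : ℝ} (hδ : 0 ≤ δ) (θ : ℕ → ℝ) (j x : ℕ) :
    Tilt ℱ (fun n (_ : Ω) => ct δ θ j x n)
      (1 - Real.exp (-∑ i ∈ range j, |θ i|)) (Real.exp (∑ i ∈ range j, |θ i|)) := by
  have hS : ∀ i < j, |θ i| ≤ ∑ i ∈ range j, |θ i| := fun i hi =>
    single_le_sum (f := fun i => |θ i|) (fun i _ => abs_nonneg _) (mem_range.mpr hi)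
  have hS0 : 0 ≤ ∑ i ∈ range j, |θ i| := sum_nonneg fun i _ => abs_nonneg _
  set T := ∑ i ∈ range j, |θ i| with hT
  have h1 : Real.exp (-T) ≤ 1 := by rw [Real.exp_le_one_iff]; linarith
  have h2 : 1 ≤ Real.exp T := Real.one_le_exp hS0
  have h3 := Real.exp_pos (-T)
  have hb : ∀ n, -(1 - Real.exp (-T)) ≤ ct δ θ j x n ∧ ct δ θ j x n ≤ Real.exp T := by
    intro n
    unfold ct
    rcases ww_cases hδ x n j with h | ⟨i₀, hi, h4, h5⟩
    · have : ∑ i ∈ range j, ww δ x i n * (Real.exp (θ i) - 1) = 0 :=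
        sum_eq_zero fun i hi => by rw [h i (mem_range.mp hi), zero_mul]
      rw [this]
      constructor <;> linarith
    · have : ∑ i ∈ range j, ww δ x i n * (Real.exp (θ i) - 1) = Real.exp (θ i₀) - 1 := by
        rw [sum_eq_single i₀, h4, one_mul]
        · intro i hi' hne
          rw [h5 i (mem_range.mp hi') hne, zero_mul]
        · intro h; exact absurd (mem_range.mpr hi) h
      rw [this]
      have h6 := abs_le.mp (hS i₀ hi)
      have h7 : Real.exp (-T) ≤ Real.exp (θ i₀) := Real.exp_le_exp.mpr h6.1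
      have h8 : Real.exp (θ i₀) ≤ Real.exp T := Real.exp_le_exp.mpr h6.2
      constructor <;> linarith
  exact
    { meas := fun n => measurable_const
      lo := fun n ω => (hb n).1
      hi := fun n ω => (hb n).2
      hκ := by linarith
      hκ0 := by linarith }

lemma DD_lower {δ : ℝ} (hδ : 0 ≤ δ) (θ : ℕ → ℝ) (j x : ℕ) (ω : Ω) :
    Real.exp (∑ i ∈ range j, (θ i * (∑ k ∈ range (mm δ x (i + 1)), rr R (x + k) ω -
        ∑ k ∈ range (mm δ x i), rr R (x + k) ω) -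
      (Real.exp (θ i) - 1) * (∑ k ∈ range (mm δ x (i + 1)), lam μ ℱ R (x + k) ω -
        ∑ k ∈ range (mm δ x i), lam μ ℱ R (x + k) ω))) ≤
      DD μ ℱ R (fun n _ => ct δ θ j x n) x (mm δ x j) ω := by
  have hT := tiltT (ℱ := ℱ) hδ θ j x
  have e : ∑ i ∈ range j, (θ i * (∑ k ∈ range (mm δ x (i + 1)), rr R (x + k) ω -
        ∑ k ∈ range (mm δ x i), rr R (x + k) ω) -
      (Real.exp (θ i) - 1) * (∑ k ∈ range (mm δ x (i + 1)), lam μ ℱ R (x + k) ω -
        ∑ k ∈ range (mm δ x i), lam μ ℱ R (x + k) ω)) =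
      ∑ k ∈ range (mm δ x j), ∑ i ∈ range j, ww δ x i (x + k) *
        (θ i * rr R (x + k) ω - (Real.exp (θ i) - 1) * lam μ ℱ R (x + k) ω) := by
    rw [sum_comm]
    refine sum_congr rfl fun i hi => ?_
    rw [mem_range] at hi
    rw [← ww_sum hδ x hi (fun k => rr R (x + k) ω),
      ← ww_sum hδ x hi (fun k => lam μ ℱ R (x + k) ω), mul_sum, mul_sum, ← sum_sub_distrib]
    refine sum_congr rfl fun k _ => ?_
    ring
  rw [e, Real.exp_sum]
  unfold DD
  refine prod_le_prod (fun k _ => (Real.exp_pos _).le) fun k _ => ?_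
  have hden := hT.den_pos (μ := μ) (R := R) (x + k) ω
  change Real.exp _ ≤ (1 + ct δ θ j x (x + k) * rr R (x + k) ω) /
    (1 + ct δ θ j x (x + k) * lam μ ℱ R (x + k) ω)
  rw [le_div_iff₀ hden]
  rcases ww_cases hδ x (x + k) j with h | ⟨i₀, hi, h4, h5⟩
  · have h1 : ct δ θ j x (x + k) = 0 := by
      unfold ct
      exact sum_eq_zero fun i hi => by rw [h i (mem_range.mp hi), zero_mul]
    have h2 : ∑ i ∈ range j, ww δ x i (x + k) * (θ i * rr R (x + k) ω -
        (Real.exp (θ i) - 1) * lam μ ℱ R (x + k) ω) = 0 :=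
      sum_eq_zero fun i hi => by rw [h i (mem_range.mp hi), zero_mul]
    rw [h1, h2]
    simp
  · have h1 : ct δ θ j x (x + k) = Real.exp (θ i₀) - 1 := by
      unfold ct
      rw [sum_eq_single i₀, h4, one_mul]
      · intro i hi' hne
        rw [h5 i (mem_range.mp hi') hne, zero_mul]
      · intro h; exact absurd (mem_range.mpr hi) h
    have h2 : ∑ i ∈ range j, ww δ x i (x + k) * (θ i * rr R (x + k) ω -
        (Real.exp (θ i) - 1) * lam μ ℱ R (x + k) ω) = θ i₀ * rr R (x + k) ω -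
        (Real.exp (θ i₀) - 1) * lam μ ℱ R (x + k) ω := by
      rw [sum_eq_single i₀, h4, one_mul]
      · intro i hi' hne
        rw [h5 i (mem_range.mp hi') hne, zero_mul]
      · intro h; exact absurd (mem_range.mpr hi) h
    rw [h1, h2]
    have hnum : 1 + (Real.exp (θ i₀) - 1) * rr R (x + k) ω = Real.exp (θ i₀ * rr R (x + k) ω) := by
      unfold rr
      split_ifs <;> simp
    rw [hnum, Real.exp_sub]
    have h6 : 1 + (Real.exp (θ i₀) - 1) * lam μ ℱ R (x + k) ω ≤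
        Real.exp ((Real.exp (θ i₀) - 1) * lam μ ℱ R (x + k) ω) := by
      have := Real.add_one_le_exp ((Real.exp (θ i₀) - 1) * lam μ ℱ R (x + k) ω)
      linarith
    have h7 := Real.exp_pos ((Real.exp (θ i₀) - 1) * lam μ ℱ R (x + k) ω)
    rw [div_mul_eq_mul_div, div_le_iff₀ h7]
    exact mul_le_mul_of_nonneg_left h6 (Real.exp_pos _).le

theorem up_main [IsProbabilityMeasure μ] (hR : ∀ n, MeasurableSet[ℱ n] (R n))
    (hcomp : ∀ᵐ ω ∂μ, ∀ t : ℝ, 0 < t → Tendsto (fun x : ℕ =>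
      (∑ k ∈ range ⌊t * Real.log x ^ 2⌋₊, lam μ ℱ R (x + k) ω) / Real.log x) atTop (𝓝 t))
    (j : ℕ) {δ : ℝ} (hδ : 0 < δ) (θ : ℕ → ℝ) {ε : ℝ} (hε : 0 < ε) :
    ∀ᵐ ω ∂μ, ∀ᶠ x : ℕ in atTop, ∑ i ∈ range j, θ i * VV R δ x i ω ≤
      ∑ i ∈ range j, δ * (Real.exp (θ i) - 1) + 1 + ε := by
  classical
  set D : ℕ → Ω → ℝ := fun x => DD μ ℱ R (fun n _ => ct δ θ j x n) x (mm δ x j) with hD
  -- Markov
  have hmark : ∀ x : ℕ, 1 ≤ x → μ.real {ω | (x : ℝ) ^ (1 + ε / 2) ≤ D x ω} ≤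
      ((x : ℝ) ^ (1 + ε / 2))⁻¹ := by
    intro x hx
    have hT := tiltT (ℱ := ℱ) hδ.le θ j x
    have hDM := DD_MB (μ := μ) hR hT x (mm δ x j)
    have hint := hDM.integrable (μ := μ) (ℱ.le _)
    have h1 := tilt_one (μ := μ) hR hT (a := x) (MB.const (m := ℱ x) 1) (mm δ x j)
    simp only [mul_one, integral_const, probReal_univ, smul_eq_mul] at h1
    have hx0 : (0 : ℝ) < x := by exact_mod_cast hx
    have h2 := mul_meas_ge_le_integral_of_nonneg (μ := μ) (f := D x)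
      (ae_of_all _ fun ω => (DD_pos hT x (mm δ x j) ω).le) hint ((x : ℝ) ^ (1 + ε / 2))
    rw [show ∫ ω, D x ω ∂μ = 1 from h1] at h2
    have hp : 0 < (x : ℝ) ^ (1 + ε / 2) := Real.rpow_pos_of_pos hx0 _
    rw [← one_div, le_div_iff₀ hp, mul_comm]
    exact h2
  have hsum : Summable (fun x : ℕ => ((x : ℝ) ^ (1 + ε / 2))⁻¹) :=
    Real.summable_nat_rpow_inv.mpr (by linarith)
  have hbc : ∀ᵐ ω ∂μ, ∀ᶠ x : ℕ in atTop, D x ω < (x : ℝ) ^ (1 + ε / 2) := by
    have h1 : ∑' x : ℕ, μ {ω | 1 ≤ x ∧ (x : ℝ) ^ (1 + ε / 2) ≤ D x ω} ≠ ⊤ := by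
      have h2 : ∀ x : ℕ, μ {ω | 1 ≤ x ∧ (x : ℝ) ^ (1 + ε / 2) ≤ D x ω} ≤
          ENNReal.ofReal (((x : ℝ) ^ (1 + ε / 2))⁻¹) := by
        intro x
        by_cases hx : 1 ≤ x
        · have e : {ω | 1 ≤ x ∧ (x : ℝ) ^ (1 + ε / 2) ≤ D x ω} =
              {ω | (x : ℝ) ^ (1 + ε / 2) ≤ D x ω} := by
            ext ω; simp [hx]
          rw [e]
          have := hmark x hx
          rw [← ENNReal.ofReal_toReal (measure_ne_top μ _)]
          exact ENNReal.ofReal_le_ofReal this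
        · have e : {ω | 1 ≤ x ∧ (x : ℝ) ^ (1 + ε / 2) ≤ D x ω} = ∅ := by
            ext ω; simp [hx]
          rw [e]; simp
      refine ne_top_of_le_ne_top ?_ (ENNReal.tsum_le_tsum h2)
      rw [← ENNReal.ofReal_tsum_of_nonneg (fun x => by positivity) hsum]
      exact ENNReal.ofReal_ne_top
    have h3 := ae_eventually_notMem h1
    filter_upwards [h3] with ω hω
    filter_upwards [hω, eventually_ge_atTop 1] with x hx hx1
    by_contra hcon
    exact hx ⟨hx1, not_lt.mp hcon⟩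
  filter_upwards [hbc, hcomp] with ω hω hω2
  -- compensators
  have hlim : Tendsto (fun x : ℕ => ∑ i ∈ range j, (Real.exp (θ i) - 1) *
      ((∑ k ∈ range (mm δ x (i + 1)), lam μ ℱ R (x + k) ω -
        ∑ k ∈ range (mm δ x i), lam μ ℱ R (x + k) ω) / Real.log x)) atTop
      (𝓝 (∑ i ∈ range j, (Real.exp (θ i) - 1) * δ)) :=
    tendsto_finsetSum _ fun i _ =>
      (window_comp (lam := fun n => lam μ ℱ R n ω) hω2 hδ i).const_mul _
  have hev := hlim.eventually_lt_const (show ∑ i ∈ range j, (Real.exp (θ i) - 1) * δ <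
    ∑ i ∈ range j, (Real.exp (θ i) - 1) * δ + ε / 2 by linarith)
  filter_upwards [hω, hev, log_nat_tendsto.eventually_gt_atTop 0, eventually_ge_atTop 1] with
    x hx1 hx2 hL hx3
  have hx0 : (0 : ℝ) < x := by exact_mod_cast hx3
  have h1 := (DD_lower (μ := μ) (ℱ := ℱ) (R := R) hδ.le θ j x ω).trans_lt hx1
  rw [Real.rpow_def_of_pos hx0, Real.exp_lt_exp] at h1
  rw [sum_sub_distrib] at h1
  have h2 : ∑ i ∈ range j, θ i * VV R δ x i ω = (∑ i ∈ range j, θ i *
      (∑ k ∈ range (mm δ x (i + 1)), rr R (x + k) ω -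
        ∑ k ∈ range (mm δ x i), rr R (x + k) ω)) / Real.log x := by
    rw [sum_div]
    refine sum_congr rfl fun i _ => ?_
    unfold VV
    rw [mul_div_assoc]
  have h3 : ∑ i ∈ range j, (Real.exp (θ i) - 1) *
      ((∑ k ∈ range (mm δ x (i + 1)), lam μ ℱ R (x + k) ω -
        ∑ k ∈ range (mm δ x i), lam μ ℱ R (x + k) ω) / Real.log x) =
      (∑ i ∈ range j, (Real.exp (θ i) - 1) *
      (∑ k ∈ range (mm δ x (i + 1)), lam μ ℱ R (x + k) ω -
        ∑ k ∈ range (mm δ x i), lam μ ℱ R (x + k) ω)) / Real.log x := by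
    rw [sum_div]
    refine sum_congr rfl fun i _ => ?_
    rw [mul_div_assoc]
  rw [h3, div_lt_iff₀ hL] at hx2
  rw [h2, div_le_iff₀ hL]
  have h4 : ∑ i ∈ range j, δ * (Real.exp (θ i) - 1) = ∑ i ∈ range j, (Real.exp (θ i) - 1) * δ :=
    sum_congr rfl fun i _ => mul_comm _ _
  rw [h4]
  nlinarith

end Pool.Agent.Helper88.ER
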