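import Mathlib
import Pool.Agent.Helper88.ErMain

open MeasureTheory ProbabilityTheory Filter Finset
open scoped Topology

namespace Pool.Agent.Helper88.ER

open Pool.Agent.Helper88.Lln

/-! ### The rate function -/

lemma II_zero : II 0 = 1 := by simp [II]
lemma II_one : II 1 = 0 := by simp [II]

/-- Young's inequality -/
lemma young {z : ℝ} (hz : 0 ≤ z) (θ : ℝ) : θ * z - (Real.exp θ - 1) ≤ II z := by
  rcases hz.eq_or_lt with rfl | h
  · rw [II_zero]
    have := Real.exp_pos θ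
    linarith
  · have hpos : 0 < z / Real.exp θ := by positivity
    have h1 := Real.one_sub_inv_le_log_of_pos hpos
    rw [Real.log_div h.ne' (Real.exp_pos θ).ne', Real.log_exp, inv_div] at h1
    have h2 : z * (1 - Real.exp θ / z) ≤ z * (Real.log z - θ) := mul_le_mul_of_nonneg_left h1 hz
    have h3 : z * (1 - Real.exp θ / z) = z - Real.exp θ := by field_simp
    unfold II
    linarith

lemma II_eq {z : ℝ} (hz : 0 < z) : II z = Real.log z * z - (Real.exp (Real.log z) - 1) := by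
  rw [Real.exp_log hz]; unfold II; ring

lemma II_conv {z κ : ℝ} (hz : 0 ≤ z) (h0 : 0 < κ) (h1 : κ < 1) :
    II ((1 - κ) * z + κ) ≤ (1 - κ) * II z := by
  have hw : 0 < (1 - κ) * z + κ := by
    have : 0 ≤ (1 - κ) * z := mul_nonneg (by linarith) hz
    linarith
  rw [II_eq hw]
  set θ := Real.log ((1 - κ) * z + κ)
  have h2 := young hz θ
  have h3 := young (z := 1) zero_le_one θ
  rw [II_one] at h3
  have h4 : (1 - κ) * (θ * z - (Real.exp θ - 1)) ≤ (1 - κ) * II z :=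
    mul_le_mul_of_nonneg_left h2 (by linarith)
  nlinarith

lemma II_cont : Continuous II := by
  unfold II
  exact (Real.continuous_mul_log.sub continuous_id).add continuous_const

/-- duality: linear bounds give a bound for the rate -/
lemma dual {j : ℕ} {δ c : ℝ} (hδ : 0 < δ) {y : Fin j → ℝ} (hy : ∀ i, 0 ≤ y i)
    (h : ∀ θ : Fin j → ℝ, ∑ i, (θ i * y i - δ * (Real.exp (θ i) - 1)) ≤ c) :
    ∑ i, δ * II (y i / δ) ≤ c := by
  have hlim : Tendsto (fun m : ℕ => ∑ i, ((if y i = 0 then -(m : ℝ) else Real.log (y i / δ)) * y i -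
      δ * (Real.exp (if y i = 0 then -(m : ℝ) else Real.log (y i / δ)) - 1))) atTop
      (𝓝 (∑ i, δ * II (y i / δ))) := by
    refine tendsto_finsetSum _ fun i _ => ?_
    by_cases h0 : y i = 0
    · simp only [h0, if_true, mul_zero, zero_sub, zero_div, II_zero, mul_one]
      have h1 : Tendsto (fun m : ℕ => Real.exp (-(m : ℝ))) atTop (𝓝 0) :=
        Real.tendsto_exp_neg_atTop_nhds_zero.comp tendsto_natCast_atTop_atTop
      have h2 := ((h1.sub_const 1).const_mul δ).neg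
      simpa using h2
    · simp only [h0, if_false]
      have hp : 0 < y i := lt_of_le_of_ne (hy i) (Ne.symm h0)
      have hp' : 0 < y i / δ := by positivity
      have e : Real.log (y i / δ) * y i - δ * (Real.exp (Real.log (y i / δ)) - 1) =
          δ * II (y i / δ) := by
        rw [II_eq hp', Real.exp_log hp']
        field_simp
      rw [e]
      exact tendsto_const_nhds
  exact le_of_tendsto' hlim fun m => h _

/-- rational linear bounds suffice -/
lemma dual_rat {j : ℕ} {δ c : ℝ} (hδ : 0 < δ) {y : Fin j → ℝ} (hy : ∀ i, 0 ≤ y i)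
    (h : ∀ θ : Fin j → ℚ, ∑ i, ((θ i : ℝ) * y i - δ * (Real.exp (θ i) - 1)) ≤ c) :
    ∑ i, δ * II (y i / δ) ≤ c := by
  refine dual hδ hy fun θ => ?_
  have hd : DenseRange (Pi.map (fun (_ : Fin j) (q : ℚ) => (q : ℝ))) :=
    DenseRange.piMap fun _ => Rat.denseRange_cast
  have hc : IsClosed {θ : Fin j → ℝ | ∑ i, (θ i * y i - δ * (Real.exp (θ i) - 1)) ≤ c} :=
    isClosed_le (by fun_prop) continuous_const
  exact hc.closure_subset_iff.mpr (by
    rintro _ ⟨q, rfl⟩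
    exact h q) (hd θ)

/-- modulus of continuity of the functions in the limit set -/
lemma modulus {ε δ y : ℝ} (hε : 0 < ε) (hδ : 0 < δ) (hδε : δ ≤ Real.exp (-(2 / ε))) (hy : 0 ≤ y)
    (h : δ * II (y / δ) ≤ 1) : y ≤ ε := by
  by_contra hcon
  push Not at hcon
  have h1 := young (z := y / δ) (by positivity) (2 / ε)
  have h2 : δ * (2 / ε * (y / δ) - (Real.exp (2 / ε) - 1)) ≤ 1 :=
    (mul_le_mul_of_nonneg_left h1 hδ.le).trans h
  have h3 : δ * (2 / ε * (y / δ) - (Real.exp (2 / ε) - 1)) =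
      2 / ε * y - δ * Real.exp (2 / ε) + δ := by
    field_simp
    ring
  rw [h3] at h2
  have h4 : 2 < 2 / ε * y := by
    rw [div_mul_eq_mul_div, lt_div_iff₀ hε]; linarith
  have h5 : δ * Real.exp (2 / ε) ≤ 1 := by
    calc δ * Real.exp (2 / ε) ≤ Real.exp (-(2 / ε)) * Real.exp (2 / ε) := by gcongr
      _ = 1 := by rw [← Real.exp_add]; simp
  linarith

variable {Ω : Type*} [mΩ : MeasurableSpace Ω] {R : ℕ → Set Ω}

/-- the normalized counting function -/
noncomputable def FF (R : ℕ → Set Ω) (x : ℕ) (t : ℝ) (ω : Ω) : ℝ :=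
  (∑ k ∈ range ⌊t * Real.log x ^ 2⌋₊, rr R (x + k) ω) / Real.log x

lemma FF_mono {x : ℕ} (hL : 0 < Real.log (x : ℝ)) (ω : Ω) {s t : ℝ} (hst : s ≤ t) :
    FF R x s ω ≤ FF R x t ω := by
  unfold FF
  refine div_le_div_of_nonneg_right ?_ hL.le
  refine sum_le_sum_of_subset_of_nonneg (range_mono ?_) fun k _ _ => rr_nonneg R _ ω
  apply Nat.floor_mono
  gcongr

lemma FF_grid (δ : ℝ) (x i : ℕ) (ω : Ω) : FF R x (i * δ) ω = ∑ i' ∈ range i, VV R δ x i' ω := by
  have h := Finset.sum_range_sub (fun i => ∑ k ∈ range (mm δ x i), rr R (x + k) ω) i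
  unfold VV
  rw [← sum_div, h]
  unfold FF mm
  simp

lemma VV_nonneg {δ : ℝ} (hδ : 0 ≤ δ) {x : ℕ} (hL : 0 < Real.log (x : ℝ)) (i : ℕ) (ω : Ω) :
    0 ≤ VV R δ x i ω := by
  unfold VV
  refine div_nonneg ?_ hL.le
  have : ∑ k ∈ range (mm δ x i), rr R (x + k) ω ≤ ∑ k ∈ range (mm δ x (i + 1)), rr R (x + k) ω :=
    sum_le_sum_of_subset_of_nonneg
      (range_mono (mm_mono hδ x (Nat.le_succ i))) fun k _ _ => rr_nonneg R _ ω
  linarith

/-- closeness on the grid gives uniform closeness -/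
lemma close_fun {δ T ε ε' : ℝ} {j x : ℕ} {ω : Ω} (hδ : 0 < δ) (hT : T ≤ j * δ)
    (hL : 0 < Real.log (x : ℝ)) {y : ℕ → ℝ} {f : ℝ → ℝ}
    (hf : ∀ s t, 0 ≤ s → s ≤ t → t ≤ j * δ → f s ≤ f t)
    (hgrid : ∀ i ≤ j, f (i * δ) = ∑ i' ∈ range i, y i') (hy : ∀ i < j, y i ≤ ε / 4)
    (hV : ∀ i < j, |VV R δ x i ω - y i| ≤ ε') (hε' : j * ε' ≤ ε / 4) (hε'0 : 0 ≤ ε') (hε : 0 < ε) :
    ∀ t ∈ Set.Icc 0 T, |FF R x t ω - f t| ≤ ε := by
  have hg : ∀ i ≤ j, |FF R x (i * δ) ω - f (i * δ)| ≤ ε / 4 := by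
    intro i hi
    rw [FF_grid, hgrid i hi, ← sum_sub_distrib]
    refine (abs_sum_le_sum_abs _ _).trans ?_
    calc ∑ i' ∈ range i, |VV R δ x i' ω - y i'| ≤ ∑ i' ∈ range i, ε' :=
          sum_le_sum fun i' hi' => hV i' (by rw [mem_range] at hi'; omega)
      _ = i * ε' := by simp
      _ ≤ j * ε' := by
          have : (i : ℝ) ≤ j := by exact_mod_cast hi
          gcongr
      _ ≤ ε / 4 := hε'
  intro t ht
  by_cases htj : t = j * δ
  · rw [htj]
    exact (hg j le_rfl).trans (by linarith)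
  have htlt : t < j * δ := lt_of_le_of_ne (ht.2.trans hT) htj
  -- the cell of `t`
  obtain ⟨i, hi⟩ : ∃ i : ℕ, i = ⌊t / δ⌋₊ := ⟨_, rfl⟩
  have hi1 : (i : ℝ) * δ ≤ t := by
    have := Nat.floor_le (div_nonneg ht.1 hδ.le)
    rw [← hi] at this
    rwa [le_div_iff₀ hδ] at this
  have hi2 : t < ((i + 1 : ℕ) : ℝ) * δ := by
    have := Nat.lt_floor_add_one (t / δ)
    rw [← hi, div_lt_iff₀ hδ] at this
    push_cast
    exact this
  have hij : i < j := by
    by_contra hcon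
    push Not at hcon
    have : (j : ℝ) ≤ i := by exact_mod_cast hcon
    have : (j : ℝ) * δ ≤ i * δ := by gcongr
    linarith
  have h1 := abs_le.mp (hg i hij.le)
  have h2 := abs_le.mp (hg (i + 1) (by omega))
  have h3 : FF R x (i * δ) ω ≤ FF R x t ω := FF_mono hL ω hi1
  have h4 : FF R x t ω ≤ FF R x (((i + 1 : ℕ) : ℝ) * δ) ω := FF_mono hL ω hi2.le
  have h5 : f (i * δ) ≤ f t := hf _ _ (by positivity) hi1 htlt.le
  have hi1j : ((i + 1 : ℕ) : ℝ) * δ ≤ j * δ := by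
    have : ((i + 1 : ℕ) : ℝ) ≤ j := by exact_mod_cast hij
    gcongr
  have h6 : f t ≤ f (((i + 1 : ℕ) : ℝ) * δ) := hf _ _ ht.1 hi2.le hi1j
  have h7 : f (((i + 1 : ℕ) : ℝ) * δ) = f (i * δ) + y i := by
    rw [hgrid (i + 1) (by omega), hgrid i hij.le, sum_range_succ]
  have h8 := hy i hij
  rw [abs_le]
  constructor <;> linarith

end Pool.Agent.Helper88.ER
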