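import Mathlib
import Pool.Agent.Helper88.ErFun

open MeasureTheory ProbabilityTheory Filter Finset
open scoped Topology

set_option maxHeartbeats 4000000

namespace Pool.Agent.Helper88.ER

open Pool.Agent.Helper88.Lln

/-! ### Step densities -/

/-- step density -/
noncomputable def stp (δ : ℝ) (j : ℕ) (y : ℕ → ℝ) (s : ℝ) : ℝ :=
  if ⌈s / δ⌉₊ - 1 < j then y (⌈s / δ⌉₊ - 1) / δ else 0

lemma stp_meas (δ : ℝ) (j : ℕ) (y : ℕ → ℝ) : Measurable (stp δ j y) := by
  have h : stp δ j y = (fun n : ℕ => if n - 1 < j then y (n - 1) / δ else 0) ∘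
      (fun s : ℝ => ⌈s / δ⌉₊) := rfl
  rw [h]
  exact measurable_from_nat.comp (Nat.measurable_ceil.comp (measurable_id.div_const δ))

lemma stp_nonneg {δ : ℝ} (hδ : 0 < δ) {j : ℕ} {y : ℕ → ℝ} (hy : ∀ i < j, 0 ≤ y i) (s : ℝ) :
    0 ≤ stp δ j y s := by
  unfold stp
  split_ifs with h
  · exact div_nonneg (hy _ h) hδ.le
  · exact le_rfl

lemma stp_cell {δ : ℝ} (hδ : 0 < δ) {j : ℕ} {y : ℕ → ℝ} {i : ℕ} (hi : i < j) {s : ℝ}
    (hs : s ∈ Set.Ioc ((i : ℝ) * δ) (((i + 1 : ℕ) : ℝ) * δ)) : stp δ j y s = y i / δ := by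
  have h : ⌈s / δ⌉₊ = i + 1 := by
    rw [Nat.ceil_eq_iff (by omega)]
    constructor
    · rw [lt_div_iff₀ hδ]
      simpa using hs.1
    · rw [div_le_iff₀ hδ]
      exact hs.2
  unfold stp
  rw [h, Nat.add_sub_cancel, if_pos hi]

lemma cell_le {δ : ℝ} (hδ : 0 < δ) (i : ℕ) : (i : ℝ) * δ ≤ ((i + 1 : ℕ) : ℝ) * δ := by
  push_cast; nlinarith

lemma cell_int {δ : ℝ} (hδ : 0 < δ) {j : ℕ} {y : ℕ → ℝ} (G : ℝ → ℝ) {i : ℕ} (hi : i < j) :
    IntervalIntegrable (fun s => G (stp δ j y s)) volume ((i : ℝ) * δ) (((i + 1 : ℕ) : ℝ) * δ) ∧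
      ∫ s in ((i : ℝ) * δ)..(((i + 1 : ℕ) : ℝ) * δ), G (stp δ j y s) = δ * G (y i / δ) := by
  have hle := cell_le hδ i
  have hcongr : Set.EqOn (fun _ => G (y i / δ)) (fun s => G (stp δ j y s))
      (Set.Ioc ((i : ℝ) * δ) (((i + 1 : ℕ) : ℝ) * δ)) := by
    intro s hs
    simp only
    rw [stp_cell hδ hi hs]
  constructor
  · rw [intervalIntegrable_iff_integrableOn_Ioc_of_le hle]
    exact (integrableOn_const (by simp)).congr_fun hcongr measurableSet_Ioc
  · rw [intervalIntegral.integral_of_le hle, ← setIntegral_congr_fun measurableSet_Ioc hcongr]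
    rw [setIntegral_const, measureReal_def, Real.volume_Ioc, ENNReal.toReal_ofReal (by linarith)]
    simp only [smul_eq_mul]
    push_cast
    ring

/-- additivity over cells -/
lemma cells {δ : ℝ} {f : ℝ → ℝ} {i : ℕ}
    (hf : ∀ k < i, IntervalIntegrable f volume ((k : ℝ) * δ) (((k + 1 : ℕ) : ℝ) * δ)) :
    ∫ s in (0 : ℝ)..((i : ℝ) * δ), f s =
      ∑ k ∈ range i, ∫ s in ((k : ℝ) * δ)..(((k + 1 : ℕ) : ℝ) * δ), f s := by
  have h := intervalIntegral.sum_integral_adjacent_intervals (μ := volume) (f := f)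
    (a := fun k : ℕ => (k : ℝ) * δ) (n := i) hf
  simp only [Nat.cast_zero, zero_mul] at h
  exact h.symm

lemma cells_int {δ : ℝ} {f : ℝ → ℝ} {i : ℕ}
    (hf : ∀ k < i, IntervalIntegrable f volume ((k : ℝ) * δ) (((k + 1 : ℕ) : ℝ) * δ)) :
    IntervalIntegrable f volume 0 ((i : ℝ) * δ) := by
  have h := IntervalIntegrable.trans_iterate (μ := volume) (f := f)
    (a := fun k : ℕ => (k : ℝ) * δ) (n := i) hf
  simpa using h

/-- membership in the limit class -/
def KK (T : ℝ) (φ : ℝ → ℝ) : Prop :=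
  Measurable φ ∧ (∀ s, 0 ≤ φ s) ∧ IntegrableOn (fun s => II (φ s)) (Set.Ioc 0 T) ∧
    ∫ s in Set.Ioc 0 T, II (φ s) ≤ 1

lemma integrable_of_II {φ : ℝ → ℝ} (hm : Measurable φ) (h0 : ∀ s, 0 ≤ φ s) {T : ℝ}
    (hi : IntegrableOn (fun s => II (φ s)) (Set.Ioc 0 T)) : IntegrableOn φ (Set.Ioc 0 T) := by
  have h1 : IntegrableOn (fun s => II (φ s) + (Real.exp 1 - 1)) (Set.Ioc 0 T) :=
    hi.add (integrableOn_const (by simp))
  refine Integrable.mono' h1 hm.aestronglyMeasurable (ae_of_all _ fun s => ?_)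
  rw [Real.norm_eq_abs, abs_of_nonneg (h0 s)]
  have := young (h0 s) 1
  linarith

/-- the integral function is monotone -/
lemma int_mono {φ : ℝ → ℝ} (h0 : ∀ s, 0 ≤ φ s) {B : ℝ}
    (hi : IntegrableOn φ (Set.Ioc 0 B)) : ∀ s t, 0 ≤ s → s ≤ t → t ≤ B →
      ∫ u in (0 : ℝ)..s, φ u ≤ ∫ u in (0 : ℝ)..t, φ u := by
  intro s t hs hst htB
  have h1 : IntervalIntegrable φ volume 0 s := by
    rw [intervalIntegrable_iff_integrableOn_Ioc_of_le hs]
    exact hi.mono_set (Set.Ioc_subset_Ioc_right (by linarith))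
  have h2 : IntervalIntegrable φ volume s t := by
    rw [intervalIntegrable_iff_integrableOn_Ioc_of_le hst]
    exact hi.mono_set (Set.Ioc_subset_Ioc hs htB)
  rw [← intervalIntegral.integral_add_adjacent_intervals h1 h2]
  have := intervalIntegral.integral_nonneg_of_forall (μ := volume) hst h0
  linarith

variable {Ω : Type*} [mΩ : MeasurableSpace Ω] {R : ℕ → Set Ω}

/-- choice of the mesh -/
lemma mesh {T ε : ℝ} (hT : 0 < T) : ∃ (n j : ℕ) (δ : ℝ), δ = 1 / ((n : ℝ) + 1) ∧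
    0 < δ ∧ 0 < j ∧ T ≤ j * δ ∧ δ ≤ Real.exp (-(2 / (ε / 4))) := by
  obtain ⟨n, hn⟩ := exists_nat_one_div_lt (Real.exp_pos (-(2 / (ε / 4))))
  have hδ : (0 : ℝ) < 1 / ((n : ℝ) + 1) := by positivity
  refine ⟨n, ⌈T / (1 / ((n : ℝ) + 1))⌉₊, 1 / ((n : ℝ) + 1), rfl, hδ, ?_, ?_, hn.le⟩
  · exact Nat.ceil_pos.mpr (by positivity)
  · have := Nat.le_ceil (T / (1 / ((n : ℝ) + 1)))
    rwa [div_le_iff₀ hδ] at this

/-- eventually close to the limit class -/
theorem eventually_close {ω : Ω}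
    (hU : ∀ (n j m : ℕ) (θ : Fin j → ℚ), ∀ᶠ x : ℕ in atTop,
      ∑ i : Fin j, (θ i : ℝ) * VV R (1 / ((n : ℝ) + 1)) x i ω ≤
        ∑ i : Fin j, (1 / ((n : ℝ) + 1)) * (Real.exp (θ i) - 1) + 1 + 1 / ((m : ℝ) + 1))
    {T ε : ℝ} (hT : 0 < T) (hε : 0 < ε) :
    ∀ᶠ x : ℕ in atTop, ∃ φ, KK T φ ∧
      ∀ t ∈ Set.Icc 0 T, |FF R x t ω - ∫ s in (0 : ℝ)..t, φ s| ≤ ε := by
  obtain ⟨n, j, δ, hδn, hδ, hj, hTj, hδε⟩ := mesh (ε := ε) hT
  by_contra hcon
  rw [not_eventually] at hcon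
  have hU' := hU n j
  rw [← hδn] at hU'
  set P : Set ℕ := {x | ¬ ∃ φ, KK T φ ∧
      ∀ t ∈ Set.Icc 0 T, |FF R x t ω - ∫ s in (0 : ℝ)..t, φ s| ≤ ε} with hP
  have hne : NeBot (atTop ⊓ 𝓟 P) := frequently_mem_iff_neBot.mp hcon
  set l : Filter ℕ := atTop ⊓ 𝓟 P with hl
  have hlle : l ≤ atTop := inf_le_left
  set V : ℕ → Fin j → ℝ := fun x i => VV R δ x i ω with hV
  -- box
  set C : ℝ := δ * (Real.exp 1 - 1) + 1 + 1 with hC
  have hbox : ∀ᶠ x : ℕ in atTop, V x ∈ Set.Icc (0 : Fin j → ℝ) (fun _ => C) := by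
    have h1 : ∀ i₀ : Fin j, ∀ᶠ x : ℕ in atTop, V x i₀ ≤ C := by
      intro i₀
      filter_upwards [hU' 0 (fun i => if i = i₀ then 1 else 0)] with x hx
      have e1 : ∑ i : Fin j, (((if i = i₀ then (1 : ℚ) else 0 : ℚ)) : ℝ) * VV R δ x i ω =
          VV R δ x i₀ ω := by
        rw [Finset.sum_eq_single i₀]
        · simp
        · intro i _ hne; simp [hne]
        · simp
      have e2 : ∑ i : Fin j, δ * (Real.exp (((if i = i₀ then (1 : ℚ) else 0 : ℚ)) : ℝ) - 1) =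
          δ * (Real.exp 1 - 1) := by
        rw [Finset.sum_eq_single i₀]
        · simp
        · intro i _ hne; simp [hne]
        · simp
      rw [e1, e2] at hx
      simp only [hV, hC]
      simpa using hx
    filter_upwards [eventually_all.mpr h1, log_nat_tendsto.eventually_gt_atTop 0] with x hx hL
    exact ⟨fun i => VV_nonneg hδ.le hL i ω, fun i => hx i⟩
  obtain ⟨y, hybox, hy⟩ := (isCompact_Icc (a := (0 : Fin j → ℝ)) (b := fun _ => C)).exists_mapClusterPt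
    (f := l) (u := V) (by
      rw [le_principal_iff, Filter.mem_map]
      exact hlle hbox)
  have hy0 : ∀ i, 0 ≤ y i := fun i => hybox.1 i
  -- linear constraints pass to the limit
  have hlin : ∀ θ : Fin j → ℚ, ∑ i, ((θ i : ℝ) * y i - δ * (Real.exp (θ i) - 1)) ≤ 1 := by
    intro θ
    have hm : ∀ m : ℕ, ∑ i, (θ i : ℝ) * y i ≤
        ∑ i : Fin j, δ * (Real.exp (θ i) - 1) + 1 + 1 / ((m : ℝ) + 1) := by
      intro m
      by_contra hc
      push Not at hc
      have hopen : ∀ᶠ z : Fin j → ℝ in 𝓝 y, ∑ i : Fin j, δ * (Real.exp (θ i) - 1) + 1 +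
          1 / ((m : ℝ) + 1) < ∑ i, (θ i : ℝ) * z i := by
        have hcont : Continuous (fun z : Fin j → ℝ => ∑ i, (θ i : ℝ) * z i) := by fun_prop
        exact (hcont.tendsto y).eventually_const_lt hc
      have h1 := hy.frequently hopen
      have h2 : ∀ᶠ x in l, ∑ i : Fin j, (θ i : ℝ) * VV R δ x i ω ≤
        ∑ i : Fin j, δ * (Real.exp (θ i) - 1) + 1 + 1 / ((m : ℝ) + 1) :=
        (hU' m θ).filter_mono hlle
      obtain ⟨x, hx1, hx2⟩ := (h1.and_eventually h2).exists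
      simp only [hV] at hx1
      linarith
    have hlim : Tendsto (fun m : ℕ => ∑ i : Fin j, δ * (Real.exp (θ i) - 1) + 1 +
        1 / ((m : ℝ) + 1)) atTop (𝓝 (∑ i : Fin j, δ * (Real.exp (θ i) - 1) + 1 + 0)) :=
      tendsto_one_div_add_atTop_nhds_zero_nat.const_add _
    have h3 := ge_of_tendsto' hlim hm
    rw [sum_sub_distrib]
    linarith
  have hII := dual_rat hδ hy0 hlin
  -- the density
  set y' : ℕ → ℝ := fun i => if h : i < j then y ⟨i, h⟩ else 0 with hy'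
  have hy'i : ∀ i : Fin j, y' i = y i := fun i => by simp [hy', i.2]
  have hy'0 : ∀ i < j, 0 ≤ y' i := fun i hi => by
    simp only [hy', hi, dif_pos]; exact hy0 _
  have hIIr : ∑ i ∈ range j, δ * II (y' i / δ) ≤ 1 := by
    rw [Finset.sum_range]
    simpa only [hy'i] using hII
  have hmod : ∀ i < j, y' i ≤ ε / 4 := by
    intro i hi
    refine modulus (by positivity) hδ hδε (hy'0 i hi) ?_
    refine le_trans ?_ hIIr
    exact single_le_sum (f := fun i => δ * II (y' i / δ)) (fun i hi => mul_nonneg hδ.le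
      (II_nonneg (div_nonneg (hy'0 i (mem_range.mp hi)) hδ.le))) (mem_range.mpr hi)
  set φ := stp δ j y' with hφ
  have hcellφ : ∀ k < j, IntervalIntegrable φ volume ((k : ℝ) * δ) (((k + 1 : ℕ) : ℝ) * δ) :=
    fun k hk => (cell_int hδ (fun z => z) hk).1
  have hcellI : ∀ k < j, IntervalIntegrable (fun s => II (φ s)) volume ((k : ℝ) * δ)
      (((k + 1 : ℕ) : ℝ) * δ) := fun k hk => (cell_int hδ II hk).1
  have hjδ : 0 ≤ (j : ℝ) * δ := by positivity
  have hφ0 : ∀ s, 0 ≤ φ s := stp_nonneg hδ hy'0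
  have hint1 : IntegrableOn φ (Set.Ioc 0 ((j : ℝ) * δ)) := by
    rw [← intervalIntegrable_iff_integrableOn_Ioc_of_le hjδ]
    exact cells_int hcellφ
  have hint2 : IntegrableOn (fun s => II (φ s)) (Set.Ioc 0 ((j : ℝ) * δ)) := by
    rw [← intervalIntegrable_iff_integrableOn_Ioc_of_le hjδ]
    exact cells_int hcellI
  have hKK : KK T φ := by
    refine ⟨stp_meas δ j y', hφ0, hint2.mono_set (Set.Ioc_subset_Ioc_right hTj), ?_⟩
    have h1 : ∫ s in Set.Ioc 0 T, II (φ s) ≤ ∫ s in Set.Ioc 0 ((j : ℝ) * δ), II (φ s) :=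
      setIntegral_mono_set hint2 (ae_of_all _ fun s => II_nonneg (hφ0 s))
        (ae_of_all _ (Set.Ioc_subset_Ioc_right hTj))
    refine h1.trans ?_
    rw [← intervalIntegral.integral_of_le hjδ, cells hcellI]
    refine le_trans (le_of_eq ?_) hIIr
    refine sum_congr rfl fun k hk => ?_
    exact (cell_int hδ II (mem_range.mp hk)).2
  -- a close `x`
  set ε' : ℝ := ε / (4 * j) with hε'
  have hjpos : (0 : ℝ) < j := by exact_mod_cast hj
  have hε'0 : 0 < ε' := by positivity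
  have hnear : ∀ᶠ z : Fin j → ℝ in 𝓝 y, ∀ i, |z i - y i| < ε' := by
    refine eventually_all.mpr fun i => ?_
    have hcont : Continuous (fun z : Fin j → ℝ => |z i - y i|) := by fun_prop
    have := (hcont.tendsto y).eventually_lt_const (u := ε') (by simpa using hε'0)
    exact this
  have hfreq := (hy.frequently hnear).and_eventually
    (((log_nat_tendsto.eventually_gt_atTop 0).filter_mono hlle).and
      (show ∀ᶠ x in l, x ∈ P from (eventually_principal.mpr fun x hx => hx).filter_mono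
        inf_le_right))
  obtain ⟨x, hx1, hx2, hx3⟩ := hfreq.exists
  apply hx3
  refine ⟨φ, hKK, ?_⟩
  refine close_fun (j := j) (y := y') (ε' := ε') hδ hTj hx2 (int_mono hφ0 hint1) ?_ hmod ?_ ?_
    hε'0.le hε
  · intro i hi
    rw [cells fun k hk => hcellφ k (by omega)]
    refine sum_congr rfl fun k hk => ?_
    have := (cell_int (y := y') hδ (fun z => z) (show k < j by rw [mem_range] at hk; omega)).2
    rw [hφ, this]
    field_simp
  · intro i hi
    have := hx1 ⟨i, hi⟩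
    simp only [hV] at this
    simp only [hy', hi, dif_pos]
    exact this.le
  · rw [hε']
    apply le_of_eq
    field_simp

/-- every function of the limit class is approached infinitely often -/
theorem frequently_close {ω : Ω}
    (hLow : ∀ (n j m : ℕ) (α : Fin j → ℚ), (∀ i, 0 < α i) →
      ∑ i : Fin j, (1 / ((n : ℝ) + 1)) * II (α i) < 1 → ∃ᶠ x : ℕ in atTop,
      ∀ i : Fin j, |VV R (1 / ((n : ℝ) + 1)) x i ω - α i * (1 / ((n : ℝ) + 1))| ≤
        1 / ((m : ℝ) + 1))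
    {T ε : ℝ} (hT : 0 < T) (hε : 0 < ε) {φ : ℝ → ℝ} (hφK : KK T φ) :
    ∃ᶠ x : ℕ in atTop, ∀ t ∈ Set.Icc 0 T, |FF R x t ω - ∫ s in (0 : ℝ)..t, φ s| ≤ ε := by
  obtain ⟨n, j, δ, hδn, hδ, hj, hTj, hδε⟩ := mesh (ε := ε) hT
  have hLow' := hLow n j
  rw [← hδn] at hLow'
  obtain ⟨hm, h0, hint, hle⟩ := hφK
  have hjδ : 0 ≤ (j : ℝ) * δ := by positivity
  -- extension by `1`
  set ψ : ℝ → ℝ := fun s => if s ≤ T then φ s else 1 with hψ
  have hψm : Measurable ψ := Measurable.ite measurableSet_Iic hm measurable_const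
  have hψ0 : ∀ s, 0 ≤ ψ s := by
    intro s; simp only [hψ]; split_ifs
    · exact h0 s
    · exact zero_le_one
  have hIIψ : (fun s => II (ψ s)) = Set.indicator (Set.Iic T) (fun s => II (φ s)) := by
    ext s
    by_cases hs : s ≤ T
    · rw [Set.indicator_of_mem (show s ∈ Set.Iic T from hs)]
      simp only [hψ, if_pos hs]
    · rw [Set.indicator_of_notMem (show s ∉ Set.Iic T from hs)]
      simp only [hψ, if_neg hs, II_one]
  have hinter : Set.Ioc 0 ((j : ℝ) * δ) ∩ Set.Iic T = Set.Ioc 0 T := by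
    ext s
    simp only [Set.mem_inter_iff, Set.mem_Ioc, Set.mem_Iic]
    constructor
    · rintro ⟨⟨h1, h2⟩, h3⟩; exact ⟨h1, h3⟩
    · rintro ⟨h1, h3⟩; exact ⟨⟨h1, h3.trans hTj⟩, h3⟩
  have hintψ : IntegrableOn (fun s => II (ψ s)) (Set.Ioc 0 ((j : ℝ) * δ)) := by
    rw [hIIψ, integrableOn_indicator_iff measurableSet_Iic, Set.inter_comm, hinter]
    exact hint
  have hleψ : ∫ s in Set.Ioc 0 ((j : ℝ) * δ), II (ψ s) ≤ 1 := by
    rw [hIIψ, setIntegral_indicator measurableSet_Iic, hinter]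
    exact hle
  have hintψ1 : IntegrableOn ψ (Set.Ioc 0 ((j : ℝ) * δ)) := integrable_of_II hψm hψ0 hintψ
  -- cells
  have hsub : ∀ k < j, Set.Ioc ((k : ℝ) * δ) (((k + 1 : ℕ) : ℝ) * δ) ⊆ Set.Ioc 0 ((j : ℝ) * δ) := by
    intro k hk
    refine Set.Ioc_subset_Ioc (by positivity) ?_
    have : ((k + 1 : ℕ) : ℝ) ≤ j := by exact_mod_cast hk
    gcongr
  have hc1 : ∀ k < j, IntervalIntegrable ψ volume ((k : ℝ) * δ) (((k + 1 : ℕ) : ℝ) * δ) :=
    fun k hk => by
      rw [intervalIntegrable_iff_integrableOn_Ioc_of_le (cell_le hδ k)]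
      exact hintψ1.mono_set (hsub k hk)
  have hc2 : ∀ k < j, IntervalIntegrable (fun s => II (ψ s)) volume ((k : ℝ) * δ)
      (((k + 1 : ℕ) : ℝ) * δ) := fun k hk => by
      rw [intervalIntegrable_iff_integrableOn_Ioc_of_le (cell_le hδ k)]
      exact hintψ.mono_set (hsub k hk)
  obtain ⟨y, hy⟩ : ∃ y : ℕ → ℝ, ∀ i : ℕ, y i =
      ∫ s in ((i : ℝ) * δ)..(((i + 1 : ℕ) : ℝ) * δ), ψ s := ⟨_, fun _ => rfl⟩
  have hy0 : ∀ i, 0 ≤ y i := fun i => by
    rw [hy]; exact intervalIntegral.integral_nonneg_of_forall (cell_le hδ i) hψ0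
  have hIIf : ∑ i : Fin j, δ * II (y i / δ) ≤ 1 := by
    refine dual hδ (fun i => hy0 i) fun θ => ?_
    refine le_trans ?_ hleψ
    rw [← intervalIntegral.integral_of_le hjδ, cells hc2, Finset.sum_range]
    refine sum_le_sum fun i _ => ?_
    have h1 : IntervalIntegrable (fun s => θ i * ψ s - (Real.exp (θ i) - 1)) volume
        ((i : ℕ) * δ : ℝ) ((((i : ℕ) + 1 : ℕ) : ℝ) * δ) :=
      ((hc1 i i.2).const_mul _).sub intervalIntegrable_const
    have h2 := intervalIntegral.integral_mono_on (cell_le hδ i) h1 (hc2 i i.2)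
      (fun s _ => young (hψ0 s) (θ i))
    refine le_trans (le_of_eq ?_) h2
    rw [intervalIntegral.integral_sub ((hc1 i i.2).const_mul _) intervalIntegrable_const,
      intervalIntegral.integral_const_mul, intervalIntegral.integral_const]
    rw [hy]
    simp only [smul_eq_mul]
    push_cast
    ring
  have hmod : ∀ i < j, y i ≤ ε / 4 := by
    intro i hi
    refine modulus (by positivity) hδ hδε (hy0 i) ?_
    refine le_trans ?_ hIIf
    exact single_le_sum (f := fun i : Fin j => δ * II (y i / δ)) (fun i _ => mul_nonneg hδ.le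
      (II_nonneg (div_nonneg (hy0 i) hδ.le))) (mem_univ (⟨i, hi⟩ : Fin j))
  -- rational target
  set ε' : ℝ := ε / (4 * j) with hε'
  have hjpos : (0 : ℝ) < j := by exact_mod_cast hj
  have hε'0 : 0 < ε' := by positivity
  have hκ : ∃ κ : ℝ, 0 < κ ∧ κ < 1 ∧ ∀ i : Fin j, δ * |((1 - κ) * (y i / δ) + κ) - y i / δ| <
      ε' / 2 := by
    have h1 : ∀ᶠ κ : ℝ in 𝓝[>] 0, ∀ i : Fin j,
        δ * |((1 - κ) * (y i / δ) + κ) - y i / δ| < ε' / 2 := by
      refine eventually_all.mpr fun i => ?_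
      have hcont : Continuous (fun κ : ℝ => δ * |((1 - κ) * (y i / δ) + κ) - y i / δ|) := by
        fun_prop
      exact ((hcont.tendsto 0).mono_left nhdsWithin_le_nhds).eventually_lt_const
        (by simpa using hε'0)
    have h2 : ∀ᶠ κ : ℝ in 𝓝[>] 0, κ < 1 :=
      (tendsto_id.mono_left nhdsWithin_le_nhds).eventually_lt_const (by norm_num)
    obtain ⟨κ, hκ1, hκ2, hκ3⟩ := (h1.and (h2.and self_mem_nhdsWithin)).exists
    exact ⟨κ, hκ3, hκ2, hκ1⟩
  obtain ⟨κ, hκ0, hκ1, hκ2⟩ := hκ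
  set a : Fin j → ℝ := fun i => (1 - κ) * (y i / δ) + κ with ha
  have ha0 : ∀ i, 0 < a i := fun i => by
    have : 0 ≤ (1 - κ) * (y i / δ) := mul_nonneg (by linarith) (div_nonneg (hy0 i) hδ.le)
    simp only [ha]; linarith
  have haII : ∑ i : Fin j, δ * II (a i) < 1 := by
    have h1 : ∑ i : Fin j, δ * II (a i) ≤ (1 - κ) * ∑ i : Fin j, δ * II (y i / δ) := by
      rw [mul_sum]
      refine sum_le_sum fun i _ => ?_
      have := II_conv (z := y i / δ) (div_nonneg (hy0 i) hδ.le) hκ0 hκ1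
      calc δ * II (a i) ≤ δ * ((1 - κ) * II (y i / δ)) := mul_le_mul_of_nonneg_left this hδ.le
        _ = _ := by ring
    have h2 : (1 - κ) * ∑ i : Fin j, δ * II (y i / δ) ≤ (1 - κ) * 1 :=
      mul_le_mul_of_nonneg_left hIIf (by linarith)
    linarith
  have hev : ∀ᶠ z : Fin j → ℝ in 𝓝 a, (∀ i, 0 < z i) ∧ ∑ i : Fin j, δ * II (z i) < 1 ∧
      ∀ i, δ * |z i - y i / δ| < ε' / 2 := by
    have h1 : ∀ᶠ z : Fin j → ℝ in 𝓝 a, ∀ i, 0 < z i :=
      eventually_all.mpr fun i => ((continuous_apply i).tendsto a).eventually_const_lt (ha0 i)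
    have h2 : ∀ᶠ z : Fin j → ℝ in 𝓝 a, ∑ i : Fin j, δ * II (z i) < 1 := by
      have hcont : Continuous (fun z : Fin j → ℝ => ∑ i : Fin j, δ * II (z i)) :=
        continuous_finsetSum _ fun i _ => continuous_const.mul (II_cont.comp (continuous_apply i))
      exact (hcont.tendsto a).eventually_lt_const haII
    have h3 : ∀ᶠ z : Fin j → ℝ in 𝓝 a, ∀ i, δ * |z i - y i / δ| < ε' / 2 := by
      refine eventually_all.mpr fun i => ?_
      have hcont : Continuous (fun z : Fin j → ℝ => δ * |z i - y i / δ|) := by fun_prop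
      exact (hcont.tendsto a).eventually_lt_const (hκ2 i)
    exact h1.and (h2.and h3)
  have hd : DenseRange (Pi.map (fun (_ : Fin j) (q : ℚ) => (q : ℝ))) :=
    DenseRange.piMap fun _ => Rat.denseRange_cast
  obtain ⟨z, hz1, hz2, hz3, hz4⟩ := ((mem_closure_iff_frequently.mp (hd a)).and_eventually hev).exists
  obtain ⟨α, rfl⟩ := hz1
  simp only [Pi.map_apply] at hz2 hz3 hz4
  obtain ⟨m, hm'⟩ := exists_nat_one_div_lt (show 0 < ε' / 2 by positivity)
  have hfr := hLow' m α (fun i => by exact_mod_cast hz2 i) hz3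
  refine (hfr.and_eventually (log_nat_tendsto.eventually_gt_atTop 0)).mono ?_
  rintro x ⟨hx1, hx2⟩ t ht
  have hcl := close_fun (R := R) (ω := ω) (j := j) (y := y) (ε' := ε') (x := x)
    (f := fun t => ∫ s in (0 : ℝ)..t, ψ s) hδ hTj hx2 (int_mono hψ0 hintψ1) (fun i hi => by
      rw [cells fun k hk => hc1 k (by omega)]
      exact sum_congr rfl fun k _ => (hy k).symm) hmod (fun i hi => by
      have e1 := hx1 ⟨i, hi⟩
      have e2 := hz4 ⟨i, hi⟩
      simp only at e1 e2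
      have e3 : VV R δ x i ω - y i = (VV R δ x i ω - α ⟨i, hi⟩ * δ) +
          δ * ((α ⟨i, hi⟩ : ℝ) - y i / δ) := by
        field_simp
        ring
      rw [e3]
      refine (abs_add_le _ _).trans ?_
      rw [abs_mul, abs_of_pos hδ]
      linarith) (by rw [hε']; apply le_of_eq; field_simp) hε'0.le hε t ht
  have e : ∫ s in (0 : ℝ)..t, ψ s = ∫ s in (0 : ℝ)..t, φ s := by
    refine intervalIntegral.integral_congr_ae (ae_of_all _ fun s hs => ?_)
    rw [Set.uIoc_of_le ht.1] at hs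
    simp only [hψ]
    rw [if_pos (hs.2.trans ht.2)]
  rw [← e]
  exact hcl

end Pool.Agent.Helper88.ER
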