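import Mathlib
import Pool.Agent.Helper88.ErFinal

open MeasureTheory ProbabilityTheory Filter Finset
open scoped Topology

set_option maxHeartbeats 4000000

namespace Pool.Agent.Helper88.ER

open Pool.Agent.Helper88.Lln

variable {Ω : Type*} [mΩ : MeasurableSpace Ω] {μ : Measure Ω} {ℱ : Filtration ℕ mΩ}
  {R : ℕ → Set Ω}

/-- counting chosen integers in an interval -/
lemma count_eq (R : ℕ → Set Ω) (ω : Ω) (x : ℕ) {L : ℝ} (hL : 0 ≤ L) :
    (({m : ℕ | x < m ∧ (m : ℝ) ≤ x + L ∧ ω ∈ R m}.ncard : ℕ) : ℝ) =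
      ∑ k ∈ range ⌊L⌋₊, rr R (x + k) ω := by
  classical
  have h1 : {m : ℕ | x < m ∧ (m : ℝ) ≤ x + L ∧ ω ∈ R m} =
      (((range ⌊L⌋₊).filter (fun k => ω ∈ R (x + k + 1))).image (fun k => x + k + 1) :
        Finset ℕ) := by
    ext m
    simp only [Set.mem_setOf_eq, coe_image, coe_filter, Set.mem_image, mem_range]
    constructor
    · rintro ⟨h1, h2, h3⟩
      refine ⟨m - x - 1, ⟨?_, ?_⟩, by omega⟩
      · have h4 : ((m - x : ℕ) : ℝ) ≤ L := by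
          rw [Nat.cast_sub h1.le]; linarith
        have h5 : m - x ≤ ⌊L⌋₊ := Nat.le_floor h4
        omega
      · have : x + (m - x - 1) + 1 = m := by omega
        rwa [this]
    · rintro ⟨k, ⟨hk, hR⟩, rfl⟩
      refine ⟨by omega, ?_, hR⟩
      have h4 : ((k + 1 : ℕ) : ℝ) ≤ L := (Nat.le_floor_iff hL).mp (by omega)
      push_cast at h4 ⊢
      linarith
  rw [h1, Set.ncard_coe_finset, card_image_of_injective _ (fun a b h => by simpa using h),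
    card_filter]
  push_cast
  exact sum_congr rfl fun k _ => by unfold rr; rfl

theorem er_law [IsProbabilityMeasure μ] (hR : ∀ n, MeasurableSet[ℱ n] (R n))
    (hsm : ∀ᵐ ω ∂μ, Tendsto (fun n =>
      (μ[(R (n + 1)).indicator (fun _ => (1 : ℝ)) | ℱ n]) ω) atTop (𝓝 0))
    (hcomp : ∀ᵐ ω ∂μ, ∀ t : ℝ, 0 < t → Tendsto (fun x : ℕ =>
      (∑ k ∈ range ⌊t * Real.log x ^ 2⌋₊,
        (μ[(R (x + k + 1)).indicator (fun _ => (1 : ℝ)) | ℱ (x + k)]) ω) / Real.log x)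
        atTop (𝓝 t)) :
    ∀ᵐ ω ∂μ, ∀ T : ℝ, 0 < T → ∀ ε : ℝ, 0 < ε →
      (∀ φ : ℝ → ℝ, KK T φ → {x : ℕ | ∀ t ∈ Set.Icc 0 T,
        |(({m : ℕ | x < m ∧ (m : ℝ) ≤ x + t * Real.log x ^ 2 ∧ ω ∈ R m}.ncard : ℕ) : ℝ) /
          Real.log x - ∫ s in (0 : ℝ)..t, φ s| ≤ ε}.Infinite) ∧
      {x : ℕ | ¬ ∃ φ : ℝ → ℝ, KK T φ ∧ ∀ t ∈ Set.Icc 0 T,
        |(({m : ℕ | x < m ∧ (m : ℝ) ≤ x + t * Real.log x ^ 2 ∧ ω ∈ R m}.ncard : ℕ) : ℝ) /
          Real.log x - ∫ s in (0 : ℝ)..t, φ s| ≤ ε}.Finite := by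
  classical
  have hlam : ∀ᵐ ω ∂μ, ∀ n, lam μ ℱ R n ω =
      (μ[(R (n + 1)).indicator (fun _ => (1 : ℝ)) | ℱ n]) ω :=
    ae_all_iff.mpr fun n => lam_ae (μ := μ) hR n
  have hsm' : ∀ᵐ ω ∂μ, Tendsto (fun n => lam μ ℱ R n ω) atTop (𝓝 0) := by
    filter_upwards [hsm, hlam] with ω h1 h2
    simpa [h2] using h1
  have hcomp' : ∀ᵐ ω ∂μ, ∀ t : ℝ, 0 < t → Tendsto (fun x : ℕ =>
      (∑ k ∈ range ⌊t * Real.log x ^ 2⌋₊, lam μ ℱ R (x + k) ω) / Real.log x) atTop (𝓝 t) := by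
    filter_upwards [hcomp, hlam] with ω h1 h2 t ht
    simpa [h2] using h1 t ht
  -- the upper bounds
  have hU : ∀ᵐ ω ∂μ, ∀ (n j m : ℕ) (θ : Fin j → ℚ), ∀ᶠ x : ℕ in atTop,
      ∑ i : Fin j, (θ i : ℝ) * VV R (1 / ((n : ℝ) + 1)) x i ω ≤
        ∑ i : Fin j, (1 / ((n : ℝ) + 1)) * (Real.exp (θ i) - 1) + 1 + 1 / ((m : ℝ) + 1) := by
    refine ae_all_iff.mpr fun n => ae_all_iff.mpr fun j => ae_all_iff.mpr fun m =>
      ae_all_iff.mpr fun θ => ?_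
    have h := up_main (μ := μ) hR hcomp' j (δ := 1 / ((n : ℝ) + 1)) (by positivity)
      (fun i => if h : i < j then ((θ ⟨i, h⟩ : ℚ) : ℝ) else 0)
      (ε := 1 / ((m : ℝ) + 1)) (by positivity)
    filter_upwards [h] with ω h1
    filter_upwards [h1] with x h2
    rw [Finset.sum_range, Finset.sum_range] at h2
    simpa using h2
  -- the lower bounds
  have hLow : ∀ᵐ ω ∂μ, ∀ (n j m : ℕ) (α : Fin j → ℚ), (∀ i, 0 < α i) →
      ∑ i : Fin j, (1 / ((n : ℝ) + 1)) * II (α i) < 1 → ∃ᶠ x : ℕ in atTop,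
      ∀ i : Fin j, |VV R (1 / ((n : ℝ) + 1)) x i ω - α i * (1 / ((n : ℝ) + 1))| ≤
        1 / ((m : ℝ) + 1) := by
    refine ae_all_iff.mpr fun n => ae_all_iff.mpr fun j => ae_all_iff.mpr fun m =>
      ae_all_iff.mpr fun α => ?_
    by_cases hα : ∀ i, 0 < α i
    swap
    · exact ae_of_all _ fun ω h => absurd h hα
    by_cases hs : ∑ i : Fin j, (1 / ((n : ℝ) + 1)) * II (α i) < 1
    swap
    · exact ae_of_all _ fun ω _ h => absurd h hs
    have h := low_main (μ := μ) hR hsm' hcomp' (j := j) (δ := 1 / ((n : ℝ) + 1)) (by positivity)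
      (α := fun i => if h : i < j then ((α ⟨i, h⟩ : ℚ) : ℝ) else 1)
      (fun i hi => by simp only [hi, dif_pos]; exact_mod_cast hα ⟨i, hi⟩)
      (by rw [Finset.sum_range]; simpa using hs)
      (ε := 1 / ((m : ℝ) + 1)) (by positivity)
    filter_upwards [h] with ω h1 _ _
    refine h1.mono fun x h2 i => ?_
    have h3 := h2 i i.2
    simpa using h3
  filter_upwards [hU, hLow] with ω h1 h2 T hT ε hε
  have hFF : ∀ (x : ℕ) (t : ℝ), 0 ≤ t →
      (({m : ℕ | x < m ∧ (m : ℝ) ≤ x + t * Real.log x ^ 2 ∧ ω ∈ R m}.ncard : ℕ) : ℝ) /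
          Real.log x = FF R x t ω := by
    intro x t ht
    rw [count_eq R ω x (by positivity)]
    rfl
  constructor
  · intro φ hφ
    rw [← Nat.frequently_atTop_iff_infinite]
    refine (frequently_close (R := R) h2 hT hε hφ).mono fun x hx t ht => ?_
    rw [hFF x t ht.1]
    exact hx t ht
  · have h3 := eventually_close (R := R) h1 hT hε
    rw [← Nat.cofinite_eq_atTop, eventually_cofinite] at h3
    refine h3.subset fun x hx => ?_
    simp only [Set.mem_setOf_eq] at hx ⊢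
    intro hcon
    obtain ⟨φ, hφ, h4⟩ := hcon
    refine hx ⟨φ, hφ, fun t ht => ?_⟩
    rw [hFF x t ht.1]
    exact h4 t ht

end Pool.Agent.Helper88.ER
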