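import Mathlib

open MeasureTheory ProbabilityTheory Filter
open scoped Topology

set_option linter.unusedSectionVars false

namespace Pool.Agent.Helper88.Hawkins

variable {Ω : Type*} [mΩ : MeasurableSpace Ω] {μ : Measure Ω}

/-- sigma algebra generated by one deletion event -/
@[reducible] def gen (D : ℕ → ℕ → Set Ω) (p : ℕ × ℕ) : MeasurableSpace Ω :=
  MeasurableSpace.generateFrom {D p.1 p.2}

variable {D : ℕ → ℕ → Set Ω} {R : ℕ → Set Ω} {T : Set ℕ}

lemma gen_le (hD : ∀ k n, MeasurableSet (D k n)) (p : ℕ × ℕ) : gen D p ≤ mΩ := by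
  apply MeasurableSpace.generateFrom_le
  rintro s hs
  rw [Set.mem_singleton_iff] at hs
  subst hs
  exact hD _ _

/-- the filtration generated by the deletion events -/
def Fil (hD : ∀ k n, MeasurableSet (D k n)) : Filtration ℕ mΩ where
  seq n := ⨆ p ∈ {p : ℕ × ℕ | p.2 ≤ n}, gen D p
  mono' := by
    intro a b hab
    apply iSup₂_le
    intro p hp
    exact le_iSup₂_of_le p (le_trans hp hab) le_rfl
  le' := by
    intro n
    exact iSup₂_le fun p _ => gen_le hD p

lemma meas_D (D : ℕ → ℕ → Set Ω) (S : Set (ℕ × ℕ)) {k n : ℕ} (h : (k, n) ∈ S) :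
    MeasurableSet[⨆ p ∈ S, gen D p] (D k n) := by
  have h1 : gen D (k, n) ≤ ⨆ p ∈ S, gen D p := le_iSup₂_of_le (k, n) h le_rfl
  apply h1
  exact MeasurableSpace.measurableSet_generateFrom (Set.mem_singleton _)

lemma R_meas (hD : ∀ k n, MeasurableSet (D k n))
    (hR : ∀ n, R n = {ω | 2 ≤ n ∧ n ∈ T ∧ ∀ k, k < n → ω ∈ R k → ω ∉ D k n}) (n : ℕ) :
    MeasurableSet[Fil hD n] (R n) := by
  induction n using Nat.strong_induction_on with
  | _ n ih =>
    rw [hR n]
    by_cases h : 2 ≤ n ∧ n ∈ T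
    · have : {ω | 2 ≤ n ∧ n ∈ T ∧ ∀ k, k < n → ω ∈ R k → ω ∉ D k n} =
          ⋂ k ∈ Finset.range n, ((R k)ᶜ ∪ (D k n)ᶜ) := by
        ext ω
        simp only [Set.mem_ofPred_eq, Set.mem_iInter, Finset.mem_range, Set.mem_union,
          Set.mem_compl_iff, h.1, h.2, true_and]
        refine forall₂_congr fun k _ => ?_
        tauto
      rw [this]
      refine Finset.measurableSet_biInter _ fun k hk => ?_
      rw [Finset.mem_range] at hk
      have h1 : MeasurableSet[Fil hD n] (R k) := (Fil hD).mono hk.le _ (ih k hk)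
      have h2 : MeasurableSet[Fil hD n] (D k n) := meas_D D {p : ℕ × ℕ | p.2 ≤ n} (by simp)
      exact h1.compl.union h2.compl
    · have : {ω | 2 ≤ n ∧ n ∈ T ∧ ∀ k, k < n → ω ∈ R k → ω ∉ D k n} = ∅ := by
        rw [Set.eq_empty_iff_forall_notMem]
        rintro ω ⟨h1, h2, _⟩
        exact h ⟨h1, h2⟩
      rw [this]
      exact @MeasurableSet.empty _ (Fil hD n)

/-- `n + 1` survives the deletions by the chosen integers below `j` -/
def PP (D : ℕ → ℕ → Set Ω) (R : ℕ → Set Ω) (n j : ℕ) : Set Ω :=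
  {ω | ∀ k, k < j → ω ∈ R k → ω ∉ D k (n + 1)}

lemma PP_meas_of (m : MeasurableSpace Ω) (n j : ℕ) (hRm : ∀ k, k < j → MeasurableSet[m] (R k))
    (hDm : ∀ k, k < j → MeasurableSet[m] (D k (n + 1))) : MeasurableSet[m] (PP D R n j) := by
  have : PP D R n j = ⋂ k ∈ Finset.range j, ((R k)ᶜ ∪ (D k (n + 1))ᶜ) := by
    ext ω
    simp only [PP, Set.mem_ofPred_eq, Set.mem_iInter, Finset.mem_range, Set.mem_union,
      Set.mem_compl_iff]
    refine forall₂_congr fun k _ => ?_
    tauto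
  rw [this]
  refine Finset.measurableSet_biInter _ fun k hk => ?_
  rw [Finset.mem_range] at hk
  exact (hRm k hk).compl.union (hDm k hk).compl

open Classical in
/-- the conditional survival probability -/
noncomputable def yv (R : ℕ → Set Ω) (j : ℕ) (ω : Ω) : ℝ :=
  ∏ k ∈ Finset.range j, if ω ∈ R k then (1 - 1 / (k : ℝ)) else 1

lemma R_ge_two (hR : ∀ n, R n = {ω | 2 ≤ n ∧ n ∈ T ∧ ∀ k, k < n → ω ∈ R k → ω ∉ D k n})
    {n : ℕ} {ω : Ω} (h : ω ∈ R n) : 2 ≤ n := by
  rw [hR n] at h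
  exact h.1

lemma R_mem_T (hR : ∀ n, R n = {ω | 2 ≤ n ∧ n ∈ T ∧ ∀ k, k < n → ω ∈ R k → ω ∉ D k n})
    {n : ℕ} {ω : Ω} (h : ω ∈ R n) : n ∈ T := by
  rw [hR n] at h
  exact h.2.1

lemma yv_pos (hR : ∀ n, R n = {ω | 2 ≤ n ∧ n ∈ T ∧ ∀ k, k < n → ω ∈ R k → ω ∉ D k n})
    (j : ℕ) (ω : Ω) : 0 < yv R j ω := by
  apply Finset.prod_pos
  intro k _
  split_ifs with h
  · have h2 : (2 : ℝ) ≤ k := by exact_mod_cast R_ge_two hR h
    rw [sub_pos, div_lt_one (by linarith)]
    linarith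
  · norm_num

lemma yv_le_one (hR : ∀ n, R n = {ω | 2 ≤ n ∧ n ∈ T ∧ ∀ k, k < n → ω ∈ R k → ω ∉ D k n})
    (j : ℕ) (ω : Ω) : yv R j ω ≤ 1 := by
  apply Finset.prod_le_one
  · intro k _
    split_ifs with h
    · have h2 : (2 : ℝ) ≤ k := by exact_mod_cast R_ge_two hR h
      rw [sub_nonneg, div_le_one (by linarith)]
      linarith
    · norm_num
  · intro k _
    split_ifs with h
    · have : (0 : ℝ) ≤ 1 / k := by positivity
      linarith
    · exact le_rfl

lemma yv_meas (m : MeasurableSpace Ω) (j : ℕ) (hRm : ∀ k, k < j → MeasurableSet[m] (R k)) :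
    Measurable[m] (yv R j) := by
  unfold yv
  refine Finset.measurable_prod _ fun k hk => ?_
  rw [Finset.mem_range] at hk
  exact Measurable.ite (hRm k hk) measurable_const measurable_const

lemma yv_int [IsProbabilityMeasure μ] (hD : ∀ k n, MeasurableSet (D k n))
    (hR : ∀ n, R n = {ω | 2 ≤ n ∧ n ∈ T ∧ ∀ k, k < n → ω ∈ R k → ω ∉ D k n}) (j : ℕ) :
    Integrable (yv R j) μ := by
  refine Integrable.of_bound (C := 1)
    (yv_meas mΩ j (fun k _ => (Fil hD).le k _ (R_meas hD hR k))).aestronglyMeasurable ?_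
  refine ae_of_all _ fun ω => ?_
  rw [Real.norm_of_nonneg (yv_pos hR j ω).le]
  exact yv_le_one hR j ω

lemma indepD [IsProbabilityMeasure μ] (hD : ∀ k n, MeasurableSet (D k n))
    (hind : iIndepSet (fun p : ℕ × ℕ => D p.1 p.2) μ) (p : ℕ × ℕ) {B : Set Ω}
    (hB : MeasurableSet[⨆ r ∈ {r : ℕ × ℕ | r ≠ p}, gen D r] B) :
    μ.real (B ∩ (D p.1 p.2)ᶜ) = μ.real B * (1 - μ.real (D p.1 p.2)) := by
  have h1 : iIndep (gen D) μ := (iIndepSet_iff_iIndep _ _).mp hind
  have h2 := indep_iSup_of_disjoint (gen_le hD) h1 (S := {r : ℕ × ℕ | r ≠ p}) (T := {p})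
    (by
      rw [Set.disjoint_left]
      intro r hr hr2
      exact hr hr2)
  rw [Indep_iff] at h2
  have h3 := h2 B ((D p.1 p.2)ᶜ) hB (meas_D D {p} (by simp)).compl
  rw [measureReal_def, h3, ENNReal.toReal_mul, ← measureReal_def, ← measureReal_def,
    probReal_compl_eq_one_sub (hD _ _)]

/-- The key computation: conditional survival probability. -/
lemma key [IsProbabilityMeasure μ] (hD : ∀ k n, MeasurableSet (D k n))
    (hind : iIndepSet (fun p : ℕ × ℕ => D p.1 p.2) μ)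
    (hprob : ∀ k n, 2 ≤ k → k < n → μ.real (D k n) = 1 / k)
    (hR : ∀ n, R n = {ω | 2 ≤ n ∧ n ∈ T ∧ ∀ k, k < n → ω ∈ R k → ω ∉ D k n})
    (n j : ℕ) (hj : j ≤ n + 1) :
    ∀ A : Set Ω, MeasurableSet[Fil hD n] A → μ.real (A ∩ PP D R n j) = ∫ ω in A, yv R j ω ∂μ := by
  induction j with
  | zero =>
    intro A hA
    simp [PP, yv]
  | succ j ih =>
    intro A hA
    have ih' := ih (by omega)
    have hRj : MeasurableSet[Fil hD n] (R j) := (Fil hD).mono (by omega) _ (R_meas hD hR j)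
    have hRjm : MeasurableSet (R j) := (Fil hD).le _ _ hRj
    have hAm : MeasurableSet A := (Fil hD).le _ _ hA
    have hRm : ∀ k, MeasurableSet (R k) := fun k => (Fil hD).le _ _ (R_meas hD hR k)
    have hPm : ∀ i, MeasurableSet (PP D R n i) := fun i =>
      PP_meas_of mΩ n i (fun k _ => hRm k) (fun k _ => hD k _)
    -- splitting
    have hsplit1 := measureReal_inter_add_sdiff (μ := μ) (s := A ∩ PP D R n (j + 1)) (t := R j) hRjm
    have hsplit2 : ∫ ω in A, yv R (j + 1) ω ∂μ =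
        ∫ ω in A ∩ R j, yv R (j + 1) ω ∂μ + ∫ ω in A \ R j, yv R (j + 1) ω ∂μ :=
      (integral_inter_add_sdiff hRjm (yv_int hD hR (j + 1)).integrableOn).symm
    rw [← hsplit1, hsplit2]
    congr 1
    · by_cases hj2 : 2 ≤ j
      · have h1 : A ∩ PP D R n (j + 1) ∩ R j = (A ∩ R j ∩ PP D R n j) ∩ (D j (n + 1))ᶜ := by
          ext ω
          simp only [PP, Set.mem_inter_iff, Set.mem_ofPred_eq, Set.mem_compl_iff]
          constructor
          · rintro ⟨⟨h1, h2⟩, h3⟩
            exact ⟨⟨⟨h1, h3⟩, fun k hk => h2 k (by omega)⟩, h2 j (by omega) h3⟩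
          · rintro ⟨⟨⟨h1, h2⟩, h3⟩, h4⟩
            refine ⟨⟨h1, fun k hk hkR => ?_⟩, h2⟩
            rcases Nat.lt_succ_iff_lt_or_eq.mp hk with h | h
            · exact h3 k h hkR
            · subst h; exact h4
        have hFil : (Fil hD n : MeasurableSpace Ω) ≤
            ⨆ r ∈ {r : ℕ × ℕ | r ≠ (j, n + 1)}, gen D r := by
          apply iSup₂_le
          intro p hp
          refine le_iSup₂_of_le p ?_ le_rfl
          simp only [Set.mem_ofPred_eq] at hp ⊢
          rintro rfl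
          simp at hp
        have hB : MeasurableSet[⨆ r ∈ {r : ℕ × ℕ | r ≠ (j, n + 1)}, gen D r]
            (A ∩ R j ∩ PP D R n j) := by
          refine MeasurableSet.inter (MeasurableSet.inter (hFil _ hA) (hFil _ hRj)) ?_
          refine PP_meas_of _ n j (fun k hk => hFil _ ?_) (fun k hk => ?_)
          · exact (Fil hD).mono (by omega) _ (R_meas hD hR k)
          · refine meas_D D _ ?_
            simp only [Set.mem_ofPred_eq, ne_eq, Prod.mk.injEq, and_true]
            omega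
        have h2 := indepD hD hind (j, n + 1) hB
        simp only at h2
        rw [h1, h2, hprob j (n + 1) hj2 (by omega), ih' (A ∩ R j) (hA.inter hRj)]
        rw [← integral_mul_const]
        refine setIntegral_congr_fun (hAm.inter hRjm) fun ω hω => ?_
        simp only [yv]
        rw [Finset.prod_range_succ, if_pos hω.2]
      · have hempty : R j = ∅ := by
          rw [Set.eq_empty_iff_forall_notMem]
          intro ω hω
          exact hj2 (R_ge_two hR hω)
        simp [hempty]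
    · have h1 : (A ∩ PP D R n (j + 1)) \ R j = (A \ R j) ∩ PP D R n j := by
        ext ω
        simp only [PP, Set.mem_inter_iff, Set.mem_ofPred_eq, Set.mem_sdiff]
        constructor
        · rintro ⟨⟨h1, h2⟩, h3⟩
          exact ⟨⟨h1, h3⟩, fun k hk => h2 k (by omega)⟩
        · rintro ⟨⟨h1, h2⟩, h3⟩
          refine ⟨⟨h1, fun k hk hkR => ?_⟩, h2⟩
          rcases Nat.lt_succ_iff_lt_or_eq.mp hk with h | h
          · exact h3 k h hkR
          · subst h; exact absurd hkR h2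
      rw [h1, ih' (A \ R j) (hA.diff hRj)]
      refine setIntegral_congr_fun (hAm.diff hRjm) fun ω hω => ?_
      simp only [yv]
      rw [Finset.prod_range_succ, if_neg hω.2, mul_one]

/-- `1` if `n + 1` is a candidate -/
noncomputable def ee (T : Set ℕ) (n : ℕ) : ℝ := by
  classical exact if 2 ≤ n + 1 ∧ n + 1 ∈ T then 1 else 0

lemma ee_eq (T : Set ℕ) (n : ℕ) : ee T n = 0 ∨ ee T n = 1 := by
  unfold ee
  split_ifs
  · right; rfl
  · left; rfl

lemma key2 [IsProbabilityMeasure μ] (hD : ∀ k n, MeasurableSet (D k n))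
    (hind : iIndepSet (fun p : ℕ × ℕ => D p.1 p.2) μ)
    (hprob : ∀ k n, 2 ≤ k → k < n → μ.real (D k n) = 1 / k)
    (hR : ∀ n, R n = {ω | 2 ≤ n ∧ n ∈ T ∧ ∀ k, k < n → ω ∈ R k → ω ∉ D k n}) (n : ℕ)
    {A : Set Ω} (hA : MeasurableSet[Fil hD n] A) :
    μ.real (A ∩ R (n + 1)) = ∫ ω in A, ee T n * yv R (n + 1) ω ∂μ := by
  by_cases h : 2 ≤ n + 1 ∧ n + 1 ∈ T
  · have h1 : R (n + 1) = PP D R n (n + 1) := by
      rw [hR (n + 1)]
      ext ω
      simp only [PP, Set.mem_ofPred_eq, h.1, h.2, true_and]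
    rw [h1, key hD hind hprob hR n (n + 1) le_rfl A hA]
    simp only [ee, if_pos h, one_mul]
  · have h1 : R (n + 1) = ∅ := by
      rw [hR (n + 1), Set.eq_empty_iff_forall_notMem]
      rintro ω ⟨h1, h2, _⟩
      exact h ⟨h1, h2⟩
    rw [h1]
    simp [ee, if_neg h]

lemma condExp_R [IsProbabilityMeasure μ] (hD : ∀ k n, MeasurableSet (D k n))
    (hind : iIndepSet (fun p : ℕ × ℕ => D p.1 p.2) μ)
    (hprob : ∀ k n, 2 ≤ k → k < n → μ.real (D k n) = 1 / k)
    (hR : ∀ n, R n = {ω | 2 ≤ n ∧ n ∈ T ∧ ∀ k, k < n → ω ∈ R k → ω ∉ D k n}) (n : ℕ) :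
    (fun ω => ee T n * yv R (n + 1) ω) =ᵐ[μ]
      μ[(R (n + 1)).indicator (fun _ => (1 : ℝ)) | Fil hD n] := by
  have hRm : MeasurableSet (R (n + 1)) := (Fil hD).le _ _ (R_meas hD hR (n + 1))
  have hint : Integrable (fun ω => ee T n * yv R (n + 1) ω) μ := (yv_int hD hR (n + 1)).const_mul _
  refine ae_eq_condExp_of_forall_setIntegral_eq ((Fil hD).le n)
    ((integrable_const (1 : ℝ)).indicator hRm) (fun s _ _ => hint.integrableOn) ?_ ?_
  · intro A hA _
    rw [setIntegral_indicator hRm, setIntegral_const, smul_eq_mul, mul_one]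
    exact (key2 hD hind hprob hR n hA).symm
  · have hm : Measurable[Fil hD n] (yv R (n + 1)) :=
      yv_meas (Fil hD n) (n + 1) fun k hk => (Fil hD).mono (by omega) _ (R_meas hD hR k)
    exact (hm.const_mul _).aestronglyMeasurable

end Pool.Agent.Helper88.Hawkins
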