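import Mathlib
import Pool.Agent.Helper88.Hawkins

open MeasureTheory ProbabilityTheory Filter
open scoped Topology

set_option linter.unusedSectionVars false

namespace Pool.Agent.Helper88.Hawkins

variable {Ω : Type*} [mΩ : MeasurableSpace Ω] {μ : Measure Ω}
variable {D : ℕ → ℕ → Set Ω} {R : ℕ → Set Ω} {T : Set ℕ}

open Classical in
/-- indicator of `R` as a real number -/
noncomputable def rr (R : ℕ → Set Ω) (n : ℕ) (ω : Ω) : ℝ := if ω ∈ R n then 1 else 0

/-- the inverse of the conditional survival probability -/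
noncomputable def Y (R : ℕ → Set Ω) (n : ℕ) (ω : Ω) : ℝ := (yv R (n + 1) ω)⁻¹

lemma Y_mul_yv (hR : ∀ n, R n = {ω | 2 ≤ n ∧ n ∈ T ∧ ∀ k, k < n → ω ∈ R k → ω ∉ D k n})
    (n : ℕ) (ω : Ω) : Y R n ω * yv R (n + 1) ω = 1 :=
  inv_mul_cancel₀ (yv_pos hR _ _).ne'

lemma Y_ge_one (hR : ∀ n, R n = {ω | 2 ≤ n ∧ n ∈ T ∧ ∀ k, k < n → ω ∈ R k → ω ∉ D k n})
    (n : ℕ) (ω : Ω) : 1 ≤ Y R n ω :=
  (one_le_inv₀ (yv_pos hR _ _)).mpr (yv_le_one hR _ _)

open Classical in
lemma Y_succ (hR : ∀ n, R n = {ω | 2 ≤ n ∧ n ∈ T ∧ ∀ k, k < n → ω ∈ R k → ω ∉ D k n})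
    (n : ℕ) (ω : Ω) : Y R (n + 1) ω = Y R n ω + Y R n ω / n * rr R (n + 1) ω := by
  unfold Y rr
  rw [show yv R (n + 1 + 1) ω = yv R (n + 1) ω *
    (if ω ∈ R (n + 1) then (1 - 1 / ((n + 1 : ℕ) : ℝ)) else 1) from by
      unfold yv; rw [Finset.prod_range_succ]]
  have hpos := yv_pos hR (n + 1) ω
  by_cases h : ω ∈ R (n + 1)
  · rw [if_pos h, if_pos h]
    have h2 := R_ge_two hR h
    have hn : (0 : ℝ) < n := by
      have : 0 < n := by omega
      exact_mod_cast this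
    have h3 : (1 - 1 / ((n + 1 : ℕ) : ℝ)) = n / (n + 1) := by
      push_cast
      field_simp
      ring
    rw [h3, mul_inv, inv_div]
    field_simp
  · rw [if_neg h, if_neg h]
    simp

lemma Y_le (hR : ∀ n, R n = {ω | 2 ≤ n ∧ n ∈ T ∧ ∀ k, k < n → ω ∈ R k → ω ∉ D k n})
    (n : ℕ) (ω : Ω) : Y R n ω ≤ n + 1 := by
  have h1 : ∀ m, Y R (m + 1) ω ≤ m + 1 := by
    intro m
    induction m with
    | zero =>
      rw [Y_succ hR]
      have : yv R 1 ω = 1 := by
        unfold yv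
        rw [Finset.prod_range_one]
        rw [if_neg]
        intro h
        have := R_ge_two hR h
        omega
      simp [Y, this]
    | succ m ih =>
      rw [Y_succ hR]
      have hr : rr R (m + 1 + 1) ω ≤ 1 := by unfold rr; split_ifs <;> norm_num
      have hr0 : 0 ≤ rr R (m + 1 + 1) ω := by unfold rr; split_ifs <;> norm_num
      have hy := Y_ge_one hR (m + 1) ω
      have hm : (0 : ℝ) < ((m + 1 : ℕ) : ℝ) := by positivity
      calc Y R (m + 1) ω + Y R (m + 1) ω / ((m + 1 : ℕ) : ℝ) * rr R (m + 1 + 1) ω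
          ≤ (m + 1) + (m + 1) / ((m + 1 : ℕ) : ℝ) * 1 := by gcongr
        _ = ((m + 1 : ℕ) : ℝ) + 1 := by
          push_cast
          field_simp
  rcases n with _ | n
  · have : yv R 1 ω = 1 := by
      unfold yv
      rw [Finset.prod_range_one]
      rw [if_neg]
      intro h
      have := R_ge_two hR h
      omega
    simp [Y, this]
  · have := h1 n
    push_cast
    linarith

/-- compensator increments -/
noncomputable def cc (T : Set ℕ) (n : ℕ) : ℝ := ee T n / n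

/-- the compensator -/
noncomputable def HH (T : Set ℕ) (n : ℕ) : ℝ := ∑ i ∈ Finset.range n, cc T i

/-- the martingale -/
noncomputable def MM (T : Set ℕ) (R : ℕ → Set Ω) (n : ℕ) (ω : Ω) : ℝ := Y R n ω - HH T n

lemma ee_nonneg (T : Set ℕ) (n : ℕ) : 0 ≤ ee T n := by
  rcases ee_eq T n with h | h <;> rw [h]; norm_num

lemma ee_le_one (T : Set ℕ) (n : ℕ) : ee T n ≤ 1 := by
  rcases ee_eq T n with h | h <;> rw [h]; norm_num

lemma ee_sq (T : Set ℕ) (n : ℕ) : ee T n * ee T n = ee T n := by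
  rcases ee_eq T n with h | h <;> rw [h] <;> norm_num

lemma cc_nonneg (T : Set ℕ) (n : ℕ) : 0 ≤ cc T n := by
  have := ee_nonneg T n
  unfold cc; positivity

lemma cc_le (T : Set ℕ) (n : ℕ) : cc T n ≤ 1 / n := by
  have := ee_le_one T n
  unfold cc; gcongr

lemma HH_nonneg (T : Set ℕ) (n : ℕ) : 0 ≤ HH T n :=
  Finset.sum_nonneg fun i _ => cc_nonneg T i

lemma Y_meas (m : MeasurableSpace Ω) (n : ℕ) (hRm : ∀ k, k < n + 1 → MeasurableSet[m] (R k)) :
    Measurable[m] (Y R n) := (yv_meas m (n + 1) hRm).inv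

lemma rr_meas (m : MeasurableSpace Ω) (n : ℕ) (hRm : MeasurableSet[m] (R n)) :
    Measurable[m] (rr R n) := Measurable.ite hRm measurable_const measurable_const

lemma bdd_int [IsProbabilityMeasure μ] {f : Ω → ℝ} (hf : Measurable f) {C : ℝ}
    (hC : ∀ ω, |f ω| ≤ C) : Integrable f μ :=
  Integrable.of_bound hf.aestronglyMeasurable C (ae_of_all _ hC)

/-- The identity `E[φ 1_{R(n+1)}] = E[φ e_n / Y_n]`. -/
lemma keyK [IsProbabilityMeasure μ] (hD : ∀ k n, MeasurableSet (D k n))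
    (hind : iIndepSet (fun p : ℕ × ℕ => D p.1 p.2) μ)
    (hprob : ∀ k n, 2 ≤ k → k < n → μ.real (D k n) = 1 / k)
    (hR : ∀ n, R n = {ω | 2 ≤ n ∧ n ∈ T ∧ ∀ k, k < n → ω ∈ R k → ω ∉ D k n}) (n : ℕ)
    {φ : Ω → ℝ} (hφ : Measurable[Fil hD n] φ) {C : ℝ} (hC : ∀ ω, |φ ω| ≤ C) :
    ∫ ω, φ ω * rr R (n + 1) ω ∂μ = ∫ ω, φ ω * (ee T n * yv R (n + 1) ω) ∂μ := by
  have hRm : MeasurableSet (R (n + 1)) := (Fil hD).le _ _ (R_meas hD hR (n + 1))
  have hint : Integrable ((R (n + 1)).indicator (fun _ => (1 : ℝ))) μ :=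
    (integrable_const (1 : ℝ)).indicator hRm
  have h1 : (fun ω => φ ω * rr R (n + 1) ω) = φ * (R (n + 1)).indicator (fun _ => (1 : ℝ)) := by
    ext ω
    simp only [Pi.mul_apply, rr, Set.indicator]
  have h2 : μ[φ * (R (n + 1)).indicator (fun _ => (1 : ℝ)) | Fil hD n] =ᵐ[μ]
      φ * μ[(R (n + 1)).indicator (fun _ => (1 : ℝ)) | Fil hD n] :=
    condExp_stronglyMeasurable_mul_of_bound ((Fil hD).le n) hφ.stronglyMeasurable hint C
      (ae_of_all _ hC)
  have h3 := condExp_R hD hind hprob hR n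
  rw [h1, ← integral_condExp ((Fil hD).le n)]
  refine integral_congr_ae ?_
  filter_upwards [h2, h3] with ω h4 h5
  rw [h4, Pi.mul_apply, ← h5]

lemma Y_filmeas (hD : ∀ k n, MeasurableSet (D k n))
    (hR : ∀ n, R n = {ω | 2 ≤ n ∧ n ∈ T ∧ ∀ k, k < n → ω ∈ R k → ω ∉ D k n}) (n : ℕ) :
    Measurable[Fil hD n] (Y R n) :=
  Y_meas (Fil hD n) n fun k hk => (Fil hD).mono (by omega) _ (R_meas hD hR k)

lemma MM_filmeas (hD : ∀ k n, MeasurableSet (D k n))
    (hR : ∀ n, R n = {ω | 2 ≤ n ∧ n ∈ T ∧ ∀ k, k < n → ω ∈ R k → ω ∉ D k n}) (n : ℕ) :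
    Measurable[Fil hD n] (MM T R n) :=
  (Y_filmeas hD hR n).sub_const _

lemma MM_bound (hR : ∀ n, R n = {ω | 2 ≤ n ∧ n ∈ T ∧ ∀ k, k < n → ω ∈ R k → ω ∉ D k n})
    (n : ℕ) (ω : Ω) : |MM T R n ω| ≤ n + 1 + HH T n := by
  unfold MM
  have h1 := Y_ge_one hR n ω
  have h2 := Y_le hR n ω
  have h3 := HH_nonneg T n
  rw [abs_le]
  constructor <;> linarith

lemma MM_succ (hR : ∀ n, R n = {ω | 2 ≤ n ∧ n ∈ T ∧ ∀ k, k < n → ω ∈ R k → ω ∉ D k n})
    (n : ℕ) (ω : Ω) :
    MM T R (n + 1) ω = MM T R n ω + (Y R n ω / n * rr R (n + 1) ω - cc T n) := by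
  unfold MM HH
  rw [Y_succ hR, Finset.sum_range_succ]
  ring

lemma MM_martingale [IsProbabilityMeasure μ] (hD : ∀ k n, MeasurableSet (D k n))
    (hind : iIndepSet (fun p : ℕ × ℕ => D p.1 p.2) μ)
    (hprob : ∀ k n, 2 ≤ k → k < n → μ.real (D k n) = 1 / k)
    (hR : ∀ n, R n = {ω | 2 ≤ n ∧ n ∈ T ∧ ∀ k, k < n → ω ∈ R k → ω ∉ D k n}) :
    Martingale (MM T R) (Fil hD) μ := by
  have hMint : ∀ n, Integrable (MM T R n) μ := fun n =>
    bdd_int ((MM_filmeas hD hR n).mono ((Fil hD).le n) le_rfl) (MM_bound hR n)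
  refine martingale_of_setIntegral_eq_succ (fun n => (MM_filmeas hD hR n).stronglyMeasurable)
    hMint ?_
  intro n s hs
  have hsm : MeasurableSet s := (Fil hD).le _ _ hs
  have hRm : MeasurableSet (R (n + 1)) := (Fil hD).le _ _ (R_meas hD hR (n + 1))
  have h1 : ∫ ω in s, MM T R (n + 1) ω ∂μ =
      ∫ ω in s, MM T R n ω ∂μ + ∫ ω in s, (Y R n ω / n * rr R (n + 1) ω - cc T n) ∂μ := by
    rw [← integral_add (hMint n).integrableOn]
    · exact setIntegral_congr_fun hsm fun ω _ => MM_succ hR n ω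
    · have : (fun ω => Y R n ω / n * rr R (n + 1) ω - cc T n) =
          fun ω => MM T R (n + 1) ω - MM T R n ω := by
        ext ω; rw [MM_succ hR]; ring
      rw [this]
      exact ((hMint (n + 1)).sub (hMint n)).integrableOn
  have hφm : Measurable[Fil hD n] (s.indicator fun ω => Y R n ω / n) :=
    ((Y_filmeas hD hR n).div_const _).indicator hs
  have hφC : ∀ ω, |s.indicator (fun ω => Y R n ω / n) ω| ≤ (n + 1) / n := by
    intro ω
    by_cases h : ω ∈ s
    · rw [Set.indicator_of_mem h, abs_of_nonneg]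
      · have := Y_le hR n ω
        gcongr
      · have := Y_ge_one hR n ω
        positivity
    · rw [Set.indicator_of_notMem h, abs_zero]; positivity
  have h2 := keyK hD hind hprob hR n hφm hφC
  have h3 : ∫ ω in s, Y R n ω / n * rr R (n + 1) ω ∂μ = ∫ _ in s, cc T n ∂μ := by
    rw [← integral_indicator hsm, ← integral_indicator hsm]
    have h4 : (s.indicator fun ω => Y R n ω / n * rr R (n + 1) ω) =
        fun ω => s.indicator (fun ω => Y R n ω / n) ω * rr R (n + 1) ω := by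
      ext ω
      by_cases h : ω ∈ s <;> simp [Set.indicator, h]
    rw [h4, h2]
    refine integral_congr_ae (ae_of_all _ fun ω => ?_)
    by_cases h : ω ∈ s
    · simp only [Set.indicator, h, if_true]
      have := Y_mul_yv hR n ω
      unfold cc
      calc Y R n ω / n * (ee T n * yv R (n + 1) ω) =
          (Y R n ω * yv R (n + 1) ω) * (ee T n / n) := by ring
        _ = _ := by rw [this, one_mul]
    · simp [Set.indicator, h]
  rw [h1]
  have h5 : ∫ ω in s, (Y R n ω / n * rr R (n + 1) ω - cc T n) ∂μ = 0 := by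
    rw [integral_sub, h3, sub_self]
    · refine Integrable.integrableOn ?_
      refine bdd_int (C := (n + 1) / n * 1) (((Y_filmeas hD hR n).mono ((Fil hD).le n) le_rfl).div_const _ |>.mul
        (rr_meas mΩ (n + 1) hRm)) fun ω => ?_
      rw [abs_mul]
      have h6 := Y_ge_one hR n ω
      have h7 := Y_le hR n ω
      have h8 : |Y R n ω / n| ≤ (n + 1) / n := by
        rw [abs_of_nonneg (by positivity)]; gcongr
      have h9 : |rr R (n + 1) ω| ≤ 1 := by unfold rr; split_ifs <;> simp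
      exact mul_le_mul h8 h9 (abs_nonneg _) (by positivity)
    · exact (integrable_const _)
  rw [h5, add_zero]

lemma integral_Y_succ [IsProbabilityMeasure μ] (hD : ∀ k n, MeasurableSet (D k n))
    (hind : iIndepSet (fun p : ℕ × ℕ => D p.1 p.2) μ)
    (hprob : ∀ k n, 2 ≤ k → k < n → μ.real (D k n) = 1 / k)
    (hR : ∀ n, R n = {ω | 2 ≤ n ∧ n ∈ T ∧ ∀ k, k < n → ω ∈ R k → ω ∉ D k n}) (n : ℕ) :
    ∫ ω, Y R (n + 1) ω ∂μ = ∫ ω, Y R n ω ∂μ + cc T n := by
  have hYm : ∀ n, Measurable (Y R n) := fun n => (Y_filmeas hD hR n).mono ((Fil hD).le n) le_rfl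
  have hYi : ∀ n, Integrable (Y R n) μ := fun n => bdd_int (C := n + 1) (hYm n) fun ω => by
    rw [abs_of_nonneg (by have := Y_ge_one hR n ω; linarith)]
    exact Y_le hR n ω
  have hRm : MeasurableSet (R (n + 1)) := (Fil hD).le _ _ (R_meas hD hR (n + 1))
  have h1 : ∀ ω, Y R (n + 1) ω = Y R n ω + Y R n ω / n * rr R (n + 1) ω := Y_succ hR n
  have hint2 : Integrable (fun ω => Y R n ω / n * rr R (n + 1) ω) μ := by
    have : (fun ω => Y R n ω / n * rr R (n + 1) ω) = fun ω => Y R (n + 1) ω - Y R n ω := by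
      ext ω; rw [h1]; ring
    rw [this]
    exact (hYi _).sub (hYi _)
  simp_rw [h1]
  rw [integral_add (hYi n) hint2]
  congr 1
  rw [keyK hD hind hprob hR n ((Y_filmeas hD hR n).div_const _) (C := (n + 1) / n)]
  · have h2 : ∀ ω, Y R n ω / n * (ee T n * yv R (n + 1) ω) = cc T n := by
      intro ω
      have := Y_mul_yv hR n ω
      unfold cc
      calc Y R n ω / n * (ee T n * yv R (n + 1) ω) =
          (Y R n ω * yv R (n + 1) ω) * (ee T n / n) := by ring
        _ = _ := by rw [this, one_mul]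
    simp_rw [h2]
    simp
  · intro ω
    have h6 := Y_ge_one hR n ω
    have h7 := Y_le hR n ω
    rw [abs_of_nonneg (by positivity)]; gcongr

lemma integral_MM_sq_succ [IsProbabilityMeasure μ] (hD : ∀ k n, MeasurableSet (D k n))
    (hind : iIndepSet (fun p : ℕ × ℕ => D p.1 p.2) μ)
    (hprob : ∀ k n, 2 ≤ k → k < n → μ.real (D k n) = 1 / k)
    (hR : ∀ n, R n = {ω | 2 ≤ n ∧ n ∈ T ∧ ∀ k, k < n → ω ∈ R k → ω ∉ D k n}) (n : ℕ) :
    ∫ ω, MM T R (n + 1) ω ^ 2 ∂μ ≤ ∫ ω, MM T R n ω ^ 2 ∂μ + (∫ ω, Y R n ω ∂μ) / n ^ 2 := by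
  have hYm : ∀ n, Measurable (Y R n) := fun n => (Y_filmeas hD hR n).mono ((Fil hD).le n) le_rfl
  have hMm : ∀ n, Measurable (MM T R n) := fun n =>
    (MM_filmeas hD hR n).mono ((Fil hD).le n) le_rfl
  have hYi : ∀ n, Integrable (Y R n) μ := fun n => bdd_int (C := n + 1) (hYm n) fun ω => by
    rw [abs_of_nonneg (by have := Y_ge_one hR n ω; linarith)]
    exact Y_le hR n ω
  have hMi : ∀ n, Integrable (MM T R n) μ := fun n => bdd_int (hMm n) (MM_bound hR n)
  have hRm : MeasurableSet (R (n + 1)) := (Fil hD).le _ _ (R_meas hD hR (n + 1))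
  have hrm := rr_meas mΩ (n + 1) hRm
  -- expand the square; `r * r = r`
  have hr2 : ∀ ω, rr R (n + 1) ω * rr R (n + 1) ω = rr R (n + 1) ω := by
    intro ω; unfold rr; split_ifs <;> norm_num
  set ψ : Ω → ℝ := fun ω => 2 * MM T R n ω * (Y R n ω / n) + (Y R n ω / n) ^ 2 -
    2 * cc T n * (Y R n ω / n) with hψ
  have hexp : ∀ ω, MM T R (n + 1) ω ^ 2 =
      (MM T R n ω ^ 2 - 2 * cc T n * MM T R n ω + cc T n ^ 2) + ψ ω * rr R (n + 1) ω := by
    intro ω
    rw [MM_succ hR]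
    simp only [hψ]
    have := hr2 ω
    linear_combination ((Y R n ω / n) ^ 2) * this
  have hψm : Measurable[Fil hD n] ψ := by
    have h1 := MM_filmeas (T := T) hD hR n
    have h2 := (Y_filmeas hD hR n).div_const (n : ℝ)
    exact (((h1.const_mul 2).mul h2).add (h2.pow_const 2)).sub (h2.const_mul _)
  have hYn : ∀ ω, |Y R n ω / n| ≤ (n + 1) / n := by
    intro ω
    have h6 := Y_ge_one hR n ω
    have h7 := Y_le hR n ω
    rw [abs_of_nonneg (by positivity)]; gcongr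
  have hψC : ∀ ω, |ψ ω| ≤ 2 * (n + 1 + HH T n) * ((n + 1) / n) + ((n + 1) / n) ^ 2 +
      2 * cc T n * ((n + 1) / n) := by
    intro ω
    have h1 := MM_bound (T := T) hR n ω
    have h2 := hYn ω
    have h3 := cc_nonneg T n
    have hH := HH_nonneg T n
    calc |ψ ω| ≤ |2 * MM T R n ω * (Y R n ω / n) + (Y R n ω / n) ^ 2| +
          |2 * cc T n * (Y R n ω / n)| := abs_sub _ _
      _ ≤ |2 * MM T R n ω * (Y R n ω / n)| + |(Y R n ω / n) ^ 2| +
          |2 * cc T n * (Y R n ω / n)| := by gcongr; exact abs_add_le _ _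
      _ = 2 * |MM T R n ω| * |Y R n ω / n| + |Y R n ω / n| ^ 2 +
          2 * cc T n * |Y R n ω / n| := by
          rw [abs_mul, abs_mul, abs_pow, abs_mul, abs_mul, abs_of_nonneg h3]
          norm_num
      _ ≤ _ := by gcongr
  have hK := keyK hD hind hprob hR n hψm hψC
  have hψi : Integrable (fun ω => ψ ω * rr R (n + 1) ω) μ := by
    refine bdd_int (C := (2 * (n + 1 + HH T n) * ((n + 1) / n) + ((n + 1) / n) ^ 2 +
      2 * cc T n * ((n + 1) / n)) * 1) ((hψm.mono ((Fil hD).le n) le_rfl).mul hrm) fun ω => ?_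
    rw [abs_mul]
    have h9 : |rr R (n + 1) ω| ≤ 1 := by unfold rr; split_ifs <;> simp
    exact mul_le_mul (hψC ω) h9 (abs_nonneg _) ((abs_nonneg _).trans (hψC ω))
  have hM2i : Integrable (fun ω => MM T R n ω ^ 2) μ :=
    bdd_int (C := (n + 1 + HH T n) ^ 2) ((hMm n).pow_const 2) fun ω => by
      rw [abs_pow]
      have := MM_bound (T := T) hR n ω
      gcongr
  have hA : Integrable (fun ω => MM T R n ω ^ 2 - 2 * cc T n * MM T R n ω + cc T n ^ 2) μ :=
    (hM2i.sub ((hMi n).const_mul _)).add (integrable_const _)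
  simp_rw [hexp]
  rw [integral_add hA hψi, hK]
  -- `ψ * e * y` simplified
  have hψy : ∀ ω, ψ ω * (ee T n * yv R (n + 1) ω) =
      2 * cc T n * MM T R n ω + ee T n / n ^ 2 * Y R n ω - 2 * cc T n ^ 2 := by
    intro ω
    have h1 := Y_mul_yv hR n ω
    have h2 := ee_sq T n
    simp only [hψ]
    unfold cc
    calc (2 * MM T R n ω * (Y R n ω / n) + (Y R n ω / n) ^ 2 -
        2 * (ee T n / n) * (Y R n ω / n)) * (ee T n * yv R (n + 1) ω)
        = (Y R n ω * yv R (n + 1) ω) * (2 * (ee T n / n) * MM T R n ω +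
          ee T n / n ^ 2 * Y R n ω - 2 * (ee T n * ee T n) / n ^ 2) := by ring
      _ = _ := by rw [h1]; ring
  simp_rw [hψy]
  have hB : Integrable (fun ω => 2 * cc T n * MM T R n ω + ee T n / n ^ 2 * Y R n ω) μ :=
    ((hMi n).const_mul _).add ((hYi n).const_mul _)
  have hAint : ∫ ω, (MM T R n ω ^ 2 - 2 * cc T n * MM T R n ω + cc T n ^ 2) ∂μ =
      ∫ ω, MM T R n ω ^ 2 ∂μ - 2 * cc T n * ∫ ω, MM T R n ω ∂μ + cc T n ^ 2 := by
    have h1 : ∫ ω, (MM T R n ω ^ 2 - 2 * cc T n * MM T R n ω + cc T n ^ 2) ∂μ =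
        ∫ ω, (MM T R n ω ^ 2 - 2 * cc T n * MM T R n ω) ∂μ + ∫ _, cc T n ^ 2 ∂μ :=
      integral_add (hM2i.sub ((hMi n).const_mul _)) (integrable_const _)
    have h2 : ∫ ω, (MM T R n ω ^ 2 - 2 * cc T n * MM T R n ω) ∂μ =
        ∫ ω, MM T R n ω ^ 2 ∂μ - ∫ ω, 2 * cc T n * MM T R n ω ∂μ :=
      integral_sub hM2i ((hMi n).const_mul _)
    rw [h1, h2, integral_const_mul]
    simp
  rw [hAint, integral_sub hB (integrable_const _), integral_add ((hMi n).const_mul _)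
    ((hYi n).const_mul _), integral_const_mul, integral_const_mul]
  simp only [integral_const, probReal_univ, smul_eq_mul, one_mul]
  have hYpos : 0 ≤ ∫ ω, Y R n ω ∂μ := integral_nonneg fun ω => by
    have := Y_ge_one hR n ω
    simp only [Pi.zero_apply]
    linarith
  have h5 : ee T n / (n : ℝ) ^ 2 * ∫ ω, Y R n ω ∂μ ≤ (∫ ω, Y R n ω ∂μ) / n ^ 2 := by
    have h6 := ee_le_one T n
    have h7 : ee T n / (n : ℝ) ^ 2 * ∫ ω, Y R n ω ∂μ =
      ee T n * ((∫ ω, Y R n ω ∂μ) / n ^ 2) := by ring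
    rw [h7]
    have : 0 ≤ (∫ ω, Y R n ω ∂μ) / (n : ℝ) ^ 2 := by positivity
    nlinarith
  nlinarith [sq_nonneg (cc T n)]

end Pool.Agent.Helper88.Hawkins
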