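import Mathlib
import Pool.Agent.Helper88.Hawkins
import Pool.Agent.Helper88.Hawkins2
import Pool.Agent.Helper88.GapMain

open MeasureTheory ProbabilityTheory Filter
open scoped Topology NNReal

set_option linter.unusedSectionVars false

namespace Pool.Agent.Helper88.Hawkins

lemma potential {a b : ℕ → ℝ} (hb0 : ∀ n, 0 ≤ b n) (ha : ∀ n, a (n + 1) ≤ a n + b n / n ^ 2)
    (hb : ∀ n, b (n + 1) ≤ b n + 1 / n) (n : ℕ) :
    a (n + 1) + 2 * (b (n + 1) + 2) / ((n : ℝ) + 1) ≤ a 1 + 2 * (b 1 + 2) := by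
  induction n with
  | zero => simp
  | succ n ih =>
    refine le_trans ?_ ih
    have h1 := ha (n + 1)
    have h2 := hb (n + 1)
    have h0 := hb0 (n + 1)
    push_cast at h1 h2 ⊢
    have hn : (0 : ℝ) ≤ n := Nat.cast_nonneg n
    set x : ℝ := (n : ℝ) + 1 with hx
    have hx1 : 1 ≤ x := by linarith
    have h3 : 2 * (b (n + 1 + 1) + 2) / (x + 1) ≤ 2 * (b (n + 1) + 1 / x + 2) / (x + 1) := by
      gcongr
    have h4 : b (n + 1) / x ^ 2 + 2 * (b (n + 1) + 1 / x + 2) / (x + 1) ≤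
        2 * (b (n + 1) + 2) / x := by
      have hx0 : 0 < x := by linarith
      have h5 : b (n + 1) / x ^ 2 ≤ 2 * b (n + 1) / (x * (x + 1)) := by
        rw [div_le_div_iff₀ (by positivity) (by positivity)]
        nlinarith [mul_nonneg h0 (mul_nonneg hx0.le (by linarith : 0 ≤ x - 1))]
      have h6 : 2 * (b (n + 1) + 2) / x =
          2 * (b (n + 1) + 2) / (x + 1) + 2 * (b (n + 1) + 2) / (x * (x + 1)) := by
        field_simp
      have h7 : 2 * (b (n + 1) + 1 / x + 2) / (x + 1) =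
          2 * (b (n + 1) + 2) / (x + 1) + 2 / (x * (x + 1)) := by
        field_simp
        ring
      have h8 : 2 * (b (n + 1) + 2) / (x * (x + 1)) = 2 * b (n + 1) / (x * (x + 1)) +
          2 * (2 / (x * (x + 1))) := by
        field_simp
      have h9 : 0 ≤ 2 / (x * (x + 1)) := by positivity
      rw [h6, h7, h8]
      linarith
    linarith

variable {Ω : Type*} [mΩ : MeasurableSpace Ω] {μ : Measure Ω}
variable {D : ℕ → ℕ → Set Ω} {R : ℕ → Set Ω} {T : Set ℕ}

lemma integral_sq_le [IsProbabilityMeasure μ] (hD : ∀ k n, MeasurableSet (D k n))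
    (hind : iIndepSet (fun p : ℕ × ℕ => D p.1 p.2) μ)
    (hprob : ∀ k n, 2 ≤ k → k < n → μ.real (D k n) = 1 / k)
    (hR : ∀ n, R n = {ω | 2 ≤ n ∧ n ∈ T ∧ ∀ k, k < n → ω ∈ R k → ω ∉ D k n}) (n : ℕ) :
    ∫ ω, MM T R n ω ^ 2 ∂μ ≤ 7 := by
  have h0 : ∀ ω, Y R 0 ω = 1 := by
    intro ω
    have : yv R 1 ω = 1 := by
      unfold yv
      rw [Finset.prod_range_one, if_neg]
      intro h
      have := R_ge_two hR h
      omega
    simp [Y, this]
  have hY0 : ∫ ω, Y R 0 ω ∂μ = 1 := by simp [h0]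
  have hM0 : ∫ ω, MM T R 0 ω ^ 2 ∂μ = 1 := by simp [MM, h0, HH]
  have hY1 : ∫ ω, Y R 1 ω ∂μ = 1 := by
    have := integral_Y_succ hD hind hprob hR 0
    rw [zero_add] at this
    rw [this, hY0]
    simp [cc]
  have hM1 : ∫ ω, MM T R 1 ω ^ 2 ∂μ ≤ 1 := by
    have := integral_MM_sq_succ hD hind hprob hR 0
    rw [zero_add, hM0] at this
    simpa using this
  have hYpos : ∀ n, 0 ≤ ∫ ω, Y R n ω ∂μ := fun n => integral_nonneg fun ω => by
    have := Y_ge_one hR n ω
    simp only [Pi.zero_apply]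
    linarith
  rcases n with _ | n
  · rw [hM0]; norm_num
  · have h := potential (a := fun n => ∫ ω, MM T R n ω ^ 2 ∂μ) (b := fun n => ∫ ω, Y R n ω ∂μ)
      hYpos (integral_MM_sq_succ hD hind hprob hR) (fun n => by
        rw [integral_Y_succ hD hind hprob hR]
        have := cc_le T n
        linarith) n
    simp only [hY1] at h
    have h2 : 0 ≤ 2 * (∫ ω, Y R (n + 1) ω ∂μ + 2) / ((n : ℝ) + 1) := by
      have := hYpos (n + 1)
      positivity
    linarith

lemma ae_bounded [IsProbabilityMeasure μ] (hD : ∀ k n, MeasurableSet (D k n))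
    (hind : iIndepSet (fun p : ℕ × ℕ => D p.1 p.2) μ)
    (hprob : ∀ k n, 2 ≤ k → k < n → μ.real (D k n) = 1 / k)
    (hR : ∀ n, R n = {ω | 2 ≤ n ∧ n ∈ T ∧ ∀ k, k < n → ω ∈ R k → ω ∉ D k n}) :
    ∀ᵐ ω ∂μ, ∃ K : ℝ, ∀ n, |MM T R n ω| ≤ K := by
  have hMm : ∀ n, Measurable (MM T R n) := fun n =>
    (MM_filmeas hD hR n).mono ((Fil hD).le n) le_rfl
  have hMi : ∀ n, Integrable (MM T R n) μ := fun n => bdd_int (hMm n) (MM_bound hR n)
  have hbdd : ∀ n, eLpNorm (MM T R n) 1 μ ≤ (8 : ℝ≥0) := by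
    intro n
    rw [eLpNorm_one_eq_lintegral_enorm, ← ofReal_integral_norm_eq_lintegral_enorm (hMi n)]
    have h1 : ∫ ω, ‖MM T R n ω‖ ∂μ ≤ 8 := by
      have hM2i : Integrable (fun ω => MM T R n ω ^ 2) μ :=
        bdd_int (C := (n + 1 + HH T n) ^ 2) ((hMm n).pow_const 2) fun ω => by
          rw [abs_pow]
          have := MM_bound (T := T) hR n ω
          gcongr
      calc ∫ ω, ‖MM T R n ω‖ ∂μ ≤ ∫ ω, (MM T R n ω ^ 2 + 1) ∂μ := by
            refine integral_mono (hMi n).norm (hM2i.add (integrable_const _)) fun ω => ?_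
            simp only [Real.norm_eq_abs]
            rw [← sq_abs]
            nlinarith [sq_nonneg (|MM T R n ω| - 1), abs_nonneg (MM T R n ω)]
        _ = ∫ ω, MM T R n ω ^ 2 ∂μ + 1 := by
            rw [integral_add hM2i (integrable_const _)]
            simp
        _ ≤ 8 := by
            have := integral_sq_le hD hind hprob hR n
            linarith
    calc ENNReal.ofReal (∫ ω, ‖MM T R n ω‖ ∂μ) ≤ ENNReal.ofReal 8 := ENNReal.ofReal_le_ofReal h1
      _ = ((8 : ℝ≥0) : ENNReal) := by norm_num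
  have hconv := (MM_martingale hD hind hprob hR).submartingale.exists_ae_tendsto_of_bdd hbdd
  filter_upwards [hconv] with ω hω
  obtain ⟨c, hc⟩ := hω
  obtain ⟨K, hK⟩ := (Metric.isBounded_range_of_tendsto _ hc).exists_norm_le
  exact ⟨K, fun n => hK _ ⟨n, rfl⟩⟩

/-! ### The compensator -/

open Classical in
/-- real indicator of `T` -/
noncomputable def tt (T : Set ℕ) (n : ℕ) : ℝ := if n ∈ T then 1 else 0

lemma tt_nonneg (T : Set ℕ) (n : ℕ) : 0 ≤ tt T n := by
  unfold tt; split_ifs <;> norm_num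

lemma sum_tt (T : Set ℕ) (n k : ℕ) :
    ∑ i ∈ Finset.range k, tt T (n + i + 1) = ((T ∩ Set.Ioc n (n + k)).ncard : ℝ) := by
  classical
  have h1 : T ∩ Set.Ioc n (n + k) = ((Finset.Ioc n (n + k)).filter (· ∈ T) : Finset ℕ) := by
    ext i; simp [and_comm]
  rw [h1, Set.ncard_coe_finset, Finset.card_filter]
  push_cast
  have h2 : Finset.Ioc n (n + k) = (Finset.range k).image (fun i => n + i + 1) := by
    ext i
    simp only [Finset.mem_Ioc, Finset.mem_image, Finset.mem_range]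
    constructor
    · rintro ⟨h1, h2⟩
      exact ⟨i - n - 1, by omega, by omega⟩
    · rintro ⟨j, hj, rfl⟩
      omega
  rw [h2, Finset.sum_image (by intro a _ b _ h; simpa using h)]
  rfl

lemma abel {a : ℕ → ℝ} {W : ℝ} (hS : ∀ n, |∑ i ∈ Finset.range n, a i| ≤ W) (n : ℕ) :
    |∑ i ∈ Finset.range n, a i / ((i : ℝ) + 1) - (∑ i ∈ Finset.range n, a i) / ((n : ℝ) + 1)| ≤
      W * (1 - 1 / ((n : ℝ) + 1)) := by
  induction n with
  | zero => simp
  | succ n ih =>
    have h1 : ∑ i ∈ Finset.range (n + 1), a i / ((i : ℝ) + 1) -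
        (∑ i ∈ Finset.range (n + 1), a i) / (((n + 1 : ℕ) : ℝ) + 1) =
        (∑ i ∈ Finset.range n, a i / ((i : ℝ) + 1) -
          (∑ i ∈ Finset.range n, a i) / ((n : ℝ) + 1)) +
        (∑ i ∈ Finset.range (n + 1), a i) * (1 / ((n : ℝ) + 1) - 1 / (((n + 1 : ℕ) : ℝ) + 1)) := by
      rw [Finset.sum_range_succ, Finset.sum_range_succ]
      ring
    rw [h1]
    have h2 : 0 ≤ 1 / ((n : ℝ) + 1) - 1 / (((n + 1 : ℕ) : ℝ) + 1) := by
      rw [sub_nonneg]
      apply one_div_le_one_div_of_le (by positivity)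
      push_cast; linarith
    calc _ ≤ |∑ i ∈ Finset.range n, a i / ((i : ℝ) + 1) -
          (∑ i ∈ Finset.range n, a i) / ((n : ℝ) + 1)| +
        |(∑ i ∈ Finset.range (n + 1), a i) *
          (1 / ((n : ℝ) + 1) - 1 / (((n + 1 : ℕ) : ℝ) + 1))| := abs_add_le _ _
      _ ≤ W * (1 - 1 / ((n : ℝ) + 1)) +
          W * (1 / ((n : ℝ) + 1) - 1 / (((n + 1 : ℕ) : ℝ) + 1)) := by
          rw [abs_mul, abs_of_nonneg h2]
          gcongr
          exact hS _
      _ = _ := by ring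

lemma HH_succ_eq (T : Set ℕ) (n : ℕ) :
    HH T (n + 1) = ∑ i ∈ Finset.range n, tt T (i + 2) / ((i : ℝ) + 1) := by
  unfold HH
  rw [Finset.sum_range_succ']
  have : cc T 0 = 0 := by simp [cc]
  rw [this, add_zero]
  refine Finset.sum_congr rfl fun i _ => ?_
  unfold cc ee tt
  push_cast
  congr 1
  by_cases h : i + 2 ∈ T
  · rw [if_pos ⟨by omega, h⟩, if_pos h]
  · rw [if_neg (fun hh => h hh.2), if_neg h]

lemma HH_bound {θ W : ℝ} (hθ : 0 ≤ θ)
    (hT : ∀ n k : ℕ, |((T ∩ Set.Ioc n (n + k)).ncard : ℝ) - θ * k| ≤ W) (n : ℕ) :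
    |HH T (n + 1) - θ * Real.log (n + 1 : ℕ)| ≤ W + θ := by
  have hW0 : 0 ≤ W := (abs_nonneg _).trans (hT 0 0)
  have hS : ∀ n, |∑ i ∈ Finset.range n, (tt T (i + 2) - θ)| ≤ W := by
    intro n
    have h1 := hT 1 n
    rw [← sum_tt] at h1
    have h2 : ∑ i ∈ Finset.range n, (tt T (i + 2) - θ) =
        ∑ i ∈ Finset.range n, tt T (1 + i + 1) - θ * n := by
      rw [Finset.sum_sub_distrib]
      congr 1
      · refine Finset.sum_congr rfl fun i _ => ?_
        congr 1; omega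
      · simp [mul_comm]
    rw [h2]; exact h1
  have h3 := abel hS n
  have h4 : |∑ i ∈ Finset.range n, (tt T (i + 2) - θ) / ((i : ℝ) + 1)| ≤ W := by
    have h5 : |(∑ i ∈ Finset.range n, (tt T (i + 2) - θ)) / ((n : ℝ) + 1)| ≤ W / ((n : ℝ) + 1) := by
      rw [abs_div, abs_of_nonneg (by positivity : (0 : ℝ) ≤ (n : ℝ) + 1)]
      gcongr
      exact hS n
    have h6 := abs_sub_abs_le_abs_sub (∑ i ∈ Finset.range n, (tt T (i + 2) - θ) / ((i : ℝ) + 1))
      ((∑ i ∈ Finset.range n, (tt T (i + 2) - θ)) / ((n : ℝ) + 1))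
    have h7 : W * (1 - 1 / ((n : ℝ) + 1)) + W / ((n : ℝ) + 1) = W := by
      field_simp; ring
    linarith
  have h5 : HH T (n + 1) = ∑ i ∈ Finset.range n, (tt T (i + 2) - θ) / ((i : ℝ) + 1) +
      θ * (harmonic n : ℝ) := by
    rw [HH_succ_eq]
    have : (harmonic n : ℝ) = ∑ i ∈ Finset.range n, 1 / ((i : ℝ) + 1) := by
      unfold harmonic
      push_cast
      simp
    rw [this, Finset.mul_sum, ← Finset.sum_add_distrib]
    refine Finset.sum_congr rfl fun i _ => ?_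
    ring
  have h6 := log_add_one_le_harmonic n
  have h7 := harmonic_le_one_add_log n
  have h8 : Real.log n ≤ Real.log (n + 1 : ℕ) := by
    rcases Nat.eq_zero_or_pos n with h | h
    · subst h; simp
    · apply Real.log_le_log (by exact_mod_cast h)
      push_cast; linarith
  have h9 : |θ * (harmonic n : ℝ) - θ * Real.log (n + 1 : ℕ)| ≤ θ := by
    rw [← mul_sub, abs_mul, abs_of_nonneg hθ]
    have : |(harmonic n : ℝ) - Real.log (n + 1 : ℕ)| ≤ 1 := by
      rw [abs_le]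
      constructor <;> linarith
    nlinarith
  rw [h5]
  have h10 : ∑ i ∈ Finset.range n, (tt T (i + 2) - θ) / ((i : ℝ) + 1) +
      θ * (harmonic n : ℝ) - θ * Real.log (n + 1 : ℕ) =
      ∑ i ∈ Finset.range n, (tt T (i + 2) - θ) / ((i : ℝ) + 1) +
      (θ * (harmonic n : ℝ) - θ * Real.log (n + 1 : ℕ)) := by ring
  rw [h10]
  exact (abs_add_le _ _).trans (by linarith)

theorem main [IsProbabilityMeasure μ] (hD : ∀ k n, MeasurableSet (D k n))
    (hind : iIndepSet (fun p : ℕ × ℕ => D p.1 p.2) μ)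
    (hprob : ∀ k n, 2 ≤ k → k < n → μ.real (D k n) = 1 / k)
    (hR : ∀ n, R n = {ω | 2 ≤ n ∧ n ∈ T ∧ ∀ k, k < n → ω ∈ R k → ω ∉ D k n})
    {θ W : ℝ} (hθ : 0 < θ)
    (hT : ∀ n k : ℕ, |((T ∩ Set.Ioc n (n + k)).ncard : ℝ) - θ * k| ≤ W)
    {t : ℕ → ℝ} (ht : ∀ n, 0 ≤ t n) :
    ((Summable fun n : ℕ => tt T n * Real.exp (-t n / Real.log n) / Real.log n) →
      ∀ᵐ ω ∂μ, {n : ℕ | ω ∈ R n ∧ ∀ m : ℕ, n < m → (m : ℝ) - n - 1 < t n → ω ∉ R m}.Finite) ∧
    ((¬ Summable fun n : ℕ => tt T n * Real.exp (-t n / Real.log n) / Real.log n) →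
      ∀ᵐ ω ∂μ, {n : ℕ | ω ∈ R n ∧ ∀ m : ℕ, n < m → (m : ℝ) - n - 1 < t n → ω ∉ R m}.Infinite) := by
  have hW0 : 0 ≤ W := (abs_nonneg _).trans (hT 0 0)
  set w : ℕ → ℝ := fun n => tt T n / θ with hw
  have hw0 : ∀ n, 0 ≤ w n := fun n => div_nonneg (tt_nonneg T n) hθ.le
  have hwW : ∀ n k : ℕ, |∑ i ∈ Finset.range k, w (n + i + 1) - k| ≤ W / θ := by
    intro n k
    have h1 : ∑ i ∈ Finset.range k, w (n + i + 1) - k =
        (((T ∩ Set.Ioc n (n + k)).ncard : ℝ) - θ * k) / θ := by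
      rw [← sum_tt]
      simp only [hw]
      rw [← Finset.sum_div]
      field_simp
    rw [h1, abs_div, abs_of_pos hθ]
    gcongr
    exact hT n k
  have hcond : ∀ᵐ ω ∂μ, ∃ K : ℝ, ∀ᶠ n : ℕ in atTop,
      |(μ[(R (n + 1)).indicator (fun _ => (1 : ℝ)) | Fil hD n]) ω -
        w (n + 1) / Real.log (n + 1 : ℕ)| ≤ K * w (n + 1) / Real.log (n + 1 : ℕ) ^ 2 := by
    have hall := ae_all_iff.mpr fun n => condExp_R hD hind hprob hR n
    filter_upwards [hall, ae_bounded hD hind hprob hR] with ω hω1 hω2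
    obtain ⟨K0, hK0⟩ := hω2
    set K1 := K0 + 1 + (W + θ) with hK1
    have hK0' : 0 ≤ K0 := (abs_nonneg _).trans (hK0 0)
    have hY : ∀ n : ℕ, |Y R n ω - θ * Real.log (n + 1 : ℕ)| ≤ K1 := by
      intro n
      have h1 := hK0 n
      have h2 := HH_bound (T := T) hθ.le hT n
      have h3 : HH T (n + 1) = HH T n + cc T n := by
        unfold HH; rw [Finset.sum_range_succ]
      have h4 := cc_nonneg T n
      have h5 : cc T n ≤ 1 := by
        refine (cc_le T n).trans ?_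
        rcases Nat.eq_zero_or_pos n with h | h
        · subst h; simp
        · rw [div_le_one (by exact_mod_cast h)]
          exact_mod_cast h
      unfold MM at h1
      rw [abs_le] at h1 h2 ⊢
      constructor <;> linarith [h1.1, h1.2, h2.1, h2.2]
    refine ⟨2 * K1 / θ, ?_⟩
    have hlog : Tendsto (fun n : ℕ => Real.log (n + 1 : ℕ)) atTop atTop :=
      Real.tendsto_log_atTop.comp (tendsto_natCast_atTop_atTop.comp (tendsto_add_atTop_nat 1))
    filter_upwards [hlog.eventually_ge_atTop (2 * K1 / θ), hlog.eventually_ge_atTop 1,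
      eventually_ge_atTop 1] with n hn1 hn2 hn3
    have h1 : (μ[(R (n + 1)).indicator (fun _ => (1 : ℝ)) | Fil hD n]) ω =
        ee T n * yv R (n + 1) ω := (hω1 n).symm
    rw [h1]
    have hℓ0 : 0 < Real.log (n + 1 : ℕ) := by linarith
    by_cases h : n + 1 ∈ T
    · have h2 : ee T n = 1 := by
        unfold ee
        rw [if_pos ⟨by omega, h⟩]
      have h3 : w (n + 1) = 1 / θ := by
        simp only [hw, tt, if_pos h]
      rw [h2, h3, one_mul]
      have h4 : yv R (n + 1) ω = (Y R n ω)⁻¹ := by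
        unfold Y; rw [inv_inv]
      rw [h4]
      set ℓ := Real.log ((n + 1 : ℕ) : ℝ) with hℓ
      have h5 := hY n
      rw [← hℓ] at h5
      rw [div_le_iff₀ hθ] at hn1
      have h6 : θ * ℓ / 2 ≤ Y R n ω := by
        have := (abs_le.mp h5).1
        linarith
      have hYpos : 0 < Y R n ω := by
        have := Y_ge_one hR n ω
        linarith
      have h7 : (Y R n ω)⁻¹ - 1 / θ / ℓ = (θ * ℓ - Y R n ω) / (Y R n ω * (θ * ℓ)) := by
        field_simp
      rw [h7, abs_div, abs_of_pos (by positivity : 0 < Y R n ω * (θ * ℓ)), abs_sub_comm]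
      calc |Y R n ω - θ * ℓ| / (Y R n ω * (θ * ℓ)) ≤ K1 / (θ * ℓ / 2 * (θ * ℓ)) := by
            gcongr
        _ = 2 * K1 / θ * (1 / θ) / ℓ ^ 2 := by field_simp
    · have h2 : ee T n = 0 := by
        unfold ee
        rw [if_neg (fun hh => h hh.2)]
      have h3 : w (n + 1) = 0 := by
        simp only [hw, tt, if_neg h, zero_div]
      rw [h2, h3]
      simp
  have hmain := Pool.Agent.Helper88.GapCore.main (μ := μ) (ℱ := Fil hD) (R_meas hD hR) hw0 hwW
    hcond ht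
  have hsum : (Summable fun n : ℕ => w n * Real.exp (-t n / Real.log n) / Real.log n) ↔
      Summable fun n : ℕ => tt T n * Real.exp (-t n / Real.log n) / Real.log n := by
    have h1 : (fun n : ℕ => w n * Real.exp (-t n / Real.log n) / Real.log n) =
        fun n : ℕ => (1 / θ) * (tt T n * Real.exp (-t n / Real.log n) / Real.log n) := by
      ext n
      simp only [hw]
      ring
    rw [h1]
    exact summable_mul_left_iff (by positivity)
  exact ⟨fun h => hmain.1 (hsum.mpr h), fun h => hmain.2 (fun hcon => h (hsum.mp hcon))⟩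

end Pool.Agent.Helper88.Hawkins
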