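import Pool.Agent.Helper16.Stickelberger

set_option autoImplicit false

open Pool.Agent.Helper16

namespace Pool.Agent.Helper88.OortTrace

theorem exists_valuation {p : ℕ} (hp : p.Prime) : ∃ O : ValuationSubring ℂ, (p : ℂ) ∈ O.nonunits := by
  let A : Subring ℂ := (Int.castRingHom ℂ).range
  let x : A := ⟨(p : ℂ), ⟨(p : ℤ), by simp⟩⟩
  have hI : Ideal.span {x} ≠ ⊤ := by
    intro h
    rw [Ideal.span_singleton_eq_top] at h
    obtain ⟨y, hy⟩ := h.exists_right_inv
    obtain ⟨m, hm⟩ := y.2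
    have h1 : (p : ℂ) * (m : ℂ) = 1 := by
      have h0 : (p : ℂ) * (y : ℂ) = 1 := congrArg Subtype.val hy
      rw [← hm] at h0
      exact h0
    have h2 : (p : ℤ) * m = 1 := by exact_mod_cast h1
    have h3 : (p : ℤ) ∣ 1 := Dvd.intro _ h2
    have h4 : p ∣ 1 := by exact_mod_cast h3
    exact hp.one_lt.ne' (Nat.dvd_one.1 h4)
  obtain ⟨B, _, hB⟩ := Ideal.image_subset_nonunits_valuationSubring _ hI
  exact ⟨B, hB ⟨x, Ideal.subset_span rfl, rfl⟩⟩

theorem integer_of_mul {s : ℂ} (hs : IsIntegral ℤ s) {c n : ℤ} (hc : c ≠ 0) (h : (c : ℂ) * s = n) :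
    ∃ a : ℤ, s = a := by
  have hc' : (c : ℂ) ≠ 0 := by exact_mod_cast hc
  have e : s = algebraMap ℚ ℂ ((n : ℚ) / c) := by
    rw [eq_ratCast]
    push_cast
    rw [eq_div_iff hc', mul_comm]
    exact h
  rw [e] at hs
  have h1 : IsIntegral ℤ ((n : ℚ) / c) := (isIntegral_algebraMap_iff (algebraMap ℚ ℂ).injective).1 hs
  obtain ⟨a, ha⟩ := IsIntegrallyClosed.isIntegral_iff.1 h1
  refine ⟨a, ?_⟩
  rw [e, ← ha]
  simp

theorem isIntegral_jacobi {F : Type} [Field F] [Fintype F] {N : ℕ} (hN : 0 < N) (χ φ : MulChar F ℂ)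
    (hχ : χ ^ N = 1) (hφ : φ ^ N = 1) : IsIntegral ℤ (jacobiSum χ φ) := by
  have key : ∀ (ψ : MulChar F ℂ), ψ ^ N = 1 → ∀ x, IsIntegral ℤ (ψ x) := by
    intro ψ hψ x
    by_cases hx : IsUnit x
    · apply IsIntegral.of_pow hN
      rw [← MulChar.pow_apply' ψ hN.ne', hψ, MulChar.one_apply hx]
      exact isIntegral_one
    · rw [MulChar.map_nonunit ψ hx]
      exact isIntegral_zero
  unfold jacobiSum
  exact IsIntegral.sum _ fun x _ => (key χ hχ x).mul (key φ hφ _)

/-- valuation of an integer -/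
theorem val_int {p : ℕ} (hp : p.Prime) (O : ValuationSubring ℂ) (hO : (p : ℂ) ∈ O.nonunits) {a : ℤ} {k : ℕ}
    (h : O.valuation (a : ℂ) = O.valuation (p : ℂ) ^ k) : padicValInt p a = k := by
  have hfact : Fact p.Prime := ⟨hp⟩
  rw [ValuationSubring.mem_nonunits_iff] at hO
  have hp0 : O.valuation (p : ℂ) ≠ 0 := by
    rw [Valuation.ne_zero_iff]
    exact_mod_cast hp.ne_zero
  have ha0 : a ≠ 0 := by
    rintro rfl
    rw [Int.cast_zero, map_zero] at h
    exact pow_ne_zero k hp0 h.symm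
  obtain ⟨m, hm⟩ := padicValInt_dvd (p := p) a
  have hpm : ¬ (p : ℤ) ∣ m := by
    rintro ⟨c, rfl⟩
    have h1 : (p : ℤ) ^ (padicValInt p a + 1) ∣ a := ⟨c, by rw [pow_succ, mul_assoc]; exact hm⟩
    rw [padicValInt_dvd_iff] at h1
    rcases h1 with h1 | h1
    · exact ha0 h1
    · omega
  have hle : ∀ z : ℤ, O.valuation (z : ℂ) ≤ 1 := by
    intro z
    rw [ValuationSubring.valuation_le_one_iff]
    exact intCast_mem O z
  have hvm : O.valuation (m : ℂ) = 1 := by
    rcases (hle m).lt_or_eq with hlt | heq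
    · exfalso
      have hcop : IsCoprime (p : ℤ) m := (Nat.prime_iff_prime_int.1 hp).coprime_iff_not_dvd.2 hpm
      obtain ⟨u, w, huw⟩ := hcop
      have h1 : O.valuation ((u : ℂ) * p + w * m) = 1 := by
        have : (u : ℂ) * p + w * m = 1 := by exact_mod_cast huw
        rw [this, map_one]
      have h2 : O.valuation ((u : ℂ) * p + w * m) < 1 := by
        refine lt_of_le_of_lt (Valuation.map_add _ _ _) (max_lt ?_ ?_)
        · rw [map_mul]
          exact (mul_le_mul' (hle u) le_rfl).trans_lt (by rw [one_mul]; exact hO)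
        · rw [map_mul]
          exact (mul_le_mul' (hle w) le_rfl).trans_lt (by rw [one_mul]; exact hlt)
      rw [h1] at h2
      exact lt_irrefl _ h2
    · exact heq
  have h3 : O.valuation (a : ℂ) = O.valuation (p : ℂ) ^ padicValInt p a := by
    have : (a : ℂ) = (p : ℂ) ^ padicValInt p a * m := by exact_mod_cast hm
    conv_lhs => rw [this]
    rw [map_mul, hvm, mul_one, map_pow]
  rw [h3] at h
  have hpos : 0 < O.valuation (p : ℂ) := zero_lt_iff.2 hp0
  rcases lt_trichotomy (padicValInt p a) k with hlt | heq | hgt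
  · exact absurd h (pow_lt_pow_right_of_lt_one₀ hpos hO hlt).ne'
  · exact heq
  · exact absurd h (pow_lt_pow_right_of_lt_one₀ hpos hO hgt).ne

theorem exists_trace_of {p : ℕ} (hp : p.Prime) (h33 : (p : ZMod 67) ^ 33 = 1)
    (h3 : (p : ZMod 67) ^ 3 ≠ 1) {k : Type} [Field k] [Fintype k]
    (hk : Fintype.card k = p ^ 33) (χ : MulChar k ℂ) (hχ : orderOf χ = 67)
    (hD : ∃ n : ℤ, 33 * (-jacobiSum χ (χ ^ 29) + -jacobiSum χ⁻¹ (χ⁻¹ ^ 29)) = n) :
    ∃ a : ℤ, -jacobiSum χ (χ ^ 29) + -jacobiSum χ⁻¹ (χ⁻¹ ^ 29) = a ∧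
      -jacobiSum χ (χ ^ 29) * -jacobiSum χ⁻¹ (χ⁻¹ ^ 29) = (p : ℂ) ^ 33 ∧
      padicValInt p a = 15 := by
  have hχ67 : χ ^ 67 = 1 := by rw [← hχ]; exact pow_orderOf_eq_one χ
  have hne : ∀ j : ℕ, 0 < j → j < 67 → χ ^ j ≠ 1 := by
    intro j hj hj2 hcon
    have := orderOf_dvd_of_pow_eq_one hcon
    rw [hχ] at this
    have := Nat.le_of_dvd hj this
    omega
  have hint : IsIntegral ℤ (-jacobiSum χ (χ ^ 29) + -jacobiSum χ⁻¹ (χ⁻¹ ^ 29)) := by
    have h1 : (χ ^ 29) ^ 67 = 1 := by rw [← pow_mul, mul_comm, pow_mul, hχ67, one_pow]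
    have h2 : (χ⁻¹) ^ 67 = 1 := by rw [inv_pow, hχ67, inv_one]
    have h4 : (χ⁻¹ ^ 29) ^ 67 = 1 := by rw [← pow_mul, mul_comm, pow_mul, h2, one_pow]
    exact ((isIntegral_jacobi (by norm_num) _ _ hχ67 h1).neg).add
      ((isIntegral_jacobi (by norm_num) _ _ h2 h4).neg)
  obtain ⟨n, hn⟩ := hD
  obtain ⟨a, ha⟩ := integer_of_mul hint (c := 33) (n := n) (by norm_num) (by push_cast; exact hn)
  refine ⟨a, ha, ?_, ?_⟩
  · rw [neg_mul_neg]
    have hchar : ringChar ℂ ≠ ringChar k := by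
      rw [ringChar.eq_zero]
      intro h0
      have h1 : ringChar k = p := by
        have hc : CharP k p := by
          rw [CharP.charP_iff_prime_eq_zero hp]
          have h : ((Fintype.card k : ℕ) : k) = 0 := FiniteField.cast_card_eq_zero k
          rw [hk, Nat.cast_pow] at h
          exact eq_zero_of_pow_eq_zero h
        exact ringChar.eq k p
      rw [h1] at h0
      exact hp.ne_zero h0.symm
    have h1 := jacobiSum_mul_jacobiSum_inv hchar (χ := χ) (φ := χ ^ 29)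
      (by simpa using hne 1 (by norm_num) (by norm_num)) (hne 29 (by norm_num) (by norm_num))
      (by rw [← pow_succ']; exact hne 30 (by norm_num) (by norm_num))
    rw [← inv_pow] at h1
    rw [h1, hk]
    push_cast
    rfl
  · obtain ⟨O, hO⟩ := exists_valuation hp
    apply val_int hp O hO
    rw [← ha]
    have hO' := hO
    rw [ValuationSubring.mem_nonunits_iff] at hO'
    have hpos : 0 < O.valuation (p : ℂ) := by
      rw [zero_lt_iff, Valuation.ne_zero_iff]
      exact_mod_cast hp.ne_zero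
    have hlt : O.valuation (p : ℂ) ^ 18 < O.valuation (p : ℂ) ^ 15 :=
      pow_lt_pow_right_of_lt_one₀ hpos hO' (by norm_num)
    rcases stickelberger67 hp h33 h3 hk O hO χ hχ with ⟨h5, h6⟩ | ⟨h5, h6⟩
    · rw [Valuation.map_add_eq_of_lt_left]
      · rw [Valuation.map_neg, h5]
      · rw [Valuation.map_neg, Valuation.map_neg, h5, h6]; exact hlt
    · rw [Valuation.map_add_eq_of_lt_right]
      · rw [Valuation.map_neg, h6]
      · rw [Valuation.map_neg, Valuation.map_neg, h5, h6]; exact hlt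

end Pool.Agent.Helper88.OortTrace
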